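import Mathlib
import Pool.Agent.Work.MP_40574a_nt.SieveMain

/-! A Brun-Hooley upper bound sieve, uniform in the density function. -/

namespace Pool.Agent.Work.MP_713a1e_co

open Finset Pool.Agent.Work.MP_40574a_nt.BrunHooley Pool.Agent.Work.MP_40574a_nt.Mertens
  Pool.Agent.Work.MP_40574a_nt.Params Pool.Agent.Work.MP_40574a_nt.SieveMain

noncomputable section

/-- block sums of `4 / q` -/
lemma block_sum4 : ∃ w0 : ℝ, 2 ≤ w0 ∧ ∀ w, w0 ≤ w → ∀ a b : ℝ, w ≤ a → a ≤ b →
    Real.log b ≤ (5 / 3) * Real.log a → 4 * ∑ q ∈ PB a b, (1 : ℝ) / q ≤ 2.05 := by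
  obtain ⟨C, hC, h⟩ := mertens_second
  refine ⟨max 2 (Real.exp (800 * C)), le_max_left _ _, fun w hw a b ha hab hlog => ?_⟩
  have hw2 : 2 ≤ w := (le_max_left _ _).trans hw
  have hw3 : Real.exp (800 * C) ≤ w := (le_max_right _ _).trans hw
  have ha2 : 2 ≤ a := hw2.trans ha
  have hla : 800 * C ≤ Real.log a := by
    rw [Real.le_log_iff_exp_le (by linarith)]
    exact hw3.trans ha
  have hla0 : 0 < Real.log a := Real.log_pos (by linarith)
  have h2 := h a b ha2 hab
  have h3 : Real.log (Real.log b / Real.log a) ≤ 0.511 := by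
    refine le_trans (Real.log_le_log ?_ ?_) log_five_thirds
    · exact div_pos (Real.log_pos (by linarith)) hla0
    · rw [div_le_iff₀ hla0]; exact hlog
  have h4 : C / Real.log a ≤ 1 / 800 := by
    rw [div_le_div_iff₀ hla0 (by norm_num)]
    linarith
  have h5 : 4 * ((0.511 : ℝ) + 1 / 800) ≤ 2.05 := by norm_num
  linarith

variable {g : ℕ → ℝ}

lemma sum_g_le (hg4 : ∀ q : ℕ, q.Prime → g q ≤ 4 * (1 / q)) {s : Finset ℕ}
    (hs : ∀ q ∈ s, q.Prime) : ∑ q ∈ s, g q ≤ 4 * ∑ q ∈ s, (1 : ℝ) / q := by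
  rw [mul_sum]
  exact sum_le_sum fun q hq => hg4 q (hs q hq)

lemma Vg_ge_exp (hg0 : ∀ q, 0 ≤ g q) (hg4 : ∀ q : ℕ, q.Prime → g q ≤ 4 * (1 / q))
    {s : Finset ℕ} (hs : ∀ q ∈ s, q.Prime ∧ 8 ≤ q) :
    Real.exp (-(∑ q ∈ s, g q + 2 * ∑ q ∈ s, g q ^ 2)) ≤ V g s := by
  unfold V
  have : -(∑ q ∈ s, g q + 2 * ∑ q ∈ s, g q ^ 2) = ∑ q ∈ s, (-(g q + 2 * g q ^ 2)) := by
    rw [sum_neg_distrib, sum_add_distrib, mul_sum]
  rw [this, Real.exp_sum]
  refine prod_le_prod (fun q _ => (Real.exp_pos _).le) fun q hq => ?_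
  refine exp_le_one_sub (hg0 q) ((hg4 q (hs q hq).1).trans ?_)
  have : (8 : ℝ) ≤ q := by exact_mod_cast (hs q hq).2
  rw [mul_one_div, div_le_div_iff₀ (by linarith) (by norm_num)]
  linarith

lemma block_Vg (hg0 : ∀ q, 0 ≤ g q) (hg4 : ∀ q : ℕ, q.Prime → g q ≤ 4 * (1 / q))
    {w a b : ℝ} (hw : 2000 ≤ w) (ha : w ≤ a) (hab : a ≤ b)
    (hsum : ∑ q ∈ PB a b, g q ≤ 2.05) : Real.exp (-2.06) ≤ V g (PB a b) := by
  have hmem : ∀ q ∈ PB a b, q.Prime ∧ a < q := fun q hq =>
    ⟨PB_prime q hq, ((mem_PB (by linarith) (by linarith)).1 hq).2.1⟩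
  refine le_trans ?_ (Vg_ge_exp hg0 hg4 fun q hq => ⟨(hmem q hq).1, ?_⟩)
  · rw [Real.exp_le_exp]
    have h1 : ∑ q ∈ PB a b, g q ^ 2 ≤ (1 / 500) * ∑ q ∈ PB a b, g q := by
      rw [mul_sum]
      refine sum_le_sum fun q hq => ?_
      have h0 := hg0 q
      have h2 : g q ≤ 1 / 500 := by
        refine (hg4 q (hmem q hq).1).trans ?_
        have : (2000 : ℝ) ≤ q := by linarith [(hmem q hq).2]
        rw [mul_one_div, div_le_div_iff₀ (by linarith) (by norm_num)]
        linarith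
      nlinarith
    norm_num at hsum ⊢
    linarith
  · have : (8 : ℝ) < q := by linarith [(hmem q hq).2]
    exact_mod_cast this.le

lemma prod_Vg_eq {w z : ℝ} {J : ℕ} (hw : 1 ≤ w) (hz : w ≤ z) (hJ : Z z J ≤ w) :
    ∏ j ∈ range (J + 1), V g (Blk w z J j) = V g (PB 1 z) := by
  rw [← Qs_eq hw hz hJ]
  unfold V Qs
  rw [prod_biUnion]
  intro i _ j _ hij
  rcases lt_or_gt_of_ne hij with h | h
  · exact Blk_disj (by linarith) (by linarith) i j h
  · exact (Blk_disj (by linarith) (by linarith) j i h).symm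

/-- Uniform Brun-Hooley upper bound. -/
theorem brun_upper : ∃ C z0 : ℝ, 0 < C ∧ 2 ≤ z0 ∧ ∀ (α : Type) (A : Finset α)
    (dv : ℕ → α → Prop) [∀ q m, Decidable (dv q m)] (g : ℕ → ℝ) (X : ℝ), 0 ≤ X →
    (∀ q, 0 ≤ g q) → (∀ q : ℕ, q.Prime → g q < 1) → (∀ q : ℕ, q.Prime → g q ≤ 4 * (1 / q)) →
    Good A dv Nat.Prime g 4 X ∅ (fun _ => (1 : ℝ)) 1 1 → ∀ z : ℝ, z0 ≤ z →
    ∀ S : Finset α, S ⊆ A → (∀ m ∈ S, ∀ q : ℕ, q.Prime → (q : ℝ) ≤ z → ¬ dv q m) →
    (S.card : ℝ) ≤ 2 * X * ∏ q ∈ PB 1 z, (1 - g q) + C * z ^ 22 := by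
  obtain ⟨w1, hw1, hblock⟩ := block_sum4
  obtain ⟨w2, hcard⟩ := card_PB_le
  set w := max 2000 (max w1 w2) with hw
  have hw2000 : 2000 ≤ w := le_max_left _ _
  have hww1 : w1 ≤ w := (le_max_left _ _).trans (le_max_right _ _)
  have hww2 : w2 ≤ w := (le_max_right _ _).trans (le_max_right _ _)
  set D : ℝ := (1 + 4) ^ (PB 1 w).card with hD
  have hDpos : 0 < D := by positivity
  refine ⟨D, w, by positivity, by linarith,
    fun α A dv _ g X hX hg0 hg1' hg4 hgood z hz S hSA hSm => ?_⟩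
  have hz1 : 1 ≤ z := by linarith
  have hz0 : 0 < z := by linarith
  have hlz : 0 < Real.log z := Real.log_pos (by linarith)
  obtain ⟨J, hJ1, hJ2⟩ := exists_J z (show 2 ≤ w by linarith)
  set B := Blk w z J with hB
  set b' := bb w J with hb'
  have hg : ∀ j, ∀ q ∈ B j, 0 ≤ g q := fun j q _ => hg0 q
  have hg1 : ∀ j, ∀ q ∈ B j, g q < 1 := fun j q hq => hg1' q (Blk_prime j q hq)
  have hdis := Blk_disj (w := w) (z := z) (J := J) (by linarith) hz1
  have hbj : ∀ j, J ≤ j → b' j = (PB 1 w).card := by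
    intro j hj; rw [hb']; unfold bb; rw [if_neg (by omega)]
  have hbj' : ∀ j, j < J → b' j = 4 + j / 3 := by
    intro j hj; rw [hb']; unfold bb; rw [if_pos hj]
  have hcardJ : ∀ j, J ≤ j → (B j).card < 2 * b' j + 1 := by
    intro j hj
    rw [hbj j hj]
    rcases Nat.eq_or_lt_of_le hj with h | h
    · subst h
      rw [hB, Blk_eq]; omega
    · rw [hB, Blk_gt h]; simp
  -- block sums for the large blocks
  have hsum : ∀ j < J, ∑ q ∈ B j, g q ≤ 2.05 := by
    intro j hj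
    refine (sum_g_le hg4 (fun q hq => Blk_prime j q hq)).trans ?_
    rw [Blk_lt hj]
    refine hblock w hww1 _ _ (le_max_left _ _) (max_le (hJ2 j hj).le (Z_anti hz1 (by omega))) ?_
    have h1 : Real.log (Z z (j + 1)) ≤ Real.log (max w (Z z (j + 1))) :=
      Real.log_le_log (Z_pos _ _) (le_max_right _ _)
    rw [log_Z] at h1 ⊢
    rw [pow_succ] at h1
    nlinarith
  have hVj : ∀ j < J, Real.exp (-2.06) ≤ V g (B j) := by
    intro j hj
    have := hsum j hj
    rw [hB, Blk_lt hj] at this ⊢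
    exact block_Vg hg0 hg4 hw2000 (le_max_left _ _)
      (max_le (hJ2 j hj).le (Z_anti hz1 (by omega))) this
  -- the tau's
  set τ : ℕ → ℝ := fun j => if j < J then c9 * rho ^ (j / 3) else 0 with hτdef
  have hrho : 0 ≤ rho := by unfold rho; positivity
  have hc9 : 0 ≤ c9 := by unfold c9; positivity
  have hτ0 : ∀ j, 0 ≤ τ j := by
    intro j
    simp only [hτdef]
    split_ifs
    · positivity
    · exact le_rfl
  have hτ : ∀ j, es g (B j) (2 * b' j + 1) ≤ τ j * V g (B j) := by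
    intro j
    by_cases hj : j < J
    · simp only [hτdef, if_pos hj]
      rw [hbj' j hj]
      have h1 := es_le_pow (hg j) (2 * (4 + j / 3) + 1)
      have hs0 : 0 ≤ ∑ q ∈ B j, g q := sum_nonneg (hg j)
      have h2 : (∑ q ∈ B j, g q) ^ (2 * (4 + j / 3) + 1) ≤ (2.05 : ℝ) ^ (2 * (4 + j / 3) + 1) :=
        pow_le_pow_left₀ hs0 (hsum j hj) _
      have hfpos : (0 : ℝ) < ((2 * (4 + j / 3) + 1).factorial : ℝ) := by
        exact_mod_cast Nat.factorial_pos _
      have h3 : es g (B j) (2 * (4 + j / 3) + 1) ≤ ((2.05) ^ 9 / 362880) * rho ^ (j / 3) := by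
        refine h1.trans ((div_le_div_of_nonneg_right h2 hfpos.le).trans ?_)
        exact pow_div_factorial_le (j / 3)
      have h4 := hVj j hj
      have h5 : 1 ≤ 7.87 * V g (B j) := by
        have h6 : Real.exp 2.06 * Real.exp (-2.06) = 1 := by
          rw [← Real.exp_add]; norm_num
        calc 1 = Real.exp 2.06 * Real.exp (-2.06) := h6.symm
          _ ≤ 7.87 * V g (B j) := by
            have := exp_206
            gcongr
      have h7 : (0 : ℝ) ≤ ((2.05) ^ 9 / 362880) * rho ^ (j / 3) := by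
        positivity
      calc es g (B j) (2 * (4 + j / 3) + 1) ≤ ((2.05) ^ 9 / 362880) * rho ^ (j / 3) * 1 := by
            linarith
        _ ≤ ((2.05) ^ 9 / 362880) * rho ^ (j / 3) * (7.87 * V g (B j)) := by gcongr
        _ = c9 * rho ^ (j / 3) * V g (B j) := by unfold c9; ring
    · simp only [hτdef, if_neg hj, zero_mul]
      unfold es
      rw [powersetCard_eq_empty.2 (hcardJ j (by omega)), sum_empty]
  have hτsum : ∑ j ∈ range (J + 1), τ j ≤ 0.044 := by
    rw [sum_range_succ]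
    have h1 : τ J = 0 := by simp [hτdef]
    rw [h1, add_zero]
    have h2 : ∑ j ∈ range J, τ j = ∑ j ∈ range J, c9 * rho ^ (j / 3) :=
      sum_congr rfl fun j hj => by simp [hτdef, mem_range.1 hj]
    rw [h2]
    exact sum_tau J
  -- error terms
  set n : ℕ → ℝ := fun j => if j < J then (Z z j) ^ (2 * b' j) else (1 + 4) ^ (B j).card with hn
  have hn0 : ∀ j, 0 ≤ n j := by
    intro j
    simp only [hn]
    split_ifs
    · exact pow_nonneg (Z_pos _ _).le _
    · positivity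
  set r : ℕ → ℝ := fun j => if j < J then Z z j else 0 with hr
  have hr0 : ∀ j, 0 ≤ r j := by
    intro j
    simp only [hr]
    split_ifs
    · exact (Z_pos _ _).le
    · exact le_rfl
  have hcj : ∀ j < J, 1 + 4 * ((B j).card : ℝ) ≤ Z z j := by
    intro j hj
    rw [hB, Blk_lt hj]
    exact hcard _ _ (hww2.trans (hJ2 j hj).le)
  have hn' : ∀ j, ∑ S ∈ TS (B j) (2 * b' j), |(-1 : ℝ) ^ S.card| * 4 ^ S.card ≤ n j := by
    intro j
    by_cases hj : j < J
    · simp only [hn, if_pos hj]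
      refine (err_TS_le (by norm_num) (B j) (2 * b' j)).trans ?_
      exact pow_le_pow_left₀ (by positivity) (hcj j hj) _
    · simp only [hn, if_neg hj]
      exact err_TS_le' (by norm_num) _ _
  have hr' : ∀ j, ∑ S ∈ (B j).powersetCard (2 * b' j + 1), |(1 : ℝ)| * 4 ^ S.card ≤
      r j * n j := by
    intro j
    by_cases hj : j < J
    · simp only [hn, hr, if_pos hj]
      refine (err_powersetCard_le (by norm_num) (B j) (2 * b' j + 1)).trans ?_
      refine (pow_le_pow_left₀ (by positivity) (hcj j hj) _).trans (le_of_eq ?_)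
      rw [pow_succ]; ring
    · simp only [hn, hr, if_neg hj, zero_mul]
      rw [powersetCard_eq_empty.2 (hcardJ j (by omega)), sum_empty]
  have hN := NUL_le (K := 4) (B := B) (b := b') (by norm_num) n r hn0 hr0 hn' hr' (J + 1)
  have hprod : ∏ j ∈ range (J + 1), n j ≤ D * Real.exp (21.378 * Real.log z) := by
    rw [prod_range_succ]
    have h1 : n J = D := by
      simp only [hn, lt_irrefl, if_false, hB, Blk_eq]
      rfl
    have h2 : ∏ j ∈ range J, n j =
        Real.exp ((∑ j ∈ range J, (2 * ((4 + j / 3 : ℕ) : ℝ)) * (3 / 5 : ℝ) ^ j) *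
          Real.log z) := by
      rw [sum_mul, Real.exp_sum]
      refine prod_congr rfl fun j hj => ?_
      have hj' := mem_range.1 hj
      simp only [hn, if_pos hj']
      rw [hbj' j hj']
      unfold Z
      rw [← Real.exp_nat_mul]
      congr 1
      push_cast
      ring
    rw [h1, h2, mul_comm]
    have h3 := sum_U J
    gcongr
  have hexp : Real.exp (21.378 * Real.log z) ≤ z ^ 22 := by
    have h1 : z ^ 22 = Real.exp (22 * Real.log z) := by
      rw [show (22 : ℝ) * Real.log z = ((22 : ℕ) : ℝ) * Real.log z by norm_num,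
        Real.exp_nat_mul, Real.exp_log hz0]
    rw [h1, Real.exp_le_exp]
    nlinarith
  have hmain : (MUL g B b' (J + 1)).1 ≤ 2 * ∏ q ∈ PB 1 z, (1 - g q) := by
    refine (MUL_fst_le (b := b') hg hg1 τ hτ (J + 1)).trans ?_
    rw [prod_mul_distrib]
    have hP : ∏ j ∈ range (J + 1), V g (B j) = ∏ q ∈ PB 1 z, (1 - g q) := by
      rw [hB, prod_Vg_eq (by linarith) hz hJ1]; rfl
    rw [hP]
    have h0 : 0 ≤ ∏ q ∈ PB 1 z, (1 - g q) :=
      prod_nonneg fun q hq => by linarith [hg1' q (PB_prime q hq)]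
    refine mul_le_mul_of_nonneg_right ?_ h0
    calc ∏ j ∈ range (J + 1), (1 + τ j) ≤ ∏ j ∈ range (J + 1), Real.exp (τ j) := by
          refine prod_le_prod (fun j _ => by linarith [hτ0 j]) fun j _ => ?_
          linarith [Real.add_one_le_exp (τ j)]
      _ = Real.exp (∑ j ∈ range (J + 1), τ j) := (Real.exp_sum _ _).symm
      _ ≤ Real.exp 0.044 := Real.exp_le_exp.2 hτsum
      _ ≤ 1 / (1 - 0.044) :=
        (Real.exp_bound_div_one_sub_of_interval' (by norm_num) (by norm_num)).le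
      _ ≤ 2 := by norm_num
  have h1 := upper_bound (b := b') hgood Blk_prime hdis (J + 1) S hSA ∅ (by simp)
      (fun m hm => ⟨by
        unfold Sifted
        rw [Qs_eq (by linarith) hz hJ1]
        intro q hq
        rw [mem_PB zero_le_one (by linarith)] at hq
        exact hSm m hm q hq.1 hq.2.2, by simp⟩)
  rw [prod_empty, card_empty, pow_zero, mul_one, one_mul] at h1
  refine h1.trans ?_
  have h2 : (NUL 4 B b' (J + 1)).1 ≤ D * z ^ 22 :=
    hN.1.2.trans (hprod.trans (mul_le_mul_of_nonneg_left hexp hDpos.le))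
  have h3 : X * (MUL g B b' (J + 1)).1 ≤ X * (2 * ∏ q ∈ PB 1 z, (1 - g q)) :=
    mul_le_mul_of_nonneg_left hmain hX
  linarith

end

end Pool.Agent.Work.MP_713a1e_co
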