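import Mathlib
import Pool.Agent.Work.MP_713a1e_co.SieveGen

/-! Upper bound sieve for primes and prime pairs in arithmetic progressions, uniform in
the modulus. -/

namespace Pool.Agent.Work.MP_713a1e_co

open Finset hiding dens
open Pool.Agent.Work.MP_40574a_nt.BrunHooley Pool.Agent.Work.MP_40574a_nt.Mertens
  Pool.Agent.Work.MP_40574a_nt.Params Pool.Agent.Work.MP_40574a_nt.Count

noncomputable section

/-- the completely multiplicative function `1 / n` -/
def invHom : ℕ →* ℝ where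
  toFun n := 1 / (n : ℝ)
  map_one' := by simp
  map_mul' a b := by push_cast; rw [one_div_mul_one_div]

lemma PB_one_eq (z : ℝ) : PB 1 z = (⌊z⌋₊ + 1).primesBelow := by
  ext p
  unfold PB
  rw [Nat.floor_one, mem_filter, mem_Ioc, Nat.mem_primesBelow]
  constructor
  · rintro ⟨⟨_, h2⟩, h3⟩
    exact ⟨by omega, h3⟩
  · rintro ⟨h1, h2⟩
    exact ⟨⟨h2.one_lt, by omega⟩, h2⟩

lemma sum_inv_le_prod (N : ℕ) :
    ∑ n ∈ Icc 1 N, (1 : ℝ) / n ≤ ∏ p ∈ (N + 1).primesBelow, (1 - 1 / (p : ℝ))⁻¹ := by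
  have hlt : ∀ {p : ℕ}, p.Prime → ‖invHom p‖ < 1 := by
    intro p hp
    have h1 : (1 : ℝ) < p := by exact_mod_cast hp.one_lt
    change ‖1 / (p : ℝ)‖ < 1
    rw [Real.norm_of_nonneg (by positivity), div_lt_one (by linarith)]
    exact h1
  obtain ⟨h1, h2⟩ :=
    EulerProduct.summable_and_hasSum_smoothNumbers_prod_primesBelow_geometric hlt (N + 1)
  have h3 : ∏ p ∈ (N + 1).primesBelow, (1 - 1 / (p : ℝ))⁻¹ =
      ∑' m : (N + 1).smoothNumbers, invHom m := h2.tsum_eq.symm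
  rw [h3]
  set s : Finset (N + 1).smoothNumbers := (Icc 1 N).attach.image (fun n =>
    ⟨n.1, Nat.mem_smoothNumbers_of_lt (by have := mem_Icc.1 n.2; omega)
      (by have := mem_Icc.1 n.2; omega)⟩) with hs
  have h4 : ∑ n ∈ Icc 1 N, (1 : ℝ) / n = ∑ m ∈ s, invHom m := by
    rw [hs, sum_image]
    · rw [← sum_attach]
      rfl
    · intro a _ b _ hab
      have := congrArg (fun x : (N + 1).smoothNumbers => (x : ℕ)) hab
      exact Subtype.ext this
  rw [h4]
  refine h2.summable.sum_le_tsum s fun m _ => ?_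
  change 0 ≤ 1 / ((m : ℕ) : ℝ)
  positivity

/-- Mertens' third theorem, upper bound. -/
lemma mertens_third_upper {z : ℝ} (hz : 2 ≤ z) :
    ∏ q ∈ PB 1 z, (1 - 1 / (q : ℝ)) ≤ 1 / Real.log z := by
  have hlz : 0 < Real.log z := Real.log_pos (by linarith)
  have h1 := sum_inv_le_prod ⌊z⌋₊
  rw [← PB_one_eq] at h1
  have h2 : Real.log z ≤ ∑ n ∈ Icc 1 ⌊z⌋₊, (1 : ℝ) / n := by
    have h3 := log_add_one_le_harmonic ⌊z⌋₊
    have h4 : Real.log z ≤ Real.log ((⌊z⌋₊ + 1 : ℕ) : ℝ) :=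
      Real.log_le_log (by linarith) (by push_cast; exact (Nat.lt_floor_add_one z).le)
    refine h4.trans (h3.trans (le_of_eq ?_))
    rw [harmonic_eq_sum_Icc]
    push_cast
    exact sum_congr rfl fun n _ => by rw [one_div]
  have hpos : 0 < ∏ q ∈ PB 1 z, (1 - 1 / (q : ℝ)) := by
    refine prod_pos fun q hq => ?_
    have : (1 : ℝ) < q := by exact_mod_cast (PB_prime q hq).one_lt
    have : 1 / (q : ℝ) < 1 := by rw [div_lt_one (by linarith)]; exact this
    linarith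
  rw [prod_inv_distrib] at h1
  rw [le_div_iff₀ hlz]
  calc (∏ q ∈ PB 1 z, (1 - 1 / (q : ℝ))) * Real.log z
      ≤ (∏ q ∈ PB 1 z, (1 - 1 / (q : ℝ))) * (∏ q ∈ PB 1 z, (1 - 1 / (q : ℝ)))⁻¹ :=
        mul_le_mul_of_nonneg_left (h2.trans h1) hpos.le
    _ = 1 := mul_inv_cancel₀ hpos.ne'

/-! ### Products over prime divisors -/

lemma one_sub_inv_pos {q : ℕ} (hq : q.Prime) : 0 < 1 - 1 / (q : ℝ) := by
  have : (1 : ℝ) < q := by exact_mod_cast hq.one_lt
  have : 1 / (q : ℝ) < 1 := by rw [div_lt_one (by linarith)]; exact this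
  linarith

lemma one_sub_inv_le_one {q : ℕ} : 1 - 1 / (q : ℝ) ≤ 1 := by
  have : 0 ≤ 1 / (q : ℝ) := by positivity
  linarith

lemma one_le_inv {q : ℕ} (hq : q.Prime) : 1 ≤ (1 - 1 / (q : ℝ))⁻¹ :=
  (one_le_inv₀ (one_sub_inv_pos hq)).2 one_sub_inv_le_one

lemma prod_primeFactors_inv {u : ℕ} (hu : 0 < u) :
    ∏ q ∈ u.primeFactors, (1 - 1 / (q : ℝ))⁻¹ = (u : ℝ) / Nat.totient u := by
  have h1 := Nat.totient_eq_mul_prod_factors u
  have h2 : (Nat.totient u : ℝ) = u * ∏ p ∈ u.primeFactors, (1 - (p : ℝ)⁻¹) := by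
    have := congrArg (fun x : ℚ => (x : ℝ)) h1
    push_cast at this
    exact this
  have hu' : (u : ℝ) ≠ 0 := by positivity
  have h3 : ∏ p ∈ u.primeFactors, (1 - (p : ℝ)⁻¹) ≠ 0 := by
    refine prod_ne_zero_iff.2 fun p hp => ?_
    have := one_sub_inv_pos (Nat.prime_of_mem_primeFactors hp)
    rw [one_div] at this
    exact this.ne'
  rw [prod_inv_distrib, h2]
  simp only [one_div]
  field_simp

/-- a product over a subset of factors that are at least one -/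
lemma prod_le_prod_subset {s t : Finset ℕ} (hst : s ⊆ t) {f : ℕ → ℝ} (hf : ∀ q ∈ t, 1 ≤ f q) :
    ∏ q ∈ s, f q ≤ ∏ q ∈ t, f q := by
  rw [← prod_sdiff hst]
  have h1 : ∀ r : Finset ℕ, (∀ q ∈ r, 1 ≤ f q) → 1 ≤ ∏ q ∈ r, f q := by
    intro r
    induction r using Finset.induction_on with
    | empty => intro _; simp
    | insert a r ha ih =>
      intro h
      rw [prod_insert ha]
      have h2 := ih fun q hq => h q (mem_insert_of_mem hq)
      have h3 := h a (mem_insert_self _ _)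
      nlinarith
  have h2 := h1 (t \ s) fun q hq => hf q (mem_sdiff.1 hq).1
  have h3 := h1 s fun q hq => hf q (hst hq)
  nlinarith

/-- `∏ (1 - 1/q²) ≥ 1/2`. -/
lemma prod_sq_ge (N : ℕ) : (1 : ℝ) / 2 ≤ ∏ n ∈ Icc 2 (N + 1), (1 - 1 / (n : ℝ) ^ 2) := by
  have h : ∏ n ∈ Icc 2 (N + 1), (1 - 1 / (n : ℝ) ^ 2) = ((N : ℝ) + 2) / (2 * (N + 1)) := by
    induction N with
    | zero => simp
    | succ N ih =>
      rw [prod_Icc_succ_top (by omega), ih]
      push_cast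
      have h1 : (N : ℝ) + 1 + 1 ≠ 0 := by positivity
      have h2 : (N : ℝ) + 1 ≠ 0 := by positivity
      field_simp
      ring
  rw [h, div_le_div_iff₀ (by norm_num) (by positivity)]
  nlinarith [(Nat.cast_nonneg N : (0 : ℝ) ≤ N)]

lemma prod_sq_primes_ge (s : Finset ℕ) (hs : ∀ q ∈ s, q.Prime) :
    (1 : ℝ) / 2 ≤ ∏ q ∈ s, (1 - 1 / (q : ℝ) ^ 2) := by
  set N := s.sup id with hN
  have hsub : s ⊆ Icc 2 (N + 1) := fun q hq =>
    mem_Icc.2 ⟨(hs q hq).two_le, (Finset.le_sup (f := id) hq).trans (by omega)⟩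
  refine (prod_sq_ge N).trans ?_
  rw [← prod_sdiff hsub]
  have h0 : ∀ n ∈ Icc 2 (N + 1), 0 ≤ 1 - 1 / (n : ℝ) ^ 2 ∧ 1 - 1 / (n : ℝ) ^ 2 ≤ 1 := by
    intro n hn
    have h2 : (2 : ℝ) ≤ n := by exact_mod_cast (mem_Icc.1 hn).1
    have h3 : 1 / (n : ℝ) ^ 2 ≤ 1 := by
      rw [div_le_one (by positivity)]
      nlinarith
    have h4 : 0 ≤ 1 / (n : ℝ) ^ 2 := by positivity
    constructor <;> linarith
  have h1 : ∏ n ∈ Icc 2 (N + 1) \ s, (1 - 1 / (n : ℝ) ^ 2) ≤ 1 :=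
    prod_le_one (fun n hn => (h0 n (mem_sdiff.1 hn).1).1) fun n hn => (h0 n (mem_sdiff.1 hn).1).2
  have h2 : 0 ≤ ∏ n ∈ s, (1 - 1 / (n : ℝ) ^ 2) := prod_nonneg fun n hn => (h0 n (hsub hn)).1
  nlinarith

/-- The divisor sum dominates the Euler product. -/
lemma prod_inv_le_sum_divisors {h u : ℕ} (hh : 0 < h) :
    ∏ q ∈ h.primeFactors.filter (fun q => ¬ q ∣ u), (1 - 1 / (q : ℝ))⁻¹ ≤
      2 * ∑ d ∈ h.divisors.filter (fun d => Nat.Coprime d u), (1 : ℝ) / d := by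
  set s := h.primeFactors.filter (fun q => ¬ q ∣ u) with hs
  have hsp : ∀ q ∈ s, q.Prime := fun q hq => Nat.prime_of_mem_primeFactors (mem_filter.1 hq).1
  have h1 : ∀ q ∈ s, (1 - 1 / (q : ℝ))⁻¹ = (1 + 1 / (q : ℝ)) * (1 - 1 / (q : ℝ) ^ 2)⁻¹ := by
    intro q hq
    have h2 := one_sub_inv_pos (hsp q hq)
    have h3 : 0 < 1 + 1 / (q : ℝ) := by positivity
    have h4 : 1 - 1 / (q : ℝ) ^ 2 = (1 - 1 / (q : ℝ)) * (1 + 1 / (q : ℝ)) := by ring
    rw [h4, mul_inv]
    field_simp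
  rw [prod_congr rfl h1, prod_mul_distrib, prod_inv_distrib]
  have h5 := prod_sq_primes_ge s hsp
  have h6 : (∏ q ∈ s, (1 - 1 / (q : ℝ) ^ 2))⁻¹ ≤ 2 := by
    rw [inv_le_comm₀ (by linarith) (by norm_num)]
    linarith
  have h7 : ∏ q ∈ s, (1 + 1 / (q : ℝ)) ≤
      ∑ d ∈ h.divisors.filter (fun d => Nat.Coprime d u), (1 : ℝ) / d := by
    rw [prod_one_add]
    have h8 : ∀ T ∈ s.powerset, ∏ q ∈ T, 1 / (q : ℝ) = 1 / ((∏ q ∈ T, q : ℕ) : ℝ) := by
      intro T _
      rw [prod_div_distrib, prod_const_one, Nat.cast_prod]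
    rw [sum_congr rfl h8]
    have hinj : Set.InjOn (fun T : Finset ℕ => ∏ q ∈ T, q) (s.powerset : Set (Finset ℕ)) := by
      intro T hT T' hT' hTT
      have e1 := Nat.primeFactors_prod (s := T) fun p hp => hsp p (mem_powerset.1 hT hp)
      have e2 := Nat.primeFactors_prod (s := T') fun p hp => hsp p (mem_powerset.1 hT' hp)
      rw [← e1, ← e2]
      exact congrArg _ hTT
    rw [← sum_image (f := fun d : ℕ => (1 : ℝ) / d) hinj]
    refine sum_le_sum_of_subset_of_nonneg ?_ fun d _ _ => by positivity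
    intro d hd
    obtain ⟨T, hT, rfl⟩ := mem_image.1 hd
    have hT' := mem_powerset.1 hT
    rw [mem_filter, Nat.mem_divisors]
    refine ⟨⟨?_, hh.ne'⟩, ?_⟩
    · refine (prod_dvd_prod_of_subset _ _ _ (hT'.trans (filter_subset _ _))).trans ?_
      exact Nat.prod_primeFactors_dvd h
    · refine Nat.Coprime.prod_left fun q hq => ?_
      have := hT' hq
      exact (Nat.Prime.coprime_iff_not_dvd (hsp q this)).2 (mem_filter.1 this).2
  have h9 : 0 ≤ ∏ q ∈ s, (1 + 1 / (q : ℝ)) := prod_nonneg fun q _ => by positivity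
  have h10 : 0 ≤ (∏ q ∈ s, (1 - 1 / (q : ℝ) ^ 2))⁻¹ := inv_nonneg.2 (by linarith)
  nlinarith

/-! ### Local densities -/

lemma root_exists {q : ℕ} (hq : q.Prime) {u : ℕ} (hu : ¬ q ∣ u) (c : ℕ) :
    ∃ x0 < q, ∀ x < q, (q ∣ u * x + c ↔ x = x0) := by
  have := Fact.mk hq
  have hu' : (u : ZMod q) ≠ 0 := by rwa [Ne, ZMod.natCast_eq_zero_iff]
  refine ⟨(-(c : ZMod q) / u).val, ZMod.val_lt _, fun x hx => ?_⟩
  rw [← ZMod.natCast_eq_zero_iff]
  push_cast
  constructor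
  · intro h
    have h1 : (x : ZMod q) = -(c : ZMod q) / u := by
      rw [eq_div_iff hu']
      linear_combination h
    rw [← h1, ZMod.val_natCast_of_lt hx]
  · intro h
    have h1 : (x : ZMod q) = -(c : ZMod q) / u := by
      rw [h, ZMod.natCast_val, ZMod.cast_id]
    rw [h1]
    field_simp
    ring

/-- divisibility for a single linear form -/
def dv1 (u v : ℕ) (q x : ℕ) : Prop := q ∣ u * x + v

instance (u v q x : ℕ) : Decidable (dv1 u v q x) := inferInstanceAs (Decidable (_ ∣ _))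

/-- divisibility for a pair of linear forms -/
def dv2 (u v h : ℕ) (q x : ℕ) : Prop := q ∣ (u * x + v) * (u * x + v + h)

instance (u v h q x : ℕ) : Decidable (dv2 u v h q x) := inferInstanceAs (Decidable (_ ∣ _))

lemma dv1_per (u v : ℕ) (q x : ℕ) : dv1 u v q x ↔ dv1 u v q (x % q) := by
  unfold dv1
  refine Nat.ModEq.dvd_iff ?_ (dvd_refl q)
  exact ((Nat.mod_modEq x q).symm.mul_left u).add_right v

lemma dv2_per (u v h : ℕ) (q x : ℕ) : dv2 u v h q x ↔ dv2 u v h q (x % q) := by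
  unfold dv2
  refine Nat.ModEq.dvd_iff ?_ (dvd_refl q)
  exact (((Nat.mod_modEq x q).symm.mul_left u).add_right v).mul
    ((((Nat.mod_modEq x q).symm.mul_left u).add_right v).add_right h)

lemma R1_of_dvd {u v q : ℕ} (hq : q.Prime) (hco : Nat.Coprime v u) (hqu : q ∣ u) :
    R (dv1 u v) q = ∅ := by
  unfold R
  rw [filter_eq_empty_iff]
  intro x _ h
  unfold dv1 at h
  have h1 : q ∣ v := (Nat.dvd_add_right (hqu.mul_right x)).1 h
  have := Nat.dvd_gcd h1 hqu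
  rw [hco] at this
  exact hq.one_lt.ne' (Nat.dvd_one.1 this)

lemma R1_card {u v q : ℕ} (hq : q.Prime) (hqu : ¬ q ∣ u) : (R (dv1 u v) q).card = 1 := by
  obtain ⟨x0, hx0, h⟩ := root_exists hq hqu v
  have : R (dv1 u v) q = {x0} := by
    ext x
    unfold R dv1
    rw [mem_filter, mem_range, mem_singleton]
    constructor
    · rintro ⟨h1, h2⟩; exact (h x h1).1 h2
    · rintro rfl; exact ⟨hx0, (h x hx0).2 rfl⟩
  rw [this, card_singleton]

lemma R2_of_dvd {u v h q : ℕ} (hq : q.Prime) (hco : Nat.Coprime v u)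
    (hco' : Nat.Coprime (v + h) u) (hqu : q ∣ u) : R (dv2 u v h) q = ∅ := by
  unfold R
  rw [filter_eq_empty_iff]
  intro x _ h
  unfold dv2 at h
  rcases hq.dvd_mul.1 h with h | h
  · have h1 : q ∣ v := (Nat.dvd_add_right (hqu.mul_right x)).1 h
    have := Nat.dvd_gcd h1 hqu
    rw [hco] at this
    exact hq.one_lt.ne' (Nat.dvd_one.1 this)
  · rw [add_assoc] at h
    have h1 := (Nat.dvd_add_right (hqu.mul_right x)).1 h
    have := Nat.dvd_gcd h1 hqu
    rw [hco'] at this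
    exact hq.one_lt.ne' (Nat.dvd_one.1 this)

lemma R2_eq {u v h q : ℕ} (hq : q.Prime) (hqu : ¬ q ∣ u) :
    ∃ x0 x1, x0 < q ∧ x1 < q ∧ q ∣ u * x0 + v ∧ q ∣ u * x1 + (v + h) ∧
      R (dv2 u v h) q = {x0, x1} := by
  obtain ⟨x0, hx0, h0⟩ := root_exists hq hqu v
  obtain ⟨x1, hx1, h1⟩ := root_exists hq hqu (v + h)
  refine ⟨x0, x1, hx0, hx1, (h0 x0 hx0).2 rfl, (h1 x1 hx1).2 rfl, ?_⟩
  ext x
  unfold R dv2
  rw [mem_filter, mem_range, mem_insert, mem_singleton, hq.dvd_mul, add_assoc]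
  constructor
  · rintro ⟨h2, h3 | h3⟩
    · exact Or.inl ((h0 x h2).1 h3)
    · exact Or.inr ((h1 x h2).1 h3)
  · rintro (rfl | rfl)
    · exact ⟨hx0, Or.inl ((h0 x hx0).2 rfl)⟩
    · exact ⟨hx1, Or.inr ((h1 x hx1).2 rfl)⟩

lemma R2_card_le {u v h q : ℕ} (hq : q.Prime) (hqu : ¬ q ∣ u) : (R (dv2 u v h) q).card ≤ 2 := by
  obtain ⟨x0, x1, _, _, _, _, h⟩ := R2_eq (v := v) (h := h) hq hqu
  rw [h]
  exact card_le_two

lemma R2_card_pos {u v h q : ℕ} (hq : q.Prime) (hqu : ¬ q ∣ u) :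
    1 ≤ (R (dv2 u v h) q).card := by
  obtain ⟨x0, x1, _, _, _, _, h⟩ := R2_eq (v := v) (h := h) hq hqu
  rw [h]
  exact card_pos.2 (insert_nonempty _ _)

lemma R2_card_eq {u v h q : ℕ} (hq : q.Prime) (hqu : ¬ q ∣ u) (hqh : ¬ q ∣ h) :
    (R (dv2 u v h) q).card = 2 := by
  obtain ⟨x0, x1, _, _, h0, h1, hR⟩ := R2_eq (v := v) (h := h) hq hqu
  rw [hR, card_pair]
  rintro rfl
  rw [← add_assoc] at h1
  exact hqh ((Nat.dvd_add_right h0).1 h1)

/-! ### The main products -/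

lemma dens1_nonneg (u v q : ℕ) : 0 ≤ dens (dv1 u v) q := by unfold dens; positivity

lemma dens2_nonneg (u v h q : ℕ) : 0 ≤ dens (dv2 u v h) q := by unfold dens; positivity

lemma prod_split_le {u : ℕ} (hu : 0 < u) (z : ℝ) :
    ∏ q ∈ PB 1 z, (if q ∣ u then (1 - 1 / (q : ℝ))⁻¹ else 1) ≤ (u : ℝ) / Nat.totient u := by
  rw [← prod_primeFactors_inv hu, prod_ite, prod_const_one, mul_one]
  refine prod_le_prod_subset ?_ fun q hq => one_le_inv (Nat.prime_of_mem_primeFactors hq)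
  intro q hq
  rw [mem_filter] at hq
  exact Nat.mem_primeFactors.2 ⟨PB_prime q hq.1, hq.2, hu.ne'⟩

lemma one_le_div_totient {u : ℕ} (hu : 0 < u) : 1 ≤ (u : ℝ) / Nat.totient u := by
  rw [one_le_div (by exact_mod_cast Nat.totient_pos.2 hu)]
  exact_mod_cast Nat.totient_le u

lemma prod_dens1_le {u v : ℕ} (hu : 0 < u) (hco : Nat.Coprime v u) {z : ℝ} (hz : 2 ≤ z) :
    ∏ q ∈ PB 1 z, (1 - dens (dv1 u v) q) ≤ ((u : ℝ) / Nat.totient u) * (1 / Real.log z) := by
  have h1 : ∀ q ∈ PB 1 z, 1 - dens (dv1 u v) q =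
      (if q ∣ u then (1 - 1 / (q : ℝ))⁻¹ else 1) * (1 - 1 / (q : ℝ)) := by
    intro q hq
    have hqp := PB_prime q hq
    have h0 := one_sub_inv_pos hqp
    unfold dens
    split_ifs with h
    · rw [R1_of_dvd hqp hco h, card_empty, Nat.cast_zero, zero_div, sub_zero,
        inv_mul_cancel₀ h0.ne']
    · rw [R1_card hqp h, Nat.cast_one, one_mul]
  rw [prod_congr rfl h1, prod_mul_distrib]
  refine mul_le_mul (prod_split_le hu z) (mertens_third_upper hz)
    (prod_nonneg fun q hq => (one_sub_inv_pos (PB_prime q hq)).le) ?_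
  linarith [one_le_div_totient hu]

lemma prod_dens2_le {u v h : ℕ} (hu : 0 < u) (hco : Nat.Coprime v u)
    (hco' : Nat.Coprime (v + h) u) (hh : 0 < h) {z : ℝ} (hz : 2 ≤ z) :
    ∏ q ∈ PB 1 z, (1 - dens (dv2 u v h) q) ≤ ((u : ℝ) / Nat.totient u) ^ 2 *
      (2 * ∑ d ∈ h.divisors.filter (fun d => Nat.Coprime d u), (1 : ℝ) / d) *
        (1 / Real.log z) ^ 2 := by
  have h1 : ∀ q ∈ PB 1 z, 1 - dens (dv2 u v h) q ≤
      ((if q ∣ u then (1 - 1 / (q : ℝ))⁻¹ else 1) ^ 2 *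
      (if q ∣ h ∧ ¬ q ∣ u then (1 - 1 / (q : ℝ))⁻¹ else 1)) * (1 - 1 / (q : ℝ)) ^ 2 := by
    intro q hq
    have hqp := PB_prime q hq
    have h0 := one_sub_inv_pos hqp
    have hq0 : (0 : ℝ) < q := by exact_mod_cast hqp.pos
    unfold dens
    by_cases hqu : q ∣ u
    · rw [R2_of_dvd hqp hco hco' hqu, card_empty, Nat.cast_zero, zero_div, sub_zero, if_pos hqu,
        if_neg (by tauto), mul_one, ← mul_pow, inv_mul_cancel₀ h0.ne', one_pow]
    · rw [if_neg hqu, one_pow, one_mul]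
      by_cases hqh : q ∣ h
      · rw [if_pos ⟨hqh, hqu⟩, pow_two, ← mul_assoc, inv_mul_cancel₀ h0.ne', one_mul]
        have h2 : (1 : ℝ) ≤ ((R (dv2 u v h) q).card : ℝ) := by exact_mod_cast R2_card_pos hqp hqu
        have h3 : 1 / (q : ℝ) ≤ ((R (dv2 u v h) q).card : ℝ) / q := by gcongr
        linarith
      · rw [if_neg (by tauto), one_mul, R2_card_eq hqp hqu hqh]
        have h3 : 0 ≤ (1 / (q : ℝ)) ^ 2 := by positivity
        push_cast
        have h4 : (2 : ℝ) / q = 2 * (1 / q) := by ring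
        rw [h4]
        nlinarith
  have hlt : ∀ q ∈ PB 1 z, 0 ≤ 1 - dens (dv2 u v h) q := by
    intro q hq
    have hqp := PB_prime q hq
    have hq0 : (0 : ℝ) < q := by exact_mod_cast hqp.pos
    have h2 : (R (dv2 u v h) q).card ≤ q := by
      unfold R
      exact (card_filter_le _ _).trans (by rw [card_range])
    unfold dens
    have : ((R (dv2 u v h) q).card : ℝ) / q ≤ 1 := by
      rw [div_le_one hq0]; exact_mod_cast h2
    linarith
  refine (prod_le_prod hlt h1).trans ?_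
  rw [prod_mul_distrib, prod_mul_distrib, prod_pow, prod_pow]
  have hA : 0 ≤ ∏ q ∈ PB 1 z, (if q ∣ u then (1 - 1 / (q : ℝ))⁻¹ else 1) := by
    refine prod_nonneg fun q hq => ?_
    split_ifs
    · linarith [one_le_inv (PB_prime q hq)]
    · norm_num
  have hB : ∏ q ∈ PB 1 z, (if q ∣ h ∧ ¬ q ∣ u then (1 - 1 / (q : ℝ))⁻¹ else 1) ≤
      2 * ∑ d ∈ h.divisors.filter (fun d => Nat.Coprime d u), (1 : ℝ) / d := by
    refine le_trans ?_ (prod_inv_le_sum_divisors hh)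
    rw [prod_ite, prod_const_one, mul_one]
    refine prod_le_prod_subset ?_ fun q hq =>
      one_le_inv (Nat.prime_of_mem_primeFactors (mem_filter.1 hq).1)
    intro q hq
    rw [mem_filter] at hq
    exact mem_filter.2 ⟨Nat.mem_primeFactors.2 ⟨PB_prime q hq.1, hq.2.1, hh.ne'⟩, hq.2.2⟩
  have hB0 : 0 ≤ ∏ q ∈ PB 1 z, (if q ∣ h ∧ ¬ q ∣ u then (1 - 1 / (q : ℝ))⁻¹ else 1) := by
    refine prod_nonneg fun q hq => ?_
    split_ifs
    · linarith [one_le_inv (PB_prime q hq)]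
    · norm_num
  have hC0 : 0 ≤ ∏ q ∈ PB 1 z, (1 - 1 / (q : ℝ)) :=
    prod_nonneg fun q hq => (one_sub_inv_pos (PB_prime q hq)).le
  have hσ : 0 ≤ 2 * ∑ d ∈ h.divisors.filter (fun d => Nat.Coprime d u), (1 : ℝ) / d := by
    positivity
  refine mul_le_mul (mul_le_mul (pow_le_pow_left₀ hA (prod_split_le hu z) 2) hB hB0
    (by positivity)) (pow_le_pow_left₀ hC0 (mertens_third_upper hz) 2) (by positivity)
    (by positivity)

/-! ### The choice of the sifting level -/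

lemma exists_level (C1 z0 : ℝ) : ∃ Y0 : ℝ, ∀ Y : ℝ, Y0 ≤ Y → ∃ z : ℝ, z0 ≤ z ∧ 2 ≤ z ∧
    z < Y ∧ Real.log z = Real.log Y / 23 ∧ C1 * z ^ 22 ≤ Y / (Real.log Y) ^ 2 ∧
    1 ≤ Real.log Y := by
  have h1 : ∀ᶠ Y : ℝ in Filter.atTop, max z0 2 ≤ Y ^ (1 / 23 : ℝ) :=
    (tendsto_rpow_atTop (by norm_num)).eventually_ge_atTop _
  have h2 : ∀ᶠ Y : ℝ in Filter.atTop, 1 ≤ Real.log Y :=
    Real.tendsto_log_atTop.eventually_ge_atTop _
  have h3 : ∀ᶠ Y : ℝ in Filter.atTop, (|C1| + 1) * (Real.log Y) ^ 2 ≤ Y ^ (1 / 23 : ℝ) := by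
    have h4 := (isLittleO_log_rpow_atTop (r := 1 / 46) (by norm_num)).bound
      (c := 1 / (|C1| + 1)) (by positivity)
    filter_upwards [h4, h2, Filter.eventually_ge_atTop (1 : ℝ)] with Y h5 h6 h7
    rw [Real.norm_of_nonneg (by linarith), Real.norm_of_nonneg (by positivity)] at h5
    have hC : 1 ≤ |C1| + 1 := by linarith [abs_nonneg C1]
    have h8 : (Y ^ (1 / 46 : ℝ)) ^ 2 = Y ^ (1 / 23 : ℝ) := by
      rw [← Real.rpow_natCast, ← Real.rpow_mul (by linarith)]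
      norm_num
    have h9 : (|C1| + 1) * Real.log Y ≤ Y ^ (1 / 46 : ℝ) := by
      have := mul_le_mul_of_nonneg_left h5 (by linarith : 0 ≤ |C1| + 1)
      rwa [← mul_assoc, mul_one_div_cancel (by positivity), one_mul] at this
    rw [← h8]
    calc (|C1| + 1) * Real.log Y ^ 2 ≤ ((|C1| + 1) * Real.log Y) ^ 2 := by
          rw [mul_pow]
          have : |C1| + 1 ≤ (|C1| + 1) ^ 2 := by nlinarith
          gcongr
      _ ≤ _ := pow_le_pow_left₀ (by positivity) h9 2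
  obtain ⟨Y0, hY0⟩ := Filter.eventually_atTop.1 (((h1.and h2).and h3).and
    (Filter.eventually_gt_atTop (1 : ℝ)))
  refine ⟨Y0, fun Y hY => ⟨Y ^ (1 / 23 : ℝ), ?_⟩⟩
  obtain ⟨⟨⟨h4, h5⟩, h6⟩, h7⟩ := hY0 Y hY
  have hYpos : 0 < Y := by linarith
  refine ⟨(le_max_left _ _).trans h4, (le_max_right _ _).trans h4, ?_, ?_, ?_, h5⟩
  · calc Y ^ (1 / 23 : ℝ) < Y ^ (1 : ℝ) := Real.rpow_lt_rpow_of_exponent_lt h7 (by norm_num)
      _ = Y := Real.rpow_one Y
  · rw [Real.log_rpow hYpos]; ring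
  · have h8 : (Y ^ (1 / 23 : ℝ)) ^ 22 * Y ^ (1 / 23 : ℝ) = Y := by
      rw [← pow_succ, ← Real.rpow_natCast, ← Real.rpow_mul hYpos.le]
      norm_num
    have hz0 : 0 < Y ^ (1 / 23 : ℝ) := Real.rpow_pos_of_pos hYpos _
    rw [le_div_iff₀ (by positivity)]
    calc C1 * (Y ^ (1 / 23 : ℝ)) ^ 22 * Real.log Y ^ 2
        = (Y ^ (1 / 23 : ℝ)) ^ 22 * (C1 * Real.log Y ^ 2) := by ring
      _ ≤ (Y ^ (1 / 23 : ℝ)) ^ 22 * Y ^ (1 / 23 : ℝ) := by
          refine mul_le_mul_of_nonneg_left (le_trans ?_ h6) (by positivity)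
          have : C1 ≤ |C1| + 1 := by linarith [le_abs_self C1]
          gcongr
      _ = Y := h8

/-- Brun-Titchmarsh type bound, uniform in the modulus. -/
theorem sieve_one : ∃ C Y0 : ℝ, 0 < C ∧ ∀ (u v Y : ℕ), 0 < u → Nat.Coprime v u →
    Y0 ≤ (Y : ℝ) → Y ≤ v →
    (((Finset.range Y).filter (fun x => (u * x + v).Prime)).card : ℝ) ≤
      C * ((u : ℝ) / Nat.totient u) * Y / Real.log Y := by
  obtain ⟨C1, z0, hC1, hz0, hbrun⟩ := brun_upper
  obtain ⟨Y0, hY0⟩ := exists_level C1 z0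
  refine ⟨47, Y0, by norm_num, fun u v Y hu hco hY hYv => ?_⟩
  obtain ⟨z, hz1, hz2, hzY, hlog, herr, hlY⟩ := hY0 Y hY
  have hYpos : (0 : ℝ) < Y := by linarith
  have hgood := good_interval (dv := dv1 u v) (dv1_per u v) (K := 4) (fun q hq => by
    by_cases hqu : q ∣ u
    · rw [R1_of_dvd hq hco hqu]; norm_num
    · rw [R1_card hq hqu]; norm_num) 0 Y (Nat.zero_le Y)
  have h := hbrun ℕ (Ico 0 Y) (dv1 u v) (dens (dv1 u v)) ((Y : ℝ) - ((0 : ℕ) : ℝ))
    (by simp) (dens1_nonneg u v)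
    (fun q hq => by
      have hq1 : (1 : ℝ) < q := by exact_mod_cast hq.one_lt
      unfold dens
      rw [div_lt_one (by linarith)]
      by_cases hqu : q ∣ u
      · rw [R1_of_dvd hq hco hqu]; simp; exact hq.pos
      · rw [R1_card hq hqu]; simpa using hq1)
    (fun q hq => by
      have hq1 : (1 : ℝ) < q := by exact_mod_cast hq.one_lt
      unfold dens
      rw [mul_one_div]
      by_cases hqu : q ∣ u
      · rw [R1_of_dvd hq hco hqu]; simp; positivity
      · rw [R1_card hq hqu]; push_cast; gcongr; norm_num)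
    hgood z hz1 ((Finset.range Y).filter (fun x => (u * x + v).Prime))
    (by rw [← range_eq_Ico]; exact filter_subset _ _)
    (fun x hx q hq hqz hdv => by
      have hp := (mem_filter.1 hx).2
      unfold dv1 at hdv
      have h1 := (Nat.prime_dvd_prime_iff_eq hq hp).1 hdv
      have h2 : (Y : ℝ) ≤ ((u * x + v : ℕ) : ℝ) := by
        exact_mod_cast hYv.trans (Nat.le_add_left _ _)
      rw [← h1] at h2
      linarith)
  have hP := prod_dens1_le hu hco hz2
  have hu1 := one_le_div_totient hu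
  set U := (u : ℝ) / Nat.totient u with hU
  rw [hlog] at hP
  have hl0 : 0 < Real.log Y := by linarith
  calc _ ≤ 2 * ((Y : ℝ) - ((0 : ℕ) : ℝ)) * ∏ q ∈ PB 1 z, (1 - dens (dv1 u v) q) + C1 * z ^ 22 := h
    _ ≤ 2 * (Y : ℝ) * (U * (1 / (Real.log Y / 23))) + Y / (Real.log Y) ^ 2 := by
        rw [Nat.cast_zero, sub_zero]
        gcongr
    _ ≤ 46 * U * Y / Real.log Y + U * Y / Real.log Y := by
        have e1 : 2 * (Y : ℝ) * (U * (1 / (Real.log Y / 23))) = 46 * U * Y / Real.log Y := by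
          field_simp
          ring
        have e2 : (Y : ℝ) / (Real.log Y) ^ 2 ≤ U * Y / Real.log Y := by
          rw [div_le_div_iff₀ (by positivity) hl0]
          have : (Y : ℝ) * 1 * 1 * Real.log Y ≤ Y * U * Real.log Y * Real.log Y := by gcongr
          nlinarith
        rw [e1]
        linarith
    _ = 47 * U * Y / Real.log Y := by ring

/-- Upper bound for prime pairs in a progression, uniform in the modulus. -/
theorem sieve_pairs : ∃ C Y0 : ℝ, 0 < C ∧ ∀ (u v h Y : ℕ), 0 < u → Even u →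
    Nat.Coprime v u → Nat.Coprime (v + h) u → 0 < h → Y0 ≤ (Y : ℝ) → Y ≤ v →
    (((Finset.range Y).filter (fun x => (u * x + v).Prime ∧ (u * x + v + h).Prime)).card : ℝ) ≤
      C * ((u : ℝ) / Nat.totient u) ^ 2 *
        (∑ d ∈ h.divisors.filter (fun d => Nat.Coprime d u), (1 : ℝ) / d) * Y
        / (Real.log Y) ^ 2 := by
  obtain ⟨C1, z0, hC1, hz0, hbrun⟩ := brun_upper
  obtain ⟨Y0, hY0⟩ := exists_level C1 z0
  refine ⟨2117, Y0, by norm_num, fun u v h Y hu hev hco hco' hh hY hYv => ?_⟩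
  obtain ⟨z, hz1, hz2, hzY, hlog, herr, hlY⟩ := hY0 Y hY
  have hYpos : (0 : ℝ) < Y := by linarith
  have hgood := good_interval (dv := dv2 u v h) (dv2_per u v h) (K := 4) (fun q hq => by
    by_cases hqu : q ∣ u
    · rw [R2_of_dvd hq hco hco' hqu]; norm_num
    · have := R2_card_le (v := v) (h := h) hq hqu
      exact_mod_cast this.trans (by norm_num)) 0 Y (Nat.zero_le Y)
  have hb := hbrun ℕ (Ico 0 Y) (dv2 u v h) (dens (dv2 u v h)) ((Y : ℝ) - ((0 : ℕ) : ℝ))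
    (by simp) (dens2_nonneg u v h)
    (fun q hq => by
      have hq1 : (1 : ℝ) < q := by exact_mod_cast hq.one_lt
      unfold dens
      rw [div_lt_one (by linarith)]
      by_cases hqu : q ∣ u
      · rw [R2_of_dvd hq hco hco' hqu]; simp; exact hq.pos
      · have h1 := R2_card_le (v := v) (h := h) hq hqu
        have h2 : q ≠ 2 := by
          rintro rfl
          exact hqu hev.two_dvd
        have h3 : 2 < q := lt_of_le_of_ne hq.two_le (Ne.symm h2)
        exact_mod_cast lt_of_le_of_lt h1 h3)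
    (fun q hq => by
      have hq1 : (1 : ℝ) < q := by exact_mod_cast hq.one_lt
      unfold dens
      rw [mul_one_div]
      by_cases hqu : q ∣ u
      · rw [R2_of_dvd hq hco hco' hqu]; simp; positivity
      · have h1 := R2_card_le (v := v) (h := h) hq hqu
        gcongr
        exact_mod_cast h1.trans (by norm_num))
    hgood z hz1 ((Finset.range Y).filter (fun x => (u * x + v).Prime ∧ (u * x + v + h).Prime))
    (by rw [← range_eq_Ico]; exact filter_subset _ _)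
    (fun x hx q hq hqz hdv => by
      obtain ⟨hp, hp'⟩ := (mem_filter.1 hx).2
      have h2 : (Y : ℝ) ≤ ((u * x + v : ℕ) : ℝ) := by
        exact_mod_cast hYv.trans (Nat.le_add_left _ _)
      unfold dv2 at hdv
      rcases hq.dvd_mul.1 hdv with hdv | hdv
      · have h1 := (Nat.prime_dvd_prime_iff_eq hq hp).1 hdv
        rw [← h1] at h2
        linarith
      · have h1 := (Nat.prime_dvd_prime_iff_eq hq hp').1 hdv
        have h3 : ((u * x + v : ℕ) : ℝ) ≤ ((u * x + v + h : ℕ) : ℝ) := by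
          exact_mod_cast Nat.le_add_right _ _
        rw [← h1] at h3
        linarith)
  have hP := prod_dens2_le hu hco hco' hh hz2
  have hu1 := one_le_div_totient hu
  set U := (u : ℝ) / Nat.totient u with hU
  set σ := ∑ d ∈ h.divisors.filter (fun d => Nat.Coprime d u), (1 : ℝ) / d with hσ
  have hσ1 : 1 ≤ σ := by
    have : (1 : ℝ) / ((1 : ℕ) : ℝ) ≤ σ := by
      refine single_le_sum (f := fun d : ℕ => (1 : ℝ) / d) (fun d _ => by positivity) ?_
      exact mem_filter.2 ⟨Nat.one_mem_divisors.2 hh.ne', Nat.coprime_one_left u⟩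
    simpa using this
  rw [hlog] at hP
  have hl0 : 0 < Real.log Y := by linarith
  calc _ ≤ 2 * ((Y : ℝ) - ((0 : ℕ) : ℝ)) * ∏ q ∈ PB 1 z, (1 - dens (dv2 u v h) q) +
        C1 * z ^ 22 := hb
    _ ≤ 2 * (Y : ℝ) * (U ^ 2 * (2 * σ) * (1 / (Real.log Y / 23)) ^ 2) +
        Y / (Real.log Y) ^ 2 := by
        rw [Nat.cast_zero, sub_zero]
        gcongr
    _ ≤ 2116 * U ^ 2 * σ * Y / (Real.log Y) ^ 2 + U ^ 2 * σ * Y / (Real.log Y) ^ 2 := by
        have e1 : 2 * (Y : ℝ) * (U ^ 2 * (2 * σ) * (1 / (Real.log Y / 23)) ^ 2) =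
            2116 * U ^ 2 * σ * Y / (Real.log Y) ^ 2 := by
          field_simp
          ring
        have e2 : (Y : ℝ) / (Real.log Y) ^ 2 ≤ U ^ 2 * σ * Y / (Real.log Y) ^ 2 := by
          have hU2 : 1 ≤ U ^ 2 := one_le_pow₀ hu1
          have : 1 * 1 * (Y : ℝ) ≤ U ^ 2 * σ * Y := by gcongr
          gcongr
          linarith
        rw [e1]
        linarith
    _ = 2117 * U ^ 2 * σ * Y / (Real.log Y) ^ 2 := by ring

end

end Pool.Agent.Work.MP_713a1e_co
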