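import Mathlib

/-! The Fejér kernel as the Fourier transform of the tent function. -/

namespace Pool.Agent.Work.MP_713a1e_co.WI

open Complex MeasureTheory Set Filter Topology FourierTransform
open scoped Real

/-- tent function -/
noncomputable def tent (ξ : ℝ) : ℂ := ((max 0 (1 - |ξ|) : ℝ) : ℂ)

/-- Fejér kernel (with junk value `0` at `0`) -/
noncomputable def fej (v : ℝ) : ℝ := (1 - Real.cos (2 * π * v)) / (2 * π ^ 2 * v ^ 2)

lemma tent_continuous : Continuous tent := by
  unfold tent
  fun_prop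

lemma tent_zero {ξ : ℝ} (h : 1 ≤ |ξ|) : tent ξ = 0 := by
  unfold tent
  rw [max_eq_left (by linarith)]
  simp

lemma norm_tent_le (ξ : ℝ) : ‖tent ξ‖ ≤ 1 := by
  unfold tent
  rw [norm_real, Real.norm_eq_abs, abs_of_nonneg (le_max_left _ _)]
  exact max_le zero_le_one (by linarith [abs_nonneg ξ])

lemma tent_compact : HasCompactSupport tent := by
  refine HasCompactSupport.intro (K := Icc (-1) 1) isCompact_Icc fun x hx => ?_
  refine tent_zero ?_
  by_contra hcon
  apply hx
  rw [not_le, abs_lt] at hcon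
  exact ⟨hcon.1.le, hcon.2.le⟩

lemma integrable_tent : Integrable tent := tent_continuous.integrable_of_hasCompactSupport tent_compact

lemma fourier_tent {v : ℝ} (hv : v ≠ 0) :
    ∫ ξ : ℝ, cexp (((-2 * π * ξ * v : ℝ) : ℂ) * I) • tent ξ = (fej v : ℂ) := by
  set c : ℂ := -(2 * π * v * I) with hc
  have hc0 : c ≠ 0 := by
    rw [hc]
    have : (π : ℂ) ≠ 0 := by exact_mod_cast Real.pi_ne_zero
    have hv' : (v : ℂ) ≠ 0 := by exact_mod_cast hv
    simp [this, hv']
  have hexp : ∀ ξ : ℝ, cexp (((-2 * π * ξ * v : ℝ) : ℂ) * I) = cexp (c * ξ) := by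
    intro ξ
    congr 1
    rw [hc]
    push_cast
    ring
  set f : ℝ → ℂ := fun ξ => cexp (((-2 * π * ξ * v : ℝ) : ℂ) * I) • tent ξ with hf
  have hfc : Continuous f := by
    have := tent_continuous
    rw [hf]
    fun_prop
  have hsupp : Function.support f ⊆ Ioc (-1) 1 := by
    intro ξ hξ
    have h1 : tent ξ ≠ 0 := by
      intro h0
      apply hξ
      simp [hf, h0]
    have h2 : |ξ| < 1 := by
      by_contra hcon
      exact h1 (tent_zero (not_lt.mp hcon))
    rw [abs_lt] at h2
    exact ⟨h2.1, h2.2.le⟩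
  rw [← intervalIntegral.integral_eq_integral_of_support_subset hsupp,
    ← intervalIntegral.integral_add_adjacent_intervals (hfc.intervalIntegrable (-1) 0)
      (hfc.intervalIntegrable 0 1)]
  have hderiv : ∀ ξ : ℝ, HasDerivAt (fun x : ℝ => cexp (c * x)) (cexp (c * ξ) * c) ξ := by
    intro ξ
    have h1 : HasDerivAt (fun x : ℝ => c * (x : ℂ)) (c * 1) ξ :=
      (HasDerivAt.ofReal_comp (hasDerivAt_id ξ)).const_mul c
    rw [mul_one] at h1
    exact h1.cexp
  have hcast : ∀ ξ : ℝ, HasDerivAt (fun x : ℝ => (x : ℂ)) 1 ξ := fun ξ => by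
    simpa using HasDerivAt.ofReal_comp (hasDerivAt_id ξ)
  have i1 : ∫ ξ in (-1 : ℝ)..0, f ξ = 1 / c - 1 / c ^ 2 + cexp (-c) / c ^ 2 := by
    have e : ∀ ξ ∈ uIcc (-1 : ℝ) 0, f ξ = cexp (c * ξ) * (1 + ξ) := by
      intro ξ hξ
      rw [uIcc_of_le (by norm_num)] at hξ
      rw [hf]
      simp only
      rw [hexp]
      unfold tent
      rw [abs_of_nonpos hξ.2, max_eq_right (by linarith [hξ.1])]
      rw [smul_eq_mul]
      push_cast
      ring
    rw [intervalIntegral.integral_congr e]
    have hd : ∀ ξ ∈ uIcc (-1 : ℝ) 0, HasDerivAt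
        (fun x : ℝ => (1 + (x : ℂ)) * cexp (c * x) / c - cexp (c * x) / c ^ 2)
        (cexp (c * ξ) * (1 + ξ)) ξ := by
      intro ξ _
      have h1 := ((((hcast ξ).const_add 1).mul (hderiv ξ)).div_const c).sub
        ((hderiv ξ).div_const (c ^ 2))
      refine h1.congr_deriv ?_
      field_simp
      ring
    rw [intervalIntegral.integral_eq_sub_of_hasDerivAt hd (by
      apply Continuous.intervalIntegrable
      fun_prop)]
    simp only [ofReal_neg, ofReal_one, ofReal_zero, mul_zero, Complex.exp_zero, mul_neg, mul_one,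
      add_zero, add_neg_cancel, zero_mul, zero_div]
    ring
  have i2 : ∫ ξ in (0 : ℝ)..1, f ξ = cexp c / c ^ 2 - 1 / c - 1 / c ^ 2 := by
    have e : ∀ ξ ∈ uIcc (0 : ℝ) 1, f ξ = cexp (c * ξ) * (1 - ξ) := by
      intro ξ hξ
      rw [uIcc_of_le (by norm_num)] at hξ
      rw [hf]
      simp only
      rw [hexp]
      unfold tent
      rw [abs_of_nonneg hξ.1, max_eq_right (by linarith [hξ.2])]
      rw [smul_eq_mul]
      push_cast
      ring
    rw [intervalIntegral.integral_congr e]
    have hd : ∀ ξ ∈ uIcc (0 : ℝ) 1, HasDerivAt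
        (fun x : ℝ => (1 - (x : ℂ)) * cexp (c * x) / c + cexp (c * x) / c ^ 2)
        (cexp (c * ξ) * (1 - ξ)) ξ := by
      intro ξ _
      have h1 := ((((hcast ξ).const_sub 1).mul (hderiv ξ)).div_const c).add
        ((hderiv ξ).div_const (c ^ 2))
      refine h1.congr_deriv ?_
      field_simp
      ring
    rw [intervalIntegral.integral_eq_sub_of_hasDerivAt hd (by
      apply Continuous.intervalIntegrable
      fun_prop)]
    simp only [ofReal_one, ofReal_zero, mul_zero, Complex.exp_zero, mul_one, sub_zero, sub_self,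
      zero_mul, zero_div]
    ring
  rw [i1, i2]
  unfold fej
  have hcos : cexp c + cexp (-c) = 2 * Complex.cos (2 * π * v) := by
    rw [Complex.two_cos, hc, add_comm, neg_neg]
    congr 2
    ring
  have hc2 : c ^ 2 = -(4 * π ^ 2 * v ^ 2) := by
    rw [hc, neg_sq, mul_pow, I_sq]
    ring
  have hπ : (π : ℂ) ≠ 0 := by exact_mod_cast Real.pi_ne_zero
  have hv' : (v : ℂ) ≠ 0 := by exact_mod_cast hv
  have : (1 / c - 1 / c ^ 2 + cexp (-c) / c ^ 2 + (cexp c / c ^ 2 - 1 / c - 1 / c ^ 2)) =
      (cexp c + cexp (-c) - 2) / c ^ 2 := by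
    ring
  rw [this, hcos, hc2]
  push_cast
  field_simp
  ring

lemma fej_nonneg (v : ℝ) : 0 ≤ fej v := by
  unfold fej
  have := Real.cos_le_one (2 * π * v)
  exact div_nonneg (by linarith) (by positivity)

lemma fej_le (v : ℝ) : fej v ≤ 2 * (1 + v ^ 2)⁻¹ := by
  by_cases hv : v = 0
  · subst hv
    unfold fej
    simp
  · unfold fej
    have h1 := Real.one_sub_sq_div_two_le_cos (x := 2 * π * v)
    have h2 := Real.neg_one_le_cos (2 * π * v)
    have h3 : (3 : ℝ) < π := Real.pi_gt_three
    have h4 : 0 < v ^ 2 := by positivity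
    rw [div_le_iff₀ (by positivity), ← sub_nonneg]
    have e : 2 * (1 + v ^ 2)⁻¹ * (2 * π ^ 2 * v ^ 2) - (1 - Real.cos (2 * π * v)) =
        (4 * π ^ 2 * v ^ 2 - (1 - Real.cos (2 * π * v)) * (1 + v ^ 2)) / (1 + v ^ 2) := by
      field_simp
      ring
    rw [e]
    apply div_nonneg _ (by positivity)
    have h5 : 1 - Real.cos (2 * π * v) ≤ 2 * π ^ 2 * v ^ 2 := by
      have e1 : (2 * π * v) ^ 2 / 2 = 2 * π ^ 2 * v ^ 2 := by ring
      linarith
    have h6 : (1 - Real.cos (2 * π * v)) * v ^ 2 ≤ 2 * v ^ 2 := by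
      gcongr
      linarith
    have h7 : 1 * v ^ 2 ≤ π ^ 2 * v ^ 2 := by
      gcongr
      nlinarith
    linarith

lemma measurable_fej : Measurable fej := by
  unfold fej
  fun_prop

lemma integrable_fej : Integrable fej := by
  refine Integrable.mono' (integrable_inv_one_add_sq.const_mul 2) measurable_fej.aestronglyMeasurable
    (ae_of_all _ fun v => ?_)
  rw [Real.norm_of_nonneg (fej_nonneg v)]
  exact fej_le v

lemma fej_integral_pos : 0 < ∫ v, fej v := by
  rw [integral_pos_iff_support_of_nonneg fej_nonneg integrable_fej]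
  refine lt_of_lt_of_le ?_ (measure_mono (s := Ioo 0 1) ?_)
  · simp
  · intro v hv
    have h0 : 0 < v := hv.1
    have h1 : Real.cos (2 * π * v) < 1 := by
      refine lt_of_le_of_ne (Real.cos_le_one _) fun hcon => ?_
      rw [Real.cos_eq_one_iff] at hcon
      obtain ⟨n, hn⟩ := hcon
      have hpi := Real.pi_pos
      have h2 : (n : ℝ) = v := by
        have h3 : (n : ℝ) * (2 * π) = v * (2 * π) := by rw [hn]; ring
        exact mul_right_cancel₀ (by positivity) h3
      rw [← h2] at hv
      have h4 : (0 : ℤ) < n := by exact_mod_cast hv.1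
      have h5 : n < (1 : ℤ) := by exact_mod_cast hv.2
      omega
    have h2 : 0 < fej v := by
      unfold fej
      have hpi := Real.pi_pos
      exact div_pos (by linarith) (by positivity)
    exact h2.ne'

end Pool.Agent.Work.MP_713a1e_co.WI
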