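import Mathlib
import Pool.Agent.Work.MP_713a1e_co.Fejer

/-! Abstract Wiener–Ikehara theorem. -/

namespace Pool.Agent.Work.MP_713a1e_co.WI

open Complex MeasureTheory Set Filter Topology FourierTransform
open scoped Real

/-- the integrand of the Laplace transform -/
noncomputable def lap (h : ℝ → ℝ) (z : ℂ) (u : ℝ) : ℂ := (h u : ℂ) * cexp (-z * u)

section

variable {h : ℝ → ℝ} {M : ℝ} (hmeas : Measurable h) (hb : ∀ u, |h u| ≤ M)
include hmeas

lemma measurable_lap (z : ℂ) : Measurable (lap h z) := by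
  unfold lap
  fun_prop

include hb

lemma integrableOn_lap {z : ℂ} (hz : 0 < z.re) : IntegrableOn (lap h z) (Ioi 0) := by
  refine Integrable.mono' ((exp_neg_integrableOn_Ioi 0 hz).const_mul M)
    (measurable_lap hmeas z).aestronglyMeasurable ?_
  refine ae_of_all _ fun u => ?_
  unfold lap
  rw [norm_mul, norm_real, Complex.norm_exp, Real.norm_eq_abs]
  have h2 : (-z * (u : ℂ)).re = -z.re * u := by
    simp only [mul_re, neg_re, ofReal_re, neg_im, ofReal_im, mul_zero, sub_zero]
  rw [h2]
  have := hb u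
  gcongr

omit hb in
omit hmeas in
lemma fourier_indicator_lap (ε : ℝ) (ξ : ℝ) :
    𝓕 ((Ioi (0 : ℝ)).indicator (lap h (ε : ℂ))) ξ =
      ∫ u in Ioi (0 : ℝ), lap h (ε + 2 * π * ξ * I) u := by
  rw [Real.fourier_real_eq_integral_exp_smul]
  rw [← integral_indicator measurableSet_Ioi]
  refine integral_congr_ae (ae_of_all _ fun v => ?_)
  simp only
  by_cases hv : v ∈ Ioi (0 : ℝ)
  · rw [indicator_of_mem hv, indicator_of_mem hv]
    unfold lap
    rw [smul_eq_mul]
    have : cexp (-(ε + 2 * π * ξ * I) * v) =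
        cexp (((-2 * π * v * ξ : ℝ) : ℂ) * I) * cexp (-(ε : ℂ) * v) := by
      rw [← Complex.exp_add]
      congr 1
      push_cast
      ring
    rw [this]
    ring
  · rw [indicator_of_notMem hv, indicator_of_notMem hv, smul_zero]

lemma parseval_eps {F : ℂ → ℂ}
    (hL : ∀ z : ℂ, 0 < z.re → ∫ u in Ioi (0 : ℝ), lap h z u = F z)
    {ε T : ℝ} (hε : 0 < ε) (hT0 : 0 < T) (U : ℝ) :
    ∫ ξ : ℝ, F (ε + 2 * π * ξ * I) * (cexp (((2 * π * ξ * U : ℝ) : ℂ) * I) * tent (ξ / T)) =
      ((∫ u in Ioi (0 : ℝ), h u * Real.exp (-ε * u) * (T * fej (T * (u - U))) : ℝ) : ℂ) := by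
  set w : ℝ → ℂ := (Ioi (0 : ℝ)).indicator (lap h (ε : ℂ)) with hw
  have hwi : Integrable w := by
    rw [hw, integrable_indicator_iff measurableSet_Ioi]
    exact integrableOn_lap hmeas hb (by simpa using hε)
  set G : ℝ → ℂ := fun ξ => cexp (((2 * π * ξ * U : ℝ) : ℂ) * I) * tent (ξ / T) with hG
  have hgT : Integrable (fun ξ => tent (ξ / T)) := integrable_tent.comp_div hT0.ne'
  have hGi : Integrable G := by
    refine hgT.norm.mono' ?_ (ae_of_all _ fun ξ => ?_)
    · have := tent_continuous
      apply Continuous.aestronglyMeasurable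
      fun_prop
    · rw [hG]
      simp only [norm_mul, Complex.norm_exp_ofReal_mul_I, one_mul, le_refl]
  have key : ∫ ξ, (𝓕 w ξ) • G ξ = ∫ u, w u • 𝓕 G u := by
    simpa using! VectorFourier.integral_fourierIntegral_smul_eq_flip (L := innerₗ ℝ)
      Real.continuous_fourierChar continuous_inner hwi hGi
  have hFG : ∀ u, u ≠ U → 𝓕 G u = ((T * fej (T * (u - U)) : ℝ) : ℂ) := by
    intro u hu
    rw [Real.fourier_real_eq_integral_exp_smul]
    have h1 := Measure.integral_comp_div
      (fun η : ℝ => cexp (((-2 * π * η * (T * (u - U)) : ℝ) : ℂ) * I) • tent η) T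
    rw [fourier_tent (mul_ne_zero hT0.ne' (sub_ne_zero.mpr hu)), abs_of_pos hT0] at h1
    rw [ofReal_mul, ← real_smul (x := T), ← h1]
    refine integral_congr_ae (ae_of_all _ fun ξ => ?_)
    simp only [hG, smul_eq_mul]
    rw [← mul_assoc, ← Complex.exp_add]
    congr 2
    rw [← add_mul, ← ofReal_add]
    congr 2
    field_simp
    ring
  have hreal : ∫ u, w u • 𝓕 G u =
      ((∫ u in Ioi (0 : ℝ), h u * Real.exp (-ε * u) * (T * fej (T * (u - U))) : ℝ) : ℂ) := by
    rw [← integral_complex_ofReal, ← integral_indicator measurableSet_Ioi]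
    have hae : ∀ᵐ u : ℝ, u ≠ U := by
      rw [ae_iff]
      simp
    refine integral_congr_ae (hae.mono fun u hu' => ?_)
    simp only [hFG u hu']
    by_cases hu : u ∈ Ioi (0 : ℝ)
    · rw [hw, indicator_of_mem hu, indicator_of_mem hu]
      unfold lap
      rw [smul_eq_mul]
      push_cast
      ring
    · rw [hw, indicator_of_notMem hu, indicator_of_notMem hu, zero_smul]
  rw [← hreal, ← key]
  refine integral_congr_ae (ae_of_all _ fun ξ => ?_)
  simp only
  rw [hw, fourier_indicator_lap, hL _ (by simpa using hε), smul_eq_mul]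

omit hmeas hb in
lemma integrable_kernel {T : ℝ} (hT0 : 0 < T) (U : ℝ) :
    Integrable fun u : ℝ => T * fej (T * (u - U)) := by
  have h1 : Integrable fun u : ℝ => fej (T * u) := integrable_fej.comp_mul_left' hT0.ne'
  have h2 : Integrable fun u : ℝ => fej (T * (u - U)) := h1.comp_sub_right U
  exact h2.const_mul T

lemma parseval_zero {F : ℂ → ℂ} (hF : ContinuousOn F {z | 0 ≤ z.re})
    (hL : ∀ z : ℂ, 0 < z.re → ∫ u in Ioi (0 : ℝ), lap h z u = F z)
    {T : ℝ} (hT0 : 0 < T) (U : ℝ) :
    ∫ ξ : ℝ, F (2 * π * ξ * I) * (cexp (((2 * π * ξ * U : ℝ) : ℂ) * I) * tent (ξ / T)) =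
      ((∫ u in Ioi (0 : ℝ), h u * (T * fej (T * (u - U))) : ℝ) : ℂ) := by
  have hM : 0 ≤ M := (abs_nonneg _).trans (hb 0)
  have hgT : Integrable (fun ξ => tent (ξ / T)) := integrable_tent.comp_div hT0.ne'
  -- bound of F on the compact set
  obtain ⟨B, hB⟩ : ∃ B : ℝ, ∀ z ∈ Icc (0 : ℝ) 1 ×ℂ Icc (-(2 * π * T)) (2 * π * T), ‖F z‖ ≤ B := by
    have hK : IsCompact (Icc (0 : ℝ) 1 ×ℂ Icc (-(2 * π * T)) (2 * π * T)) :=
      isCompact_Icc.reProdIm isCompact_Icc
    refine hK.exists_bound_of_continuousOn (hF.mono ?_)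
    intro z hz
    exact (mem_reProdIm.mp hz).1.1
  have hB0 : 0 ≤ B := by
    refine (norm_nonneg _).trans (hB 0 ?_)
    rw [mem_reProdIm]
    simp only [zero_re, zero_im, left_mem_Icc, zero_le_one, true_and, mem_Icc, Left.neg_nonpos_iff]
    constructor <;> positivity
  have hlim1 : Tendsto (fun ε : ℝ => ∫ ξ : ℝ, F (ε + 2 * π * ξ * I) *
      (cexp (((2 * π * ξ * U : ℝ) : ℂ) * I) * tent (ξ / T))) (𝓝[>] 0)
      (𝓝 (∫ ξ : ℝ, F (2 * π * ξ * I) *
        (cexp (((2 * π * ξ * U : ℝ) : ℂ) * I) * tent (ξ / T)))) := by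
    refine tendsto_integral_filter_of_dominated_convergence (fun ξ => B * ‖tent (ξ / T)‖) ?_ ?_
      (hgT.norm.const_mul B) ?_
    · filter_upwards [self_mem_nhdsWithin] with ε (hε : 0 < ε)
      have h1 : Continuous fun ξ : ℝ => F (ε + 2 * π * ξ * I) := by
        refine hF.comp_continuous (by fun_prop) fun ξ => ?_
        simp [hε.le]
      have h2 := tent_continuous
      have h3 : Continuous fun ξ : ℝ => cexp (((2 * π * ξ * U : ℝ) : ℂ) * I) * tent (ξ / T) := by
        fun_prop
      exact (h1.mul h3).aestronglyMeasurable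
    · have h1 : ∀ᶠ ε : ℝ in 𝓝[>] 0, ε ∈ Ioo (0 : ℝ) 1 := Ioo_mem_nhdsGT one_pos
      filter_upwards [h1] with ε hε
      refine ae_of_all _ fun ξ => ?_
      rw [norm_mul, norm_mul, Complex.norm_exp_ofReal_mul_I, one_mul]
      by_cases hξ : 1 ≤ |ξ / T|
      · rw [tent_zero hξ]; simp
      · have h2 : ‖F (ε + 2 * π * ξ * I)‖ ≤ B := by
          apply hB
          rw [mem_reProdIm]
          have h3 : |ξ| < T := by
            rw [not_le, abs_div, abs_of_pos hT0, div_lt_one hT0] at hξ
            exact hξ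
          rw [abs_lt] at h3
          have hpi := Real.pi_pos
          have e1 : ((ε : ℂ) + 2 * π * ξ * I).re = ε := by simp
          have e2 : ((ε : ℂ) + 2 * π * ξ * I).im = 2 * π * ξ := by simp
          rw [e1, e2]
          refine ⟨⟨hε.1.le, hε.2.le⟩, ?_, ?_⟩
          · have : 2 * π * (-T) ≤ 2 * π * ξ := by
              gcongr
              exact h3.1.le
            linarith
          · gcongr
            exact h3.2.le
        gcongr
    · refine ae_of_all _ fun ξ => ?_
      refine Tendsto.mul_const _ ?_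
      have h1 : ContinuousWithinAt F {z | 0 ≤ z.re} (2 * π * ξ * I) := hF _ (by simp)
      have h2 : Tendsto (fun ε : ℝ => (ε : ℂ) + 2 * π * ξ * I) (𝓝[>] 0)
          (𝓝[{z | 0 ≤ z.re}] (2 * π * ξ * I)) := by
        refine tendsto_nhdsWithin_iff.mpr ⟨?_, ?_⟩
        · have h3 : Continuous fun ε : ℝ => (ε : ℂ) + 2 * π * ξ * I := by fun_prop
          have h4 := h3.tendsto 0
          simp only [ofReal_zero, zero_add] at h4
          exact h4.mono_left nhdsWithin_le_nhds
        · filter_upwards [self_mem_nhdsWithin] with ε (hε : 0 < ε)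
          simp [hε.le]
      exact h1.tendsto.comp h2
  have hlim2 : Tendsto (fun ε : ℝ => ∫ u in Ioi (0 : ℝ), h u * Real.exp (-ε * u) *
      (T * fej (T * (u - U)))) (𝓝[>] 0)
      (𝓝 (∫ u in Ioi (0 : ℝ), h u * (T * fej (T * (u - U))))) := by
    refine tendsto_integral_filter_of_dominated_convergence
      (fun u => M * (T * fej (T * (u - U)))) ?_ ?_
      ((integrable_kernel hT0 U).integrableOn.const_mul M) ?_
    · refine Eventually.of_forall fun ε => ?_
      have := measurable_fej
      apply Measurable.aestronglyMeasurable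
      fun_prop
    · filter_upwards [self_mem_nhdsWithin] with ε (hε : 0 < ε)
      rw [ae_restrict_iff' measurableSet_Ioi]
      refine ae_of_all _ fun u (hu : 0 < u) => ?_
      have h1 := fej_nonneg (T * (u - U))
      rw [norm_mul, norm_mul, Real.norm_of_nonneg (Real.exp_pos _).le,
        Real.norm_of_nonneg (mul_nonneg hT0.le h1), Real.norm_eq_abs]
      have h2 : Real.exp (-ε * u) ≤ 1 := by
        rw [Real.exp_le_one_iff]
        nlinarith
      have h3 := hb u
      calc |h u| * Real.exp (-ε * u) * (T * fej (T * (u - U)))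
          ≤ M * 1 * (T * fej (T * (u - U))) := by gcongr
        _ = _ := by ring
    · refine ae_of_all _ fun u => ?_
      refine Tendsto.mul_const _ ?_
      have h1 : Continuous fun ε : ℝ => h u * Real.exp (-ε * u) := by fun_prop
      have h2 := h1.tendsto 0
      simp only [neg_zero, zero_mul, Real.exp_zero, mul_one] at h2
      exact h2.mono_left nhdsWithin_le_nhds
  have hlim3 := (Complex.continuous_ofReal.tendsto _).comp hlim2
  refine tendsto_nhds_unique hlim1 (hlim3.congr' ?_)
  filter_upwards [self_mem_nhdsWithin] with ε (hε : 0 < ε)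
  exact (parseval_eps hmeas hb hL hε hT0 U).symm

/-- the smoothed average tends to zero -/
lemma average_tendsto {F : ℂ → ℂ} (hF : ContinuousOn F {z | 0 ≤ z.re})
    (hL : ∀ z : ℂ, 0 < z.re → ∫ u in Ioi (0 : ℝ), lap h z u = F z)
    {T : ℝ} (hT0 : 0 < T) :
    Tendsto (fun U : ℝ => ∫ u in Ioi (0 : ℝ), h u * (T * fej (T * (u - U)))) atTop (𝓝 0) := by
  have h1 := Real.zero_at_infty_fourier (fun ξ : ℝ => F (2 * π * ξ * I) * tent (ξ / T))
  have h2 : Tendsto (fun U : ℝ => -U) atTop (cocompact ℝ) :=
    tendsto_neg_atTop_atBot.mono_right atBot_le_cocompact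
  have h3 := h1.comp h2
  have h4 : ∀ U : ℝ, 𝓕 (fun ξ : ℝ => F (2 * π * ξ * I) * tent (ξ / T)) (-U) =
      ((∫ u in Ioi (0 : ℝ), h u * (T * fej (T * (u - U))) : ℝ) : ℂ) := by
    intro U
    rw [← parseval_zero hmeas hb hF hL hT0 U, Real.fourier_real_eq_integral_exp_smul]
    refine integral_congr_ae (ae_of_all _ fun ξ => ?_)
    simp only [smul_eq_mul]
    have e : ((-2 * π * ξ * -U : ℝ) : ℂ) = ((2 * π * ξ * U : ℝ) : ℂ) := by
      push_cast
      ring
    rw [e]
    ring
  have h5 : Tendsto (fun U : ℝ => ((∫ u in Ioi (0 : ℝ), h u * (T * fej (T * (u - U))) : ℝ) : ℂ))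
      atTop (𝓝 0) := by
    refine h3.congr fun U => ?_
    exact h4 U
  have h6 := (Complex.continuous_re.tendsto _).comp h5
  rw [Complex.zero_re] at h6
  refine h6.congr fun U => ?_
  rw [Function.comp_apply, Complex.ofReal_re]

omit hmeas hb in
/-- there is a scale at which the kernel is concentrated -/
lemma exists_scale {m M η : ℝ} (hm : 0 < m) (hη : 0 < η) :
    ∃ T : ℝ, 0 < T ∧ 0 < ∫ v, (if |v| ≤ T * η then m else -M) * fej v := by
  have hlim : Tendsto (fun T : ℝ => ∫ v, (if |v| ≤ T * η then m else -M) * fej v) atTop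
      (𝓝 (∫ v, m * fej v)) := by
    refine tendsto_integral_filter_of_dominated_convergence (fun v => (|m| + |M|) * fej v) ?_ ?_
      (integrable_fej.const_mul _) ?_
    · refine Eventually.of_forall fun T => ?_
      have := measurable_fej
      apply Measurable.aestronglyMeasurable
      refine Measurable.mul (Measurable.ite ?_ measurable_const measurable_const) this
      exact measurableSet_le (by fun_prop) measurable_const
    · refine Eventually.of_forall fun T => ae_of_all _ fun v => ?_
      rw [norm_mul, Real.norm_of_nonneg (fej_nonneg v)]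
      have := fej_nonneg v
      gcongr
      split_ifs
      · rw [Real.norm_eq_abs]
        linarith [abs_nonneg M]
      · rw [Real.norm_eq_abs, abs_neg]
        linarith [abs_nonneg m]
    · refine ae_of_all _ fun v => ?_
      refine tendsto_const_nhds.congr' ?_
      filter_upwards [eventually_ge_atTop (|v| / η)] with T hT
      rw [div_le_iff₀ hη] at hT
      rw [if_pos hT]
  have hpos : 0 < ∫ v, m * fej v := by
    rw [integral_const_mul]
    exact mul_pos hm fej_integral_pos
  have h1 := (hlim.eventually_const_lt hpos).and (eventually_gt_atTop 0)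
  obtain ⟨T, hT⟩ := h1.exists
  exact ⟨T, hT.2, hT.1⟩

/-- lower bound for the average -/
lemma average_lower {T m η σ U : ℝ} (hT0 : 0 < T) (hσ : |σ| = 1) (hU : η < U)
    (hmin : ∀ u, |u - U| ≤ η → m ≤ σ * h u) :
    ∫ v, (if |v| ≤ T * η then m else -M) * fej v ≤
      σ * ∫ u in Ioi (0 : ℝ), h u * (T * fej (T * (u - U))) := by
  have hM : 0 ≤ M := (abs_nonneg _).trans (hb 0)
  have hk := integrable_kernel hT0 U
  have e1 : ∫ v, (if |v| ≤ T * η then m else -M) * fej v =
      ∫ u, (if |T * (u - U)| ≤ T * η then m else -M) * (T * fej (T * (u - U))) := by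
    have h1 := Measure.integral_comp_mul_left
      (fun v => (if |v| ≤ T * η then m else -M) * fej v) T
    have h2 := integral_sub_right_eq_self (μ := volume)
      (fun u => (if |T * u| ≤ T * η then m else -M) * fej (T * u)) U
    have h3 : ∀ u : ℝ, (if |T * (u - U)| ≤ T * η then m else -M) * (T * fej (T * (u - U))) =
        T * ((if |T * (u - U)| ≤ T * η then m else -M) * fej (T * (u - U))) := by
      intro u; ring
    simp_rw [h3]
    rw [integral_const_mul, h2, h1, abs_of_pos (inv_pos.mpr hT0), smul_eq_mul, ← mul_assoc,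
      mul_inv_cancel₀ hT0.ne', one_mul]
  rw [e1, ← integral_const_mul, ← integral_indicator measurableSet_Ioi]
  have hmf := measurable_fej
  refine integral_mono ?_ ?_ fun u => ?_
  · refine (hk.const_mul (|m| + |M|)).mono' ?_ (ae_of_all _ fun u => ?_)
    · apply Measurable.aestronglyMeasurable
      refine Measurable.mul (Measurable.ite ?_ measurable_const measurable_const) (by fun_prop)
      exact measurableSet_le (by fun_prop) measurable_const
    · have h1 : 0 ≤ T * fej (T * (u - U)) := mul_nonneg hT0.le (fej_nonneg _)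
      rw [norm_mul, Real.norm_of_nonneg h1]
      gcongr
      split_ifs
      · rw [Real.norm_eq_abs]
        linarith [abs_nonneg M]
      · rw [Real.norm_eq_abs, abs_neg]
        linarith [abs_nonneg m]
  · rw [integrable_indicator_iff measurableSet_Ioi]
    refine (hk.const_mul M).integrableOn.mono' ?_ (ae_of_all _ fun u => ?_)
    · apply Measurable.aestronglyMeasurable
      fun_prop
    · have h1 : 0 ≤ T * fej (T * (u - U)) := mul_nonneg hT0.le (fej_nonneg _)
      rw [norm_mul, norm_mul, Real.norm_of_nonneg h1, Real.norm_eq_abs, Real.norm_eq_abs, hσ,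
        one_mul]
      have := hb u
      gcongr
  · simp only
    have h1 : 0 ≤ T * fej (T * (u - U)) := mul_nonneg hT0.le (fej_nonneg _)
    by_cases hu : u ∈ Ioi (0 : ℝ)
    · rw [indicator_of_mem hu]
      rw [← mul_assoc σ]
      gcongr
      split_ifs with h2
      · apply hmin
        rw [abs_mul, abs_of_pos hT0] at h2
        exact le_of_mul_le_mul_left h2 hT0
      · have h3 : |σ * h u| ≤ M := by
          rw [abs_mul, hσ, one_mul]
          exact hb u
        exact (abs_le.mp h3).1
    · rw [indicator_of_notMem hu]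
      have h2 : ¬ |T * (u - U)| ≤ T * η := by
        intro hcon
        rw [abs_mul, abs_of_pos hT0] at hcon
        have h3 := le_of_mul_le_mul_left hcon hT0
        rw [abs_le] at h3
        apply hu
        rw [mem_Ioi]
        linarith [h3.1]
      rw [if_neg h2]
      have : 0 ≤ M * (T * fej (T * (u - U))) := mul_nonneg hM h1
      linarith

/-- **Wiener–Ikehara.** -/
theorem tendsto_zero {F : ℂ → ℂ} (hF : ContinuousOn F {z | 0 ≤ z.re})
    (hL : ∀ z : ℂ, 0 < z.re → ∫ u in Ioi (0 : ℝ), lap h z u = F z)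
    (hslow : ∀ u v, u ≤ v → h u - M * (v - u) ≤ h v) :
    Tendsto h atTop (𝓝 0) := by
  rcases eq_or_lt_of_le ((abs_nonneg _).trans (hb 0)) with hM | hM
  · have : h = fun _ => 0 := by
      funext u
      have := hb u
      rw [← hM] at this
      exact abs_nonpos_iff.mp this
    rw [this]
    exact tendsto_const_nhds
  rw [Metric.tendsto_nhds]
  intro δ hδ
  set η : ℝ := δ / (4 * M) with hη
  have hη0 : 0 < η := by positivity
  obtain ⟨T, hT0, hT⟩ := exists_scale (m := δ / 2) (M := M) (η := η) (by positivity) hη0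
  set P := ∫ v, (if |v| ≤ T * η then δ / 2 else -M) * fej v with hP
  have hav := average_tendsto hmeas hb hF hL hT0
  rw [Metric.tendsto_nhds] at hav
  have h1 := hav P hT
  rw [eventually_atTop] at h1
  obtain ⟨U0, hU0⟩ := h1
  have key : ∀ U' σ : ℝ, |σ| = 1 → U0 ≤ U' → η < U' → ¬ (∀ u, |u - U'| ≤ η → δ / 2 ≤ σ * h u) := by
    intro U' σ hσ h2 h3 h4
    have h5 := average_lower hmeas hb hT0 hσ h3 h4
    have h6 := hU0 U' h2
    rw [dist_zero_right, Real.norm_eq_abs] at h6
    set J := ∫ u in Ioi (0 : ℝ), h u * (T * fej (T * (u - U'))) with hJ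
    have h7 : σ * J ≤ |J| := by
      calc σ * J ≤ |σ * J| := le_abs_self _
        _ = |J| := by rw [abs_mul, hσ, one_mul]
    linarith
  filter_upwards [eventually_ge_atTop (U0 + 2 * η), eventually_gt_atTop (2 * η)] with U hU1 hU2
  rw [dist_zero_right, Real.norm_eq_abs]
  by_contra hcon
  rw [not_lt] at hcon
  have e1 : M * (2 * η) = δ / 2 := by rw [hη]; field_simp; ring
  rcases le_abs.mp hcon with h2 | h2
  · refine key (U + η) 1 (by simp) (by linarith) (by linarith) fun u hu => ?_
    rw [abs_le] at hu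
    have h3 := hslow U u (by linarith)
    have h4 : M * (u - U) ≤ M * (2 * η) := by
      gcongr
      linarith
    linarith
  · refine key (U - η) (-1) (by simp) (by linarith) (by linarith) fun u hu => ?_
    rw [abs_le] at hu
    have h3 := hslow u U (by linarith)
    have h4 : M * (U - u) ≤ M * (2 * η) := by
      gcongr
      linarith
    linarith

end

end Pool.Agent.Work.MP_713a1e_co.WI
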