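import Mathlib
import Pool.Agent.Work.MP_713a1e_co.WienerIkehara

/-! `ψ(x; q, a) ~ x / φ(q)`. -/

namespace Pool.Agent.Work.MP_713a1e_co.WI

open Complex MeasureTheory Set Filter Topology
open scoped Real
open ArithmeticFunction.vonMangoldt

variable {q : ℕ} (a : ZMod q)

/-- `ψ(x; q, a)` -/
noncomputable def psiR (x : ℝ) : ℝ := ∑ k ∈ Finset.Ioc 0 ⌊x⌋₊, residueClass a k

lemma psiR_nonneg (x : ℝ) : 0 ≤ psiR a x :=
  Finset.sum_nonneg fun k _ => residueClass_nonneg a k

lemma psiR_mono : Monotone (psiR a) := by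
  intro x y hxy
  unfold psiR
  refine Finset.sum_le_sum_of_subset_of_nonneg ?_ fun k _ _ => residueClass_nonneg a k
  exact Finset.Ioc_subset_Ioc_right (Nat.floor_le_floor hxy)

lemma psiR_le (x : ℝ) : psiR a x ≤ Chebyshev.psi x :=
  Finset.sum_le_sum fun k _ => residueClass_le a k

/-- the constant -/
noncomputable def cM : ℝ := Real.log 4 + 4

lemma four_le_cM : 4 ≤ cM := by
  unfold cM
  have := Real.log_nonneg (show (1 : ℝ) ≤ 4 by norm_num)
  linarith

lemma psiR_le_mul {x : ℝ} (hx : 0 ≤ x) : psiR a x ≤ cM * x :=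
  (psiR_le a x).trans (Chebyshev.psi_le_const_mul_self hx)

/-- the normalised error term -/
noncomputable def hR (u : ℝ) : ℝ := psiR a (Real.exp u) * Real.exp (-u) - (q.totient : ℝ)⁻¹

lemma inv_tot_nonneg (q : ℕ) : 0 ≤ (q.totient : ℝ)⁻¹ := by positivity

lemma inv_tot_le_one (q : ℕ) : (q.totient : ℝ)⁻¹ ≤ 1 := by
  rcases Nat.eq_zero_or_pos q.totient with h | h
  · rw [h]; simp
  · exact inv_le_one_of_one_le₀ (by exact_mod_cast h)

lemma psiR_exp_le (u : ℝ) : psiR a (Real.exp u) * Real.exp (-u) ≤ cM := by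
  have h := psiR_le_mul a (Real.exp_pos u).le
  calc psiR a (Real.exp u) * Real.exp (-u)
      ≤ cM * Real.exp u * Real.exp (-u) := by gcongr
    _ = cM := by rw [mul_assoc, ← Real.exp_add, add_neg_cancel, Real.exp_zero, mul_one]

lemma psiR_exp_nonneg (u : ℝ) : 0 ≤ psiR a (Real.exp u) * Real.exp (-u) :=
  mul_nonneg (psiR_nonneg a _) (Real.exp_pos _).le

lemma hR_bound (u : ℝ) : |hR a u| ≤ cM := by
  have h1 := psiR_exp_le a u
  have h2 := psiR_exp_nonneg a u
  have h3 := four_le_cM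
  have h4 := inv_tot_nonneg q
  have h5 := inv_tot_le_one q
  unfold hR
  rw [abs_le]
  constructor <;> linarith

lemma measurable_hR : Measurable (hR a) := by
  unfold hR
  have := (psiR_mono a).measurable
  fun_prop

lemma hR_slow (u v : ℝ) (huv : u ≤ v) : hR a u - cM * (v - u) ≤ hR a v := by
  have h1 : psiR a (Real.exp u) ≤ psiR a (Real.exp v) :=
    psiR_mono a (Real.exp_le_exp.mpr huv)
  have h2 : (psiR a (Real.exp u) * Real.exp (-u)) * Real.exp (-(v - u)) ≤
      psiR a (Real.exp v) * Real.exp (-v) := by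
    rw [mul_assoc, ← Real.exp_add]
    have : -u + -(v - u) = -v := by ring
    rw [this]
    gcongr
  have h3 : 1 - (v - u) ≤ Real.exp (-(v - u)) := by
    have := Real.add_one_le_exp (-(v - u))
    linarith
  have h4 : (psiR a (Real.exp u) * Real.exp (-u)) * (1 - (v - u)) ≤
      (psiR a (Real.exp u) * Real.exp (-u)) * Real.exp (-(v - u)) := by
    have := psiR_exp_nonneg a u
    gcongr
  have h5 : (psiR a (Real.exp u) * Real.exp (-u)) * (v - u) ≤ cM * (v - u) := by
    have := psiR_exp_le a u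
    have h0 : 0 ≤ v - u := by linarith
    gcongr
  unfold hR
  linarith

lemma exp_image_Ioi : Real.exp '' (Ioi 0) = Ioi 1 := by
  ext x
  simp only [mem_image, mem_Ioi]
  constructor
  · rintro ⟨y, hy, rfl⟩
    exact Real.one_lt_exp_iff.mpr hy
  · intro hx
    exact ⟨Real.log x, Real.log_pos hx, Real.exp_log (by linarith)⟩

lemma exp_cpow_eq (u : ℝ) (w : ℂ) : ((Real.exp u : ℝ) : ℂ) ^ w = cexp (u * w) := by
  have h : ((Real.exp u : ℝ) : ℂ) ≠ 0 := by exact_mod_cast (Real.exp_pos u).ne'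
  rw [cpow_def_of_ne_zero h, ← ofReal_log (Real.exp_pos u).le, Real.log_exp]

lemma integrableOn_psiR_cpow {s : ℂ} (hs : 1 < s.re) :
    IntegrableOn (fun t : ℝ => (psiR a t : ℂ) * (t : ℂ) ^ (-(s + 1))) (Ioi 1) := by
  have hb : IntegrableOn (fun t : ℝ => cM * t ^ (-s.re)) (Ioi 1) :=
    (integrableOn_Ioi_rpow_of_lt (by linarith) one_pos).const_mul _
  refine Integrable.mono' hb ?_ ?_
  · have h1 : Measurable fun t : ℝ => (psiR a t : ℂ) := by
      have := (psiR_mono a).measurable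
      fun_prop
    have h2 : Measurable fun t : ℝ => (t : ℂ) ^ (-(s + 1)) := by fun_prop
    exact (h1.mul h2).aestronglyMeasurable
  · rw [ae_restrict_iff' measurableSet_Ioi]
    refine ae_of_all _ fun t (ht : 1 < t) => ?_
    have ht0 : 0 < t := by linarith
    rw [norm_mul, norm_real, Real.norm_of_nonneg (psiR_nonneg a t),
      norm_cpow_eq_rpow_re_of_pos ht0]
    have h1 : (-(s + 1)).re = -s.re - 1 := by simp; ring
    rw [h1]
    have h2 := psiR_le_mul a ht0.le
    calc psiR a t * t ^ (-s.re - 1) ≤ cM * t * t ^ (-s.re - 1) := by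
          gcongr
      _ = cM * t ^ (-s.re) := by
          rw [Real.rpow_sub_one ht0.ne']
          field_simp

lemma LSeries_eq_integral_psiR {s : ℂ} (hs : 1 < s.re) :
    LSeries (fun n => (residueClass a n : ℂ)) s =
      s * ∫ t in Ioi (1 : ℝ), (psiR a t : ℂ) * (t : ℂ) ^ (-(s + 1)) := by
  have h := LSeries_eq_mul_integral_of_nonneg (fun n => residueClass a n)
    (r := 1) (by norm_num) hs (by
      refine Asymptotics.IsBigO.of_bound cM (Eventually.of_forall fun n => ?_)
      have h1 := psiR_le_mul a (x := (n : ℝ)) (by positivity)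
      have h2 : psiR a (n : ℝ) = ∑ k ∈ Finset.Icc 1 n, residueClass a k := by
        unfold psiR
        rw [Nat.floor_natCast]
        rfl
      rw [← h2, Real.norm_of_nonneg (psiR_nonneg a _), Real.rpow_one,
        Real.norm_of_nonneg (by positivity)]
      exact h1) (fun n => residueClass_nonneg a n)
  rw [h]
  congr 1
  refine setIntegral_congr_fun measurableSet_Ioi fun t _ => ?_
  unfold psiR
  push_cast
  rfl

variable [NeZero q]

lemma laplace_hR {a : ZMod q} (ha : IsUnit a) {z : ℂ} (hz : 0 < z.re) :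
    ∫ u in Ioi (0 : ℝ), lap (hR a) z u =
      (LFunctionResidueClassAux a (1 + z) - (q.totient : ℂ)⁻¹) / (1 + z) := by
  have hs : 1 < (1 + z).re := by simp [hz]
  have hz0 : z ≠ 0 := by rintro rfl; simp at hz
  have hs0 : (1 + z) ≠ 0 := by
    intro h
    rw [h] at hs
    simp at hs
    linarith
  have h1 : ∫ u in Ioi (0 : ℝ), lap (hR a) z u =
      ∫ t in Ioi (1 : ℝ), ((psiR a t : ℂ) - (q.totient : ℂ)⁻¹ * t) * (t : ℂ) ^ (-(1 + z + 1)) := by
    have := integral_image_eq_integral_abs_deriv_smul (s := Ioi (0 : ℝ)) (f := Real.exp)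
      (f' := Real.exp) measurableSet_Ioi (fun x _ => (Real.hasDerivAt_exp x).hasDerivWithinAt)
      Real.exp_injective.injOn
      (fun t : ℝ => ((psiR a t : ℂ) - (q.totient : ℂ)⁻¹ * t) * (t : ℂ) ^ (-(1 + z + 1)))
    rw [exp_image_Ioi] at this
    rw [this]
    refine setIntegral_congr_fun measurableSet_Ioi fun u _ => ?_
    unfold lap hR
    simp only [real_smul, abs_of_pos (Real.exp_pos u)]
    rw [exp_cpow_eq]
    push_cast
    have e1 : cexp (u : ℂ) ≠ 0 := Complex.exp_ne_zero _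
    rw [show (u : ℂ) * (-(1 + z + 1)) = -(u : ℂ) + (-(u : ℂ) + -z * u) by ring, Complex.exp_add,
      Complex.exp_add, Complex.exp_neg]
    field_simp
  have h2 : ∫ t in Ioi (1 : ℝ), ((psiR a t : ℂ) - (q.totient : ℂ)⁻¹ * t) * (t : ℂ) ^ (-(1 + z + 1)) =
      (∫ t in Ioi (1 : ℝ), (psiR a t : ℂ) * (t : ℂ) ^ (-(1 + z + 1))) -
        ∫ t in Ioi (1 : ℝ), (q.totient : ℂ)⁻¹ * (t : ℂ) ^ (-(1 + z)) := by
    rw [← integral_sub (integrableOn_psiR_cpow a hs) ((integrableOn_Ioi_cpow_of_lt (by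
      rw [neg_re]; linarith) one_pos).const_mul _)]
    refine setIntegral_congr_fun measurableSet_Ioi fun t (ht : 1 < t) => ?_
    have ht0 : (t : ℂ) ≠ 0 := by exact_mod_cast (by linarith : t ≠ 0)
    rw [sub_mul]
    congr 1
    rw [show (-(1 + z) : ℂ) = -(1 + z + 1) + 1 by ring, cpow_add _ _ ht0, cpow_one]
    ring
  have h3 : ∫ t in Ioi (1 : ℝ), (q.totient : ℂ)⁻¹ * (t : ℂ) ^ (-(1 + z)) =
      (q.totient : ℂ)⁻¹ * (1 / z) := by
    rw [integral_const_mul, integral_Ioi_cpow_of_lt (by rw [neg_re]; linarith) one_pos]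
    simp
  have h4 := LSeries_eq_integral_psiR a hs
  have h5 := eqOn_LFunctionResidueClassAux ha (show (1 + z) ∈ {s : ℂ | 1 < s.re} from hs)
  simp only at h5
  rw [h1, h2, h3, h5, h4]
  have e2 : (1 + z - 1 : ℂ) = z := by ring
  rw [e2]
  field_simp
  ring

theorem hR_tendsto {a : ZMod q} (ha : IsUnit a) : Tendsto (hR a) atTop (𝓝 0) := by
  refine tendsto_zero (M := cM) (measurable_hR a) (hR_bound a)
    (F := fun z => (LFunctionResidueClassAux a (1 + z) - (q.totient : ℂ)⁻¹) / (1 + z)) ?_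
    (fun z hz => laplace_hR ha hz) (hR_slow a)
  refine ContinuousOn.div (ContinuousOn.sub ?_ continuousOn_const) (by fun_prop) ?_
  · refine (continuousOn_LFunctionResidueClassAux a).comp (by fun_prop) ?_
    intro z hz
    rw [Set.mem_ofPred] at hz ⊢
    simpa using hz
  · intro z hz h0
    rw [Set.mem_ofPred] at hz
    have h1 : (1 + z).re = 0 := by rw [h0]; simp
    simp at h1
    linarith

/-- **Prime number theorem in a fixed arithmetic progression**, for `ψ`. -/
theorem psiR_asymp {a : ZMod q} (ha : IsUnit a) {δ : ℝ} (hδ : 0 < δ) :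
    ∃ x0 : ℝ, 1 < x0 ∧ ∀ x : ℝ, x0 ≤ x → |psiR a x - x / q.totient| ≤ δ * x := by
  have h1 := hR_tendsto ha
  rw [Metric.tendsto_nhds] at h1
  have h2 := h1 δ hδ
  rw [eventually_atTop] at h2
  obtain ⟨U, hU⟩ := h2
  refine ⟨Real.exp (max U 1), ?_, fun x hx => ?_⟩
  · rw [Real.one_lt_exp_iff]
    exact lt_of_lt_of_le one_pos (le_max_right _ _)
  · have hx0 : 0 < x := (Real.exp_pos _).trans_le hx
    have h3 : max U 1 ≤ Real.log x := (Real.le_log_iff_exp_le hx0).mpr hx
    have h4 := hU (Real.log x) ((le_max_left _ _).trans h3)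
    rw [dist_zero_right, Real.norm_eq_abs] at h4
    have h5 : psiR a x - x / q.totient = hR a (Real.log x) * x := by
      unfold hR
      rw [Real.exp_log hx0, Real.exp_neg, Real.exp_log hx0]
      field_simp
    rw [h5, abs_mul, abs_of_pos hx0]
    gcongr

end Pool.Agent.Work.MP_713a1e_co.WI
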