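import Mathlib
import Pool.Agent.Work.MP_713a1e_co.PsiAP

/-! JOB A: prime number theorem in a fixed arithmetic progression, comparable intervals. -/

namespace Pool.Agent.Work.MP_713a1e_co

open Filter Topology
open ArithmeticFunction.vonMangoldt

namespace WI

lemma psiR_sub {q : ℕ} (a : ZMod q) {x z : ℝ} (hxz : x ≤ z) :
    psiR a z - psiR a x = ∑ k ∈ Finset.Ioc ⌊x⌋₊ ⌊z⌋₊, residueClass a k := by
  unfold psiR
  rw [← Finset.sum_Ioc_consecutive (fun k => residueClass a k) (Nat.zero_le ⌊x⌋₊)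
    (Nat.floor_le_floor hxz)]
  ring

lemma residueClass_prime {q a p : ℕ} (hp : p.Prime) :
    residueClass (a : ZMod q) p = if p ≡ a [MOD q] then Real.log p else 0 := by
  unfold residueClass
  rw [Set.indicator_apply]
  simp only [Set.mem_ofPred_eq, ZMod.natCast_eq_natCast_iff]
  split_ifs
  · exact ArithmeticFunction.vonMangoldt_apply_prime hp
  · rfl

lemma theta_sum {q a : ℕ} {x z : ℝ} :
    ∑ p ∈ (Finset.Ioc ⌊x⌋₊ ⌊z⌋₊).filter (fun p => p.Prime ∧ p ≡ a [MOD q]), Real.log p =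
      ∑ k ∈ (Finset.Ioc ⌊x⌋₊ ⌊z⌋₊).filter (fun p => p.Prime), residueClass (a : ZMod q) k := by
  rw [← Finset.filter_filter, Finset.sum_filter]
  refine Finset.sum_congr rfl fun p hp => ?_
  rw [residueClass_prime (Finset.mem_filter.mp hp).2]

lemma sum_nonprime_le {q : ℕ} (a : ZMod q) {x z : ℝ} :
    ∑ k ∈ (Finset.Ioc ⌊x⌋₊ ⌊z⌋₊).filter (fun p => ¬ p.Prime), residueClass a k ≤
      Chebyshev.psi z - Chebyshev.theta z := by
  rw [Chebyshev.psi_sub_theta_eq_sum_not_prime]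
  calc ∑ k ∈ (Finset.Ioc ⌊x⌋₊ ⌊z⌋₊).filter (fun p => ¬ p.Prime), residueClass a k
      ≤ ∑ k ∈ (Finset.Ioc 0 ⌊z⌋₊).filter (fun p => ¬ p.Prime), residueClass a k := by
        refine Finset.sum_le_sum_of_subset_of_nonneg ?_ fun k _ _ => residueClass_nonneg a k
        apply Finset.filter_subset_filter
        exact Finset.Ioc_subset_Ioc_left (Nat.zero_le _)
    _ ≤ _ := Finset.sum_le_sum fun k _ => residueClass_le a k

end WI

open WI

/-- the sum of `log p` over primes `p = a mod q` in `(x, x + y]`. -/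
lemma theta_ap (q a : ℕ) (hq : 0 < q) (ha : Nat.Coprime a q) (κ δ : ℝ) (hκ : 0 < κ)
    (hδ : 0 < δ) : ∃ x0 : ℝ, 1 < x0 ∧ ∀ x y : ℝ, x0 ≤ x → κ * x ≤ y → y ≤ x / κ →
      |∑ p ∈ (Finset.Ioc ⌊x⌋₊ ⌊x + y⌋₊).filter (fun p => p.Prime ∧ p ≡ a [MOD q]), Real.log p
        - y / q.totient| ≤ δ * y := by
  haveI : NeZero q := ⟨hq.ne'⟩
  have hb : IsUnit (a : ZMod q) := (ZMod.isUnit_iff_coprime a q).mpr ha
  set δ₂ : ℝ := δ / (3 / κ + 2) with hδ₂
  have hden : 0 < 3 / κ + 2 := by positivity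
  have hδ₂0 : 0 < δ₂ := by positivity
  obtain ⟨x1, hx1, h1⟩ := psiR_asymp hb hδ₂0
  obtain ⟨C, hC⟩ := Chebyshev.psi_sub_theta_le_mul_sqrt
  refine ⟨max x1 ((|C| / δ₂) ^ 2), lt_of_lt_of_le hx1 (le_max_left _ _), fun x y hx hy1 hy2 => ?_⟩
  have hx2 : x1 ≤ x := (le_max_left _ _).trans hx
  have hx3 : (|C| / δ₂) ^ 2 ≤ x := (le_max_right _ _).trans hx
  have hx0 : 0 < x := by linarith
  have hy0 : 0 < y := lt_of_lt_of_le (by positivity) hy1
  have hxy : x ≤ y / κ := by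
    rw [le_div_iff₀ hκ]; linarith
  have e1 := h1 x hx2
  have e2 := h1 (x + y) (by linarith)
  have e3 := psiR_sub (a : ZMod q) (show x ≤ x + y by linarith)
  rw [← Finset.sum_filter_add_sum_filter_not (Finset.Ioc ⌊x⌋₊ ⌊x + y⌋₊) (fun p => p.Prime),
    ← theta_sum] at e3
  set Θ := ∑ p ∈ (Finset.Ioc ⌊x⌋₊ ⌊x + y⌋₊).filter (fun p => p.Prime ∧ p ≡ a [MOD q]),
    Real.log p with hΘ
  set N := ∑ k ∈ (Finset.Ioc ⌊x⌋₊ ⌊x + y⌋₊).filter (fun p => ¬ p.Prime),
    residueClass (a : ZMod q) k with hN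
  have hN0 : 0 ≤ N := Finset.sum_nonneg fun k _ => residueClass_nonneg _ k
  have hN1 : N ≤ δ₂ * (x + y) := by
    have h2 : N ≤ C * √(x + y) := (sum_nonprime_le _).trans (hC _)
    have h3 : |C| ≤ δ₂ * √(x + y) := by
      rw [← div_le_iff₀' hδ₂0]
      apply Real.le_sqrt_of_sq_le
      linarith
    calc N ≤ C * √(x + y) := h2
      _ ≤ |C| * √(x + y) := by
          gcongr
          exact le_abs_self C
      _ ≤ δ₂ * √(x + y) * √(x + y) := by gcongr
      _ = δ₂ * (x + y) := by rw [mul_assoc, Real.mul_self_sqrt (by positivity)]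
  have hfin : δ₂ * (3 * x + 2 * y) ≤ δ * y := by
    calc δ₂ * (3 * x + 2 * y) ≤ δ₂ * (3 * (y / κ) + 2 * y) := by gcongr
      _ = δ * y := by
        rw [hδ₂]
        field_simp
  have e4 : (x + y) / (q.totient : ℝ) = x / q.totient + y / q.totient := by ring
  rw [e4] at e2
  rw [abs_le] at e1 e2 ⊢
  constructor
  · linarith [e1.1, e1.2, e2.1, e2.2]
  · linarith [e1.1, e1.2, e2.1, e2.2]

/-- **Prime number theorem in a fixed arithmetic progression**, in comparable intervals. -/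
theorem primes_in_ap (q a : ℕ) (hq : 0 < q) (ha : Nat.Coprime a q) (κ δ : ℝ) (hκ : 0 < κ)
    (hδ : 0 < δ) :
    ∃ x0 : ℝ, 1 < x0 ∧ ∀ x y : ℝ, x0 ≤ x → κ * x ≤ y → y ≤ x / κ →
      |(((Finset.Ioc ⌊x⌋₊ ⌊x + y⌋₊).filter (fun p => p.Prime ∧ p ≡ a [MOD q])).card : ℝ)
        - y / ((Nat.totient q : ℝ) * Real.log x)| ≤ δ * y / Real.log x := by
  have hφ : (1 : ℝ) ≤ q.totient := by exact_mod_cast Nat.totient_pos.mpr hq
  have hφ0 : (0 : ℝ) < q.totient := by linarith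
  obtain ⟨x1, hx1, h1⟩ := theta_ap q a hq ha κ (δ / 2) hκ (by positivity)
  set C : ℝ := Real.log (1 + 1 / κ) with hC
  have hκ1 : 0 < 1 / κ := by positivity
  have hC0 : 0 < C := Real.log_pos (by linarith)
  set L0 : ℝ := C * (1 + δ / 2) / (δ / 2) with hL0
  refine ⟨max x1 (Real.exp L0), lt_of_lt_of_le hx1 (le_max_left _ _), fun x y hx hy1 hy2 => ?_⟩
  have hx2 : x1 ≤ x := (le_max_left _ _).trans hx
  have hx3 : Real.exp L0 ≤ x := (le_max_right _ _).trans hx
  have hx4 : 1 < x := lt_of_lt_of_le hx1 hx2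
  have hx0 : 0 < x := by linarith
  have hy0 : 0 < y := lt_of_lt_of_le (by positivity) hy1
  set L : ℝ := Real.log x with hL
  have hLpos : 0 < L := Real.log_pos hx4
  have hL1 : L0 ≤ L := (Real.le_log_iff_exp_le hx0).mpr hx3
  have e1 := h1 x y hx2 hy1 hy2
  set S := (Finset.Ioc ⌊x⌋₊ ⌊x + y⌋₊).filter (fun p => p.Prime ∧ p ≡ a [MOD q]) with hS
  set Θ := ∑ p ∈ S, Real.log p with hΘ
  have hlow : (S.card : ℝ) * L ≤ Θ := by
    rw [← nsmul_eq_mul]
    refine Finset.card_nsmul_le_sum S _ _ fun p hp => ?_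
    rw [hS, Finset.mem_filter, Finset.mem_Ioc] at hp
    refine Real.log_le_log hx0 ?_
    exact (Nat.lt_of_floor_lt hp.1.1).le
  have hup : Θ ≤ (S.card : ℝ) * (L + C) := by
    rw [← nsmul_eq_mul]
    refine Finset.sum_le_card_nsmul S _ _ fun p hp => ?_
    rw [hS, Finset.mem_filter, Finset.mem_Ioc] at hp
    have hp1 : (p : ℝ) ≤ x + y := (Nat.le_floor_iff (by positivity)).mp hp.1.2
    have hp0 : (0 : ℝ) < p := by exact_mod_cast hp.2.1.pos
    have hp2 : (p : ℝ) ≤ x * (1 + 1 / κ) := by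
      have : x * (1 + 1 / κ) = x + x / κ := by ring
      rw [this]
      linarith
    calc Real.log p ≤ Real.log (x * (1 + 1 / κ)) := Real.log_le_log hp0 hp2
      _ = L + C := Real.log_mul hx0.ne' (by positivity)
  rw [abs_le] at e1
  have hinv : y / (q.totient : ℝ) ≤ y := div_le_self hy0.le hφ
  have hN : (S.card : ℝ) ≤ (1 + δ / 2) * y / L := by
    rw [le_div_iff₀ hLpos]
    linarith [e1.2]
  have hNC : (S.card : ℝ) * C ≤ δ / 2 * y := by
    calc (S.card : ℝ) * C ≤ ((1 + δ / 2) * y / L) * C := by gcongr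
      _ = (C * (1 + δ / 2)) * y / L := by ring
      _ = L0 * (δ / 2) * y / L := by rw [hL0]; field_simp
      _ ≤ L * (δ / 2) * y / L := by gcongr
      _ = δ / 2 * y := by field_simp
  have e5 : y / ((q.totient : ℝ) * L) = y / q.totient / L := by rw [div_div]
  rw [e5, abs_le]
  constructor
  · have e6 : y / q.totient / L - δ * y / L ≤ S.card := by
      rw [← sub_div, div_le_iff₀ hLpos]
      linarith [e1.1]
    linarith
  · have e6 : (S.card : ℝ) ≤ δ * y / L + y / q.totient / L := by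
      rw [← add_div, le_div_iff₀ hLpos]
      have : 0 ≤ δ / 2 * y := by positivity
      linarith [e1.2]
    linarith

end Pool.Agent.Work.MP_713a1e_co
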