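import Pool.Agent.Work.MP_713a1e_co.ChoiceH

/-! JOB E2, part 4: the four primes for fixed parameters. -/

set_option autoImplicit false

namespace Pool.Agent.Work.MP_713a1e_co

open Finset

/-- the choice of `N` -/
lemma choose_N {C Y0 T L : ℝ} {Q B R : ℕ} {x y c2 : ℝ} (h : Ctx C Y0 T L Q B R x y c2)
    (h1 : SieveOne C Y0) (h2 : SieveRefl C Y0)
    (hd1 : y / (2 * Nat.totient B * L) ≤
      (((Wi x y).filter (fun p => p.Prime ∧ p ≡ 1 [MOD B])).card : ℝ))
    (hd2 : y / (2 * Nat.totient B * L) ≤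
      (((Wi (x + 2 * y) y).filter (fun p => p.Prime ∧ p ≡ B - 1 [MOD B])).card : ℝ))
    (hE : (y + 1) / (R + 1) + 1 ≤ y * B / (24 * (Nat.totient B : ℝ) ^ 2 * L ^ 2) / 12) :
    ∃ (N : ℕ) (S : Finset ℕ), CtxN C Y0 T L Q B R x y c2 N S
        (y * B / (24 * (Nat.totient B : ℝ) ^ 2 * L ^ 2)) ∧
      y * B / (24 * (Nat.totient B : ℝ) ^ 2 * L ^ 2) ≤ (S.card : ℝ) ∧
      ∑ p ∈ S, sR Q R (N - p - p) ≤ 4 * (36 * C / Q) * S.card := by
  classical
  have hC0 : 0 < C := by linarith [h.hC]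
  have hx := h.hx
  have hy := h.ypos
  have hBpos := h.Bpos
  have hB1 := h.Bone
  have hB' : (0 : ℝ) < B := by linarith
  have hB4 : 4 ≤ B := by rw [h.hB]; have := Q.factorial_pos; omega
  have hL := h.hL
  have hφ : (0 : ℝ) < Nat.totient B := by exact_mod_cast Nat.totient_pos.2 h.Bpos
  have hQ2 := h.hQ2
  have hQR : (0 : ℝ) < (Q : ℝ) := by
    have : 0 < Q := by omega
    exact_mod_cast this
  have hcls := h.cls h1 hd2
  set A1 := (Wi x y).filter (fun p => p.Prime ∧ p ≡ 1 [MOD B]) with hA1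
  set A2 := (Wi (x + 2 * y) y).filter (fun p => p.Prime ∧ p ≡ B - 1 [MOD B]) with hA2
  set φ : ℝ := (Nat.totient B : ℝ) with hφdef
  have hm1 : ∀ p ∈ A1, x < p ∧ (p : ℝ) ≤ x + y ∧ p.Prime ∧ p ≡ 1 [MOD B] := by
    intro p hp
    rw [hA1, mem_filter, mem_Wi (by linarith) hy.le] at hp
    exact ⟨hp.1.1, hp.1.2, hp.2.1, hp.2.2⟩
  have hm2 : ∀ q ∈ A2, x + 2 * y < q ∧ (q : ℝ) ≤ x + 3 * y ∧ q.Prime ∧ q ≡ B - 1 [MOD B] := by
    intro p hp
    rw [hA2, mem_filter, mem_Wi (by linarith) hy.le] at hp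
    exact ⟨hp.1.1, by linarith [hp.1.2], hp.2.1, hp.2.2⟩
  have hq0 : 0 < y / (2 * φ * L) := by positivity
  have hne1 : A1.Nonempty := by
    rw [← card_pos]
    exact_mod_cast hq0.trans_le hd1
  have hne2 : A2.Nonempty := by
    rw [← card_pos]
    exact_mod_cast hq0.trans_le hd2
  have hlt : ∀ p ∈ A1, ∀ q ∈ A2, p < q := by
    intro p hp q hq
    have e1 := (hm1 p hp).2.1
    have e2 := (hm2 q hq).1
    have : (p : ℝ) < q := by linarith
    exact_mod_cast this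
  have hsum0 : ∀ p ∈ A1, ∀ q ∈ A2, p + q ≡ 0 [MOD B] := by
    intro p hp q hq
    have e1 : p + q ≡ 1 + (B - 1) [MOD B] := (hm1 p hp).2.2.2.add (hm2 q hq).2.2.2
    have e2 : 1 + (B - 1) = B := by omega
    rw [e2] at e1
    exact e1.trans (Nat.modEq_zero_iff_dvd.2 dvd_rfl)
  obtain ⟨δ, hδ⟩ : ∃ δ : ℝ, δ = 36 * C / Q := ⟨_, rfl⟩
  have hδ0 : 0 < δ := by rw [hδ]; positivity
  have hδ2 : 4 * δ ≤ 1 / 2 := by
    rw [hδ, ← mul_div_assoc, div_le_div_iff₀ hQR (by norm_num)]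
    have e1 : C ≤ C ^ 2 := by
      rw [sq]; exact le_mul_of_one_le_right hC0.le h.hC
    linarith [h.hQ]
  have hw : ∑ p ∈ A1, ∑ q ∈ A2, (sR Q R (p + q) + sR Q R (q - p)) ≤
      2 * δ * ((A1.card : ℝ) * A2.card) := by
    have e1 := sum_sR_le A1 A2 Q R (36 * C) (by omega) (by positivity) hcls (fun p q => p + q) (by
      intro p _ q _ q' _ l h3 h4
      have e2 : p + q ≡ p + q' [MOD l] :=
        (Nat.modEq_zero_iff_dvd.2 h3).trans (Nat.modEq_zero_iff_dvd.2 h4).symm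
      exact Nat.ModEq.add_left_cancel' _ e2)
    have e3 := sum_sR_le A1 A2 Q R (36 * C) (by omega) (by positivity) hcls (fun p q => q - p) (by
      intro p hp q hq q' hq' l h3 h4
      have e4 : p ≡ q [MOD l] := (Nat.modEq_iff_dvd' (hlt p hp q hq).le).2 h3
      have e5 : p ≡ q' [MOD l] := (Nat.modEq_iff_dvd' (hlt p hp q' hq').le).2 h4
      exact e4.symm.trans e5)
    have e6 : ∑ p ∈ A1, ∑ q ∈ A2, (sR Q R (p + q) + sR Q R (q - p)) =
        ∑ p ∈ A1, ∑ q ∈ A2, sR Q R (p + q) + ∑ p ∈ A1, ∑ q ∈ A2, sR Q R (q - p) := by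
      rw [← sum_add_distrib]
      apply sum_congr rfl
      intro p _
      rw [sum_add_distrib]
    rw [e6, hδ]
    linarith
  obtain ⟨H, hHc, hHm⟩ := card_mult B hBpos (2 * x + 2 * y) y (by linarith) hy
  have hHn : (H.card : ℝ) ≤ 3 * y / B := by
    have : (1 : ℝ) ≤ y / B := by
      rw [le_div_iff₀ hB', one_mul]
      have h3 : (1 : ℝ) ≤ R := by
        have := h.hR1
        have : 1 ≤ R := by omega
        exact_mod_cast this
      exact (le_mul_of_one_le_right hB'.le h3).trans h.BR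
    have e : 3 * y / (B : ℝ) = 2 * y / B + y / B := by ring
    linarith
  obtain ⟨N, hN, hTN, hSg⟩ := exists_N A1 A2 δ (3 * y / B) hδ0 hne1 hne2
    (fun h0 => by have := (hm2 0 h0).2.2.1; exact Nat.not_prime_zero this)
    (fun p q => sR Q R (p + q) + sR Q R (q - p))
    (fun p q => add_nonneg (sR_nonneg _ _ _) (sR_nonneg _ _ _)) hw H (by
      intro p hp q hq
      have e1 := hm1 p hp
      have e2 := hm2 q hq
      apply hHm
      · push_cast; linarith
      · push_cast; linarith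
      · exact Nat.modEq_zero_iff_dvd.1 (hsum0 p hp q hq)) hHn
  set S := A1.filter (fun p => N - p ∈ A2) with hS
  set N0 : ℝ := y * B / (24 * φ ^ 2 * L ^ 2) with hN0
  have hN0pos : 0 < N0 := by positivity
  have hScard : N0 ≤ (S.card : ℝ) := by
    refine le_trans ?_ hTN
    rw [le_div_iff₀ (by positivity)]
    calc N0 * (2 * (3 * y / B)) = (y / (2 * φ * L)) * (y / (2 * φ * L)) := by
          rw [hN0]
          field_simp
          ring
      _ ≤ (A1.card : ℝ) * A2.card := by gcongr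
  have hmem : ∀ p ∈ S, p ∈ A1 ∧ N - p ∈ A2 ∧ p ≤ N := by
    intro p hp
    rw [hS, mem_filter] at hp
    refine ⟨hp.1, hp.2, ?_⟩
    by_contra hc
    have : N - p = 0 := by omega
    rw [this] at hp
    exact Nat.not_prime_zero (hm2 0 hp.2).2.2.1
  obtain ⟨p0, hp0⟩ : S.Nonempty := by
    rw [← card_pos]
    exact_mod_cast hN0pos.trans_le hScard
  have hp0' := hmem p0 hp0
  have hb1 := hm1 p0 hp0'.1
  have hb2 := hm2 _ hp0'.2.1
  have hNsum : (N : ℝ) = p0 + ((N - p0 : ℕ) : ℝ) := by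
    rw [Nat.cast_sub hp0'.2.2]; ring
  have hSg1 : ∑ p ∈ S, (sR Q R (p + (N - p)) + sR Q R (N - p - p)) =
      S.card * sR Q R N + ∑ p ∈ S, sR Q R (N - p - p) := by
    rw [sum_add_distrib]
    congr 1
    rw [← nsmul_eq_mul, ← sum_const]
    apply sum_congr rfl
    intro p hp
    have := (hmem p hp).2.2
    congr 1
    omega
  have hSgp : S.card * sR Q R N + ∑ p ∈ S, sR Q R (N - p - p) ≤ 4 * δ * S.card := by
    rw [← hSg1]; exact hSg
  have hSg2 : 0 ≤ ∑ p ∈ S, sR Q R (N - p - p) := sum_nonneg fun p _ => sR_nonneg _ _ _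
  have hSpos : (0 : ℝ) < S.card := hN0pos.trans_le hScard
  have hsN : sR Q R N ≤ 4 * δ := by
    have e1 : S.card * sR Q R N ≤ S.card * (4 * δ) := by linarith
    exact le_of_mul_le_mul_left e1 hSpos
  have hctx : CtxN C Y0 T L Q B R x y c2 N S N0 := by
    refine CtxN.mk h h2 rfl (by linarith) (by linarith) ?_ ?_ (by linarith) hE
    · have e1 := hsum0 p0 hp0'.1 _ hp0'.2.1
      have e2 : p0 + (N - p0) = N := by omega
      rw [e2] at e1
      exact Nat.modEq_zero_iff_dvd.1 e1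
    · intro p hp
      have e0 := hmem p hp
      have e1 := hm1 p e0.1
      have e2 := hm2 _ e0.2.1
      exact ⟨e1.1, e1.2.1, e1.2.2.1, e2.2.2.1, e1.2.2.2, e0.2.2, e2.1, e2.2.1⟩
  refine ⟨N, S, hctx, hScard, ?_⟩
  have : 0 ≤ S.card * sR Q R N := mul_nonneg hSpos.le (sR_nonneg _ _ _)
  rw [← hδ]
  linarith

open Classical in
theorem choice_fin2 {C Y0 T L : ℝ} {Q B R : ℕ} {x y c2 : ℝ} {N : ℕ} {S : Finset ℕ} {N0 : ℝ}
    (h : CtxN C Y0 T L Q B R x y c2 N S N0) (hScard : N0 ≤ (S.card : ℝ))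
    (hsum : ∑ p ∈ S, sR Q R (N - p - p) ≤ 4 * (36 * C / Q) * S.card) (hN16 : 16 ≤ N0) :
    ∃ p a d : ℕ, p.Prime ∧ (p + 2 * a).Prime ∧ (p - 2 * d).Prime ∧ (p + 2 * a - 2 * d).Prime ∧
      Nat.Coprime a d ∧ d < a ∧ x < p ∧ (p : ℝ) ≤ x + y ∧ c2 * y ≤ d ∧ (a : ℝ) ≤ 3 / 2 * y ∧
      N0 / 8 ≤ (((range d).filter (fun g : ℕ => c2 * d ≤ g ∧ (g : ℝ) ≤ (1 - c2) * d ∧
        (p - 2 * g).Prime ∧ (p + 2 * a - 2 * d + 2 * g).Prime)).card : ℝ) := by
  have hC0 : 0 < C := by linarith [h.hC]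
  have hx := h.hx
  have hy := h.ypos
  have hQ2 := h.hQ2
  have hQR : (0 : ℝ) < (Q : ℝ) := by
    have : 0 < Q := by omega
    exact_mod_cast this
  obtain ⟨δ, hδ⟩ : ∃ δ : ℝ, δ = 36 * C / Q := ⟨_, rfl⟩
  have hδ0 : 0 < δ := by rw [hδ]; positivity
  rw [← hδ] at hsum
  obtain ⟨Lo, Mi, Hi, hLo, hMi, hHi, hLM, hMH, cLo, cHi, cMi⟩ := thirds S
  have hSpos : (0 : ℝ) < S.card := by linarith
  have cLo' : (S.card : ℝ) ≤ 3 * Lo.card := by exact_mod_cast cLo
  have cHi' : (S.card : ℝ) ≤ 3 * Hi.card := by exact_mod_cast cHi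
  have cMi' : (S.card : ℝ) ≤ 3 * Mi.card + 4 := by exact_mod_cast cMi
  -- the top prime
  obtain ⟨q1, hq1, hsq1⟩ : ∃ q1 ∈ Hi, sR Q R (N - q1 - q1) ≤ 12 * δ := by
    by_contra hcon
    push Not at hcon
    have hne : Hi.Nonempty := by
      rw [← card_pos]
      have : (0 : ℝ) < Hi.card := by linarith
      exact_mod_cast this
    have e1 : ∑ p ∈ Hi, 12 * δ < ∑ p ∈ Hi, sR Q R (N - p - p) := sum_lt_sum_of_nonempty hne hcon
    rw [sum_const, nsmul_eq_mul] at e1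
    have e2 : ∑ p ∈ Hi, sR Q R (N - p - p) ≤ ∑ p ∈ S, sR Q R (N - p - p) :=
      sum_le_sum_of_subset_of_nonneg hHi (fun p _ _ => sR_nonneg _ _ _)
    have e3 : 4 * δ * S.card ≤ 4 * δ * (3 * Hi.card) := by gcongr
    linarith
  have hq1S := hHi hq1
  have f1 := h.hS q1 hq1S
  have hq1N : 2 * q1 < N := by
    have e1 : (q1 : ℝ) < ((N - q1 : ℕ) : ℝ) := by linarith [f1.2.1, f1.2.2.2.2.2.2.1]
    have e2 : q1 < N - q1 := by exact_mod_cast e1
    omega
  have hm : 0 < N - q1 - q1 := by omega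
  have hmR : N - q1 - q1 < (R + 1) ^ 2 := by
    have e1 : ((N - q1 - q1 : ℕ) : ℝ) = ((N - q1 : ℕ) : ℝ) - q1 := by
      rw [Nat.cast_sub (by omega)]
    have e2 : ((N - q1 - q1 : ℕ) : ℝ) < (((R + 1) ^ 2 : ℕ) : ℝ) := by
      rw [e1]
      push_cast
      linarith [h.hyR, f1.1, f1.2.2.2.2.2.2.2]
    exact_mod_cast e2
  have hbad := h.bad q1 hq1S (N - q1 - q1) hm hmR (by rw [← hδ]; exact hsq1)
  -- the bottom prime
  obtain ⟨q2, hq2, hgood⟩ : ∃ q2 ∈ Lo, ¬ ∃ l, l.Prime ∧ Q < l ∧ l ∣ N - q1 - q1 ∧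
      q2 ≡ q1 [MOD l] := by
    by_contra hcon
    push Not at hcon
    have hsub : Lo ⊆ S.filter (fun p => ∃ l, l.Prime ∧ Q < l ∧ l ∣ N - q1 - q1 ∧
        p ≡ q1 [MOD l]) := by
      intro p hp
      rw [mem_filter]
      exact ⟨hLo hp, hcon p hp⟩
    have e1 : (Lo.card : ℝ) ≤ N0 / 6 := (Nat.cast_le.2 (card_le_card hsub)).trans hbad
    linarith
  have hq2S := hLo hq2
  have f2 := h.hS q2 hq2S
  -- the good middle primes
  obtain ⟨G, hG⟩ : ∃ G : Finset ℕ, G = Mi.filter (fun p : ℕ => c2 * y ≤ |(p : ℝ) - q1| ∧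
      c2 * y ≤ |(p : ℝ) - q2|) := ⟨_, rfl⟩
  have hGcard : N0 / 8 ≤ (G.card : ℝ) := by
    have hsub : Mi ⊆ G ∪ (S.filter (fun p : ℕ => |(p : ℝ) - q1| < c2 * y) ∪
        S.filter (fun p : ℕ => |(p : ℝ) - q2| < c2 * y)) := by
      intro p hp
      rw [mem_union, mem_union, hG, mem_filter, mem_filter, mem_filter]
      by_cases g1 : |(p : ℝ) - q1| < c2 * y
      · right; left; exact ⟨hMi hp, g1⟩
      by_cases g2 : |(p : ℝ) - q2| < c2 * y
      · right; right; exact ⟨hMi hp, g2⟩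
      left
      exact ⟨hp, not_lt.1 g1, not_lt.1 g2⟩
    have e1 := (card_le_card hsub).trans (card_union_le _ _)
    have e2 := card_union_le (S.filter (fun p : ℕ => |(p : ℝ) - q1| < c2 * y))
      (S.filter (fun p : ℕ => |(p : ℝ) - q2| < c2 * y))
    have e3 : (Mi.card : ℝ) ≤ G.card + (((S.filter (fun p : ℕ => |(p : ℝ) - q1| < c2 * y)).card : ℝ) +
        ((S.filter (fun p : ℕ => |(p : ℝ) - q2| < c2 * y)).card : ℝ)) := by
      exact_mod_cast e1.trans (Nat.add_le_add_left e2 _)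
    have e4 := h.near q1 hq1S
    have e5 := h.near q2 hq2S
    linarith
  have hGpos : 0 < G.card := by
    have : (0 : ℝ) < G.card := by linarith
    exact_mod_cast this
  have hGm : ∀ q ∈ G, q ∈ S ∧ q2 < q ∧ q < q1 ∧ c2 * y ≤ (q1 : ℝ) - q ∧ c2 * y ≤ (q : ℝ) - q2 := by
    intro q hq
    rw [hG, mem_filter] at hq
    have e1 := hLM q2 hq2 q hq.1
    have e2 := hMH q hq.1 q1 hq1
    have e1' : (q2 : ℝ) < q := by exact_mod_cast e1
    have e2' : (q : ℝ) < q1 := by exact_mod_cast e2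
    refine ⟨hMi hq.1, e1, e2, ?_, ?_⟩
    · have := hq.2.1
      rw [abs_of_neg (by linarith)] at this
      linarith
    · have := hq.2.2
      rw [abs_of_pos (by linarith)] at this
      exact this
  obtain ⟨q0, hq0⟩ := card_pos.1 hGpos
  have f0 := hGm q0 hq0
  have hq21 : q2 < q1 := by omega
  have hq21' : 2 * (c2 * y) ≤ (q1 : ℝ) - q2 := by linarith [f0.2.2.2.1, f0.2.2.2.2]
  have hBeven := h.Beven
  have h2B : 2 ∣ B := hBeven.two_dvd
  -- divisibility
  have hpar : ∀ q ∈ S, q < q1 → ∃ g, q1 - q = 2 * g := by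
    intro q hq hlt
    have e1 := h.hS q hq
    have e2 : B ∣ q1 - q := (Nat.modEq_iff_dvd' hlt.le).1 (e1.2.2.2.2.1.trans f1.2.2.2.2.1.symm)
    exact h2B.trans e2
  obtain ⟨d, hd⟩ := hpar q2 hq2S hq21
  obtain ⟨k, hk⟩ := h.hBN
  have hq2N : q1 + q2 < N := by omega
  have hB2 : B = 2 * (2 * Q.factorial) := by rw [h.hB]; ring
  have hBdiv : B ∣ (N - q1 - q2) + 2 := by
    have e3 : (N - q1 - q2) + 2 + (q1 + q2) = N + 2 := by omega
    have e4 : (N - q1 - q2) + 2 + (q1 + q2) ≡ 0 + (q1 + q2) [MOD B] := by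
      rw [e3]
      have e5 : N + 2 ≡ 0 + 2 [MOD B] :=
        Nat.ModEq.add_right 2 (Nat.modEq_zero_iff_dvd.2 h.hBN)
      have e6 : 0 + (q1 + q2) ≡ 0 + (1 + 1) [MOD B] :=
        Nat.ModEq.add_left _ (f1.2.2.2.2.1.add f2.2.2.2.2.1)
      exact e5.trans e6.symm
    have e7 := Nat.ModEq.add_right_cancel' _ e4
    exact Nat.modEq_zero_iff_dvd.1 e7
  obtain ⟨j, hj⟩ := hBdiv
  obtain ⟨a, ha⟩ : ∃ a, N - q1 - q2 = 2 * a := by
    refine ⟨2 * Q.factorial * j - 1, ?_⟩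
    have e1 : (N - q1 - q2) + 2 = 2 * (2 * Q.factorial * j) := by rw [hj, hB2]; ring
    omega
  have ha1 : a + 1 = Q.factorial * (2 * j) := by
    have e1 : (N - q1 - q2) + 2 = 2 * (Q.factorial * (2 * j)) := by rw [hj, hB2]; ring
    omega
  have hdR : (q1 : ℝ) - q2 = 2 * d := by
    have : ((q1 - q2 : ℕ) : ℝ) = ((2 * d : ℕ) : ℝ) := by rw [hd]
    rw [Nat.cast_sub hq21.le] at this
    push_cast at this
    exact this
  have haR : ((N - q1 : ℕ) : ℝ) - q2 = 2 * a := by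
    have : ((N - q1 - q2 : ℕ) : ℝ) = ((2 * a : ℕ) : ℝ) := by rw [ha]
    rw [Nat.cast_sub (by omega)] at this
    push_cast at this
    exact this
  have hc2le := h.c2le
  have hc2pos := h.c2pos
  refine ⟨q1, a, d, f1.2.2.1, ?_, ?_, ?_, ?_, ?_, f1.1, f1.2.1, ?_, ?_, ?_⟩
  · have : q1 + 2 * a = N - q2 := by omega
    rw [this]; exact f2.2.2.2.1
  · have : q1 - 2 * d = q2 := by omega
    rw [this]; exact f2.2.2.1
  · have : q1 + 2 * a - 2 * d = N - q1 := by omega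
    rw [this]; exact f1.2.2.2.1
  · apply Nat.coprime_of_dvd
    intro l hl hla hld
    rcases le_or_gt l Q with hlQ | hlQ
    · have e2 : l ∣ a + 1 := by
        rw [ha1]; exact Dvd.dvd.mul_right ((hl.dvd_factorial).2 hlQ) _
      have e3 : l ∣ 1 := (Nat.dvd_add_right hla).1 e2
      exact hl.one_lt.ne' (Nat.dvd_one.1 e3)
    · apply hgood
      refine ⟨l, hl, hlQ, ?_, ?_⟩
      · have e1 : l ∣ N - q1 - q2 := by rw [ha]; exact Dvd.dvd.mul_left hla 2
        have e2 : l ∣ q1 - q2 := by rw [hd]; exact Dvd.dvd.mul_left hld 2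
        have e3 : (N - q1 - q1) + (q1 - q2) = N - q1 - q2 := by omega
        rw [← e3] at e1
        exact (Nat.dvd_add_left e2).1 e1
      · have e2 : l ∣ q1 - q2 := by rw [hd]; exact Dvd.dvd.mul_left hld 2
        exact (Nat.modEq_iff_dvd' hq21.le).2 e2
  · have : (d : ℝ) < a := by linarith [f1.2.1, f2.1, f2.2.1, f1.2.2.2.2.2.2.1]
    exact_mod_cast this
  · linarith
  · linarith [f1.2.2.2.2.2.2.2, f2.1]
  · refine hGcard.trans ?_
    have : G.card ≤ ((range d).filter (fun g : ℕ => c2 * d ≤ g ∧ (g : ℝ) ≤ (1 - c2) * d ∧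
        (q1 - 2 * g).Prime ∧ (q1 + 2 * a - 2 * d + 2 * g).Prime)).card := by
      apply card_le_card_of_injOn (fun q => (q1 - q) / 2)
      · intro q hq
        have g0 := hGm q hq
        obtain ⟨g, hg⟩ := hpar q g0.1 g0.2.2.1
        have hgg : (q1 - q) / 2 = g := by omega
        have hgR : (q1 : ℝ) - q = 2 * g := by
          have : ((q1 - q : ℕ) : ℝ) = ((2 * g : ℕ) : ℝ) := by rw [hg]
          rw [Nat.cast_sub g0.2.2.1.le] at this
          push_cast at this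
          exact this
        have g3 := h.hS q g0.1
        simp only [hgg, coe_filter, mem_range, Set.mem_ofPred_eq]
        have hdy : (d : ℝ) ≤ y / 2 := by linarith [f1.2.1, f2.1]
        have hcd : c2 * d ≤ c2 * y / 2 := by
          have : c2 * d ≤ c2 * (y / 2) := by gcongr
          linarith
        refine ⟨by omega, ?_, ?_, ?_, ?_⟩
        · linarith [g0.2.2.2.1]
        · have : (1 - c2) * (d : ℝ) = d - c2 * d := by ring
          rw [this]
          linarith [g0.2.2.2.2]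
        · have : q1 - 2 * g = q := by omega
          rw [this]; exact g3.2.2.1
        · have : q1 + 2 * a - 2 * d + 2 * g = N - q := by omega
          rw [this]; exact g3.2.2.2.1
      · intro q hq q' hq' heq
        have g0 := hGm q hq
        have g0' := hGm q' hq'
        obtain ⟨g, hg⟩ := hpar q g0.1 g0.2.2.1
        obtain ⟨g', hg'⟩ := hpar q' g0'.1 g0'.2.2.1
        dsimp only at heq
        omega
    exact_mod_cast this

end Pool.Agent.Work.MP_713a1e_co
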