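import Mathlib

/-! Exponential sums over finite sets of integers. -/

namespace Pool.Agent.Work.MP_713a1e_co

open Finset Complex
open scoped Real

noncomputable section

/-- the additive character -/
def ee (x : ℝ) : ℂ := Complex.exp (((2 * π * x : ℝ) : ℂ) * I)

lemma ee_zero : ee 0 = 1 := by simp [ee]

lemma ee_add (x y : ℝ) : ee (x + y) = ee x * ee y := by
  unfold ee
  rw [← Complex.exp_add]
  congr 1
  push_cast
  ring

lemma norm_ee (x : ℝ) : ‖ee x‖ = 1 := Complex.norm_exp_ofReal_mul_I _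

lemma ee_ne_zero (x : ℝ) : ee x ≠ 0 := Complex.exp_ne_zero _

lemma ee_int (m : ℤ) : ee m = 1 := by
  unfold ee
  rw [Complex.exp_eq_one_iff]
  exact ⟨m, by push_cast; ring⟩

lemma ee_add_int (x : ℝ) (m : ℤ) : ee (x + m) = ee x := by
  rw [ee_add, ee_int, mul_one]

lemma ee_conj (x : ℝ) : (starRingEnd ℂ) (ee x) = ee (-x) := by
  unfold ee
  rw [← Complex.exp_conj]
  congr 1
  rw [map_mul, Complex.conj_ofReal, conj_I]
  push_cast
  ring

lemma ee_mul_neg (x : ℝ) : ee x * ee (-x) = 1 := by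
  rw [← ee_add, add_neg_cancel, ee_zero]

lemma ee_re (x : ℝ) : (ee x).re = Real.cos (2 * π * x) := Complex.exp_ofReal_mul_I_re _

lemma ee_im (x : ℝ) : (ee x).im = Real.sin (2 * π * x) := Complex.exp_ofReal_mul_I_im _

lemma norm_ee_sub_one (x : ℝ) : ‖ee x - 1‖ ≤ 2 * π * |x| := by
  unfold ee
  have h := Real.norm_exp_I_mul_ofReal_sub_one_le (x := 2 * π * x)
  rw [mul_comm I] at h
  refine h.trans ?_
  rw [Real.norm_eq_abs, abs_mul, abs_of_pos (by positivity : (0 : ℝ) < 2 * π)]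

lemma ee_nat_mul (x : ℝ) (t : ℕ) : ee (t * x) = ee x ^ t := by
  unfold ee
  rw [← Complex.exp_nat_mul]
  congr 1
  push_cast
  ring

lemma ee_eq_one_iff (x : ℝ) : ee x = 1 ↔ ∃ m : ℤ, x = m := by
  constructor
  · intro h
    unfold ee at h
    rw [Complex.exp_eq_one_iff] at h
    obtain ⟨m, hm⟩ := h
    refine ⟨m, ?_⟩
    have h1 : ((2 * π * x : ℝ) : ℂ) * I = (((m : ℝ) * (2 * π) : ℝ) : ℂ) * I := by
      rw [hm]; push_cast; ring
    have h2 := mul_right_cancel₀ I_ne_zero h1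
    have h3 : 2 * π * x = (m : ℝ) * (2 * π) := by exact_mod_cast h2
    have : (2 * π : ℝ) ≠ 0 := by positivity
    field_simp at h3
    linarith
  · rintro ⟨m, rfl⟩
    exact ee_int m

/-- orthogonality -/
lemma sum_ee (M : ℕ) (hM : 0 < M) (m : ℤ) :
    ∑ t ∈ range M, ee (t * ((m : ℝ) / M)) = if (M : ℤ) ∣ m then (M : ℂ) else 0 := by
  have hM' : (M : ℝ) ≠ 0 := by positivity
  split_ifs with h
  · obtain ⟨k, rfl⟩ := h
    have : ∀ t ∈ range M, ee ((t : ℝ) * (((((M : ℤ) * k : ℤ)) : ℝ) / M)) = 1 := by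
      intro t _
      have : (t : ℝ) * (((((M : ℤ) * k : ℤ)) : ℝ) / M) = (((t : ℤ) * k : ℤ) : ℝ) := by
        push_cast
        field_simp
      rw [this, ee_int]
    rw [sum_congr rfl this]
    simp
  · have h1 : ee ((m : ℝ) / M) ≠ 1 := by
      intro h1
      rw [ee_eq_one_iff] at h1
      obtain ⟨j, hj⟩ := h1
      rw [div_eq_iff hM'] at hj
      exact h ⟨j, by exact_mod_cast (by rw [hj]; ring : (m : ℝ) = M * j)⟩
    have h2 : ∀ t ∈ range M, ee ((t : ℝ) * ((m : ℝ) / M)) = ee ((m : ℝ) / M) ^ t :=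
      fun t _ => ee_nat_mul _ t
    rw [sum_congr rfl h2, geom_sum_eq h1, ← ee_nat_mul]
    have h3 : (M : ℝ) * ((m : ℝ) / M) = m := by field_simp
    rw [h3, ee_int, sub_self, zero_div]

/-- exponential sum of a finite set -/
def FF (A : Finset ℕ) (θ : ℝ) : ℂ := ∑ x ∈ A, ee (θ * x)

lemma norm_FF_le (A : Finset ℕ) (θ : ℝ) : ‖FF A θ‖ ≤ A.card := by
  unfold FF
  refine (norm_sum_le _ _).trans ?_
  simp [norm_ee]

lemma FF_add_int (A : Finset ℕ) (θ : ℝ) (m : ℤ) : FF A (θ + m) = FF A θ := by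
  unfold FF
  refine sum_congr rfl fun x _ => ?_
  rw [add_mul]
  have : (m : ℝ) * (x : ℝ) = ((m * (x : ℤ) : ℤ) : ℝ) := by push_cast; ring
  rw [this, ee_add_int]

lemma FF_zero (A : Finset ℕ) : FF A 0 = A.card := by
  unfold FF
  simp [ee_zero]

/-- number of representations as a difference -/
def rho (A : Finset ℕ) (j : ℤ) : ℕ := ((A ×ˢ A).filter (fun p => (p.1 : ℤ) - p.2 = j)).card

/-- additive energy -/
def En (A : Finset ℕ) (X : ℕ) : ℝ := ∑ j ∈ Ioo (-(X : ℤ)) X, (rho A j : ℝ) ^ 2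

lemma normSq_FF (A : Finset ℕ) (X : ℕ) (hA : A ⊆ range X) (θ : ℝ) :
    FF A θ * (starRingEnd ℂ) (FF A θ) = ∑ j ∈ Ioo (-(X : ℤ)) X, (rho A j : ℂ) * ee (θ * j) := by
  have h1 : FF A θ * (starRingEnd ℂ) (FF A θ) =
      ∑ p ∈ A ×ˢ A, ee (θ * (((p.1 : ℤ) - p.2 : ℤ) : ℝ)) := by
    unfold FF
    rw [map_sum, sum_mul_sum, sum_product]
    refine sum_congr rfl fun x _ => sum_congr rfl fun y _ => ?_
    rw [ee_conj, ← ee_add]
    congr 1
    push_cast
    ring
  rw [h1]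
  have hmap : ∀ p ∈ A ×ˢ A, (p.1 : ℤ) - p.2 ∈ Ioo (-(X : ℤ)) X := by
    intro p hp
    rw [mem_product] at hp
    have h2 := mem_range.1 (hA hp.1)
    have h3 := mem_range.1 (hA hp.2)
    rw [mem_Ioo]
    constructor <;> omega
  rw [← sum_fiberwise_of_maps_to hmap]
  refine sum_congr rfl fun j _ => ?_
  rw [sum_congr rfl (g := fun _ => ee (θ * j)) ?_]
  · rw [sum_const, nsmul_eq_mul]
    rfl
  · intro p hp
    rw [(mem_filter.1 hp).2]

/-- Parseval on `ℤ/M` -/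
lemma parseval (M : ℕ) (hM : 0 < M) (J : Finset ℤ) (hJ : ∀ i ∈ J, ∀ j ∈ J, (M : ℤ) ∣ i - j → i = j)
    (c : ℤ → ℂ) :
    ∑ t ∈ range M, ‖∑ j ∈ J, c j * ee ((t : ℝ) / M * j)‖ ^ 2 = M * ∑ j ∈ J, ‖c j‖ ^ 2 := by
  have hM' : (M : ℝ) ≠ 0 := by positivity
  have key : (∑ t ∈ range M, (‖∑ j ∈ J, c j * ee ((t : ℝ) / M * j)‖ ^ 2 : ℂ)) =
      M * ∑ j ∈ J, (‖c j‖ ^ 2 : ℂ) := by
    have h1 : ∀ t ∈ range M, ((‖∑ j ∈ J, c j * ee ((t : ℝ) / M * j)‖ ^ 2 : ℂ)) =
        ∑ i ∈ J, ∑ j ∈ J, c i * (starRingEnd ℂ) (c j) * ee (t * (((i - j : ℤ) : ℝ) / M)) := by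
      intro t _
      rw [← Complex.mul_conj', map_sum, sum_mul_sum]
      refine sum_congr rfl fun i _ => sum_congr rfl fun j _ => ?_
      rw [map_mul, ee_conj]
      have : ee ((t : ℝ) * (((i - j : ℤ) : ℝ) / M)) = ee ((t : ℝ) / M * i) * ee (-((t : ℝ) / M * j)) := by
        rw [← ee_add]
        congr 1
        push_cast
        ring
      rw [this]
      ring
    rw [sum_congr rfl h1, sum_comm, mul_sum]
    refine sum_congr rfl fun i hi => ?_
    rw [sum_comm]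
    have h2 : ∀ j ∈ J, ∑ t ∈ range M, c i * (starRingEnd ℂ) (c j) *
        ee ((t : ℝ) * (((i - j : ℤ) : ℝ) / M)) = if j = i then M * (‖c i‖ ^ 2 : ℂ) else 0 := by
      intro j hj
      rw [← mul_sum, sum_ee M hM]
      split_ifs with h3 h4 h4
      · subst h4
        rw [Complex.mul_conj']; ring
      · exact absurd (hJ i hi j hj h3).symm h4
      · subst h4
        simp at h3
      · rw [mul_zero]
    rw [sum_congr rfl h2, sum_ite_eq' J i, if_pos hi]
  have key2 := congrArg Complex.re key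
  rw [Complex.re_sum] at key2
  have e1 : ∀ t ∈ range M, ((‖∑ j ∈ J, c j * ee ((t : ℝ) / M * j)‖ ^ 2 : ℂ)).re =
      ‖∑ j ∈ J, c j * ee ((t : ℝ) / M * j)‖ ^ 2 := by
    intro t _
    rw [← Complex.ofReal_pow, Complex.ofReal_re]
  rw [sum_congr rfl e1] at key2
  rw [key2]
  have e2 : (M : ℂ) * ∑ j ∈ J, (‖c j‖ ^ 2 : ℂ) = (((M : ℝ) * ∑ j ∈ J, ‖c j‖ ^ 2 : ℝ) : ℂ) := by
    push_cast
    ring
  rw [e2, Complex.ofReal_re]

lemma fourth_moment (A : Finset ℕ) (X M : ℕ) (hA : A ⊆ range X) (hM : 0 < M) (hXM : 2 * X ≤ M) :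
    ∑ t ∈ range M, ‖FF A ((t : ℝ) / M)‖ ^ 4 = M * En A X := by
  have h1 : ∀ t ∈ range M, ‖FF A ((t : ℝ) / M)‖ ^ 4 =
      ‖∑ j ∈ Ioo (-(X : ℤ)) X, (rho A j : ℂ) * ee ((t : ℝ) / M * j)‖ ^ 2 := by
    intro t _
    rw [← normSq_FF A X hA, norm_mul, RCLike.norm_conj]
    ring
  rw [sum_congr rfl h1, parseval M hM _ ?_ (fun j => (rho A j : ℂ))]
  · unfold En
    congr 1
    refine sum_congr rfl fun j _ => ?_
    rw [Complex.norm_natCast]
  · intro i hi j hj hij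
    rw [mem_Ioo] at hi hj
    obtain ⟨q, hq⟩ := hij
    have hq0 : q = 0 := by
      by_contra hne
      have h2 : (2 * X : ℤ) ≤ M := by exact_mod_cast hXM
      rcases lt_or_gt_of_ne hne with h | h
      · have : (M : ℤ) * q ≤ (M : ℤ) * (-1) := by
          apply mul_le_mul_of_nonneg_left (by omega) (by omega)
        omega
      · have : (M : ℤ) * 1 ≤ (M : ℤ) * q := by
          apply mul_le_mul_of_nonneg_left (by omega) (by omega)
        omega
    rw [hq0, mul_zero] at hq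
    omega

/-- a nonzero exponential integral gives a representation -/
lemma exists_rep {k : ℕ} (A : Fin k → Finset ℕ) (X M N : ℕ) (hA : ∀ i, A i ⊆ range X)
    (hM : k * X < M) (hN : N < M)
    (hne : ∑ t ∈ range M, (∏ i, FF (A i) ((t : ℝ) / M)) * ee (-((t : ℝ) / M * N)) ≠ 0) :
    ∃ f : Fin k → ℕ, (∀ i, f i ∈ A i) ∧ ∑ i, f i = N := by
  by_contra hcon
  push Not at hcon
  apply hne
  have hM0 : 0 < M := by omega
  have h1 : ∀ t ∈ range M, (∏ i, FF (A i) ((t : ℝ) / M)) * ee (-((t : ℝ) / M * N)) =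
      ∑ f ∈ Fintype.piFinset A, ee (t * ((((∑ i, f i : ℕ) : ℤ) - (N : ℤ) : ℤ) / M)) := by
    intro t _
    unfold FF
    rw [prod_univ_sum, sum_mul]
    refine sum_congr rfl fun f _ => ?_
    have : ∀ s : Finset (Fin k), ∏ i ∈ s, ee ((t : ℝ) / M * (f i : ℝ)) =
        ee (∑ i ∈ s, ((t : ℝ) / M * (f i : ℝ))) := by
      intro s
      induction s using Finset.induction_on with
      | empty => simp [ee_zero]
      | insert a s ha ih => rw [prod_insert ha, sum_insert ha, ee_add, ih]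
    rw [this univ, ← ee_add]
    congr 1
    rw [← mul_sum]
    push_cast
    ring
  rw [sum_congr rfl h1, sum_comm]
  refine sum_eq_zero fun f hf => ?_
  rw [Fintype.mem_piFinset] at hf
  rw [sum_ee M hM0, if_neg]
  intro hdiv
  apply hcon f hf
  have hs : ∑ i, f i ≤ k * X := by
    calc ∑ i, f i ≤ ∑ _i : Fin k, X := sum_le_sum fun i _ => by
          have := mem_range.1 (hA i (hf i)); omega
      _ = k * X := by simp
  obtain ⟨q, hq⟩ := hdiv
  have hq0 : q = 0 := by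
    by_contra hne
    rcases lt_or_gt_of_ne hne with h | h
    · have : (M : ℤ) * q ≤ (M : ℤ) * (-1) := by
        apply mul_le_mul_of_nonneg_left (by omega) (by omega)
      omega
    · have : (M : ℤ) * 1 ≤ (M : ℤ) * q := by
        apply mul_le_mul_of_nonneg_left (by omega) (by omega)
      have h5 : ((∑ i, f i : ℕ) : ℤ) ≤ ((k * X : ℕ) : ℤ) := by exact_mod_cast hs
      have h6 : ((k * X : ℕ) : ℤ) < M := by exact_mod_cast hM
      omega
  rw [hq0, mul_zero] at hq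
  omega

end

end Pool.Agent.Work.MP_713a1e_co
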