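import Mathlib
import Pool.Agent.Work.MP_713a1e_co.Fourier

/-! The additive energy of primes in progressions. -/

namespace Pool.Agent.Work.MP_713a1e_co

open Finset Complex
open scoped Real

noncomputable section

/-- the sum of the reciprocals of the divisors -/
def sig (j : ℕ) : ℝ := ∑ d ∈ j.divisors, (1 : ℝ) / d

lemma sum_sig_sq : ∃ K : ℝ, 0 < K ∧ ∀ X : ℕ, ∑ j ∈ Icc 1 X, sig j ^ 2 ≤ K * X := by
  have hs : Summable (fun n : ℕ => 1 / (n : ℝ) ^ (3 / 2 : ℝ)) :=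
    Real.summable_one_div_nat_rpow.2 (by norm_num)
  set T := ∑' n : ℕ, 1 / (n : ℝ) ^ (3 / 2 : ℝ) with hT
  have hTle : ∀ s : Finset ℕ, ∑ n ∈ s, 1 / (n : ℝ) ^ (3 / 2 : ℝ) ≤ T := fun s =>
    hs.sum_le_tsum s fun n _ => by positivity
  have hT0 : 0 < T := by
    have := hTle {1}
    simp at this
    linarith
  refine ⟨T * T, by positivity, fun X => ?_⟩
  have h1 : ∀ j ∈ Icc 1 X, sig j ^ 2 ≤ T * ∑ d ∈ j.divisors, 1 / (d : ℝ) ^ (1 / 2 : ℝ) := by
    intro j hj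
    unfold sig
    have e : ∀ d ∈ j.divisors, (1 : ℝ) / d =
        (1 / (d : ℝ) ^ (3 / 4 : ℝ)) * (1 / (d : ℝ) ^ (1 / 4 : ℝ)) := by
      intro d hd
      have hd0 : (0 : ℝ) < d := by exact_mod_cast Nat.pos_of_mem_divisors hd
      rw [div_mul_div_comm, one_mul, ← Real.rpow_add hd0]
      norm_num
    rw [sum_congr rfl e]
    refine (sum_mul_sq_le_sq_mul_sq _ _ _).trans ?_
    have e1 : ∀ d ∈ j.divisors, (1 / (d : ℝ) ^ (3 / 4 : ℝ)) ^ 2 = 1 / (d : ℝ) ^ (3 / 2 : ℝ) := by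
      intro d hd
      have hd0 : (0 : ℝ) ≤ d := Nat.cast_nonneg d
      rw [div_pow, one_pow, ← Real.rpow_natCast ((d : ℝ) ^ (3 / 4 : ℝ)), ← Real.rpow_mul hd0]
      norm_num
    have e2 : ∀ d ∈ j.divisors, (1 / (d : ℝ) ^ (1 / 4 : ℝ)) ^ 2 = 1 / (d : ℝ) ^ (1 / 2 : ℝ) := by
      intro d hd
      have hd0 : (0 : ℝ) ≤ d := Nat.cast_nonneg d
      rw [div_pow, one_pow, ← Real.rpow_natCast ((d : ℝ) ^ (1 / 4 : ℝ)), ← Real.rpow_mul hd0]
      norm_num
    rw [sum_congr rfl e1, sum_congr rfl e2]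
    have h3 : 0 ≤ ∑ d ∈ j.divisors, 1 / (d : ℝ) ^ (1 / 2 : ℝ) := sum_nonneg fun d _ => by positivity
    exact mul_le_mul_of_nonneg_right (hTle _) h3
  refine (sum_le_sum h1).trans ?_
  rw [← mul_sum, mul_assoc]
  refine mul_le_mul_of_nonneg_left ?_ hT0.le
  -- swap
  have h2 : ∑ j ∈ Icc 1 X, ∑ d ∈ j.divisors, 1 / (d : ℝ) ^ (1 / 2 : ℝ) =
      ∑ d ∈ Icc 1 X, ∑ j ∈ (Icc 1 X).filter (fun j => d ∣ j), 1 / (d : ℝ) ^ (1 / 2 : ℝ) := by
    rw [sum_sigma', sum_sigma']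
    refine sum_bij' (fun p _ => ⟨p.2, p.1⟩) (fun p _ => ⟨p.2, p.1⟩) ?_ ?_ ?_ ?_ ?_
    · rintro ⟨j, d⟩ h
      simp only [mem_sigma, mem_Icc, Nat.mem_divisors, mem_filter] at h ⊢
      obtain ⟨⟨h1, h2⟩, h3, h4⟩ := h
      exact ⟨⟨Nat.pos_of_dvd_of_pos h3 h1, (Nat.le_of_dvd h1 h3).trans h2⟩, ⟨h1, h2⟩, h3⟩
    · rintro ⟨d, j⟩ h
      simp only [mem_sigma, mem_Icc, Nat.mem_divisors, mem_filter] at h ⊢
      obtain ⟨⟨h1, h2⟩, ⟨h3, h4⟩, h5⟩ := h
      exact ⟨⟨h3, h4⟩, h5, by omega⟩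
    · intro _ _; rfl
    · intro _ _; rfl
    · intro _ _; rfl
  rw [h2]
  have h3 : ∀ d ∈ Icc 1 X, ∑ j ∈ (Icc 1 X).filter (fun j => d ∣ j), 1 / (d : ℝ) ^ (1 / 2 : ℝ) ≤
      X * (1 / (d : ℝ) ^ (3 / 2 : ℝ)) := by
    intro d hd
    rw [mem_Icc] at hd
    have hd0 : (0 : ℝ) < d := by exact_mod_cast hd.1
    rw [sum_const, nsmul_eq_mul]
    have h4 : (((Icc 1 X).filter (fun j => d ∣ j)).card : ℝ) ≤ X / d := by
      have h5 : ((Icc 1 X).filter (fun j => d ∣ j)).card = X / d := by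
        have := Nat.Ioc_filter_dvd_card_eq_div X d
        rw [← this]
        congr 1
      rw [h5]
      exact Nat.cast_div_le
    calc (((Icc 1 X).filter (fun j => d ∣ j)).card : ℝ) * (1 / (d : ℝ) ^ (1 / 2 : ℝ))
        ≤ X / d * (1 / (d : ℝ) ^ (1 / 2 : ℝ)) := by gcongr
      _ = X * (1 / (d : ℝ) ^ (3 / 2 : ℝ)) := by
          have : (d : ℝ) ^ (3 / 2 : ℝ) = d * (d : ℝ) ^ (1 / 2 : ℝ) := by
            rw [show (3 / 2 : ℝ) = 1 + 1 / 2 by norm_num, Real.rpow_add hd0, Real.rpow_one]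
          rw [this]
          field_simp
  refine (sum_le_sum h3).trans ?_
  rw [← mul_sum, mul_comm]
  exact mul_le_mul_of_nonneg_right (hTle _) (Nat.cast_nonneg X)

/-- positions of primes `u x + v` -/
def PA (u v X : ℕ) : Finset ℕ := (range X).filter (fun x => (u * x + v).Prime)

lemma rho_zero (A : Finset ℕ) : rho A 0 = A.card := by
  unfold rho
  rw [← card_image_of_injective A (f := fun x => (x, x)) (fun x y h => (Prod.mk.inj h).1)]
  congr 1
  ext ⟨x, y⟩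
  simp only [mem_filter, mem_product, mem_image, Prod.mk.injEq]
  constructor
  · rintro ⟨⟨h1, h2⟩, h3⟩
    exact ⟨x, h1, rfl, by omega⟩
  · rintro ⟨z, hz, rfl, rfl⟩
    exact ⟨⟨hz, hz⟩, by omega⟩

lemma rho_neg (A : Finset ℕ) (j : ℤ) : rho A (-j) = rho A j := by
  unfold rho
  refine card_bij' (fun p _ => (p.2, p.1)) (fun p _ => (p.2, p.1)) ?_ ?_ ?_ ?_
  · rintro ⟨x, y⟩ h
    simp only [mem_filter, mem_product] at h ⊢
    exact ⟨⟨h.1.2, h.1.1⟩, by omega⟩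
  · rintro ⟨x, y⟩ h
    simp only [mem_filter, mem_product] at h ⊢
    exact ⟨⟨h.1.2, h.1.1⟩, by omega⟩
  · intro _ _; rfl
  · intro _ _; rfl

lemma rho_nat (A : Finset ℕ) (j : ℕ) : rho A j = (A.filter (fun y => y + j ∈ A)).card := by
  unfold rho
  refine card_bij' (fun p _ => p.2) (fun y _ => (y + j, y)) ?_ ?_ ?_ ?_
  · rintro ⟨x, y⟩ h
    simp only [mem_filter, mem_product] at h ⊢
    have : y + j = x := by omega
    rw [this]
    exact ⟨h.1.2, h.1.1⟩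
  · intro y h
    simp only [mem_filter, mem_product] at h ⊢
    exact ⟨⟨h.2, h.1⟩, by push_cast; ring⟩
  · rintro ⟨x, y⟩ h
    simp only [mem_filter, mem_product] at h
    simp only [Prod.mk.injEq, and_true]
    omega
  · intro _ _; rfl

lemma En_eq (A : Finset ℕ) (X : ℕ) (hX : 1 ≤ X) :
    En A X = (A.card : ℝ) ^ 2 + 2 * ∑ j ∈ Ico 1 X, (rho A (j : ℤ) : ℝ) ^ 2 := by
  unfold En
  have h1 : Ioo (-(X : ℤ)) X = ({0} : Finset ℤ) ∪ ((Ico 1 X).image (fun j : ℕ => (j : ℤ)) ∪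
      (Ico 1 X).image (fun j : ℕ => -(j : ℤ))) := by
    ext j
    simp only [mem_Ioo, mem_union, mem_singleton, mem_image, mem_Ico]
    constructor
    · rintro ⟨h1, h2⟩
      rcases lt_trichotomy j 0 with h | h | h
      · exact Or.inr (Or.inr ⟨j.natAbs, by omega, by omega⟩)
      · exact Or.inl h
      · exact Or.inr (Or.inl ⟨j.natAbs, by omega, by omega⟩)
    · rintro (h | ⟨k, hk, rfl⟩ | ⟨k, hk, rfl⟩) <;> omega
  rw [h1, sum_union, sum_union, sum_singleton, rho_zero, sum_image, sum_image]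
  · simp only [rho_neg]
    ring
  · intro x _ y _ h; simpa using h
  · intro x _ y _ h; simpa using h
  · rw [disjoint_left]
    intro x hx hx'
    simp only [mem_image, mem_Ico] at hx hx'
    obtain ⟨a, ha, rfl⟩ := hx
    obtain ⟨b, hb, hb'⟩ := hx'
    omega
  · rw [disjoint_left]
    intro x hx hx'
    simp only [mem_singleton, mem_union, mem_image, mem_Ico] at hx hx'
    subst hx
    rcases hx' with ⟨a, ha, h⟩ | ⟨a, ha, h⟩ <;> omega

/-- **Energy bound.** -/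
theorem energy_bound (C₀ Y0 : ℝ) (hC₀ : 0 < C₀)
    (hsieve : ∀ (u v h Y : ℕ), 0 < u → Even u → Nat.Coprime v u → Nat.Coprime (v + h) u → 0 < h →
      Y0 ≤ (Y : ℝ) → Y ≤ v →
      (((range Y).filter (fun x => (u * x + v).Prime ∧ (u * x + v + h).Prime)).card : ℝ) ≤
        C₀ * ((u : ℝ) / Nat.totient u) ^ 2 *
          (∑ d ∈ h.divisors.filter (fun d => Nat.Coprime d u), (1 : ℝ) / d) * Y
          / (Real.log Y) ^ 2) :
    ∃ C₁ X0 : ℝ, 1 ≤ C₁ ∧ ∀ (u v X : ℕ), 0 < u → Even u → Nat.Coprime v u → X0 ≤ (X : ℝ) →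
      X ≤ v → (1 / 2) * ((u : ℝ) / Nat.totient u) * X / Real.log X ≤ (PA u v X).card →
      En (PA u v X) X ≤ C₁ * ((PA u v X).card : ℝ) ^ 4 / X := by
  obtain ⟨K, hK, hsig⟩ := sum_sig_sq
  -- `4 log^2 X ≤ X` eventually
  have hev : ∀ᶠ x : ℝ in Filter.atTop, (Real.log x) ^ 2 ≤ (1 / 4) * x := by
    have := (Real.isLittleO_pow_log_id_atTop (n := 2)).bound (c := 1 / 4) (by norm_num)
    filter_upwards [this, Filter.eventually_ge_atTop (0 : ℝ)] with x hx hx0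
    rw [Real.norm_of_nonneg (sq_nonneg _), id, Real.norm_of_nonneg hx0] at hx
    exact hx
  obtain ⟨x1, hx1⟩ := Filter.eventually_atTop.1 hev
  refine ⟨1 + 32 * C₀ ^ 2 * K, max (max Y0 3) x1, by
    have : 0 ≤ 32 * C₀ ^ 2 * K := by positivity
    linarith, fun u v X hu hue hvu hX hXv hcard => ?_⟩
  have hXY : Y0 ≤ X := (le_max_left _ _).trans ((le_max_left _ _).trans hX)
  have hX3 : (3 : ℝ) ≤ X := (le_max_right _ _).trans ((le_max_left _ _).trans hX)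
  have hXx : x1 ≤ X := (le_max_right _ _).trans hX
  have hX0 : (0 : ℝ) < X := by linarith
  have hX1 : 1 ≤ X := by
    have : (1 : ℝ) ≤ X := by linarith
    exact_mod_cast this
  have hlog : 0 < Real.log X := Real.log_pos (by linarith)
  set A := PA u v X with hA
  set g : ℝ := (u : ℝ) / Nat.totient u with hg
  have hφ : (0 : ℝ) < Nat.totient u := by exact_mod_cast Nat.totient_pos.2 hu
  have hg1 : 1 ≤ g := by
    rw [hg, le_div_iff₀ hφ, one_mul]
    exact_mod_cast Nat.totient_le u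
  have hg0 : 0 < g := by linarith
  -- bound on `rho`
  have hrho : ∀ j ∈ Ico 1 X, (rho A (j : ℤ) : ℝ) ≤ C₀ * g ^ 2 * X / (Real.log X) ^ 2 * sig j := by
    intro j hj
    rw [mem_Ico] at hj
    rw [rho_nat]
    have h1 : (A.filter (fun y => y + j ∈ A)) ⊆
        (range X).filter (fun x => (u * x + v).Prime ∧ (u * x + v + u * j).Prime) := by
      intro y hy
      rw [hA] at hy
      simp only [PA, mem_filter] at hy ⊢
      refine ⟨hy.1.1, hy.1.2, ?_⟩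
      have : u * y + v + u * j = u * (y + j) + v := by ring
      rw [this]
      exact hy.2.2
    have h2 := hsieve u v (u * j) X hu hue hvu (by
      rw [Nat.coprime_add_mul_left_left]; exact hvu) (Nat.mul_pos hu (by omega)) hXY hXv
    have h3 : ((A.filter (fun y => y + j ∈ A)).card : ℝ) ≤
        ((range X).filter (fun x => (u * x + v).Prime ∧ (u * x + v + u * j).Prime)).card := by
      exact_mod_cast card_le_card h1
    refine h3.trans (h2.trans ?_)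
    have h4 : (∑ d ∈ (u * j).divisors.filter (fun d => Nat.Coprime d u), (1 : ℝ) / d) ≤ sig j := by
      unfold sig
      refine sum_le_sum_of_subset_of_nonneg ?_ fun d _ _ => by positivity
      intro d hd
      rw [mem_filter, Nat.mem_divisors] at hd
      rw [Nat.mem_divisors]
      exact ⟨Nat.Coprime.dvd_of_dvd_mul_left hd.2 hd.1.1, by omega⟩
    calc C₀ * g ^ 2 * (∑ d ∈ (u * j).divisors.filter (fun d => Nat.Coprime d u), (1 : ℝ) / d) * X /
          (Real.log X) ^ 2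
        ≤ C₀ * g ^ 2 * sig j * X / (Real.log X) ^ 2 := by gcongr
      _ = _ := by ring
  -- sum of squares
  have hsum : ∑ j ∈ Ico 1 X, (rho A (j : ℤ) : ℝ) ^ 2 ≤
      (C₀ * g ^ 2 * X / (Real.log X) ^ 2) ^ 2 * (K * X) := by
    calc ∑ j ∈ Ico 1 X, (rho A (j : ℤ) : ℝ) ^ 2
        ≤ ∑ j ∈ Ico 1 X, (C₀ * g ^ 2 * X / (Real.log X) ^ 2 * sig j) ^ 2 :=
          sum_le_sum fun j hj => pow_le_pow_left₀ (Nat.cast_nonneg _) (hrho j hj) 2
      _ = (C₀ * g ^ 2 * X / (Real.log X) ^ 2) ^ 2 * ∑ j ∈ Ico 1 X, sig j ^ 2 := by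
          rw [mul_sum]
          exact sum_congr rfl fun j _ => by ring
      _ ≤ (C₀ * g ^ 2 * X / (Real.log X) ^ 2) ^ 2 * (K * X) := by
          gcongr
          refine le_trans ?_ (hsig X)
          refine sum_le_sum_of_subset_of_nonneg ?_ fun j _ _ => sq_nonneg _
          intro j hj
          rw [mem_Ico] at hj
          rw [mem_Icc]
          omega
  set a : ℝ := (A.card : ℝ) with ha
  have ha1 : g * X / Real.log X ≤ 2 * a := by
    have : (1 / 2) * g * X / Real.log X = (1 / 2) * (g * X / Real.log X) := by ring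
    rw [this] at hcard
    linarith
  have ha2 : X ≤ a ^ 2 := by
    have h1 : (X : ℝ) / Real.log X ≤ 2 * a := by
      refine le_trans ?_ ha1
      gcongr
      nlinarith
    have h2 : (X / Real.log X : ℝ) ^ 2 ≤ (2 * a) ^ 2 :=
      pow_le_pow_left₀ (by positivity) h1 2
    have h3 := hx1 X hXx
    have h4 : 4 * (X : ℝ) ≤ (X / Real.log X : ℝ) ^ 2 := by
      rw [div_pow, le_div_iff₀ (by positivity)]
      nlinarith
    nlinarith
  have ha0 : 0 < a := by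
    have : 0 < g * X / Real.log X := by positivity
    linarith
  rw [En_eq A X hX1, le_div_iff₀ hX0]
  have h5 : (C₀ * g ^ 2 * X / (Real.log X) ^ 2) ^ 2 * (K * X) * X =
      C₀ ^ 2 * K * (g * X / Real.log X) ^ 4 := by
    field_simp
  have h6 : (g * X / Real.log X) ^ 4 ≤ (2 * a) ^ 4 := pow_le_pow_left₀ (by positivity) ha1 4
  calc (a ^ 2 + 2 * ∑ j ∈ Ico 1 X, (rho A (j : ℤ) : ℝ) ^ 2) * X
      = a ^ 2 * X + 2 * ((∑ j ∈ Ico 1 X, (rho A (j : ℤ) : ℝ) ^ 2) * X) := by ring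
    _ ≤ a ^ 2 * a ^ 2 + 2 * ((C₀ * g ^ 2 * X / (Real.log X) ^ 2) ^ 2 * (K * X) * X) := by gcongr
    _ ≤ a ^ 2 * a ^ 2 + 2 * (C₀ ^ 2 * K * (2 * a) ^ 4) := by
        rw [h5]; gcongr
    _ = (1 + 32 * C₀ ^ 2 * K) * a ^ 4 := by ring

end

end Pool.Agent.Work.MP_713a1e_co
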