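import Mathlib
import Pool.Agent.Work.MP_713a1e_co.Energy

/-! Counting primes `q x + v`, from the prime number theorem in a fixed progression. -/

namespace Pool.Agent.Work.MP_713a1e_co

open Finset Filter

noncomputable section

/-- the statement of JOB A -/
def APProp : Prop :=
  ∀ (q a : ℕ) (_ : 0 < q) (_ : Nat.Coprime a q) (κ δ : ℝ) (_ : 0 < κ) (_ : 0 < δ),
    ∃ x0 : ℝ, 1 < x0 ∧ ∀ x y : ℝ, x0 ≤ x → κ * x ≤ y → y ≤ x / κ →
      |(((Ioc ⌊x⌋₊ ⌊x + y⌋₊).filter (fun p => p.Prime ∧ p ≡ a [MOD q])).card : ℝ)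
        - y / ((Nat.totient q : ℝ) * Real.log x)| ≤ δ * y / Real.log x

/-- the statement of JOB B, pairs -/
def SPProp : Prop :=
  ∃ C Y0 : ℝ, 0 < C ∧ ∀ (u v h Y : ℕ), 0 < u → Even u → Nat.Coprime v u →
    Nat.Coprime (v + h) u → 0 < h → Y0 ≤ (Y : ℝ) → Y ≤ v →
    (((range Y).filter (fun x => (u * x + v).Prime ∧ (u * x + v + h).Prime)).card : ℝ) ≤
      C * ((u : ℝ) / Nat.totient u) ^ 2 *
        (∑ d ∈ h.divisors.filter (fun d => Nat.Coprime d u), (1 : ℝ) / d) * Y
        / (Real.log Y) ^ 2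

lemma PA_card (q v Y : ℕ) (hq : 0 < q) (hv : 1 ≤ v) :
    ((Ioc (v - 1) (v - 1 + q * Y)).filter (fun p => p.Prime ∧ p ≡ v [MOD q])).card =
      (PA q v Y).card := by
  symm
  refine card_bij (fun x _ => q * x + v) ?_ ?_ ?_
  · intro x hx
    simp only [PA, mem_filter, mem_range, mem_Ioc] at hx ⊢
    have h1 : q * x + q ≤ q * Y := by
      have : q * (x + 1) ≤ q * Y := Nat.mul_le_mul_left q hx.1
      rw [mul_add, mul_one] at this
      exact this
    refine ⟨⟨by omega, by omega⟩, hx.2, ?_⟩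
    unfold Nat.ModEq
    rw [Nat.mul_add_mod]
  · intro x _ y _ h
    have : q * x = q * y := by simpa using h
    exact Nat.eq_of_mul_eq_mul_left hq this
  · intro p hp
    simp only [PA, mem_filter, mem_range, mem_Ioc] at hp
    obtain ⟨⟨h1, h2⟩, h3, h4⟩ := hp
    have h5 : q ∣ p - v := (Nat.modEq_iff_dvd' (by omega)).1 h4.symm
    obtain ⟨t, ht⟩ := h5
    have h6 : p = q * t + v := by omega
    refine ⟨t, ?_, h6.symm⟩
    simp only [PA, mem_filter, mem_range]
    refine ⟨?_, by rw [← h6]; exact h3⟩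
    have : q * t < q * Y := by omega
    exact lt_of_mul_lt_mul_left this (Nat.zero_le q)

/-- primes `q x + v`, `x < Y`, for `v` and `q Y` comparable with `n` -/
theorem count (hAP : APProp) (q : ℕ) (hq : 0 < q) (κ δ : ℝ) (hκ : 0 < κ) (hδ : 0 < δ) :
    ∀ᶠ n : ℕ in atTop, ∀ v Y : ℕ, Nat.Coprime v q → κ * n ≤ v → (v : ℝ) + q * Y ≤ n / κ →
      κ * n ≤ (q : ℝ) * Y →
      |((PA q v Y).card : ℝ) - (q : ℝ) * Y / (Nat.totient q * Real.log n)| ≤
        δ * ((q : ℝ) * Y / (Nat.totient q * Real.log n)) := by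
  have hφ : (0 : ℝ) < Nat.totient q := by exact_mod_cast Nat.totient_pos.2 hq
  -- one class
  have key : ∀ a ∈ range (q + 1), Nat.Coprime a q → ∀ᶠ n : ℕ in atTop, ∀ v Y : ℕ, v ≡ a [MOD q] →
      κ * n ≤ v → (v : ℝ) + q * Y ≤ n / κ → κ * n ≤ (q : ℝ) * Y →
      |((PA q v Y).card : ℝ) - (q : ℝ) * Y / (Nat.totient q * Real.log n)| ≤
        δ * ((q : ℝ) * Y / (Nat.totient q * Real.log n)) := by
    intro a _ ha
    obtain ⟨x0, hx0, hx⟩ := hAP q a hq ha (κ ^ 2 / 2) (δ / (4 * Nat.totient q)) (by positivity)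
      (by positivity)
    have t1 : Tendsto (fun n : ℕ => (n : ℝ)) atTop atTop := tendsto_natCast_atTop_atTop
    have t2 : Tendsto (fun n : ℕ => Real.log n) atTop atTop := Real.tendsto_log_atTop.comp t1
    filter_upwards [t1.eventually_ge_atTop (2 / κ + 2 * x0 / κ + 2),
      t2.eventually_ge_atTop (2 * |Real.log κ| + 2 * Real.log 2 +
        (4 * (|Real.log κ| + Real.log 2)) / δ + 2)] with n hn1 hn2 v Y hva hv hvY hY
    have hl2 : 0 < Real.log 2 := Real.log_pos (by norm_num)
    have hn0 : (0 : ℝ) < n := by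
      have : 0 ≤ 2 / κ + 2 * x0 / κ := by positivity
      linarith
    have hκn : 2 + 2 * x0 + 2 * κ ≤ κ * n := by
      have := mul_le_mul_of_nonneg_left hn1 hκ.le
      calc 2 + 2 * x0 + 2 * κ = κ * (2 / κ + 2 * x0 / κ + 2) := by field_simp
        _ ≤ _ := this
    have hv1 : (1 : ℝ) < v := by nlinarith
    have hv1' : 1 ≤ v := by exact_mod_cast hv1.le
    have hxe : (((v - 1 : ℕ) : ℝ)) = v - 1 := by push_cast [hv1']; ring
    set x : ℝ := ((v - 1 : ℕ) : ℝ) with hxdef
    set y : ℝ := ((q * Y : ℕ) : ℝ) with hydef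
    have hye : y = (q : ℝ) * Y := by rw [hydef]; push_cast; ring
    have hxlow : κ * n / 2 ≤ x := by rw [hxe]; linarith
    have hxx0 : x0 ≤ x := by linarith
    have hxup : x ≤ n / κ := by
      have : (0 : ℝ) ≤ (q : ℝ) * Y := by positivity
      rw [hxe]; linarith
    have hx0' : 0 < x := by linarith
    have h1 : κ ^ 2 / 2 * x ≤ y := by
      rw [hye]
      have : κ ^ 2 / 2 * x ≤ κ ^ 2 / 2 * (n / κ) := by gcongr
      have e : κ ^ 2 / 2 * (n / κ) = κ * n / 2 := by field_simp
      nlinarith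
    have h2 : y ≤ x / (κ ^ 2 / 2) := by
      rw [le_div_iff₀ (by positivity), hye]
      have hv0 : (0 : ℝ) ≤ v := by linarith
      have : (q : ℝ) * Y ≤ n / κ := by linarith
      calc (q : ℝ) * Y * (κ ^ 2 / 2) ≤ n / κ * (κ ^ 2 / 2) := by gcongr
        _ = κ * n / 2 := by field_simp
        _ ≤ x := hxlow
    have h3 := hx x y hxx0 h1 h2
    have hfl1 : ⌊x⌋₊ = v - 1 := by rw [hxdef]; exact Nat.floor_natCast _
    have hfl2 : ⌊x + y⌋₊ = v - 1 + q * Y := by
      rw [hxdef, hydef, ← Nat.cast_add]; exact Nat.floor_natCast _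
    have hcard : ((Ioc ⌊x⌋₊ ⌊x + y⌋₊).filter (fun p => p.Prime ∧ p ≡ a [MOD q])).card =
        (PA q v Y).card := by
      rw [hfl1, hfl2, ← PA_card q v Y hq hv1']
      congr 1
      refine filter_congr fun p _ => ?_
      constructor
      · rintro ⟨h, h'⟩; exact ⟨h, h'.trans hva.symm⟩
      · rintro ⟨h, h'⟩; exact ⟨h, h'.trans hva⟩
    rw [hcard] at h3
    -- logarithms
    have hlx1 : Real.log x ≤ Real.log n + |Real.log κ| := by
      have := Real.log_le_log hx0' hxup
      rw [Real.log_div hn0.ne' hκ.ne'] at this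
      linarith [neg_abs_le (Real.log κ)]
    have hlx2 : Real.log n - |Real.log κ| - Real.log 2 ≤ Real.log x := by
      have := Real.log_le_log (by positivity) hxlow
      rw [Real.log_div (by positivity) (by norm_num), Real.log_mul hκ.ne' hn0.ne'] at this
      linarith [neg_abs_le (Real.log κ)]
    have hδ4 : 0 ≤ (4 * (|Real.log κ| + Real.log 2)) / δ := by positivity
    have hln : 0 < Real.log n := by
      have := abs_nonneg (Real.log κ); linarith
    have hlxn : Real.log n / 2 ≤ Real.log x := by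
      have := abs_nonneg (Real.log κ); linarith
    have hlx : 0 < Real.log x := by linarith
    have hdiff : |Real.log n - Real.log x| ≤ |Real.log κ| + Real.log 2 := by
      rw [abs_le]; constructor <;> linarith
    have hy0 : 0 < y := by rw [hye]; exact lt_of_lt_of_le (by positivity) hY
    have e1 : |y / (Nat.totient q * Real.log x) - y / (Nat.totient q * Real.log n)| ≤
        (δ / 2) * (y / (Nat.totient q * Real.log n)) := by
      have e2 : y / (Nat.totient q * Real.log x) - y / (Nat.totient q * Real.log n) =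
          (y / (Nat.totient q * Real.log n)) * ((Real.log n - Real.log x) / Real.log x) := by
        field_simp
      rw [e2, abs_mul, abs_of_pos (a := y / (Nat.totient q * Real.log n)) (by positivity), mul_comm]
      refine mul_le_mul_of_nonneg_right ?_ (by positivity)
      rw [abs_div, abs_of_pos hlx, div_le_iff₀ hlx]
      have e3 : (4 * (|Real.log κ| + Real.log 2)) / δ ≤ Real.log n := by
        have := abs_nonneg (Real.log κ); linarith
      rw [div_le_iff₀ hδ] at e3
      nlinarith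
    have e4 : δ / (4 * Nat.totient q) * y / Real.log x ≤
        (δ / 2) * (y / (Nat.totient q * Real.log n)) := by
      have e5 : y / Real.log x ≤ y / (Real.log n / 2) := by gcongr
      calc δ / (4 * Nat.totient q) * y / Real.log x = δ / (4 * Nat.totient q) * (y / Real.log x) := by
            ring
        _ ≤ δ / (4 * Nat.totient q) * (y / (Real.log n / 2)) := by gcongr
        _ = _ := by field_simp; ring
    have e6 : ((PA q v Y).card : ℝ) - y / (Nat.totient q * Real.log n) =
        (((PA q v Y).card : ℝ) - y / (Nat.totient q * Real.log x)) +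
        (y / (Nat.totient q * Real.log x) - y / (Nat.totient q * Real.log n)) := by ring
    rw [← hye, e6]
    refine (abs_add_le _ _).trans ?_
    have : δ * (y / (Nat.totient q * Real.log n)) = (δ / 2) * (y / (Nat.totient q * Real.log n)) +
        (δ / 2) * (y / (Nat.totient q * Real.log n)) := by ring
    rw [this]
    exact add_le_add (h3.trans e4) e1
  have key2 : ∀ᶠ n : ℕ in atTop, ∀ a ∈ range (q + 1), Nat.Coprime a q → ∀ v Y : ℕ, v ≡ a [MOD q] →
      κ * n ≤ v → (v : ℝ) + q * Y ≤ n / κ → κ * n ≤ (q : ℝ) * Y →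
      |((PA q v Y).card : ℝ) - (q : ℝ) * Y / (Nat.totient q * Real.log n)| ≤
        δ * ((q : ℝ) * Y / (Nat.totient q * Real.log n)) := by
    rw [eventually_all_finset]
    intro a ha
    by_cases h : Nat.Coprime a q
    · filter_upwards [key a ha h] with n hn _
      exact hn
    · exact Eventually.of_forall fun n h' => absurd h' h
  filter_upwards [key2] with n hn v Y hvq
  have h1 : v % q ∈ range (q + 1) := by
    rw [mem_range]
    have := Nat.mod_lt v hq
    omega
  have h2 : Nat.Coprime (v % q) q := by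
    unfold Nat.Coprime at hvq ⊢
    rw [Nat.gcd_comm, Nat.gcd_rec] at hvq
    rw [Nat.gcd_comm (v % q) q]
    rw [Nat.gcd_comm q (v % q)]
    exact hvq
  exact hn (v % q) h1 h2 v Y (Nat.mod_modEq v q).symm

end

end Pool.Agent.Work.MP_713a1e_co
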