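import Mathlib
import Pool.Agent.Work.MP_713a1e_co.CountPA

/-! The statement of the choice of the steps, and primes in short intervals. -/

namespace Pool.Agent.Work.MP_713a1e_co

open Finset Filter

noncomputable section

/-- the shifts which can be used for relocations -/
def GG (c : ℝ) (p a d : ℕ) : Finset ℕ := by
  classical
  exact (range d).filter (fun g => c * d ≤ g ∧ (g : ℝ) ≤ (1 - c) * d ∧
      (p - 2 * g).Prime ∧ (p + 2 * a - 2 * d + 2 * g).Prime)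

/-- the statement of JOB E2 -/
def ChoiceT : Prop :=
  ∃ c : ℝ, 0 < c ∧ c ≤ 1 / 4 ∧ ∀ ε : ℝ, 0 < ε → ε ≤ 1 / 10 → ∃ c' : ℝ, 0 < c' ∧
    ∃ n0 : ℕ, ∀ n : ℕ, n0 ≤ n → ∃ p a d : ℕ, p.Prime ∧ (p + 2 * a).Prime ∧ (p - 2 * d).Prime ∧
      (p + 2 * a - 2 * d).Prime ∧ Nat.Coprime a d ∧ d < a ∧
      (5 : ℝ) / 4 * n ≤ p ∧ (p : ℝ) ≤ 3 / 2 * n ∧ c * ε * n ≤ d ∧ (a : ℝ) ≤ ε * n ∧
      c' * n / (Real.log n) ^ 2 ≤ ((GG c p a d).card : ℝ)

lemma prime_between (hAP : APProp) {κ : ℝ} (hκ : 0 < κ) : ∀ᶠ n : ℕ in atTop, ∀ s Y : ℕ,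
    κ * n ≤ s → (s : ℝ) + Y ≤ n / κ → κ * n ≤ (Y : ℝ) → ∃ x < Y, (x + s).Prime := by
  have t1 : Tendsto (fun n : ℕ => (n : ℝ)) atTop atTop := tendsto_natCast_atTop_atTop
  filter_upwards [count hAP 1 one_pos κ (1 / 2) hκ (by norm_num), t1.eventually_ge_atTop 3] with
    n hn hn3 s Y h1 h2 h3
  have hn0 : (0 : ℝ) < n := by linarith
  have h4 := hn s Y (by simp) h1 (by simpa using h2) (by simpa using h3)
  have hlog : 0 < Real.log n := Real.log_pos (by linarith)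
  have hY : (0 : ℝ) < Y := lt_of_lt_of_le (by positivity) h3
  have h5 : 0 < ((1 : ℕ) : ℝ) * Y / (Nat.totient 1 * Real.log n) := by
    simp only [Nat.totient_one, Nat.cast_one, one_mul]
    positivity
  have h6 : (0 : ℝ) < (PA 1 s Y).card := by
    rw [abs_le] at h4
    linarith [h4.1]
  have h7 : 0 < (PA 1 s Y).card := by exact_mod_cast h6
  obtain ⟨x, hx⟩ := card_pos.1 h7
  simp only [PA, mem_filter, mem_range, one_mul] at hx
  exact ⟨x, hx.1, hx.2⟩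

end

end Pool.Agent.Work.MP_713a1e_co
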