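import Pool.Agent.Work.MP_713a1e_co.ChoiceE
import Pool.Agent.Work.MP_713a1e_co.ChoiceI
import Pool.Agent.Work.MP_713a1e_co.SetupBase

/-! JOB E2, part 5: the choice for large `n`. -/

set_option autoImplicit false

namespace Pool.Agent.Work.MP_713a1e_co

open Finset Filter

/-- `ChoiceT` with the exact range of `p` -/
def ChoiceT2 : Prop :=
  ∃ c : ℝ, 0 < c ∧ c ≤ 1 / 4 ∧ ∀ ε : ℝ, 0 < ε → ε ≤ 1 / 10 → ∃ c' : ℝ, 0 < c' ∧
    ∃ n0 : ℕ, ∀ n : ℕ, n0 ≤ n → ∃ p a d : ℕ, p.Prime ∧ (p + 2 * a).Prime ∧ (p - 2 * d).Prime ∧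
      (p + 2 * a - 2 * d).Prime ∧ Nat.Coprime a d ∧ d < a ∧
      (13 : ℝ) / 10 * n ≤ p ∧ (p : ℝ) ≤ (13 / 10 + ε) * n ∧ c * ε * n ≤ d ∧ (a : ℝ) ≤ ε * n ∧
      c' * n / (Real.log n) ^ 2 ≤ ((GG c p a d).card : ℝ)

lemma ChoiceT2.toT (h : ChoiceT2) : ChoiceT := by
  obtain ⟨c, hc, hc4, h⟩ := h
  refine ⟨c, hc, hc4, fun ε hε hε1 => ?_⟩
  obtain ⟨c', hc', n0, h⟩ := h ε hε hε1
  refine ⟨c', hc', n0, fun n hn => ?_⟩
  obtain ⟨p, a, d, q1, q2, q3, q4, q5, q6, q7, q8, q9, q10, q11⟩ := h n hn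
  have hn0 : (0 : ℝ) ≤ n := Nat.cast_nonneg n
  have h1 : ε * n ≤ 1 / 10 * n := by gcongr
  have h2 : (13 / 10 + ε) * (n : ℝ) = 13 / 10 * n + ε * n := by ring
  exact ⟨p, a, d, q1, q2, q3, q4, q5, q6, by linarith, by linarith, q9, q10, q11⟩

theorem choice2_of (hAP' : APProp) {C Y0 : ℝ} (hC : 1 ≤ C) (h1 : SieveOne C Y0)
    (h2 : SieveRefl C Y0) : ChoiceT2 := by
  have hAP : PrimesAPc := fun q a hq ha κ δ hκ hδ => hAP' q a hq ha κ δ hκ hδ
  have hC0 : 0 < C := by linarith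
  obtain ⟨Q, hQdef⟩ : ∃ Q : ℕ, Q = max 2 ⌈200000000 * C ^ 2⌉₊ := ⟨_, rfl⟩
  have hQ2 : 2 ≤ Q := by rw [hQdef]; exact le_max_left _ _
  have hQ : 200000000 * C ^ 2 ≤ (Q : ℝ) := by
    refine (Nat.le_ceil _).trans ?_
    rw [hQdef]
    exact_mod_cast le_max_right _ _
  obtain ⟨B, hB⟩ : ∃ B : ℕ, B = 4 * Q.factorial := ⟨_, rfl⟩
  have hBpos : 0 < B := by rw [hB]; have := Q.factorial_pos; omega
  have hB' : (0 : ℝ) < B := by exact_mod_cast hBpos
  obtain ⟨c2, hc2⟩ : ∃ c2 : ℝ, c2 = 1 / (260000 * C) := ⟨_, rfl⟩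
  have hc2pos : 0 < c2 := by rw [hc2]; positivity
  have hc2le : c2 ≤ 1 := by
    rw [hc2, div_le_one (by positivity)]
    linarith
  have hφ : (0 : ℝ) < Nat.totient B := by exact_mod_cast Nat.totient_pos.2 hBpos
  refine ⟨c2 / 4, by positivity, by linarith, fun ε hε hε1 => ?_⟩
  refine ⟨ε * B / (768 * (Nat.totient B : ℝ) ^ 2), by positivity, ?_⟩
  have hco2 : Nat.Coprime (B - 1) B := by
    obtain ⟨b, rfl⟩ : ∃ b, B = b + 1 := ⟨B - 1, by omega⟩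
    simp
  obtain ⟨x1, hx1⟩ := dens_lower hAP B 1 hBpos (Nat.coprime_one_left B) ε hε hε1
  obtain ⟨x2, hx2⟩ := dens_lower hAP B (B - 1) hBpos hco2 ε hε hε1
  obtain ⟨K, hK⟩ : ∃ K : ℝ, K = B / (576 * (Nat.totient B : ℝ) ^ 2) := ⟨_, rfl⟩
  have hK0 : 0 < K := by rw [hK]; positivity
  have hcast := tendsto_natCast_atTop_atTop (R := ℝ)
  have E1 : ∀ᶠ n : ℕ in atTop, x1 ≤ (n : ℝ) := hcast.eventually (eventually_ge_atTop x1)
  have E2 : ∀ᶠ n : ℕ in atTop, x2 ≤ (n : ℝ) := hcast.eventually (eventually_ge_atTop x2)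
  have E3 : ∀ᶠ n : ℕ in atTop, (max Y0 1) ≤ (n : ℝ) ^ (1 / 3 : ℝ) :=
    hcast.eventually ((tendsto_rpow_atTop (by norm_num)).eventually (eventually_ge_atTop _))
  have E4 : ∀ᶠ n : ℕ in atTop, 4 * B / ε ≤ (n : ℝ) ^ (1 / 6 : ℝ) :=
    hcast.eventually ((tendsto_rpow_atTop (by norm_num)).eventually (eventually_ge_atTop _))
  have E5 : ∀ᶠ n : ℕ in atTop, 2 * B / (c2 * ε) ≤ (n : ℝ) ^ (2 / 3 : ℝ) :=
    hcast.eventually ((tendsto_rpow_atTop (by norm_num)).eventually (eventually_ge_atTop _))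
  have E6 : ∀ᶠ n : ℕ in atTop, 8 / ε ≤ (n : ℝ) ^ (1 / 2 : ℝ) :=
    hcast.eventually ((tendsto_rpow_atTop (by norm_num)).eventually (eventually_ge_atTop _))
  have E7 : ∀ᶠ n : ℕ in atTop, 1 ≤ Real.log (n : ℝ) :=
    hcast.eventually (Real.tendsto_log_atTop.eventually (eventually_ge_atTop _))
  have E8 : ∀ᶠ n : ℕ in atTop, (Real.log (n : ℝ)) ^ 2 ≤ K * (n : ℝ) ^ (1 / 2 : ℝ) := by
    have h3 := (isLittleO_log_rpow_rpow_atTop (s := 1 / 2) 2 (by norm_num)).bound hK0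
    filter_upwards [hcast.eventually h3, E7] with n hn hn1
    rw [Real.norm_eq_abs, Real.norm_eq_abs, abs_of_nonneg (by positivity),
      abs_of_nonneg (by positivity)] at hn
    exact_mod_cast hn
  have E9 : ∀ᶠ n : ℕ in atTop, 16 ≤ n := eventually_ge_atTop 16
  obtain ⟨n0, hn0⟩ := eventually_atTop.1
    (E1.and (E2.and (E3.and (E4.and (E5.and (E6.and (E7.and (E8.and E9))))))))
  refine ⟨n0, fun n hn => ?_⟩
  obtain ⟨g1, g2, g3, g4, g5, g6, g7, g8, g9⟩ := hn0 n hn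
  have hn16 : (16 : ℝ) ≤ n := by exact_mod_cast g9
  have hnpos : (0 : ℝ) < n := by linarith
  obtain ⟨L, hL⟩ : ∃ L, L = Real.log n := ⟨_, rfl⟩
  rw [← hL] at g7 g8
  have hL0 : 0 < L := by linarith
  obtain ⟨T, hTdef⟩ : ∃ T, T = (n : ℝ) ^ (1 / 3 : ℝ) := ⟨_, rfl⟩
  rw [← hTdef] at g3
  have hT1 : 1 ≤ T := (le_max_right _ _).trans g3
  have hTY : Y0 ≤ T := (le_max_left _ _).trans g3
  have hThr : Thr T L Y0 := by
    intro Y hY
    refine ⟨hTY.trans hY, ?_⟩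
    have e1 : Real.log T ≤ Real.log Y := Real.log_le_log (by linarith) hY
    rw [hTdef, Real.log_rpow hnpos, ← hL] at e1
    linarith
  obtain ⟨R, hR⟩ : ∃ R, R = Nat.sqrt n := ⟨_, rfl⟩
  have hR4 : 4 ≤ R := by
    rw [hR]
    exact Nat.le_sqrt.2 (by omega)
  obtain ⟨w, hw⟩ : ∃ w, w = (n : ℝ) ^ (1 / 2 : ℝ) := ⟨_, rfl⟩
  rw [← hw] at g6 g8
  have hsq : w ^ 2 = n := by
    rw [hw, ← Real.rpow_natCast, ← Real.rpow_mul hnpos.le]
    norm_num
  have hw0 : 0 < w := by rw [hw]; positivity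
  have hRw : (R : ℝ) ≤ w := by
    have e1 : (R : ℝ) ^ 2 ≤ w ^ 2 := by
      rw [hsq, hR]
      have := Nat.sqrt_le' n
      exact_mod_cast this
    exact le_of_sq_le_sq e1 hw0.le
  have hRw2 : w ≤ (R : ℝ) + 1 := by
    have e1 : w ^ 2 ≤ ((R : ℝ) + 1) ^ 2 := by
      rw [hsq, hR]
      have := (Nat.lt_succ_sqrt' n).le
      exact_mod_cast this
    exact le_of_sq_le_sq e1 (by positivity)
  obtain ⟨y, hy⟩ : ∃ y, y = ε * n / 4 := ⟨_, rfl⟩
  have hy0 : 0 < y := by rw [hy]; positivity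
  have hyn : y ≤ n / 40 := by
    have : ε * n ≤ 1 / 10 * n := by gcongr
    rw [hy]; linarith
  have hbig : B * R * T ≤ y := by
    have e1 : w * T * (n : ℝ) ^ (1 / 6 : ℝ) = n := by
      rw [hw, hTdef, ← Real.rpow_add hnpos, ← Real.rpow_add hnpos]
      norm_num
    have e2 : w * T * (4 * B / ε) ≤ n := by
      calc w * T * (4 * B / ε) ≤ w * T * (n : ℝ) ^ (1 / 6 : ℝ) := by gcongr
        _ = n := e1
    have e3 : B * w * T ≤ y := by
      have e4 : w * T * (4 * B / ε) * (ε / 4) ≤ n * (ε / 4) := by gcongr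
      have e5 : w * T * (4 * B / ε) * (ε / 4) = B * w * T := by field_simp
      rw [hy]
      linarith
    refine le_trans ?_ e3
    gcongr
  have hbig2 : B * T ≤ 2 * c2 * y := by
    have e1 : T * (n : ℝ) ^ (2 / 3 : ℝ) = n := by
      rw [hTdef, ← Real.rpow_add hnpos]
      norm_num
    have e2 : T * (2 * B / (c2 * ε)) ≤ n := by
      calc T * (2 * B / (c2 * ε)) ≤ T * (n : ℝ) ^ (2 / 3 : ℝ) := by gcongr
        _ = n := e1
    have e4 : T * (2 * B / (c2 * ε)) * (c2 * ε / 2) ≤ n * (c2 * ε / 2) := by gcongr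
    have e5 : T * (2 * B / (c2 * ε)) * (c2 * ε / 2) = B * T := by field_simp
    rw [hy]
    linarith
  have hRn : (n : ℝ) ≤ ((R : ℝ) + 1) ^ 2 := by
    have e1 : w ^ 2 ≤ ((R : ℝ) + 1) ^ 2 := by gcongr
    rw [hsq] at e1
    linarith
  have hR4' : (4 : ℝ) ≤ R := by exact_mod_cast hR4
  have hw4 : 8 ≤ w * (ε / 1) := by
    rw [div_le_iff₀ hε] at g6
    linarith
  -- the ratio
  obtain ⟨N0, hN0⟩ : ∃ N0, N0 = y * B / (24 * (Nat.totient B : ℝ) ^ 2 * L ^ 2) := ⟨_, rfl⟩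
  have e3 : 2 ≤ y / w := by
    rw [le_div_iff₀ hw0, hy]
    have e5 : w * w = n := by rw [← sq]; exact hsq
    have e6 : 8 * w ≤ (w * (ε / 1)) * w := by gcongr
    have e7 : (w * (ε / 1)) * w = ε * n := by rw [← e5]; ring
    linarith
  have hw1 : 1 ≤ w := by
    have e4 : (1 : ℝ) ≤ 8 / ε := by
      rw [le_div_iff₀ hε]; linarith
    linarith
  have e8 : y / w ≤ y * K / L ^ 2 := by
    rw [div_le_div_iff₀ hw0 (by positivity)]
    calc y * L ^ 2 ≤ y * (K * w) := by gcongr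
      _ = y * K * w := by ring
  have e9 : N0 / 12 = 2 * (y * K / L ^ 2) := by
    rw [hK, hN0]; field_simp; ring
  have hE : (y + 1) / (R + 1) + 1 ≤ N0 / 12 := by
    have e1 : (y + 1) / ((R : ℝ) + 1) ≤ (y + 1) / w := by gcongr
    have e2 : (y + 1) / w ≤ y / w + 1 := by
      rw [add_div]
      have : 1 / w ≤ 1 := by rw [div_le_one hw0]; exact hw1
      linarith
    linarith
  have hctx : Ctx C Y0 T L Q B R (13 / 10 * n) y c2 :=
    { hC := hC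
      hL := hL0
      hT := hThr
      hB := hB
      hQ2 := hQ2
      hQ := hQ
      hc2 := hc2
      hR1 := hR4
      hx := by linarith
      hxR := by
        have f1 : 5 * (n : ℝ) ≤ ((R : ℝ) + 1) * ((R : ℝ) + 1) ^ 2 := by
          have : (5 : ℝ) ≤ (R : ℝ) + 1 := by linarith
          gcongr
        have f2 : ((R : ℝ) + 1) * ((R : ℝ) + 1) ^ 2 = ((R : ℝ) + 1) ^ 3 := by ring
        linarith
      hyR := by linarith
      hT1 := hT1
      hbig := hbig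
      hbig2 := hbig2 }
  rw [hN0] at hE
  have hd1 := hx1 n g1 (by rw [← hL]; exact g7) (13 / 10 * n) (by linarith) (by linarith)
  have hd2 := hx2 n g2 (by rw [← hL]; exact g7) (13 / 10 * n + 2 * y) (by linarith) (by linarith)
  rw [← hL, ← hy] at hd1 hd2
  obtain ⟨N, S, hN, hSc, hSs⟩ := choose_N hctx h1 h2 hd1 hd2 hE
  rw [← hN0] at hN hSc
  have hN16 : 16 ≤ N0 := by linarith
  obtain ⟨p, a, d, q1, q2, q3, q4, q5, q6, q7, q8, q9, q10, q11⟩ := choice_fin2 hN hSc hSs hN16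
  have hεn : 0 < ε * n := by positivity
  refine ⟨p, a, d, q1, q2, q3, q4, q5, q6, q7.le, ?_, ?_, ?_, ?_⟩
  · have f0 : (13 / 10 + ε) * (n : ℝ) = 13 / 10 * n + ε * n := by ring
    rw [f0]
    rw [hy] at q8
    linarith
  · have : c2 / 4 * ε * n = c2 * y := by rw [hy]; ring
    rw [this]; exact q9
  · rw [hy] at q10
    linarith
  · have f1 : ε * B / (768 * (Nat.totient B : ℝ) ^ 2) * n / (Real.log n) ^ 2 = N0 / 8 := by
      rw [← hL, hN0, hy]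
      field_simp
      ring
    rw [f1]
    refine q11.trans ?_
    unfold GG
    have : (((range d).filter (fun g : ℕ => c2 * d ≤ g ∧ (g : ℝ) ≤ (1 - c2) * d ∧
        (p - 2 * g).Prime ∧ (p + 2 * a - 2 * d + 2 * g).Prime)).card) ≤
        (((range d).filter (fun g : ℕ => c2 / 4 * d ≤ g ∧ (g : ℝ) ≤ (1 - c2 / 4) * d ∧
        (p - 2 * g).Prime ∧ (p + 2 * a - 2 * d + 2 * g).Prime)).card) := by
      apply card_le_card
      intro g hg
      rw [mem_filter] at hg ⊢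
      have f2 : c2 / 4 * (d : ℝ) ≤ c2 * d := by
        have : 0 ≤ c2 * (d : ℝ) := by positivity
        linarith
      refine ⟨hg.1, by linarith [hg.2.1], ?_, hg.2.2.2⟩
      have f3 : (1 - c2) * (d : ℝ) = d - c2 * d := by ring
      have f4 : (1 - c2 / 4) * (d : ℝ) = d - c2 / 4 * d := by ring
      rw [f4]
      have := hg.2.2.1
      rw [f3] at this
      linarith
    exact_mod_cast this

lemma SieveRefl.mono {C C' Y0 Y0' : ℝ} (h : SieveRefl C Y0) (hC : C ≤ C') (hY : Y0 ≤ Y0') :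
    SieveRefl C' Y0' := by
  intro u v N Y hu heu hv hvk hY' hYv hN
  refine (h u v N Y hu heu hv hvk (hY.trans hY') hYv hN).trans ?_
  have : 0 ≤ Real.log Y := Real.log_natCast_nonneg Y
  have h3 : (0 : ℝ) ≤ ∑ d ∈ N.divisors.filter (fun d => Nat.Coprime d u), (1 : ℝ) / d :=
    sum_nonneg fun d _ => by positivity
  gcongr

theorem choiceT2_of (hAP : APProp)
    (hone : ∃ C Y0 : ℝ, 0 < C ∧ ∀ (u v Y : ℕ), 0 < u → Nat.Coprime v u →
      Y0 ≤ (Y : ℝ) → Y ≤ v →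
      (((Finset.range Y).filter (fun x => (u * x + v).Prime)).card : ℝ) ≤
        C * ((u : ℝ) / Nat.totient u) * Y / Real.log Y)
    (hrefl : ∃ C Y0 : ℝ, 0 < C ∧ ∀ (u v N Y : ℕ), 0 < u → Even u → Nat.Coprime v u →
      Nat.Coprime (N - v) u → Y0 ≤ (Y : ℝ) → Y ≤ v → u * Y + v + Y ≤ N →
      (((Finset.range Y).filter (fun x => (u * x + v).Prime ∧ (N - (u * x + v)).Prime)).card : ℝ) ≤
        C * ((u : ℝ) / Nat.totient u) ^ 2 *
          (∑ d ∈ N.divisors.filter (fun d => Nat.Coprime d u), (1 : ℝ) / d) * Y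
          / (Real.log Y) ^ 2) : ChoiceT2 := by
  obtain ⟨C1, Y1, hC1, H1⟩ := hone
  obtain ⟨C2, Y2, hC2, H2⟩ := hrefl
  have H1' : SieveOne C1 Y1 := H1
  have H2' : SieveRefl C2 Y2 := H2
  exact choice2_of hAP (C := max 1 (max C1 C2)) (Y0 := max Y1 Y2) (le_max_left _ _)
    (H1'.mono ((le_max_left _ _).trans (le_max_right _ _)) (le_max_left _ _))
    (H2'.mono ((le_max_right _ _).trans (le_max_right _ _)) (le_max_right _ _))

theorem choiceT_of (hAP : APProp)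
    (hone : ∃ C Y0 : ℝ, 0 < C ∧ ∀ (u v Y : ℕ), 0 < u → Nat.Coprime v u →
      Y0 ≤ (Y : ℝ) → Y ≤ v →
      (((Finset.range Y).filter (fun x => (u * x + v).Prime)).card : ℝ) ≤
        C * ((u : ℝ) / Nat.totient u) * Y / Real.log Y)
    (hrefl : ∃ C Y0 : ℝ, 0 < C ∧ ∀ (u v N Y : ℕ), 0 < u → Even u → Nat.Coprime v u →
      Nat.Coprime (N - v) u → Y0 ≤ (Y : ℝ) → Y ≤ v → u * Y + v + Y ≤ N →
      (((Finset.range Y).filter (fun x => (u * x + v).Prime ∧ (N - (u * x + v)).Prime)).card : ℝ) ≤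
        C * ((u : ℝ) / Nat.totient u) ^ 2 *
          (∑ d ∈ N.divisors.filter (fun d => Nat.Coprime d u), (1 : ℝ) / d) * Y
          / (Real.log Y) ^ 2) : ChoiceT :=
  (choiceT2_of hAP hone hrefl).toT

end Pool.Agent.Work.MP_713a1e_co
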