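import Mathlib
import Pool.Agent.Work.MP_713a1e_co.Sieve

/-! Upper bound sieve for reflected prime pairs `ux + v`, `N - (ux + v)` in arithmetic
progressions, uniform in the modulus. -/

namespace Pool.Agent.Work.MP_713a1e_co

open Finset hiding dens
open Pool.Agent.Work.MP_40574a_nt.BrunHooley Pool.Agent.Work.MP_40574a_nt.Mertens
  Pool.Agent.Work.MP_40574a_nt.Params Pool.Agent.Work.MP_40574a_nt.Count

noncomputable section

/-- divisibility for a reflected pair of linear forms -/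
def dv3 (u v N : ℕ) (q x : ℕ) : Prop := q ∣ (u * x + v) ∨ q ∣ u * x + (v + (q - 1) * N)

instance (u v N q x : ℕ) : Decidable (dv3 u v N q x) := inferInstanceAs (Decidable (_ ∨ _))

lemma dv3_per (u v N : ℕ) (q x : ℕ) : dv3 u v N q x ↔ dv3 u v N q (x % q) := by
  unfold dv3
  refine or_congr ?_ ?_
  · refine Nat.ModEq.dvd_iff ?_ (dvd_refl q)
    exact ((Nat.mod_modEq x q).symm.mul_left u).add_right v
  · refine Nat.ModEq.dvd_iff ?_ (dvd_refl q)
    exact ((Nat.mod_modEq x q).symm.mul_left u).add_right _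

lemma refl_iff {q : ℕ} (hq : 1 ≤ q) (y N : ℕ) : q ∣ y + (q - 1) * N ↔ (q : ℤ) ∣ (N : ℤ) - y := by
  rw [← Int.natCast_dvd_natCast]
  push_cast [Nat.cast_sub hq]
  have : (y : ℤ) + ((q : ℤ) - 1) * N = -((N : ℤ) - y) + q * N := by ring
  rw [this, dvd_add_left (dvd_mul_right _ _), dvd_neg]

lemma R3_of_dvd {u v N q : ℕ} (hq : q.Prime) (hco : Nat.Coprime v u) (hvN : v ≤ N)
    (hco' : Nat.Coprime (N - v) u) (hqu : q ∣ u) : R (dv3 u v N) q = ∅ := by
  unfold R
  rw [filter_eq_empty_iff]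
  intro x _ h
  unfold dv3 at h
  rcases h with h | h
  · have h1 : q ∣ v := (Nat.dvd_add_right (hqu.mul_right x)).1 h
    have := Nat.dvd_gcd h1 hqu
    rw [hco] at this
    exact hq.one_lt.ne' (Nat.dvd_one.1 this)
  · have h1 := (Nat.dvd_add_right (hqu.mul_right x)).1 h
    rw [refl_iff hq.one_le, ← Nat.cast_sub hvN, Int.natCast_dvd_natCast] at h1
    have := Nat.dvd_gcd h1 hqu
    rw [hco'] at this
    exact hq.one_lt.ne' (Nat.dvd_one.1 this)

lemma R3_eq {u v N q : ℕ} (hq : q.Prime) (hqu : ¬ q ∣ u) :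
    ∃ x0 x1, x0 < q ∧ x1 < q ∧ q ∣ u * x0 + v ∧ q ∣ u * x1 + (v + (q - 1) * N) ∧
      R (dv3 u v N) q = {x0, x1} := by
  obtain ⟨x0, hx0, h0⟩ := root_exists hq hqu v
  obtain ⟨x1, hx1, h1⟩ := root_exists hq hqu (v + (q - 1) * N)
  refine ⟨x0, x1, hx0, hx1, (h0 x0 hx0).2 rfl, (h1 x1 hx1).2 rfl, ?_⟩
  ext x
  unfold R dv3
  rw [mem_filter, mem_range, mem_insert, mem_singleton]
  constructor
  · rintro ⟨h2, h3 | h3⟩
    · exact Or.inl ((h0 x h2).1 h3)
    · exact Or.inr ((h1 x h2).1 h3)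
  · rintro (rfl | rfl)
    · exact ⟨hx0, Or.inl ((h0 x hx0).2 rfl)⟩
    · exact ⟨hx1, Or.inr ((h1 x hx1).2 rfl)⟩

lemma R3_card_le {u v N q : ℕ} (hq : q.Prime) (hqu : ¬ q ∣ u) : (R (dv3 u v N) q).card ≤ 2 := by
  obtain ⟨x0, x1, _, _, _, _, h⟩ := R3_eq (v := v) (N := N) hq hqu
  rw [h]
  exact card_le_two

lemma R3_card_pos {u v N q : ℕ} (hq : q.Prime) (hqu : ¬ q ∣ u) :
    1 ≤ (R (dv3 u v N) q).card := by
  obtain ⟨x0, x1, _, _, _, _, h⟩ := R3_eq (v := v) (N := N) hq hqu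
  rw [h]
  exact card_pos.2 (insert_nonempty _ _)

lemma R3_card_eq {u v N q : ℕ} (hq : q.Prime) (hqu : ¬ q ∣ u) (hqN : ¬ q ∣ N) :
    (R (dv3 u v N) q).card = 2 := by
  obtain ⟨x0, x1, _, _, h0, h1, hR⟩ := R3_eq (v := v) (N := N) hq hqu
  rw [hR, card_pair]
  rintro rfl
  rw [← add_assoc] at h1
  have h2 := (Nat.dvd_add_right h0).1 h1
  rcases (Nat.Prime.dvd_mul hq).1 h2 with h3 | h3
  · have h4 := hq.two_le
    have h5 := Nat.le_of_dvd (by omega) h3
    omega
  · exact hqN h3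

lemma dens3_nonneg (u v N q : ℕ) : 0 ≤ dens (dv3 u v N) q := by unfold dens; positivity

lemma prod_dens3_le {u v N : ℕ} (hu : 0 < u) (hco : Nat.Coprime v u) (hvN : v ≤ N)
    (hco' : Nat.Coprime (N - v) u) (hN : 0 < N) {z : ℝ} (hz : 2 ≤ z) :
    ∏ q ∈ PB 1 z, (1 - dens (dv3 u v N) q) ≤ ((u : ℝ) / Nat.totient u) ^ 2 *
      (2 * ∑ d ∈ N.divisors.filter (fun d => Nat.Coprime d u), (1 : ℝ) / d) *
        (1 / Real.log z) ^ 2 := by
  have h1 : ∀ q ∈ PB 1 z, 1 - dens (dv3 u v N) q ≤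
      ((if q ∣ u then (1 - 1 / (q : ℝ))⁻¹ else 1) ^ 2 *
      (if q ∣ N ∧ ¬ q ∣ u then (1 - 1 / (q : ℝ))⁻¹ else 1)) * (1 - 1 / (q : ℝ)) ^ 2 := by
    intro q hq
    have hqp := PB_prime q hq
    have h0 := one_sub_inv_pos hqp
    have hq0 : (0 : ℝ) < q := by exact_mod_cast hqp.pos
    unfold dens
    by_cases hqu : q ∣ u
    · rw [R3_of_dvd hqp hco hvN hco' hqu, card_empty, Nat.cast_zero, zero_div, sub_zero, if_pos hqu,
        if_neg (by tauto), mul_one, ← mul_pow, inv_mul_cancel₀ h0.ne', one_pow]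
    · rw [if_neg hqu, one_pow, one_mul]
      by_cases hqh : q ∣ N
      · rw [if_pos ⟨hqh, hqu⟩, pow_two, ← mul_assoc, inv_mul_cancel₀ h0.ne', one_mul]
        have h2 : (1 : ℝ) ≤ ((R (dv3 u v N) q).card : ℝ) := by exact_mod_cast R3_card_pos hqp hqu
        have h3 : 1 / (q : ℝ) ≤ ((R (dv3 u v N) q).card : ℝ) / q := by gcongr
        linarith
      · rw [if_neg (by tauto), one_mul, R3_card_eq hqp hqu hqh]
        have h3 : 0 ≤ (1 / (q : ℝ)) ^ 2 := by positivity
        push_cast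
        have h4 : (2 : ℝ) / q = 2 * (1 / q) := by ring
        rw [h4]
        nlinarith
  have hlt : ∀ q ∈ PB 1 z, 0 ≤ 1 - dens (dv3 u v N) q := by
    intro q hq
    have hqp := PB_prime q hq
    have hq0 : (0 : ℝ) < q := by exact_mod_cast hqp.pos
    have h2 : (R (dv3 u v N) q).card ≤ q := by
      unfold R
      exact (card_filter_le _ _).trans (by rw [card_range])
    unfold dens
    have : ((R (dv3 u v N) q).card : ℝ) / q ≤ 1 := by
      rw [div_le_one hq0]; exact_mod_cast h2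
    linarith
  refine (prod_le_prod hlt h1).trans ?_
  rw [prod_mul_distrib, prod_mul_distrib, prod_pow, prod_pow]
  have hA : 0 ≤ ∏ q ∈ PB 1 z, (if q ∣ u then (1 - 1 / (q : ℝ))⁻¹ else 1) := by
    refine prod_nonneg fun q hq => ?_
    split_ifs
    · linarith [one_le_inv (PB_prime q hq)]
    · norm_num
  have hB : ∏ q ∈ PB 1 z, (if q ∣ N ∧ ¬ q ∣ u then (1 - 1 / (q : ℝ))⁻¹ else 1) ≤
      2 * ∑ d ∈ N.divisors.filter (fun d => Nat.Coprime d u), (1 : ℝ) / d := by
    refine le_trans ?_ (prod_inv_le_sum_divisors hN)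
    rw [prod_ite, prod_const_one, mul_one]
    refine prod_le_prod_subset ?_ fun q hq =>
      one_le_inv (Nat.prime_of_mem_primeFactors (mem_filter.1 hq).1)
    intro q hq
    rw [mem_filter] at hq
    exact mem_filter.2 ⟨Nat.mem_primeFactors.2 ⟨PB_prime q hq.1, hq.2.1, hN.ne'⟩, hq.2.2⟩
  have hB0 : 0 ≤ ∏ q ∈ PB 1 z, (if q ∣ N ∧ ¬ q ∣ u then (1 - 1 / (q : ℝ))⁻¹ else 1) := by
    refine prod_nonneg fun q hq => ?_
    split_ifs
    · linarith [one_le_inv (PB_prime q hq)]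
    · norm_num
  have hC0 : 0 ≤ ∏ q ∈ PB 1 z, (1 - 1 / (q : ℝ)) :=
    prod_nonneg fun q hq => (one_sub_inv_pos (PB_prime q hq)).le
  have hσ : 0 ≤ 2 * ∑ d ∈ N.divisors.filter (fun d => Nat.Coprime d u), (1 : ℝ) / d := by
    positivity
  refine mul_le_mul (mul_le_mul (pow_le_pow_left₀ hA (prod_split_le hu z) 2) hB hB0
    (by positivity)) (pow_le_pow_left₀ hC0 (mertens_third_upper hz) 2) (by positivity)
    (by positivity)

/-- Upper bound for reflected prime pairs in a progression, uniform in the modulus. -/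
theorem sieve_refl : ∃ C Y0 : ℝ, 0 < C ∧ ∀ (u v N Y : ℕ), 0 < u → Even u → Nat.Coprime v u →
    Nat.Coprime (N - v) u → Y0 ≤ (Y : ℝ) → Y ≤ v → u * Y + v + Y ≤ N →
    (((Finset.range Y).filter (fun x => (u * x + v).Prime ∧ (N - (u * x + v)).Prime)).card : ℝ) ≤
      C * ((u : ℝ) / Nat.totient u) ^ 2 *
        (∑ d ∈ N.divisors.filter (fun d => Nat.Coprime d u), (1 : ℝ) / d) * Y
        / (Real.log Y) ^ 2 := by
  obtain ⟨C1, z0, hC1, hz0, hbrun⟩ := brun_upper
  obtain ⟨Y0, hY0⟩ := exists_level C1 z0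
  refine ⟨2117, Y0, by norm_num, fun u v N Y hu hev hco hco' hY hYv hYN => ?_⟩
  obtain ⟨z, hz1, hz2, hzY, hlog, herr, hlY⟩ := hY0 Y hY
  have hYpos : (0 : ℝ) < Y := by linarith
  have hvN : v ≤ N := by
    have := Nat.le_add_left v (u * Y)
    omega
  have hNpos : 0 < N := by
    have : 0 < Y := by exact_mod_cast hYpos
    omega
  have hgood := good_interval (dv := dv3 u v N) (dv3_per u v N) (K := 4) (fun q hq => by
    by_cases hqu : q ∣ u
    · rw [R3_of_dvd hq hco hvN hco' hqu]; norm_num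
    · have := R3_card_le (v := v) (N := N) hq hqu
      exact_mod_cast this.trans (by norm_num)) 0 Y (Nat.zero_le Y)
  have hb := hbrun ℕ (Ico 0 Y) (dv3 u v N) (dens (dv3 u v N)) ((Y : ℝ) - ((0 : ℕ) : ℝ))
    (by simp) (dens3_nonneg u v N)
    (fun q hq => by
      have hq1 : (1 : ℝ) < q := by exact_mod_cast hq.one_lt
      unfold dens
      rw [div_lt_one (by linarith)]
      by_cases hqu : q ∣ u
      · rw [R3_of_dvd hq hco hvN hco' hqu]; simp; exact hq.pos
      · have h1 := R3_card_le (v := v) (N := N) hq hqu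
        have h2 : q ≠ 2 := by
          rintro rfl
          exact hqu hev.two_dvd
        have h3 : 2 < q := lt_of_le_of_ne hq.two_le (Ne.symm h2)
        exact_mod_cast lt_of_le_of_lt h1 h3)
    (fun q hq => by
      have hq1 : (1 : ℝ) < q := by exact_mod_cast hq.one_lt
      unfold dens
      rw [mul_one_div]
      by_cases hqu : q ∣ u
      · rw [R3_of_dvd hq hco hvN hco' hqu]; simp; positivity
      · have h1 := R3_card_le (v := v) (N := N) hq hqu
        gcongr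
        exact_mod_cast h1.trans (by norm_num))
    hgood z hz1 ((Finset.range Y).filter (fun x => (u * x + v).Prime ∧ (N - (u * x + v)).Prime))
    (by rw [← range_eq_Ico]; exact filter_subset _ _)
    (fun x hx q hq hqz hdv => by
      obtain ⟨hx1, hp, hp'⟩ := mem_filter.1 hx
      have h2 : (Y : ℝ) ≤ ((u * x + v : ℕ) : ℝ) := by
        exact_mod_cast hYv.trans (Nat.le_add_left _ _)
      unfold dv3 at hdv
      rcases hdv with hdv | hdv
      · have h1 := (Nat.prime_dvd_prime_iff_eq hq hp).1 hdv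
        rw [← h1] at h2
        linarith
      · have hxY : u * x ≤ u * Y := Nat.mul_le_mul_left u (mem_range.1 hx1).le
        have h5 : u * x + v ≤ N := by omega
        have h6 : (q : ℤ) ∣ ((N - (u * x + v) : ℕ) : ℤ) := by
          rw [Nat.cast_sub h5]
          rw [← add_assoc, refl_iff hq.one_le] at hdv
          exact hdv
        have h1 := (Nat.prime_dvd_prime_iff_eq hq hp').1 (Int.natCast_dvd_natCast.1 h6)
        have h7 : Y ≤ N - (u * x + v) := by omega
        have h3 : (Y : ℝ) ≤ ((N - (u * x + v) : ℕ) : ℝ) := by exact_mod_cast h7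
        rw [← h1] at h3
        linarith)
  have hP := prod_dens3_le hu hco hvN hco' hNpos hz2
  have hu1 := one_le_div_totient hu
  set U := (u : ℝ) / Nat.totient u with hU
  set σ := ∑ d ∈ N.divisors.filter (fun d => Nat.Coprime d u), (1 : ℝ) / d with hσ
  have hσ1 : 1 ≤ σ := by
    have : (1 : ℝ) / ((1 : ℕ) : ℝ) ≤ σ := by
      refine single_le_sum (f := fun d : ℕ => (1 : ℝ) / d) (fun d _ => by positivity) ?_
      exact mem_filter.2 ⟨Nat.one_mem_divisors.2 hNpos.ne', Nat.coprime_one_left u⟩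
    simpa using this
  rw [hlog] at hP
  have hl0 : 0 < Real.log Y := by linarith
  calc _ ≤ 2 * ((Y : ℝ) - ((0 : ℕ) : ℝ)) * ∏ q ∈ PB 1 z, (1 - dens (dv3 u v N) q) +
        C1 * z ^ 22 := hb
    _ ≤ 2 * (Y : ℝ) * (U ^ 2 * (2 * σ) * (1 / (Real.log Y / 23)) ^ 2) +
        Y / (Real.log Y) ^ 2 := by
        rw [Nat.cast_zero, sub_zero]
        gcongr
    _ ≤ 2116 * U ^ 2 * σ * Y / (Real.log Y) ^ 2 + U ^ 2 * σ * Y / (Real.log Y) ^ 2 := by
        have e1 : 2 * (Y : ℝ) * (U ^ 2 * (2 * σ) * (1 / (Real.log Y / 23)) ^ 2) =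
            2116 * U ^ 2 * σ * Y / (Real.log Y) ^ 2 := by
          field_simp
          ring
        have e2 : (Y : ℝ) / (Real.log Y) ^ 2 ≤ U ^ 2 * σ * Y / (Real.log Y) ^ 2 := by
          refine div_le_div_of_nonneg_right ?_ (by positivity)
          have h1 : 1 ≤ U ^ 2 := one_le_pow₀ hu1
          have h2 : 1 ≤ U ^ 2 * σ := by nlinarith
          nlinarith
        rw [e1]
        linarith
    _ = _ := by ring

end

end Pool.Agent.Work.MP_713a1e_co
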