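import Mathlib

/-! Paths in the prime sum graph, as sets that can be listed with adjacent sums prime. -/

namespace Pool.Agent.Work.MP_713a1e_co

open Finset

/-- adjacency in the prime sum graph -/
def Adj (x y : ℕ) : Prop := (x + y).Prime

lemma Adj.symm {x y : ℕ} (h : Adj x y) : Adj y x := by
  unfold Adj at *
  rwa [add_comm]

/-- `S` can be listed without repetition, from `a` to `b`, with prime adjacent sums. -/
def PathOn (S : Finset ℕ) (a b : ℕ) : Prop :=
  ∃ l : List ℕ, l.Nodup ∧ (∀ x, x ∈ l ↔ x ∈ S) ∧ l.head? = some a ∧ l.getLast? = some b ∧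
    l.IsChain Adj

lemma PathOn.single (a : ℕ) : PathOn {a} a a :=
  ⟨[a], by simp, by simp, rfl, rfl, by simp⟩

lemma PathOn.left_mem {S : Finset ℕ} {a b : ℕ} (h : PathOn S a b) : a ∈ S := by
  obtain ⟨l, -, h2, h3, -, -⟩ := h
  exact (h2 a).1 (List.mem_of_head? h3)

lemma PathOn.right_mem {S : Finset ℕ} {a b : ℕ} (h : PathOn S a b) : b ∈ S := by
  obtain ⟨l, -, h2, -, h4, -⟩ := h
  exact (h2 b).1 (List.mem_of_getLast? h4)

lemma PathOn.symm {S : Finset ℕ} {a b : ℕ} (h : PathOn S a b) : PathOn S b a := by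
  obtain ⟨l, h1, h2, h3, h4, h5⟩ := h
  refine ⟨l.reverse, List.nodup_reverse.2 h1, fun x => by rw [List.mem_reverse, h2], ?_, ?_, ?_⟩
  · rw [List.head?_reverse, h4]
  · rw [List.getLast?_reverse, h3]
  · rw [List.isChain_reverse]
    exact h5.imp fun x y h => h.symm

lemma PathOn.append {S T : Finset ℕ} {a b c d : ℕ} (h : PathOn S a b) (h' : PathOn T c d)
    (hd : Disjoint S T) (hbc : Adj b c) : PathOn (S ∪ T) a d := by
  obtain ⟨l, h1, h2, h3, h4, h5⟩ := h
  obtain ⟨l', h1', h2', h3', h4', h5'⟩ := h'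
  refine ⟨l ++ l', ?_, ?_, ?_, ?_, ?_⟩
  · rw [List.nodup_append]
    refine ⟨h1, h1', fun x hx y hy hxy => ?_⟩
    subst hxy
    exact (disjoint_left.1 hd) ((h2 x).1 hx) ((h2' x).1 hy)
  · intro x
    rw [List.mem_append, mem_union, h2, h2']
  · rw [List.head?_append, h3]; rfl
  · rw [List.getLast?_append, h4']; rfl
  · rw [List.isChain_append]
    refine ⟨h5, h5', fun x hx y hy => ?_⟩
    rw [h4] at hx
    rw [h3'] at hy
    simp only [Option.mem_def, Option.some.injEq] at hx hy
    subst hx; subst hy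
    exact hbc

/-- parity sign: `1` for odd numbers and `-1` for even ones -/
def sg (x : ℕ) : ℤ := if Odd x then 1 else -1

lemma sg_odd {x : ℕ} (h : Odd x) : sg x = 1 := if_pos h

lemma sg_even {x : ℕ} (h : Even x) : sg x = -1 := if_neg (by simpa using h)

lemma sg_cases (x : ℕ) : sg x = 1 ∨ sg x = -1 := by
  unfold sg
  split_ifs <;> simp

lemma sg_add {x y : ℕ} (h : Odd (x + y)) : sg x + sg y = 0 := by
  rcases Nat.even_or_odd x with hx | hx
  · have hy : Odd y := by
      rcases Nat.even_or_odd y with hy | hy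
      · exact absurd (hx.add hy) (by simpa using h)
      · exact hy
    rw [sg_even hx, sg_odd hy]; norm_num
  · have hy : Even y := by
      rcases Nat.even_or_odd y with hy | hy
      · exact hy
      · exact absurd (hx.add_odd hy) (by simpa using h)
    rw [sg_odd hx, sg_even hy]; norm_num

lemma Adj.odd {x y : ℕ} (h : Adj x y) (hx : 1 ≤ x) (hy : 1 ≤ y) (hxy : x ≠ y) : Odd (x + y) :=
  h.odd_of_ne_two (by omega)

lemma list_sg (l : List ℕ) : ∀ (a b : ℕ), l.Nodup → (∀ x ∈ l, 1 ≤ x) → l.head? = some a →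
    l.getLast? = some b → l.IsChain Adj → 2 * (l.map sg).sum = sg a + sg b := by
  induction l with
  | nil => intro a b _ _ h; simp at h
  | cons x l ih =>
    intro a b h1 h2 h3 h4 h5
    simp only [List.head?_cons, Option.some.injEq] at h3
    subst h3
    rcases l with _ | ⟨y, l⟩
    · simp only [List.getLast?_singleton, Option.some.injEq] at h4
      subst h4
      simp; ring
    · rw [List.isChain_cons_cons] at h5
      have h6 := ih y b (List.nodup_cons.1 h1).2 (fun z hz => h2 z (List.mem_cons_of_mem _ hz)) rfl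
        (by rw [List.getLast?_cons_cons] at h4; exact h4) h5.2
      have hxy : x ≠ y := by
        rintro rfl
        exact (List.nodup_cons.1 h1).1 (by simp)
      have h7 := sg_add (h5.1.odd (h2 x (by simp)) (h2 y (by simp)) hxy)
      rw [List.map_cons, List.sum_cons]
      linarith

lemma PathOn.sum_sg {S : Finset ℕ} {a b : ℕ} (h : PathOn S a b) (hS : ∀ x ∈ S, 1 ≤ x) :
    2 * ∑ x ∈ S, sg x = sg a + sg b := by
  obtain ⟨l, h1, h2, h3, h4, h5⟩ := h
  have hl : l.toFinset = S := by
    ext x; rw [List.mem_toFinset, h2]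
  rw [← list_sg l a b h1 (fun x hx => hS x ((h2 x).1 hx)) h3 h4 h5, ← hl,
    List.sum_toFinset _ h1]

lemma sum_sg_Icc (n : ℕ) : ∑ x ∈ Icc 1 n, sg x = 0 ∨ ∑ x ∈ Icc 1 n, sg x = 1 := by
  have : ∀ n : ℕ, ∑ x ∈ Icc 1 n, sg x = if Odd n then 1 else 0 := by
    intro n
    induction n with
    | zero => simp
    | succ n ih =>
      rw [sum_Icc_succ_top (by omega), ih]
      rcases Nat.even_or_odd n with h | h
      · rw [if_neg (by simpa using h), if_pos h.add_one, sg_odd h.add_one]; norm_num
      · have h' : Even (n + 1) := h.add_one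
        rw [if_pos h, if_neg (by simpa using h'), sg_even h']; norm_num
  rw [this]
  split_ifs <;> simp

end Pool.Agent.Work.MP_713a1e_co
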