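import Mathlib
import Pool.Agent.Work.MP_713a1e_co.Path

/-!
Definitions and module statements for the sharp logarithmic asymptotics
`R n = ((1 + o(1)) n / (e log n)) ^ n` of the number of prime pyramid rows.
-/

namespace Pool.Agent.Work.MP_713a1e_co.T3

open Finset Filter

noncomputable section

/-! ### Module M1 and M2: permanents -/

/-- weak van der Waerden bound -/
def VdW : Prop := ∀ (N : ℕ) (X : Matrix (Fin N) (Fin N) ℝ), (∀ i j, 0 ≤ X i j) →
  (∀ i, ∑ j, X i j = 1) → (∀ j, ∑ i, X i j = 1) → Real.exp (-(N : ℝ)) ≤ X.permanent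

/-- Bregman's bound for matrices with entries in `[0, 1]` -/
def BregW : Prop := ∀ (N : ℕ) (A : Matrix (Fin N) (Fin N) ℝ), (∀ i j, 0 ≤ A i j) →
  (∀ i j, A i j ≤ 1) → A.permanent ≤ ∏ i, ((∑ j, A i j + Real.log N + 3) / Real.exp 1)

/-! ### Module M6: finite injective relations -/

section relations
variable {α : Type*} [DecidableEq α]

/-- `E` is a partial injective function -/
def PInj (E : Finset (α × α)) : Prop :=
  (∀ a b c, (a, b) ∈ E → (a, c) ∈ E → b = c) ∧ (∀ a b c, (a, c) ∈ E → (b, c) ∈ E → a = b)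

/-- `E` has no cycle -/
def Acyc (E : Finset (α × α)) : Prop :=
  ∀ C : Finset α, C.Nonempty → ¬ ∀ a ∈ C, ∃ b ∈ C, (a, b) ∈ E

end relations

/-! ### Linear forests on `m + 1, ..., m + 2 N` -/

/-- odd vertices (for `m` even) -/
def yy (m i : ℕ) : ℕ := m + 1 + 2 * i

/-- even vertices (for `m` even) -/
def zz (m j : ℕ) : ℕ := m + 2 + 2 * j

/-- matchings between the `y_i` and the `z_j` -/
def IsM {N : ℕ} (M : Finset (Fin N × Fin N)) : Prop :=
  ∀ x ∈ M, ∀ y ∈ M, (x.1 = y.1 ∨ x.2 = y.2) → x = y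

/-- all edges are edges of the prime sum graph -/
def PrimeM (m : ℕ) {N : ℕ} (M : Finset (Fin N × Fin N)) : Prop :=
  ∀ x ∈ M, (yy m x.1 + zz m x.2).Prime

/-- the composite relation `y_i → z_j → y_i'` -/
def comp {N : ℕ} (M1 M2 : Finset (Fin N × Fin N)) : Finset (Fin N × Fin N) :=
  univ.filter (fun x => ∃ j, (x.1, j) ∈ M1 ∧ (x.2, j) ∈ M2)

/-- `M1` (edges `y_i → z_j`) and `M2` (edges `z_j → y_i`) form a directed linear forest with at most
`T` components; an edge of `M2` joins vertices covered by `M1` -/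
structure FP (m N T : ℕ) (M1 M2 : Finset (Fin N × Fin N)) : Prop where
  m1 : IsM M1
  m2 : IsM M2
  p1 : PrimeM m M1
  p2 : PrimeM m M2
  c1 : ∀ x ∈ M2, ∃ j, (x.1, j) ∈ M1
  c2 : ∀ x ∈ M2, ∃ i, (i, x.2) ∈ M1
  ac : Acyc (comp M1 M2)
  card : 2 * N ≤ M1.card + M2.card + T

/-- the components of a linear forest, as lists: chains `y z y z ... y z`, and the isolated
vertices -/
def Components (m N T : ℕ) (M1 M2 : Finset (Fin N × Fin N)) : Prop :=
  ∃ (L : List (List ℕ)) (a b : List ℕ),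
    (L.flatten ++ a ++ b).Perm (List.range' (m + 1) (2 * N)) ∧
    (∀ l ∈ L, l ≠ [] ∧ l.IsChain Adj ∧ (∀ x, l.head? = some x → Odd x) ∧
      (∀ x, l.getLast? = some x → Even x)) ∧
    (∀ x ∈ a, Odd x) ∧ (∀ x ∈ b, Even x) ∧ a.length = b.length ∧
    L.length + 2 * a.length ≤ T ∧
    (∀ i j : Fin N, (i, j) ∈ M1 ↔ ∃ l ∈ L, [yy m i, zz m j] <:+: l) ∧
    (∀ i j : Fin N, (i, j) ∈ M2 ↔ ∃ l ∈ L, [zz m j, yy m i] <:+: l)

/-! ### Module M7: counting forests -/

/-- the cut-off, an even number -/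
def mm (n : ℕ) : ℕ := 2 * ⌊(n : ℝ) / (2 * (Real.log n) ^ 2)⌋₊

/-- number of odd vertices -/
def NN (n : ℕ) : ℕ := (n - 1 - mm n) / 2

/-- number of components allowed -/
def TT (n : ℕ) : ℕ := ⌊(n : ℝ) / (Real.log n) ^ 4⌋₊

/-- number of missing edges -/
def KK (n : ℕ) : ℕ := ⌊(NN n : ℝ) / (Real.log n) ^ 5⌋₊

/-- weight of a matching -/
def wt {N : ℕ} (w : Matrix (Fin N) (Fin N) ℝ) (M : Finset (Fin N × Fin N)) : ℝ :=
  ∏ x ∈ M, w x.1 x.2

open Classical in
/-- the matchings with exactly `N - r` edges -/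
def MMr (N r : ℕ) : Finset (Finset (Fin N × Fin N)) :=
  (univ : Finset (Fin N × Fin N)).powerset.filter (fun M => IsM M ∧ M.card + r = N)

/-- a weight system: nonnegative weights on prime pairs, large total weight of nearly perfect
matchings, and the expected upper bound for partial matchings -/
structure WS (n m N k : ℕ) (w : Matrix (Fin N) (Fin N) ℝ) : Prop where
  nonneg : ∀ i j, 0 ≤ w i j
  prime : ∀ i j, w i j ≠ 0 → (yy m i + zz m j).Prime
  wmax : ∀ i j, w i j ≤ Real.log (2 * n) / (2 * N)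
  low : Real.exp (-(N : ℝ)) / 2 ≤ ∑ r ∈ range (k + 1), ∑ M ∈ MMr N r, wt w M
  up : ∀ r ≤ N, ∑ M ∈ MMr N r, wt w M ≤
    (N.choose r : ℝ) / r.factorial * (Real.exp (-(N : ℝ)) * (2 * N) ^ r)

/-- statement of M7a -/
def WSEv : Prop := ∀ᶠ n : ℕ in atTop, ∃ w, WS n (mm n) (NN n) (KK n) w

/-- statement of M7 (M7b and M7c) -/
def CountFP : Prop := ∀ ε : ℝ, 0 < ε → ε < 1 → ∀ᶠ n : ℕ in atTop,
  ((1 - ε) * n / (Real.exp 1 * Real.log n)) ^ n ≤
    (({M : Finset (Fin (NN n) × Fin (NN n)) × Finset (Fin (NN n) × Fin (NN n)) |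
      FP (mm n) (NN n) (TT n) M.1 M.2} : Set _).ncard : ℝ)

end

end Pool.Agent.Work.MP_713a1e_co.T3
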