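import Mathlib
import Pool.Agent.Work.MP_713a1e_co.T3Defs

/-!
A bound of Bregman's type for the permanent of a matrix with entries in `[0, 1]`:
`per A ≤ ∏ i, (r i + H + 2) / e`, where `r i` are the row sums and `H` is a harmonic number.
The proof is an induction over the size of the matrix; the row to be expanded is averaged over all
rows, and the entropy (Gibbs) inequality is used once for each row.
-/

namespace Pool.Agent.Work.MP_713a1e_co.T3

open Finset Equiv

noncomputable section

/-- the permutation sending `i` to `j` and acting as `τ` on the rest -/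
def ins {n : ℕ} (i j : Fin (n + 1)) (τ : Perm (Fin n)) : Perm (Fin (n + 1)) :=
  ((finSuccEquiv' i).trans (Equiv.optionCongr τ)).trans (finSuccEquiv' j).symm

lemma ins_self {n : ℕ} (i j : Fin (n + 1)) (τ : Perm (Fin n)) : ins i j τ i = j := by
  simp [ins]

lemma ins_succAbove {n : ℕ} (i j : Fin (n + 1)) (τ : Perm (Fin n)) (k : Fin n) :
    ins i j τ (i.succAbove k) = j.succAbove (τ k) := by
  simp [ins]

lemma ins_bij {n : ℕ} (i : Fin (n + 1)) :
    Function.Bijective (fun x : Fin (n + 1) × Perm (Fin n) => ins i x.1 x.2) := by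
  rw [Fintype.bijective_iff_injective_and_card]
  constructor
  · rintro ⟨j, τ⟩ ⟨j', τ'⟩ h
    simp only at h
    have h1 : j = j' := by
      rw [← ins_self i j τ, h, ins_self]
    subst h1
    have h2 : τ = τ' := by
      ext k
      have h3 := ins_succAbove i j τ k
      rw [h, ins_succAbove] at h3
      rw [Fin.succAbove_right_injective h3]
    rw [h2]
  · rw [Fintype.card_prod, Fintype.card_perm, Fintype.card_perm, Fintype.card_fin, Fintype.card_fin,
      Nat.factorial_succ]

/-- expansion of the permanent along a row -/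
lemma perm_row {n : ℕ} (A : Matrix (Fin (n + 1)) (Fin (n + 1)) ℝ) (i : Fin (n + 1)) :
    A.permanent = ∑ j, A i j * (A.submatrix i.succAbove j.succAbove).permanent := by
  have h0 : ∀ (m : ℕ) (B : Matrix (Fin m) (Fin m) ℝ), B.permanent = ∑ σ : Perm (Fin m), ∏ k, B k (σ k) := by
    intro m B
    rw [← Matrix.permanent_transpose, Matrix.permanent]
    rfl
  rw [h0]
  have h1 := Fintype.sum_bijective (fun x : Fin (n + 1) × Perm (Fin n) => ins i x.1 x.2) (ins_bij i)
    (fun x => ∏ k, A k (ins i x.1 x.2 k)) (fun σ => ∏ k, A k (σ k)) (fun x => rfl)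
  rw [← h1, Fintype.sum_prod_type]
  refine sum_congr rfl fun j _ => ?_
  rw [h0, mul_sum]
  refine sum_congr rfl fun τ _ => ?_
  rw [Fin.prod_univ_succAbove _ i, ins_self]
  congr 1
  refine prod_congr rfl fun k _ => ?_
  rw [ins_succAbove]
  rfl

/-- expansion of the permanent along a column -/
lemma perm_col {n : ℕ} (A : Matrix (Fin (n + 1)) (Fin (n + 1)) ℝ) (j : Fin (n + 1)) :
    A.permanent = ∑ i, A i j * (A.submatrix i.succAbove j.succAbove).permanent := by
  rw [← Matrix.permanent_transpose, perm_row _ j]
  refine sum_congr rfl fun i _ => ?_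
  rw [Matrix.transpose_apply, ← Matrix.permanent_transpose (A.submatrix i.succAbove j.succAbove)]
  rfl

lemma perm_nonneg {n : ℕ} {A : Matrix (Fin n) (Fin n) ℝ} (h : ∀ i j, 0 ≤ A i j) :
    0 ≤ A.permanent := by
  unfold Matrix.permanent
  exact sum_nonneg fun σ _ => prod_nonneg fun i _ => h _ _

/-- tangent line of the logarithm -/
lemma log_le_tangent {x T : ℝ} (hx : 0 < x) (hT : 0 < T) :
    Real.log x ≤ Real.log T + x / T - 1 := by
  have h := Real.log_le_sub_one_of_pos (div_pos hx hT)
  rw [Real.log_div hx.ne' hT.ne'] at h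
  linarith

/-- **Bregman's bound**, weak form, with entries in `[0, 1]` -/
theorem breg_aux (N : ℕ) : ∀ A : Matrix (Fin (N + 1)) (Fin (N + 1)) ℝ, (∀ i j, 0 ≤ A i j) →
    (∀ i j, A i j ≤ 1) →
    A.permanent ≤ ∏ i, ((∑ j, A i j + (2 + (harmonic N : ℝ))) / Real.exp 1) := by
  induction N with
  | zero =>
    intro A h0 h1
    have he : Real.exp 1 < 3 := by have := Real.exp_one_lt_d9; linarith
    rw [perm_row A 0, Fin.sum_univ_one, Matrix.permanent_isEmpty, mul_one, Fin.prod_univ_one,
      Fin.sum_univ_one, le_div_iff₀ (Real.exp_pos _)]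
    have h2 := h0 0 0
    have h3 := h1 0 0
    simp only [harmonic_zero, Rat.cast_zero, add_zero]
    nlinarith [Real.exp_pos 1]
  | succ N ih =>
    intro A h0 h1
    obtain ⟨c, hc⟩ : ∃ c : ℝ, c = 2 + (harmonic N : ℝ) := ⟨_, rfl⟩
    obtain ⟨d, hd⟩ : ∃ d : ℝ, d = 1 / ((N : ℝ) + 1) := ⟨_, rfl⟩
    have hd0 : 0 < d := by rw [hd]; positivity
    have hNd : ((N : ℝ) + 1) * d = 1 := by rw [hd]; field_simp
    have hc' : 2 + (harmonic (N + 1) : ℝ) = c + d := by
      rw [hc, hd, harmonic_succ]; push_cast; ring
    have hH : (0 : ℝ) ≤ (harmonic N : ℝ) := by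
      unfold harmonic
      push_cast
      positivity
    have hc0 : 0 < c := by rw [hc]; linarith
    rw [hc']
    rw [← hc] at ih
    obtain ⟨r, hr⟩ : ∃ r : Fin (N + 2) → ℝ, r = fun i => ∑ j, A i j := ⟨_, rfl⟩
    have hri : ∀ i, ∑ j, A i j = r i := fun i => by rw [hr]
    have hr0 : ∀ i, 0 ≤ r i := fun i => by rw [← hri]; exact sum_nonneg fun j _ => h0 i j
    have hAr : ∀ i j, A i j ≤ r i := fun i j => by
      rw [← hri]
      exact single_le_sum (f := fun j => A i j) (fun j _ => h0 i j) (mem_univ j)
    obtain ⟨T, hT⟩ : ∃ T : Fin (N + 2) → ℝ, T = fun i => r i + (c + d) := ⟨_, rfl⟩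
    have hTi : ∀ i, T i = r i + (c + d) := fun i => by rw [hT]
    have hT0 : ∀ i, 0 < T i := fun i => by rw [hTi]; have := hr0 i; positivity
    obtain ⟨P, hP⟩ : ∃ P : Fin (N + 2) → Fin (N + 2) → ℝ,
      P = fun i j => (A.submatrix i.succAbove j.succAbove).permanent := ⟨_, rfl⟩
    have hPij : ∀ i j, (A.submatrix i.succAbove j.succAbove).permanent = P i j := fun i j => by
      rw [hP]
    have hP0 : ∀ i j, 0 ≤ P i j := fun i j => by
      rw [← hPij]; exact perm_nonneg fun a b => h0 _ _
    obtain ⟨Q, hQ⟩ : ∃ Q : ℝ, Q = A.permanent := ⟨_, rfl⟩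
    have hQrow : ∀ i, Q = ∑ j, A i j * P i j := fun i => by
      rw [hQ, perm_row A i]; simp only [hPij]
    have hQcol : ∀ j, Q = ∑ i, A i j * P i j := fun j => by
      rw [hQ, perm_col A j]; simp only [hPij]
    have hQ0 : 0 ≤ Q := by rw [hQ]; exact perm_nonneg h0
    simp only [hri]
    rw [← hQ]
    rcases hQ0.eq_or_lt with hQz | hQpos
    · rw [← hQz]
      refine prod_nonneg fun i _ => ?_
      have := hr0 i
      positivity
    -- the probabilities
    obtain ⟨p, hp⟩ : ∃ p : Fin (N + 2) → Fin (N + 2) → ℝ, p = fun i j => A i j * P i j / Q :=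
      ⟨_, rfl⟩
    have hpij : ∀ i j, p i j = A i j * P i j / Q := fun i j => by rw [hp]
    have hp0 : ∀ i j, 0 ≤ p i j := fun i j => by
      rw [hpij]; exact div_nonneg (mul_nonneg (h0 i j) (hP0 i j)) hQ0
    have hprow : ∀ i, ∑ j, p i j = 1 := fun i => by
      rw [sum_congr rfl fun j _ => hpij i j, ← sum_div, ← hQrow, div_self hQpos.ne']
    have hpcol : ∀ j, ∑ i, p i j = 1 := fun j => by
      rw [sum_congr rfl fun i _ => hpij i j, ← sum_div, ← hQcol, div_self hQpos.ne']
    have hp1 : ∀ i j, p i j ≤ 1 := fun i j => by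
      rw [← hprow i]
      exact single_le_sum (f := fun j => p i j) (fun j _ => hp0 i j) (mem_univ j)
    have hppos : ∀ i j, 0 < p i j → 0 < A i j ∧ 0 < P i j := by
      intro i j h
      rw [hpij] at h
      have h2 : 0 < A i j * P i j := by
        by_contra h3
        have : A i j * P i j / Q ≤ 0 := div_nonpos_of_nonpos_of_nonneg (not_lt.1 h3) hQ0
        linarith
      refine ⟨?_, ?_⟩
      · rcases (h0 i j).eq_or_lt with h3 | h3
        · rw [← h3, zero_mul] at h2; exact absurd h2 (lt_irrefl _)
        · exact h3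
      · rcases (hP0 i j).eq_or_lt with h3 | h3
        · rw [← h3, mul_zero] at h2; exact absurd h2 (lt_irrefl _)
        · exact h3
    have hrpos : ∀ i, 0 < r i := by
      intro i
      by_contra h
      have h2 : r i = 0 := le_antisymm (not_lt.1 h) (hr0 i)
      have h3 : Q = 0 := by
        rw [hQrow i]
        refine sum_eq_zero fun j _ => ?_
        have h4 : A i j = 0 := le_antisymm (h2 ▸ hAr i j) (h0 i j)
        rw [h4, zero_mul]
      linarith
    -- (1) Gibbs
    have e1 : ∀ i, Real.log Q ≤ Real.log (r i) + ∑ j, p i j * Real.log (P i j) := by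
      intro i
      have h2 : ∀ j ∈ (univ : Finset (Fin (N + 2))), p i j - A i j / r i ≤
          p i j * (Real.log (r i) + Real.log (P i j) - Real.log Q) := by
        intro j _
        rcases (hp0 i j).eq_or_lt with h3 | h3
        · rw [← h3, zero_mul, zero_sub, neg_nonpos]
          exact div_nonneg (h0 i j) (hr0 i)
        · obtain ⟨hA, hPp⟩ := hppos i j h3
          have h4 := Real.one_sub_inv_le_log_of_pos (x := r i * P i j / Q)
            (div_pos (mul_pos (hrpos i) hPp) hQpos)
          rw [Real.log_div (mul_pos (hrpos i) hPp).ne' hQpos.ne',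
            Real.log_mul (hrpos i).ne' hPp.ne'] at h4
          have h5 : p i j - A i j / r i = p i j * (1 - (r i * P i j / Q)⁻¹) := by
            rw [hpij]
            have := hrpos i
            field_simp
          rw [h5]
          exact mul_le_mul_of_nonneg_left h4 h3.le
      have h3 := sum_le_sum h2
      rw [sum_sub_distrib, hprow, ← sum_div, hri, div_self (hrpos i).ne', sub_self] at h3
      have h4 : ∑ j, p i j * (Real.log (r i) + Real.log (P i j) - Real.log Q) =
          Real.log (r i) + ∑ j, p i j * Real.log (P i j) - Real.log Q := by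
        have h5 : ∀ j ∈ (univ : Finset (Fin (N + 2))),
            p i j * (Real.log (r i) + Real.log (P i j) - Real.log Q) =
            p i j * (Real.log (r i) - Real.log Q) + p i j * Real.log (P i j) := fun j _ => by ring
        rw [sum_congr rfl h5, sum_add_distrib, ← sum_mul, hprow]
        ring
      rw [h4] at h3
      linarith
    -- (2) induction
    obtain ⟨g, hg⟩ : ∃ g : Fin (N + 2) → Fin (N + 2) → ℝ,
      g = fun k j => Real.log (r k - A k j + c) - 1 := ⟨_, rfl⟩
    have hgi : ∀ k j, g k j = Real.log (r k - A k j + c) - 1 := fun k j => by rw [hg]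
    have e2 : ∀ i j, p i j * Real.log (P i j) ≤ p i j * (∑ k, g k j - g i j) := by
      intro i j
      rcases (hp0 i j).eq_or_lt with h3 | h3
      · rw [← h3, zero_mul, zero_mul]
      · obtain ⟨hA, hPp⟩ := hppos i j h3
        refine mul_le_mul_of_nonneg_left ?_ h3.le
        have h4 := ih (A.submatrix i.succAbove j.succAbove) (fun a b => h0 _ _) (fun a b => h1 _ _)
        rw [hPij] at h4
        have h5 : ∀ k' : Fin (N + 1), ∑ j', A.submatrix i.succAbove j.succAbove k' j' =
            r (i.succAbove k') - A (i.succAbove k') j := by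
          intro k'
          have h6 := hri (i.succAbove k')
          rw [Fin.sum_univ_succAbove _ j] at h6
          rw [← h6, add_sub_cancel_left]
          rfl
        simp only [h5] at h4
        have h7 : ∀ k' : Fin (N + 1), 0 < r (i.succAbove k') - A (i.succAbove k') j + c := by
          intro k'
          have := hAr (i.succAbove k') j
          linarith
        have h8 : Real.log (P i j) ≤ ∑ k' : Fin (N + 1), g (i.succAbove k') j := by
          refine (Real.log_le_log hPp h4).trans (le_of_eq ?_)
          rw [Real.log_prod fun k' _ => (div_pos (h7 k') (Real.exp_pos _)).ne']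
          refine sum_congr rfl fun k' _ => ?_
          rw [Real.log_div (h7 k').ne' (Real.exp_pos _).ne', Real.log_exp, hgi]
        rw [Fin.sum_univ_succAbove (fun k => g k j) i]
        linarith
    have e3 : ∑ i, ∑ j, p i j * Real.log (P i j) ≤ ∑ k, ∑ j, g k j * (1 - p k j) := by
      calc ∑ i, ∑ j, p i j * Real.log (P i j) ≤ ∑ i, ∑ j, p i j * (∑ k, g k j - g i j) :=
            sum_le_sum fun i _ => sum_le_sum fun j _ => e2 i j
        _ = ∑ j, ∑ i, p i j * (∑ k, g k j - g i j) := sum_comm
        _ = ∑ j, ∑ k, g k j * (1 - p k j) := by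
            refine sum_congr rfl fun j _ => ?_
            have h2 : ∀ i ∈ (univ : Finset (Fin (N + 2))), p i j * (∑ k, g k j - g i j) =
                p i j * (∑ k, g k j) - g i j * p i j := fun i _ => by ring
            rw [sum_congr rfl h2, sum_sub_distrib, ← sum_mul, hpcol, one_mul, ← sum_sub_distrib]
            exact sum_congr rfl fun k _ => by ring
        _ = ∑ k, ∑ j, g k j * (1 - p k j) := sum_comm
    -- (3) concavity
    have e4 : ∀ k, ∑ j, g k j * (1 - p k j) ≤ ((N : ℝ) + 1) * (Real.log (T k) - 1) - r k / T k := by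
      intro k
      have h2 : ∀ j ∈ (univ : Finset (Fin (N + 2))), g k j * (1 - p k j) ≤
          (Real.log (T k) - 1) * (1 - p k j) - (A k j * (1 - p k j) + d * (1 - p k j)) / T k := by
        intro j _
        have h3 : 0 ≤ 1 - p k j := by have := hp1 k j; linarith
        have h4 : 0 < r k - A k j + c := by have := hAr k j; linarith
        have h5 := log_le_tangent h4 (hT0 k)
        have h6 : g k j ≤ Real.log (T k) - 1 - (A k j + d) / T k := by
          rw [hgi]
          have h7 : (r k - A k j + c) / T k = 1 - (A k j + d) / T k := by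
            have := (hT0 k).ne'
            rw [eq_sub_iff_add_eq, ← add_div, div_eq_one_iff_eq this, hTi]
            ring
          rw [h7] at h5
          linarith
        calc g k j * (1 - p k j) ≤ (Real.log (T k) - 1 - (A k j + d) / T k) * (1 - p k j) := by
              gcongr
          _ = _ := by ring
      refine (sum_le_sum h2).trans ?_
      rw [sum_sub_distrib, ← mul_sum, ← sum_div, sum_add_distrib, ← mul_sum]
      have h3 : ∑ j, (1 - p k j) = (N : ℝ) + 1 := by
        rw [sum_sub_distrib, hprow, sum_const, card_univ, Fintype.card_fin, nsmul_eq_mul]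
        push_cast; ring
      have h4 : r k - 1 ≤ ∑ j, A k j * (1 - p k j) := by
        have h5 : ∀ j ∈ (univ : Finset (Fin (N + 2))), A k j - p k j ≤ A k j * (1 - p k j) := by
          intro j _
          have := h1 k j
          have := hp0 k j
          nlinarith
        have h6 := sum_le_sum h5
        rwa [sum_sub_distrib, hri, hprow] at h6
      rw [h3, mul_comm d, hNd]
      have h5 : r k / T k ≤ (∑ j, A k j * (1 - p k j) + 1) / T k :=
        div_le_div_of_nonneg_right (by linarith) (hT0 k).le
      have h6 : (Real.log (T k) - 1) * ((N : ℝ) + 1) = ((N : ℝ) + 1) * (Real.log (T k) - 1) := by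
        ring
      linarith
    -- (4)
    have e5 : ((N : ℝ) + 2) * Real.log Q ≤ ∑ k, ((N : ℝ) + 2) * (Real.log (T k) - 1) := by
      have h2 : ((N : ℝ) + 2) * Real.log Q = ∑ _i : Fin (N + 2), Real.log Q := by
        rw [sum_const, card_univ, Fintype.card_fin, nsmul_eq_mul]; push_cast; ring
      rw [h2]
      calc ∑ _i : Fin (N + 2), Real.log Q ≤
          ∑ i, (Real.log (r i) + ∑ j, p i j * Real.log (P i j)) := sum_le_sum fun i _ => e1 i
        _ = ∑ i, Real.log (r i) + ∑ i, ∑ j, p i j * Real.log (P i j) := sum_add_distrib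
        _ ≤ ∑ i, Real.log (r i) + ∑ k, ∑ j, g k j * (1 - p k j) := by gcongr
        _ = ∑ k, (Real.log (r k) + ∑ j, g k j * (1 - p k j)) := sum_add_distrib.symm
        _ ≤ ∑ k, ((N : ℝ) + 2) * (Real.log (T k) - 1) := by
          refine sum_le_sum fun k _ => ?_
          have h3 := log_le_tangent (hrpos k) (hT0 k)
          have h4 := e4 k
          linarith
    rw [← mul_sum] at e5
    have e6 : Real.log Q ≤ ∑ k, (Real.log (T k) - 1) :=
      le_of_mul_le_mul_left e5 (by positivity)
    have e7 : ∑ k, (Real.log (T k) - 1) = Real.log (∏ k, (T k / Real.exp 1)) := by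
      rw [Real.log_prod fun k _ => (div_pos (hT0 k) (Real.exp_pos _)).ne']
      refine sum_congr rfl fun k _ => ?_
      rw [Real.log_div (hT0 k).ne' (Real.exp_pos _).ne', Real.log_exp]
    rw [e7] at e6
    have e8 := (Real.log_le_log_iff hQpos
      (prod_pos fun k _ => div_pos (hT0 k) (Real.exp_pos _))).1 e6
    simp only [hTi] at e8
    exact e8

/-- **Bregman's bound**, the form used for prime pyramids -/
theorem bregW : BregW := by
  intro N A h0 h1
  rcases N with _ | N
  · rw [Matrix.permanent_isEmpty]
    simp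
  · refine (breg_aux N A h0 h1).trans ?_
    refine prod_le_prod (fun i _ => ?_) fun i _ => ?_
    · have hH : (0 : ℝ) ≤ (harmonic N : ℝ) := by
        unfold harmonic
        push_cast
        positivity
      have : 0 ≤ ∑ j, A i j := sum_nonneg fun j _ => h0 i j
      positivity
    · refine div_le_div_of_nonneg_right ?_ (Real.exp_pos _).le
      have h2 := harmonic_le_one_add_log N
      have h3 : Real.log N ≤ Real.log ((N + 1 : ℕ) : ℝ) := by
        rcases Nat.eq_zero_or_pos N with h | h
        · subst h; simp
        · apply Real.log_le_log (by exact_mod_cast h)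
          push_cast; linarith
      linarith

end

end Pool.Agent.Work.MP_713a1e_co.T3
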