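import Mathlib
import Pool.Agent.Work.MP_713a1e_co.Path

/-! Path covers and the descent. -/

namespace Pool.Agent.Work.MP_713a1e_co

open Finset

/-- `U` is a disjoint union of `k` paths. -/
def Cov : ℕ → Finset ℕ → Prop
  | 0, U => U = ∅
  | k + 1, U => ∃ (S : Finset ℕ) (a b : ℕ), PathOn S a b ∧ S ⊆ U ∧ Cov k (U \ S)

/-- `U` is a disjoint union of a path starting at `1` and `k` further paths. -/
def Cov1 (k : ℕ) (U : Finset ℕ) : Prop :=
  ∃ (S : Finset ℕ) (b : ℕ), PathOn S 1 b ∧ S ⊆ U ∧ Cov k (U \ S)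

lemma Cov.singletons (U : Finset ℕ) : Cov U.card U := by
  induction U using Finset.induction_on with
  | empty => simp [Cov]
  | insert a s ha ih =>
    rw [card_insert_of_notMem ha]
    refine ⟨{a}, a, a, PathOn.single a, by simp, ?_⟩
    have : insert a s \ {a} = s := by
      ext x; simp only [mem_sdiff, mem_insert, mem_singleton]
      constructor
      · rintro ⟨h1 | h1, h2⟩
        · exact absurd h1 h2
        · exact h1
      · intro h
        exact ⟨Or.inr h, fun h' => ha (h' ▸ h)⟩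
    rwa [this]

/-- Either some path has an end of the parity opposite to `s`, or all ends have parity `s`. -/
lemma Cov.pick (s : ℤ) : ∀ (k : ℕ) (U : Finset ℕ), (∀ x ∈ U, 1 ≤ x) → Cov k U →
    (∃ (S : Finset ℕ) (w c k' : ℕ), k = k' + 1 ∧ PathOn S w c ∧ sg w ≠ s ∧ S ⊆ U ∧ Cov k' (U \ S)) ∨
      2 * ∑ x ∈ U, sg x = 2 * k * s := by
  intro k
  induction k with
  | zero =>
    intro U _ h
    right
    rw [show U = ∅ from h]
    simp
  | succ k ih =>
    rintro U hU ⟨S, a, b, hP, hSU, hC⟩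
    by_cases ha : sg a = s
    · by_cases hb : sg b = s
      · rcases ih (U \ S) (fun x hx => hU x (mem_sdiff.1 hx).1) hC with
          ⟨S', w, c, k', hk, hP', hw, hS', hC'⟩ | h
        · left
          subst hk
          have hdis : Disjoint S S' := by
            rw [disjoint_left]
            intro x hx hx'
            exact (mem_sdiff.1 (hS' hx')).2 hx
          refine ⟨S', w, c, k' + 1, rfl, hP', hw, fun x hx => (mem_sdiff.1 (hS' hx)).1,
            S, a, b, hP, ?_, ?_⟩
          · intro x hx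
            exact mem_sdiff.2 ⟨hSU hx, disjoint_left.1 hdis hx⟩
          · have : (U \ S') \ S = (U \ S) \ S' := by
              ext x; simp only [mem_sdiff]; tauto
            rw [this]; exact hC'
        · right
          have h1 := hP.sum_sg (fun x hx => hU x (hSU hx))
          rw [← sum_sdiff hSU, mul_add, h, h1, ha, hb]
          push_cast
          ring
      · left
        exact ⟨S, b, a, k, rfl, hP.symm, hb, hSU, hC⟩
    · left
      exact ⟨S, a, b, k, rfl, hP, ha, hSU, hC⟩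

/-- The three operations available from level `m` to level `n`. -/
structure Level (n m : ℕ) : Prop where
  lt : m < n
  bridge : ∀ (X Y : Finset ℕ) (a v w c : ℕ), PathOn X a v → PathOn Y w c → X ⊆ Icc 1 m →
    Y ⊆ Icc 1 m → Disjoint X Y → Odd (v + w) → PathOn (X ∪ Y ∪ Icc (m + 1) n) a c
  extend : ∀ (X : Finset ℕ) (a v : ℕ), PathOn X a v → X ⊆ Icc 1 m →
    ∃ c, PathOn (X ∪ Icc (m + 1) n) a c
  final : ∀ z, PathOn (Icc 1 m) 1 z → PathOn (Icc 1 n) 1 n

lemma Icc_sdiff {n m : ℕ} (h : m < n) {V : Finset ℕ} (hV : V ⊆ Icc 1 m) :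
    Icc 1 n \ (V ∪ Icc (m + 1) n) = Icc 1 m \ V := by
  ext x
  simp only [mem_sdiff, mem_Icc, mem_union, not_or, not_and, not_le]
  constructor
  · rintro ⟨⟨h1, h2⟩, h3, h4⟩
    refine ⟨⟨h1, ?_⟩, h3⟩
    by_contra hc
    exact absurd (h4 (by omega)) (by omega)
  · rintro ⟨⟨h1, h2⟩, h3⟩
    exact ⟨⟨h1, by omega⟩, h3, fun h => by omega⟩

lemma Cov1.step {n m k : ℕ} (hL : Level n m) (h : Cov1 (k + 1) (Icc 1 m)) :
    Cov1 k (Icc 1 n) := by
  obtain ⟨X, z, hX, hXU, hC⟩ := h
  have hpos : ∀ x ∈ Icc 1 m, 1 ≤ x := fun x hx => (mem_Icc.1 hx).1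
  rcases Cov.pick (sg z) (k + 1) (Icc 1 m \ X) (fun x hx => hpos x (mem_sdiff.1 hx).1) hC with
    ⟨Y, w, c, k', hk, hY, hw, hYU, hC'⟩ | hbad
  · obtain rfl : k = k' := by omega
    have hYm : Y ⊆ Icc 1 m := fun x hx => (mem_sdiff.1 (hYU hx)).1
    have hdis : Disjoint X Y := by
      rw [disjoint_left]
      intro x hx hx'
      exact (mem_sdiff.1 (hYU hx')).2 hx
    have hodd : Odd (z + w) := by
      rcases Nat.even_or_odd z with hz | hz
      · rw [sg_even hz] at hw
        rcases Nat.even_or_odd w with hw' | hw'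
        · exact absurd (sg_even hw') hw
        · exact hz.add_odd hw'
      · rw [sg_odd hz] at hw
        rcases Nat.even_or_odd w with hw' | hw'
        · exact hz.add_even hw'
        · exact absurd (sg_odd hw') hw
    have hnew := hL.bridge X Y 1 z w c hX hY hXU hYm hdis hodd
    refine ⟨X ∪ Y ∪ Icc (m + 1) n, c, hnew, ?_, ?_⟩
    · intro x hx
      simp only [mem_union, mem_Icc] at hx ⊢
      have hlt := hL.lt
      rcases hx with (hx | hx) | hx
      · have := mem_Icc.1 (hXU hx); omega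
      · have := mem_Icc.1 (hYm hx); omega
      · omega
    · rw [Icc_sdiff hL.lt (union_subset hXU hYm)]
      have : Icc 1 m \ (X ∪ Y) = (Icc 1 m \ X) \ Y := by
        ext x; simp only [mem_sdiff, mem_union]; tauto
      rw [this]
      exact hC'
  · exfalso
    have h1 := hX.sum_sg (fun x hx => hpos x (hXU hx))
    have h2 := sum_sdiff (f := sg) hXU
    have h3 := sum_sg_Icc m
    rw [sg_odd odd_one] at h1
    rcases sg_cases z with hz | hz
    · rw [hz] at hbad h1
      push_cast at hbad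
      have hk : (0 : ℤ) ≤ k := Int.natCast_nonneg k
      rcases h3 with h3 | h3 <;> nlinarith
    · rw [hz] at hbad h1
      push_cast at hbad
      have hk : (0 : ℤ) ≤ k := Int.natCast_nonneg k
      rcases h3 with h3 | h3 <;> nlinarith

lemma Cov1.stay {n m : ℕ} (hL : Level n m) (h : Cov1 0 (Icc 1 m)) : Cov1 0 (Icc 1 n) := by
  obtain ⟨X, z, hX, hXU, hC⟩ := h
  have hC : Icc 1 m \ X = ∅ := hC
  obtain ⟨c, hc⟩ := hL.extend X 1 z hX hXU
  refine ⟨_, c, hc, ?_, ?_⟩
  · intro x hx
    simp only [mem_union, mem_Icc] at hx ⊢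
    have hlt := hL.lt
    rcases hx with hx | hx
    · have := mem_Icc.1 (hXU hx); omega
    · omega
  · change Icc 1 n \ _ = ∅
    rw [Icc_sdiff hL.lt hXU]
    exact hC

/-- The descent. -/
theorem descent (R n₀ : ℕ) (hR : 1 ≤ R)
    (hL : ∀ n, n₀ ≤ n → ∃ m, n ≤ R * m ∧ Level n m) :
    ∃ n₁, ∀ n, n₁ ≤ n → PathOn (Icc 1 n) 1 n := by
  -- a trivial cover
  have htriv : ∀ n, 1 ≤ n → Cov1 (n - 1) (Icc 1 n) := by
    intro n hn
    refine ⟨{1}, 1, PathOn.single 1, by simpa using hn, ?_⟩
    have h1 : (Icc 1 n \ {1}).card = n - 1 := by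
      rw [card_sdiff_of_subset (by simpa using hn)]
      simp
    rw [← h1]
    exact Cov.singletons _
  -- bounded cover number
  have hbd : ∀ n, 1 ≤ n → ∃ k ≤ n₀, Cov1 k (Icc 1 n) := by
    intro n
    induction n using Nat.strong_induction_on with
    | _ n ih =>
      intro hn
      rcases Nat.lt_or_ge n n₀ with h | h
      · exact ⟨n - 1, by omega, htriv n hn⟩
      · obtain ⟨m, hm, hLm⟩ := hL n h
        have hm1 : 1 ≤ m := by
          rcases Nat.eq_zero_or_pos m with h0 | h0
          · subst h0; omega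
          · exact h0
        obtain ⟨k, hk, hC⟩ := ih m hLm.lt hm1
        rcases k with _ | k
        · exact ⟨0, Nat.zero_le _, Cov1.stay hLm hC⟩
        · exact ⟨k, by omega, Cov1.step hLm hC⟩
  -- reduce the cover number
  have hred : ∀ j n, (n₀ + 1) * R ^ j ≤ n → ∃ k ≤ n₀ - j, Cov1 k (Icc 1 n) := by
    intro j
    induction j with
    | zero =>
      intro n hn
      rw [pow_zero, mul_one] at hn
      exact hbd n (by omega)
    | succ j ih =>
      intro n hn
      have hRj : 1 ≤ R ^ (j + 1) := Nat.one_le_pow _ _ (by omega)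
      have hn0 : n₀ + 1 ≤ n := le_trans (Nat.le_mul_of_pos_right _ hRj) hn
      obtain ⟨m, hm, hLm⟩ := hL n (by omega)
      have h1 : (n₀ + 1) * R ^ j ≤ m := by
        have : R * ((n₀ + 1) * R ^ j) ≤ R * m := by
          calc R * ((n₀ + 1) * R ^ j) = (n₀ + 1) * R ^ (j + 1) := by ring
            _ ≤ n := hn
            _ ≤ R * m := hm
        exact Nat.le_of_mul_le_mul_left this (by omega)
      obtain ⟨k, hk, hC⟩ := ih m h1
      rcases k with _ | k
      · exact ⟨0, Nat.zero_le _, Cov1.stay hLm hC⟩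
      · exact ⟨k, by omega, Cov1.step hLm hC⟩
  refine ⟨R * ((n₀ + 1) * R ^ n₀), fun n hn => ?_⟩
  have hR0 : 1 ≤ R ^ n₀ := Nat.one_le_pow _ _ (by omega)
  have hn0 : n₀ + 1 ≤ n := by
    refine le_trans (Nat.le_mul_of_pos_right _ hR0) (le_trans (Nat.le_mul_of_pos_left _ (by omega)) hn)
  obtain ⟨m, hm, hLm⟩ := hL n (by omega)
  have h1 : (n₀ + 1) * R ^ n₀ ≤ m := Nat.le_of_mul_le_mul_left (hn.trans hm) (by omega)
  obtain ⟨k, hk, hC⟩ := hred n₀ m h1
  obtain rfl : k = 0 := by omega
  obtain ⟨X, z, hX, hXU, hC⟩ := hC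
  have hC : Icc 1 m \ X = ∅ := hC
  have hXm : X = Icc 1 m := Subset.antisymm hXU (sdiff_eq_empty_iff_subset.1 hC)
  subst hXm
  exact hLm.final z hX

end Pool.Agent.Work.MP_713a1e_co
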