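import Mathlib
import Pool.Agent.Work.MP_713a1e_co.Cover

/-! From windows and prime chains to the operations of a level. -/

namespace Pool.Agent.Work.MP_713a1e_co

open Finset

lemma prime_sum_odd {v b : ℕ} (hv : 1 ≤ v) (hb : 2 ≤ b) (h : Adj v b) : Odd (v + b) :=
  h.odd_of_ne_two (by omega)

section level

variable {n m p K L : ℕ} {Ω : ℕ → Finset ℕ}

/-- absorbing windows at the right end of a path -/
lemma absorb (hp : p = n + m + 1) (hp2 : Odd p) (hm1 : 1 ≤ m) (hmn : m < n)
    (hΩ : ∀ i < L, ∀ x ∈ Ω i, PathOn (Ω i) x (p - x))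
    (hdis : ∀ i < L, ∀ j < L, i ≠ j → Disjoint (Ω i) (Ω j))
    (hun : (range L).biUnion Ω = Icc (m + 1) n)
    (hext : ∀ i < L, ∀ v, 1 ≤ v → v ≤ n → ∃ b ∈ Ω i, Adj v b)
    (I : Finset ℕ) (hI : I ⊆ range L) (X : Finset ℕ) (a v : ℕ) (hX : PathOn X a v)
    (hXn : X ⊆ Icc 1 m) :
    ∃ v', 1 ≤ v' ∧ v' ≤ n ∧ (Odd v' ↔ Odd v) ∧ PathOn (X ∪ I.biUnion Ω) a v' := by
  induction I using Finset.induction_on with
  | empty =>
    have h1 := mem_Icc.1 (hXn hX.right_mem)
    refine ⟨v, h1.1, by omega, Iff.rfl, ?_⟩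
    simpa using hX
  | insert i I hi ih =>
    obtain ⟨v', h1, h2, h3, h4⟩ := ih (fun j hj => hI (mem_insert_of_mem hj))
    have hiL : i < L := mem_range.1 (hI (mem_insert_self i I))
    obtain ⟨b, hb, hab⟩ := hext i hiL v' h1 h2
    have hbn : b ∈ Icc (m + 1) n := by
      rw [← hun]; exact mem_biUnion.2 ⟨i, mem_range.2 hiL, hb⟩
    rw [mem_Icc] at hbn
    have hodd := prime_sum_odd h1 (by omega) hab
    have hdisj : Disjoint (X ∪ I.biUnion Ω) (Ω i) := by
      rw [disjoint_union_left]
      constructor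
      · rw [disjoint_left]
        intro x hx hx'
        have h5 := mem_Icc.1 (hXn hx)
        have h6 : x ∈ Icc (m + 1) n := by
          rw [← hun]; exact mem_biUnion.2 ⟨i, mem_range.2 hiL, hx'⟩
        rw [mem_Icc] at h6
        omega
      · rw [disjoint_biUnion_left]
        intro j hj
        exact hdis j (mem_range.1 (hI (mem_insert_of_mem hj))) i hiL
          (fun h => hi (h ▸ hj))
    refine ⟨p - b, by omega, by omega, ?_, ?_⟩
    · rw [← h3]
      have h7 : p = (p - b) + b := by omega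
      rw [h7] at hp2
      rcases Nat.even_or_odd b with hb2 | hb2
      · have h8 : Odd (p - b) := by
          rcases Nat.even_or_odd (p - b) with h | h
          · exact absurd (h.add hb2) (by simpa using hp2)
          · exact h
        have h9 : Odd v' := by
          rcases Nat.even_or_odd v' with h | h
          · exact absurd (h.add hb2) (by simpa using hodd)
          · exact h
        simp [h8, h9]
      · have h8 : Even (p - b) := by
          rcases Nat.even_or_odd (p - b) with h | h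
          · exact h
          · exact absurd (h.add_odd hb2) (by simpa using hp2)
        have h9 : Even v' := by
          rcases Nat.even_or_odd v' with h | h
          · exact h
          · exact absurd (h.add_odd hb2) (by simpa using hodd)
        rw [← Nat.not_even_iff_odd, ← Nat.not_even_iff_odd]
        simp [h8, h9]
    · have := h4.append (hΩ i hiL b hb) hdisj hab
      rw [biUnion_insert]
      have h10 : X ∪ I.biUnion Ω ∪ Ω i = X ∪ (Ω i ∪ I.biUnion Ω) := by
        ext x; simp only [mem_union]; tauto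
      rwa [h10] at this

/-- running through the windows `1, ..., k` -/
lemma run (hL : K < L)
    (hΩ : ∀ i < L, ∀ x ∈ Ω i, PathOn (Ω i) x (p - x))
    (hdis : ∀ i < L, ∀ j < L, i ≠ j → Disjoint (Ω i) (Ω j))
    (X : Finset ℕ) (a v : ℕ) (hX : PathOn X a v)
    (hXd : ∀ i, 1 ≤ i → i ≤ K → Disjoint X (Ω i)) (b : ℕ → ℕ)
    (hb : ∀ i, 1 ≤ i → i ≤ K → b i ∈ Ω i) (h1 : Adj v (b 1))
    (hbb : ∀ i, 1 ≤ i → i < K → Adj (p - b i) (b (i + 1))) :
    ∀ k, 1 ≤ k → k ≤ K → PathOn (X ∪ (Icc 1 k).biUnion Ω) a (p - b k) := by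
  intro k
  induction k with
  | zero => intro h; omega
  | succ k ih =>
    intro _ hk
    rcases Nat.eq_zero_or_pos k with h0 | h0
    · subst h0
      have := hX.append (hΩ 1 (by omega) _ (hb 1 le_rfl hk)) (hXd 1 le_rfl hk) h1
      simpa using this
    · have h2 := ih h0 (by omega)
      have hdisj : Disjoint (X ∪ (Icc 1 k).biUnion Ω) (Ω (k + 1)) := by
        rw [disjoint_union_left]
        refine ⟨hXd _ (by omega) hk, ?_⟩
        rw [disjoint_biUnion_left]
        intro j hj
        rw [mem_Icc] at hj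
        exact hdis j (by omega) (k + 1) (by omega) (by omega)
      have h3 := h2.append (hΩ (k + 1) (by omega) _ (hb (k + 1) (by omega) hk)) hdisj
        (hbb k h0 (by omega))
      have h4 : Icc 1 (k + 1) = insert (k + 1) (Icc 1 k) := by
        ext x; simp only [mem_Icc, mem_insert]; omega
      rw [h4, biUnion_insert]
      have h10 : X ∪ (Icc 1 k).biUnion Ω ∪ Ω (k + 1) =
          X ∪ (Ω (k + 1) ∪ (Icc 1 k).biUnion Ω) := by
        ext x; simp only [mem_union]; tauto
      rwa [h10] at h3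

/-- linking two paths -/
lemma link (hK : 1 ≤ K) (hL : K < L)
    (hΩ : ∀ i < L, ∀ x ∈ Ω i, PathOn (Ω i) x (p - x))
    (hdis : ∀ i < L, ∀ j < L, i ≠ j → Disjoint (Ω i) (Ω j))
    (hop : ∀ v w, 1 ≤ v → v ≤ n → 1 ≤ w → w ≤ n → Odd v → Even w → ∃ b : ℕ → ℕ,
      (∀ i, 1 ≤ i → i ≤ K → b i ∈ Ω i) ∧ Adj v (b 1) ∧
      (∀ i, 1 ≤ i → i < K → Adj (p - b i) (b (i + 1))) ∧ Adj (p - b K) w)
    (X Y : Finset ℕ) (a v w c : ℕ) (hX : PathOn X a v) (hY : PathOn Y w c)
    (hv1 : 1 ≤ v) (hvn : v ≤ n) (hw1 : 1 ≤ w) (hwn : w ≤ n) (hodd : Odd (v + w))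
    (hXY : Disjoint X Y) (hXd : ∀ i, 1 ≤ i → i ≤ K → Disjoint X (Ω i))
    (hYd : ∀ i, 1 ≤ i → i ≤ K → Disjoint Y (Ω i)) :
    PathOn (X ∪ Y ∪ (Icc 1 K).biUnion Ω) a c := by
  have main : ∀ (X Y : Finset ℕ) (a v w c : ℕ), PathOn X a v → PathOn Y w c →
      1 ≤ v → v ≤ n → 1 ≤ w → w ≤ n → Odd v → Even w →
      Disjoint X Y → (∀ i, 1 ≤ i → i ≤ K → Disjoint X (Ω i)) →
      (∀ i, 1 ≤ i → i ≤ K → Disjoint Y (Ω i)) →
      PathOn (X ∪ Y ∪ (Icc 1 K).biUnion Ω) a c := by
    intro X Y a v w c hX hY hv1 hvn hw1 hwn hv hw hXY hXd hYd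
    obtain ⟨b, hb, h1, hbb, hlast⟩ := hop v w hv1 hvn hw1 hwn hv hw
    have h2 := run hL hΩ hdis X a v hX hXd b hb h1 hbb K hK le_rfl
    have hdisj : Disjoint (X ∪ (Icc 1 K).biUnion Ω) Y := by
      rw [disjoint_union_left]
      refine ⟨hXY, ?_⟩
      rw [disjoint_biUnion_left]
      intro j hj
      rw [mem_Icc] at hj
      exact (hYd j hj.1 hj.2).symm
    have h3 := h2.append hY hdisj hlast
    have h10 : X ∪ (Icc 1 K).biUnion Ω ∪ Y = X ∪ Y ∪ (Icc 1 K).biUnion Ω := by
      ext x; simp only [mem_union]; tauto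
    rwa [h10] at h3
  rcases Nat.even_or_odd v with hv | hv
  · have hw : Odd w := by
      rcases Nat.even_or_odd w with h | h
      · exact absurd (hv.add h) (by simpa using hodd)
      · exact h
    have := (main Y X c w v a hY.symm hX.symm hw1 hwn hv1 hvn hw hv hXY.symm hYd hXd).symm
    rwa [union_comm Y X] at this
  · have hw : Even w := by
      rcases Nat.even_or_odd w with h | h
      · exact h
      · exact absurd (hv.add_odd h) (by simpa using hodd)
    exact main X Y a v w c hX hY hv1 hvn hw1 hwn hv hw hXY hXd hYd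

theorem level_of (hp : p = n + m + 1) (hp2 : Odd p) (hm1 : 1 ≤ m) (hmn : m < n)
    (hK : 1 ≤ K) (hL : K + 1 ≤ L)
    (hΩ : ∀ i < L, ∀ x ∈ Ω i, PathOn (Ω i) x (p - x))
    (hdis : ∀ i < L, ∀ j < L, i ≠ j → Disjoint (Ω i) (Ω j))
    (hun : (range L).biUnion Ω = Icc (m + 1) n)
    (hspec : ∃ s < L, (s = 0 ∨ K < s) ∧ m + 1 ∈ Ω s)
    (hext : ∀ i < L, ∀ v, 1 ≤ v → v ≤ n → ∃ b ∈ Ω i, Adj v b)
    (hop : ∀ v w, 1 ≤ v → v ≤ n → 1 ≤ w → w ≤ n → Odd v → Even w → ∃ b : ℕ → ℕ,
      (∀ i, 1 ≤ i → i ≤ K → b i ∈ Ω i) ∧ Adj v (b 1) ∧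
      (∀ i, 1 ≤ i → i < K → Adj (p - b i) (b (i + 1))) ∧ Adj (p - b K) w) :
    Level n m := by
  have hsub : ∀ i < L, Ω i ⊆ Icc (m + 1) n := by
    intro i hi x hx
    rw [← hun]; exact mem_biUnion.2 ⟨i, mem_range.2 hi, hx⟩
  have hlow : ∀ i < L, ∀ Z ⊆ Icc 1 m, Disjoint Z (Ω i) := by
    intro i hi Z hZ
    rw [disjoint_left]
    intro x hx hx'
    have h1 := mem_Icc.1 (hZ hx)
    have h2 := mem_Icc.1 (hsub i hi hx')
    omega
  refine ⟨hmn, ?_, ?_, ?_⟩
  · intro X Y a v w c hX hY hXm hYm hXY hodd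
    set I := (range L).filter (fun i => i = 0 ∨ K < i) with hI
    obtain ⟨v', h1, h2, h3, h4⟩ := absorb hp hp2 hm1 hmn hΩ hdis hun hext I
      (filter_subset _ _) X a v hX hXm
    have hw := mem_Icc.1 (hYm hY.left_mem)
    have hodd' : Odd (v' + w) := by
      rw [Nat.odd_add] at hodd ⊢
      rw [h3]; exact hodd
    have h5 := link (n := n) hK (by omega) hΩ hdis hop (X ∪ I.biUnion Ω) Y a v' w c h4 hY h1 h2
      hw.1 (by omega) hodd' ?_ ?_ ?_
    · have : X ∪ I.biUnion Ω ∪ Y ∪ (Icc 1 K).biUnion Ω = X ∪ Y ∪ Icc (m + 1) n := by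
        rw [← hun]
        ext x
        simp only [mem_union, mem_biUnion, hI, mem_filter, mem_range, mem_Icc]
        constructor
        · rintro (((h | ⟨i, hi, hx⟩) | h) | ⟨i, hi, hx⟩)
          · exact Or.inl (Or.inl h)
          · exact Or.inr ⟨i, hi.1, hx⟩
          · exact Or.inl (Or.inr h)
          · exact Or.inr ⟨i, by omega, hx⟩
        · rintro ((h | h) | ⟨i, hi, hx⟩)
          · exact Or.inl (Or.inl (Or.inl h))
          · exact Or.inl (Or.inr h)
          · rcases Nat.lt_or_ge K i with h | h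
            · exact Or.inl (Or.inl (Or.inr ⟨i, ⟨hi, Or.inr h⟩, hx⟩))
            · rcases Nat.eq_zero_or_pos i with h0 | h0
              · exact Or.inl (Or.inl (Or.inr ⟨i, ⟨hi, Or.inl h0⟩, hx⟩))
              · exact Or.inr ⟨i, ⟨h0, h⟩, hx⟩
      rwa [this] at h5
    · rw [disjoint_union_left]
      refine ⟨hXY, ?_⟩
      rw [disjoint_biUnion_left]
      intro j hj
      exact (hlow j (mem_range.1 (mem_filter.1 hj).1) Y hYm).symm
    · intro i hi1 hiK
      rw [disjoint_union_left]
      refine ⟨hlow i (by omega) X hXm, ?_⟩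
      rw [disjoint_biUnion_left]
      intro j hj
      rw [hI, mem_filter, mem_range] at hj
      exact hdis j hj.1 i (by omega) (by omega)
    · intro i hi1 hiK
      exact hlow i (by omega) Y hYm
  · intro X a v hX hXm
    obtain ⟨v', -, -, -, h4⟩ := absorb hp hp2 hm1 hmn hΩ hdis hun hext (range L)
      subset_rfl X a v hX hXm
    rw [hun] at h4
    exact ⟨v', h4⟩
  · intro z hz
    obtain ⟨s, hsL, hs, hms⟩ := hspec
    set I := (range L).filter (fun i => (i = 0 ∨ K < i) ∧ i ≠ s) with hI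
    obtain ⟨v', h1, h2, h3, h4⟩ := absorb hp hp2 hm1 hmn hΩ hdis hun hext I
      (filter_subset _ _) (Icc 1 m) 1 z hz subset_rfl
    have hY := hΩ s hsL (m + 1) hms
    rw [show p - (m + 1) = n by omega] at hY
    have hpar : Odd (z + (m + 1)) := by
      have h5 := hz.sum_sg (fun x hx => (mem_Icc.1 hx).1)
      rw [sg_odd odd_one] at h5
      have h6 : ∀ n : ℕ, ∑ x ∈ Icc 1 n, sg x = if Odd n then 1 else 0 := by
        intro n
        induction n with
        | zero => simp
        | succ n ih =>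
          rw [sum_Icc_succ_top (by omega), ih]
          rcases Nat.even_or_odd n with h | h
          · rw [if_neg (by simpa using h), if_pos h.add_one, sg_odd h.add_one]; norm_num
          · have h' : Even (n + 1) := h.add_one
            rw [if_pos h, if_neg (by simpa using h'), sg_even h']; norm_num
      rw [h6] at h5
      rcases Nat.even_or_odd m with hm | hm
      · rw [if_neg (by simpa using hm)] at h5
        have hze : Even z := by
          by_contra hcon
          rw [Nat.not_even_iff_odd] at hcon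
          rw [sg_odd hcon] at h5
          norm_num at h5
        exact hze.add_odd hm.add_one
      · rw [if_pos hm] at h5
        have hzo : Odd z := by
          by_contra hcon
          rw [Nat.not_odd_iff_even] at hcon
          rw [sg_even hcon] at h5
          norm_num at h5
        exact hzo.add_even hm.add_one
    have hodd' : Odd (v' + (m + 1)) := by
      rw [Nat.odd_add] at hpar ⊢
      rw [h3]; exact hpar
    have h5 := link (n := n) hK (by omega) hΩ hdis hop (Icc 1 m ∪ I.biUnion Ω) (Ω s) 1 v' (m + 1) n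
      h4 hY h1 h2 (by omega) (by omega) hodd' ?_ ?_ ?_
    · have : Icc 1 m ∪ I.biUnion Ω ∪ Ω s ∪ (Icc 1 K).biUnion Ω = Icc 1 n := by
        have h7 : Icc 1 n = Icc 1 m ∪ Icc (m + 1) n := by
          ext x; simp only [mem_Icc, mem_union]; omega
        rw [h7, ← hun]
        ext x
        simp only [mem_union, mem_biUnion, hI, mem_filter, mem_range, mem_Icc]
        constructor
        · rintro (((h | ⟨i, hi, hx⟩) | h) | ⟨i, hi, hx⟩)
          · exact Or.inl h
          · exact Or.inr ⟨i, hi.1, hx⟩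
          · exact Or.inr ⟨s, hsL, h⟩
          · exact Or.inr ⟨i, by omega, hx⟩
        · rintro (h | ⟨i, hi, hx⟩)
          · exact Or.inl (Or.inl (Or.inl h))
          · by_cases his : i = s
            · subst his
              exact Or.inl (Or.inr hx)
            · rcases Nat.lt_or_ge K i with h | h
              · exact Or.inl (Or.inl (Or.inr ⟨i, ⟨hi, Or.inr h, his⟩, hx⟩))
              · rcases Nat.eq_zero_or_pos i with h0 | h0
                · exact Or.inl (Or.inl (Or.inr ⟨i, ⟨hi, Or.inl h0, his⟩, hx⟩))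
                · exact Or.inr ⟨i, ⟨h0, h⟩, hx⟩
      rwa [this] at h5
    · rw [disjoint_union_left]
      refine ⟨hlow s hsL _ subset_rfl, ?_⟩
      rw [disjoint_biUnion_left]
      intro j hj
      rw [hI, mem_filter, mem_range] at hj
      exact hdis j hj.1 s hsL hj.2.2
    · intro i hi1 hiK
      rw [disjoint_union_left]
      refine ⟨hlow i (by omega) _ subset_rfl, ?_⟩
      rw [disjoint_biUnion_left]
      intro j hj
      rw [hI, mem_filter, mem_range] at hj
      exact hdis j hj.1 i (by omega) (by omega)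
    · intro i hi1 hiK
      exact hdis s hsL i (by omega) (by omega)

/-- the last level: everything except the special window -/
theorem pfx_of {s : ℕ} (hp : p = n + m + 1) (hp2 : Odd p) (hm1 : 1 ≤ m) (hmn : m < n)
    (hK : 1 ≤ K) (hL : K + 1 ≤ L)
    (hΩ : ∀ i < L, ∀ x ∈ Ω i, PathOn (Ω i) x (p - x))
    (hdis : ∀ i < L, ∀ j < L, i ≠ j → Disjoint (Ω i) (Ω j))
    (hun : (range L).biUnion Ω = Icc (m + 1) n)
    (hsL : s < L) (hs : s = 0 ∨ K < s) (hms : m + 1 ∈ Ω s)
    (hext : ∀ i < L, ∀ v, 1 ≤ v → v ≤ n → ∃ b ∈ Ω i, Adj v b)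
    (hop : ∀ v w, 1 ≤ v → v ≤ n → 1 ≤ w → w ≤ n → Odd v → Even w → ∃ b : ℕ → ℕ,
      (∀ i, 1 ≤ i → i ≤ K → b i ∈ Ω i) ∧ Adj v (b 1) ∧
      (∀ i, 1 ≤ i → i < K → Adj (p - b i) (b (i + 1))) ∧ Adj (p - b K) w)
    (z : ℕ) (hz : PathOn (Icc 1 m) 1 z) :
    PathOn (Icc 1 n \ (Ω s).erase (m + 1)) 1 (m + 1) := by
  have hsub : ∀ i < L, Ω i ⊆ Icc (m + 1) n := by
    intro i hi x hx
    rw [← hun]; exact mem_biUnion.2 ⟨i, mem_range.2 hi, hx⟩
  have hlow : ∀ i < L, ∀ Z ⊆ Icc 1 m, Disjoint Z (Ω i) := by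
    intro i hi Z hZ
    rw [disjoint_left]
    intro x hx hx'
    have h1 := mem_Icc.1 (hZ hx)
    have h2 := mem_Icc.1 (hsub i hi hx')
    omega
  set I := (range L).filter (fun i => (i = 0 ∨ K < i) ∧ i ≠ s) with hI
  obtain ⟨v', h1, h2, h3, h4⟩ := absorb hp hp2 hm1 hmn hΩ hdis hun hext I
    (filter_subset _ _) (Icc 1 m) 1 z hz subset_rfl
  have hY : PathOn {m + 1} (m + 1) (m + 1) := PathOn.single (m + 1)
  have hpar : Odd (z + (m + 1)) := by
    have h5 := hz.sum_sg (fun x hx => (mem_Icc.1 hx).1)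
    rw [sg_odd odd_one] at h5
    have h6 : ∀ n : ℕ, ∑ x ∈ Icc 1 n, sg x = if Odd n then 1 else 0 := by
      intro n
      induction n with
      | zero => simp
      | succ n ih =>
        rw [sum_Icc_succ_top (by omega), ih]
        rcases Nat.even_or_odd n with h | h
        · rw [if_neg (by simpa using h), if_pos h.add_one, sg_odd h.add_one]; norm_num
        · have h' : Even (n + 1) := h.add_one
          rw [if_pos h, if_neg (by simpa using h'), sg_even h']; norm_num
    rw [h6] at h5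
    rcases Nat.even_or_odd m with hm | hm
    · rw [if_neg (by simpa using hm)] at h5
      have hze : Even z := by
        by_contra hcon
        rw [Nat.not_even_iff_odd] at hcon
        rw [sg_odd hcon] at h5
        norm_num at h5
      exact hze.add_odd hm.add_one
    · rw [if_pos hm] at h5
      have hzo : Odd z := by
        by_contra hcon
        rw [Nat.not_odd_iff_even] at hcon
        rw [sg_even hcon] at h5
        norm_num at h5
      exact hzo.add_even hm.add_one
  have hodd' : Odd (v' + (m + 1)) := by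
    rw [Nat.odd_add] at hpar ⊢
    rw [h3]; exact hpar
  have hnotin : ∀ i < L, i ≠ s → m + 1 ∉ Ω i := by
    intro i hi his hmem
    exact disjoint_left.1 (hdis i hi s hsL his) hmem hms
  have h5 := link (n := n) hK (by omega) hΩ hdis hop (Icc 1 m ∪ I.biUnion Ω) {m + 1} 1 v' (m + 1)
    (m + 1) h4 hY h1 h2 (by omega) (by omega) hodd' ?_ ?_ ?_
  · have : Icc 1 m ∪ I.biUnion Ω ∪ {m + 1} ∪ (Icc 1 K).biUnion Ω =
        Icc 1 n \ (Ω s).erase (m + 1) := by
      ext x
      simp only [mem_union, mem_biUnion, hI, mem_filter, mem_range, mem_Icc, mem_singleton,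
        mem_sdiff, mem_erase, not_and]
      constructor
      · rintro (((h | ⟨i, hi, hx⟩) | h) | ⟨i, hi, hx⟩)
        · refine ⟨by omega, fun _ hx => ?_⟩
          have := mem_Icc.1 (hsub s hsL hx)
          omega
        · have := mem_Icc.1 (hsub i hi.1 hx)
          exact ⟨by omega, fun _ hx' => disjoint_left.1 (hdis i hi.1 s hsL hi.2.2) hx hx'⟩
        · exact ⟨by omega, fun h' => absurd h h'⟩
        · have := mem_Icc.1 (hsub i (by omega) hx)
          exact ⟨by omega, fun _ hx' => disjoint_left.1 (hdis i (by omega) s hsL (by omega)) hx hx'⟩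
      · rintro ⟨h6, h7⟩
        rcases Nat.lt_or_ge m x with h8 | h8
        · by_cases h9 : x = m + 1
          · exact Or.inl (Or.inr h9)
          · have h10 : x ∈ (range L).biUnion Ω := by
              rw [hun]; exact mem_Icc.2 ⟨by omega, by omega⟩
            obtain ⟨i, hi, hx⟩ := mem_biUnion.1 h10
            rw [mem_range] at hi
            have his : i ≠ s := fun h => h7 h9 (h ▸ hx)
            rcases Nat.lt_or_ge K i with h | h
            · exact Or.inl (Or.inl (Or.inr ⟨i, ⟨hi, Or.inr h, his⟩, hx⟩))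
            · rcases Nat.eq_zero_or_pos i with h0 | h0
              · exact Or.inl (Or.inl (Or.inr ⟨i, ⟨hi, Or.inl h0, his⟩, hx⟩))
              · exact Or.inr ⟨i, ⟨h0, h⟩, hx⟩
        · exact Or.inl (Or.inl (Or.inl (by omega)))
    rwa [this] at h5
  · rw [disjoint_singleton_right, mem_union, not_or]
    constructor
    · rw [mem_Icc]; omega
    · rw [mem_biUnion]
      rintro ⟨i, hi, hx⟩
      rw [hI, mem_filter, mem_range] at hi
      exact hnotin i hi.1 hi.2.2 hx
  · intro i hi1 hiK
    rw [disjoint_union_left]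
    refine ⟨hlow i (by omega) _ subset_rfl, ?_⟩
    rw [disjoint_biUnion_left]
    intro j hj
    rw [hI, mem_filter, mem_range] at hj
    exact hdis j hj.1 i (by omega) (by omega)
  · intro i hi1 hiK
    rw [disjoint_singleton_left]
    exact hnotin i (by omega) (by omega)

end level

end Pool.Agent.Work.MP_713a1e_co
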