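import Mathlib
import Pool.Agent.Work.MP_713a1e_co.Path

/-! Windows: three-interval exchanges built from four primes. -/

namespace Pool.Agent.Work.MP_713a1e_co

open Finset

/-- the window with even part `e, e+2, ..., e+2(W-1)` and odd part its reflection in `p` -/
def Om (p e W : ℕ) : Finset ℕ :=
  (range W).image (fun u => e + 2 * u) ∪ (range W).image (fun u => p - (e + 2 * u))

lemma mem_Om {p e W x : ℕ} :
    x ∈ Om p e W ↔ (∃ u < W, x = e + 2 * u) ∨ (∃ u < W, x = p - (e + 2 * u)) := by
  unfold Om
  simp only [mem_union, mem_image, mem_range]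
  constructor
  · rintro (⟨u, h1, h2⟩ | ⟨u, h1, h2⟩)
    · exact Or.inl ⟨u, h1, h2.symm⟩
    · exact Or.inr ⟨u, h1, h2.symm⟩
  · rintro (⟨u, h1, h2⟩ | ⟨u, h1, h2⟩)
    · exact Or.inl ⟨u, h1, h2.symm⟩
    · exact Or.inr ⟨u, h1, h2.symm⟩

section rotation

variable {a d b W : ℕ}

/-- the orbit of the rotation by `d` modulo `a + d` -/
def orb (a d b j : ℕ) : ℕ := (b + j * d) % (a + d)

lemma orb_lt (ha : 1 ≤ a) (j : ℕ) : orb a d b j < a + d := Nat.mod_lt _ (by omega)

lemma orb_zero (hb : b < a + d) : orb a d b 0 = b := by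
  unfold orb
  rw [zero_mul, add_zero, Nat.mod_eq_of_lt hb]

lemma orb_succ (ha : 1 ≤ a) (j : ℕ) :
    (orb a d b (j + 1) = orb a d b j + d) ∨ (a ≤ orb a d b j ∧ orb a d b (j + 1) + a = orb a d b j) := by
  have h0 := orb_lt (d := d) (b := b) ha j
  have h1 : orb a d b (j + 1) = (orb a d b j + d) % (a + d) := by
    unfold orb
    rw [Nat.mod_add_mod, add_mul, one_mul, add_assoc]
  rcases Nat.lt_or_ge (orb a d b j + d) (a + d) with h | h
  · left
    rw [h1, Nat.mod_eq_of_lt h]
  · right
    refine ⟨by omega, ?_⟩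
    rw [h1, Nat.mod_eq_sub_mod h, Nat.mod_eq_of_lt (by omega)]
    omega

lemma orb_period (j : ℕ) : orb a d b (j + (a + d)) = orb a d b j := by
  unfold orb
  rw [add_mul, ← add_assoc, mul_comm (a + d) d, Nat.add_mul_mod_self_right]

lemma orb_inj (had : Nat.Coprime a d) {i j : ℕ} (hi : i < a + d) (hj : j < a + d)
    (h : orb a d b i = orb a d b j) : i = j := by
  have h1 : b + i * d ≡ b + j * d [MOD (a + d)] := h
  have h2 : i * d ≡ j * d [MOD (a + d)] := Nat.ModEq.add_left_cancel' b h1
  have h3 : Nat.gcd (a + d) d = 1 := by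
    rw [Nat.gcd_comm, Nat.gcd_add_self_right, Nat.gcd_comm]
    exact had
  have h4 : i ≡ j [MOD (a + d)] := Nat.ModEq.cancel_right_of_coprime h3 h2
  unfold Nat.ModEq at h4
  rwa [Nat.mod_eq_of_lt hi, Nat.mod_eq_of_lt hj] at h4

lemma orb_surj (ha : 1 ≤ a) (had : Nat.Coprime a d) {u : ℕ} (hu : u < a + d) :
    ∃ j < a + d, orb a d b j = u := by
  classical
  have hinj : Set.InjOn (orb a d b) (range (a + d) : Set ℕ) := by
    intro i hi j hj hij
    exact orb_inj had (mem_range.1 hi) (mem_range.1 hj) hij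
  have hsub : (range (a + d)).image (orb a d b) ⊆ range (a + d) := by
    intro x hx
    obtain ⟨j, -, rfl⟩ := mem_image.1 hx
    exact mem_range.2 (orb_lt ha j)
  have heq : (range (a + d)).image (orb a d b) = range (a + d) :=
    eq_of_subset_of_card_le hsub (by rw [card_image_of_injOn hinj])
  have : u ∈ (range (a + d)).image (orb a d b) := by rw [heq]; exact mem_range.2 hu
  obtain ⟨j, hj, h⟩ := mem_image.1 this
  exact ⟨j, mem_range.1 hj, h⟩

/-- from one kept element to the next -/
lemma orb_next (ha : 1 ≤ a) (haW : a ≤ W) (hdW : d ≤ W) (i : ℕ) (hi : orb a d b i < W) :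
    (orb a d b (i + 1) < W ∧ (orb a d b (i + 1) = orb a d b i + d ∨
      orb a d b (i + 1) + a = orb a d b i)) ∨
    (W ≤ orb a d b (i + 1) ∧ orb a d b (i + 2) < W ∧
      orb a d b (i + 2) + a = orb a d b i + d) := by
  have h1 := orb_succ (d := d) (b := b) ha i
  have h2 := orb_succ (d := d) (b := b) ha (i + 1)
  have h3 := orb_lt (d := d) (b := b) ha (i + 1)
  have h4 := orb_lt (d := d) (b := b) ha (i + 1 + 1)
  rw [show i + 1 + 1 = i + 2 from rfl] at h2 h4
  rcases Nat.lt_or_ge (orb a d b (i + 1)) W with h | h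
  · left
    exact ⟨h, by rcases h1 with h1 | ⟨-, h1⟩; exacts [Or.inl h1, Or.inr h1]⟩
  · right
    refine ⟨h, ?_⟩
    rcases h1 with h1 | ⟨-, h1⟩
    · rcases h2 with h2 | ⟨-, h2⟩
      · omega
      · omega
    · omega

lemma orb_prev (ha : 1 ≤ a) (haW : a ≤ W) (hdW : d ≤ W) (i : ℕ) (hi : W ≤ orb a d b (i + 1)) :
    orb a d b i < W := by
  have h1 := orb_succ (d := d) (b := b) ha i
  have h3 := orb_lt (d := d) (b := b) ha (i + 1)
  have h4 := orb_lt (d := d) (b := b) ha i
  omega

end rotation

section window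

variable {p e a d W : ℕ}

/-- part of the window already visited -/
def Sk (p e a d b W k : ℕ) : Finset ℕ :=
  ((range (k + 1)).filter (fun j => orb a d b j < W)).image (fun j => e + 2 * orb a d b j) ∪
    ((Ico 1 (k + 1)).filter (fun j => orb a d b j < W)).image
      (fun j => p - (e + 2 * orb a d b j))

lemma mem_Sk {b k x : ℕ} : x ∈ Sk p e a d b W k ↔
    (∃ j ≤ k, orb a d b j < W ∧ x = e + 2 * orb a d b j) ∨
    (∃ j, 1 ≤ j ∧ j ≤ k ∧ orb a d b j < W ∧ x = p - (e + 2 * orb a d b j)) := by
  unfold Sk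
  simp only [mem_union, mem_image, mem_filter, mem_range, mem_Ico]
  constructor
  · rintro (⟨j, ⟨h1, h2⟩, h3⟩ | ⟨j, ⟨⟨h1, h1'⟩, h2⟩, h3⟩)
    · exact Or.inl ⟨j, by omega, h2, h3.symm⟩
    · exact Or.inr ⟨j, h1, by omega, h2, h3.symm⟩
  · rintro (⟨j, h1, h2, h3⟩ | ⟨j, h1, h1', h2, h3⟩)
    · exact Or.inl ⟨j, ⟨by omega, h2⟩, h3.symm⟩
    · exact Or.inr ⟨j, ⟨⟨h1, by omega⟩, h2⟩, h3.symm⟩

theorem window_even (hp : p.Prime) (he : Even e) (hp2 : Odd p) (h1 : (p + 2 * a).Prime)
    (h3 : (p - 2 * d).Prime) (h2 : (p + 2 * a - 2 * d).Prime) (had : Nat.Coprime a d)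
    (ha : 1 ≤ a) (hd : 1 ≤ d) (haW : a ≤ W) (hdW : d ≤ W) (hW : W ≤ a + d)
    (heW : e + 2 * W ≤ p) (b : ℕ) (hb : b < W) :
    PathOn (Om p e W) (e + 2 * b) (p - (e + 2 * b)) := by
  classical
  have hb' : b < a + d := lt_of_lt_of_le hb hW
  have ho0 := orb_zero (a := a) (d := d) hb'
  -- the elementary step
  have hstep : ∀ u u' : ℕ, u < W → u' < W → (u' = u + d ∨ u' + a = u ∨ u' + a = u + d) →
      Adj (e + 2 * u) (p - (e + 2 * u')) := by
    intro u u' hu hu' h
    unfold Adj
    rcases h with h | h | h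
    · have : e + 2 * u + (p - (e + 2 * u')) = p - 2 * d := by omega
      rwa [this]
    · have : e + 2 * u + (p - (e + 2 * u')) = p + 2 * a := by omega
      rwa [this]
    · have : e + 2 * u + (p - (e + 2 * u')) = p + 2 * a - 2 * d := by omega
      rwa [this]
  have hparE : ∀ u, Even (e + 2 * u) := fun u => he.add (even_two_mul u)
  have hparO : ∀ u, u < W → Odd (p - (e + 2 * u)) := by
    intro u hu
    exact Nat.Odd.sub_even (by omega) hp2 (hparE u)
  have hne : ∀ u u', u' < W → e + 2 * u ≠ p - (e + 2 * u') := by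
    intro u u' hu' h
    have h5 := hparE u
    rw [h] at h5
    exact (Nat.not_even_iff_odd.2 (hparO u' hu')) h5
  -- passing from index i to index k
  have hgo : ∀ i k : ℕ, i < k → k < a + d → orb a d b i < W → orb a d b k < W →
      (∀ j, i < j → j < k → W ≤ orb a d b j) →
      (orb a d b k = orb a d b i + d ∨ orb a d b k + a = orb a d b i ∨
        orb a d b k + a = orb a d b i + d) →
      PathOn (Sk p e a d b W i) (e + 2 * b) (e + 2 * orb a d b i) →
      PathOn (Sk p e a d b W k) (e + 2 * b) (e + 2 * orb a d b k) := by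
    intro i k hik hk hi hkW hbet hrel hP
    have hE : PathOn ({p - (e + 2 * orb a d b k)} ∪ {e + 2 * orb a d b k})
        (p - (e + 2 * orb a d b k)) (e + 2 * orb a d b k) := by
      refine (PathOn.single _).append (PathOn.single _) ?_ ?_
      · rw [disjoint_singleton]
        exact (hne _ _ hkW).symm
      · unfold Adj
        have : p - (e + 2 * orb a d b k) + (e + 2 * orb a d b k) = p := by omega
        rwa [this]
    have hdis : Disjoint (Sk p e a d b W i)
        ({p - (e + 2 * orb a d b k)} ∪ {e + 2 * orb a d b k}) := by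
      rw [disjoint_left]
      intro x hx hx'
      rw [mem_Sk] at hx
      simp only [mem_union, mem_singleton] at hx'
      have hkey : ∀ j, j ≤ i → orb a d b j ≠ orb a d b k := by
        intro j hj h
        have := orb_inj had (by omega) hk h
        omega
      rcases hx with ⟨j, hj, hjW, rfl⟩ | ⟨j, hj1, hj, hjW, rfl⟩
      · rcases hx' with hx' | hx'
        · exact hne _ _ hkW hx'
        · exact hkey j hj (by omega)
      · rcases hx' with hx' | hx'
        · exact hkey j hj (by omega)
        · exact hne _ _ hjW hx'.symm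
    have happ := hP.append hE hdis (hstep _ _ hi hkW hrel)
    have hset : Sk p e a d b W i ∪ ({p - (e + 2 * orb a d b k)} ∪ {e + 2 * orb a d b k}) =
        Sk p e a d b W k := by
      ext x
      simp only [mem_union, mem_singleton, mem_Sk]
      constructor
      · rintro ((⟨j, hj, hjW, hx⟩ | ⟨j, hj1, hj, hjW, hx⟩) | hx | hx)
        · exact Or.inl ⟨j, by omega, hjW, hx⟩
        · exact Or.inr ⟨j, hj1, by omega, hjW, hx⟩
        · exact Or.inr ⟨k, by omega, le_rfl, hkW, hx⟩
        · exact Or.inl ⟨k, le_rfl, hkW, hx⟩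
      · have hcase : ∀ j, orb a d b j < W → j ≤ k → j ≤ i ∨ j = k := by
          intro j hjW hjk
          by_contra hcon
          push Not at hcon
          have := hbet j (by omega) (by omega)
          omega
        rintro (⟨j, hj, hjW, hx⟩ | ⟨j, hj1, hj, hjW, hx⟩)
        · rcases hcase j hjW hj with h | h
          · exact Or.inl (Or.inl ⟨j, h, hjW, hx⟩)
          · subst h; exact Or.inr (Or.inr hx)
        · rcases hcase j hjW hj with h | h
          · exact Or.inl (Or.inr ⟨j, hj1, h, hjW, hx⟩)
          · subst h; exact Or.inr (Or.inl hx)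
    rw [hset] at happ
    exact happ
  -- all kept indices are reached
  have hall : ∀ k, k < a + d → orb a d b k < W →
      PathOn (Sk p e a d b W k) (e + 2 * b) (e + 2 * orb a d b k) := by
    intro k
    induction k using Nat.strong_induction_on with
    | _ k ih =>
      intro hk hkW
      rcases k with _ | k
      · have : Sk p e a d b W 0 = {e + 2 * b} := by
          ext x
          rw [mem_Sk, mem_singleton]
          constructor
          · rintro (⟨j, hj, hjW, hx⟩ | ⟨j, hj1, hj, hjW, hx⟩)
            · obtain rfl : j = 0 := by omega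
              rwa [ho0] at hx
            · omega
          · intro hx
            exact Or.inl ⟨0, le_rfl, by rw [ho0]; exact hb, by rw [ho0]; exact hx⟩
        rw [this, ho0]
        exact PathOn.single _
      · by_cases hprev : orb a d b k < W
        · refine hgo k (k + 1) (by omega) hk hprev hkW (fun j h h' => by omega) ?_
            (ih k (by omega) (by omega) hprev)
          rcases orb_next ha haW hdW k hprev with ⟨-, h | h⟩ | ⟨h, -⟩
          · exact Or.inl h
          · exact Or.inr (Or.inl h)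
          · omega
        · have hk0 : k ≠ 0 := by
            rintro rfl
            rw [ho0] at hprev
            exact hprev hb
          obtain ⟨i, rfl⟩ : ∃ i, k = i + 1 := ⟨k - 1, by omega⟩
          have hi := orb_prev (d := d) (b := b) ha haW hdW i (not_lt.1 hprev)
          refine hgo i (i + 1 + 1) (by omega) hk hi hkW (fun j h h' => ?_) ?_
            (ih i (by omega) (by omega) hi)
          · obtain rfl : j = i + 1 := by omega
            exact not_lt.1 hprev
          · rcases orb_next ha haW hdW i hi with ⟨h, -⟩ | ⟨-, -, h⟩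
            · exact absurd h hprev
            · exact Or.inr (Or.inr h)
  -- the last kept index
  have hlast : ∃ K, K < a + d ∧ orb a d b K < W ∧ (∀ j, K < j → j < a + d → W ≤ orb a d b j) ∧
      (b = orb a d b K + d ∨ b + a = orb a d b K ∨ b + a = orb a d b K + d) := by
    have hper := orb_period (a := a) (d := d) (b := b) 0
    rw [zero_add, ho0] at hper
    by_cases hprev : orb a d b (a + d - 1) < W
    · refine ⟨a + d - 1, by omega, hprev, fun j h h' => by omega, ?_⟩
      have h4 := orb_next ha haW hdW (a + d - 1) hprev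
      rw [show a + d - 1 + 1 = a + d by omega, hper] at h4
      rcases h4 with ⟨-, h | h⟩ | ⟨h, -⟩
      · exact Or.inl h
      · exact Or.inr (Or.inl h)
      · omega
    · have h5 : W ≤ orb a d b (a + d - 2 + 1) := by
        rw [show a + d - 2 + 1 = a + d - 1 by omega]
        exact not_lt.1 hprev
      have hi := orb_prev (d := d) (b := b) ha haW hdW (a + d - 2) h5
      refine ⟨a + d - 2, by omega, hi, fun j h h' => ?_, ?_⟩
      · obtain rfl : j = a + d - 1 := by omega
        exact not_lt.1 hprev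
      · have h4 := orb_next ha haW hdW (a + d - 2) hi
        rw [show a + d - 2 + 2 = a + d by omega, hper] at h4
        rcases h4 with ⟨h, -⟩ | ⟨-, -, h⟩
        · omega
        · exact Or.inr (Or.inr h)
  obtain ⟨K, hK, hKW, hKl, hrel⟩ := hlast
  have hP := hall K hK hKW
  have hfin := hP.append (PathOn.single (p - (e + 2 * b))) ?_ (hstep _ _ hKW hb hrel)
  · have hset : Sk p e a d b W K ∪ {p - (e + 2 * b)} = Om p e W := by
      ext x
      simp only [mem_union, mem_singleton, mem_Sk, mem_Om]
      constructor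
      · rintro ((⟨j, hj, hjW, hx⟩ | ⟨j, hj1, hj, hjW, hx⟩) | hx)
        · exact Or.inl ⟨_, hjW, hx⟩
        · exact Or.inr ⟨_, hjW, hx⟩
        · exact Or.inr ⟨b, hb, hx⟩
      · have hle : ∀ j, j < a + d → orb a d b j < W → j ≤ K := by
          intro j hj hjW
          by_contra hcon
          have := hKl j (by omega) hj
          omega
        rintro (⟨u, hu, hx⟩ | ⟨u, hu, hx⟩)
        · obtain ⟨j, hj, hju⟩ := orb_surj (b := b) ha had (lt_of_lt_of_le hu hW)
          subst hju
          exact Or.inl (Or.inl ⟨j, hle j hj hu, hu, hx⟩)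
        · obtain ⟨j, hj, hju⟩ := orb_surj (b := b) ha had (lt_of_lt_of_le hu hW)
          subst hju
          rcases Nat.eq_zero_or_pos j with h0 | h0
          · subst h0
            rw [ho0] at hx
            exact Or.inr hx
          · exact Or.inl (Or.inr ⟨j, h0, hle j hj hu, hu, hx⟩)
    rw [hset] at hfin
    exact hfin
  · rw [disjoint_singleton_right, mem_Sk]
    rintro (⟨j, hj, hjW, hx⟩ | ⟨j, hj1, hj, hjW, hx⟩)
    · exact hne _ _ hb hx.symm
    · have h6 : orb a d b j = b := by omega
      have h7 := orb_inj had (by omega : j < a + d) (by omega : 0 < a + d) (by rw [h6, ho0])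
      omega

/-- **Window lemma.** -/
theorem window (hp : p.Prime) (he : Even e) (hp2 : Odd p) (h1 : (p + 2 * a).Prime)
    (h3 : (p - 2 * d).Prime) (h2 : (p + 2 * a - 2 * d).Prime) (had : Nat.Coprime a d)
    (ha : 1 ≤ a) (hd : 1 ≤ d) (haW : a ≤ W) (hdW : d ≤ W) (hW : W ≤ a + d)
    (heW : e + 2 * W ≤ p) (x : ℕ) (hx : x ∈ Om p e W) :
    PathOn (Om p e W) x (p - x) := by
  rcases mem_Om.1 hx with ⟨u, hu, rfl⟩ | ⟨u, hu, rfl⟩
  · exact window_even hp he hp2 h1 h3 h2 had ha hd haW hdW hW heW u hu
  · have := (window_even hp he hp2 h1 h3 h2 had ha hd haW hdW hW heW u hu).symm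
    rwa [show p - (p - (e + 2 * u)) = e + 2 * u by omega]

end window

end Pool.Agent.Work.MP_713a1e_co
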