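import Mathlib
import Pool.Agent.Work.MP_713a1e_co.Window

/-! Tiling `[m+1, n]` by windows. -/

namespace Pool.Agent.Work.MP_713a1e_co

open Finset

/-- breakpoints -/
def tt (Λ L i : ℕ) : ℕ := i * Λ / L

lemma tt_zero (Λ L : ℕ) : tt Λ L 0 = 0 := by simp [tt]

lemma tt_last {Λ L : ℕ} (hL : 1 ≤ L) : tt Λ L L = Λ := by
  unfold tt
  exact Nat.mul_div_cancel_left Λ hL

lemma tt_succ_ge {Λ L : ℕ} (hL : 1 ≤ L) (i : ℕ) : tt Λ L i + Λ / L ≤ tt Λ L (i + 1) := by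
  unfold tt
  rw [Nat.le_div_iff_mul_le (by omega)]
  have h1 := Nat.div_mul_le_self (i * Λ) L
  have h2 := Nat.div_mul_le_self Λ L
  calc (i * Λ / L + Λ / L) * L = i * Λ / L * L + Λ / L * L := by ring
    _ ≤ i * Λ + Λ := by omega
    _ = (i + 1) * Λ := by ring

lemma tt_succ_le {Λ L : ℕ} (hL : 1 ≤ L) (i : ℕ) : tt Λ L (i + 1) ≤ tt Λ L i + Λ / L + 1 := by
  unfold tt
  rw [← Nat.lt_succ_iff, Nat.div_lt_iff_lt_mul (by omega)]
  have h1 : i * Λ < (i * Λ / L + 1) * L := Nat.lt_mul_of_div_lt (Nat.lt_succ_self _) (by omega)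
  have h2 : Λ < (Λ / L + 1) * L := Nat.lt_mul_of_div_lt (Nat.lt_succ_self _) (by omega)
  calc (i + 1) * Λ = i * Λ + Λ := by ring
    _ < (i * Λ / L + 1) * L + (Λ / L + 1) * L := by omega
    _ = (i * Λ / L + Λ / L + 1 + 1) * L := by ring

lemma tt_mono {Λ L : ℕ} (hL : 1 ≤ L) {i j : ℕ} (h : i ≤ j) : tt Λ L i ≤ tt Λ L j := by
  unfold tt
  exact Nat.div_le_div_right (Nat.mul_le_mul_right _ h)

/-- the windows -/
def OmT (p e Λ L i : ℕ) : Finset ℕ := Om p (e + 2 * tt Λ L i) (tt Λ L (i + 1) - tt Λ L i)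

lemma tt_find {Λ L : ℕ} (hL : 1 ≤ L) {u : ℕ} (hu : u < Λ) :
    ∃ i < L, tt Λ L i ≤ u ∧ u < tt Λ L (i + 1) := by
  classical
  have hex : ∃ j, u < tt Λ L j := ⟨L, by rw [tt_last hL]; exact hu⟩
  have h1 := Nat.find_spec hex
  have h2 : Nat.find hex ≤ L := Nat.find_min' hex (by rw [tt_last hL]; exact hu)
  have h3 : Nat.find hex ≠ 0 := by
    intro h
    rw [h, tt_zero] at h1
    omega
  refine ⟨Nat.find hex - 1, by omega, ?_, ?_⟩
  · have := Nat.find_min hex (m := Nat.find hex - 1) (by omega)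
    omega
  · rwa [show Nat.find hex - 1 + 1 = Nat.find hex by omega]

section
variable {n m p e Λ L : ℕ}

lemma OmT_dis (hL : 1 ≤ L) (hp2 : Odd p) (he : Even e) (hep : e + 2 * Λ ≤ p)
    (i : ℕ) (hi : i < L) (j : ℕ) (hj : j < L) (hij : i ≠ j) :
    Disjoint (OmT p e Λ L i) (OmT p e Λ L j) := by
  -- reduce to i < j
  have main : ∀ i j, i < j → j < L → Disjoint (OmT p e Λ L i) (OmT p e Λ L j) := by
    intro i j hij hj
    rw [disjoint_left]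
    intro x hx hx'
    unfold OmT at hx hx'
    rw [mem_Om] at hx hx'
    have h1 : tt Λ L (i + 1) ≤ tt Λ L j := tt_mono hL hij
    have h2 : tt Λ L (j + 1) ≤ Λ := by
      have := tt_mono (Λ := Λ) hL (show j + 1 ≤ L by omega)
      rwa [tt_last hL] at this
    have h3 : tt Λ L i ≤ tt Λ L (i + 1) := tt_mono hL (by omega)
    have h4 : tt Λ L j ≤ tt Λ L (j + 1) := tt_mono hL (by omega)
    obtain ⟨e', rfl⟩ := he
    obtain ⟨p', rfl⟩ := hp2
    rcases hx with ⟨u, hu, rfl⟩ | ⟨u, hu, rfl⟩ <;> rcases hx' with ⟨w, hw, hx'⟩ | ⟨w, hw, hx'⟩ <;>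
      omega
  rcases Nat.lt_or_gt_of_ne hij with h | h
  · exact main i j h hj
  · exact (main j i h hi).symm

lemma OmT_union (hL : 1 ≤ L) (hp : p = n + m + 1) (hp2 : Odd p) (hmn : m < n)
    (he : e = m + 1 ∨ e = m + 2) (he2 : Even e) (hΛ : 2 * Λ = n - m) :
    (range L).biUnion (OmT p e Λ L) = Icc (m + 1) n := by
  ext x
  simp only [mem_biUnion, mem_range, mem_Icc]
  have hlast : ∀ i < L, tt Λ L (i + 1) ≤ Λ := by
    intro i hi
    have := tt_mono (Λ := Λ) hL (show i + 1 ≤ L by omega)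
    rwa [tt_last hL] at this
  obtain ⟨e', he'⟩ := he2
  obtain ⟨p', hp'⟩ := hp2
  constructor
  · rintro ⟨i, hi, hx⟩
    have h1 := hlast i hi
    unfold OmT at hx
    rw [mem_Om] at hx
    rcases hx with ⟨u, hu, rfl⟩ | ⟨u, hu, rfl⟩ <;> omega
  · rintro ⟨h1, h2⟩
    rcases Nat.even_or_odd x with hx | hx
    · obtain ⟨x', hx'⟩ := hx
      obtain ⟨i, hi, h3, h4⟩ := tt_find (Λ := Λ) hL (u := (x - e) / 2) (by omega)
      refine ⟨i, hi, ?_⟩
      unfold OmT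
      rw [mem_Om]
      exact Or.inl ⟨(x - e) / 2 - tt Λ L i, by omega, by omega⟩
    · obtain ⟨x', hx'⟩ := hx
      obtain ⟨i, hi, h3, h4⟩ := tt_find (Λ := Λ) hL (u := (p - x - e) / 2) (by omega)
      refine ⟨i, hi, ?_⟩
      unfold OmT
      rw [mem_Om]
      exact Or.inr ⟨(p - x - e) / 2 - tt Λ L i, by omega, by omega⟩

lemma OmT_path {a d : ℕ} (hL : 1 ≤ L) (hp : p.Prime) (he : Even e) (hp2 : Odd p)
    (h1 : (p + 2 * a).Prime) (h3 : (p - 2 * d).Prime) (h2 : (p + 2 * a - 2 * d).Prime)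
    (had : Nat.Coprime a d) (hd : 1 ≤ d) (hda : d ≤ a)
    (haΛ : a ≤ Λ / L) (hΛa : Λ / L + 1 ≤ a + d) (hep : e + 2 * Λ ≤ p)
    (i : ℕ) (hi : i < L) (x : ℕ) (hx : x ∈ OmT p e Λ L i) : PathOn (OmT p e Λ L i) x (p - x) := by
  have h4 := tt_succ_ge (Λ := Λ) hL i
  have h5 := tt_succ_le (Λ := Λ) hL i
  have h6 : tt Λ L (i + 1) ≤ Λ := by
    have := tt_mono (Λ := Λ) hL (show i + 1 ≤ L by omega)
    rwa [tt_last hL] at this
  unfold OmT at hx ⊢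
  refine window hp (he.add (even_two_mul _)) hp2 h1 h3 h2 had (by omega) hd ?_ ?_ ?_ ?_ x hx
  all_goals omega

lemma OmT_spec (hL : 1 ≤ L) (hΛ1 : 1 ≤ Λ / L) (hp : p = n + m + 1) (hmn : m < n)
    (he : e = m + 1 ∨ e = m + 2) (hΛ : 2 * Λ = n - m) :
    ∃ s < L, (s = 0 ∨ s = L - 1) ∧ m + 1 ∈ OmT p e Λ L s := by
  rcases he with he | he
  · refine ⟨0, by omega, Or.inl rfl, ?_⟩
    unfold OmT
    rw [mem_Om]
    have h4 := tt_succ_ge (Λ := Λ) hL 0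
    rw [tt_zero] at h4 ⊢
    exact Or.inl ⟨0, by omega, by omega⟩
  · refine ⟨L - 1, by omega, Or.inr rfl, ?_⟩
    unfold OmT
    rw [mem_Om]
    have h4 := tt_succ_ge (Λ := Λ) hL (L - 1)
    rw [show L - 1 + 1 = L by omega, tt_last hL] at h4 ⊢
    exact Or.inr ⟨Λ - tt Λ L (L - 1) - 1, by omega, by omega⟩

end

end Pool.Agent.Work.MP_713a1e_co
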