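import Mathlib
import Pool.Agent.Work.MP_713a1e_co.Tiling

/-! The numerical data of a level. -/

namespace Pool.Agent.Work.MP_713a1e_co

open Finset Filter

noncomputable section

/-- numerical data of a level -/
structure LNum (K : ℕ) (n m p a d e Λ L : ℕ) : Prop where
  hd100 : 100 ≤ d
  hm : p = n + m + 1
  hmr : (p : ℝ) = n + m + 1
  hm5 : n ≤ 5 * m
  hmn : 2 * m < n
  hp2 : Odd p
  he : e = m + 1 ∨ e = m + 2
  he2 : Even e
  hΛ : 2 * Λ = n - m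
  hKL : K + 2 ≤ L
  hlow : 4 * a + d ≤ 4 * (Λ / L)
  hup : 4 * (Λ / L + 1) ≤ 4 * a + 3 * d
  hgap1 : ∀ i, tt Λ L i + a + d / 4 ≤ tt Λ L (i + 1)
  htΛ : ∀ i < L, tt Λ L (i + 1) ≤ Λ

lemma lnum {c ε M : ℝ} {K n p a d : ℕ} (hc0 : 0 < c) (hM : M = 8 / c + K + 4) (hε0 : 0 < ε)
    (hεM' : 16 * M * ε ≤ 3) (hn1000 : (1000 : ℝ) ≤ n) (hcn : 100 ≤ c * ε * n) (hp : p.Prime)
    (hda : d < a) (hp5 : (5 : ℝ) / 4 * n ≤ p) (hp3 : (p : ℝ) ≤ 3 / 2 * n) (hdn : c * ε * n ≤ d)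
    (han : (a : ℝ) ≤ ε * n) : ∃ m e Λ L : ℕ, LNum K n m p a d e Λ L := by
  have hnr0 : (0 : ℝ) < n := by linarith
  have hd100r : (100 : ℝ) ≤ d := by linarith
  have hd100 : 100 ≤ d := by exact_mod_cast hd100r
  have hn1000' : 1000 ≤ n := by exact_mod_cast hn1000
  have hdar : (d : ℝ) < a := by exact_mod_cast hda
  -- m
  have hpn : n + 2 ≤ p := by
    have : (n : ℝ) + 2 ≤ p := by linarith
    exact_mod_cast this
  obtain ⟨m, hm⟩ : ∃ m, p = n + m + 1 := ⟨p - n - 1, by omega⟩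
  have hmr : (p : ℝ) = n + m + 1 := by rw [hm]; push_cast; ring
  have hm5 : n ≤ 5 * m := by
    have : (n : ℝ) ≤ 5 * m := by linarith
    exact_mod_cast this
  have hmn : 2 * m < n := by
    have : 2 * (m : ℝ) < n := by linarith
    exact_mod_cast this
  have hp2 : Odd p := hp.odd_of_ne_two (by omega)
  -- e
  obtain ⟨e, he, he2⟩ : ∃ e, (e = m + 1 ∨ e = m + 2) ∧ Even e := by
    rcases Nat.even_or_odd m with h | h
    · exact ⟨m + 2, Or.inr rfl, by rw [Nat.even_add]; simp [h]⟩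
    · exact ⟨m + 1, Or.inl rfl, h.add_one⟩
  -- Λ
  obtain ⟨Λ, hΛ⟩ : ∃ Λ, 2 * Λ = n - m := by
    obtain ⟨p', hp'⟩ := hp2
    exact ⟨(n - m) / 2, by omega⟩
  have hΛr : 2 * (Λ : ℝ) = n - m := by
    have : ((2 * Λ : ℕ) : ℝ) = ((n - m : ℕ) : ℝ) := by rw [hΛ]
    rw [Nat.cast_sub (by omega)] at this
    push_cast at this
    exact this
  have hΛ4 : (n : ℝ) / 4 ≤ Λ := by linarith
  -- L
  obtain ⟨w, hw⟩ : ∃ w, w = a + d / 3 := ⟨_, rfl⟩
  have hw0 : 0 < w := by omega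
  have hwr0 : (0 : ℝ) < w := by exact_mod_cast hw0
  have hwr : (w : ℝ) ≤ a + d / 3 := by
    rw [hw]; push_cast
    have := Nat.cast_div_le (α := ℝ) (m := d) (n := 3)
    push_cast at this
    linarith
  have hwa : (w : ℝ) ≤ 4 / 3 * a := by linarith
  have hwε : (w : ℝ) ≤ 4 / 3 * (ε * n) := by linarith
  obtain ⟨L, hL⟩ : ∃ L, L = Λ / w := ⟨_, rfl⟩
  have hLw : L * w ≤ Λ := by rw [hL]; exact Nat.div_mul_le_self Λ w
  have hLw2 : Λ < (L + 1) * w := by rw [hL]; exact Nat.lt_mul_of_div_lt (Nat.lt_succ_self _) hw0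
  have hLw2r : (Λ : ℝ) < (L + 1) * w := by exact_mod_cast hLw2
  have hLM : M - 1 ≤ L := by
    have hL0 : (0 : ℝ) ≤ (L : ℝ) + 1 := by positivity
    have e1 : (n : ℝ) / 4 < (L + 1) * (4 / 3 * (ε * n)) := by
      calc (n : ℝ) / 4 ≤ Λ := hΛ4
        _ < (L + 1) * w := hLw2r
        _ ≤ _ := by gcongr
    have e2 : 3 < 16 * ε * (L + 1) := by
      have e3 : 3 * (n : ℝ) < 16 * ε * (L + 1) * n := by linarith
      exact lt_of_mul_lt_mul_right e3 hnr0.le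
    have e4 : M * (16 * ε) < (L + 1) * (16 * ε) := by linarith
    have := lt_of_mul_lt_mul_right e4 (by positivity)
    linarith
  have h8c : 8 / c ≤ L := by
    have : (0 : ℝ) ≤ K := Nat.cast_nonneg K
    linarith
  have hKL : K + 2 ≤ L := by
    have : 0 < 8 / c := by positivity
    have : (K : ℝ) + 2 ≤ L := by linarith
    exact_mod_cast this
  have hL1 : 1 ≤ L := by omega
  have hwL : w ≤ Λ / L := by
    rw [Nat.le_div_iff_mul_le (by omega), mul_comm]; exact hLw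
  have hlow : 4 * a + d ≤ 4 * (Λ / L) := by omega
  have hup : 4 * (Λ / L + 1) ≤ 4 * a + 3 * d := by
    have e1 : ((Λ / L : ℕ) : ℝ) * L ≤ Λ := by exact_mod_cast Nat.div_mul_le_self Λ L
    have hLr : (0 : ℝ) < L := by exact_mod_cast hL1
    have e2 : (a : ℝ) ≤ d / c := by
      rw [le_div_iff₀ hc0]
      have : (a : ℝ) * c ≤ ε * n * c := by gcongr
      linarith
    have e3 : (w : ℝ) ≤ L * (d / 6) := by
      calc (w : ℝ) ≤ 4 / 3 * a := hwa
        _ ≤ 4 / 3 * (d / c) := by gcongr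
        _ = 8 / c * (d / 6) := by field_simp; ring
        _ ≤ L * (d / 6) := by gcongr
    have e4 : (((Λ / L : ℕ) : ℝ) - w) * L < (d / 6) * L := by linarith
    have e5 := lt_of_mul_lt_mul_right e4 hLr.le
    have e6 : 4 * (((Λ / L : ℕ) : ℝ) + 1) ≤ 4 * a + 3 * d := by linarith
    exact_mod_cast e6
  -- gaps of the breakpoints
  have hgap1 : ∀ i, tt Λ L i + a + d / 4 ≤ tt Λ L (i + 1) := fun i => by
    have := tt_succ_ge (Λ := Λ) hL1 i; omega
  have htΛ : ∀ i < L, tt Λ L (i + 1) ≤ Λ := by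
    intro i hi
    have := tt_mono (Λ := Λ) hL1 (show i + 1 ≤ L by omega)
    rwa [tt_last hL1] at this
  exact ⟨m, e, Λ, L, ⟨hd100, hm, hmr, hm5, hmn, hp2, he, he2, hΛ, hKL, hlow, hup, hgap1, htΛ⟩⟩

end

end Pool.Agent.Work.MP_713a1e_co
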