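import Mathlib
import Pool.Agent.Work.MP_713a1e_co.SetupBase
import Pool.Agent.Work.MP_713a1e_co.LevelNum

/-! Assembling a level. -/

namespace Pool.Agent.Work.MP_713a1e_co

open Finset Filter

noncomputable section

/-- all the data of a level -/
structure Lv (K : ℕ) (c c₁ c' : ℝ) (n m p a d e Λ L : ℕ) : Prop where
  hp : p.Prime
  h1 : (p + 2 * a).Prime
  h2 : (p + 2 * a - 2 * d).Prime
  h3 : (p - 2 * d).Prime
  had : Nat.Coprime a d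
  hd : 1 ≤ d
  hda : d < a
  hpn : p = n + m + 1
  hp2 : Odd p
  hm1 : 1 ≤ m
  hmn : m < n
  hn5 : n ≤ 5 * m
  he : e = m + 1 ∨ e = m + 2
  he2 : Even e
  hΛ : 2 * Λ = n - m
  hKL : K + 2 ≤ L
  hlow : 4 * a + d ≤ 4 * (Λ / L)
  hup : 4 * (Λ / L + 1) ≤ 4 * a + 3 * d
  hdn : c₁ * n ≤ d
  hG : c' * n / (Real.log n) ^ 2 ≤ ((GG c p a d).card : ℝ)
  hext : ∀ i < L, ∀ v, 1 ≤ v → v ≤ n → ∃ b ∈ OmT p e Λ L i, Adj v b
  hop : ∀ v w, 1 ≤ v → v ≤ n → 1 ≤ w → w ≤ n → Odd v → Even w → ∃ b : ℕ → ℕ,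
      (∀ i, 1 ≤ i → i ≤ K → b i ∈ OmT p e Λ L i) ∧ Adj v (b 1) ∧
      (∀ i, 1 ≤ i → i < K → Adj (p - b i) (b (i + 1))) ∧ Adj (p - b K) w
/-- the statement of `hop_ev` -/
def HopEv : Prop := ∃ K0 : ℕ, ∀ K ≥ K0, ∀ ω : ℝ, 0 < ω →
    ω ≤ 1 / 32 → ∀ᶠ n : ℕ in atTop, ∀ (p : ℕ) (β : ℕ → ℕ), Odd p → (9 / 8 : ℝ) * n ≤ p →
      (p : ℝ) ≤ 2 * n → (∀ i, 1 ≤ i → i ≤ K → (n : ℝ) / 8 ≤ β i ∧ (β i : ℝ) ≤ n) →
      ∀ v w : ℕ, 1 ≤ v → v ≤ n → 1 ≤ w → w ≤ n → Odd v → Even w → ∃ b : ℕ → ℕ,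
        (∀ i, 1 ≤ i → i ≤ K → Even (b i) ∧ |(b i : ℝ) - β i| ≤ ω * n) ∧ Adj v (b 1) ∧
        (∀ i, 1 ≤ i → i < K → Adj (p - b i) (b (i + 1))) ∧ Adj (p - b K) w

lemma lv_entries {K n m p a d e Λ L : ℕ} {κ : ℝ} (h : LNum K n m p a d e Λ L)
    (hκ0 : 0 < κ) (hκ8 : κ ≤ 1 / 8) (hκa : κ * n ≤ a) (hn1000 : (1000 : ℝ) ≤ n)
    (hp5 : (5 : ℝ) / 4 * n ≤ p) (hp3 : (p : ℝ) ≤ 3 / 2 * n)
    (hbet : ∀ s Y : ℕ, κ * n ≤ s → (s : ℝ) + Y ≤ n / κ → κ * n ≤ (Y : ℝ) →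
      ∃ x < Y, (x + s).Prime) :
    ∀ i < L, ∀ v, 1 ≤ v → v ≤ n → ∃ b ∈ OmT p e Λ L i, Adj v b := by
  obtain ⟨hd100, hm, hmr, hm5, hmn, hp2, he, he2, hΛ, -, hlow, hup, hgap1, htΛ⟩ := h
  have hm5r : (n : ℝ) ≤ 5 * m := by exact_mod_cast hm5
  have hκn : κ * n ≤ n / 8 := by
    have : κ * n ≤ 1 / 8 * n := by gcongr
    linarith
  have hnκ : 8 * (n : ℝ) ≤ n / κ := by
    rw [le_div_iff₀ hκ0]
    have : 8 * (n : ℝ) * κ ≤ 8 * n * (1 / 8) := by gcongr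
    linarith
  intro i hi v hv1 hvn
  have g1 := hgap1 i
  have g2 := htΛ i hi
  obtain ⟨W, hW⟩ : ∃ W, W = tt Λ L (i + 1) - tt Λ L i := ⟨_, rfl⟩
  have hWa : a ≤ W := by omega
  have hWar : (a : ℝ) ≤ W := by exact_mod_cast hWa
  have hY : κ * n ≤ ((2 * W : ℕ) : ℝ) := by push_cast; linarith
  have hvr : (v : ℝ) ≤ n := by exact_mod_cast hvn
  rcases Nat.even_or_odd v with hv | hv
  · -- even `v`
    obtain ⟨s, hs⟩ : ∃ s, s = v + (p - e - 2 * tt Λ L i - 2 * W + 1) := ⟨_, rfl⟩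
    have hs1 : p - n - 4 ≤ s := by omega
    have hs2 : s + 2 * W ≤ v + p := by omega
    have hs1r : (p : ℝ) - n - 4 ≤ s := by
      have : p ≤ s + n + 4 := by omega
      have : (p : ℝ) ≤ s + n + 4 := by exact_mod_cast this
      linarith
    have hs2r : (s : ℝ) + ((2 * W : ℕ) : ℝ) ≤ v + p := by exact_mod_cast hs2
    obtain ⟨x, hx, hxp⟩ := hbet s (2 * W) (by linarith) (by linarith) hY
    have hxodd : Odd (x + s) := hxp.odd_of_ne_two (by omega)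
    obtain ⟨x', hx'⟩ := hxodd
    obtain ⟨v', hv'⟩ := hv
    obtain ⟨p', hp'⟩ := hp2
    obtain ⟨e', he'⟩ := he2
    refine ⟨x + s - v, ?_, ?_⟩
    · unfold OmT
      rw [mem_Om, ← hW]
      right
      refine ⟨(p - (x + s - v) - e) / 2 - tt Λ L i, ?_, ?_⟩ <;> omega
    · unfold Adj
      rw [show v + (x + s - v) = x + s by omega]
      exact hxp
  · -- odd `v`
    obtain ⟨s, hs⟩ : ∃ s, s = v + e + 2 * tt Λ L i := ⟨_, rfl⟩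
    have hs1 : m + 1 ≤ s := by omega
    have hs2 : s + 2 * W ≤ v + p := by omega
    have hs1r : (m : ℝ) + 1 ≤ s := by exact_mod_cast hs1
    have hs2r : (s : ℝ) + ((2 * W : ℕ) : ℝ) ≤ v + p := by exact_mod_cast hs2
    obtain ⟨x, hx, hxp⟩ := hbet s (2 * W) (by linarith) (by linarith) hY
    have hxodd : Odd (x + s) := hxp.odd_of_ne_two (by omega)
    obtain ⟨x', hx'⟩ := hxodd
    obtain ⟨v', hv'⟩ := hv
    obtain ⟨e', he'⟩ := he2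
    refine ⟨x + s - v, ?_, ?_⟩
    · unfold OmT
      rw [mem_Om, ← hW]
      left
      refine ⟨(x + s - v - e) / 2 - tt Λ L i, ?_, ?_⟩ <;> omega
    · unfold Adj
      rw [show v + (x + s - v) = x + s by omega]
      exact hxp

lemma lv_hop {K n m p a d e Λ L : ℕ} {c ε ω : ℝ} (h : LNum K n m p a d e Λ L) (hK1 : 1 ≤ K)
    (hcε : 0 < c * ε)
    (hωc : ω ≤ c * ε / 2) (hda : d < a) (hn1000 : (1000 : ℝ) ≤ n)
    (hp5 : (5 : ℝ) / 4 * n ≤ p) (hp3 : (p : ℝ) ≤ 3 / 2 * n) (hdn : c * ε * n ≤ d)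
    (hhop : ∀ (p : ℕ) (β : ℕ → ℕ), Odd p → (9 / 8 : ℝ) * n ≤ p →
      (p : ℝ) ≤ 2 * n → (∀ i, 1 ≤ i → i ≤ K → (n : ℝ) / 8 ≤ β i ∧ (β i : ℝ) ≤ n) →
      ∀ v w : ℕ, 1 ≤ v → v ≤ n → 1 ≤ w → w ≤ n → Odd v → Even w → ∃ b : ℕ → ℕ,
        (∀ i, 1 ≤ i → i ≤ K → Even (b i) ∧ |(b i : ℝ) - β i| ≤ ω * n) ∧ Adj v (b 1) ∧
        (∀ i, 1 ≤ i → i < K → Adj (p - b i) (b (i + 1))) ∧ Adj (p - b K) w) :
    ∀ v w, 1 ≤ v → v ≤ n → 1 ≤ w → w ≤ n → Odd v → Even w → ∃ b : ℕ → ℕ,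
      (∀ i, 1 ≤ i → i ≤ K → b i ∈ OmT p e Λ L i) ∧ Adj v (b 1) ∧
      (∀ i, 1 ≤ i → i < K → Adj (p - b i) (b (i + 1))) ∧ Adj (p - b K) w := by
  obtain ⟨hd100, hm, hmr, hm5, hmn, hp2, he, he2, hΛ, hKL, hlow, hup, hgap1, htΛ⟩ := h
  have hm5r : (n : ℝ) ≤ 5 * m := by exact_mod_cast hm5
  have hd100r : (100 : ℝ) ≤ d := by exact_mod_cast hd100
  have hnr0 : (0 : ℝ) < n := by linarith
  have hdar : (d : ℝ) < a := by exact_mod_cast hda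
  have har : c * ε * n ≤ a := by linarith
  intro v w' hv1 hvn hw1 hwn hv hw'
  obtain ⟨β, hβ⟩ : ∃ β : ℕ → ℕ, β = fun i => e + tt Λ L i + tt Λ L (i + 1) := ⟨_, rfl⟩
  have hβi : ∀ i, β i = e + tt Λ L i + tt Λ L (i + 1) := fun i => by rw [hβ]
  obtain ⟨b, hb1, hb2, hb3, hb4⟩ := hhop p β hp2 (by linarith) (by linarith) (by
    intro i hi1 hiK
    have g1 := hgap1 i
    have g2 := htΛ i (by omega)
    rw [hβi i]
    constructor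
    · have : m + 1 ≤ e + tt Λ L i + tt Λ L (i + 1) := by omega
      have : (m : ℝ) + 1 ≤ ((e + tt Λ L i + tt Λ L (i + 1) : ℕ) : ℝ) := by exact_mod_cast this
      linarith
    · have : e + tt Λ L i + tt Λ L (i + 1) ≤ n := by omega
      exact_mod_cast this) v w' hv1 hvn hw1 hwn hv hw'
  refine ⟨b, ?_, hb2, hb3, hb4⟩
  intro i hi1 hiK
  have g1 := hgap1 i
  have g2 := htΛ i (by omega)
  obtain ⟨hbe, hbc⟩ := hb1 i hi1 hiK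
  have hωn : ω * n < a := by
    have e1 : ω * n ≤ c * ε / 2 * n := by gcongr
    have e2 : 0 < c * ε * n := by positivity
    linarith
  rw [hβi i, abs_le] at hbc
  push_cast at hbc
  have hb5 : e + tt Λ L i + tt Λ L (i + 1) < b i + a := by
    have : ((e : ℝ) + tt Λ L i + tt Λ L (i + 1)) < b i + a := by linarith [hbc.1]
    exact_mod_cast this
  have hb6 : b i < e + tt Λ L i + tt Λ L (i + 1) + a := by
    have : (b i : ℝ) < (e : ℝ) + tt Λ L i + tt Λ L (i + 1) + a := by linarith [hbc.2]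
    exact_mod_cast this
  obtain ⟨b', hb'⟩ := hbe
  obtain ⟨e', he'⟩ := he2
  unfold OmT
  rw [mem_Om]
  left
  refine ⟨(b i - e) / 2 - tt Λ L i, ?_, ?_⟩ <;> omega

theorem lv_of (hAP : APProp) (hH : HopEv) (hCh : ChoiceT) :
    ∃ K : ℕ, 1 ≤ K ∧ ∃ c c₁ c' : ℝ, 0 < c ∧ c ≤ 1 / 4 ∧ 0 < c₁ ∧ 0 < c' ∧ ∀ᶠ n : ℕ in atTop,
      ∃ m p a d e Λ L : ℕ, Lv K c c₁ c' n m p a d e Λ L := by
  obtain ⟨K0, hK0⟩ := hH
  obtain ⟨c, hc0, hc4, hch⟩ := hCh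
  obtain ⟨K, hK⟩ : ∃ K, K = max K0 1 := ⟨_, rfl⟩
  have hKK0 : K0 ≤ K := by rw [hK]; exact le_max_left _ _
  have hK1 : 1 ≤ K := by rw [hK]; exact le_max_right _ _
  obtain ⟨M, hM⟩ : ∃ M : ℝ, M = 8 / c + K + 4 := ⟨_, rfl⟩
  have hM0 : 0 < M := by rw [hM]; positivity
  obtain ⟨ε, hε⟩ : ∃ ε : ℝ, ε = min (1 / 10) (3 / (16 * M)) := ⟨_, rfl⟩
  have hε0 : 0 < ε := by rw [hε]; positivity
  have hε10 : ε ≤ 1 / 10 := by rw [hε]; exact min_le_left _ _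
  have hεM : ε ≤ 3 / (16 * M) := by rw [hε]; exact min_le_right _ _
  have hεM' : 16 * M * ε ≤ 3 := by
    rw [le_div_iff₀ (by positivity)] at hεM; linarith
  obtain ⟨c', hc', n0, hn0⟩ := hch ε hε0 hε10
  obtain ⟨ω, hω⟩ : ∃ ω : ℝ, ω = min (1 / 32) (c * ε / 2) := ⟨_, rfl⟩
  have hω0 : 0 < ω := by rw [hω]; positivity
  have hω32 : ω ≤ 1 / 32 := by rw [hω]; exact min_le_left _ _
  have hωc : ω ≤ c * ε / 2 := by rw [hω]; exact min_le_right _ _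
  obtain ⟨κ, hκ⟩ : ∃ κ : ℝ, κ = min (1 / 8) (c * ε) := ⟨_, rfl⟩
  have hκ0 : 0 < κ := by rw [hκ]; positivity
  have hκ8 : κ ≤ 1 / 8 := by rw [hκ]; exact min_le_left _ _
  have hκc : κ ≤ c * ε := by rw [hκ]; exact min_le_right _ _
  have hcε : 0 < c * ε := by positivity
  refine ⟨K, hK1, c, c * ε, c', hc0, hc4, hcε, hc', ?_⟩
  have t1 : Tendsto (fun n : ℕ => (n : ℝ)) atTop atTop := tendsto_natCast_atTop_atTop
  filter_upwards [hK0 K hKK0 ω hω0 hω32, prime_between hAP hκ0, eventually_ge_atTop n0,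
    t1.eventually_ge_atTop (100 / (c * ε)), t1.eventually_ge_atTop 1000] with
    n hhop hbet hnn0 hnbig hn1000
  obtain ⟨p, a, d, hp, h1, h3, h2, had, hda, hp5, hp3, hdn, han, hG⟩ := hn0 n hnn0
  have hnr0 : (0 : ℝ) < n := by linarith
  have hcn : 100 ≤ c * ε * n := by
    rw [div_le_iff₀ hcε] at hnbig; linarith
  obtain ⟨m, e, Λ, L, h⟩ := lnum (K := K) hc0 hM hε0 hεM' hn1000 hcn hp hda hp5 hp3 hdn han
  have hdar : (d : ℝ) < a := by exact_mod_cast hda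
  have hκn' : κ * n ≤ c * ε * n := by gcongr
  have hmn := h.hmn
  have hm5 := h.hm5
  have hd100 := h.hd100
  exact ⟨m, p, a, d, e, Λ, L, ⟨hp, h1, h2, h3, had, by omega, hda, h.hm, h.hp2, by omega, by omega,
    hm5, h.he, h.he2, h.hΛ, h.hKL, h.hlow, h.hup, hdn, hG,
    lv_entries h hκ0 hκ8 (by linarith) hn1000 hp5 hp3 hbet,
    lv_hop h hK1 hcε hωc hda hn1000 hp5 hp3 hdn hhop⟩⟩

end

end Pool.Agent.Work.MP_713a1e_co
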