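import Mathlib

/-! Chains of centres and of sums. -/

namespace Pool.Agent.Work.MP_713a1e_co

open Finset Filter

noncomputable section

/-- the chain of centres -/
def bz (p v w K : ℕ) (β : ℕ → ℕ) (i : ℕ) : ℤ :=
  if i = 0 then (p : ℤ) - v else if i ≤ K then (β i : ℤ) else (w : ℤ)

/-- the chain of sums -/
def sz (p v : ℕ) (P : ℕ → ℕ) (i : ℕ) : ℤ :=
  (p : ℤ) - v + ∑ j ∈ range i, ((P j : ℤ) - p)

lemma sz_succ (p v : ℕ) (P : ℕ → ℕ) (i : ℕ) : sz p v P (i + 1) = sz p v P i + P i - p := by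
  unfold sz
  rw [sum_range_succ]; ring

end

end Pool.Agent.Work.MP_713a1e_co
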