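import Mathlib

/-! Parameters and residues for the key lemma. -/

namespace Pool.Agent.Work.MP_713a1e_co

open Finset Filter
open scoped Real

noncomputable section

lemma exists_j0 {κ C : ℝ} (hκ0 : 0 < κ) (hκ1 : κ ≤ 1) :
    ∃ j0 : ℕ, ∀ j ≥ j0, (1 - κ) ^ j * ((j : ℝ) + 5) * C ≤ 1 / 2 := by
  have h1 : Tendsto (fun j : ℕ => (j : ℝ) * (1 - κ) ^ j) atTop (nhds 0) :=
    tendsto_self_mul_const_pow_of_lt_one (by linarith) (by linarith)
  have h2 : Tendsto (fun j : ℕ => (1 - κ) ^ j) atTop (nhds 0) :=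
    tendsto_pow_atTop_nhds_zero_of_lt_one (by linarith) (by linarith)
  have h3 : Tendsto (fun j : ℕ => ((j : ℝ) * (1 - κ) ^ j + 5 * (1 - κ) ^ j) * C) atTop (nhds 0) := by
    have := (h1.add (h2.const_mul 5)).mul_const C
    simpa using this
  have h4 : ∀ᶠ j : ℕ in atTop, ((j : ℝ) * (1 - κ) ^ j + 5 * (1 - κ) ^ j) * C < 1 / 2 :=
    h3.eventually_lt_const (by norm_num)
  obtain ⟨j0, hj0⟩ := eventually_atTop.1 h4
  refine ⟨j0, fun j hj => ?_⟩
  have := hj0 j hj
  have e : (1 - κ) ^ j * ((j : ℝ) + 5) * C = ((j : ℝ) * (1 - κ) ^ j + 5 * (1 - κ) ^ j) * C := by ring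
  rw [e]; exact this.le

lemma params {C₁ Q : ℝ} (hC₁ : 1 ≤ C₁) (hQ : 16 * C₁ ≤ Q) :
    ∃ η : ℝ, 0 < η ∧ 48 * C₁ * Q * η = 48 / 1000 ∧ η ≤ 1 / 16000 ∧
      10 * (32 * C₁ + 1) * η ≤ 1 := by
  have hQ16 : (16 : ℝ) ≤ Q := by linarith
  have hCQ : 16 ≤ C₁ * Q := by nlinarith
  have hQ0 : 0 < Q := by linarith
  refine ⟨1 / (1000 * C₁ * Q), by positivity, by field_simp, ?_, ?_⟩
  · apply one_div_le_one_div_of_le (by norm_num)
    nlinarith
  · rw [mul_one_div, div_le_one (by positivity)]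
    nlinarith

/-- residues `± 1` with prescribed sum -/
lemma exists_units {k B N : ℕ} (hB0 : 2 ≤ B) (hk : B ≤ k) (hN : k ≤ N)
    (hpar : N % 2 = k % 2) :
    ∃ u : Fin k → ℕ, (∀ i, Nat.Coprime (u i) B) ∧ (∀ i, u i < B) ∧
      ((N : ℤ) - ∑ i, (u i : ℤ)) % B = 0 := by
  obtain ⟨w, hw⟩ : ∃ w, N = k + 2 * w := ⟨(N - k) / 2, by omega⟩
  obtain ⟨t, ht⟩ : ∃ t, t = B - w % B := ⟨_, rfl⟩
  have hwB := Nat.mod_lt w (by omega : 0 < B)
  have htk : t ≤ k := by omega
  refine ⟨fun i => if (i : ℕ) < t then B - 1 else 1, ?_, ?_, ?_⟩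
  · intro i
    dsimp only
    split_ifs
    · have h2 : Nat.Coprime (B - 1) (B - 1 + 1) := by simp
      rwa [show B - 1 + 1 = B by omega] at h2
    · simp
  · intro i
    dsimp only
    split_ifs
    · omega
    · omega
  · have hsum : ∑ i : Fin k, (((if (i : ℕ) < t then B - 1 else 1 : ℕ)) : ℤ) =
        (k : ℤ) + t * ((B : ℤ) - 2) := by
      rw [Fin.sum_univ_eq_sum_range (fun i => (((if i < t then B - 1 else 1 : ℕ)) : ℤ)) k]
      have h1 : ∀ i ∈ range k, (((if i < t then B - 1 else 1 : ℕ)) : ℤ) =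
          1 + (if i < t then ((B : ℤ) - 2) else 0) := by
        intro i _
        split_ifs
        · rw [Nat.cast_sub (by omega)]; push_cast; ring
        · simp
      rw [sum_congr rfl h1, sum_add_distrib, sum_const, card_range, ← sum_filter, sum_const]
      have h2 : (range k).filter (fun i => i < t) = range t := by
        ext i; simp only [mem_filter, mem_range]; omega
      rw [h2, card_range]
      simp
    rw [hsum, hw]
    have h3 : (w : ℤ) = B * (w / B : ℕ) + (w % B : ℕ) := by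
      exact_mod_cast (Nat.div_add_mod w B).symm
    have h4 : (t : ℤ) = B - (w % B : ℕ) := by
      rw [ht, Nat.cast_sub hwB.le]
    have h5 : (((k + 2 * w : ℕ) : ℤ)) - ((k : ℤ) + t * ((B : ℤ) - 2)) =
        B * (2 * (w / B : ℕ) + 2 - t) := by
      rw [Nat.cast_add, Nat.cast_mul, h4, Nat.cast_ofNat]
      generalize ((w / B : ℕ) : ℤ) = q at *
      generalize ((w % B : ℕ) : ℤ) = s at *
      rw [h3]; ring
    rw [h5]
    exact Int.mul_emod_right _ _

end

end Pool.Agent.Work.MP_713a1e_co
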