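import Mathlib
import Pool.Agent.Work.MP_713a1e_co.KeyBase

/-! Starting points of the short intervals in the key lemma. -/

namespace Pool.Agent.Work.MP_713a1e_co

open Finset Filter
open scoped Real

noncomputable section

/-- the length of the intervals -/
lemma key_length {B M₀ F j : ℕ} (hB : B = 2 * F) (hF : 0 < F) (hM₀0 : 0 < M₀) {ε₂ : ℝ}
    (hε₂0 : 0 < ε₂) {n : ℕ} (hn1 : 2 * B * M₀ / ε₂ ≤ (n : ℝ))
    (hn2 : 64 * (4 + j) * (j + 6) * (2 * B) / ε₂ ≤ (n : ℝ)) :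
    ∃ X : ℕ, M₀ ∣ X ∧ 1 ≤ X ∧ ε₂ / (2 * B) * n ≤ (X : ℝ) ∧ (B : ℝ) * X ≤ ε₂ * n ∧
      ε₂ * n / 2 ≤ (B : ℝ) * X ∧ 32 * (4 + j : ℝ) * (j + 6) ≤ X / 2 := by
  have hB0 : 0 < B := by omega
  have hB0r : (0 : ℝ) < B := by exact_mod_cast hB0
  have hM₀r : (0 : ℝ) < M₀ := by exact_mod_cast hM₀0
  rw [div_le_iff₀ hε₂0] at hn1 hn2
  obtain ⟨z, hz⟩ : ∃ z : ℕ, z = ⌊ε₂ * n / (B * M₀)⌋₊ := ⟨_, rfl⟩
  obtain ⟨X, hX⟩ : ∃ X : ℕ, X = M₀ * z := ⟨_, rfl⟩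
  have hXr : (X : ℝ) = M₀ * z := by rw [hX]; push_cast; ring
  have hzle : (z : ℝ) ≤ ε₂ * n / (B * M₀) := by
    rw [hz]; exact Nat.floor_le (by positivity)
  have hzlt : ε₂ * n / (B * M₀) < z + 1 := by
    rw [hz]; exact Nat.lt_floor_add_one _
  have hBXle : (B : ℝ) * X ≤ ε₂ * n := by
    rw [le_div_iff₀ (by positivity)] at hzle
    rw [hXr]; linarith
  have hBXge : ε₂ * n / 2 ≤ (B : ℝ) * X := by
    rw [div_lt_iff₀ (by positivity)] at hzlt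
    rw [hXr]; linarith
  have hXge : ε₂ / (2 * B) * n ≤ X := by
    have : ε₂ / (2 * B) * n = (ε₂ * n / 2) / B := by field_simp
    rw [this, div_le_iff₀ hB0r]; linarith
  have hXbig : 32 * (4 + j : ℝ) * (j + 6) ≤ X / 2 := by
    have h1 : 64 * (4 + j : ℝ) * (j + 6) ≤ ε₂ / (2 * B) * n := by
      have : ε₂ / (2 * B) * n = (n * ε₂) / (2 * B) := by ring
      rw [this, le_div_iff₀ (by positivity)]; linarith
    linarith
  have hj46 : 0 < (4 + j : ℝ) * (j + 6) := by positivity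
  have hX0 : (0 : ℝ) < X := by linarith
  exact ⟨X, ⟨z, hX⟩, by exact_mod_cast hX0, hXge, hBXle, hBXge, hXbig⟩

/-- the starting points -/
lemma key_points {B X H j N : ℕ} (hB2 : 2 ≤ B) (hkB : B ≤ 4 + j) (hpar : N % 2 = (4 + j) % 2)
    {c : Fin (4 + j) → ℕ} (hc2 : ∀ i, (2 : ℝ) ≤ c i) (hHc : ∀ i, H ≤ c i)
    (hcN : |(N : ℝ) - ∑ i, (c i : ℝ)| ≤ (4 + j : ℕ)) (hH2r : (B : ℝ) * X = 2 * H)
    (hXbig : 32 * (4 + j : ℝ) * (j + 6) ≤ X / 2) :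
    ∃ v r : Fin (4 + j) → ℕ, (∀ i, Nat.Coprime (v i) B) ∧ (∀ i, r i < B) ∧
      (∀ i, (v i : ℝ) = c i - H + r i) ∧ ∃ N'' : ℕ, (N : ℤ) - ∑ i, (v i : ℤ) = B * N'' ∧
      |(N'' : ℝ) - (4 + j) * X / 2| ≤ 1 / (8 * (j + 6)) * X := by
  have hBr : (2 : ℝ) ≤ B := by exact_mod_cast hB2
  have hB0r : (0 : ℝ) < B := by linarith
  have hkN : 4 + j ≤ N := by
    have h1 : (4 + j : ℝ) * 2 ≤ ∑ i : Fin (4 + j), (c i : ℝ) := by
      have := Finset.card_nsmul_le_sum (univ : Finset (Fin (4 + j))) (fun i => (c i : ℝ)) 2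
        (fun i _ => hc2 i)
      rw [card_univ, Fintype.card_fin, nsmul_eq_mul] at this
      push_cast at this
      exact this
    rw [abs_le] at hcN
    have h4 : ((4 + j : ℕ) : ℝ) ≤ N := by
      have := hcN.1
      push_cast at this ⊢
      linarith
    exact_mod_cast h4
  obtain ⟨u, hu1, hu2, hu3⟩ := exists_units hB2 hkB hkN hpar
  obtain ⟨r, hr⟩ : ∃ r : Fin (4 + j) → ℕ, r = fun i => (u i + (B - (c i - H) % B)) % B := ⟨_, rfl⟩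
  obtain ⟨v, hv⟩ : ∃ v : Fin (4 + j) → ℕ, v = fun i => (c i - H) + r i := ⟨_, rfl⟩
  have hrB : ∀ i, r i < B := fun i => by rw [hr]; exact Nat.mod_lt _ (by omega)
  have hvi : ∀ i, v i = (c i - H) + r i := fun i => by rw [hv]
  have hvr : ∀ i, (v i : ℝ) = c i - H + r i := fun i => by
    rw [hvi i, Nat.cast_add, Nat.cast_sub (hHc i)]
  have hvu : ∀ i, v i ≡ u i [MOD B] := by
    intro i
    rw [hvi i, hr]
    unfold Nat.ModEq
    simp only []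
    rw [Nat.add_mod, Nat.mod_mod, ← Nat.add_mod]
    have h1 := Nat.mod_lt (c i - H) (by omega : 0 < B)
    have h2 := Nat.div_add_mod (c i - H) B
    have h3 : c i - H + (u i + (B - (c i - H) % B)) = u i + B * ((c i - H) / B + 1) := by
      rw [mul_add, mul_one]
      omega
    rw [h3, Nat.add_mul_mod_self_left]
  have hvcop : ∀ i, Nat.Coprime (v i) B := by
    intro i
    have := (hvu i).gcd_eq
    unfold Nat.Coprime
    rw [this]; exact hu1 i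
  -- the sum
  have hdvd : (B : ℤ) ∣ (N : ℤ) - ∑ i, (v i : ℤ) := by
    have h1 : (B : ℤ) ∣ (N : ℤ) - ∑ i, (u i : ℤ) := Int.dvd_of_emod_eq_zero hu3
    have h2 : (B : ℤ) ∣ ∑ i, (u i : ℤ) - ∑ i, (v i : ℤ) := by
      rw [← sum_sub_distrib]
      exact dvd_sum fun i _ => (Nat.modEq_iff_dvd.1 (hvu i))
    have := dvd_add h1 h2
    have e : (N : ℤ) - ∑ i, (u i : ℤ) + (∑ i, (u i : ℤ) - ∑ i, (v i : ℤ)) =
      (N : ℤ) - ∑ i, (v i : ℤ) := by ring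
    rwa [e] at this
  obtain ⟨N', hN'⟩ := hdvd
  have hN'r : (N : ℝ) - ∑ i, (v i : ℝ) = B * N' := by
    exact_mod_cast congrArg (fun z : ℤ => (z : ℝ)) hN'
  have hsumv : ∑ i, (v i : ℝ) = ∑ i, (c i : ℝ) - (4 + j) * H + ∑ i, (r i : ℝ) := by
    rw [sum_congr rfl fun i _ => hvr i, sum_add_distrib, sum_sub_distrib, sum_const, card_univ,
      Fintype.card_fin, nsmul_eq_mul]
    push_cast
    ring
  have hsumr : ∑ i, (r i : ℝ) ≤ (4 + j) * B := by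
    have := Finset.sum_le_card_nsmul (univ : Finset (Fin (4 + j))) (fun i => (r i : ℝ)) B
      (fun i _ => by exact_mod_cast (hrB i).le)
    rw [card_univ, Fintype.card_fin, nsmul_eq_mul] at this
    push_cast at this
    exact this
  have hsumr0 : 0 ≤ ∑ i, (r i : ℝ) := sum_nonneg fun i _ => Nat.cast_nonneg _
  have hdev : |(B : ℝ) * (N' - (4 + j) * X / 2)| ≤ (4 + j) * (B + 1) := by
    have e : (B : ℝ) * (N' - (4 + j) * X / 2) = (N - ∑ i, (c i : ℝ)) - ∑ i, (r i : ℝ) := by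
      have e1 : (B : ℝ) * (N' - (4 + j) * X / 2) = B * N' - (4 + j) * (B * X) / 2 := by ring
      rw [e1, ← hN'r, hsumv, hH2r]; ring
    rw [e, abs_le]
    rw [abs_le] at hcN
    push_cast at hcN
    have hjB : 0 ≤ (4 + j : ℝ) * B := by positivity
    constructor <;> linarith [hcN.1, hcN.2]
  have hdev2 : |(N' : ℝ) - (4 + j) * X / 2| ≤ 2 * (4 + j) := by
    rw [abs_mul, abs_of_pos hB0r] at hdev
    have h1 : (4 + j : ℝ) * (B + 1) ≤ B * (2 * (4 + j)) := by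
      have h2 : (4 + j : ℝ) * (B + 1) ≤ (4 + j) * (2 * B) :=
        mul_le_mul_of_nonneg_left (by linarith) (by positivity)
      linarith
    exact le_of_mul_le_mul_left (hdev.trans h1) hB0r
  have hΔ : |(N' : ℝ) - (4 + j) * X / 2| ≤ 1 / (8 * (j + 6)) * X := by
    refine hdev2.trans ?_
    rw [one_div, ← div_eq_inv_mul, le_div_iff₀ (by positivity)]
    linarith
  have hN'0 : 0 ≤ N' := by
    have h1 : (0 : ℝ) < N' := by
      rw [abs_le] at hdev2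
      have hjr : (0 : ℝ) ≤ j := Nat.cast_nonneg j
      have h2 : 0 < (4 + j : ℝ) * (X / 2 - 2) := by
        apply mul_pos (by positivity)
        have h3 : (4 : ℝ) * 6 ≤ (4 + j : ℝ) * (j + 6) := by
          apply mul_le_mul <;> linarith
        linarith
      linarith [hdev2.1]
    exact_mod_cast h1.le
  obtain ⟨N'', rfl⟩ : ∃ N'' : ℕ, N' = N'' := ⟨N'.toNat, (Int.toNat_of_nonneg hN'0).symm⟩
  exact ⟨v, r, hvcop, hrB, hvr, N'', hN', by exact_mod_cast hΔ⟩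

/-- all arithmetic data of the key lemma -/
lemma key_start {B M₀ F j : ℕ} (hB : B = 2 * F) (hF : 0 < F) (hkB : B ≤ 4 + j) (hM₀0 : 0 < M₀)
    {ε ε₂ : ℝ} (hε₂0 : 0 < ε₂) (hε₂ε : ε₂ ≤ ε / 4) (hε₂64 : ε₂ ≤ 1 / 64) {n : ℕ}
    (hn1 : 2 * B * M₀ / ε₂ ≤ (n : ℝ))
    (hn2 : 64 * (4 + j) * (j + 6) * (2 * B) / ε₂ ≤ (n : ℝ)) (hn3 : 8 * (B + 2) / ε₂ ≤ (n : ℝ))
    {c : Fin (4 + j) → ℕ} {N : ℕ} (hc1 : ∀ i, (n : ℝ) / 8 ≤ c i) (hc2 : ∀ i, (c i : ℝ) ≤ 4 * n)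
    (hcN : |(N : ℝ) - ∑ i, (c i : ℝ)| ≤ (4 + j : ℕ)) (hpar : N % 2 = (4 + j) % 2) :
    ∃ X : ℕ, ∃ v : Fin (4 + j) → ℕ, ∃ N'' : ℕ, M₀ ∣ X ∧ 1 ≤ X ∧ ε₂ / (2 * B) * n ≤ (X : ℝ) ∧
      (B : ℝ) * X ≤ ε₂ * n ∧ ε₂ * n / 2 ≤ (B : ℝ) * X ∧ 32 * (4 + j : ℝ) * (j + 6) ≤ X / 2 ∧
      (∀ i, Nat.Coprime (v i) B) ∧ (∀ i, (n : ℝ) / 16 ≤ v i) ∧ (∀ i, (v i : ℝ) ≤ 5 * n) ∧
      (∀ i, X ≤ v i) ∧ (N : ℤ) - ∑ i, (v i : ℤ) = B * N'' ∧
      |(N'' : ℝ) - (4 + j) * X / 2| ≤ 1 / (8 * (j + 6)) * X ∧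
      ∀ i, ∀ x : ℝ, 0 ≤ x → x ≤ B * X → |x + v i - c i| ≤ ε * n := by
  have hB2 : 2 ≤ B := by omega
  have hBr : (2 : ℝ) ≤ B := by exact_mod_cast hB2
  obtain ⟨X, hX1, hX2, hX3, hX4, hX5, hX6⟩ := key_length hB hF hM₀0 hε₂0 hn1 hn2
  rw [div_le_iff₀ hε₂0] at hn1 hn3
  have hn0 : (0 : ℝ) < n := by
    have h1 : 0 < (n : ℝ) * ε₂ := lt_of_lt_of_le (by positivity) hn3
    exact (mul_pos_iff_of_pos_right hε₂0).1 h1
  have hX0 : (0 : ℝ) < X := by exact_mod_cast hX2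
  obtain ⟨H, hH⟩ : ∃ H : ℕ, H = F * X := ⟨_, rfl⟩
  have hH2 : B * X = 2 * H := by rw [hB, hH]; ring
  have hH2r : (B : ℝ) * X = 2 * H := by exact_mod_cast hH2
  have hHge : (B : ℝ) + 2 ≤ H := by linarith
  have hεn : ε₂ * n ≤ (1 / 64) * n := mul_le_mul_of_nonneg_right hε₂64 hn0.le
  have hεn' : ε₂ * n ≤ (ε / 4) * n := mul_le_mul_of_nonneg_right hε₂ε hn0.le
  have hHle : (H : ℝ) ≤ n / 128 := by linarith
  have hHc : ∀ i, H ≤ c i := by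
    intro i
    have := hc1 i
    have : (H : ℝ) ≤ c i := by linarith
    exact_mod_cast this
  have hc2' : ∀ i, (2 : ℝ) ≤ c i := fun i => by
    have := hc1 i
    linarith
  obtain ⟨v, r, hvcop, hrB, hvr, N'', hN', hΔ⟩ := key_points hB2 hkB hpar hc2' hHc hcN hH2r hX6
  have hXB : (X : ℝ) ≤ B * X := le_mul_of_one_le_left hX0.le (by linarith)
  have hri : ∀ i, (r i : ℝ) < B := fun i => by exact_mod_cast hrB i
  have hri0 : ∀ i, (0 : ℝ) ≤ r i := fun i => Nat.cast_nonneg _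
  have h16 : ∀ i, (n : ℝ) / 16 ≤ v i := fun i => by
    have h1 := hc1 i
    have h3 := hvr i
    have h4 := hri0 i
    linarith only [h1, h3, h4, hHle, hn0]
  refine ⟨X, v, N'', hX1, hX2, hX3, hX4, hX5, hX6, hvcop, h16, fun i => ?_, fun i => ?_, hN', hΔ,
    fun i x hx0 hx1 => ?_⟩
  · have h2 := hc2 i
    have h3 := hvr i
    have h4 := hri i
    linarith only [h2, h3, h4, hHge, hHle, hn0]
  · have h3 := h16 i
    have : (X : ℝ) ≤ v i := by linarith only [h3, hXB, hH2r, hHle, hn0]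
    exact_mod_cast this
  · have h3 := hvr i
    have h4 := hri i
    have h5 := hri0 i
    rw [abs_le]
    constructor
    · linarith only [h3, h4, h5, hx0, hx1, hH2r, hHge, hεn', hX4]
    · linarith only [h3, h4, h5, hx0, hx1, hH2r, hHge, hεn', hX4]

end

end Pool.Agent.Work.MP_713a1e_co
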