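import Mathlib
import Pool.Agent.Work.MP_713a1e_co.Fourier

/-! Large exponential sums of sets with small additive energy. -/

namespace Pool.Agent.Work.MP_713a1e_co

open Finset Complex
open scoped Real

noncomputable section

lemma one_sub_cos_ge {x η : ℝ} (hη : 0 ≤ η) (h : ∀ m : ℤ, η < |x - m|) :
    8 * η ^ 2 ≤ 1 - Real.cos (2 * π * x) := by
  set m := round x with hm
  have h1 : |x - m| ≤ 1 / 2 := abs_sub_round x
  have h2 := h m
  have h3 : Real.cos (2 * π * x) = Real.cos (2 * (π * (x - m))) := by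
    have : 2 * π * x = 2 * (π * (x - m)) + m * (2 * π) := by ring
    rw [this, Real.cos_add_int_mul_two_pi]
  have h4 : Real.cos (2 * (π * (x - m))) = 1 - 2 * Real.sin (π * (x - m)) ^ 2 := by
    rw [Real.cos_two_mul]
    have := Real.sin_sq_add_cos_sq (π * (x - m))
    linarith
  rw [h3, h4]
  have h5 : 2 * η ≤ |Real.sin (π * (x - m))| := by
    have h6 : ∀ y : ℝ, 0 ≤ y → y ≤ 1 / 2 → 2 * y ≤ Real.sin (π * y) := by
      intro y hy hy1
      have := Real.mul_le_sin (x := π * y) (by positivity) (by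
        have := mul_le_mul_of_nonneg_left hy1 Real.pi_pos.le
        linarith)
      have e : 2 / π * (π * y) = 2 * y := by field_simp
      linarith
    rcases le_total 0 (x - m) with h7 | h7
    · rw [abs_of_nonneg h7] at h1 h2
      have := h6 _ h7 h1
      exact le_trans (by linarith) (le_abs_self _)
    · rw [abs_of_nonpos h7] at h1 h2
      have h8 := h6 (-(x - m)) (by linarith) h1
      have h9 : Real.sin (π * -(x - m)) = -Real.sin (π * (x - m)) := by
        rw [mul_neg, Real.sin_neg]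
      rw [h9] at h8
      exact le_trans (by linarith) (neg_le_abs _)
  have h6 : (2 * η) ^ 2 ≤ Real.sin (π * (x - m)) ^ 2 := by
    rw [← sq_abs (Real.sin _)]
    exact pow_le_pow_left₀ (by positivity) h5 2
  nlinarith only [h6]

lemma sum_rho (A : Finset ℕ) (X : ℕ) (hA : A ⊆ range X) :
    ∑ j ∈ Ioo (-(X : ℤ)) X, (rho A j : ℝ) = (A.card : ℝ) ^ 2 := by
  have h := normSq_FF A X hA 0
  rw [FF_zero] at h
  have h2 : ∀ j ∈ Ioo (-(X : ℤ)) X, (rho A j : ℂ) * ee (0 * j) = (rho A j : ℂ) := by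
    intro j _
    rw [zero_mul, ee_zero, mul_one]
  rw [sum_congr rfl h2] at h
  have h3 : ((∑ j ∈ Ioo (-(X : ℤ)) X, (rho A j : ℝ) : ℝ) : ℂ) = (((A.card : ℝ) ^ 2 : ℝ) : ℂ) := by
    push_cast
    rw [← h]
    simp
    ring
  exact_mod_cast h3

open Classical in
/-- the Bohr set -/
def Bset (θ η : ℝ) (X : ℕ) : Finset ℤ :=
  (Ioo (-(X : ℤ)) X).filter (fun j => ∃ m : ℤ, |θ * j - m| ≤ η)

open Classical in
lemma mem_Bset {θ η : ℝ} {X : ℕ} {j : ℤ} :
    j ∈ Bset θ η X ↔ (-(X : ℤ) < j ∧ j < X) ∧ ∃ m : ℤ, |θ * j - m| ≤ η := by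
  unfold Bset
  rw [mem_filter, mem_Ioo]

lemma card_Bset_ge (A : Finset ℕ) (X : ℕ) (hX : 1 ≤ X) (hA : A ⊆ range X) (hne : A.Nonempty)
    {C η θ : ℝ} (hC : 0 < C) (hη : 0 < η) (hη1 : 2 * η ^ 2 ≤ 1)
    (hE : En A X ≤ C * (A.card : ℝ) ^ 4 / X)
    (hF : (1 - 2 * η ^ 2) * A.card < ‖FF A θ‖) :
    (X : ℝ) / (4 * C) ≤ (Bset θ η X).card := by
  classical
  have hX0 : (0 : ℝ) < X := by exact_mod_cast hX
  have ha : (0 : ℝ) < A.card := by exact_mod_cast hne.card_pos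
  set I := Ioo (-(X : ℤ)) X with hI
  set H := Bset θ η X with hH
  have hHI : H ⊆ I := fun j hj => by
    rw [hI, mem_Ioo]; exact (mem_Bset.1 hj).1
  have h1 : ‖FF A θ‖ ^ 2 = ∑ j ∈ I, (rho A j : ℝ) * Real.cos (2 * π * (θ * j)) := by
    have h := normSq_FF A X hA θ
    rw [Complex.mul_conj'] at h
    have h2 := congrArg Complex.re h
    rw [← Complex.ofReal_pow, Complex.ofReal_re, re_sum] at h2
    rw [h2]
    refine sum_congr rfl fun j _ => ?_
    have : ((rho A j : ℕ) : ℂ) = ((rho A j : ℝ) : ℂ) := by push_cast; rfl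
    rw [this, re_ofReal_mul, ee_re]
  have h2 := sum_rho A X hA
  have h3 : ∑ j ∈ I, (rho A j : ℝ) * (1 - Real.cos (2 * π * (θ * j))) =
      (A.card : ℝ) ^ 2 - ‖FF A θ‖ ^ 2 := by
    rw [h1, ← h2, ← sum_sub_distrib]
    exact sum_congr rfl fun j _ => by ring
  have h4 : (A.card : ℝ) ^ 2 - ‖FF A θ‖ ^ 2 ≤ 4 * η ^ 2 * (A.card : ℝ) ^ 2 := by
    have h5 : ((1 - 2 * η ^ 2) * A.card) ^ 2 ≤ ‖FF A θ‖ ^ 2 :=
      pow_le_pow_left₀ (mul_nonneg (by linarith) ha.le) hF.le 2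
    nlinarith only [h5, sq_nonneg (η ^ 2 * (A.card : ℝ))]
  have h5 : 8 * η ^ 2 * ∑ j ∈ I \ H, (rho A j : ℝ) ≤
      ∑ j ∈ I, (rho A j : ℝ) * (1 - Real.cos (2 * π * (θ * j))) := by
    rw [mul_sum]
    refine le_trans (sum_le_sum fun j hj => ?_) (sum_le_sum_of_subset_of_nonneg sdiff_subset
      fun j _ _ => mul_nonneg (Nat.cast_nonneg _) (by linarith [Real.cos_le_one (2 * π * (θ * j))]))
    rw [mem_sdiff] at hj
    have h6 : ∀ m : ℤ, η < |θ * j - m| := by
      intro m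
      by_contra hcon
      push Not at hcon
      exact hj.2 (mem_Bset.2 ⟨mem_Ioo.1 hj.1, m, hcon⟩)
    have h7 := one_sub_cos_ge hη.le h6
    have h8 : (0 : ℝ) ≤ rho A j := Nat.cast_nonneg _
    nlinarith only [mul_le_mul_of_nonneg_left h7 h8]
  have h6 : ∑ j ∈ I \ H, (rho A j : ℝ) ≤ (A.card : ℝ) ^ 2 / 2 := by
    have h7 : 8 * η ^ 2 * ∑ j ∈ I \ H, (rho A j : ℝ) ≤ 8 * η ^ 2 * ((A.card : ℝ) ^ 2 / 2) := by
      rw [h3] at h5
      linarith
    exact le_of_mul_le_mul_left h7 (by positivity)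
  have h7 : (A.card : ℝ) ^ 2 / 2 ≤ ∑ j ∈ H, (rho A j : ℝ) := by
    have h8 := sum_sdiff (f := fun j => (rho A j : ℝ)) hHI
    rw [← hI] at h2
    linarith
  have h8 : (∑ j ∈ H, (rho A j : ℝ)) ^ 2 ≤ H.card * ∑ j ∈ H, (rho A j : ℝ) ^ 2 :=
    sq_sum_le_card_mul_sum_sq
  have h9 : ∑ j ∈ H, (rho A j : ℝ) ^ 2 ≤ En A X :=
    sum_le_sum_of_subset_of_nonneg hHI fun j _ _ => sq_nonneg _
  have h10 : ((A.card : ℝ) ^ 2 / 2) ^ 2 ≤ H.card * (C * (A.card : ℝ) ^ 4 / X) := by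
    calc ((A.card : ℝ) ^ 2 / 2) ^ 2 ≤ (∑ j ∈ H, (rho A j : ℝ)) ^ 2 :=
          pow_le_pow_left₀ (by positivity) h7 2
      _ ≤ H.card * ∑ j ∈ H, (rho A j : ℝ) ^ 2 := h8
      _ ≤ H.card * (C * (A.card : ℝ) ^ 4 / X) := by
          gcongr
          exact h9.trans hE
  have h11 : (A.card : ℝ) ^ 4 * (X / (4 * C)) ≤ (A.card : ℝ) ^ 4 * H.card := by
    have : (A.card : ℝ) ^ 4 * (X / (4 * C)) = ((A.card : ℝ) ^ 2 / 2) ^ 2 * (X / C) := by
      field_simp; ring
    rw [this]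
    calc ((A.card : ℝ) ^ 2 / 2) ^ 2 * (X / C) ≤
        (H.card * (C * (A.card : ℝ) ^ 4 / X)) * (X / C) := by gcongr
      _ = _ := by field_simp
  exact le_of_mul_le_mul_left h11 (by positivity)

/-- two close elements -/
lemma close_pair (H : Finset ℤ) (X Q : ℕ) (hQ : 1 ≤ Q) (hH : H ⊆ Ioo (-(X : ℤ)) X)
    (hc : (2 * (X : ℝ)) / Q + 1 < H.card) :
    ∃ j ∈ H, ∃ j' ∈ H, j < j' ∧ j' - j < Q := by
  classical
  have hQ0 : (0 : ℝ) < Q := by exact_mod_cast hQ
  set f : ℤ → ℕ := fun j => ((j + X) / Q).toNat with hf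
  have hmaps : ∀ j ∈ H, f j ∈ range (2 * X / Q + 1) := by
    intro j hj
    have h1 := mem_Ioo.1 (hH hj)
    rw [mem_range]
    change ((j + X) / (Q : ℤ)).toNat < _
    have h2 : 0 ≤ (j + X) / Q := Int.ediv_nonneg (by omega) (by omega)
    have h3 : (j + X) / Q ≤ ((2 * X / Q : ℕ) : ℤ) := by
      push_cast
      exact Int.ediv_le_ediv (by omega) (by omega)
    omega
  have hcard : (range (2 * X / Q + 1)).card < H.card := by
    rw [card_range]
    have h1 : ((2 * X / Q : ℕ) : ℝ) ≤ (2 * X : ℝ) / Q := by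
      have := @Nat.cast_div_le ℝ _ _ _ (2 * X) Q
      push_cast at this
      exact this
    have h2 : ((2 * X / Q + 1 : ℕ) : ℝ) < H.card := by push_cast; linarith
    exact_mod_cast h2
  obtain ⟨x, hx, y, hy, hxy, hfxy⟩ := exists_ne_map_eq_of_card_lt_of_maps_to hcard hmaps
  have key : ∀ x ∈ H, ∀ y ∈ H, x < y → f x = f y → y - x < Q := by
    intro x hx y hy _ hfe
    have h1 := mem_Ioo.1 (hH hx)
    have h2 := mem_Ioo.1 (hH hy)
    have h3 : 0 ≤ (x + X) / (Q : ℤ) := Int.ediv_nonneg (by omega) (by omega)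
    have h4 : 0 ≤ (y + X) / (Q : ℤ) := Int.ediv_nonneg (by omega) (by omega)
    have h5 : (x + X) / (Q : ℤ) = (y + X) / (Q : ℤ) := by
      simp only [hf] at hfe
      omega
    have h6 := Int.emod_add_mul_ediv (x + X) Q
    have h7 := Int.emod_add_mul_ediv (y + X) Q
    have h8 := Int.emod_nonneg (x + X) (by omega : (Q : ℤ) ≠ 0)
    have h9 := Int.emod_lt_of_pos (y + X) (by omega : (0 : ℤ) < Q)
    rw [h5] at h6
    omega
  rcases lt_or_gt_of_ne hxy with h | h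
  · exact ⟨x, hx, y, hy, h, key x hx y hy h hfxy⟩
  · exact ⟨y, hy, x, hx, h, key y hy x hx h hfxy.symm⟩

/-- disjoint translates -/
lemma translates (H : Finset ℤ) (X R : ℕ) (s : ℤ) (hs : 0 ≤ s) (hH : H ⊆ Ioo (-(X : ℤ)) X)
    (hdis : ∀ u u' : ℕ, u < u' → u' < R → ∀ j ∈ H, ∀ j' ∈ H, j + u * s ≠ j' + u' * s) :
    (R : ℝ) * H.card ≤ 2 * X + R * s := by
  classical
  set T := (range R ×ˢ H).image (fun p => p.2 + (p.1 : ℤ) * s) with hT
  have hinj : Set.InjOn (fun p : ℕ × ℤ => p.2 + (p.1 : ℤ) * s) (range R ×ˢ H : Finset _) := by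
    rintro ⟨u, j⟩ h1 ⟨u', j'⟩ h2 h
    simp only [coe_product, Set.mem_prod, mem_coe, mem_range] at h1 h2
    simp only at h
    rcases lt_trichotomy u u' with h3 | h3 | h3
    · exact absurd h (hdis u u' h3 h2.1 j h1.2 j' h2.2)
    · subst h3
      simp only [Prod.mk.injEq, true_and]
      linarith
    · exact absurd h.symm (hdis u' u h3 h1.1 j' h2.2 j h1.2)
  have hcard : T.card = R * H.card := by
    rw [hT, card_image_of_injOn hinj, card_product, card_range]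
  have hsub : T ⊆ Ico (-(X : ℤ)) (X + R * s) := by
    intro x hx
    obtain ⟨⟨u, j⟩, h1, rfl⟩ := mem_image.1 hx
    rw [mem_product, mem_range] at h1
    have h2 := mem_Ioo.1 (hH h1.2)
    rw [mem_Ico]
    have h3 : (0 : ℤ) ≤ u * s := mul_nonneg (by omega) hs
    have h4 : (u : ℤ) * s ≤ R * s := mul_le_mul_of_nonneg_right (by have := h1.1; omega) hs
    constructor <;> simp only <;> omega
  have h1 := card_le_card hsub
  rw [hcard, Int.card_Ico] at h1
  have h2 : ((R * H.card : ℕ) : ℤ) ≤ X + R * s - -X := by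
    have h3 : (0 : ℤ) ≤ R * s := mul_nonneg (by omega) hs
    have h4 : (((X : ℤ) + R * s - -X).toNat : ℤ) = X + R * s - -X := Int.toNat_of_nonneg (by omega)
    rw [← h4]
    exact_mod_cast h1
  have h3 : ((R * H.card : ℕ) : ℝ) ≤ ((X + R * s - -X : ℤ) : ℝ) := by exact_mod_cast h2
  push_cast at h3
  linarith

/-- the structure of dense Bohr sets -/
lemma bohr_structure {θ η C : ℝ} {X Q : ℕ} (hC : 1 ≤ C) (hη : 0 < η)
    (hη1 : 10 * (32 * C + 1) * η ≤ 1) (hQ : 16 * C ≤ Q) (hX : 64 * C * Q ≤ X)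
    (hH : (X : ℝ) / (4 * C) ≤ (Bset θ η X).card) :
    ∃ q : ℕ, 1 ≤ q ∧ q < Q ∧ ∃ m : ℤ, |q * θ - m| ≤ 48 * C * Q * η / X := by
  classical
  have hQ0 : (0 : ℝ) < Q := by linarith
  have hQ1 : 1 ≤ Q := by
    have : (1 : ℝ) ≤ Q := by linarith
    exact_mod_cast this
  have hX0 : (0 : ℝ) < X := by nlinarith only [hX, mul_pos (by linarith : (0 : ℝ) < C) hQ0]
  set H := Bset θ η X with hHdef
  have hHI : H ⊆ Ioo (-(X : ℤ)) X := fun j hj => by
    rw [mem_Ioo]; exact (mem_Bset.1 hj).1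
  have hC4 : (X : ℝ) / (8 * C) + X / (8 * C) = X / (4 * C) := by field_simp; ring
  have hX8 : 1 < (X : ℝ) / (8 * C) := by
    rw [lt_div_iff₀ (by positivity)]
    nlinarith only [hX, hC, hQ, mul_nonneg (by linarith : (0 : ℝ) ≤ C)
      (by linarith : (0 : ℝ) ≤ (Q : ℝ) - 1)]
  obtain ⟨j, hj, j', hj', hjj, hlt⟩ := close_pair H X Q hQ1 hHI (by
    have : (2 * (X : ℝ)) / Q ≤ X / (8 * C) := by
      rw [div_le_div_iff₀ hQ0 (by positivity)]
      nlinarith only [mul_le_mul_of_nonneg_right hQ hX0.le]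
    linarith)
  obtain ⟨-, m, hm⟩ := mem_Bset.1 hj
  obtain ⟨-, m', hm'⟩ := mem_Bset.1 hj'
  obtain ⟨q, hq⟩ : ∃ q : ℕ, (q : ℤ) = j' - j := ⟨(j' - j).toNat, Int.toNat_of_nonneg (by omega)⟩
  have hq1 : 1 ≤ q := by omega
  have hqQ : q < Q := by omega
  have hqr : (q : ℝ) = j' - j := by exact_mod_cast hq
  refine ⟨q, hq1, hqQ, m' - m, ?_⟩
  set ξ : ℝ := q * θ - ((m' - m : ℤ) : ℝ) with hξ
  have hξ2 : |ξ| ≤ 2 * η := by
    have : ξ = (θ * j' - m') - (θ * j - m) := by rw [hξ, hqr]; push_cast; ring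
    rw [this]
    exact (abs_sub _ _).trans (by linarith)
  by_contra hcon
  push Not at hcon
  have hξ0 : 0 < |ξ| := lt_of_le_of_lt (by positivity) hcon
  -- the multiplier
  set i : ℕ := ⌈3 * η / |ξ|⌉₊ with hi
  have hi1 : 3 * η / |ξ| ≤ i := Nat.le_ceil _
  have hi2 : (i : ℝ) < 3 * η / |ξ| + 1 := Nat.ceil_lt_add_one (by positivity)
  have hiξ1 : 3 * η ≤ i * |ξ| := by rwa [div_le_iff₀ hξ0] at hi1
  have hiξ2 : i * |ξ| ≤ 5 * η := by
    have : i * |ξ| ≤ (3 * η / |ξ| + 1) * |ξ| := by gcongr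
    have e : (3 * η / |ξ| + 1) * |ξ| = 3 * η + |ξ| := by field_simp
    linarith
  set R : ℕ := ⌊1 / (10 * η)⌋₊ with hR
  have hR1 : (R : ℝ) ≤ 1 / (10 * η) := Nat.floor_le (by positivity)
  have hR2 : 1 / (10 * η) - 1 < R := Nat.sub_one_lt_floor _
  have hR3 : 32 * C ≤ R := by
    have : 32 * C + 1 ≤ 1 / (10 * η) := by
      rw [le_div_iff₀ (by positivity)]
      linarith
    linarith
  have hR5 : 5 * η * R ≤ 1 / 2 := by
    calc 5 * η * R ≤ 5 * η * (1 / (10 * η)) := by gcongr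
      _ = 1 / 2 := by field_simp; norm_num
  have hdis : ∀ u u' : ℕ, u < u' → u' < R → ∀ a ∈ H, ∀ b ∈ H,
      a + u * ((i * q : ℕ) : ℤ) ≠ b + u' * ((i * q : ℕ) : ℤ) := by
    intro u u' huu huR a ha b hb hab
    obtain ⟨-, k, hk⟩ := mem_Bset.1 ha
    obtain ⟨-, k', hk'⟩ := mem_Bset.1 hb
    obtain ⟨w, rfl⟩ : ∃ w, u' = u + w := ⟨u' - u, by omega⟩
    have hw1 : 1 ≤ w := by omega
    have hwR : w ≤ R := by omega
    have h1 : (a : ℝ) - b = w * (i * q) := by
      have : a - b = w * ((i * q : ℕ) : ℤ) := by push_cast at hab ⊢; linarith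
      exact_mod_cast this
    -- θ (a-b) = w i (ξ + integer)
    have h2 : θ * a - θ * b = w * i * ξ + ((w * i * (m' - m) : ℤ) : ℝ) := by
      rw [← mul_sub, h1, hξ]
      push_cast
      ring
    have h3 : |θ * a - θ * b - (((k - k' : ℤ)) : ℝ)| ≤ 2 * η := by
      have : θ * a - θ * b - (((k - k' : ℤ)) : ℝ) = (θ * a - k) - (θ * b - k') := by
        push_cast; ring
      rw [this]
      exact (abs_sub _ _).trans (by linarith)
    rw [h2] at h3
    set r : ℤ := (k - k') - w * i * (m' - m) with hr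
    have h4 : |w * i * ξ - r| ≤ 2 * η := by
      have : w * i * ξ + ((w * i * (m' - m) : ℤ) : ℝ) - (((k - k' : ℤ)) : ℝ) = w * i * ξ - r := by
        rw [hr]; push_cast; ring
      rwa [this] at h3
    have h5 : |(w * i * ξ : ℝ)| = w * (i * |ξ|) := by
      rw [abs_mul, abs_of_nonneg (by positivity : (0 : ℝ) ≤ w * i)]; ring
    have hw1r : (1 : ℝ) ≤ w := by exact_mod_cast hw1
    have hwRr : (w : ℝ) ≤ R := by exact_mod_cast hwR
    have h6 : 3 * η ≤ |(w * i * ξ : ℝ)| := by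
      rw [h5]
      have h7 : 0 ≤ (i : ℝ) * |ξ| := mul_nonneg (Nat.cast_nonneg _) (abs_nonneg _)
      nlinarith only [hiξ1, mul_nonneg (sub_nonneg.2 hw1r) h7]
    have h7 : |(w * i * ξ : ℝ)| ≤ 1 / 2 := by
      rw [h5]
      calc w * (i * |ξ|) ≤ R * (5 * η) := by gcongr
        _ ≤ 1 / 2 := by linarith
    by_cases hr0 : r = 0
    · rw [hr0, Int.cast_zero, sub_zero] at h4
      linarith
    · have h8 : (1 : ℝ) ≤ |(r : ℝ)| := by
        have : 1 ≤ |r| := Int.one_le_abs hr0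
        exact_mod_cast this
      have h9 : |(r : ℝ)| - |(w * i * ξ : ℝ)| ≤ |w * i * ξ - r| := by
        rw [abs_sub_comm]; exact abs_sub_abs_le_abs_sub _ _
      have hη2 : 2 * η < 1 / 2 := by nlinarith only [hη1, hη, mul_nonneg (sub_nonneg.2 hC) hη.le]
      linarith
  have htr := translates H X R ((i * q : ℕ) : ℤ) (by positivity) hHI hdis
  -- final contradiction
  have hR0 : (0 : ℝ) < R := by linarith
  have h1 : (H.card : ℝ) ≤ 2 * X / R + i * q := by
    have e : (2 * X / R + i * q : ℝ) = (2 * X + R * (i * q)) / R := by field_simp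
    rw [e, le_div_iff₀ hR0]
    push_cast at htr
    linarith
  have h2 : 2 * (X : ℝ) / R ≤ X / (16 * C) := by
    rw [div_le_div_iff₀ hR0 (by positivity)]
    nlinarith only [mul_le_mul_of_nonneg_right hR3 hX0.le]
  have h3 : (i : ℝ) * q ≤ X / (16 * C) + Q := by
    have h4 : 3 * η / |ξ| ≤ X / (16 * C * Q) := by
      rw [div_le_div_iff₀ hξ0 (by positivity)]
      rw [div_lt_iff₀ hX0] at hcon
      nlinarith only [hcon]
    have h5 : (q : ℝ) ≤ Q := by exact_mod_cast hqQ.le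
    calc (i : ℝ) * q ≤ (X / (16 * C * Q) + 1) * Q := by
          gcongr
          linarith
      _ = X / (16 * C) + Q := by field_simp
  have h4 : (Q : ℝ) ≤ X / (64 * C) := by
    rw [le_div_iff₀ (by positivity)]
    linarith
  have h5 : (X : ℝ) / (16 * C) + X / (16 * C) + X / (64 * C) < X / (4 * C) := by
    have : (X : ℝ) / (4 * C) - (X / (16 * C) + X / (16 * C) + X / (64 * C)) = 7 * X / (64 * C) := by
      field_simp; ring
    have h6 : 0 < 7 * (X : ℝ) / (64 * C) := by positivity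
    linarith
  linarith

/-- exponential sum at a rational point -/
lemma FF_rational (A : Finset ℕ) {q : ℕ} (hq : 1 ≤ q) {a : ℤ} (ha : ¬ (q : ℤ) ∣ a) {δ : ℝ}
    (heq : ∀ r < q, |(((A.filter (fun x => x % q = r)).card : ℝ)) - A.card / q| ≤ δ * A.card / q) :
    ‖FF A ((a : ℝ) / q)‖ ≤ δ * A.card := by
  classical
  have hq0 : (0 : ℝ) < q := by exact_mod_cast hq
  have h1 : FF A ((a : ℝ) / q) = ∑ r ∈ range q,
      ((A.filter (fun x => x % q = r)).card : ℂ) * ee (r * ((a : ℝ) / q)) := by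
    unfold FF
    rw [← sum_fiberwise_of_maps_to (g := fun x => x % q) (t := range q)
      (fun x _ => mem_range.2 (Nat.mod_lt _ (by omega)))]
    refine sum_congr rfl fun r _ => ?_
    rw [sum_congr rfl (g := fun _ => ee (r * ((a : ℝ) / q))) ?_]
    · rw [sum_const, nsmul_eq_mul]
    · intro x hx
      have hxr := (mem_filter.1 hx).2
      obtain ⟨k, hk⟩ : ∃ k : ℕ, x = r + q * k := by
        refine ⟨x / q, ?_⟩
        have := Nat.mod_add_div x q
        rw [hxr] at this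
        exact this.symm
      have h3 : (a : ℝ) / q * x = r * ((a : ℝ) / q) + ((a * (k : ℤ) : ℤ) : ℝ) := by
        rw [hk]
        push_cast
        field_simp
      rw [h3, ee_add_int]
  have h2 : ∑ r ∈ range q, ee ((r : ℝ) * ((a : ℝ) / q)) = 0 := by
    rw [sum_ee q (by omega), if_neg ha]
  have h3 : FF A ((a : ℝ) / q) = ∑ r ∈ range q,
      ((((A.filter (fun x => x % q = r)).card : ℝ) - A.card / q : ℝ) : ℂ) *
        ee (r * ((a : ℝ) / q)) := by
    rw [h1]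
    have : ∀ r ∈ range q, ((A.filter (fun x => x % q = r)).card : ℂ) * ee (r * ((a : ℝ) / q)) =
        ((((A.filter (fun x => x % q = r)).card : ℝ) - A.card / q : ℝ) : ℂ) *
        ee (r * ((a : ℝ) / q)) + ((A.card : ℂ) / q) * ee (r * ((a : ℝ) / q)) := by
      intro r _
      push_cast
      ring
    rw [sum_congr rfl this, sum_add_distrib, ← mul_sum, h2, mul_zero, add_zero]
  rw [h3]
  refine (norm_sum_le _ _).trans ?_
  calc ∑ r ∈ range q, ‖((((A.filter (fun x => x % q = r)).card : ℝ) - A.card / q : ℝ) : ℂ) *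
        ee (r * ((a : ℝ) / q))‖ ≤ ∑ _r ∈ range q, δ * A.card / q := by
        refine sum_le_sum fun r hr => ?_
        rw [norm_mul, norm_ee, mul_one, Complex.norm_real, Real.norm_eq_abs]
        exact heq r (mem_range.1 hr)
    _ = δ * A.card := by
        rw [sum_const, card_range, nsmul_eq_mul]
        field_simp

lemma FF_perturb (A : Finset ℕ) (X : ℕ) (hA : A ⊆ range X) (θ β : ℝ) :
    ‖FF A (θ + β)‖ ≤ ‖FF A θ‖ + 2 * π * |β| * X * A.card := by
  have h1 : FF A (θ + β) = FF A θ + ∑ x ∈ A, ee (θ * x) * (ee (β * x) - 1) := by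
    unfold FF
    rw [← sum_add_distrib]
    refine sum_congr rfl fun x _ => ?_
    rw [add_mul, ee_add]
    ring
  rw [h1]
  refine (norm_add_le _ _).trans ?_
  have h2 : ‖∑ x ∈ A, ee (θ * x) * (ee (β * x) - 1)‖ ≤ ∑ _x ∈ A, 2 * π * |β| * X := by
    refine (norm_sum_le _ _).trans (sum_le_sum fun x hx => ?_)
    rw [norm_mul, norm_ee, one_mul]
    refine (norm_ee_sub_one _).trans ?_
    rw [abs_mul, abs_of_nonneg (Nat.cast_nonneg x : (0 : ℝ) ≤ x), ← mul_assoc]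
    have : (x : ℝ) ≤ X := by exact_mod_cast (mem_range.1 (hA hx)).le
    gcongr
  rw [sum_const, nsmul_eq_mul] at h2
  linarith

/-- **Minor arcs.** -/
theorem minor_of {A : Finset ℕ} {X Q : ℕ} {C η δ : ℝ} (hA : A ⊆ range X) (hne : A.Nonempty)
    (hC : 1 ≤ C) (hη : 0 < η) (hη1 : 10 * (32 * C + 1) * η ≤ 1) (hQ : 16 * C ≤ Q)
    (hX : 64 * C * Q ≤ X) (hE : En A X ≤ C * (A.card : ℝ) ^ 4 / X)
    (hδ : 2 * π * (48 * C * Q * η) + δ + 2 * η ^ 2 ≤ 1)
    (heq : ∀ q : ℕ, 1 ≤ q → q < Q → ∀ r < q,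
      |(((A.filter (fun x => x % q = r)).card : ℝ)) - A.card / q| ≤ δ * A.card / q)
    (θ : ℝ) (hF : (1 - 2 * η ^ 2) * A.card < ‖FF A θ‖) :
    ∃ m : ℤ, |θ - m| ≤ (48 * C * Q * η) / X := by
  have hQ0 : (0 : ℝ) < Q := by linarith
  have hX0 : (0 : ℝ) < X := by nlinarith only [hX, mul_pos (by linarith : (0 : ℝ) < C) hQ0]
  have hX1 : 1 ≤ X := by
    have : 0 < X := by exact_mod_cast hX0
    omega
  have ha : (0 : ℝ) < A.card := by exact_mod_cast hne.card_pos
  have hη2 : 2 * η ^ 2 ≤ 1 := by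
    have h0 : η ≤ 1 / 330 := by nlinarith only [hη1, mul_nonneg (sub_nonneg.2 hC) hη.le]
    nlinarith only [h0, hη]
  have hcard := card_Bset_ge A X hX1 hA hne (by linarith) hη hη2 hE hF
  obtain ⟨q, hq1, hqQ, m, hm⟩ := bohr_structure hC hη hη1 hQ hX hcard
  have hq0 : (0 : ℝ) < q := by exact_mod_cast hq1
  have hq1r : (1 : ℝ) ≤ q := by exact_mod_cast hq1
  set β : ℝ := θ - (m : ℝ) / q with hβ
  have hβle : |β| ≤ (48 * C * Q * η) / X := by
    have h1 : |β| = |q * θ - m| / q := by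
      rw [eq_div_iff hq0.ne', ← abs_of_pos hq0, ← abs_mul, abs_of_pos hq0, hβ]
      congr 1
      field_simp
    rw [h1]
    have h2 : |q * θ - m| / q ≤ |q * θ - m| := div_le_self (abs_nonneg _) hq1r
    exact h2.trans hm
  by_cases hdiv : (q : ℤ) ∣ m
  · obtain ⟨k, hk⟩ := hdiv
    refine ⟨k, ?_⟩
    have : (m : ℝ) / q = k := by
      rw [hk]; push_cast; field_simp
    rw [hβ, this] at hβle
    exact hβle
  · exfalso
    have h1 := FF_rational A hq1 hdiv (heq q hq1 hqQ)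
    have h2 := FF_perturb A X hA ((m : ℝ) / q) β
    have h3 : (m : ℝ) / q + β = θ := by rw [hβ]; ring
    rw [h3] at h2
    have h4 : 2 * π * |β| * X * A.card ≤ 2 * π * (48 * C * Q * η) * A.card := by
      have : |β| * X ≤ 48 * C * Q * η := by
        calc |β| * X ≤ (48 * C * Q * η) / X * X := by gcongr
          _ = _ := by field_simp
      calc 2 * π * |β| * X * A.card = 2 * π * (|β| * X) * A.card := by ring
        _ ≤ _ := by gcongr
    have h5 : (2 * π * (48 * C * Q * η) + δ) * A.card ≤ (1 - 2 * η ^ 2) * A.card := by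
      gcongr
      linarith
    linarith

end

end Pool.Agent.Work.MP_713a1e_co
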