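import Mathlib
import Pool.Agent.Work.MP_713a1e_co.Fourier

/-! The circle method with a fourth moment bound. -/

namespace Pool.Agent.Work.MP_713a1e_co

open Finset Complex
open scoped Real

noncomputable section

/-- analytic properties of a finite set `A ⊆ [0,X)` -/
structure Nice (A : Finset ℕ) (X : ℕ) (C κ c ε : ℝ) : Prop where
  sub : A ⊆ range X
  ne : A.Nonempty
  energy : En A X ≤ C * (A.card : ℝ) ^ 4 / X
  minor : ∀ θ : ℝ, (1 - κ) * A.card < ‖FF A θ‖ → ∃ m : ℤ, |θ - m| ≤ c / X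
  im : ∀ θ : ℝ, |θ| ≤ c / X → |(FF A θ * ee (-(θ * (X / 2)))).im| ≤ ε * A.card

lemma prod_near_re {ι : Type*} [DecidableEq ι] (s : Finset ι) (z : ι → ℂ) (ε : ℝ)
    (h1 : ∀ i ∈ s, ‖z i‖ ≤ 1) (h2 : ∀ i ∈ s, 0 ≤ (z i).re) (h3 : ∀ i ∈ s, |(z i).im| ≤ ε) :
    ‖∏ i ∈ s, z i - ∏ i ∈ s, ((z i).re : ℂ)‖ ≤ s.card * ε := by
  induction s using Finset.induction_on with
  | empty => simp
  | insert a s ha ih =>
    have ih' := ih (fun i hi => h1 i (mem_insert_of_mem hi)) (fun i hi => h2 i (mem_insert_of_mem hi))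
      (fun i hi => h3 i (mem_insert_of_mem hi))
    rw [prod_insert ha, prod_insert ha, card_insert_of_notMem ha]
    have e : z a * ∏ i ∈ s, z i - ((z a).re : ℂ) * ∏ i ∈ s, ((z i).re : ℂ) =
        z a * (∏ i ∈ s, z i - ∏ i ∈ s, ((z i).re : ℂ)) +
          (z a - (z a).re) * ∏ i ∈ s, ((z i).re : ℂ) := by ring
    rw [e]
    refine (norm_add_le _ _).trans ?_
    rw [norm_mul, norm_mul]
    have e1 : ‖z a - (z a).re‖ ≤ ε := by
      have : z a - (z a).re = (z a).im * I := by
        apply Complex.ext <;> simp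
      rw [this, norm_mul, norm_I, mul_one, Complex.norm_real, Real.norm_eq_abs]
      exact h3 a (mem_insert_self a s)
    have e2 : ‖∏ i ∈ s, ((z i).re : ℂ)‖ ≤ 1 := by
      rw [norm_prod]
      refine prod_le_one (fun i _ => norm_nonneg _) fun i hi => ?_
      rw [Complex.norm_real, Real.norm_eq_abs]
      exact (Complex.abs_re_le_norm _).trans (h1 i (mem_insert_of_mem hi))
    have e3 := h1 a (mem_insert_self a s)
    have hε : 0 ≤ ε := (norm_nonneg _).trans e1
    calc ‖z a‖ * ‖∏ i ∈ s, z i - ∏ i ∈ s, ((z i).re : ℂ)‖ +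
        ‖z a - (z a).re‖ * ‖∏ i ∈ s, ((z i).re : ℂ)‖
        ≤ 1 * (s.card * ε) + ε * 1 := by gcongr
      _ = _ := by push_cast; ring

/-- the real part is nonnegative near zero -/
lemma re_nonneg {A : Finset ℕ} {X : ℕ} (hA : A ⊆ range X) {θ c : ℝ} (hc : c ≤ 1 / 4)
    (hθ : |θ| ≤ c / X) : 0 ≤ (FF A θ * ee (-(θ * (X / 2)))).re := by
  unfold FF
  rw [sum_mul, re_sum]
  refine sum_nonneg fun x hx => ?_
  have hxX := mem_range.1 (hA hx)
  have hX : (0 : ℝ) < X := by exact_mod_cast (by omega : 0 < X)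
  have hx' : (x : ℝ) < X := by exact_mod_cast hxX
  have hx0 : (0 : ℝ) ≤ x := Nat.cast_nonneg x
  rw [← ee_add, ee_re]
  have h1 : |θ * x + -(θ * (X / 2))| ≤ 1 / 4 := by
    have : θ * x + -(θ * (X / 2)) = θ * (x - X / 2) := by ring
    rw [this, abs_mul]
    have h2 : |(x : ℝ) - X / 2| ≤ X := by
      rw [abs_le]; constructor <;> linarith
    calc |θ| * |(x : ℝ) - X / 2| ≤ c / X * X := by
          gcongr
          exact (abs_nonneg _).trans hθ
      _ = c := by field_simp
      _ ≤ 1 / 4 := hc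
  apply Real.cos_nonneg_of_mem_Icc
  rw [abs_le] at h1
  constructor
  · nlinarith [Real.pi_pos]
  · nlinarith [Real.pi_pos]

lemma amgm4 (f : Fin 4 → ℝ) (hf : ∀ i, 0 ≤ f i) : ∏ i, f i ≤ (1 / 4) * ∑ i, f i ^ 4 := by
  rw [Fin.prod_univ_four, Fin.sum_univ_four]
  have h0 := hf 0
  have h1 := hf 1
  have h2 := hf 2
  have h3 := hf 3
  nlinarith [sq_nonneg (f 0 ^ 2 - f 1 ^ 2), sq_nonneg (f 2 ^ 2 - f 3 ^ 2),
    sq_nonneg (f 0 * f 1 - f 2 * f 3)]

lemma minor_prod {j : ℕ} (a b : Fin (4 + j) → ℝ) {κ : ℝ} (hκ : κ ≤ 1) (ha : ∀ i, 0 ≤ a i)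
    (hb : ∀ i, 0 < b i) (hab : ∀ i, a i ≤ (1 - κ) * b i) :
    ∏ i, a i ≤ (∏ i, b i) * ((1 - κ) ^ j * ((1 / 4) *
      (∑ i : Fin 4, (a (Fin.castAdd j i) / b (Fin.castAdd j i)) ^ 4))) := by
  rw [Fin.prod_univ_add, Fin.prod_univ_add (f := b)]
  have e2 : ∏ i : Fin j, a (Fin.natAdd 4 i) ≤ (1 - κ) ^ j * ∏ i : Fin j, b (Fin.natAdd 4 i) := by
    calc ∏ i : Fin j, a (Fin.natAdd 4 i)
        ≤ ∏ i : Fin j, ((1 - κ) * b (Fin.natAdd 4 i)) :=
          prod_le_prod (fun i _ => ha _) fun i _ => hab _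
      _ = _ := by rw [prod_mul_distrib, prod_const, card_univ, Fintype.card_fin]
  have e3 := amgm4 (fun i => a (Fin.castAdd j i) / b (Fin.castAdd j i))
    (fun i => div_nonneg (ha _) (hb _).le)
  rw [prod_div_distrib] at e3
  have hQ0 : 0 < ∏ i : Fin 4, b (Fin.castAdd j i) := prod_pos fun i _ => hb _
  have hR0 : 0 < ∏ i : Fin j, b (Fin.natAdd 4 i) := prod_pos fun i _ => hb _
  rw [div_le_iff₀ hQ0] at e3
  have hκ0 : 0 ≤ (1 - κ) ^ j := pow_nonneg (by linarith) _
  set S := ∑ i : Fin 4, (a (Fin.castAdd j i) / b (Fin.castAdd j i)) ^ 4 with hS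
  have hS0 : 0 ≤ S := sum_nonneg fun i _ => pow_nonneg (div_nonneg (ha _) (hb _).le) _
  set Q := ∏ i : Fin 4, b (Fin.castAdd j i)
  set R := ∏ i : Fin j, b (Fin.natAdd 4 i)
  calc (∏ i : Fin 4, a (Fin.castAdd j i)) * ∏ i : Fin j, a (Fin.natAdd 4 i)
      ≤ (1 / 4 * S * Q) * ((1 - κ) ^ j * R) := by
        refine mul_le_mul e3 e2 (prod_nonneg fun i _ => ha _) (by positivity)
    _ = _ := by ring

/-- **Core lemma**. -/
theorem core {j : ℕ} {X N : ℕ} {C κ c ε Δ : ℝ} (A : Fin (4 + j) → Finset ℕ)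
    (hN : ∀ i, Nice (A i) X C κ c ε) (hX : 1 ≤ X) (hC : 0 ≤ C) (hκ1 : κ ≤ 1)
    (hc0 : 0 ≤ c) (hc : c ≤ 1 / 4) (hΔ : |(N : ℝ) - (4 + j) * X / 2| ≤ Δ * X)
    (hΔ1 : Δ ≤ 1)
    (hfin : 2 * ((j : ℝ) + 6) * ((4 + j) * ε + 2 * π * c * Δ) +
      (1 - κ) ^ j * ((j : ℝ) + 5) * C < 1) :
    ∃ f : Fin (4 + j) → ℕ, (∀ i, f i ∈ A i) ∧ ∑ i, f i = N := by
  classical
  have hX0 : (0 : ℝ) < X := by exact_mod_cast hX
  obtain ⟨M, hM⟩ : ∃ M : ℕ, M = (5 + j) * X := ⟨_, rfl⟩
  have hM0 : 0 < M := by rw [hM]; positivity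
  have hMr : (M : ℝ) = (5 + j) * X := by rw [hM]; push_cast; ring
  have hM0r : (0 : ℝ) < M := by exact_mod_cast hM0
  have hΔ0 : 0 ≤ Δ := by
    have := (abs_nonneg _).trans hΔ
    by_contra hneg
    push Not at hneg
    nlinarith
  have hNlt : N < M := by
    have h1 := (abs_le.1 hΔ).2
    have h2 : (N : ℝ) < M := by
      rw [hMr]
      have : Δ * X ≤ 1 * X := by gcongr
      have hj : (0 : ℝ) ≤ j := Nat.cast_nonneg j
      nlinarith
    exact_mod_cast h2
  have hε0 : 0 ≤ ε := by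
    have h := (hN 0).im 0 (by rw [abs_zero]; positivity)
    have h2 := (abs_nonneg _).trans h
    have h3 : (0 : ℝ) < (A 0).card := by exact_mod_cast (hN 0).ne.card_pos
    by_contra hneg
    push Not at hneg
    nlinarith
  have hcard : ∀ i, (0 : ℝ) < (A i).card := fun i => by exact_mod_cast (hN i).ne.card_pos
  -- normalised product
  obtain ⟨P, hP⟩ : ∃ P : ℝ, P = ∏ i, ((A i).card : ℝ) := ⟨_, rfl⟩
  have hP0 : 0 < P := by rw [hP]; exact prod_pos fun i _ => hcard i
  set g : ℕ → ℂ := fun t => (∏ i, FF (A i) ((t : ℝ) / M)) * ee (-((t : ℝ) / M * N)) with hg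
  set Maj : ℕ → Prop := fun t => ∃ m : ℤ, |(t : ℝ) / M - m| ≤ c / X with hMaj
  -- lower bound on major arcs
  have hmaj : ∀ t, Maj t → -(((4 + j) * ε + 2 * π * c * Δ) * P) ≤ (g t).re := by
    rintro t ⟨m, hm⟩
    set β : ℝ := (t : ℝ) / M - m with hβ
    have ht : (t : ℝ) / M = β + m := by rw [hβ]; ring
    set z : Fin (4 + j) → ℂ := fun i => FF (A i) β * ee (-(β * (X / 2))) / ((A i).card : ℂ) with hz
    set u : ℂ := ee (β * ((4 + j) * X / 2 - N)) with hu
    have hgz : g t = (P : ℂ) * ((∏ i, z i) * u) := by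
      simp only [hg, hz, hu]
      rw [ht]
      have e1 : ee (-((β + m) * N)) = ee (-(β * N)) := by
        have : -((β + m) * (N : ℝ)) = -(β * N) + ((-(m * (N : ℤ)) : ℤ) : ℝ) := by
          push_cast; ring
        rw [this, ee_add_int]
      rw [e1]
      have e2 : ∏ i, FF (A i) (β + m) = ∏ i, FF (A i) β :=
        prod_congr rfl fun i _ => FF_add_int _ _ _
      rw [e2, prod_div_distrib, prod_mul_distrib, prod_const, card_univ, Fintype.card_fin]
      have e3 : (∏ i, ((A i).card : ℂ)) = (P : ℂ) := by rw [hP]; push_cast; rfl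
      rw [e3]
      have e4 : ee (-(β * (X / 2))) ^ (4 + j) * ee (β * ((4 + j) * X / 2 - N)) =
          ee (-(β * N)) := by
        rw [← ee_nat_mul, ← ee_add]
        congr 1
        push_cast
        ring
      have hPc : (P : ℂ) ≠ 0 := by exact_mod_cast hP0.ne'
      rw [← e4]
      field_simp
    have hz1 : ∀ i ∈ (univ : Finset (Fin (4 + j))), ‖z i‖ ≤ 1 := by
      intro i _
      simp only [hz]
      rw [norm_div, norm_mul, norm_ee, mul_one, Complex.norm_natCast, div_le_one (hcard i)]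
      exact norm_FF_le _ _
    have hz2 : ∀ i ∈ (univ : Finset (Fin (4 + j))), 0 ≤ (z i).re := by
      intro i _
      simp only [hz]
      have e : FF (A i) β * ee (-(β * (X / 2))) / ((A i).card : ℂ) =
          (((A i).card : ℝ)⁻¹ : ℂ) * (FF (A i) β * ee (-(β * (X / 2)))) := by
        push_cast
        rw [div_eq_inv_mul]
      rw [e, ← Complex.ofReal_inv, Complex.re_ofReal_mul]
      exact mul_nonneg (inv_nonneg.2 (hcard i).le) (re_nonneg (hN i).sub hc hm)
    have hz3 : ∀ i ∈ (univ : Finset (Fin (4 + j))), |(z i).im| ≤ ε := by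
      intro i _
      simp only [hz]
      have e : FF (A i) β * ee (-(β * (X / 2))) / ((A i).card : ℂ) =
          (((A i).card : ℝ)⁻¹ : ℂ) * (FF (A i) β * ee (-(β * (X / 2)))) := by
        push_cast
        rw [div_eq_inv_mul]
      rw [e, ← Complex.ofReal_inv, Complex.im_ofReal_mul, abs_mul,
        abs_of_pos (inv_pos.2 (hcard i)), inv_mul_le_iff₀ (hcard i)]
      have := (hN i).im β hm
      linarith
    have hnear := prod_near_re univ z ε hz1 hz2 hz3
    rw [card_univ, Fintype.card_fin] at hnear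
    have hre : -((4 + j) * ε) ≤ (∏ i, z i).re := by
      have e1 : 0 ≤ (∏ i, ((z i).re : ℂ)).re := by
        rw [← Complex.ofReal_prod, Complex.ofReal_re]
        exact prod_nonneg fun i hi => hz2 i hi
      have e2 : -(‖∏ i, z i - ∏ i, ((z i).re : ℂ)‖) ≤ (∏ i, z i - ∏ i, ((z i).re : ℂ)).re :=
        (abs_le.1 (Complex.abs_re_le_norm _)).1
      rw [Complex.sub_re] at e2
      push_cast at hnear
      linarith
    have hzn : ‖∏ i, z i‖ ≤ 1 := by
      rw [norm_prod]
      exact prod_le_one (fun i _ => norm_nonneg _) hz1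
    have hun : ‖u - 1‖ ≤ 2 * π * c * Δ := by
      refine (norm_ee_sub_one _).trans ?_
      have e1 : |β * ((4 + j) * X / 2 - N)| ≤ c * Δ := by
        rw [abs_mul, abs_sub_comm ((4 + (j : ℝ)) * X / 2)]
        calc |β| * |(N : ℝ) - (4 + j) * X / 2| ≤ (c / X) * (Δ * X) := by gcongr
          _ = c * Δ := by field_simp
      have : 0 ≤ 2 * π := by positivity
      calc 2 * π * |β * ((4 + j) * X / 2 - N)| ≤ 2 * π * (c * Δ) := by gcongr
        _ = _ := by ring
    have hzu : -((4 + j) * ε + 2 * π * c * Δ) ≤ ((∏ i, z i) * u).re := by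
      have e1 : (∏ i, z i) * u = ∏ i, z i + (∏ i, z i) * (u - 1) := by ring
      rw [e1, Complex.add_re]
      have e2 : -‖(∏ i, z i) * (u - 1)‖ ≤ ((∏ i, z i) * (u - 1)).re :=
        (abs_le.1 (Complex.abs_re_le_norm _)).1
      have e3 : ‖(∏ i, z i) * (u - 1)‖ ≤ 1 * (2 * π * c * Δ) := by
        rw [norm_mul]; gcongr
      linarith
    rw [hgz, Complex.re_ofReal_mul]
    nlinarith
  -- the number of major arc points
  have hnum : (((range M).filter (fun t => Maj t ∧ t ≠ 0)).card : ℝ) ≤ 2 * (j + 6) := by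
    have hsub : (range M).filter (fun t => Maj t ∧ t ≠ 0) ⊆
        range (j + 6) ∪ (range (j + 6)).image (fun s => M - s) := by
      intro t ht
      simp only [mem_filter, mem_range] at ht
      obtain ⟨htM, ⟨m, hm⟩, ht0⟩ := ht
      have htM' : (t : ℝ) < M := by exact_mod_cast htM
      have ht0' : (0 : ℝ) ≤ t := Nat.cast_nonneg t
      have hcX : c / X * M ≤ j + 5 := by
        rw [hMr]
        have : c / X * ((5 + j) * X) = c * (5 + j) := by field_simp
        rw [this]
        have hj : (0 : ℝ) ≤ j := Nat.cast_nonneg j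
        nlinarith
      have hcX1 : c / X < 1 := by
        rw [div_lt_one hX0]
        have : (1 : ℝ) ≤ X := by exact_mod_cast hX
        linarith
      have htM1 : 0 ≤ (t : ℝ) / M := by positivity
      have htM2 : (t : ℝ) / M < 1 := by rw [div_lt_one hM0r]; exact htM'
      rw [abs_le] at hm
      have hm0 : m = 0 ∨ m = 1 := by
        have h1 : (m : ℝ) < 2 := by linarith
        have h2 : (-1 : ℝ) < m := by linarith
        have h1' : m < 2 := by exact_mod_cast h1
        have h2' : -1 < m := by exact_mod_cast h2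
        omega
      rw [mem_union, mem_image]
      rcases hm0 with rfl | rfl
      · left
        rw [mem_range]
        have h1 : (t : ℝ) / M ≤ c / X := by simpa using hm.2
        rw [div_le_iff₀ hM0r] at h1
        have h2 : (t : ℝ) < (j + 6 : ℕ) := by push_cast; linarith
        exact_mod_cast h2
      · right
        refine ⟨M - t, ?_, by omega⟩
        rw [mem_range]
        have h1 : 1 - (t : ℝ) / M ≤ c / X := by
          have := hm.1; push_cast at this; linarith
        have h2 : ((M - t : ℕ) : ℝ) ≤ c / X * M := by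
          rw [Nat.cast_sub htM.le]
          have : (1 - (t : ℝ) / M) * M = M - t := by field_simp
          rw [← this]
          gcongr
        have h3 : ((M - t : ℕ) : ℝ) < (j + 6 : ℕ) := by push_cast at h2 ⊢; linarith
        exact_mod_cast h3
    have h1 := card_le_card hsub
    have h2 : (range (j + 6) ∪ (range (j + 6)).image (fun s => M - s)).card ≤ 2 * (j + 6) := by
      refine (card_union_le _ _).trans ?_
      have := card_image_le (s := range (j + 6)) (f := fun s => M - s)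
      rw [card_range] at *
      omega
    exact_mod_cast h1.trans h2
  -- minor arcs
  have hmin : ∀ t ∈ (range M).filter (fun t => ¬ Maj t), ‖g t‖ ≤
      P * ((1 - κ) ^ j * ((1 / 4) * ∑ i : Fin 4,
        (‖FF (A (Fin.castAdd j i)) ((t : ℝ) / M)‖ / (A (Fin.castAdd j i)).card) ^ 4)) := by
    intro t ht
    rw [mem_filter] at ht
    have hnm := ht.2
    have hb : ∀ i, ‖FF (A i) ((t : ℝ) / M)‖ ≤ (1 - κ) * (A i).card := by
      intro i
      by_contra hcon
      push Not at hcon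
      exact hnm ((hN i).minor _ hcon)
    simp only [hg]
    rw [norm_mul, norm_ee, mul_one, norm_prod, hP]
    exact minor_prod (fun i => ‖FF (A i) ((t : ℝ) / M)‖) (fun i => ((A i).card : ℝ)) hκ1
      (fun i => norm_nonneg _) hcard hb
  -- total over the minor arcs
  have hmintot : ∑ t ∈ (range M).filter (fun t => ¬ Maj t), ‖g t‖ ≤
      P * ((1 - κ) ^ j * (j + 5) * C) := by
    have hκ0 : 0 ≤ (1 - κ) ^ j := pow_nonneg (by linarith) _
    obtain ⟨S4, hS4⟩ : ∃ S4 : ℕ → ℝ, S4 = fun t : ℕ => ∑ i : Fin 4,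
        (‖FF (A (Fin.castAdd j i)) ((t : ℝ) / M)‖ / (A (Fin.castAdd j i)).card) ^ 4 := ⟨_, rfl⟩
    have hS0 : ∀ t, 0 ≤ S4 t := by
      intro t; rw [hS4]; exact sum_nonneg fun i _ => by positivity
    have h1 : ∑ t ∈ (range M).filter (fun t => ¬ Maj t), ‖g t‖ ≤
        ∑ t ∈ (range M).filter (fun t => ¬ Maj t), P * ((1 - κ) ^ j * ((1 / 4) * S4 t)) := by
      refine sum_le_sum fun t ht => ?_
      rw [hS4]
      exact hmin t ht
    have h2 : ∑ t ∈ (range M).filter (fun t => ¬ Maj t), P * ((1 - κ) ^ j * ((1 / 4) * S4 t)) ≤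
        ∑ t ∈ range M, P * ((1 - κ) ^ j * ((1 / 4) * S4 t)) := by
      refine sum_le_sum_of_subset_of_nonneg (filter_subset _ _) fun t _ _ => ?_
      exact mul_nonneg hP0.le (mul_nonneg hκ0 (mul_nonneg (by norm_num) (hS0 t)))
    have h3 : ∑ t ∈ range M, P * ((1 - κ) ^ j * ((1 / 4) * S4 t)) =
        P * ((1 - κ) ^ j * ((1 / 4) * ∑ t ∈ range M, S4 t)) := by
      rw [mul_sum, mul_sum, mul_sum]
    have h4 : ∑ t ∈ range M, S4 t ≤ 4 * ((j + 5) * C) := by
      rw [hS4, sum_comm]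
      have h5 : ∀ i : Fin 4, ∑ t ∈ range M, (‖FF (A (Fin.castAdd j i)) ((t : ℝ) / M)‖ /
          (A (Fin.castAdd j i)).card) ^ 4 ≤ (j + 5) * C := by
        intro i
        have h6 : ∑ t ∈ range M, (‖FF (A (Fin.castAdd j i)) ((t : ℝ) / M)‖ /
            ((A (Fin.castAdd j i)).card : ℝ)) ^ 4 = M * En (A (Fin.castAdd j i)) X /
              ((A (Fin.castAdd j i)).card : ℝ) ^ 4 := by
          rw [← fourth_moment _ X M (hN _).sub hM0 (by rw [hM]; nlinarith), sum_div]
          exact sum_congr rfl fun t _ => div_pow _ _ _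
        rw [h6]
        have h7 := (hN (Fin.castAdd j i)).energy
        have h8 := hcard (Fin.castAdd j i)
        rw [div_le_iff₀ (by positivity)]
        calc M * En (A (Fin.castAdd j i)) X
            ≤ M * (C * ((A (Fin.castAdd j i)).card : ℝ) ^ 4 / X) := by gcongr
          _ = _ := by rw [hMr]; field_simp; ring
      calc ∑ i : Fin 4, ∑ t ∈ range M, (‖FF (A (Fin.castAdd j i)) ((t : ℝ) / M)‖ /
          (A (Fin.castAdd j i)).card) ^ 4 ≤ ∑ _i : Fin 4, ((j + 5) * C) :=
            sum_le_sum fun i _ => h5 i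
        _ = 4 * ((j + 5) * C) := by simp
    refine h1.trans (h2.trans ?_)
    rw [h3]
    have h9 : P * ((1 - κ) ^ j * ((1 / 4) * ∑ t ∈ range M, S4 t)) ≤
        P * ((1 - κ) ^ j * ((1 / 4) * (4 * ((j + 5) * C)))) := by gcongr
    refine h9.trans (le_of_eq ?_)
    ring
  -- conclusion
  have hg0 : g 0 = P := by
    simp only [hg]
    rw [Nat.cast_zero, zero_div, zero_mul, neg_zero, ee_zero, mul_one]
    have : ∀ i, FF (A i) 0 = ((A i).card : ℂ) := fun i => FF_zero _
    rw [prod_congr rfl fun i _ => this i, hP]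
    push_cast
    rfl
  have htotal : 0 < (∑ t ∈ range M, g t).re := by
    have hsplit : ∑ t ∈ range M, g t = g 0 + (∑ t ∈ (range M).filter (fun t => Maj t ∧ t ≠ 0), g t +
        ∑ t ∈ (range M).filter (fun t => ¬ Maj t), g t) := by
      rw [← sum_filter_add_sum_filter_not (range M) Maj]
      have h0 : Maj 0 := ⟨0, by simp; positivity⟩
      have h1 : (range M).filter Maj = insert 0 ((range M).filter (fun t => Maj t ∧ t ≠ 0)) := by
        ext t
        simp only [mem_filter, mem_insert, mem_range]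
        constructor
        · rintro ⟨h2, h3⟩
          by_cases h : t = 0
          · exact Or.inl h
          · exact Or.inr ⟨h2, h3, h⟩
        · rintro (rfl | ⟨h2, h3, -⟩)
          · exact ⟨hM0, h0⟩
          · exact ⟨h2, h3⟩
      rw [h1, sum_insert (by simp)]
      ring
    rw [hsplit, Complex.add_re, Complex.add_re, hg0, Complex.ofReal_re, re_sum, re_sum]
    have e1 : -(2 * ((j : ℝ) + 6) * (((4 + j) * ε + 2 * π * c * Δ) * P)) ≤
        ∑ t ∈ (range M).filter (fun t => Maj t ∧ t ≠ 0), (g t).re := by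
      have h1 : ∑ t ∈ (range M).filter (fun t => Maj t ∧ t ≠ 0),
          -(((4 + j) * ε + 2 * π * c * Δ) * P) ≤
          ∑ t ∈ (range M).filter (fun t => Maj t ∧ t ≠ 0), (g t).re :=
        sum_le_sum fun t ht => hmaj t (mem_filter.1 ht).2.1
      rw [sum_const, nsmul_eq_mul] at h1
      refine le_trans ?_ h1
      have h2 : 0 ≤ ((4 + j) * ε + 2 * π * c * Δ) * P := by positivity
      nlinarith
    have e2 : -(P * ((1 - κ) ^ j * (j + 5) * C)) ≤
        ∑ t ∈ (range M).filter (fun t => ¬ Maj t), (g t).re := by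
      have h1 : -(∑ t ∈ (range M).filter (fun t => ¬ Maj t), ‖g t‖) ≤
          ∑ t ∈ (range M).filter (fun t => ¬ Maj t), (g t).re := by
        rw [← sum_neg_distrib]
        exact sum_le_sum fun t _ => (abs_le.1 (Complex.abs_re_le_norm _)).1
      linarith
    have e3 : 0 < P * (1 - (2 * ((j : ℝ) + 6) * ((4 + j) * ε + 2 * π * c * Δ) +
      (1 - κ) ^ j * ((j : ℝ) + 5) * C)) := mul_pos hP0 (by linarith)
    nlinarith
  refine exists_rep A X M N (fun i => (hN i).sub) ?_ hNlt ?_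
  · rw [hM]; nlinarith
  · intro h0
    have : ∑ t ∈ range M, g t = 0 := h0
    rw [this] at htotal
    simp at htotal

end

end Pool.Agent.Work.MP_713a1e_co
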