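import Mathlib
import Pool.Agent.Work.MP_713a1e_co.Fourier

/-! The imaginary part of the exponential sum of a set equidistributed in subintervals. -/

namespace Pool.Agent.Work.MP_713a1e_co

open Finset Complex
open scoped Real

noncomputable section

/-- **Imaginary part.**  If `A ⊆ [0, J Y)` has about `|A|/J` elements in each `[jY, (j+1)Y)`, then the
sum centred at the middle is almost real for small frequencies. -/
theorem im_of {A : Finset ℕ} {J Y : ℕ} (hJ : 1 ≤ J) (hY : 1 ≤ Y) (hA : A ⊆ range (J * Y))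
    {δ c : ℝ}
    (heq : ∀ j < J, |(((A.filter (fun x => x / Y = j)).card : ℝ)) - A.card / J| ≤ δ * A.card / J)
    (θ : ℝ) (hθ : |θ| ≤ c / ((J * Y : ℕ) : ℝ)) :
    |(FF A θ * ee (-(θ * (((J * Y : ℕ) : ℝ) / 2)))).im| ≤ (δ + 2 * π * c / J) * A.card := by
  have hJ0 : (0 : ℝ) < J := by exact_mod_cast hJ
  have hY0 : (0 : ℝ) < Y := by exact_mod_cast hY
  have hX0 : (0 : ℝ) < ((J * Y : ℕ) : ℝ) := by push_cast; positivity
  set X : ℝ := ((J * Y : ℕ) : ℝ) with hX
  have hXe : X = J * Y := by rw [hX]; push_cast; ring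
  -- the midpoints
  set mid : ℕ → ℝ := fun j => Real.sin (2 * π * (θ * (Y * (j + 1 / 2) - X / 2))) with hmid
  have hθ0 : 0 ≤ c / X := (abs_nonneg _).trans hθ
  -- the imaginary part
  have h1 : (FF A θ * ee (-(θ * (X / 2)))).im = ∑ x ∈ A, Real.sin (2 * π * (θ * (x - X / 2))) := by
    unfold FF
    rw [sum_mul, im_sum]
    refine sum_congr rfl fun x _ => ?_
    rw [← ee_add, ee_im]
    congr 1
    ring
  have h2 : ∑ x ∈ A, Real.sin (2 * π * (θ * (x - X / 2))) =
      ∑ j ∈ range J, ∑ x ∈ A.filter (fun x => x / Y = j), Real.sin (2 * π * (θ * (x - X / 2))) := by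
    rw [sum_fiberwise_of_maps_to]
    intro x hx
    have := mem_range.1 (hA hx)
    rw [mem_range]
    exact Nat.div_lt_of_lt_mul (by rw [mul_comm]; exact this)
  -- the midpoint sum vanishes
  have h3 : ∑ j ∈ range J, mid j = 0 := by
    have h4 : ∑ j ∈ range J, mid j = ∑ j ∈ range J, mid (J - 1 - j) := (sum_range_reflect _ _).symm
    have h5 : ∑ j ∈ range J, mid (J - 1 - j) = - ∑ j ∈ range J, mid j := by
      rw [← sum_neg_distrib]
      refine sum_congr rfl fun j hj => ?_
      rw [mem_range] at hj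
      simp only [hmid]
      rw [← Real.sin_neg]
      congr 1
      have : ((J - 1 - j : ℕ) : ℝ) = J - 1 - j := by
        rw [Nat.cast_sub (by omega), Nat.cast_sub (by omega)]; simp
      rw [this, hXe]
      ring
    linarith
  -- each piece
  have h4 : ∀ j ∈ range J, |∑ x ∈ A.filter (fun x => x / Y = j),
      Real.sin (2 * π * (θ * (x - X / 2))) - (A.card / J) * mid j| ≤
      δ * A.card / J + (2 * π * c / J) * (A.filter (fun x => x / Y = j)).card := by
    intro j hj
    rw [mem_range] at hj
    have e1 : ∑ x ∈ A.filter (fun x => x / Y = j), Real.sin (2 * π * (θ * (x - X / 2))) -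
        (A.card / J) * mid j =
        (∑ x ∈ A.filter (fun x => x / Y = j), (Real.sin (2 * π * (θ * (x - X / 2))) - mid j)) +
        (((A.filter (fun x => x / Y = j)).card : ℝ) - A.card / J) * mid j := by
      rw [sum_sub_distrib, sum_const, nsmul_eq_mul]
      ring
    rw [e1]
    refine (abs_add_le _ _).trans ?_
    have e2 : |(((A.filter (fun x => x / Y = j)).card : ℝ) - A.card / J) * mid j| ≤
        δ * A.card / J := by
      rw [abs_mul]
      calc |((A.filter (fun x => x / Y = j)).card : ℝ) - A.card / J| * |mid j|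
          ≤ |((A.filter (fun x => x / Y = j)).card : ℝ) - A.card / J| * 1 := by
            gcongr
            exact Real.abs_sin_le_one _
        _ ≤ _ := by rw [mul_one]; exact heq j hj
    have e3 : |∑ x ∈ A.filter (fun x => x / Y = j), (Real.sin (2 * π * (θ * (x - X / 2))) - mid j)| ≤
        (2 * π * c / J) * (A.filter (fun x => x / Y = j)).card := by
      refine (abs_sum_le_sum_abs _ _).trans ?_
      have hcomm : (2 * π * c / J) * ((A.filter (fun x => x / Y = j)).card : ℝ) =
          (A.filter (fun x => x / Y = j)).card • (2 * π * c / J) := by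
        rw [nsmul_eq_mul, mul_comm]
      rw [hcomm]
      refine sum_le_card_nsmul _ _ _ fun x hx => ?_
      rw [mem_filter] at hx
      obtain ⟨_, hx⟩ := hx
      have hx1 : Y * j ≤ x := by
        rw [← hx]; exact Nat.mul_div_le x Y
      have hx2 : x < Y * (j + 1) := by
        rw [← hx]; exact Nat.lt_mul_div_succ x (by omega)
      have hx1' : (Y : ℝ) * j ≤ x := by exact_mod_cast hx1
      have hx2' : (x : ℝ) < Y * (j + 1) := by exact_mod_cast hx2
      have e4 : |Real.sin (2 * π * (θ * (x - X / 2))) - mid j| ≤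
          |2 * π * (θ * (x - X / 2)) - 2 * π * (θ * (Y * (j + 1 / 2) - X / 2))| := by
        have := Real.lipschitzWith_sin.dist_le_mul (2 * π * (θ * (x - X / 2)))
          (2 * π * (θ * (Y * (j + 1 / 2) - X / 2)))
        rw [Real.dist_eq, Real.dist_eq, NNReal.coe_one, one_mul] at this
        exact this
      refine e4.trans ?_
      have e5 : 2 * π * (θ * (x - X / 2)) - 2 * π * (θ * (Y * (j + 1 / 2) - X / 2)) =
          (2 * π) * (θ * (x - Y * (j + 1 / 2))) := by ring
      rw [e5, abs_mul (2 * π), abs_mul θ, abs_of_pos (by positivity : (0 : ℝ) < 2 * π)]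
      have e6 : |(x : ℝ) - Y * (j + 1 / 2)| ≤ Y := by
        rw [abs_le]; constructor <;> nlinarith
      calc 2 * π * (|θ| * |(x : ℝ) - Y * (j + 1 / 2)|) ≤ 2 * π * (c / X * Y) := by gcongr
        _ = 2 * π * c / J := by rw [hXe]; field_simp
    linarith
  rw [h1, h2]
  have h5 : ∑ j ∈ range J, ∑ x ∈ A.filter (fun x => x / Y = j),
      Real.sin (2 * π * (θ * (x - X / 2))) = ∑ j ∈ range J,
      (∑ x ∈ A.filter (fun x => x / Y = j), Real.sin (2 * π * (θ * (x - X / 2))) -
        (A.card / J) * mid j) := by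
    rw [sum_sub_distrib, ← mul_sum, h3]; ring
  rw [h5]
  refine (abs_sum_le_sum_abs _ _).trans ((sum_le_sum h4).trans ?_)
  rw [sum_add_distrib, sum_const, card_range, nsmul_eq_mul, ← mul_sum]
  have h6 : ∑ j ∈ range J, ((A.filter (fun x => x / Y = j)).card : ℝ) = A.card := by
    rw [← Nat.cast_sum, ← card_eq_sum_card_fiberwise]
    intro x hx
    have := mem_range.1 (hA hx)
    simp only [coe_range, Set.mem_Iio]
    exact Nat.div_lt_of_lt_mul (by rw [mul_comm]; exact this)
  rw [h6]
  have : (J : ℝ) * (δ * A.card / J) = δ * A.card := by field_simp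
  rw [this]
  linarith [this]

end

end Pool.Agent.Work.MP_713a1e_co
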