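import Mathlib
import Pool.Agent.Work.MP_713a1e_co.CountPA
import Pool.Agent.Work.MP_713a1e_co.Im
import Pool.Agent.Work.MP_713a1e_co.Bohr
import Pool.Agent.Work.MP_713a1e_co.Core

/-! Positions of primes in progressions are `Nice`. -/

namespace Pool.Agent.Work.MP_713a1e_co

open Finset Filter
open scoped Real

noncomputable section

/-- positions in a residue class mod `q` -/
lemma PA_mod (B v X q r : ℕ) (hr : r < q) (hq : q ∣ X) :
    ((PA B v X).filter (fun x => x % q = r)).card = (PA (B * q) (B * r + v) (X / q)).card := by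
  symm
  obtain ⟨X', rfl⟩ := hq
  have hq0 : 0 < q := by omega
  rw [Nat.mul_div_cancel_left _ hq0]
  refine card_bij (fun z _ => q * z + r) ?_ ?_ ?_
  · intro z hz
    simp only [PA, mem_filter, mem_range] at hz ⊢
    refine ⟨⟨?_, ?_⟩, ?_⟩
    · have : q * (z + 1) ≤ q * X' := Nat.mul_le_mul_left q hz.1
      rw [mul_add, mul_one] at this
      omega
    · have : B * (q * z + r) + v = B * q * z + (B * r + v) := by ring
      rw [this]; exact hz.2
    · rw [Nat.mul_add_mod, Nat.mod_eq_of_lt hr]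
  · intro x _ y _ h
    have : q * x = q * y := by simpa using h
    exact Nat.eq_of_mul_eq_mul_left hq0 this
  · intro x hx
    simp only [PA, mem_filter, mem_range] at hx
    refine ⟨x / q, ?_, ?_⟩
    · simp only [PA, mem_filter, mem_range]
      refine ⟨Nat.div_lt_of_lt_mul hx.1.1, ?_⟩
      have : B * q * (x / q) + (B * r + v) = B * (q * (x / q) + x % q) + v := by
        rw [hx.2]; ring
      rw [this, Nat.div_add_mod]
      exact hx.1.2
    · rw [← hx.2]; exact Nat.div_add_mod x q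

/-- positions in a subinterval -/
lemma PA_sub (B v Y J j : ℕ) (hY : 1 ≤ Y) (hj : j < J) :
    ((PA B v (J * Y)).filter (fun x => x / Y = j)).card = (PA B (v + B * (j * Y)) Y).card := by
  symm
  refine card_bij (fun z _ => j * Y + z) ?_ ?_ ?_
  · intro z hz
    simp only [PA, mem_filter, mem_range] at hz ⊢
    refine ⟨⟨?_, ?_⟩, ?_⟩
    · have : (j + 1) * Y ≤ J * Y := Nat.mul_le_mul_right Y hj
      rw [add_mul, one_mul] at this
      omega
    · have : B * (j * Y + z) + v = B * z + (v + B * (j * Y)) := by ring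
      rw [this]; exact hz.2
    · rw [mul_comm, Nat.mul_add_div (by omega), Nat.div_eq_of_lt hz.1, add_zero]
  · intro x _ y _ h
    simpa using h
  · intro x hx
    simp only [PA, mem_filter, mem_range] at hx
    have h1 : j * Y + x % Y = x := by
      rw [← hx.2, mul_comm]; exact Nat.div_add_mod x Y
    refine ⟨x % Y, ?_, h1⟩
    simp only [PA, mem_filter, mem_range]
    refine ⟨Nat.mod_lt _ (by omega), ?_⟩
    have : B * (x % Y) + (v + B * (j * Y)) = B * (j * Y + x % Y) + v := by ring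
    rw [this, h1]
    exact hx.1.2

lemma totient_mul_of_dvd {B q : ℕ} (hq : q ∣ B) (hq0 : 0 < q) :
    Nat.totient (B * q) = q * Nat.totient B := by
  have h := Nat.totient_gcd_mul_totient_mul B q
  rw [Nat.gcd_eq_right hq] at h
  have h1 : 0 < Nat.totient q := Nat.totient_pos.2 hq0
  have h2 : Nat.totient q * Nat.totient (B * q) = Nat.totient q * (q * Nat.totient B) := by
    rw [h]; ring
  exact Nat.eq_of_mul_eq_mul_left h1 h2

/-- Positions of primes `B x + v` are `Nice`. -/
theorem nice_ev (hAP : APProp) {C₁ X0 : ℝ} (hC₁ : 1 ≤ C₁)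
    (hE : ∀ (u v X : ℕ), 0 < u → Even u → Nat.Coprime v u → X0 ≤ (X : ℝ) →
      X ≤ v → (1 / 2) * ((u : ℝ) / Nat.totient u) * X / Real.log X ≤ (PA u v X).card →
      En (PA u v X) X ≤ C₁ * ((PA u v X).card : ℝ) ^ 4 / X)
    {Q : ℕ} (hQ : 16 * C₁ ≤ Q) {B : ℕ} (hB : Even B) (hB0 : 0 < B)
    (hBQ : ∀ q, 1 ≤ q → q < Q → q ∣ B) {J : ℕ} (hJ : 1 ≤ J) {M₀ : ℕ} (hM₀ : J ∣ M₀)
    (hM₀Q : ∀ q, 1 ≤ q → q < Q → q ∣ M₀) {ε₁ : ℝ} (hε₁ : 0 < ε₁) (hε₁' : ε₁ ≤ 1)
    {δ₁ : ℝ} (hδ₁ : 0 < δ₁) (hδ₁' : δ₁ ≤ 1 / 8) {η : ℝ} (hη : 0 < η)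
    (hη1 : 10 * (32 * C₁ + 1) * η ≤ 1)
    (hη2 : 2 * π * (48 * C₁ * Q * η) + 1 / 2 + 2 * η ^ 2 ≤ 1) :
    ∀ᶠ n : ℕ in atTop, ∀ X v : ℕ, M₀ ∣ X → ε₁ * n ≤ X → (B : ℝ) * X ≤ n → (n : ℝ) / 16 ≤ v →
      (v : ℝ) ≤ 5 * n → X ≤ v → Nat.Coprime v B →
      Nice (PA B v X) X C₁ (2 * η ^ 2) (48 * C₁ * Q * η)
        (4 * δ₁ + 2 * π * (48 * C₁ * Q * η) / J) := by
  have hJ0 : (0 : ℝ) < J := by exact_mod_cast hJ
  have hJ1 : (1 : ℝ) ≤ J := by exact_mod_cast hJ
  have hBr : (0 : ℝ) < B := by exact_mod_cast hB0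
  have hBr1 : (1 : ℝ) ≤ B := by exact_mod_cast hB0
  have hφ : (0 : ℝ) < Nat.totient B := by exact_mod_cast Nat.totient_pos.2 hB0
  set κ : ℝ := ε₁ / (16 * J) with hκ
  have hκ0 : 0 < κ := by positivity
  have hκ16 : κ ≤ 1 / 16 := by
    rw [hκ, div_le_div_iff₀ (by positivity) (by norm_num)]
    nlinarith only [hε₁', hJ1]
  have hκJ : κ * J ≤ ε₁ := by
    rw [hκ]
    have : ε₁ / (16 * J) * J = ε₁ / 16 := by field_simp
    rw [this]; linarith
  have hκε : κ ≤ ε₁ := by nlinarith only [hκJ, mul_nonneg hκ0.le (sub_nonneg.2 hJ1)]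
  have hQ0 : (0 : ℝ) < Q := by linarith
  have hQ0' : 0 < Q := by exact_mod_cast hQ0
  -- counting for the moduli `B q`
  have hcount : ∀ᶠ n : ℕ in atTop, ∀ q ∈ range (Q + 1), 1 ≤ q → ∀ v Y : ℕ,
      Nat.Coprime v (B * q) → κ * n ≤ v → (v : ℝ) + (B * q : ℕ) * Y ≤ n / κ →
      κ * n ≤ ((B * q : ℕ) : ℝ) * Y →
      |((PA (B * q) v Y).card : ℝ) - ((B * q : ℕ) : ℝ) * Y / (Nat.totient (B * q) * Real.log n)| ≤
        δ₁ * (((B * q : ℕ) : ℝ) * Y / (Nat.totient (B * q) * Real.log n)) := by
    rw [eventually_all_finset]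
    intro q _
    rcases Nat.eq_zero_or_pos q with h | h
    · exact Eventually.of_forall fun n h' => by omega
    · filter_upwards [count hAP (B * q) (Nat.mul_pos hB0 h) κ δ₁ hκ0 hδ₁] with n hn _
      exact hn
  have t1 : Tendsto (fun n : ℕ => (n : ℝ)) atTop atTop := tendsto_natCast_atTop_atTop
  have t2 : Tendsto (fun n : ℕ => Real.log n) atTop atTop := Real.tendsto_log_atTop.comp t1
  filter_upwards [hcount, t1.eventually_ge_atTop ((|X0| + 64 * C₁ * Q + 4) / ε₁),
    t2.eventually_ge_atTop (1 + 7 / 3 * |Real.log ε₁|)] with n hn hn1 hn2 X v hX hXlow hXup hvlow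
    hvup hXv hvB
  have hln : 0 < Real.log n := by have := abs_nonneg (Real.log ε₁); linarith
  have hn0 : (0 : ℝ) < n := by
    rcases Nat.eq_zero_or_pos n with h | h
    · rw [h] at hln; simp at hln
    · exact_mod_cast h
  rw [div_le_iff₀ hε₁] at hn1
  have hXr : |X0| + 64 * C₁ * Q + 4 ≤ X := by linarith
  have hCQ : 0 < 64 * C₁ * Q := by positivity
  have hXpos : (0 : ℝ) < X := by have := abs_nonneg X0; linarith
  have hX1 : (1 : ℝ) < X := by have := abs_nonneg X0; linarith
  -- the main term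
  set M : ℝ := (B : ℝ) * X / (Nat.totient B * Real.log n) with hM
  have hM0 : 0 < M := by positivity
  have hBX : κ * n ≤ (B : ℝ) * X := by
    calc κ * n ≤ ε₁ * n := by gcongr
      _ ≤ X := hXlow
      _ ≤ B * X := by exact le_mul_of_one_le_left hXpos.le hBr1
  have hnκ : 16 * (n : ℝ) ≤ n / κ := by
    rw [le_div_iff₀ hκ0]
    nlinarith only [mul_nonneg hn0.le (sub_nonneg.2 hκ16)]
  have hκn : κ * n ≤ n / 16 := by
    calc κ * n ≤ 1 / 16 * n := by gcongr
      _ = n / 16 := by ring
  have hA : |((PA B v X).card : ℝ) - M| ≤ δ₁ * M := by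
    have := hn 1 (mem_range.2 (by omega)) le_rfl v X (by simpa using hvB) (by linarith)
      (by simp only [mul_one]; linarith) (by simpa using hBX)
    simpa [hM] using this
  rw [abs_le] at hA
  have hAlow : M / 2 ≤ (PA B v X).card := by nlinarith only [hA.1, mul_nonneg hM0.le (sub_nonneg.2 hδ₁')]
  have hA0 : (0 : ℝ) < (PA B v X).card := by linarith
  have hne : (PA B v X).Nonempty := by
    rw [← card_pos]; exact_mod_cast hA0
  have hsub : PA B v X ⊆ range X := filter_subset _ _
  -- pieces: a general comparison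
  have comp : ∀ (m : ℝ) (c : ℕ), 0 < m → |(c : ℝ) - M / m| ≤ δ₁ * (M / m) →
      |(c : ℝ) - (PA B v X).card / m| ≤ 4 * δ₁ * (PA B v X).card / m := by
    intro m c hm hc
    rw [abs_le] at hc ⊢
    have e1 : (PA B v X).card / m ≤ (1 + δ₁) * (M / m) := by
      rw [mul_div_assoc', div_le_div_iff_of_pos_right hm]; linarith [hA.2]
    have e2 : (1 - δ₁) * (M / m) ≤ (PA B v X).card / m := by
      rw [mul_div_assoc', div_le_div_iff_of_pos_right hm]; linarith [hA.1]
    have e3 : M / m ≤ 2 * ((PA B v X).card / m) := by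
      rw [mul_div_assoc', div_le_div_iff_of_pos_right hm]; linarith
    have e4 : 0 < M / m := by positivity
    have e5 : 4 * δ₁ * (PA B v X).card / m = 4 * δ₁ * ((PA B v X).card / m) := by ring
    rw [e5]
    have e6 := mul_nonneg hδ₁.le (sub_nonneg.2 e3)
    constructor <;> nlinarith only [hc.1, hc.2, e1, e2, e6]
  -- energy
  have henergy : En (PA B v X) X ≤ C₁ * ((PA B v X).card : ℝ) ^ 4 / X := by
    refine hE B v X hB0 hB hvB (by linarith [le_abs_self X0]) hXv ?_
    have hlX : 0 < Real.log X := Real.log_pos hX1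
    have h1 : Real.log ε₁ + Real.log n ≤ Real.log X := by
      rw [← Real.log_mul hε₁.ne' hn0.ne']
      exact Real.log_le_log (by positivity) hXlow
    have h2 : 4 / 7 * Real.log n ≤ Real.log X := by
      have := neg_abs_le (Real.log ε₁); linarith
    calc (1 / 2) * ((B : ℝ) / Nat.totient B) * X / Real.log X
        ≤ (1 / 2) * ((B : ℝ) / Nat.totient B) * X / (4 / 7 * Real.log n) := by gcongr
      _ = 7 / 8 * M := by rw [hM]; field_simp; ring
      _ ≤ (1 - δ₁) * M := by gcongr; linarith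
      _ ≤ _ := by linarith [hA.1]
  refine ⟨hsub, hne, henergy, ?_, ?_⟩
  · -- minor
    intro θ hθ
    refine minor_of (δ := 4 * δ₁) hsub hne hC₁ hη hη1 hQ
      (by have := abs_nonneg X0; linarith) henergy (by linarith) ?_ θ hθ
    intro q hq1 hqQ r hr
    have hqB := hBQ q hq1 hqQ
    have hqX : q ∣ X := (hM₀Q q hq1 hqQ).trans hX
    have hq0 : (0 : ℝ) < q := by exact_mod_cast hq1
    rw [PA_mod B v X q r hr hqX]
    refine comp q _ hq0 ?_
    have hXq : (((X / q : ℕ) : ℝ)) = X / q := Nat.cast_div hqX hq0.ne'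
    have hmain : ((B * q : ℕ) : ℝ) * ((X / q : ℕ) : ℝ) / (Nat.totient (B * q) * Real.log n) =
        M / q := by
      rw [totient_mul_of_dvd hqB hq1, hXq, hM]
      push_cast
      field_simp
    have hlen : ((B * q : ℕ) : ℝ) * ((X / q : ℕ) : ℝ) = B * X := by
      rw [hXq]; push_cast; field_simp
    have hrle : ((B * r + v : ℕ) : ℝ) ≤ 6 * n := by
      have hr' : (r : ℝ) ≤ X := by
        have : r ≤ X := by
          have := Nat.le_of_dvd (by exact_mod_cast hXpos) hqX
          omega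
        exact_mod_cast this
      push_cast
      nlinarith only [mul_le_mul_of_nonneg_left hr' hBr.le, hXup, hvup]
    have := hn q (mem_range.2 (by omega)) hq1 (B * r + v) (X / q) (by
        rw [Nat.coprime_mul_iff_right]
        have h1 : Nat.Coprime (B * r + v) B := by
          rw [add_comm, Nat.coprime_add_mul_left_left]; exact hvB
        exact ⟨h1, h1.coprime_dvd_right hqB⟩) (by
        push_cast
        have : (0 : ℝ) ≤ B * r := by positivity
        linarith) (by rw [hlen]; linarith) (by rw [hlen]; exact hBX)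
    rw [hmain] at this
    exact this
  · -- imaginary part
    obtain ⟨Y, hY⟩ := hM₀.trans hX
    have hY1 : 1 ≤ Y := by
      rcases Nat.eq_zero_or_pos Y with h | h
      · rw [h, mul_zero] at hY; rw [hY] at hXpos; simp at hXpos
      · exact h
    have hXY : (X : ℝ) = J * Y := by rw [hY]; push_cast; ring
    intro θ hθ
    have := im_of (A := PA B v X) (J := J) (Y := Y) hJ hY1 (by rw [← hY]; exact hsub)
      (δ := 4 * δ₁) (c := 48 * C₁ * Q * η) ?_ θ (by rw [← hY]; exact hθ)
    · rw [← hY] at this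
      exact this
    · intro j hj
      have e : PA B v X = PA B v (J * Y) := by rw [hY]
      have e' : ((PA B v X).filter (fun x => x / Y = j)).card =
          (PA B (v + B * (j * Y)) Y).card := by
        rw [e]; exact PA_sub B v Y J j hY1 hj
      rw [e']
      refine comp J _ hJ0 ?_
      have hmain : ((B : ℕ) : ℝ) * (Y : ℝ) / (Nat.totient B * Real.log n) = M / J := by
        rw [hM, hXY]; field_simp
      have hBY : κ * n ≤ (B : ℝ) * Y := by
        have h1 : κ * J * n ≤ J * Y := by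
          rw [← hXY]
          calc κ * J * n ≤ ε₁ * n := by gcongr
            _ ≤ X := hXlow
        have h2 : κ * n ≤ Y := by
          have : J * (κ * n) ≤ J * Y := by linarith
          exact le_of_mul_le_mul_left this hJ0
        have : (0 : ℝ) ≤ Y := Nat.cast_nonneg Y
        nlinarith only [h2, mul_nonneg (sub_nonneg.2 hBr1) this]
      have hjle : ((v + B * (j * Y) : ℕ) : ℝ) + B * Y ≤ 6 * n := by
        have hj1 : ((j : ℝ) + 1) ≤ J := by exact_mod_cast hj
        have : (0 : ℝ) ≤ Y := Nat.cast_nonneg Y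
        have h1 : ((j : ℝ) + 1) * Y ≤ X := by rw [hXY]; gcongr
        push_cast
        nlinarith only [mul_le_mul_of_nonneg_left h1 hBr.le, hXup, hvup]
      have := hn 1 (mem_range.2 (by omega)) le_rfl (v + B * (j * Y)) Y (by
          rw [mul_one, Nat.coprime_add_mul_left_left]; exact hvB) (by
          push_cast
          have : (0 : ℝ) ≤ B * (j * Y) := by positivity
          linarith) (by simp only [mul_one]; linarith) (by simpa using hBY)
      simp only [mul_one] at this
      rw [hmain] at this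
      exact this

end

end Pool.Agent.Work.MP_713a1e_co
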