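import Mathlib
import Pool.Agent.Work.MP_713a1e_co.Core

/-! The circle method with a fourth moment bound: counting representations, and avoiding few
values of the partial sums. -/

namespace Pool.Agent.Work.MP_713a1e_co

open Finset Complex
open scoped Real

noncomputable section

/-- representations of `N` -/
def Reps {ι : Type*} [Fintype ι] [DecidableEq ι] (A : ι → Finset ℕ) (N : ℕ) : Finset (ι → ℕ) :=
  (Fintype.piFinset A).filter (fun f => ∑ i, f i = N)

lemma mem_Reps {ι : Type*} [Fintype ι] [DecidableEq ι] {A : ι → Finset ℕ} {N : ℕ} {f : ι → ℕ} :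
    f ∈ Reps A N ↔ (∀ i, f i ∈ A i) ∧ ∑ i, f i = N := by
  unfold Reps
  rw [mem_filter, Fintype.mem_piFinset]

lemma sum_eq_reps {k : ℕ} (A : Fin k → Finset ℕ) (X M N : ℕ) (hA : ∀ i, A i ⊆ range X)
    (hM : k * X < M) (hN : N < M) :
    ∑ t ∈ range M, (∏ i, FF (A i) ((t : ℝ) / M)) * ee (-((t : ℝ) / M * N)) =
      (M : ℂ) * ((Reps A N).card : ℂ) := by
  have hM0 : 0 < M := by omega
  have h1 : ∀ t ∈ range M, (∏ i, FF (A i) ((t : ℝ) / M)) * ee (-((t : ℝ) / M * N)) =
      ∑ f ∈ Fintype.piFinset A, ee (t * ((((∑ i, f i : ℕ) : ℤ) - (N : ℤ) : ℤ) / M)) := by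
    intro t _
    unfold FF
    rw [prod_univ_sum, sum_mul]
    refine sum_congr rfl fun f _ => ?_
    have : ∀ s : Finset (Fin k), ∏ i ∈ s, ee ((t : ℝ) / M * (f i : ℝ)) =
        ee (∑ i ∈ s, ((t : ℝ) / M * (f i : ℝ))) := by
      intro s
      induction s using Finset.induction_on with
      | empty => simp [ee_zero]
      | insert a s ha ih => rw [prod_insert ha, sum_insert ha, ee_add, ih]
    rw [this univ, ← ee_add]
    congr 1
    rw [← mul_sum]
    push_cast
    ring
  rw [sum_congr rfl h1, sum_comm]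
  have h2 : ∀ f ∈ Fintype.piFinset A,
      ∑ t ∈ range M, ee (t * ((((∑ i, f i : ℕ) : ℤ) - (N : ℤ) : ℤ) / M)) =
      if ∑ i, f i = N then (M : ℂ) else 0 := by
    intro f hf
    rw [Fintype.mem_piFinset] at hf
    rw [sum_ee M hM0]
    have hs : ∑ i, f i ≤ k * X := by
      calc ∑ i, f i ≤ ∑ _i : Fin k, X := sum_le_sum fun i _ => by
            have := mem_range.1 (hA i (hf i)); omega
        _ = k * X := by simp
    by_cases h : ∑ i, f i = N
    · rw [if_pos h, if_pos]
      rw [h]; simp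
    · rw [if_neg h, if_neg]
      intro hdiv
      apply h
      obtain ⟨q, hq⟩ := hdiv
      have hq0 : q = 0 := by
        by_contra hne
        rcases lt_or_gt_of_ne hne with h | h
        · have : (M : ℤ) * q ≤ (M : ℤ) * (-1) := by
            apply mul_le_mul_of_nonneg_left (by omega) (by omega)
          omega
        · have : (M : ℤ) * 1 ≤ (M : ℤ) * q := by
            apply mul_le_mul_of_nonneg_left (by omega) (by omega)
          have h5 : ((∑ i, f i : ℕ) : ℤ) ≤ ((k * X : ℕ) : ℤ) := by exact_mod_cast hs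
          have h6 : ((k * X : ℕ) : ℤ) < M := by exact_mod_cast hM
          omega
      rw [hq0, mul_zero] at hq
      omega
  rw [sum_congr rfl h2, ← sum_filter, sum_const, nsmul_eq_mul, mul_comm]
  rfl

/-- **Core lemma**, quantitative form. -/
theorem core_count {j : ℕ} {X N : ℕ} {C κ c ε Δ : ℝ} (A : Fin (4 + j) → Finset ℕ)
    (hN : ∀ i, Nice (A i) X C κ c ε) (hX : 1 ≤ X) (hC : 0 ≤ C) (hκ1 : κ ≤ 1)
    (hc0 : 0 ≤ c) (hc : c ≤ 1 / 4) (hΔ : |(N : ℝ) - (4 + j) * X / 2| ≤ Δ * X)
    (hΔ1 : Δ ≤ 1)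
    {γ : ℝ} (hfin : 2 * ((j : ℝ) + 6) * ((4 + j) * ε + 2 * π * c * Δ) +
      (1 - κ) ^ j * ((j : ℝ) + 5) * C ≤ 1 - γ) :
    γ * (∏ i, ((A i).card : ℝ)) / ((5 + j) * X) ≤ ((Reps A N).card : ℝ) := by
  classical
  have hX0 : (0 : ℝ) < X := by exact_mod_cast hX
  obtain ⟨M, hM⟩ : ∃ M : ℕ, M = (5 + j) * X := ⟨_, rfl⟩
  have hM0 : 0 < M := by rw [hM]; positivity
  have hMr : (M : ℝ) = (5 + j) * X := by rw [hM]; push_cast; ring
  have hM0r : (0 : ℝ) < M := by exact_mod_cast hM0
  have hΔ0 : 0 ≤ Δ := by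
    have := (abs_nonneg _).trans hΔ
    by_contra hneg
    push Not at hneg
    nlinarith
  have hNlt : N < M := by
    have h1 := (abs_le.1 hΔ).2
    have h2 : (N : ℝ) < M := by
      rw [hMr]
      have : Δ * X ≤ 1 * X := by gcongr
      have hj : (0 : ℝ) ≤ j := Nat.cast_nonneg j
      nlinarith
    exact_mod_cast h2
  have hε0 : 0 ≤ ε := by
    have h := (hN 0).im 0 (by rw [abs_zero]; positivity)
    have h2 := (abs_nonneg _).trans h
    have h3 : (0 : ℝ) < (A 0).card := by exact_mod_cast (hN 0).ne.card_pos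
    by_contra hneg
    push Not at hneg
    nlinarith
  have hcard : ∀ i, (0 : ℝ) < (A i).card := fun i => by exact_mod_cast (hN i).ne.card_pos
  -- normalised product
  obtain ⟨P, hP⟩ : ∃ P : ℝ, P = ∏ i, ((A i).card : ℝ) := ⟨_, rfl⟩
  have hP0 : 0 < P := by rw [hP]; exact prod_pos fun i _ => hcard i
  set g : ℕ → ℂ := fun t => (∏ i, FF (A i) ((t : ℝ) / M)) * ee (-((t : ℝ) / M * N)) with hg
  set Maj : ℕ → Prop := fun t => ∃ m : ℤ, |(t : ℝ) / M - m| ≤ c / X with hMaj
  -- lower bound on major arcs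
  have hmaj : ∀ t, Maj t → -(((4 + j) * ε + 2 * π * c * Δ) * P) ≤ (g t).re := by
    rintro t ⟨m, hm⟩
    set β : ℝ := (t : ℝ) / M - m with hβ
    have ht : (t : ℝ) / M = β + m := by rw [hβ]; ring
    set z : Fin (4 + j) → ℂ := fun i => FF (A i) β * ee (-(β * (X / 2))) / ((A i).card : ℂ) with hz
    set u : ℂ := ee (β * ((4 + j) * X / 2 - N)) with hu
    have hgz : g t = (P : ℂ) * ((∏ i, z i) * u) := by
      simp only [hg, hz, hu]
      rw [ht]
      have e1 : ee (-((β + m) * N)) = ee (-(β * N)) := by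
        have : -((β + m) * (N : ℝ)) = -(β * N) + ((-(m * (N : ℤ)) : ℤ) : ℝ) := by
          push_cast; ring
        rw [this, ee_add_int]
      rw [e1]
      have e2 : ∏ i, FF (A i) (β + m) = ∏ i, FF (A i) β :=
        prod_congr rfl fun i _ => FF_add_int _ _ _
      rw [e2, prod_div_distrib, prod_mul_distrib, prod_const, card_univ, Fintype.card_fin]
      have e3 : (∏ i, ((A i).card : ℂ)) = (P : ℂ) := by rw [hP]; push_cast; rfl
      rw [e3]
      have e4 : ee (-(β * (X / 2))) ^ (4 + j) * ee (β * ((4 + j) * X / 2 - N)) =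
          ee (-(β * N)) := by
        rw [← ee_nat_mul, ← ee_add]
        congr 1
        push_cast
        ring
      have hPc : (P : ℂ) ≠ 0 := by exact_mod_cast hP0.ne'
      rw [← e4]
      field_simp
    have hz1 : ∀ i ∈ (univ : Finset (Fin (4 + j))), ‖z i‖ ≤ 1 := by
      intro i _
      simp only [hz]
      rw [norm_div, norm_mul, norm_ee, mul_one, Complex.norm_natCast, div_le_one (hcard i)]
      exact norm_FF_le _ _
    have hz2 : ∀ i ∈ (univ : Finset (Fin (4 + j))), 0 ≤ (z i).re := by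
      intro i _
      simp only [hz]
      have e : FF (A i) β * ee (-(β * (X / 2))) / ((A i).card : ℂ) =
          (((A i).card : ℝ)⁻¹ : ℂ) * (FF (A i) β * ee (-(β * (X / 2)))) := by
        push_cast
        rw [div_eq_inv_mul]
      rw [e, ← Complex.ofReal_inv, Complex.re_ofReal_mul]
      exact mul_nonneg (inv_nonneg.2 (hcard i).le) (re_nonneg (hN i).sub hc hm)
    have hz3 : ∀ i ∈ (univ : Finset (Fin (4 + j))), |(z i).im| ≤ ε := by
      intro i _
      simp only [hz]
      have e : FF (A i) β * ee (-(β * (X / 2))) / ((A i).card : ℂ) =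
          (((A i).card : ℝ)⁻¹ : ℂ) * (FF (A i) β * ee (-(β * (X / 2)))) := by
        push_cast
        rw [div_eq_inv_mul]
      rw [e, ← Complex.ofReal_inv, Complex.im_ofReal_mul, abs_mul,
        abs_of_pos (inv_pos.2 (hcard i)), inv_mul_le_iff₀ (hcard i)]
      have := (hN i).im β hm
      linarith
    have hnear := prod_near_re univ z ε hz1 hz2 hz3
    rw [card_univ, Fintype.card_fin] at hnear
    have hre : -((4 + j) * ε) ≤ (∏ i, z i).re := by
      have e1 : 0 ≤ (∏ i, ((z i).re : ℂ)).re := by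
        rw [← Complex.ofReal_prod, Complex.ofReal_re]
        exact prod_nonneg fun i hi => hz2 i hi
      have e2 : -(‖∏ i, z i - ∏ i, ((z i).re : ℂ)‖) ≤ (∏ i, z i - ∏ i, ((z i).re : ℂ)).re :=
        (abs_le.1 (Complex.abs_re_le_norm _)).1
      rw [Complex.sub_re] at e2
      push_cast at hnear
      linarith
    have hzn : ‖∏ i, z i‖ ≤ 1 := by
      rw [norm_prod]
      exact prod_le_one (fun i _ => norm_nonneg _) hz1
    have hun : ‖u - 1‖ ≤ 2 * π * c * Δ := by
      refine (norm_ee_sub_one _).trans ?_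
      have e1 : |β * ((4 + j) * X / 2 - N)| ≤ c * Δ := by
        rw [abs_mul, abs_sub_comm ((4 + (j : ℝ)) * X / 2)]
        calc |β| * |(N : ℝ) - (4 + j) * X / 2| ≤ (c / X) * (Δ * X) := by gcongr
          _ = c * Δ := by field_simp
      have : 0 ≤ 2 * π := by positivity
      calc 2 * π * |β * ((4 + j) * X / 2 - N)| ≤ 2 * π * (c * Δ) := by gcongr
        _ = _ := by ring
    have hzu : -((4 + j) * ε + 2 * π * c * Δ) ≤ ((∏ i, z i) * u).re := by
      have e1 : (∏ i, z i) * u = ∏ i, z i + (∏ i, z i) * (u - 1) := by ring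
      rw [e1, Complex.add_re]
      have e2 : -‖(∏ i, z i) * (u - 1)‖ ≤ ((∏ i, z i) * (u - 1)).re :=
        (abs_le.1 (Complex.abs_re_le_norm _)).1
      have e3 : ‖(∏ i, z i) * (u - 1)‖ ≤ 1 * (2 * π * c * Δ) := by
        rw [norm_mul]; gcongr
      linarith
    rw [hgz, Complex.re_ofReal_mul]
    nlinarith
  -- the number of major arc points
  have hnum : (((range M).filter (fun t => Maj t ∧ t ≠ 0)).card : ℝ) ≤ 2 * (j + 6) := by
    have hsub : (range M).filter (fun t => Maj t ∧ t ≠ 0) ⊆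
        range (j + 6) ∪ (range (j + 6)).image (fun s => M - s) := by
      intro t ht
      simp only [mem_filter, mem_range] at ht
      obtain ⟨htM, ⟨m, hm⟩, ht0⟩ := ht
      have htM' : (t : ℝ) < M := by exact_mod_cast htM
      have ht0' : (0 : ℝ) ≤ t := Nat.cast_nonneg t
      have hcX : c / X * M ≤ j + 5 := by
        rw [hMr]
        have : c / X * ((5 + j) * X) = c * (5 + j) := by field_simp
        rw [this]
        have hj : (0 : ℝ) ≤ j := Nat.cast_nonneg j
        nlinarith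
      have hcX1 : c / X < 1 := by
        rw [div_lt_one hX0]
        have : (1 : ℝ) ≤ X := by exact_mod_cast hX
        linarith
      have htM1 : 0 ≤ (t : ℝ) / M := by positivity
      have htM2 : (t : ℝ) / M < 1 := by rw [div_lt_one hM0r]; exact htM'
      rw [abs_le] at hm
      have hm0 : m = 0 ∨ m = 1 := by
        have h1 : (m : ℝ) < 2 := by linarith
        have h2 : (-1 : ℝ) < m := by linarith
        have h1' : m < 2 := by exact_mod_cast h1
        have h2' : -1 < m := by exact_mod_cast h2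
        omega
      rw [mem_union, mem_image]
      rcases hm0 with rfl | rfl
      · left
        rw [mem_range]
        have h1 : (t : ℝ) / M ≤ c / X := by simpa using hm.2
        rw [div_le_iff₀ hM0r] at h1
        have h2 : (t : ℝ) < (j + 6 : ℕ) := by push_cast; linarith
        exact_mod_cast h2
      · right
        refine ⟨M - t, ?_, by omega⟩
        rw [mem_range]
        have h1 : 1 - (t : ℝ) / M ≤ c / X := by
          have := hm.1; push_cast at this; linarith
        have h2 : ((M - t : ℕ) : ℝ) ≤ c / X * M := by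
          rw [Nat.cast_sub htM.le]
          have : (1 - (t : ℝ) / M) * M = M - t := by field_simp
          rw [← this]
          gcongr
        have h3 : ((M - t : ℕ) : ℝ) < (j + 6 : ℕ) := by push_cast at h2 ⊢; linarith
        exact_mod_cast h3
    have h1 := card_le_card hsub
    have h2 : (range (j + 6) ∪ (range (j + 6)).image (fun s => M - s)).card ≤ 2 * (j + 6) := by
      refine (card_union_le _ _).trans ?_
      have := card_image_le (s := range (j + 6)) (f := fun s => M - s)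
      rw [card_range] at *
      omega
    exact_mod_cast h1.trans h2
  -- minor arcs
  have hmin : ∀ t ∈ (range M).filter (fun t => ¬ Maj t), ‖g t‖ ≤
      P * ((1 - κ) ^ j * ((1 / 4) * ∑ i : Fin 4,
        (‖FF (A (Fin.castAdd j i)) ((t : ℝ) / M)‖ / (A (Fin.castAdd j i)).card) ^ 4)) := by
    intro t ht
    rw [mem_filter] at ht
    have hnm := ht.2
    have hb : ∀ i, ‖FF (A i) ((t : ℝ) / M)‖ ≤ (1 - κ) * (A i).card := by
      intro i
      by_contra hcon
      push Not at hcon
      exact hnm ((hN i).minor _ hcon)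
    simp only [hg]
    rw [norm_mul, norm_ee, mul_one, norm_prod, hP]
    exact minor_prod (fun i => ‖FF (A i) ((t : ℝ) / M)‖) (fun i => ((A i).card : ℝ)) hκ1
      (fun i => norm_nonneg _) hcard hb
  -- total over the minor arcs
  have hmintot : ∑ t ∈ (range M).filter (fun t => ¬ Maj t), ‖g t‖ ≤
      P * ((1 - κ) ^ j * (j + 5) * C) := by
    have hκ0 : 0 ≤ (1 - κ) ^ j := pow_nonneg (by linarith) _
    obtain ⟨S4, hS4⟩ : ∃ S4 : ℕ → ℝ, S4 = fun t : ℕ => ∑ i : Fin 4,
        (‖FF (A (Fin.castAdd j i)) ((t : ℝ) / M)‖ / (A (Fin.castAdd j i)).card) ^ 4 := ⟨_, rfl⟩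
    have hS0 : ∀ t, 0 ≤ S4 t := by
      intro t; rw [hS4]; exact sum_nonneg fun i _ => by positivity
    have h1 : ∑ t ∈ (range M).filter (fun t => ¬ Maj t), ‖g t‖ ≤
        ∑ t ∈ (range M).filter (fun t => ¬ Maj t), P * ((1 - κ) ^ j * ((1 / 4) * S4 t)) := by
      refine sum_le_sum fun t ht => ?_
      rw [hS4]
      exact hmin t ht
    have h2 : ∑ t ∈ (range M).filter (fun t => ¬ Maj t), P * ((1 - κ) ^ j * ((1 / 4) * S4 t)) ≤
        ∑ t ∈ range M, P * ((1 - κ) ^ j * ((1 / 4) * S4 t)) := by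
      refine sum_le_sum_of_subset_of_nonneg (filter_subset _ _) fun t _ _ => ?_
      exact mul_nonneg hP0.le (mul_nonneg hκ0 (mul_nonneg (by norm_num) (hS0 t)))
    have h3 : ∑ t ∈ range M, P * ((1 - κ) ^ j * ((1 / 4) * S4 t)) =
        P * ((1 - κ) ^ j * ((1 / 4) * ∑ t ∈ range M, S4 t)) := by
      rw [mul_sum, mul_sum, mul_sum]
    have h4 : ∑ t ∈ range M, S4 t ≤ 4 * ((j + 5) * C) := by
      rw [hS4, sum_comm]
      have h5 : ∀ i : Fin 4, ∑ t ∈ range M, (‖FF (A (Fin.castAdd j i)) ((t : ℝ) / M)‖ /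
          (A (Fin.castAdd j i)).card) ^ 4 ≤ (j + 5) * C := by
        intro i
        have h6 : ∑ t ∈ range M, (‖FF (A (Fin.castAdd j i)) ((t : ℝ) / M)‖ /
            ((A (Fin.castAdd j i)).card : ℝ)) ^ 4 = M * En (A (Fin.castAdd j i)) X /
              ((A (Fin.castAdd j i)).card : ℝ) ^ 4 := by
          rw [← fourth_moment _ X M (hN _).sub hM0 (by rw [hM]; nlinarith), sum_div]
          exact sum_congr rfl fun t _ => div_pow _ _ _
        rw [h6]
        have h7 := (hN (Fin.castAdd j i)).energy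
        have h8 := hcard (Fin.castAdd j i)
        rw [div_le_iff₀ (by positivity)]
        calc M * En (A (Fin.castAdd j i)) X
            ≤ M * (C * ((A (Fin.castAdd j i)).card : ℝ) ^ 4 / X) := by gcongr
          _ = _ := by rw [hMr]; field_simp; ring
      calc ∑ i : Fin 4, ∑ t ∈ range M, (‖FF (A (Fin.castAdd j i)) ((t : ℝ) / M)‖ /
          (A (Fin.castAdd j i)).card) ^ 4 ≤ ∑ _i : Fin 4, ((j + 5) * C) :=
            sum_le_sum fun i _ => h5 i
        _ = 4 * ((j + 5) * C) := by simp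
    refine h1.trans (h2.trans ?_)
    rw [h3]
    have h9 : P * ((1 - κ) ^ j * ((1 / 4) * ∑ t ∈ range M, S4 t)) ≤
        P * ((1 - κ) ^ j * ((1 / 4) * (4 * ((j + 5) * C)))) := by gcongr
    refine h9.trans (le_of_eq ?_)
    ring
  -- conclusion
  have hg0 : g 0 = P := by
    simp only [hg]
    rw [Nat.cast_zero, zero_div, zero_mul, neg_zero, ee_zero, mul_one]
    have : ∀ i, FF (A i) 0 = ((A i).card : ℂ) := fun i => FF_zero _
    rw [prod_congr rfl fun i _ => this i, hP]
    push_cast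
    rfl
  have htotal : γ * P ≤ (∑ t ∈ range M, g t).re := by
    have hsplit : ∑ t ∈ range M, g t = g 0 + (∑ t ∈ (range M).filter (fun t => Maj t ∧ t ≠ 0), g t +
        ∑ t ∈ (range M).filter (fun t => ¬ Maj t), g t) := by
      rw [← sum_filter_add_sum_filter_not (range M) Maj]
      have h0 : Maj 0 := ⟨0, by simp; positivity⟩
      have h1 : (range M).filter Maj = insert 0 ((range M).filter (fun t => Maj t ∧ t ≠ 0)) := by
        ext t
        simp only [mem_filter, mem_insert, mem_range]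
        constructor
        · rintro ⟨h2, h3⟩
          by_cases h : t = 0
          · exact Or.inl h
          · exact Or.inr ⟨h2, h3, h⟩
        · rintro (rfl | ⟨h2, h3, -⟩)
          · exact ⟨hM0, h0⟩
          · exact ⟨h2, h3⟩
      rw [h1, sum_insert (by simp)]
      ring
    rw [hsplit, Complex.add_re, Complex.add_re, hg0, Complex.ofReal_re, re_sum, re_sum]
    have e1 : -(2 * ((j : ℝ) + 6) * (((4 + j) * ε + 2 * π * c * Δ) * P)) ≤
        ∑ t ∈ (range M).filter (fun t => Maj t ∧ t ≠ 0), (g t).re := by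
      have h1 : ∑ t ∈ (range M).filter (fun t => Maj t ∧ t ≠ 0),
          -(((4 + j) * ε + 2 * π * c * Δ) * P) ≤
          ∑ t ∈ (range M).filter (fun t => Maj t ∧ t ≠ 0), (g t).re :=
        sum_le_sum fun t ht => hmaj t (mem_filter.1 ht).2.1
      rw [sum_const, nsmul_eq_mul] at h1
      refine le_trans ?_ h1
      have h2 : 0 ≤ ((4 + j) * ε + 2 * π * c * Δ) * P := by positivity
      nlinarith
    have e2 : -(P * ((1 - κ) ^ j * (j + 5) * C)) ≤
        ∑ t ∈ (range M).filter (fun t => ¬ Maj t), (g t).re := by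
      have h1 : -(∑ t ∈ (range M).filter (fun t => ¬ Maj t), ‖g t‖) ≤
          ∑ t ∈ (range M).filter (fun t => ¬ Maj t), (g t).re := by
        rw [← sum_neg_distrib]
        exact sum_le_sum fun t _ => (abs_le.1 (Complex.abs_re_le_norm _)).1
      linarith
    have e3 : P * γ ≤ P * (1 - (2 * ((j : ℝ) + 6) * ((4 + j) * ε + 2 * π * c * Δ) +
      (1 - κ) ^ j * ((j : ℝ) + 5) * C)) := mul_le_mul_of_nonneg_left (by linarith) hP0.le
    nlinarith
  have hid := sum_eq_reps A X M N (fun i => (hN i).sub) (by rw [hM]; nlinarith) hNlt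
  have hid2 : (∑ t ∈ range M, g t).re = M * ((Reps A N).card : ℝ) := by
    have : ∑ t ∈ range M, g t = (((M : ℝ) * ((Reps A N).card : ℝ) : ℝ) : ℂ) := by
      rw [hid]; push_cast; rfl
    rw [this, Complex.ofReal_re]
  rw [hid2] at htotal
  rw [← hP, ← hMr, div_le_iff₀ hM0r]
  linarith

/-- upper bound for the number of representations by four sets -/
lemma reps4_le {X N : ℕ} {C : ℝ} (A : Fin 4 → Finset ℕ) (hX : 1 ≤ X)
    (hsub : ∀ i, A i ⊆ range X) (hne : ∀ i, (A i).Nonempty)
    (hE : ∀ i, En (A i) X ≤ C * ((A i).card : ℝ) ^ 4 / X) :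
    ((Reps A N).card : ℝ) ≤ C * (∏ i, ((A i).card : ℝ)) / X := by
  have hX0 : (0 : ℝ) < X := by exact_mod_cast hX
  have hcard : ∀ i, (0 : ℝ) < (A i).card := fun i => by exact_mod_cast (hne i).card_pos
  obtain ⟨M, hM⟩ : ∃ M : ℕ, M = 4 * X + N + 1 := ⟨_, rfl⟩
  have hM0 : 0 < M := by omega
  have hM0r : (0 : ℝ) < M := by exact_mod_cast hM0
  obtain ⟨P, hP⟩ : ∃ P : ℝ, P = ∏ i, ((A i).card : ℝ) := ⟨_, rfl⟩
  have hP0 : 0 < P := by rw [hP]; exact prod_pos fun i _ => hcard i
  have hid := sum_eq_reps A X M N hsub (by omega) (by omega)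
  have h1 : (M : ℝ) * ((Reps A N).card : ℝ) ≤
      ∑ t ∈ range M, P * ((1 / 4) * ∑ i, (‖FF (A i) ((t : ℝ) / M)‖ / (A i).card) ^ 4) := by
    have h2 : (M : ℝ) * ((Reps A N).card : ℝ) =
        ‖∑ t ∈ range M, (∏ i, FF (A i) ((t : ℝ) / M)) * ee (-((t : ℝ) / M * N))‖ := by
      rw [hid, norm_mul, Complex.norm_natCast, Complex.norm_natCast]
    rw [h2]
    refine (norm_sum_le _ _).trans (sum_le_sum fun t _ => ?_)
    rw [norm_mul, norm_ee, mul_one, norm_prod]
    have h3 := amgm4 (fun i => ‖FF (A i) ((t : ℝ) / M)‖ / (A i).card)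
      (fun i => div_nonneg (norm_nonneg _) (hcard i).le)
    rw [prod_div_distrib, div_le_iff₀ (by rw [← hP]; exact hP0), ← hP] at h3
    linarith
  have h4 : ∑ t ∈ range M, P * ((1 / 4) * ∑ i, (‖FF (A i) ((t : ℝ) / M)‖ / (A i).card) ^ 4) =
      P * ((1 / 4) * ∑ i, ∑ t ∈ range M, (‖FF (A i) ((t : ℝ) / M)‖ / (A i).card) ^ 4) := by
    rw [sum_comm (s := (univ : Finset (Fin 4))), mul_sum, mul_sum]
  have h5 : ∀ i, ∑ t ∈ range M, (‖FF (A i) ((t : ℝ) / M)‖ / (A i).card) ^ 4 ≤ M * (C / X) := by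
    intro i
    have h6 : ∑ t ∈ range M, (‖FF (A i) ((t : ℝ) / M)‖ / ((A i).card : ℝ)) ^ 4 =
        M * En (A i) X / ((A i).card : ℝ) ^ 4 := by
      rw [← fourth_moment _ X M (hsub i) hM0 (by omega), sum_div]
      exact sum_congr rfl fun t _ => div_pow _ _ _
    rw [h6]
    have h8 := hcard i
    rw [div_le_iff₀ (by positivity)]
    calc M * En (A i) X ≤ M * (C * ((A i).card : ℝ) ^ 4 / X) := by gcongr; exact hE i
      _ = _ := by field_simp
  have h7 : ∑ i, ∑ t ∈ range M, (‖FF (A i) ((t : ℝ) / M)‖ / (A i).card) ^ 4 ≤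
      4 * (M * (C / X)) := by
    calc _ ≤ ∑ _i : Fin 4, (M * (C / X) : ℝ) := sum_le_sum fun i _ => h5 i
      _ = _ := by simp
  rw [h4] at h1
  have h9 : (M : ℝ) * ((Reps A N).card : ℝ) ≤ P * ((1 / 4) * (4 * (M * (C / X)))) :=
    h1.trans (by gcongr)
  have h10 : P * ((1 / 4) * (4 * ((M : ℝ) * (C / X)))) = M * (C * P / X) := by ring
  rw [h10] at h9
  rw [← hP]
  exact le_of_mul_le_mul_left h9 hM0r

/-- functions for which four coordinates have a prescribed sum and another one is prescribed,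
given the other coordinates -/
lemma card_le_of_det {ι : Type*} [Fintype ι] [DecidableEq ι] {X : ℕ} {C : ℝ}
    (A : ι → Finset ℕ) (e : Fin 4 ↪ ι) (l : ι) (hl : ∀ i, e i ≠ l) (hX : 1 ≤ X) (hC : 0 ≤ C)
    (hsub : ∀ i, A i ⊆ range X) (hne : ∀ i, (A i).Nonempty)
    (hE : ∀ i, En (A i) X ≤ C * ((A i).card : ℝ) ^ 4 / X)
    (F : Finset (ι → ℕ)) (hF : ∀ f ∈ F, ∀ i, f i ∈ A i)
    (hdet : ∀ f ∈ F, ∀ g ∈ F, (∀ i, (∀ r, e r ≠ i) → i ≠ l → f i = g i) →
      f l = g l ∧ ∑ r, f (e r) = ∑ r, g (e r)) :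
    (F.card : ℝ) ≤ C * (∏ i, ((A i).card : ℝ)) / (X * (A l).card) := by
  classical
  have hX0 : (0 : ℝ) < X := by exact_mod_cast hX
  have hcard : ∀ i, (0 : ℝ) < (A i).card := fun i => by exact_mod_cast (hne i).card_pos
  -- the set of special coordinates
  obtain ⟨T, hT⟩ : ∃ T : Finset ι, T = insert l (univ.map e) := ⟨_, rfl⟩
  have hlT : l ∉ univ.map e := by
    rw [mem_map]; rintro ⟨r, -, hr⟩; exact hl r hr
  have hmemT : ∀ i, i ∈ T ↔ i = l ∨ ∃ r, e r = i := by
    intro i
    rw [hT, mem_insert, mem_map]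
    simp
  set pr : (ι → ℕ) → (ι → ℕ) := fun f i => if i ∈ T then 0 else f i with hpr
  -- fibres
  have hfib : ∀ h ∈ F.image pr, ((F.filter (fun f => pr f = h)).card : ℝ) ≤
      C * (∏ r, ((A (e r)).card : ℝ)) / X := by
    intro h hh
    rw [mem_image] at hh
    obtain ⟨f₀, hf₀, hf₀h⟩ := hh
    have hagree : ∀ f ∈ F.filter (fun f => pr f = h), ∀ i, (∀ r, e r ≠ i) → i ≠ l →
        f i = f₀ i := by
      intro f hf i hi1 hi2
      rw [mem_filter] at hf
      have h1 : pr f i = pr f₀ i := by rw [hf.2, hf₀h]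
      have hiT : i ∉ T := by
        rw [hmemT]
        rintro (h2 | ⟨r, hr⟩)
        · exact hi2 h2
        · exact hi1 r hr
      simpa [hpr, hiT] using h1
    have hinj : (F.filter (fun f => pr f = h)).card ≤
        (Reps (fun r => A (e r)) (∑ r, f₀ (e r))).card := by
      refine card_le_card_of_injOn (fun f r => f (e r)) ?_ ?_
      · intro f hf
        have hf' := hf
        rw [mem_coe, mem_filter] at hf'
        rw [mem_coe, mem_Reps]
        refine ⟨fun r => hF f hf'.1 _, ?_⟩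
        exact (hdet f hf'.1 f₀ hf₀ (hagree f (mem_coe.1 hf))).2
      · intro f hf g hg hfg
        have hf' := mem_filter.1 (mem_coe.1 hf)
        have hg' := mem_filter.1 (mem_coe.1 hg)
        have h1 := (hdet f hf'.1 f₀ hf₀ (hagree f (mem_coe.1 hf))).1
        have h2 := (hdet g hg'.1 f₀ hf₀ (hagree g (mem_coe.1 hg))).1
        funext i
        by_cases hi : ∃ r, e r = i
        · obtain ⟨r, rfl⟩ := hi
          exact congrFun hfg r
        · push Not at hi
          by_cases hil : i = l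
          · rw [hil, h1, h2]
          · rw [hagree f (mem_coe.1 hf) i hi hil, hagree g (mem_coe.1 hg) i hi hil]
    have h3 := reps4_le (N := ∑ r, f₀ (e r)) (fun r => A (e r)) hX (fun r => hsub _)
      (fun r => hne _) (fun r => hE _)
    have h4 : ((F.filter (fun f => pr f = h)).card : ℝ) ≤
        ((Reps (fun r => A (e r)) (∑ r, f₀ (e r))).card : ℝ) := by exact_mod_cast hinj
    exact h4.trans h3
  -- the image
  have himg : ((F.image pr).card : ℝ) ≤ ∏ i ∈ univ \ T, ((A i).card : ℝ) := by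
    have h1 : F.image pr ⊆ Fintype.piFinset (fun i => if i ∈ T then {0} else A i) := by
      intro h hh
      rw [mem_image] at hh
      obtain ⟨f, hf, rfl⟩ := hh
      rw [Fintype.mem_piFinset]
      intro i
      simp only [hpr]
      split_ifs with h2
      · simp
      · exact hF f hf i
    have h2 := card_le_card h1
    rw [Fintype.card_piFinset] at h2
    have h3 : ∏ i, ((if i ∈ T then {0} else A i : Finset ℕ)).card = ∏ i ∈ univ \ T, (A i).card := by
      rw [← prod_sdiff (subset_univ T)]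
      have h4 : ∏ i ∈ T, ((if i ∈ T then {0} else A i : Finset ℕ)).card = 1 :=
        prod_eq_one fun i hi => by rw [if_pos hi]; rfl
      rw [h4, mul_one]
      refine prod_congr rfl fun i hi => ?_
      rw [if_neg (mem_sdiff.1 hi).2]
    rw [h3] at h2
    exact_mod_cast h2
  have h1 : (F.card : ℝ) = ∑ h ∈ F.image pr, ((F.filter (fun f => pr f = h)).card : ℝ) := by
    have := card_eq_sum_card_image pr F
    exact_mod_cast this
  rw [h1]
  have h2 : 0 ≤ C * (∏ r, ((A (e r)).card : ℝ)) / X := by positivity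
  calc ∑ h ∈ F.image pr, ((F.filter (fun f => pr f = h)).card : ℝ)
      ≤ ∑ _h ∈ F.image pr, C * (∏ r, ((A (e r)).card : ℝ)) / X := sum_le_sum hfib
    _ = ((F.image pr).card : ℝ) * (C * (∏ r, ((A (e r)).card : ℝ)) / X) := by
        rw [sum_const, nsmul_eq_mul]
    _ ≤ (∏ i ∈ univ \ T, ((A i).card : ℝ)) * (C * (∏ r, ((A (e r)).card : ℝ)) / X) := by
        gcongr
    _ = C * (∏ i, ((A i).card : ℝ)) / (X * (A l).card) := by
        rw [← prod_sdiff (subset_univ T) (f := fun i => ((A i).card : ℝ))]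
        have h5 : ∏ i ∈ T, ((A i).card : ℝ) = (A l).card * ∏ r, ((A (e r)).card : ℝ) := by
          rw [hT, prod_insert hlT, prod_map]
        rw [h5]
        have h6 := hcard l
        generalize (∏ i ∈ univ \ T, ((A i).card : ℝ)) = P1
        generalize (∏ r, ((A (e r)).card : ℝ)) = P2
        generalize ((A l).card : ℝ) = P3 at h6
        clear h5 h1 hT
        field_simp

/-- partial sums -/
def psum {k : ℕ} (f : Fin k → ℕ) (i : ℕ) : ℕ :=
  ∑ i' ∈ univ.filter (fun i' : Fin k => (i' : ℕ) < i), f i'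

/-- few representations have a prescribed partial sum -/
lemma reps_psum_le {j X : ℕ} {C Am : ℝ} (hj : 4 ≤ j) (A : Fin (4 + j) → Finset ℕ)
    (hX : 1 ≤ X) (hC : 0 ≤ C)
    (hsub : ∀ i, A i ⊆ range X) (hne : ∀ i, (A i).Nonempty)
    (hE : ∀ i, En (A i) X ≤ C * ((A i).card : ℝ) ^ 4 / X) (hAm0 : 0 < Am)
    (hAm : ∀ i, Am ≤ ((A i).card : ℝ)) (N i z : ℕ) (hi1 : 1 ≤ i) (hik : i < 4 + j) :
    (((Reps A N).filter (fun f => psum f i = z)).card : ℝ) ≤
      C * (∏ i, ((A i).card : ℝ)) / (X * Am) := by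
  have hX0 : (0 : ℝ) < X := by exact_mod_cast hX
  have main : ∀ (e : Fin 4 ↪ Fin (4 + j)) (l : Fin (4 + j)), (∀ r, e r ≠ l) →
      (((∀ r, ((e r : Fin (4 + j)) : ℕ) < i) ∧ i ≤ l) ∨
        ((∀ r, i ≤ ((e r : Fin (4 + j)) : ℕ)) ∧ (l : ℕ) < i)) →
      (((Reps A N).filter (fun f => psum f i = z)).card : ℝ) ≤
      C * (∏ i, ((A i).card : ℝ)) / (X * Am) := by
    intro e l hel hcase
    have h1 := card_le_of_det A e l hel hX hC hsub hne hE
      ((Reps A N).filter (fun f => psum f i = z))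
      (fun f hf => (mem_Reps.1 (mem_filter.1 hf).1).1) ?_
    · refine h1.trans ?_
      have h2 := hAm l
      have h3 : (0 : ℝ) ≤ ∏ i, ((A i).card : ℝ) := prod_nonneg fun i _ => Nat.cast_nonneg _
      clear h1
      generalize (∏ i, ((A i).card : ℝ)) = P at h3 ⊢
      clear hne
      gcongr
    · intro f hf g hg hfg
      rw [mem_filter, mem_Reps] at hf hg
      set D : Fin (4 + j) → ℤ := fun i' => (f i' : ℤ) - g i' with hD
      have hD0 : ∀ i', (∀ r, e r ≠ i') → i' ≠ l → D i' = 0 := by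
        intro i' h3 h4
        simp only [hD]
        rw [hfg i' h3 h4, sub_self]
      have htot : ∑ i', D i' = 0 := by
        simp only [hD]
        rw [sum_sub_distrib, ← Nat.cast_sum, ← Nat.cast_sum, hf.1.2, hg.1.2, sub_self]
      have hpart : ∑ i' ∈ univ.filter (fun i' : Fin (4 + j) => (i' : ℕ) < i), D i' = 0 := by
        simp only [hD]
        rw [sum_sub_distrib, ← Nat.cast_sum, ← Nat.cast_sum]
        have h3 : psum f i = psum g i := by rw [hf.2, hg.2]
        unfold psum at h3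
        rw [h3, sub_self]
      have htot2 : ∑ i', D i' = D l + ∑ r, D (e r) := by
        have h5 : ∑ i' ∈ insert l (univ.map e), D i' = ∑ i', D i' := by
          refine sum_subset (subset_univ _) fun i' _ h6 => ?_
          rw [mem_insert, mem_map, not_or] at h6
          refine hD0 i' (fun r hr => h6.2 ⟨r, mem_univ _, hr⟩) h6.1
        rw [← h5, sum_insert, sum_map]
        rw [mem_map]
        rintro ⟨r, -, hr⟩
        exact hel r hr
      have hconcl : D l = 0 ∧ ∑ r, D (e r) = 0 := by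
        rcases hcase with ⟨h3, h4⟩ | ⟨h3, h4⟩
        · have h5 : ∑ i' ∈ univ.map e, D i' =
              ∑ i' ∈ univ.filter (fun i' : Fin (4 + j) => (i' : ℕ) < i), D i' := by
            refine sum_subset ?_ fun i' h6 h7 => ?_
            · intro i' h6
              rw [mem_map] at h6
              obtain ⟨r, -, rfl⟩ := h6
              rw [mem_filter]
              exact ⟨mem_univ _, h3 r⟩
            · rw [mem_filter] at h6
              refine hD0 i' (fun r hr => h7 (mem_map.2 ⟨r, mem_univ _, hr⟩)) ?_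
              rintro rfl
              omega
          rw [sum_map, hpart] at h5
          rw [htot2, h5] at htot
          exact ⟨by linarith, h5⟩
        · have h5 : ∑ i' ∈ {l}, D i' =
              ∑ i' ∈ univ.filter (fun i' : Fin (4 + j) => (i' : ℕ) < i), D i' := by
            refine sum_subset ?_ fun i' h6 h7 => ?_
            · intro i' h6
              rw [mem_singleton] at h6
              rw [mem_filter, h6]
              exact ⟨mem_univ _, h4⟩
            · rw [mem_filter] at h6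
              rw [mem_singleton] at h7
              refine hD0 i' (fun r hr => ?_) h7
              have := h3 r
              rw [hr] at this
              omega
          rw [sum_singleton, hpart] at h5
          rw [htot2, h5, zero_add] at htot
          exact ⟨h5, htot⟩
      constructor
      · have := hconcl.1
        simp only [hD] at this
        omega
      · have := hconcl.2
        simp only [hD] at this
        rw [sum_sub_distrib, ← Nat.cast_sum, ← Nat.cast_sum] at this
        omega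
  rcases Nat.lt_or_ge i 4 with h | h
  · -- the last four are free
    refine main ⟨fun r => ⟨j + r, by omega⟩, fun r s hrs => ?_⟩ ⟨0, by omega⟩ (fun r => ?_)
      (Or.inr ⟨fun r => ?_, ?_⟩)
    · simp only [Fin.mk.injEq] at hrs
      exact Fin.ext (by omega)
    · intro h0
      simp only [Function.Embedding.coeFn_mk, Fin.mk.injEq] at h0
      omega
    · simp only [Function.Embedding.coeFn_mk]
      omega
    · simp only
      omega
  · refine main ⟨fun r => ⟨r, by omega⟩, fun r s hrs => ?_⟩ ⟨3 + j, by omega⟩ (fun r => ?_)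
      (Or.inl ⟨fun r => ?_, ?_⟩)
    · simp only [Fin.mk.injEq] at hrs
      exact Fin.ext (by omega)
    · intro h0
      simp only [Function.Embedding.coeFn_mk, Fin.mk.injEq] at h0
      omega
    · simp only [Function.Embedding.coeFn_mk]
      omega
    · simp only
      omega

/-- **Core lemma** avoiding few partial sums. -/
theorem core_avoid {j : ℕ} {X N : ℕ} {C κ c ε Δ Am γ : ℝ} {ζ : ℝ} (hj : 4 ≤ j)
    (A : Fin (4 + j) → Finset ℕ)
    (hN : ∀ i, Nice (A i) X C κ c ε) (hX : 1 ≤ X) (hC : 0 ≤ C) (hκ1 : κ ≤ 1)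
    (hc0 : 0 ≤ c) (hc : c ≤ 1 / 4) (hΔ : |(N : ℝ) - (4 + j) * X / 2| ≤ Δ * X)
    (hΔ1 : Δ ≤ 1)
    (hfin : 2 * ((j : ℝ) + 6) * ((4 + j) * ε + 2 * π * c * Δ) +
      (1 - κ) ^ j * ((j : ℝ) + 5) * C ≤ 1 - γ)
    (hAm0 : 0 < Am) (hAm : ∀ i, Am ≤ ((A i).card : ℝ)) (Z : ℕ → Finset ℕ)
    (hZ : ∀ i, ((Z i).card : ℝ) ≤ ζ) (hζ : (4 + j) * ζ * C * (5 + j) < γ * Am) :
    ∃ f : Fin (4 + j) → ℕ, (∀ i, f i ∈ A i) ∧ ∑ i, f i = N ∧
      ∀ i, 1 ≤ i → i < 4 + j → psum f i ∉ Z i := by
  classical
  have hX0 : (0 : ℝ) < X := by exact_mod_cast hX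
  have hcard : ∀ i, (0 : ℝ) < (A i).card := fun i => lt_of_lt_of_le hAm0 (hAm i)
  obtain ⟨P, hP⟩ : ∃ P : ℝ, P = ∏ i, ((A i).card : ℝ) := ⟨_, rfl⟩
  have hP0 : 0 < P := by rw [hP]; exact prod_pos fun i _ => hcard i
  have h1 := core_count A hN hX hC hκ1 hc0 hc hΔ hΔ1 hfin
  rw [← hP] at h1
  by_contra hcon
  push Not at hcon
  -- every representation is bad
  have hsub : Reps A N ⊆ (Ico 1 (4 + j)).biUnion
      (fun i => (Z i).biUnion (fun z => (Reps A N).filter (fun f => psum f i = z))) := by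
    intro f hf
    have hf' := mem_Reps.1 hf
    obtain ⟨i, hi1, hi2, hi3⟩ := hcon f hf'.1 hf'.2
    rw [mem_biUnion]
    refine ⟨i, mem_Ico.2 ⟨hi1, hi2⟩, ?_⟩
    rw [mem_biUnion]
    exact ⟨_, hi3, mem_filter.2 ⟨hf, rfl⟩⟩
  have h2 : ((Reps A N).card : ℝ) ≤ ∑ i ∈ Ico 1 (4 + j), ∑ z ∈ Z i,
      (((Reps A N).filter (fun f => psum f i = z)).card : ℝ) := by
    have := (card_le_card hsub).trans (card_biUnion_le.trans
      (sum_le_sum fun i _ => card_biUnion_le))
    exact_mod_cast this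
  have h3 : ∀ i ∈ Ico 1 (4 + j), ∑ z ∈ Z i,
      (((Reps A N).filter (fun f => psum f i = z)).card : ℝ) ≤ ζ * (C * P / (X * Am)) := by
    intro i hi
    rw [mem_Ico] at hi
    have h4 : ∀ z ∈ Z i, (((Reps A N).filter (fun f => psum f i = z)).card : ℝ) ≤
        C * P / (X * Am) := by
      intro z _
      rw [hP]
      exact reps_psum_le hj A hX hC (fun i => (hN i).sub) (fun i => (hN i).ne)
        (fun i => (hN i).energy) hAm0 hAm N i z hi.1 hi.2
    refine (sum_le_card_nsmul _ _ _ h4).trans ?_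
    rw [nsmul_eq_mul]
    have h5 := hZ i
    have h6 : 0 ≤ C * P / (X * Am) := by positivity
    gcongr
  have h4 := h2.trans (sum_le_sum h3)
  rw [sum_const, Nat.card_Ico, nsmul_eq_mul] at h4
  have hζ0 : 0 ≤ ζ := (Nat.cast_nonneg _).trans (hZ 0)
  have h5 : ((4 + j - 1 : ℕ) : ℝ) ≤ 4 + j := by
    have : 4 + j - 1 ≤ 4 + j := Nat.sub_le _ _
    exact_mod_cast this
  have h6 : ((4 + j - 1 : ℕ) : ℝ) * (ζ * (C * P / (X * Am))) ≤
      (4 + j) * (ζ * (C * P / (X * Am))) := by
    have h7 : 0 ≤ C * P / (X * Am) := by positivity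
    gcongr
  have h7 : (4 + j) * (ζ * (C * P / (X * Am))) < γ * P / ((5 + j) * X) := by
    rw [lt_div_iff₀ (by positivity)]
    have h8 : (4 + (j : ℝ)) * (ζ * (C * P / (X * Am))) * ((5 + j) * X) =
        ((4 + j) * ζ * C * (5 + j)) * (P / Am) := by
      field_simp
    rw [h8]
    calc ((4 + j) * ζ * C * (5 + j)) * (P / Am) < (γ * Am) * (P / Am) := by
          apply mul_lt_mul_of_pos_right hζ; positivity
      _ = γ * P := by field_simp
  linarith

end

end Pool.Agent.Work.MP_713a1e_co
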