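import Mathlib
import Pool.Agent.Work.MP_713a1e_co.NiceEv
import Pool.Agent.Work.MP_713a1e_co.KeyStart
import Pool.Agent.Work.MP_713a1e_co.T3Core

/-! The key lemma, avoiding few values of the partial sums. -/

namespace Pool.Agent.Work.MP_713a1e_co

open Finset Filter
open scoped Real

noncomputable section

/-- **Key lemma**, avoiding few partial sums. -/
theorem key_avoid (hAP : APProp) (hSP : SPProp) : ∃ k0 : ℕ, ∀ k ≥ k0, ∀ ε : ℝ, 0 < ε →
    ∃ c₀ : ℝ, 0 < c₀ ∧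
    ∀ᶠ n : ℕ in atTop, ∀ (c : Fin k → ℕ) (N : ℕ), (∀ i, (n : ℝ) / 8 ≤ c i) →
      (∀ i, (c i : ℝ) ≤ 4 * n) → |(N : ℝ) - ∑ i, (c i : ℝ)| ≤ k → N % 2 = k % 2 →
      ∀ Z : ℕ → Finset ℕ, (∀ i, ((Z i).card : ℝ) ≤ c₀ * n / Real.log n) →
      ∃ P : Fin k → ℕ, (∀ i, (P i).Prime) ∧ (∀ i, |(P i : ℝ) - c i| ≤ ε * n) ∧ ∑ i, P i = N ∧
        ∀ i, 1 ≤ i → i < k → psum P i ∉ Z i := by
  classical
  obtain ⟨C₀, Y0, hC₀, hs⟩ := hSP
  obtain ⟨C₁, X0, hC₁, hE⟩ := energy_bound C₀ Y0 hC₀ hs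
  obtain ⟨Q, hQ⟩ : ∃ Q : ℕ, 16 * C₁ ≤ Q := ⟨⌈16 * C₁⌉₊, Nat.le_ceil _⟩
  have hQ16 : (16 : ℝ) ≤ Q := by linarith
  obtain ⟨η, hη0, hc₀, hηle, hη1⟩ := params hC₁ hQ
  have hπ : π < 3.15 := Real.pi_lt_d2
  have hπ0 : 0 < π := Real.pi_pos
  have hηsq : η ^ 2 ≤ (1 / 16000) ^ 2 := pow_le_pow_left₀ hη0.le hηle 2
  have hη2 : 2 * π * (48 * C₁ * Q * η) + 1 / 2 + 2 * η ^ 2 ≤ 1 := by
    rw [hc₀]
    norm_num at hηsq ⊢
    linarith
  have hκ0 : 0 < 2 * η ^ 2 := by positivity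
  have hκ1 : 2 * η ^ 2 ≤ 1 := by norm_num at hηsq ⊢; linarith
  obtain ⟨j0, hj0⟩ := exists_j0 (C := C₁) hκ0 hκ1
  obtain ⟨B, hB⟩ : ∃ B : ℕ, B = 2 * Q.factorial := ⟨_, rfl⟩
  have hQf : 0 < Q.factorial := Nat.factorial_pos Q
  have hBe : Even B := by rw [hB]; exact even_two_mul _
  have hB2 : 2 ≤ B := by omega
  have hBQ : ∀ q, 1 ≤ q → q < Q → q ∣ B := fun q h1 h2 => by
    rw [hB]; exact (Nat.dvd_factorial h1 h2.le).mul_left 2
  refine ⟨max (8 + j0) B, fun k hk ε hε => ?_⟩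
  have hkB : B ≤ k := (le_max_right _ _).trans hk
  have hkj : 8 + j0 ≤ k := (le_max_left _ _).trans hk
  obtain ⟨j, rfl⟩ : ∃ j, k = 4 + j := ⟨k - 4, by omega⟩
  have hj4 : 4 ≤ j := by omega
  have hj := hj0 j (by omega)
  obtain ⟨ε', hε'⟩ : ∃ ε' : ℝ, ε' = 1 / (8 * ((j : ℝ) + 6) * (j + 4)) := ⟨_, rfl⟩
  have hε'0 : 0 < ε' := by rw [hε']; positivity
  obtain ⟨J, hJ⟩ : ∃ J : ℕ, J = ⌈1 / ε'⌉₊ + 1 := ⟨_, rfl⟩
  have hJ1 : 1 ≤ J := by omega
  have hJε : 1 / ε' ≤ J := by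
    rw [hJ]; push_cast
    have := Nat.le_ceil (1 / ε')
    linarith
  obtain ⟨δ₁, hδ₁⟩ : ∃ δ₁ : ℝ, δ₁ = min (1 / 8) (ε' / 8) := ⟨_, rfl⟩
  have hδ₁0 : 0 < δ₁ := by rw [hδ₁]; positivity
  have hδ₁8 : δ₁ ≤ 1 / 8 := by rw [hδ₁]; exact min_le_left _ _
  have hδ₁ε : δ₁ ≤ ε' / 8 := by rw [hδ₁]; exact min_le_right _ _
  have hεtot : 4 * δ₁ + 2 * π * (48 * C₁ * Q * η) / J ≤ ε' := by
    have hJ0 : (0 : ℝ) < J := by exact_mod_cast hJ1
    have h1 : 2 * π * (48 * C₁ * Q * η) / J ≤ ε' / 2 := by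
      rw [hc₀, div_le_iff₀ hJ0]
      rw [div_le_iff₀ hε'0] at hJε
      linarith
    linarith
  obtain ⟨ε₂, hε₂⟩ : ∃ ε₂ : ℝ, ε₂ = min ε (1 / 16) / 4 := ⟨_, rfl⟩
  have hε₂0 : 0 < ε₂ := by rw [hε₂]; positivity
  have hε₂ε : ε₂ ≤ ε / 4 := by
    rw [hε₂]; have := min_le_left ε (1 / 16); linarith
  have hε₂64 : ε₂ ≤ 1 / 64 := by
    rw [hε₂]; have := min_le_right ε (1 / 16); linarith
  obtain ⟨M₀, hM₀⟩ : ∃ M₀ : ℕ, M₀ = J * Q.factorial := ⟨_, rfl⟩
  have hM₀0 : 0 < M₀ := by rw [hM₀]; positivity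
  have hM₀Q : ∀ q, 1 ≤ q → q < Q → q ∣ M₀ := fun q h1 h2 => by
    rw [hM₀]; exact (Nat.dvd_factorial h1 h2.le).mul_left J
  have hBr : (2 : ℝ) ≤ B := by exact_mod_cast hB2
  have hB0r : (0 : ℝ) < B := by linarith
  have hM₀r : (0 : ℝ) < M₀ := by exact_mod_cast hM₀0
  have hε₁0 : 0 < ε₂ / (2 * B) := by positivity
  have hε₁1 : ε₂ / (2 * B) ≤ 1 := by
    rw [div_le_one (by positivity)]; linarith
  have hnice := nice_ev hAP hC₁ hE hQ hBe (by omega) hBQ hJ1 (M₀ := M₀) (by rw [hM₀]; exact ⟨_, rfl⟩)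
    hM₀Q hε₁0 hε₁1 hδ₁0 hδ₁8 hη0 hη1 hη2
  have hφ : (0 : ℝ) < Nat.totient B := by exact_mod_cast Nat.totient_pos.2 (by omega)
  obtain ⟨κ', hκ'⟩ : ∃ κ' : ℝ, κ' = min (1 / 16) (ε₂ / 2) := ⟨_, rfl⟩
  have hκ'0 : 0 < κ' := by rw [hκ']; positivity
  have hκ'16 : κ' ≤ 1 / 16 := by rw [hκ']; exact min_le_left _ _
  have hκ'ε : κ' ≤ ε₂ / 2 := by rw [hκ']; exact min_le_right _ _
  have hC₁0 : 0 < C₁ := by linarith
  obtain ⟨c₀, hc₀def⟩ : ∃ c₀ : ℝ, c₀ = ε₂ / (64 * Nat.totient B * (4 + j) * (5 + j) * C₁) := ⟨_, rfl⟩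
  have hc₀0 : 0 < c₀ := by rw [hc₀def]; positivity
  have hcount := count hAP B (by omega) κ' (1 / 2) hκ'0 (by norm_num)
  refine ⟨c₀, hc₀0, ?_⟩
  have t1 : Tendsto (fun n : ℕ => (n : ℝ)) atTop atTop := tendsto_natCast_atTop_atTop
  filter_upwards [hnice, hcount, t1.eventually_ge_atTop 3, t1.eventually_ge_atTop (2 * B * M₀ / ε₂),
    t1.eventually_ge_atTop (64 * (4 + j) * (j + 6) * (2 * B) / ε₂),
    t1.eventually_ge_atTop (8 * (B + 2) / ε₂)]
    with n hn hcnt hn3' hn1 hn2 hn3 c N hc1 hc2 hcN hpar Z hZ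
  have hjr : (0 : ℝ) ≤ j := Nat.cast_nonneg j
  obtain ⟨X, v, N'', hMX, hX1, hXge, hBXle, hBXge, hXbig, hvcop, hv16, hv5, hvX, hN', hΔ, hdist⟩ :=
    key_start hB hQf hkB hM₀0 hε₂0 hε₂ε hε₂64 hn1 hn2 hn3 hc1 hc2 hcN hpar
  have hn0 : (0 : ℝ) < n := by linarith only [hn3']
  have hεn : ε₂ * n ≤ (1 / 64) * n := mul_le_mul_of_nonneg_right hε₂64 hn0.le
  have hBXn : (B : ℝ) * X ≤ n := by linarith only [hBXle, hεn, hn0]
  -- apply the core
  have hNice : ∀ i, Nice (PA B (v i) X) X C₁ (2 * η ^ 2) (48 * C₁ * Q * η)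
      (4 * δ₁ + 2 * π * (48 * C₁ * Q * η) / J) :=
    fun i => hn X (v i) hMX hXge hBXn (hv16 i) (hv5 i) (hvX i) (hvcop i)
  -- lower bound for the number of primes
  have hlog : 0 < Real.log n := Real.log_pos (by linarith)
  obtain ⟨Am, hAm⟩ : ∃ Am : ℝ, Am = ε₂ * n / (4 * Nat.totient B * Real.log n) := ⟨_, rfl⟩
  have hAm0 : 0 < Am := by rw [hAm]; positivity
  have hAmle : ∀ i, Am ≤ ((PA B (v i) X).card : ℝ) := by
    intro i
    have h1 := hv16 i
    have h2 := hv5 i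
    have h16 : κ' * n ≤ 1 / 16 * n := by gcongr
    have h5 : 16 * (n : ℝ) ≤ n / κ' := by
      rw [le_div_iff₀ hκ'0]
      have : 16 * (n : ℝ) * κ' ≤ 16 * n * (1 / 16) := by gcongr
      linarith only [this]
    have h6 := hcnt (v i) X (hvcop i) (by linarith only [h1, h16])
      (by linarith only [h2, h5, hBXn, hn0]) (by
      have : κ' * n ≤ ε₂ / 2 * n := by gcongr
      linarith only [this, hBXge])
    rw [abs_le] at h6
    have h7 : Am ≤ (1 / 2) * ((B : ℝ) * X / (Nat.totient B * Real.log n)) := by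
      rw [hAm]
      have : (1 / 2) * ((B : ℝ) * X / (Nat.totient B * Real.log n)) =
          (2 * (B * X)) / (4 * Nat.totient B * Real.log n) := by field_simp; ring
      rw [this]
      exact div_le_div_of_nonneg_right (by linarith) (by positivity)
    linarith [h6.1]
  have hcore := core_avoid (ζ := c₀ * n / Real.log n) (γ := 1 / 8) (Am := Am) hj4
    (fun i => PA B (v i) X) hNice hX1 (by linarith) hκ1 (by rw [hc₀]; norm_num)
    (by rw [hc₀]; norm_num) (by push_cast at hΔ; exact hΔ) (Δ := 1 / (8 * (j + 6))) (by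
      rw [div_le_one (by positivity)]; linarith) ?_ hAm0 hAmle
    (fun i => (range ((4 + j) * X + 1)).filter (fun s => B * s + psum v i ∈ Z i)) ?_ ?_
  · obtain ⟨f, hf1, hf2, hf3⟩ := hcore
    refine ⟨fun i => B * f i + v i, fun i => ?_, fun i => ?_, ?_, ?_⟩
    · have := hf1 i
      simp only [PA, mem_filter] at this
      exact this.2
    · have := hf1 i
      simp only [PA, mem_filter, mem_range] at this
      have h1 : (f i : ℝ) ≤ X := by exact_mod_cast this.1.le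
      push_cast
      exact hdist i _ (by positivity) (by gcongr)
    · have h1 : ((∑ i, (B * f i + v i) : ℕ) : ℤ) = N := by
        push_cast
        rw [sum_add_distrib, ← mul_sum]
        have : (∑ i, (f i : ℤ)) = N'' := by exact_mod_cast congrArg (fun z : ℕ => (z : ℤ)) hf2
        rw [this, ← hN']; ring
      exact_mod_cast h1
    · intro i hi1 hik hmem
      refine hf3 i hi1 hik ?_
      rw [mem_filter, mem_range]
      constructor
      · have h1 : psum f i ≤ (4 + j) * X := by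
          unfold psum
          calc ∑ i' ∈ univ.filter (fun i' : Fin (4 + j) => (i' : ℕ) < i), f i' ≤ ∑ i', f i' :=
                sum_le_sum_of_subset (subset_univ _)
            _ ≤ ∑ _i' : Fin (4 + j), X := sum_le_sum fun i' _ => by
                have := hf1 i'
                simp only [PA, mem_filter, mem_range] at this
                exact this.1.le
            _ = (4 + j) * X := by simp
        omega
      · have h1 : psum (fun i => B * f i + v i) i = B * psum f i + psum v i := by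
          unfold psum
          rw [sum_add_distrib, mul_sum]
        rw [← h1]; exact hmem
  · have h1 : (4 + j : ℝ) * (4 * δ₁ + 2 * π * (48 * C₁ * Q * η) / J) ≤ (4 + j) * ε' := by gcongr
    have h2 : 2 * ((j : ℝ) + 6) * ((4 + j) * ε') = 1 / 4 := by
      rw [hε']; field_simp; ring
    have h3 : 2 * ((j : ℝ) + 6) * (2 * π * (48 * C₁ * Q * η) * (1 / (8 * (j + 6)))) ≤ 1 / 8 := by
      rw [hc₀]
      have e : 2 * ((j : ℝ) + 6) * (2 * π * (48 / 1000) * (1 / (8 * (j + 6)))) =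
          π * (24 / 1000) := by field_simp; ring
      rw [e]; linarith
    have h4 : 2 * ((j : ℝ) + 6) * ((4 + j) * (4 * δ₁ + 2 * π * (48 * C₁ * Q * η) / J)) ≤
        2 * ((j : ℝ) + 6) * ((4 + j) * ε') := by gcongr
    have h5 : 2 * ((j : ℝ) + 6) * ((4 + j) * (4 * δ₁ + 2 * π * (48 * C₁ * Q * η) / J) +
        2 * π * (48 * C₁ * Q * η) * (1 / (8 * (j + 6)))) =
        2 * ((j : ℝ) + 6) * ((4 + j) * (4 * δ₁ + 2 * π * (48 * C₁ * Q * η) / J)) +
        2 * ((j : ℝ) + 6) * (2 * π * (48 * C₁ * Q * η) * (1 / (8 * (j + 6)))) := by ring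
    rw [h5]
    linarith
  · intro i
    refine le_trans ?_ (hZ i)
    have : ((range ((4 + j) * X + 1)).filter (fun s => B * s + psum v i ∈ Z i)).card ≤
        (Z i).card := by
      refine card_le_card_of_injOn (fun s => B * s + psum v i) ?_ ?_
      · intro s hs
        rw [mem_coe, mem_filter] at hs
        exact hs.2
      · intro s _ s' _ h
        have : B * s = B * s' := by simpa using h
        exact Nat.eq_of_mul_eq_mul_left (by omega) this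
    exact_mod_cast this
  · rw [hAm, hc₀def]
    have e1 : (4 + (j : ℝ)) * (ε₂ / (64 * Nat.totient B * (4 + j) * (5 + j) * C₁) * n / Real.log n) *
        C₁ * (5 + j) = (1 / 64) * (ε₂ * n / (Nat.totient B * Real.log n)) := by
      field_simp
    have e2 : 1 / 8 * (ε₂ * n / (4 * Nat.totient B * Real.log n)) =
        (1 / 32) * (ε₂ * n / (Nat.totient B * Real.log n)) := by
      field_simp; norm_num
    rw [e1, e2]
    have e3 : 0 < ε₂ * n / (Nat.totient B * Real.log n) := by positivity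
    linarith

end

end Pool.Agent.Work.MP_713a1e_co
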