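import Mathlib
import Pool.Agent.Work.MP_713a1e_co.T3Hop
import Pool.Agent.Work.MP_713a1e_co.SetupEv
import Pool.Agent.Work.MP_713a1e_co.LevelOf

/-! Assembling a level. -/

namespace Pool.Agent.Work.MP_713a1e_co

open Finset Filter

noncomputable section

theorem hop_ev (hAP : APProp) (hSP : SPProp) : HopEv := by
  obtain ⟨K0, hK0⟩ := hop_avoid hAP hSP
  refine ⟨K0, fun K hK ω hω hω2 => ?_⟩
  obtain ⟨c₀, hc₀, h⟩ := hK0 K hK ω hω hω2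
  filter_upwards [h, eventually_ge_atTop 1] with n hn hn1 p β hp hpn hpn2 hβ v w hv1 hvn hw1 hwn hv hw
  have hn1' : (1 : ℝ) ≤ n := by exact_mod_cast hn1
  obtain ⟨b, hb1, hb2, hb3, hb4⟩ := hn p β hp hpn hpn2 hβ (fun _ => ∅) (fun _ => by
    rw [card_empty, Nat.cast_zero]
    exact div_nonneg (by positivity) (Real.log_nonneg hn1')) v w hv1 hvn hw1 hwn hv hw
  exact ⟨b, fun i h1 h2 => ⟨(hb1 i h1 h2).1, (hb1 i h1 h2).2.1⟩, hb2, hb3, hb4⟩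

theorem lv_ev (hAP : APProp) (hSP : SPProp) (hCh : ChoiceT) :
    ∃ K : ℕ, 1 ≤ K ∧ ∃ c c₁ c' : ℝ, 0 < c ∧ c ≤ 1 / 4 ∧ 0 < c₁ ∧ 0 < c' ∧ ∀ᶠ n : ℕ in atTop,
      ∃ m p a d e Λ L : ℕ, Lv K c c₁ c' n m p a d e Λ L :=
  lv_of hAP (hop_ev hAP hSP) hCh

end

end Pool.Agent.Work.MP_713a1e_co
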