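import Mathlib
import Pool.Agent.Work.MP_713a1e_co.Setup

/-! Existence of rows, and rows with a free special window. -/

namespace Pool.Agent.Work.MP_713a1e_co

open Finset Filter

noncomputable section

variable {K : ℕ} {c c₁ c' : ℝ} {n m p a d e Λ L : ℕ}

lemma Lv.level (hK : 1 ≤ K) (h : Lv K c c₁ c' n m p a d e Λ L) : Level n m := by
  have hL : 1 ≤ L := by have := h.hKL; omega
  have hlow := h.hlow
  have hup := h.hup
  have hd := h.hd
  have hda := h.hda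
  have hpn := h.hpn
  have hΛ := h.hΛ
  have hm1 := h.hm1
  have hmn := h.hmn
  have hKL := h.hKL
  have hep : e + 2 * Λ ≤ p := by rcases h.he with he | he <;> omega
  obtain ⟨s, hsL, hs, hms⟩ := OmT_spec (e := e) hL (by omega) h.hpn h.hmn h.he h.hΛ
  exact level_of (K := K) (L := L) (Ω := OmT p e Λ L) h.hpn h.hp2 h.hm1 h.hmn hK (by omega)
    (fun i hi x hx => OmT_path hL h.hp h.he2 h.hp2 h.h1 h.h3 h.h2 h.had h.hd (by omega) (by omega)
      (by omega) hep i hi x hx)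
    (fun i hi j hj hij => OmT_dis hL h.hp2 h.he2 hep i hi j hj hij)
    (OmT_union hL h.hpn h.hp2 h.hmn h.he h.he2 h.hΛ)
    ⟨s, hsL, by omega, hms⟩ h.hext h.hop

/-- the pfx of a row, when the special window is left free -/
lemma Lv.pfx (hK : 1 ≤ K) (h : Lv K c c₁ c' n m p a d e Λ L) (z : ℕ)
    (hz : PathOn (Icc 1 m) 1 z) :
    ∃ s < L, m + 1 ∈ OmT p e Λ L s ∧ OmT p e Λ L s ⊆ Icc (m + 1) n ∧
      PathOn (Icc 1 n \ (OmT p e Λ L s).erase (m + 1)) 1 (m + 1) := by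
  have hL : 1 ≤ L := by have := h.hKL; omega
  have hlow := h.hlow
  have hup := h.hup
  have hd := h.hd
  have hda := h.hda
  have hpn := h.hpn
  have hΛ := h.hΛ
  have hm1 := h.hm1
  have hmn := h.hmn
  have hKL := h.hKL
  have hep : e + 2 * Λ ≤ p := by rcases h.he with he | he <;> omega
  obtain ⟨s, hsL, hs, hms⟩ := OmT_spec (e := e) hL (by omega) h.hpn h.hmn h.he h.hΛ
  have hun := OmT_union hL h.hpn h.hp2 h.hmn h.he h.he2 h.hΛ
  refine ⟨s, hsL, hms, ?_, ?_⟩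
  · intro x hx
    rw [← hun]; exact mem_biUnion.2 ⟨s, mem_range.2 hsL, hx⟩
  · exact pfx_of (K := K) (L := L) (Ω := OmT p e Λ L) h.hpn h.hp2 h.hm1 h.hmn hK (by omega)
      (fun i hi x hx => OmT_path hL h.hp h.he2 h.hp2 h.h1 h.h3 h.h2 h.had h.hd (by omega)
        (by omega) (by omega) hep i hi x hx)
      (fun i hi j hj hij => OmT_dis hL h.hp2 h.he2 hep i hi j hj hij)
      hun hsL (by omega) hms h.hext h.hop z hz

/-- **Rows exist** for all large `n`. -/
theorem exists_path (hAP : APProp) (hSP : SPProp) (hCh : ChoiceT) :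
    ∃ n₁ : ℕ, ∀ n, n₁ ≤ n → PathOn (Icc 1 n) 1 n := by
  obtain ⟨K, hK, c, c₁, c', -, -, -, -, hev⟩ := lv_ev hAP hSP hCh
  obtain ⟨n₀, hn₀⟩ := eventually_atTop.1 hev
  refine descent 5 n₀ (by norm_num) fun n hn => ?_
  obtain ⟨m, p, a, d, e, Λ, L, h⟩ := hn₀ n hn
  exact ⟨m, h.hn5, h.level hK⟩

end

end Pool.Agent.Work.MP_713a1e_co
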