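import Mathlib
import Pool.Agent.Work.MP_713a1e_co.Tiling

/-! A level whose windows have reservoirs: definitions. -/

namespace Pool.Agent.Work.MP_713a1e_co

open Finset Filter

noncomputable section

/-- first even element of a window -/
def ei (e Λ L i : ℕ) : ℕ := e + 2 * tt Λ L i

/-- length of a window -/
def WiT (Λ L i : ℕ) : ℕ := tt Λ L (i + 1) - tt Λ L i

/-- all the data of a robust level -/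
structure LvR (K : ℕ) (c₁ c₀ : ℝ) (n m p a d e Λ L : ℕ) : Prop where
  hp : p.Prime
  h1 : (p + 2 * a).Prime
  h2 : (p + 2 * a - 2 * d).Prime
  h3 : (p - 2 * d).Prime
  had : Nat.Coprime a d
  hd : 1 ≤ d
  hda : d < a
  hpn : p = n + m + 1
  hp2 : Odd p
  hm1 : 1 ≤ m
  hmn : m < n
  hn5 : n ≤ 5 * m
  he : e = m + 1 ∨ e = m + 2
  he2 : Even e
  hΛ : 2 * Λ = n - m
  hKL : K + 2 ≤ L
  hlow : 4 * a + d ≤ 4 * (Λ / L)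
  hup : 4 * (Λ / L + 1) ≤ 4 * a + 3 * d
  hdn : c₁ * n ≤ d
  hext : ∀ i < L, ∀ v, 1 ≤ v → v ≤ n → ∃ u, WiT Λ L i - a ≤ u ∧ u < WiT Λ L i ∧
    ((Odd v ∧ Adj v (ei e Λ L i + 2 * u)) ∨ (Even v ∧ Adj v (p - (ei e Λ L i + 2 * u))))
  hop : ∀ U : ℕ → Finset ℕ, (∀ i, ((U i).card : ℝ) ≤ c₀ * n / Real.log n) →
    ∀ v w, 1 ≤ v → v ≤ n → 1 ≤ w → w ≤ n → Odd v → Even w → ∃ u : ℕ → ℕ,
      (∀ i, 1 ≤ i → i ≤ K → u i < WiT Λ L i - a ∧ u i ∉ U i) ∧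
      Adj v (ei e Λ L 1 + 2 * u 1) ∧
      (∀ i, 1 ≤ i → i < K →
        Adj (p - (ei e Λ L i + 2 * u i)) (ei e Λ L (i + 1) + 2 * u (i + 1))) ∧
      Adj (p - (ei e Λ L K + 2 * u K)) w
/-- the statement of `hop_avoid` -/
def HopAvoid : Prop := ∃ K0 : ℕ, ∀ K ≥ K0, ∀ ω : ℝ, 0 < ω →
    ω ≤ 1 / 32 → ∃ c₀ : ℝ, 0 < c₀ ∧ ∀ᶠ n : ℕ in atTop, ∀ (p : ℕ) (β : ℕ → ℕ), Odd p →
      (9 / 8 : ℝ) * n ≤ p →
      (p : ℝ) ≤ 2 * n → (∀ i, 1 ≤ i → i ≤ K → (n : ℝ) / 8 ≤ β i ∧ (β i : ℝ) ≤ n) →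
      ∀ U : ℕ → Finset ℕ, (∀ i, ((U i).card : ℝ) ≤ c₀ * n / Real.log n) → ∀ v w : ℕ, 1 ≤ v → v ≤ n → 1 ≤ w → w ≤ n → Odd v → Even w → ∃ b : ℕ → ℕ,
        (∀ i, 1 ≤ i → i ≤ K → Even (b i) ∧ |(b i : ℝ) - β i| ≤ ω * n ∧ b i ∉ U i) ∧
        Adj v (b 1) ∧
        (∀ i, 1 ≤ i → i < K → Adj (p - b i) (b (i + 1))) ∧ Adj (p - b K) w

end

end Pool.Agent.Work.MP_713a1e_co
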