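import Mathlib
import Pool.Agent.Work.MP_713a1e_co.Window

/-! Windows with some pairs left out. -/

namespace Pool.Agent.Work.MP_713a1e_co

open Finset

/-- the window without the pairs of index in `S` -/
def OmD (p e W : ℕ) (S : Finset ℕ) : Finset ℕ :=
  (range W \ S).image (fun u => e + 2 * u) ∪ (range W \ S).image (fun u => p - (e + 2 * u))

lemma mem_OmD {p e W x : ℕ} {S : Finset ℕ} :
    x ∈ OmD p e W S ↔ (∃ u, (u < W ∧ u ∉ S) ∧ x = e + 2 * u) ∨
      (∃ u, (u < W ∧ u ∉ S) ∧ x = p - (e + 2 * u)) := by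
  unfold OmD
  simp only [mem_union, mem_image, mem_sdiff, mem_range]
  constructor
  · rintro (⟨u, h1, h2⟩ | ⟨u, h1, h2⟩)
    · exact Or.inl ⟨u, h1, h2.symm⟩
    · exact Or.inr ⟨u, h1, h2.symm⟩
  · rintro (⟨u, h1, h2⟩ | ⟨u, h1, h2⟩)
    · exact Or.inl ⟨u, h1, h2.symm⟩
    · exact Or.inr ⟨u, h1, h2.symm⟩

section rotation

variable {a d b W : ℕ} {S : Finset ℕ}

/-- kept indices -/
def Kp (W : ℕ) (S : Finset ℕ) (u : ℕ) : Prop := u < W ∧ u ∉ S

instance : DecidablePred (Kp W S) := fun u => by unfold Kp; infer_instance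

/-- from one kept element to the next -/
lemma orb_nextD (ha : 1 ≤ a) (haW : a ≤ W) (hdW : d ≤ W) (hW : W ≤ a + d) (hda : d < a)
    (hS : ∀ u ∈ S, u < W - a) (i : ℕ) (hi : Kp W S (orb a d b i)) :
    (Kp W S (orb a d b (i + 1)) ∧ (orb a d b (i + 1) = orb a d b i + d ∨
      orb a d b (i + 1) + a = orb a d b i)) ∨
    (¬ Kp W S (orb a d b (i + 1)) ∧ Kp W S (orb a d b (i + 2)) ∧
      orb a d b (i + 2) + a = orb a d b i + d) := by
  have h1 := orb_succ (d := d) (b := b) ha i
  have h2 := orb_succ (d := d) (b := b) ha (i + 1)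
  have h3 := orb_lt (d := d) (b := b) ha (i + 1)
  have h4 := orb_lt (d := d) (b := b) ha (i + 1 + 1)
  rw [show i + 1 + 1 = i + 2 from rfl] at h2 h4
  obtain ⟨hi1, hi2⟩ := hi
  by_cases h : Kp W S (orb a d b (i + 1))
  · left
    exact ⟨h, by rcases h1 with h1 | ⟨-, h1⟩; exacts [Or.inl h1, Or.inr h1]⟩
  · right
    refine ⟨h, ?_⟩
    have hcase : W ≤ orb a d b (i + 1) ∨ orb a d b (i + 1) ∈ S := by
      by_contra hcon
      push Not at hcon
      exact h ⟨by omega, hcon.2⟩
    rcases hcase with hc | hc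
    · rcases h1 with h1 | ⟨-, h1⟩
      · rcases h2 with h2 | ⟨-, h2⟩
        · omega
        · have h5 : orb a d b (i + 2) + a = orb a d b i + d := by omega
          refine ⟨⟨by omega, fun hmem => ?_⟩, h5⟩
          have := hS _ hmem
          omega
      · omega
    · have h6 := hS _ hc
      rcases h1 with h1 | ⟨-, h1⟩
      · omega
      · rcases h2 with h2 | ⟨h2', h2⟩
        · have h5 : orb a d b (i + 2) + a = orb a d b i + d := by omega
          refine ⟨⟨by omega, fun hmem => ?_⟩, h5⟩
          have := hS _ hmem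
          omega
        · omega

lemma orb_prevD (ha : 1 ≤ a) (haW : a ≤ W) (hdW : d ≤ W) (hW : W ≤ a + d) (hda : d < a)
    (hS : ∀ u ∈ S, u < W - a) (i : ℕ) (hi : ¬ Kp W S (orb a d b (i + 1))) :
    Kp W S (orb a d b i) := by
  have h1 := orb_succ (d := d) (b := b) ha i
  have h3 := orb_lt (d := d) (b := b) ha (i + 1)
  have h4 := orb_lt (d := d) (b := b) ha i
  have hcase : W ≤ orb a d b (i + 1) ∨ orb a d b (i + 1) ∈ S := by
    by_contra hcon
    push Not at hcon
    exact hi ⟨by omega, hcon.2⟩
  rcases hcase with hc | hc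
  · refine ⟨by omega, fun hmem => ?_⟩
    have := hS _ hmem
    omega
  · have h6 := hS _ hc
    refine ⟨by omega, fun hmem => ?_⟩
    have := hS _ hmem
    omega

end rotation

section window

variable {p e a d W : ℕ} {S : Finset ℕ}

/-- part of the window already visited -/
def SkD (p e a d b W : ℕ) (S : Finset ℕ) (k : ℕ) : Finset ℕ :=
  ((range (k + 1)).filter (fun j => Kp W S (orb a d b j))).image (fun j => e + 2 * orb a d b j) ∪
    ((Ico 1 (k + 1)).filter (fun j => Kp W S (orb a d b j))).image
      (fun j => p - (e + 2 * orb a d b j))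

lemma mem_SkD {b k x : ℕ} : x ∈ SkD p e a d b W S k ↔
    (∃ j ≤ k, Kp W S (orb a d b j) ∧ x = e + 2 * orb a d b j) ∨
    (∃ j, 1 ≤ j ∧ j ≤ k ∧ Kp W S (orb a d b j) ∧ x = p - (e + 2 * orb a d b j)) := by
  unfold SkD
  simp only [mem_union, mem_image, mem_filter, mem_range, mem_Ico]
  constructor
  · rintro (⟨j, ⟨h1, h2⟩, h3⟩ | ⟨j, ⟨⟨h1, h1'⟩, h2⟩, h3⟩)
    · exact Or.inl ⟨j, by omega, h2, h3.symm⟩
    · exact Or.inr ⟨j, h1, by omega, h2, h3.symm⟩
  · rintro (⟨j, h1, h2, h3⟩ | ⟨j, h1, h1', h2, h3⟩)
    · exact Or.inl ⟨j, ⟨by omega, h2⟩, h3.symm⟩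
    · exact Or.inr ⟨j, ⟨⟨h1, by omega⟩, h2⟩, h3.symm⟩

theorem window_evenD (hp : p.Prime) (he : Even e) (hp2 : Odd p) (h1 : (p + 2 * a).Prime)
    (h3 : (p - 2 * d).Prime) (h2 : (p + 2 * a - 2 * d).Prime) (had : Nat.Coprime a d)
    (ha : 1 ≤ a) (hd : 1 ≤ d) (haW : a ≤ W) (hdW : d ≤ W) (hW : W ≤ a + d)
    (heW : e + 2 * W ≤ p) (hda : d < a) (hS : ∀ u ∈ S, u < W - a) (b : ℕ) (hb0 : Kp W S b) :
    PathOn (OmD p e W S) (e + 2 * b) (p - (e + 2 * b)) := by
  classical
  have hb : b < W := hb0.1
  have hnext := fun i => orb_nextD (b := b) ha haW hdW hW hda hS i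
  have hprevD := fun i => orb_prevD (b := b) ha haW hdW hW hda hS i
  have hb' : b < a + d := lt_of_lt_of_le hb hW
  have ho0 := orb_zero (a := a) (d := d) hb'
  -- the elementary step
  have hstep : ∀ u u' : ℕ, u < W → u' < W → (u' = u + d ∨ u' + a = u ∨ u' + a = u + d) →
      Adj (e + 2 * u) (p - (e + 2 * u')) := by
    intro u u' hu hu' h
    unfold Adj
    rcases h with h | h | h
    · have : e + 2 * u + (p - (e + 2 * u')) = p - 2 * d := by omega
      rwa [this]
    · have : e + 2 * u + (p - (e + 2 * u')) = p + 2 * a := by omega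
      rwa [this]
    · have : e + 2 * u + (p - (e + 2 * u')) = p + 2 * a - 2 * d := by omega
      rwa [this]
  have hparE : ∀ u, Even (e + 2 * u) := fun u => he.add (even_two_mul u)
  have hparO : ∀ u, u < W → Odd (p - (e + 2 * u)) := by
    intro u hu
    exact Nat.Odd.sub_even (by omega) hp2 (hparE u)
  have hne : ∀ u u', u' < W → e + 2 * u ≠ p - (e + 2 * u') := by
    intro u u' hu' h
    have h5 := hparE u
    rw [h] at h5
    exact (Nat.not_even_iff_odd.2 (hparO u' hu')) h5
  -- passing from index i to index k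
  have hgo : ∀ i k : ℕ, i < k → k < a + d → Kp W S (orb a d b i) → Kp W S (orb a d b k) →
      (∀ j, i < j → j < k → ¬ Kp W S (orb a d b j)) →
      (orb a d b k = orb a d b i + d ∨ orb a d b k + a = orb a d b i ∨
        orb a d b k + a = orb a d b i + d) →
      PathOn (SkD p e a d b W S i) (e + 2 * b) (e + 2 * orb a d b i) →
      PathOn (SkD p e a d b W S k) (e + 2 * b) (e + 2 * orb a d b k) := by
    intro i k hik hk hi hkW hbet hrel hP
    have hE : PathOn ({p - (e + 2 * orb a d b k)} ∪ {e + 2 * orb a d b k})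
        (p - (e + 2 * orb a d b k)) (e + 2 * orb a d b k) := by
      refine (PathOn.single _).append (PathOn.single _) ?_ ?_
      · rw [disjoint_singleton]
        exact (hne _ _ hkW.1).symm
      · unfold Adj
        have := hkW.1
        have : p - (e + 2 * orb a d b k) + (e + 2 * orb a d b k) = p := by omega
        rwa [this]
    have hdis : Disjoint (SkD p e a d b W S i)
        ({p - (e + 2 * orb a d b k)} ∪ {e + 2 * orb a d b k}) := by
      rw [disjoint_left]
      intro x hx hx'
      rw [mem_SkD] at hx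
      simp only [mem_union, mem_singleton] at hx'
      have hkey : ∀ j, j ≤ i → orb a d b j ≠ orb a d b k := by
        intro j hj h
        have := orb_inj had (by omega) hk h
        omega
      rcases hx with ⟨j, hj, ⟨hjW, -⟩, rfl⟩ | ⟨j, hj1, hj, ⟨hjW, -⟩, rfl⟩
      · rcases hx' with hx' | hx'
        · exact hne _ _ hkW.1 hx'
        · exact hkey j hj (by omega)
      · rcases hx' with hx' | hx'
        · have := hkW.1
          exact hkey j hj (by omega)
        · exact hne _ _ hjW hx'.symm
    have happ := hP.append hE hdis (hstep _ _ hi.1 hkW.1 hrel)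
    have hset : SkD p e a d b W S i ∪ ({p - (e + 2 * orb a d b k)} ∪ {e + 2 * orb a d b k}) =
        SkD p e a d b W S k := by
      ext x
      simp only [mem_union, mem_singleton, mem_SkD]
      constructor
      · rintro ((⟨j, hj, hjW, hx⟩ | ⟨j, hj1, hj, hjW, hx⟩) | hx | hx)
        · exact Or.inl ⟨j, by omega, hjW, hx⟩
        · exact Or.inr ⟨j, hj1, by omega, hjW, hx⟩
        · exact Or.inr ⟨k, by omega, le_rfl, hkW, hx⟩
        · exact Or.inl ⟨k, le_rfl, hkW, hx⟩
      · have hcase : ∀ j, Kp W S (orb a d b j) → j ≤ k → j ≤ i ∨ j = k := by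
          intro j hjW hjk
          by_contra hcon
          push Not at hcon
          exact hbet j (by omega) (by omega) hjW
        rintro (⟨j, hj, hjW, hx⟩ | ⟨j, hj1, hj, hjW, hx⟩)
        · rcases hcase j hjW hj with h | h
          · exact Or.inl (Or.inl ⟨j, h, hjW, hx⟩)
          · subst h; exact Or.inr (Or.inr hx)
        · rcases hcase j hjW hj with h | h
          · exact Or.inl (Or.inr ⟨j, hj1, h, hjW, hx⟩)
          · subst h; exact Or.inr (Or.inl hx)
    rw [hset] at happ
    exact happ
  -- all kept indices are reached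
  have hall : ∀ k, k < a + d → Kp W S (orb a d b k) →
      PathOn (SkD p e a d b W S k) (e + 2 * b) (e + 2 * orb a d b k) := by
    intro k
    induction k using Nat.strong_induction_on with
    | _ k ih =>
      intro hk hkW
      rcases k with _ | k
      · have : SkD p e a d b W S 0 = {e + 2 * b} := by
          ext x
          rw [mem_SkD, mem_singleton]
          constructor
          · rintro (⟨j, hj, hjW, hx⟩ | ⟨j, hj1, hj, hjW, hx⟩)
            · obtain rfl : j = 0 := by omega
              rwa [ho0] at hx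
            · omega
          · intro hx
            exact Or.inl ⟨0, le_rfl, by rw [ho0]; exact hb0, by rw [ho0]; exact hx⟩
        rw [this, ho0]
        exact PathOn.single _
      · by_cases hprev : Kp W S (orb a d b k)
        · refine hgo k (k + 1) (by omega) hk hprev hkW (fun j h h' => by omega) ?_
            (ih k (by omega) (by omega) hprev)
          rcases hnext k hprev with ⟨-, h | h⟩ | ⟨h, -⟩
          · exact Or.inl h
          · exact Or.inr (Or.inl h)
          · exact absurd hkW h
        · have hk0 : k ≠ 0 := by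
            rintro rfl
            rw [ho0] at hprev
            exact hprev hb0
          obtain ⟨i, rfl⟩ : ∃ i, k = i + 1 := ⟨k - 1, by omega⟩
          have hi := hprevD i hprev
          refine hgo i (i + 1 + 1) (by omega) hk hi hkW (fun j h h' => ?_) ?_
            (ih i (by omega) (by omega) hi)
          · obtain rfl : j = i + 1 := by omega
            exact hprev
          · rcases hnext i hi with ⟨h, -⟩ | ⟨-, -, h⟩
            · exact absurd h hprev
            · exact Or.inr (Or.inr h)
  -- the last kept index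
  have hlast : ∃ K, K < a + d ∧ Kp W S (orb a d b K) ∧
      (∀ j, K < j → j < a + d → ¬ Kp W S (orb a d b j)) ∧
      (b = orb a d b K + d ∨ b + a = orb a d b K ∨ b + a = orb a d b K + d) := by
    have hper := orb_period (a := a) (d := d) (b := b) 0
    rw [zero_add, ho0] at hper
    by_cases hprev : Kp W S (orb a d b (a + d - 1))
    · refine ⟨a + d - 1, by omega, hprev, fun j h h' => by omega, ?_⟩
      have h4 := hnext (a + d - 1) hprev
      rw [show a + d - 1 + 1 = a + d by omega, hper] at h4
      rcases h4 with ⟨-, h | h⟩ | ⟨h, -⟩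
      · exact Or.inl h
      · exact Or.inr (Or.inl h)
      · exact absurd hb0 h
    · have h5 : ¬ Kp W S (orb a d b (a + d - 2 + 1)) := by
        rw [show a + d - 2 + 1 = a + d - 1 by omega]
        exact hprev
      have hi := hprevD (a + d - 2) h5
      refine ⟨a + d - 2, by omega, hi, fun j h h' => ?_, ?_⟩
      · obtain rfl : j = a + d - 1 := by omega
        exact hprev
      · have h4 := hnext (a + d - 2) hi
        rw [show a + d - 2 + 2 = a + d by omega, hper] at h4
        rcases h4 with ⟨h, -⟩ | ⟨-, -, h⟩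
        · exact absurd h h5
        · exact Or.inr (Or.inr h)
  obtain ⟨K, hK, hKW, hKl, hrel⟩ := hlast
  have hP := hall K hK hKW
  have hfin := hP.append (PathOn.single (p - (e + 2 * b))) ?_ (hstep _ _ hKW.1 hb hrel)
  · have hset : SkD p e a d b W S K ∪ {p - (e + 2 * b)} = OmD p e W S := by
      ext x
      simp only [mem_union, mem_singleton, mem_SkD, mem_OmD]
      constructor
      · rintro ((⟨j, hj, hjW, hx⟩ | ⟨j, hj1, hj, hjW, hx⟩) | hx)
        · exact Or.inl ⟨_, hjW, hx⟩
        · exact Or.inr ⟨_, hjW, hx⟩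
        · exact Or.inr ⟨b, hb0, hx⟩
      · have hle : ∀ j, j < a + d → Kp W S (orb a d b j) → j ≤ K := by
          intro j hj hjW
          by_contra hcon
          exact hKl j (by omega) hj hjW
        rintro (⟨u, hu, hx⟩ | ⟨u, hu, hx⟩)
        · obtain ⟨j, hj, hju⟩ := orb_surj (b := b) ha had (lt_of_lt_of_le hu.1 hW)
          subst hju
          exact Or.inl (Or.inl ⟨j, hle j hj hu, hu, hx⟩)
        · obtain ⟨j, hj, hju⟩ := orb_surj (b := b) ha had (lt_of_lt_of_le hu.1 hW)
          subst hju
          rcases Nat.eq_zero_or_pos j with h0 | h0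
          · subst h0
            rw [ho0] at hx
            exact Or.inr hx
          · exact Or.inl (Or.inr ⟨j, h0, hle j hj hu, hu, hx⟩)
    rw [hset] at hfin
    exact hfin
  · rw [disjoint_singleton_right, mem_SkD]
    rintro (⟨j, hj, ⟨hjW, -⟩, hx⟩ | ⟨j, hj1, hj, ⟨hjW, -⟩, hx⟩)
    · exact hne _ _ hb hx.symm
    · have h6 : orb a d b j = b := by omega
      have h7 := orb_inj had (by omega : j < a + d) (by omega : 0 < a + d) (by rw [h6, ho0])
      omega

/-- **Window lemma**, with pairs left out. -/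
theorem windowD (hp : p.Prime) (he : Even e) (hp2 : Odd p) (h1 : (p + 2 * a).Prime)
    (h3 : (p - 2 * d).Prime) (h2 : (p + 2 * a - 2 * d).Prime) (had : Nat.Coprime a d)
    (ha : 1 ≤ a) (hd : 1 ≤ d) (haW : a ≤ W) (hdW : d ≤ W) (hW : W ≤ a + d)
    (heW : e + 2 * W ≤ p) (hda : d < a) (hS : ∀ u ∈ S, u < W - a) (x : ℕ)
    (hx : x ∈ OmD p e W S) :
    PathOn (OmD p e W S) x (p - x) := by
  rcases mem_OmD.1 hx with ⟨u, hu, rfl⟩ | ⟨u, hu, rfl⟩
  · exact window_evenD hp he hp2 h1 h3 h2 had ha hd haW hdW hW heW hda hS u hu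
  · have := (window_evenD hp he hp2 h1 h3 h2 had ha hd haW hdW hW heW hda hS u hu).symm
    have h5 := hu.1
    rwa [show p - (p - (e + 2 * u)) = e + 2 * u by omega]

end window

end Pool.Agent.Work.MP_713a1e_co
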