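import Mathlib
import Pool.Agent.Work.MP_713a1e_co.T3LevelDefs
import Pool.Agent.Work.MP_713a1e_co.T3Window

/-! The extension of paths over a level whose windows have reservoirs. -/

namespace Pool.Agent.Work.MP_713a1e_co

open Finset Filter

noncomputable section

/-- a window as an explicit set -/
lemma OmD_sub {p e W : ℕ} {S : Finset ℕ} : OmD p e W S ⊆ Om p e W := by
  intro x hx
  rcases mem_OmD.1 hx with ⟨u, hu, rfl⟩ | ⟨u, hu, rfl⟩
  · exact mem_Om.2 (Or.inl ⟨u, hu.1, rfl⟩)
  · exact mem_Om.2 (Or.inr ⟨u, hu.1, rfl⟩)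

/-- **Absorber**: a path on `[1, m]` extends over the windows, with prescribed pairs of the
reservoirs left out; its end does not depend on these pairs. -/
theorem LvR.absorber {K : ℕ} {c₁ c₀ : ℝ} {n m p a d e Λ L : ℕ}
    (h : LvR K c₁ c₀ n m p a d e Λ L) (z : ℕ) (hz : PathOn (Icc 1 m) 1 z) :
    ∃ z', 1 ≤ z' ∧ z' ≤ n ∧ ∀ S : ℕ → Finset ℕ, (∀ i < L, ∀ u ∈ S i, u < WiT Λ L i - a) →
      PathOn (Icc 1 m ∪ (range L).biUnion (fun i => OmD p (ei e Λ L i) (WiT Λ L i) (S i))) 1 z' := by
  have hL : 1 ≤ L := by have := h.hKL; omega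
  have hlow := h.hlow
  have hup := h.hup
  have hd := h.hd
  have hda := h.hda
  have hpn := h.hpn
  have hΛ := h.hΛ
  have hm1 := h.hm1
  have hmn := h.hmn
  have hKL := h.hKL
  have hep : e + 2 * Λ ≤ p := by rcases h.he with he | he <;> omega
  have hun := OmT_union hL h.hpn h.hp2 h.hmn h.he h.he2 h.hΛ
  have hOmT : ∀ i, OmT p e Λ L i = Om p (ei e Λ L i) (WiT Λ L i) := fun i => rfl
  have key : ∀ l ≤ L, ∃ z', 1 ≤ z' ∧ z' ≤ n ∧ ∀ S : ℕ → Finset ℕ,
      (∀ i < L, ∀ u ∈ S i, u < WiT Λ L i - a) →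
      PathOn (Icc 1 m ∪ (range l).biUnion (fun i => OmD p (ei e Λ L i) (WiT Λ L i) (S i))) 1 z' := by
    intro l
    induction l with
    | zero =>
      intro _
      have h1 := mem_Icc.1 hz.right_mem
      refine ⟨z, h1.1, by omega, fun S _ => ?_⟩
      simpa using hz
    | succ l ih =>
      intro hl
      obtain ⟨z₁, hz1, hz2, hz3⟩ := ih (by omega)
      obtain ⟨u, hu1, hu2, hu3⟩ := h.hext l (by omega) z₁ hz1 hz2
      have h4 := tt_succ_ge (Λ := Λ) hL l
      have h5 := tt_succ_le (Λ := Λ) hL l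
      have h6 : tt Λ L (l + 1) ≤ Λ := by
        have := tt_mono (Λ := Λ) hL (show l + 1 ≤ L by omega)
        rwa [tt_last hL] at this
      have hWl : WiT Λ L l = tt Λ L (l + 1) - tt Λ L l := rfl
      have hel : ei e Λ L l = e + 2 * tt Λ L l := rfl
      -- the entry
      obtain ⟨x, hx, hadj⟩ : ∃ x, ((x = ei e Λ L l + 2 * u) ∨ (x = p - (ei e Λ L l + 2 * u))) ∧
          Adj z₁ x := by
        rcases hu3 with ⟨-, h7⟩ | ⟨-, h7⟩
        · exact ⟨_, Or.inl rfl, h7⟩
        · exact ⟨_, Or.inr rfl, h7⟩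
      have hxOm : x ∈ Om p (ei e Λ L l) (WiT Λ L l) := by
        rcases hx with rfl | rfl
        · exact mem_Om.2 (Or.inl ⟨u, hu2, rfl⟩)
        · exact mem_Om.2 (Or.inr ⟨u, hu2, rfl⟩)
      have hxn : m + 1 ≤ x ∧ x ≤ n := by
        rw [← hOmT l] at hxOm
        have : x ∈ Icc (m + 1) n := by
          rw [← hun]; exact mem_biUnion.2 ⟨l, mem_range.2 (by omega), hxOm⟩
        exact mem_Icc.1 this
      refine ⟨p - x, by omega, by omega, fun S hS => ?_⟩
      have hxD : x ∈ OmD p (ei e Λ L l) (WiT Λ L l) (S l) := by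
        have huS : u ∉ S l := fun hmem => by
          have := hS l (by omega) u hmem
          omega
        rcases hx with rfl | rfl
        · exact mem_OmD.2 (Or.inl ⟨u, ⟨hu2, huS⟩, rfl⟩)
        · exact mem_OmD.2 (Or.inr ⟨u, ⟨hu2, huS⟩, rfl⟩)
      have hwin := windowD (S := S l) (e := ei e Λ L l) (W := WiT Λ L l) h.hp
        (by rw [hel]; exact h.he2.add (even_two_mul _)) h.hp2 h.h1 h.h3 h.h2 h.had (by omega) h.hd
        (by omega) (by omega) (by omega) (by omega) h.hda (hS l (by omega)) x hxD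
      have happ := (hz3 S hS).append hwin ?_ hadj
      · have hset : Icc 1 m ∪ (range l).biUnion (fun i => OmD p (ei e Λ L i) (WiT Λ L i) (S i)) ∪
            OmD p (ei e Λ L l) (WiT Λ L l) (S l) =
            Icc 1 m ∪ (range (l + 1)).biUnion (fun i => OmD p (ei e Λ L i) (WiT Λ L i) (S i)) := by
          rw [range_add_one, biUnion_insert]
          ext y; simp only [mem_union]; tauto
        rw [hset] at happ
        exact happ
      · rw [disjoint_union_left]
        constructor
        · rw [disjoint_left]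
          intro y hy hy'
          have h8 := mem_Icc.1 hy
          have h9 : y ∈ Icc (m + 1) n := by
            rw [← hun]
            exact mem_biUnion.2 ⟨l, mem_range.2 (by omega), by rw [hOmT]; exact OmD_sub hy'⟩
          rw [mem_Icc] at h9
          omega
        · rw [disjoint_biUnion_left]
          intro i hi
          rw [mem_range] at hi
          refine Disjoint.mono OmD_sub OmD_sub ?_
          rw [← hOmT, ← hOmT]
          exact OmT_dis hL h.hp2 h.he2 hep i (by omega) l (by omega) (by omega)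
  exact key L le_rfl

end

end Pool.Agent.Work.MP_713a1e_co
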