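import Mathlib
import Pool.Agent.Work.MP_713a1e_co.SetupBase
import Pool.Agent.Work.MP_713a1e_co.LevelNum
import Pool.Agent.Work.MP_713a1e_co.T3LevelDefs

/-! Existence of levels whose windows have reservoirs. -/

namespace Pool.Agent.Work.MP_713a1e_co

open Finset Filter

noncomputable section

lemma lvR_entries {K n m p a d e Λ L : ℕ} {κ : ℝ} (h : LNum K n m p a d e Λ L)
    (hκ0 : 0 < κ) (hκ8 : κ ≤ 1 / 8) (hκa : κ * n ≤ a) (hn1000 : (1000 : ℝ) ≤ n)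
    (hp5 : (5 : ℝ) / 4 * n ≤ p) (hp3 : (p : ℝ) ≤ 3 / 2 * n)
    (hbet : ∀ s Y : ℕ, κ * n ≤ s → (s : ℝ) + Y ≤ n / κ → κ * n ≤ (Y : ℝ) →
      ∃ x < Y, (x + s).Prime) :
    ∀ i < L, ∀ v, 1 ≤ v → v ≤ n → ∃ u, WiT Λ L i - a ≤ u ∧ u < WiT Λ L i ∧
      ((Odd v ∧ Adj v (ei e Λ L i + 2 * u)) ∨ (Even v ∧ Adj v (p - (ei e Λ L i + 2 * u)))) := by
  obtain ⟨hd100, hm, hmr, hm5, hmn, hp2, he, he2, hΛ, -, hlow, hup, hgap1, htΛ⟩ := h
  have hm5r : (n : ℝ) ≤ 5 * m := by exact_mod_cast hm5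
  have hκn : κ * n ≤ n / 8 := by
    have : κ * n ≤ 1 / 8 * n := by gcongr
    linarith
  have hnκ : 8 * (n : ℝ) ≤ n / κ := by
    rw [le_div_iff₀ hκ0]
    have : 8 * (n : ℝ) * κ ≤ 8 * n * (1 / 8) := by gcongr
    linarith
  intro i hi v hv1 hvn
  have g1 := hgap1 i
  have g2 := htΛ i hi
  obtain ⟨W, hW⟩ : ∃ W, W = tt Λ L (i + 1) - tt Λ L i := ⟨_, rfl⟩
  have hWa : a ≤ W := by omega
  have hWi : WiT Λ L i = W := by unfold WiT; omega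
  have hY : κ * n ≤ ((2 * a : ℕ) : ℝ) := by push_cast; linarith
  have hvr : (v : ℝ) ≤ n := by exact_mod_cast hvn
  rw [hWi]
  unfold ei
  rcases Nat.even_or_odd v with hv | hv
  · -- even `v`
    obtain ⟨s, hs⟩ : ∃ s, s = v + (p - e - 2 * tt Λ L i - 2 * W + 1) := ⟨_, rfl⟩
    have hs1 : p - n - 4 ≤ s := by omega
    have hs2 : s + 2 * a ≤ v + p := by omega
    have hs1r : (p : ℝ) - n - 4 ≤ s := by
      have : p ≤ s + n + 4 := by omega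
      have : (p : ℝ) ≤ s + n + 4 := by exact_mod_cast this
      linarith
    have hs2r : (s : ℝ) + ((2 * a : ℕ) : ℝ) ≤ v + p := by exact_mod_cast hs2
    obtain ⟨x, hx, hxp⟩ := hbet s (2 * a) (by linarith) (by linarith) hY
    have hxodd : Odd (x + s) := hxp.odd_of_ne_two (by omega)
    obtain ⟨x', hx'⟩ := hxodd
    obtain ⟨v', hv'⟩ := hv
    obtain ⟨p', hp'⟩ := hp2
    obtain ⟨e', he'⟩ := he2
    refine ⟨(p - (x + s - v) - e) / 2 - tt Λ L i, ?_, ?_, Or.inr ⟨⟨v', hv'⟩, ?_⟩⟩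
    · omega
    · omega
    · unfold Adj
      have : v + (p - (e + 2 * tt Λ L i + 2 * ((p - (x + s - v) - e) / 2 - tt Λ L i))) =
        x + s := by omega
      rw [this]
      exact hxp
  · -- odd `v`
    obtain ⟨s, hs⟩ : ∃ s, s = v + e + 2 * tt Λ L i + 2 * (W - a) := ⟨_, rfl⟩
    have hs1 : m + 1 ≤ s := by omega
    have hs2 : s + 2 * a ≤ v + p := by omega
    have hs1r : (m : ℝ) + 1 ≤ s := by exact_mod_cast hs1
    have hs2r : (s : ℝ) + ((2 * a : ℕ) : ℝ) ≤ v + p := by exact_mod_cast hs2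
    obtain ⟨x, hx, hxp⟩ := hbet s (2 * a) (by linarith) (by linarith) hY
    have hxodd : Odd (x + s) := hxp.odd_of_ne_two (by omega)
    obtain ⟨x', hx'⟩ := hxodd
    obtain ⟨v', hv'⟩ := hv
    obtain ⟨e', he'⟩ := he2
    refine ⟨(x + s - v - e) / 2 - tt Λ L i, ?_, ?_, Or.inl ⟨⟨v', hv'⟩, ?_⟩⟩
    · omega
    · omega
    · unfold Adj
      have : v + (e + 2 * tt Λ L i + 2 * ((x + s - v - e) / 2 - tt Λ L i)) = x + s := by omega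
      rw [this]
      exact hxp

lemma lvR_hop {K n m p a d e Λ L : ℕ} {c ε ω c₀ : ℝ} (h : LNum K n m p a d e Λ L) (hK1 : 1 ≤ K)
    (hωc : ω ≤ c * ε / 8) (hn1000 : (1000 : ℝ) ≤ n)
    (hp5 : (5 : ℝ) / 4 * n ≤ p) (hp3 : (p : ℝ) ≤ 3 / 2 * n) (hdn : c * ε * n ≤ d)
    (hhop : ∀ (p : ℕ) (β : ℕ → ℕ), Odd p → (9 / 8 : ℝ) * n ≤ p →
      (p : ℝ) ≤ 2 * n → (∀ i, 1 ≤ i → i ≤ K → (n : ℝ) / 8 ≤ β i ∧ (β i : ℝ) ≤ n) →
      ∀ U : ℕ → Finset ℕ, (∀ i, ((U i).card : ℝ) ≤ c₀ * n / Real.log n) → ∀ v w : ℕ, 1 ≤ v →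
        v ≤ n → 1 ≤ w → w ≤ n → Odd v → Even w → ∃ b : ℕ → ℕ,
        (∀ i, 1 ≤ i → i ≤ K → Even (b i) ∧ |(b i : ℝ) - β i| ≤ ω * n ∧ b i ∉ U i) ∧
        Adj v (b 1) ∧
        (∀ i, 1 ≤ i → i < K → Adj (p - b i) (b (i + 1))) ∧ Adj (p - b K) w) :
    ∀ U : ℕ → Finset ℕ, (∀ i, ((U i).card : ℝ) ≤ c₀ * n / Real.log n) →
      ∀ v w, 1 ≤ v → v ≤ n → 1 ≤ w → w ≤ n → Odd v → Even w → ∃ u : ℕ → ℕ,
        (∀ i, 1 ≤ i → i ≤ K → u i < WiT Λ L i - a ∧ u i ∉ U i) ∧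
        Adj v (ei e Λ L 1 + 2 * u 1) ∧
        (∀ i, 1 ≤ i → i < K →
          Adj (p - (ei e Λ L i + 2 * u i)) (ei e Λ L (i + 1) + 2 * u (i + 1))) ∧
        Adj (p - (ei e Λ L K + 2 * u K)) w := by
  classical
  obtain ⟨hd100, hm, hmr, hm5, hmn, hp2, he, he2, hΛ, hKL, hlow, hup, hgap1, htΛ⟩ := h
  have hm5r : (n : ℝ) ≤ 5 * m := by exact_mod_cast hm5
  have hd100r : (100 : ℝ) ≤ d := by exact_mod_cast hd100
  intro U hU v w' hv1 hvn hw1 hwn hv hw'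
  obtain ⟨β, hβ⟩ : ∃ β : ℕ → ℕ, β = fun i => ei e Λ L i + (WiT Λ L i - a) := ⟨_, rfl⟩
  have hβi : ∀ i, β i = e + 2 * tt Λ L i + (tt Λ L (i + 1) - tt Λ L i - a) := fun i => by
    rw [hβ]; rfl
  obtain ⟨b, hb1, hb2, hb3, hb4⟩ := hhop p β hp2 (by linarith) (by linarith) (by
    intro i hi1 hiK
    have g1 := hgap1 i
    have g2 := htΛ i (by omega)
    rw [hβi i]
    constructor
    · have : m + 1 ≤ e + 2 * tt Λ L i + (tt Λ L (i + 1) - tt Λ L i - a) := by omega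
      have : (m : ℝ) + 1 ≤ ((e + 2 * tt Λ L i + (tt Λ L (i + 1) - tt Λ L i - a) : ℕ) : ℝ) := by
        exact_mod_cast this
      linarith
    · have : e + 2 * tt Λ L i + (tt Λ L (i + 1) - tt Λ L i - a) ≤ n := by omega
      exact_mod_cast this)
    (fun i => (U i).image (fun u => ei e Λ L i + 2 * u)) (fun i => by
      refine le_trans ?_ (hU i)
      exact_mod_cast card_image_le) v w' hv1 hvn hw1 hwn hv hw'
  have hmain : ∀ i, 1 ≤ i → i ≤ K → ∃ u, b i = ei e Λ L i + 2 * u ∧ u < WiT Λ L i - a := by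
    intro i hi1 hiK
    have g1 := hgap1 i
    have g2 := htΛ i (by omega)
    obtain ⟨hbe, hbc, hbU⟩ := hb1 i hi1 hiK
    have hdr : 8 * (ω * n) ≤ d := by
      have e1 : ω * n ≤ c * ε / 8 * n := by gcongr
      linarith
    rw [hβi i, abs_le] at hbc
    have hWd : d / 4 ≤ tt Λ L (i + 1) - tt Λ L i - a := by omega
    have hWd' : d ≤ 4 * (tt Λ L (i + 1) - tt Λ L i - a) + 3 := by omega
    obtain ⟨R, hR⟩ : ∃ R, R = tt Λ L (i + 1) - tt Λ L i - a := ⟨_, rfl⟩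
    rw [← hR] at hbc hWd'
    have hWdr : (d : ℝ) ≤ 4 * R + 3 := by exact_mod_cast hWd'
    push_cast at hbc
    have hb5 : e + 2 * tt Λ L i ≤ b i := by
      have : ((e : ℝ) + 2 * tt Λ L i) ≤ b i := by linarith [hbc.1]
      exact_mod_cast this
    have hb6 : b i < e + 2 * tt Λ L i + 2 * R := by
      have : (b i : ℝ) < (e : ℝ) + 2 * tt Λ L i + 2 * R := by linarith [hbc.2]
      exact_mod_cast this
    obtain ⟨b', hb'⟩ := hbe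
    obtain ⟨e', he'⟩ := he2
    refine ⟨(b i - e) / 2 - tt Λ L i, ?_, ?_⟩
    · unfold ei; omega
    · unfold WiT; omega
  choose! u hu1 hu2 using hmain
  refine ⟨u, fun i hi1 hiK => ⟨hu2 i hi1 hiK, fun hmem => ?_⟩, ?_, ?_, ?_⟩
  · refine (hb1 i hi1 hiK).2.2 (mem_image.2 ⟨u i, hmem, (hu1 i hi1 hiK).symm⟩)
  · rw [← hu1 1 le_rfl hK1]; exact hb2
  · intro i hi1 hiK
    rw [← hu1 i hi1 hiK.le, ← hu1 (i + 1) (by omega) (by omega)]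
    exact hb3 i hi1 hiK
  · rw [← hu1 K hK1 le_rfl]; exact hb4

theorem lvR_of (hAP : APProp) (hH : HopAvoid) (hCh : ChoiceT) :
    ∃ K : ℕ, 1 ≤ K ∧ ∃ c₁ c₀ : ℝ, 0 < c₁ ∧ 0 < c₀ ∧ ∀ᶠ n : ℕ in atTop,
      ∃ m p a d e Λ L : ℕ, LvR K c₁ c₀ n m p a d e Λ L := by
  classical
  obtain ⟨K0, hK0⟩ := hH
  obtain ⟨c, hc0, hc4, hch⟩ := hCh
  obtain ⟨K, hK⟩ : ∃ K, K = max K0 1 := ⟨_, rfl⟩
  have hKK0 : K0 ≤ K := by rw [hK]; exact le_max_left _ _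
  have hK1 : 1 ≤ K := by rw [hK]; exact le_max_right _ _
  obtain ⟨M, hM⟩ : ∃ M : ℝ, M = 8 / c + K + 4 := ⟨_, rfl⟩
  have hM0 : 0 < M := by rw [hM]; positivity
  obtain ⟨ε, hε⟩ : ∃ ε : ℝ, ε = min (1 / 10) (3 / (16 * M)) := ⟨_, rfl⟩
  have hε0 : 0 < ε := by rw [hε]; positivity
  have hε10 : ε ≤ 1 / 10 := by rw [hε]; exact min_le_left _ _
  have hεM : ε ≤ 3 / (16 * M) := by rw [hε]; exact min_le_right _ _
  have hεM' : 16 * M * ε ≤ 3 := by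
    rw [le_div_iff₀ (by positivity)] at hεM; linarith
  obtain ⟨c', hc', n0, hn0⟩ := hch ε hε0 hε10
  obtain ⟨ω, hω⟩ : ∃ ω : ℝ, ω = min (1 / 32) (c * ε / 8) := ⟨_, rfl⟩
  have hω0 : 0 < ω := by rw [hω]; positivity
  have hω32 : ω ≤ 1 / 32 := by rw [hω]; exact min_le_left _ _
  have hωc : ω ≤ c * ε / 8 := by rw [hω]; exact min_le_right _ _
  obtain ⟨κ, hκ⟩ : ∃ κ : ℝ, κ = min (1 / 8) (c * ε) := ⟨_, rfl⟩
  have hκ0 : 0 < κ := by rw [hκ]; positivity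
  have hκ8 : κ ≤ 1 / 8 := by rw [hκ]; exact min_le_left _ _
  have hκc : κ ≤ c * ε := by rw [hκ]; exact min_le_right _ _
  have hcε : 0 < c * ε := by positivity
  obtain ⟨c₀, hc₀, hhopE⟩ := hK0 K hKK0 ω hω0 hω32
  refine ⟨K, hK1, c * ε, c₀, hcε, hc₀, ?_⟩
  have t1 : Tendsto (fun n : ℕ => (n : ℝ)) atTop atTop := tendsto_natCast_atTop_atTop
  filter_upwards [hhopE, prime_between hAP hκ0, eventually_ge_atTop n0,
    t1.eventually_ge_atTop (100 / (c * ε)), t1.eventually_ge_atTop 1000] with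
    n hhop hbet hnn0 hnbig hn1000
  obtain ⟨p, a, d, hp, h1, h3, h2, had, hda, hp5, hp3, hdn, han, hG⟩ := hn0 n hnn0
  have hnr0 : (0 : ℝ) < n := by linarith
  have hcn : 100 ≤ c * ε * n := by
    rw [div_le_iff₀ hcε] at hnbig; linarith
  obtain ⟨m, e, Λ, L, h⟩ := lnum (K := K) hc0 hM hε0 hεM' hn1000 hcn hp hda hp5 hp3 hdn han
  have hdar : (d : ℝ) < a := by exact_mod_cast hda
  have hκn' : κ * n ≤ c * ε * n := by gcongr
  have hmn := h.hmn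
  have hm5 := h.hm5
  have hd100 := h.hd100
  exact ⟨m, p, a, d, e, Λ, L, ⟨hp, h1, h2, h3, had, by omega, hda, h.hm, h.hp2, by omega, by omega,
    hm5, h.he, h.he2, h.hΛ, h.hKL, h.hlow, h.hup, hdn,
    lvR_entries h hκ0 hκ8 (by linarith) hn1000 hp5 hp3 hbet,
    lvR_hop h hK1 hωc hn1000 hp5 hp3 hdn hhop⟩⟩

end

end Pool.Agent.Work.MP_713a1e_co
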