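import Mathlib
import Pool.Agent.Work.MP_713a1e_co.T3Hop
import Pool.Agent.Work.MP_713a1e_co.T3LevelEv
import Pool.Agent.Work.MP_713a1e_co.T3LevelAbs

/-! A level whose windows have reservoirs, and its extension of paths. -/

namespace Pool.Agent.Work.MP_713a1e_co

open Finset Filter

noncomputable section

theorem lvR_ev (hAP : APProp) (hSP : SPProp) (hCh : ChoiceT) :
    ∃ K : ℕ, 1 ≤ K ∧ ∃ c₁ c₀ : ℝ, 0 < c₁ ∧ 0 < c₀ ∧ ∀ᶠ n : ℕ in atTop,
      ∃ m p a d e Λ L : ℕ, LvR K c₁ c₀ n m p a d e Λ L :=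
  lvR_of hAP (hop_avoid hAP hSP) hCh

end

end Pool.Agent.Work.MP_713a1e_co
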