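import Mathlib
import Pool.Agent.Work.MP_713a1e_co.Path

/-! Counting rows. -/

namespace Pool.Agent.Work.MP_713a1e_co

open Finset

/-- the lists of the elements of `S` from `a` to `b` with prime adjacent sums -/
def Rows (S : Finset ℕ) (a b : ℕ) : Set (List ℕ) :=
  {l | l.Nodup ∧ (∀ x, x ∈ l ↔ x ∈ S) ∧ l.head? = some a ∧ l.getLast? = some b ∧ l.IsChain Adj}

lemma rows_finite (S : Finset ℕ) (a b : ℕ) : (Rows S a b).Finite := by
  have h : Rows S a b ⊆ (fun l : List ℕ => l) '' {l | l ∈ S.toList.permutations} := by
    intro l hl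
    refine ⟨l, ?_, rfl⟩
    rw [Set.mem_ofPred_eq, List.mem_permutations]
    refine (List.perm_ext_iff_of_nodup hl.1 S.nodup_toList).2 fun x => ?_
    rw [hl.2.1 x, mem_toList]
  refine Set.Finite.subset ?_ h
  exact (List.finite_toSet _).image _

lemma pathOn_iff {S : Finset ℕ} {a b : ℕ} : PathOn S a b ↔ (Rows S a b).Nonempty := Iff.rfl

/-- completing a pfx by the paths of a special window -/
lemma rows_pfx {S T : Finset ℕ} {a b c : ℕ} (hTS : T ⊆ S)
    (h : PathOn (S \ T.erase b) a b) : (Rows T b c).ncard ≤ (Rows S a c).ncard := by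
  obtain ⟨l, h1, h2, h3, h4, h5⟩ := h
  have hl : l ≠ [] := by
    rintro rfl
    simp at h3
  refine Set.ncard_le_ncard_of_injOn (fun l' => l ++ l'.tail) ?_ ?_ (rows_finite S a c)
  · rintro l' ⟨h1', h2', h3', h4', h5'⟩
    obtain ⟨t, rfl⟩ : ∃ t, l' = b :: t := by
      cases l' with
      | nil => simp at h3'
      | cons x t =>
        simp only [List.head?_cons, Option.some.injEq] at h3'
        exact ⟨t, by rw [h3']⟩
    have hbt : b ∉ t := (List.nodup_cons.1 h1').1
    have ht : t.Nodup := (List.nodup_cons.1 h1').2
    have htT : ∀ x, x ∈ t ↔ x ∈ T.erase b := by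
      intro x
      rw [mem_erase, ← h2' x, List.mem_cons]
      constructor
      · intro hx
        exact ⟨fun h => hbt (h ▸ hx), Or.inr hx⟩
      · rintro ⟨h6, h7 | h7⟩
        · exact absurd h7 h6
        · exact h7
    simp only [List.tail_cons]
    refine ⟨?_, ?_, ?_, ?_, ?_⟩
    · rw [List.nodup_append]
      refine ⟨h1, ht, fun x hx y hy hxy => ?_⟩
      subst hxy
      have h6 := (h2 x).1 hx
      rw [mem_sdiff] at h6
      exact h6.2 ((htT x).1 hy)
    · intro x
      rw [List.mem_append, h2, htT, mem_sdiff]
      constructor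
      · rintro (h6 | h6)
        · exact h6.1
        · exact hTS (mem_of_mem_erase h6)
      · intro h6
        by_cases h7 : x ∈ T.erase b
        · exact Or.inr h7
        · exact Or.inl ⟨h6, h7⟩
    · rw [List.head?_append, h3]; rfl
    · cases t with
      | nil =>
        simp only [List.append_nil]
        rw [h4]
        simpa using h4'
      | cons y t' =>
        rw [List.getLast?_cons_cons] at h4'
        rw [List.getLast?_append, h4']
        rfl
    · rw [List.isChain_append]
      refine ⟨h5, ?_, ?_⟩
      · exact (List.isChain_cons.1 h5').2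
      · intro x hx y hy
        rw [h4] at hx
        simp only [Option.mem_def, Option.some.injEq] at hx
        subst hx
        exact (List.isChain_cons.1 h5').1 y hy
  · rintro l1 ⟨-, -, h3', -, -⟩ l2 ⟨-, -, h3'', -, -⟩ h
    simp only [List.append_cancel_left_eq] at h
    cases l1 with
    | nil => simp at h3'
    | cons x t =>
      cases l2 with
      | nil => simp at h3''
      | cons y t' =>
        simp only [List.head?_cons, Option.some.injEq] at h3' h3''
        simp only [List.tail_cons] at h
        rw [h3', h3'', h]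

end Pool.Agent.Work.MP_713a1e_co
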