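import Mathlib
import Pool.Agent.Work.MP_713a1e_co.T3Defs

/-! Numerical facts about the cut-off. -/

namespace Pool.Agent.Work.MP_713a1e_co.T3

open Finset Filter

noncomputable section

lemma mm_even (n : ℕ) : Even (mm n) := ⟨_, by unfold mm; ring⟩

lemma mm_le (n : ℕ) : (mm n : ℝ) ≤ n / (Real.log n) ^ 2 := by
  unfold mm
  push_cast
  have h := Nat.floor_le (a := (n : ℝ) / (2 * (Real.log n) ^ 2)) (by positivity)
  have e : (n : ℝ) / (Real.log n) ^ 2 = 2 * (n / (2 * (Real.log n) ^ 2)) := by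
    rcases eq_or_ne (Real.log n) 0 with h0 | h0
    · simp [h0]
    · field_simp
  rw [e]
  linarith

lemma mm_ge (n : ℕ) : (n : ℝ) / (Real.log n) ^ 2 - 2 ≤ mm n := by
  unfold mm
  push_cast
  have h := Nat.lt_floor_add_one ((n : ℝ) / (2 * (Real.log n) ^ 2))
  have e : (n : ℝ) / (Real.log n) ^ 2 = 2 * (n / (2 * (Real.log n) ^ 2)) := by
    rcases eq_or_ne (Real.log n) 0 with h0 | h0
    · simp [h0]
    · field_simp
  rw [e]
  linarith

lemma TT_le (n : ℕ) : (TT n : ℝ) ≤ n / (Real.log n) ^ 4 := Nat.floor_le (by positivity)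

/-- powers of logarithms are small -/
lemma log_pow_small (k : ℕ) (c : ℝ) (hc : 0 < c) :
    ∀ᶠ n : ℕ in atTop, (Real.log n) ^ k ≤ c * n := by
  have t1 : Tendsto (fun n : ℕ => (n : ℝ)) atTop atTop := tendsto_natCast_atTop_atTop
  have h0 : ∀ᶠ x : ℝ in atTop, ‖Real.log x ^ (k : ℝ)‖ ≤ c * ‖x ^ (1 : ℝ)‖ :=
    (isLittleO_log_rpow_rpow_atTop k one_pos).bound hc
  filter_upwards [t1.eventually_ge_atTop 16, t1.eventually h0] with n hn h
  have hn0 : (0 : ℝ) < n := by linarith
  have hL : 0 < Real.log n := Real.log_pos (by linarith)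
  rw [Real.norm_of_nonneg (by positivity), Real.norm_of_nonneg (by positivity), Real.rpow_one,
    Real.rpow_natCast] at h
  exact h

/-- numerical facts about the cut-off -/
lemma mm_facts (c₁ c₀ : ℝ) (hc₁ : 0 < c₁) (hc₀ : 0 < c₀) : ∀ᶠ n : ℕ in atTop,
    (n : ℝ) / (2 * (Real.log n) ^ 2) ≤ mm n ∧ 4 * mm n ≤ n ∧ 16 ≤ mm n ∧
    (TT n : ℝ) + 3 < (c₁ * n / (4 * (Real.log n) ^ 2)) / (4 * Real.log n) ∧
    (TT n : ℝ) + 3 ≤ c₀ * mm n / Real.log (mm n) := by
  have t1 : Tendsto (fun n : ℕ => (n : ℝ)) atTop atTop := tendsto_natCast_atTop_atTop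
  have t2 : Tendsto (fun n : ℕ => Real.log n) atTop atTop := Real.tendsto_log_atTop.comp t1
  filter_upwards [t1.eventually_ge_atTop 16, t2.eventually_ge_atTop (2 + 64 / c₁ + 4 / c₀),
    log_pow_small 2 (1 / 64) (by norm_num), log_pow_small 4 (1 / 3) (by norm_num)] with
    n hn hL h2 h4
  have hn0 : (0 : ℝ) < n := by linarith
  have hL0 : 0 < Real.log n := by
    have : 0 < 64 / c₁ := by positivity
    have : 0 < 4 / c₀ := by positivity
    linarith
  have hL2 : 2 ≤ Real.log n := by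
    have : 0 < 64 / c₁ := by positivity
    have : 0 < 4 / c₀ := by positivity
    linarith
  have hLc₁ : 64 < c₁ * Real.log n := by
    have h5 : 64 / c₁ < Real.log n := by
      have : 0 < 4 / c₀ := by positivity
      linarith
    rw [div_lt_iff₀ hc₁] at h5
    linarith
  have hLc₀ : 4 ≤ c₀ * Real.log n := by
    have h5 : 4 / c₀ ≤ Real.log n := by
      have : 0 < 64 / c₁ := by positivity
      linarith
    rw [div_le_iff₀ hc₀] at h5
    linarith
  have hLL : (4 : ℝ) ≤ (Real.log n) ^ 2 := by nlinarith only [hL2]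
  have hm1 := mm_ge n
  have hm2 := mm_le n
  -- n / L^2 ≥ 64
  have h64 : (64 : ℝ) ≤ n / (Real.log n) ^ 2 := by
    rw [le_div_iff₀ (by positivity)]; linarith
  have hhalf : (n : ℝ) / (2 * (Real.log n) ^ 2) = (n / (Real.log n) ^ 2) / 2 := by
    field_simp
  have hA : (n : ℝ) / (2 * (Real.log n) ^ 2) ≤ mm n := by rw [hhalf]; linarith
  have hT : (TT n : ℝ) + 3 ≤ 2 * (n / (Real.log n) ^ 4) := by
    have h5 := TT_le n
    have h6 : (3 : ℝ) ≤ n / (Real.log n) ^ 4 := by
      rw [le_div_iff₀ (by positivity)]; linarith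
    linarith
  have h16 : (16 : ℝ) ≤ mm n := by linarith
  have h16' : 16 ≤ mm n := by exact_mod_cast h16
  refine ⟨hA, ?_, h16', ?_, ?_⟩
  · have h5 : (n : ℝ) / (Real.log n) ^ 2 ≤ n / 4 := by gcongr
    have : (4 : ℝ) * mm n ≤ n := by linarith
    exact_mod_cast this
  · refine lt_of_le_of_lt hT ?_
    have e1 : 2 * ((n : ℝ) / (Real.log n) ^ 4) = 32 * (n / (16 * (Real.log n) ^ 4)) := by
      field_simp; ring
    have e2 : (c₁ * n / (4 * (Real.log n) ^ 2)) / (4 * Real.log n) =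
        (c₁ * Real.log n) * (n / (16 * (Real.log n) ^ 4)) := by field_simp; norm_num
    rw [e1, e2]
    have : 0 < (n : ℝ) / (16 * (Real.log n) ^ 4) := by positivity
    exact mul_lt_mul_of_pos_right (by linarith) this
  · refine hT.trans ?_
    have hmm0 : (0 : ℝ) < mm n := by linarith
    have hlogm : 0 < Real.log (mm n) := Real.log_pos (by linarith)
    have hmn : (mm n : ℝ) ≤ n := by
      have : (n : ℝ) / (Real.log n) ^ 2 ≤ n := div_le_self hn0.le (by linarith)
      linarith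
    have hlogle : Real.log (mm n) ≤ Real.log n := Real.log_le_log hmm0 hmn
    calc 2 * ((n : ℝ) / (Real.log n) ^ 4) = 4 * (n / (2 * (Real.log n) ^ 4)) := by
          field_simp; ring
      _ ≤ (c₀ * Real.log n) * (n / (2 * (Real.log n) ^ 4)) := by gcongr
      _ = c₀ * (n / (2 * (Real.log n) ^ 2)) / Real.log n := by field_simp
      _ ≤ c₀ * mm n / Real.log n := by gcongr
      _ ≤ c₀ * mm n / Real.log (mm n) := by gcongr

end

end Pool.Agent.Work.MP_713a1e_co.T3
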