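import Mathlib
import Pool.Agent.Work.Shared.PNT.Tauber

/-! Primes in intervals of length `n / (log n) ^ 2`. -/

namespace Pool.Agent.Work.MP_713a1e_co

open Finset Filter

noncomputable section

lemma theta_diff (x y : ℕ) (hxy : x ≤ y) : Chebyshev.theta (y : ℝ) - Chebyshev.theta (x : ℝ) =
    ∑ p ∈ (Ioc x y).filter Nat.Prime, Real.log p := by
  unfold Chebyshev.theta
  rw [Nat.floor_natCast, Nat.floor_natCast]
  have h1 : (Ioc 0 y).filter Nat.Prime =
      (Ioc 0 x).filter Nat.Prime ∪ (Ioc x y).filter Nat.Prime := by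
    rw [← filter_union, Ioc_union_Ioc_eq_Ioc (by omega) hxy]
  rw [h1, sum_union]
  · ring
  · rw [disjoint_left]
    intro p hp hp'
    rw [mem_filter, mem_Ioc] at hp hp'
    omega

/-- uniform error in the prime number theorem on `[0, 4 n]` -/
lemma theta_unif : ∃ C : ℝ, 0 < C ∧ ∀ᶠ n : ℕ in atTop, ∀ t : ℝ, 0 ≤ t → t ≤ 4 * n →
    |Chebyshev.theta t - t| ≤ C * n / (Real.log n) ^ 3 := by
  obtain ⟨C, hC, hθ⟩ := Pool.Agent.Work.Shared.PNT.theta_sub_self_le 3
  have t1 : Tendsto (fun n : ℕ => (n : ℝ)) atTop atTop := tendsto_natCast_atTop_atTop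
  have h0 : ∀ᶠ x : ℝ in atTop, ‖Real.log x ^ (3 : ℝ)‖ ≤ 1 * ‖x ^ (1 / 2 : ℝ)‖ :=
    (isLittleO_log_rpow_rpow_atTop 3 (by norm_num : (0 : ℝ) < 1 / 2)).bound one_pos
  refine ⟨32 * C + 2, by positivity, ?_⟩
  filter_upwards [t1.eventually_ge_atTop 16, t1.eventually h0] with n hn hlog t ht0 ht4
  have hn0 : (0 : ℝ) < n := by linarith
  have hL : 0 < Real.log n := Real.log_pos (by linarith)
  have hlog' : Real.log n ^ 3 ≤ Real.sqrt n := by
    rw [Real.norm_of_nonneg (by positivity), Real.norm_of_nonneg (by positivity), one_mul,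
      ← Real.sqrt_eq_rpow] at hlog
    have : Real.log n ^ (3 : ℝ) = Real.log n ^ 3 := by
      exact_mod_cast Real.rpow_natCast (Real.log n) 3
    rwa [this] at hlog
  have hs0 : 0 < Real.sqrt n := Real.sqrt_pos.2 hn0
  have hss : Real.sqrt n * Real.sqrt n = n := Real.mul_self_sqrt hn0.le
  rcases le_or_gt (Real.sqrt n) t with h | h
  · have hs4 : (4 : ℝ) ≤ Real.sqrt n := by
      rw [show (4 : ℝ) = Real.sqrt 16 by
        rw [show (16 : ℝ) = 4 ^ 2 by norm_num, Real.sqrt_sq (by norm_num)]]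
      exact Real.sqrt_le_sqrt hn
    have h2 : (2 : ℝ) ≤ t := by linarith
    have h3 := hθ t h2
    have h4 : Real.log n / 2 ≤ Real.log t := by
      rw [← Real.log_sqrt hn0.le]
      exact Real.log_le_log hs0 h
    have h5 : (Real.log n / 2) ^ 3 ≤ Real.log t ^ (3 : ℝ) := by
      have : Real.log t ^ (3 : ℝ) = Real.log t ^ 3 := by
        exact_mod_cast Real.rpow_natCast (Real.log t) 3
      rw [this]
      exact pow_le_pow_left₀ (by positivity) h4 3
    calc |Chebyshev.theta t - t| ≤ C * t / Real.log t ^ (3 : ℝ) := h3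
      _ ≤ C * (4 * n) / (Real.log n / 2) ^ 3 := by gcongr
      _ = 32 * C * n / (Real.log n) ^ 3 := by field_simp; ring
      _ ≤ (32 * C + 2) * n / (Real.log n) ^ 3 := by gcongr; linarith
  · have h1 := Chebyshev.theta_le_log4_mul_x ht0
    have h2 := Chebyshev.theta_nonneg t
    have h4 : Real.log 4 ≤ 2 := by
      have : Real.log 4 = 2 * Real.log 2 := by
        rw [show (4 : ℝ) = 2 ^ 2 by norm_num, Real.log_pow]; norm_num
      rw [this]
      have := Real.log_two_lt_d9
      linarith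
    have h5 : |Chebyshev.theta t - t| ≤ 2 * t := by
      rw [abs_le]
      constructor
      · linarith
      · have : Real.log 4 * t ≤ 2 * t := by gcongr
        linarith
    calc |Chebyshev.theta t - t| ≤ 2 * t := h5
      _ ≤ 2 * Real.sqrt n := by linarith
      _ ≤ 2 * n / (Real.log n) ^ 3 := by
          rw [le_div_iff₀ (by positivity)]
          nlinarith
      _ ≤ (32 * C + 2) * n / (Real.log n) ^ 3 := by
          gcongr
          linarith

/-- **Primes in short intervals.** -/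
theorem primes_short {κ : ℝ} (hκ : 0 < κ) : ∀ᶠ n : ℕ in atTop, ∀ x y : ℕ, x ≤ 3 * n →
    κ * n / (Real.log n) ^ 2 ≤ y → y ≤ n →
    (y : ℝ) / (4 * Real.log n) ≤ (((Ioc x (x + y)).filter Nat.Prime).card : ℝ) := by
  obtain ⟨C, hC, hev⟩ := theta_unif
  have t1 : Tendsto (fun n : ℕ => (n : ℝ)) atTop atTop := tendsto_natCast_atTop_atTop
  have t2 : Tendsto (fun n : ℕ => Real.log n) atTop atTop := Real.tendsto_log_atTop.comp t1
  filter_upwards [hev, t1.eventually_ge_atTop 4, t2.eventually_ge_atTop (4 * C / κ)] with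
    n hn hn4 hL x y hx hy hyn
  have hn0 : (0 : ℝ) < n := by linarith
  have hL0 : 0 < Real.log n := Real.log_pos (by linarith)
  have hxr : (x : ℝ) ≤ 3 * n := by exact_mod_cast hx
  have hyr : (y : ℝ) ≤ n := by exact_mod_cast hyn
  have h1 := hn x (Nat.cast_nonneg _) (by linarith)
  have h2 := hn ((x + y : ℕ) : ℝ) (Nat.cast_nonneg _) (by push_cast; linarith)
  have h3 := theta_diff x (x + y) (by omega)
  have h4 : ∑ p ∈ (Ioc x (x + y)).filter Nat.Prime, Real.log p ≤
      (((Ioc x (x + y)).filter Nat.Prime).card : ℝ) * (2 * Real.log n) := by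
    rw [← nsmul_eq_mul]
    refine sum_le_card_nsmul _ _ _ fun p hp => ?_
    rw [mem_filter, mem_Ioc] at hp
    have h5 : (p : ℝ) ≤ n * n := by
      have : (p : ℝ) ≤ x + y := by exact_mod_cast hp.1.2
      nlinarith
    have h6 : (0 : ℝ) < p := by exact_mod_cast hp.2.pos
    calc Real.log p ≤ Real.log (n * n) := Real.log_le_log h6 h5
      _ = 2 * Real.log n := by rw [Real.log_mul hn0.ne' hn0.ne']; ring
  have h5 : 2 * (C * n / (Real.log n) ^ 3) ≤ (y : ℝ) / 2 := by
    rw [div_le_iff₀ hκ] at hL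
    have : 2 * (C * n / (Real.log n) ^ 3) ≤ (κ * n / (Real.log n) ^ 2) / 2 := by
      have e1 : 2 * (C * n / (Real.log n) ^ 3) = (4 * C) * (n / (2 * (Real.log n) ^ 3)) := by
        field_simp; ring
      have e2 : (κ * n / (Real.log n) ^ 2) / 2 = (Real.log n * κ) * (n / (2 * (Real.log n) ^ 3)) := by
        field_simp
      rw [e1, e2]
      gcongr
    linarith
  rw [abs_le] at h1 h2
  push_cast at h2 h3
  have h6 : (y : ℝ) / 2 ≤ (((Ioc x (x + y)).filter Nat.Prime).card : ℝ) * (2 * Real.log n) := by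
    linarith [h1.1, h1.2, h2.1, h2.2]
  rw [div_le_iff₀ (by positivity)]
  linarith

end

end Pool.Agent.Work.MP_713a1e_co
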