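import Mathlib
import Pool.Agent.Work.MP_713a1e_co.T3LevelDefs
import Pool.Agent.Work.MP_713a1e_co.T3Short
import Pool.Agent.Work.MP_713a1e_co.T3Num

/-! Hops between arbitrary vertices through the reservoirs of a small level. -/

namespace Pool.Agent.Work.MP_713a1e_co.T3

open Finset Filter

noncomputable section

lemma LvR.gap {K : ℕ} {c₁ c₀ : ℝ} {n m p a d e Λ L : ℕ}
    (h : LvR K c₁ c₀ n m p a d e Λ L) (i : ℕ) (hi : i < L) :
    a + d / 4 ≤ WiT Λ L i ∧ d ≤ 4 * (WiT Λ L i - a) ∧ m + 1 ≤ ei e Λ L i ∧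
      ei e Λ L i + 2 * WiT Λ L i ≤ n + 2 ∧ Even (ei e Λ L i) ∧ ei e Λ L i + 2 * WiT Λ L i ≤ p := by
  have hL : 1 ≤ L := by have := h.hKL; omega
  have hlow := h.hlow
  have hd := h.hd
  have hda := h.hda
  have hpn := h.hpn
  have hΛ := h.hΛ
  have hm1 := h.hm1
  have hmn := h.hmn
  have h4 := tt_succ_ge (Λ := Λ) hL i
  have h6 : tt Λ L (i + 1) ≤ Λ := by
    have := tt_mono (Λ := Λ) hL (show i + 1 ≤ L by omega)
    rwa [tt_last hL] at this
  have hWl : WiT Λ L i = tt Λ L (i + 1) - tt Λ L i := rfl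
  have hel : ei e Λ L i = e + 2 * tt Λ L i := rfl
  refine ⟨by omega, by omega, ?_, ?_, ?_, ?_⟩
  · rcases h.he with he | he <;> omega
  · rcases h.he with he | he <;> omega
  · rw [hel]; exact h.he2.add (even_two_mul _)
  · rcases h.he with he | he <;> omega

/-- **Hops** between arbitrary vertices of opposite parity. -/
theorem bigHop (K : ℕ) (hK : 1 ≤ K) (c₁ c₀ : ℝ) (hc₁ : 0 < c₁) (hc₀ : 0 < c₀) :
    ∀ᶠ n : ℕ in atTop,
    ∀ m p a d e Λ L : ℕ, LvR K c₁ c₀ (mm n) m p a d e Λ L →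
    ∀ U : ℕ → Finset ℕ, (∀ i, (U i).card ≤ TT n + 3) →
    ∀ v w, 1 ≤ v → v ≤ n → 1 ≤ w → w ≤ n → Odd v → Even w → ∃ u : ℕ → ℕ,
      (∀ i, i ≤ K + 1 → u i < WiT Λ L i - a ∧ u i ∉ U i) ∧
      Adj v (ei e Λ L 0 + 2 * u 0) ∧
      (∀ i, i ≤ K →
        Adj (p - (ei e Λ L i + 2 * u i)) (ei e Λ L (i + 1) + 2 * u (i + 1))) ∧
      Adj (p - (ei e Λ L (K + 1) + 2 * u (K + 1))) w := by
  classical
  filter_upwards [mm_facts c₁ c₀ hc₁ hc₀, primes_short (κ := c₁ / 4) (by positivity),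
    eventually_ge_atTop 3] with n hmf hsh hn3 m p a d e Λ L h U hU v w hv1 hvn hw1 hwn hv hw
  obtain ⟨hA, h4m, h16, hT1, hT2⟩ := hmf
  have hn0 : (0 : ℝ) < n := by
    have : 0 < n := by omega
    exact_mod_cast this
  have hL0 : 0 < Real.log n := Real.log_pos (by
    have : (3 : ℝ) ≤ n := by exact_mod_cast hn3
    linarith)
  have hKL := h.hKL
  have hpn := h.hpn
  have hmn := h.hmn
  have hm1 := h.hm1
  have hd1 := h.hd
  have hda := h.hda
  have hdr : c₁ * n / (2 * (Real.log n) ^ 2) ≤ d := by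
    refine le_trans ?_ h.hdn
    have : c₁ * n / (2 * (Real.log n) ^ 2) = c₁ * (n / (2 * (Real.log n) ^ 2)) := by ring
    rw [this]
    gcongr
  -- the general choice
  have choose : ∀ i < L, ∀ x : ℕ, x ≤ 3 * n → ∀ g : ℕ → ℕ, ∃ q, x < q ∧
      q ≤ x + 2 * (WiT Λ L i - a) ∧ q.Prime ∧ ∀ u ∈ U i, q ≠ g u := by
    intro i hi x hx g
    obtain ⟨g1, g2, g3, g4, g5, g6⟩ := LvR.gap h i hi
    obtain ⟨R, hR⟩ : ∃ R, R = WiT Λ L i - a := ⟨_, rfl⟩
    rw [← hR] at g2 ⊢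
    have hRr : (d : ℝ) ≤ 4 * R := by exact_mod_cast g2
    have hy1 : c₁ / 4 * n / (Real.log n) ^ 2 ≤ ((2 * R : ℕ) : ℝ) := by
      push_cast
      have : c₁ / 4 * n / (Real.log n) ^ 2 = (c₁ * n / (2 * (Real.log n) ^ 2)) / 2 := by
        field_simp; ring
      rw [this]
      linarith
    have hy2 : 2 * R ≤ n := by omega
    have h1 := hsh x (2 * R) hx hy1 hy2
    have h2 : ((U i).card : ℝ) < (((Ioc x (x + 2 * R)).filter Nat.Prime).card : ℝ) := by
      have h3 : ((U i).card : ℝ) ≤ TT n + 3 := by exact_mod_cast hU i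
      have h5 : (c₁ * n / (4 * (Real.log n) ^ 2)) / (4 * Real.log n) ≤
          ((2 * R : ℕ) : ℝ) / (4 * Real.log n) := by
        have : c₁ * n / (4 * (Real.log n) ^ 2) = c₁ / 4 * n / (Real.log n) ^ 2 := by
          field_simp
        rw [this]
        gcongr
      linarith
    have h3 : (U i).card < ((Ioc x (x + 2 * R)).filter Nat.Prime).card := by exact_mod_cast h2
    have h4 : ((U i).image g).card < ((Ioc x (x + 2 * R)).filter Nat.Prime).card :=
      lt_of_le_of_lt card_image_le h3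
    obtain ⟨q, hq, hq'⟩ := exists_mem_notMem_of_card_lt_card h4
    rw [mem_filter, mem_Ioc] at hq
    exact ⟨q, hq.1.1, hq.1.2, hq.2, fun u hu hqu => hq' (mem_image.2 ⟨u, hu, hqu.symm⟩)⟩
  -- first element
  obtain ⟨g1, g2, g3, g4, g5, g6⟩ := LvR.gap h 0 (by omega)
  obtain ⟨q, hq1, hq2, hqp, hqU⟩ := choose 0 (by omega) (v + ei e Λ L 0 - 1) (by omega)
    (fun u => v + (ei e Λ L 0 + 2 * u))
  have hqo : Odd q := hqp.odd_of_ne_two (by omega)
  obtain ⟨u₀, hu₀⟩ : ∃ u₀, q = v + (ei e Λ L 0 + 2 * u₀) := by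
    obtain ⟨q', hq'⟩ := hqo
    obtain ⟨v', hv'⟩ := hv
    obtain ⟨e', he'⟩ := g5
    exact ⟨(q - v - ei e Λ L 0) / 2, by omega⟩
  have hu₀R : u₀ < WiT Λ L 0 - a := by omega
  have hu₀U : u₀ ∉ U 0 := fun hmem => hqU u₀ hmem hu₀
  -- last element
  obtain ⟨k1, k2, k3, k4, k5, k6⟩ := LvR.gap h (K + 1) (by omega)
  obtain ⟨r, hr1, hr2, hrp, hrU⟩ := choose (K + 1) (by omega)
    (p + w - ei e Λ L (K + 1) - 2 * (WiT Λ L (K + 1) - a)) (by omega)
    (fun u => p - (ei e Λ L (K + 1) + 2 * u) + w)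
  have hro : Odd r := hrp.odd_of_ne_two (by omega)
  obtain ⟨u₁, hu₁⟩ : ∃ u₁, r + 2 * u₁ = p + w - ei e Λ L (K + 1) := by
    obtain ⟨r', hr'⟩ := hro
    obtain ⟨w', hw'⟩ := hw
    obtain ⟨p', hp'⟩ := h.hp2
    obtain ⟨e', he'⟩ := k5
    exact ⟨(p + w - ei e Λ L (K + 1) - r) / 2, by omega⟩
  have hu₁R : u₁ < WiT Λ L (K + 1) - a := by omega
  have hr' : r = p - (ei e Λ L (K + 1) + 2 * u₁) + w := by omega
  have hu₁U : u₁ ∉ U (K + 1) := fun hmem => hrU u₁ hmem hr'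
  -- the middle
  obtain ⟨p', hp'⟩ := h.hp2
  obtain ⟨e', he'⟩ := g5
  obtain ⟨u, hu1, hu2, hu3, hu4⟩ := h.hop U (fun i => by
      refine le_trans ?_ hT2
      exact_mod_cast hU i) (p - (ei e Λ L 0 + 2 * u₀)) (ei e Λ L (K + 1) + 2 * u₁)
    (by omega) (by omega) (by omega) (by omega) ⟨p' - e' - u₀, by omega⟩
    (k5.add (even_two_mul _))
  refine ⟨fun i => if i = 0 then u₀ else if i = K + 1 then u₁ else u i, ?_, ?_, ?_, ?_⟩
  · intro i hi
    dsimp only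
    by_cases h0 : i = 0
    · subst h0
      rw [if_pos rfl]; exact ⟨hu₀R, hu₀U⟩
    · rw [if_neg h0]
      by_cases h1 : i = K + 1
      · subst h1
        rw [if_pos rfl]; exact ⟨hu₁R, hu₁U⟩
      · rw [if_neg h1]
        exact hu1 i (by omega) (by omega)
  · simp only [if_true]
    unfold Adj
    rw [← hu₀]; exact hqp
  · intro i hi
    dsimp only
    by_cases h0 : i = 0
    · subst h0
      rw [if_pos rfl, if_neg (by omega), if_neg (by omega)]
      exact hu2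
    · rw [if_neg h0, if_neg (by omega : ¬ i = K + 1), if_neg (by omega : ¬ i + 1 = 0)]
      by_cases h1 : i = K
      · subst h1
        rw [if_pos rfl]; exact hu4
      · rw [if_neg (by omega)]
        exact hu3 i (by omega) (by omega)
  · dsimp only
    rw [if_neg (by omega), if_pos rfl]
    unfold Adj
    rw [← hr']; exact hrp

end

end Pool.Agent.Work.MP_713a1e_co.T3
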