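import Mathlib
import Pool.Agent.Work.MP_713a1e_co.T3BigHop
import Pool.Agent.Work.MP_713a1e_co.Count

/-! Lists: consecutive elements, hop lists. -/

namespace Pool.Agent.Work.MP_713a1e_co.T3

open Finset Filter

noncomputable section

/-- `x, y` are consecutive elements -/
def Cons2 (x y : ℕ) (l : List ℕ) : Prop := [x, y] <:+: l

lemma cons2_nil {x y : ℕ} : ¬ Cons2 x y [] := by
  unfold Cons2
  simp

lemma cons2_single {x y a : ℕ} : ¬ Cons2 x y [a] := by
  unfold Cons2
  intro h
  have := h.length_le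
  simp at this

lemma cons2_cons_cons {x y a b : ℕ} {l : List ℕ} :
    Cons2 x y (a :: b :: l) ↔ (x = a ∧ y = b) ∨ Cons2 x y (b :: l) := by
  unfold Cons2
  rw [List.infix_cons_iff, List.cons_prefix_cons, List.cons_prefix_cons]
  simp

lemma cons2_append {x y : ℕ} (A B : List ℕ) :
    Cons2 x y (A ++ B) ↔ Cons2 x y A ∨ Cons2 x y B ∨ (A.getLast? = some x ∧ B.head? = some y) := by
  induction A with
  | nil => simp [cons2_nil]
  | cons a A ih =>
    cases A with
    | nil =>
      cases B with
      | nil => simp [cons2_nil, cons2_single]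
      | cons b B =>
        have h : [a] ++ b :: B = a :: b :: B := rfl
        rw [h, cons2_cons_cons]
        simp only [cons2_single, List.getLast?_singleton, List.head?_cons, Option.some.injEq,
          false_or]
        constructor
        · rintro (⟨h1, h2⟩ | h1)
          · exact Or.inr ⟨h1.symm, h2.symm⟩
          · exact Or.inl h1
        · rintro (h1 | ⟨h1, h2⟩)
          · exact Or.inr h1
          · exact Or.inl ⟨h1.symm, h2.symm⟩
    | cons a' A =>
      have h : a :: a' :: A ++ B = a :: a' :: (A ++ B) := rfl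
      have h' : a' :: A ++ B = a' :: (A ++ B) := rfl
      rw [h, cons2_cons_cons, cons2_cons_cons, ← h', ih, List.getLast?_cons_cons]
      tauto

lemma Cons2.mem_left {x y : ℕ} {l : List ℕ} (h : Cons2 x y l) : x ∈ l :=
  h.subset (by simp)

lemma Cons2.mem_right {x y : ℕ} {l : List ℕ} (h : Cons2 x y l) : y ∈ l :=
  h.subset (by simp)

lemma Cons2.mem_tail {x y a : ℕ} {l : List ℕ} (h : Cons2 x y (a :: l)) : y ∈ l := by
  unfold Cons2 at h
  rw [List.infix_cons_iff, List.cons_prefix_cons] at h
  rcases h with ⟨-, h⟩ | h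
  · exact h.subset (by simp)
  · exact h.subset (by simp)

lemma getLast?_append_of {s : List ℕ} {v : ℕ} (hs : s.getLast? = some v) (t : List ℕ) :
    (s ++ t).getLast? = (v :: t).getLast? := by
  rw [List.getLast?_append, hs]
  cases t with
  | nil => rfl
  | cons a t =>
    rw [List.getLast?_cons_cons, List.getLast?_cons]
    rfl

/-- list of a hop -/
def hopL (p : ℕ) (b : ℕ → ℕ) (k : ℕ) : List ℕ := (List.range k).flatMap (fun i => [b i, p - b i])

lemma hopL_succ (p : ℕ) (b : ℕ → ℕ) (k : ℕ) : hopL p b (k + 1) = hopL p b k ++ [b k, p - b k] := by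
  unfold hopL
  rw [List.range_succ, List.flatMap_append]
  rfl

lemma mem_hopL {p : ℕ} {b : ℕ → ℕ} {k x : ℕ} :
    x ∈ hopL p b k ↔ ∃ i < k, x = b i ∨ x = p - b i := by
  unfold hopL
  simp only [List.mem_flatMap, List.mem_range, List.mem_cons, List.not_mem_nil, or_false]

/-- element before position `k` -/
def prv (p v : ℕ) (b : ℕ → ℕ) (k : ℕ) : ℕ := if k = 0 then v else p - b (k - 1)

lemma hopL_last (p v : ℕ) (b : ℕ → ℕ) (k : ℕ) : (v :: hopL p b k).getLast? = some (prv p v b k) := by
  cases k with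
  | zero => rfl
  | succ k =>
    rw [hopL_succ, ← List.cons_append, List.getLast?_append]
    rfl

lemma hopL_chain (p v : ℕ) (b : ℕ → ℕ) (k : ℕ)
    (h : ∀ i < k, Adj (prv p v b i) (b i) ∧ Adj (b i) (p - b i)) :
    (v :: hopL p b k).IsChain Adj := by
  induction k with
  | zero => simp [hopL]
  | succ k ih =>
    rw [hopL_succ, ← List.cons_append, List.isChain_append]
    refine ⟨ih fun i hi => h i (by omega), ?_, ?_⟩
    · rw [List.isChain_cons_cons]
      exact ⟨(h k (by omega)).2, by simp⟩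
    · intro x hx y hy
      rw [hopL_last] at hx
      simp only [Option.mem_def, Option.some.injEq, List.head?_cons] at hx hy
      subst hx; subst hy
      exact (h k (by omega)).1

section hop
variable {K : ℕ} {c₁ c₀ : ℝ} {n m p a d e Λ L : ℕ}

/-- different pairs of the reservoirs are disjoint -/
lemma pair_inj (h : LvR K c₁ c₀ n m p a d e Λ L) {i i' u u' x : ℕ} (hi : i < L) (hi' : i' < L)
    (hu : u < WiT Λ L i) (hu' : u' < WiT Λ L i')
    (hx : x = ei e Λ L i + 2 * u ∨ x = p - (ei e Λ L i + 2 * u))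
    (hx' : x = ei e Λ L i' + 2 * u' ∨ x = p - (ei e Λ L i' + 2 * u')) : i = i' ∧ u = u' := by
  have hL : 1 ≤ L := by have := h.hKL; omega
  have hpn := h.hpn
  have hΛ := h.hΛ
  have hm1 := h.hm1
  have hmn := h.hmn
  have hep : e + 2 * Λ ≤ p := by rcases h.he with he | he <;> omega
  have hii : i = i' := by
    by_contra hne
    have h1 := OmT_dis hL h.hp2 h.he2 hep i hi i' hi' hne
    have h2 : x ∈ OmT p e Λ L i := by
      unfold OmT
      rw [mem_Om]
      rcases hx with hx | hx
      · exact Or.inl ⟨u, hu, hx⟩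
      · exact Or.inr ⟨u, hu, hx⟩
    have h3 : x ∈ OmT p e Λ L i' := by
      unfold OmT
      rw [mem_Om]
      rcases hx' with hx' | hx'
      · exact Or.inl ⟨u', hu', hx'⟩
      · exact Or.inr ⟨u', hu', hx'⟩
    exact disjoint_left.1 h1 h2 h3
  subst hii
  refine ⟨rfl, ?_⟩
  obtain ⟨g1, g2, g3, g4, ⟨r, hr⟩, g6⟩ := LvR.gap h i hi
  obtain ⟨q, hq⟩ := h.hp2
  rcases hx with hx | hx <;> rcases hx' with hx' | hx' <;> omega

/-- statement of `bigHop` for a fixed level -/
def BH (K n p a e Λ L : ℕ) : Prop :=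
  ∀ U : ℕ → Finset ℕ, (∀ i, (U i).card ≤ TT n + 3) →
    ∀ v w, 1 ≤ v → v ≤ n → 1 ≤ w → w ≤ n → Odd v → Even w → ∃ u : ℕ → ℕ,
      (∀ i, i ≤ K + 1 → u i < WiT Λ L i - a ∧ u i ∉ U i) ∧
      Adj v (ei e Λ L 0 + 2 * u 0) ∧
      (∀ i, i ≤ K →
        Adj (p - (ei e Λ L i + 2 * u i)) (ei e Λ L (i + 1) + 2 * u (i + 1))) ∧
      Adj (p - (ei e Λ L (K + 1) + 2 * u (K + 1))) w

lemma hopLemma {M : ℕ} (h : LvR K c₁ c₀ M m p a d e Λ L) (hBH : BH K n p a e Λ L)
    (U : ℕ → Finset ℕ) (hU : ∀ i, (U i).card ≤ TT n + 3)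
    (v w : ℕ) (hv1 : 1 ≤ v) (hvn : v ≤ n) (hw1 : 1 ≤ w) (hwn : w ≤ n) (hvw : Odd (v + w)) :
    ∃ (u : ℕ → ℕ) (H : List ℕ), (∀ i, i ≤ K + 1 → u i < WiT Λ L i - a ∧ u i ∉ U i) ∧ H.Nodup ∧
      (∀ x, x ∈ H ↔ ∃ i ≤ K + 1, x = ei e Λ L i + 2 * u i ∨ x = p - (ei e Λ L i + 2 * u i)) ∧
      H ≠ [] ∧ (v :: (H ++ [w])).IsChain Adj := by
  have main : ∀ v w : ℕ, 1 ≤ v → v ≤ n → 1 ≤ w → w ≤ n → Odd v → Even w →
      ∃ (u : ℕ → ℕ) (H : List ℕ), (∀ i, i ≤ K + 1 → u i < WiT Λ L i - a ∧ u i ∉ U i) ∧ H.Nodup ∧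
      (∀ x, x ∈ H ↔ ∃ i ≤ K + 1, x = ei e Λ L i + 2 * u i ∨ x = p - (ei e Λ L i + 2 * u i)) ∧
      H ≠ [] ∧ (v :: (H ++ [w])).IsChain Adj := by
    intro v w hv1 hvn hw1 hwn hv hw
    obtain ⟨u, hu1, hu2, hu3, hu4⟩ := hBH U hU v w hv1 hvn hw1 hwn hv hw
    obtain ⟨b, hb⟩ : ∃ b : ℕ → ℕ, b = fun i => ei e Λ L i + 2 * u i := ⟨_, rfl⟩
    have hbi : ∀ i, b i = ei e Λ L i + 2 * u i := fun i => by rw [hb]
    have hKL := h.hKL
    have hmem : ∀ x, x ∈ hopL p b (K + 2) ↔
        ∃ i ≤ K + 1, x = ei e Λ L i + 2 * u i ∨ x = p - (ei e Λ L i + 2 * u i) := by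
      intro x
      rw [mem_hopL]
      constructor
      · rintro ⟨i, hi, hx⟩
        exact ⟨i, by omega, by rwa [hbi] at hx⟩
      · rintro ⟨i, hi, hx⟩
        exact ⟨i, by omega, by rwa [hbi]⟩
    refine ⟨u, hopL p b (K + 2), hu1, ?_, hmem, ?_, ?_⟩
    · unfold hopL
      rw [List.nodup_flatMap]
      constructor
      · intro i hi
        rw [List.mem_range] at hi
        have h1 := hu1 i (by omega)
        obtain ⟨g1, g2, g3, g4, ⟨r, hr⟩, g6⟩ := LvR.gap h i (by omega)
        obtain ⟨q, hq⟩ := h.hp2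
        have := hbi i
        simp only [List.nodup_cons, List.mem_singleton, List.not_mem_nil, not_false_eq_true,
          List.nodup_nil, and_self, and_true]
        omega
      · refine List.Pairwise.imp_of_mem ?_ List.nodup_range
        intro i j hi hj hij
        rw [List.mem_range] at hi hj
        rw [Function.onFun, List.disjoint_left]
        intro x hx hx'
        simp only [List.mem_cons, List.not_mem_nil, or_false] at hx hx'
        rw [hbi] at hx hx'
        have h1 := hu1 i (by omega)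
        have h2 := hu1 j (by omega)
        exact hij (pair_inj h (by omega) (by omega) (by omega) (by omega) hx hx').1
    · rw [hopL_succ]
      simp
    · rw [← List.cons_append, List.isChain_append]
      refine ⟨hopL_chain p v b (K + 2) ?_, by simp, ?_⟩
      · intro i hi
        constructor
        · unfold prv
          by_cases h0 : i = 0
          · subst h0
            rw [if_pos rfl, hbi]; exact hu2
          · rw [if_neg h0, hbi, hbi]
            have h3 := hu3 (i - 1) (by omega)
            rw [show i - 1 + 1 = i by omega] at h3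
            exact h3
        · unfold Adj
          have h1 := hu1 i (by omega)
          obtain ⟨g1, g2, g3, g4, -, g6⟩ := LvR.gap h i (by omega)
          have := hbi i
          rw [show b i + (p - b i) = p by omega]
          exact h.hp
      · intro x hx y hy
        rw [hopL_last] at hx
        simp only [Option.mem_def, Option.some.injEq, List.head?_cons] at hx hy
        subst hx; subst hy
        unfold prv
        rw [if_neg (by omega), show K + 2 - 1 = K + 1 by omega, hbi]
        exact hu4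
  rcases Nat.even_or_odd v with hv | hv
  · have hw : Odd w := by
      rcases Nat.even_or_odd w with hw | hw
      · exact absurd (hv.add hw) (by simpa using hvw)
      · exact hw
    obtain ⟨u, H, h1, h2, h3, h4, h5⟩ := main w v hw1 hwn hv1 hvn hw hv
    refine ⟨u, H.reverse, h1, List.nodup_reverse.2 h2, fun x => by rw [List.mem_reverse, h3],
      by simpa using h4, ?_⟩
    have h6 : (w :: (H ++ [v])).reverse.IsChain Adj := by
      rw [List.isChain_reverse]
      exact h5.imp fun x y h => h.symm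
    simpa using h6
  · have hw : Even w := by
      rcases Nat.even_or_odd w with hw | hw
      · exact hw
      · have h1 : ¬ Even (v + w) := by simpa using hvw
        exact absurd (hv.add_odd hw) h1
    exact main v w hv1 hvn hw1 hwn hv hw

end hop

end

end Pool.Agent.Work.MP_713a1e_co.T3
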