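import Mathlib
import Pool.Agent.Work.MP_713a1e_co.T3Lists

/-! Linking given segments by hops. -/

namespace Pool.Agent.Work.MP_713a1e_co.T3

open Finset Filter

noncomputable section

/-- parity condition for a list of segments after `v` -/
def Alt : ℕ → List (List ℕ) → Prop
  | _, [] => True
  | v, s :: r => (∀ x, s.head? = some x → Odd (v + x)) ∧ ∀ y, s.getLast? = some y → Alt y r

variable {K : ℕ} {c₁ c₀ : ℝ} {n m p a d e Λ L : ℕ}

/-- the elements of newly used pairs -/
def NewP (K p e Λ L : ℕ) (U U' : ℕ → Finset ℕ) (x : ℕ) : Prop :=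
  ∃ i ≤ K + 1, ∃ u ∈ U' i, u ∉ U i ∧ (x = ei e Λ L i + 2 * u ∨ x = p - (ei e Λ L i + 2 * u))

theorem tail_ex {M : ℕ} (h : LvR K c₁ c₀ M m p a d e Λ L) (hBH : BH K n p a e Λ L) (hMn : M ≤ n)
    (segs : List (List ℕ)) :
    ∀ (v : ℕ) (U : ℕ → Finset ℕ), 1 ≤ v → v ≤ n → (∀ i, (U i).card + segs.length ≤ TT n + 3) →
      (∀ i, ∀ u ∈ U i, u < WiT Λ L i - a) →
      (∀ l ∈ segs, l ≠ [] ∧ l.IsChain Adj ∧ ∀ x ∈ l, M < x ∧ x ≤ n) → Alt v segs →
      segs.flatten.Nodup →
      ∃ (t : List ℕ) (U' : ℕ → Finset ℕ), (∀ i, U i ⊆ U' i) ∧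
        (∀ i, ∀ u ∈ U' i, u < WiT Λ L i - a) ∧ (∀ i, K + 1 < i → U' i = U i) ∧
        (v :: t).IsChain Adj ∧ t.Nodup ∧
        (∀ x, x ∈ t ↔ x ∈ segs.flatten ∨ NewP K p e Λ L U U' x) ∧
        (v :: t).getLast? = (v :: segs.flatten).getLast? ∧
        (∀ x y, M < x → M < y → (Cons2 x y (v :: t) ↔ ∃ s ∈ segs, Cons2 x y s)) := by
  classical
  have hKL := h.hKL
  have hsmall : ∀ i < L, ∀ u < WiT Λ L i, ∀ x,
      (x = ei e Λ L i + 2 * u ∨ x = p - (ei e Λ L i + 2 * u)) → x ≤ M := by
    intro i hi u hu x hx
    obtain ⟨g1, g2, g3, g4, ⟨r, hr⟩, g6⟩ := LvR.gap h i hi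
    have hpn := h.hpn
    rcases hx with hx | hx
    · omega
    · omega
  induction segs with
  | nil =>
    intro v U hv1 hvn hU hUR hseg hAlt hnd
    refine ⟨[], U, fun i => subset_rfl, hUR, fun i _ => rfl, by simp, List.nodup_nil, ?_, rfl, ?_⟩
    · intro x
      simp only [List.not_mem_nil, List.flatten_nil, false_or, false_iff]
      rintro ⟨i, -, u, hu, hu', -⟩
      exact hu' hu
    · intro x y _ _
      simp [cons2_single]
  | cons s r ih =>
    intro v U hv1 hvn hU hUR hseg hAlt hnd
    obtain ⟨hs0, hsc, hsb⟩ := hseg s (by simp)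
    obtain ⟨w, s', rfl⟩ : ∃ w s', s = w :: s' := by
      cases s with
      | nil => exact absurd rfl hs0
      | cons w s' => exact ⟨w, s', rfl⟩
    obtain ⟨v', hv'⟩ : ∃ v', (w :: s').getLast? = some v' := by
      rw [List.getLast?_eq_some_getLast (by simp)]
      exact ⟨_, rfl⟩
    have hv'mem : v' ∈ w :: s' := List.mem_of_getLast? hv'
    have hwb := hsb w (by simp)
    have hv'b := hsb v' hv'mem
    obtain ⟨hA1, hA2⟩ := hAlt
    have hodd := hA1 w rfl
    have hU1 : ∀ i, (U i).card ≤ TT n + 3 := fun i => by have := hU i; omega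
    obtain ⟨u, H, hu1, hHn, hHm, hH0, hHc⟩ := hopLemma h hBH U hU1 v w hv1 hvn (by omega) (by omega)
      hodd
    -- new used sets
    obtain ⟨U₁, hU₁⟩ : ∃ U₁ : ℕ → Finset ℕ, U₁ = fun i => if i ≤ K + 1 then insert (u i) (U i)
      else U i := ⟨_, rfl⟩
    have hU₁a : ∀ i, i ≤ K + 1 → U₁ i = insert (u i) (U i) := fun i hi => by rw [hU₁]; simp [hi]
    have hU₁b : ∀ i, K + 1 < i → U₁ i = U i := fun i hi => by
      rw [hU₁]; simp [show ¬ i ≤ K + 1 by omega]
    have hUU₁ : ∀ i, U i ⊆ U₁ i := by
      intro i
      rcases le_or_gt i (K + 1) with hi | hi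
      · rw [hU₁a i hi]; exact subset_insert _ _
      · rw [hU₁b i hi]
    have hcard₁ : ∀ i, (U₁ i).card ≤ (U i).card + 1 := by
      intro i
      rcases le_or_gt i (K + 1) with hi | hi
      · rw [hU₁a i hi]; exact card_insert_le _ _
      · rw [hU₁b i hi]; omega
    have hUR₁ : ∀ i, ∀ x ∈ U₁ i, x < WiT Λ L i - a := by
      intro i x hx
      rcases le_or_gt i (K + 1) with hi | hi
      · rw [hU₁a i hi, mem_insert] at hx
        rcases hx with rfl | hx
        · exact (hu1 i hi).1
        · exact hUR i x hx
      · rw [hU₁b i hi] at hx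
        exact hUR i x hx
    have hnd2 : (w :: s').Nodup ∧ r.flatten.Nodup ∧ (w :: s').Disjoint r.flatten := by
      rw [List.flatten_cons, List.nodup_append'] at hnd
      exact hnd
    obtain ⟨t', U', k1, k2, k3, k4, k5, k6, k7, k8⟩ := ih v' U₁ (by omega) (by omega)
      (fun i => by
        have h1 := hU i
        have h2 := hcard₁ i
        rw [List.length_cons] at h1
        omega) hUR₁
      (fun l hl => hseg l (List.mem_cons_of_mem _ hl)) (hA2 v' hv') hnd2.2.1
    have hHs : ∀ x ∈ H, x ≤ M := by
      intro x hx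
      obtain ⟨i, hi, hx'⟩ := (hHm x).1 hx
      exact hsmall i (by omega) (u i) (by have := hu1 i hi; omega) x hx'
    have hNs : ∀ x, NewP K p e Λ L U₁ U' x → x ≤ M := by
      rintro x ⟨i, hi, u', hu', -, hx⟩
      exact hsmall i (by omega) u' (by have := k2 i u' hu'; omega) x hx
    have hHlast : ∃ z, (v :: H).getLast? = some z ∧ z ≤ M := by
      rw [List.getLast?_eq_some_getLast (by simp)]
      refine ⟨_, rfl, ?_⟩
      rw [List.getLast_cons hH0]
      exact hHs _ (List.getLast_mem hH0)
    obtain ⟨z, hz, hzM⟩ := hHlast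
    refine ⟨H ++ (w :: s' ++ t'), U', fun i => (hUU₁ i).trans (k1 i), k2, fun i hi => ?_, ?_, ?_,
      ?_, ?_, ?_⟩
    · rw [k3 i hi, hU₁b i hi]
    · -- chain
      rw [← List.cons_append] at hHc ⊢
      rw [List.isChain_append] at hHc ⊢
      refine ⟨hHc.1, ?_, ?_⟩
      · rw [List.isChain_append]
        refine ⟨hsc, ?_, ?_⟩
        · cases t' with
          | nil => simp
          | cons y t' => rw [List.isChain_cons_cons] at k4; exact k4.2
        · intro x hx y hy
          rw [hv'] at hx
          simp only [Option.mem_def, Option.some.injEq] at hx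
          subst hx
          cases t' with
          | nil => simp at hy
          | cons y' t' =>
            simp only [List.head?_cons, Option.mem_def, Option.some.injEq] at hy
            subst hy
            rw [List.isChain_cons_cons] at k4; exact k4.1
      · intro x hx y hy
        refine hHc.2.2 x hx y ?_
        simp only [List.cons_append, List.head?_cons, Option.mem_def, Option.some.injEq] at hy ⊢
        exact hy
    · -- nodup
      rw [List.nodup_append']
      refine ⟨hHn, ?_, ?_⟩
      · rw [List.nodup_append']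
        refine ⟨hnd2.1, k5, ?_⟩
        intro x hx hx'
        rcases (k6 x).1 hx' with h1 | h1
        · exact hnd2.2.2 hx h1
        · have h2 := hNs x h1
          have h3 := (hsb x hx).1
          omega
      · intro x hx hx'
        have h1 := hHs x hx
        rw [List.mem_append] at hx'
        rcases hx' with hx' | hx'
        · have h3 := (hsb x hx').1
          omega
        · rcases (k6 x).1 hx' with h2 | h2
          · obtain ⟨l, hl, hxl⟩ := List.mem_flatten.1 h2
            have h3 := ((hseg l (List.mem_cons_of_mem _ hl)).2.2 x hxl).1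
            omega
          · obtain ⟨i, hi, hxi⟩ := (hHm x).1 hx
            obtain ⟨i', hi', u', hu', hu'', hxi'⟩ := h2
            have h4 := pair_inj h (by omega : i < L) (by omega : i' < L)
              (by have := hu1 i hi; omega) (by have := k2 i' u' hu'; omega) hxi hxi'
            obtain ⟨rfl, rfl⟩ := h4
            rw [hU₁a i hi] at hu''
            exact hu'' (mem_insert_self _ _)
    · -- members
      intro x
      rw [List.mem_append, List.mem_append, List.flatten_cons, List.mem_append, k6]
      constructor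
      · rintro (h1 | h1 | h1 | h1)
        · right
          obtain ⟨i, hi, hxi⟩ := (hHm x).1 h1
          refine ⟨i, hi, u i, k1 i ?_, (hu1 i hi).2, hxi⟩
          rw [hU₁a i hi]; exact mem_insert_self _ _
        · exact Or.inl (Or.inl h1)
        · exact Or.inl (Or.inr h1)
        · right
          obtain ⟨i, hi, u', hu', hu'', hxi⟩ := h1
          exact ⟨i, hi, u', hu', fun h2 => hu'' (hUU₁ i h2), hxi⟩
      · rintro ((h1 | h1) | h1)
        · exact Or.inr (Or.inl h1)
        · exact Or.inr (Or.inr (Or.inl h1))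
        · obtain ⟨i, hi, u', hu', hu'', hxi⟩ := h1
          by_cases h2 : u' ∈ U₁ i
          · rw [hU₁a i hi, mem_insert] at h2
            rcases h2 with rfl | h2
            · exact Or.inl ((hHm x).2 ⟨i, hi, hxi⟩)
            · exact absurd h2 hu''
          · exact Or.inr (Or.inr (Or.inr ⟨i, hi, u', hu', h2, hxi⟩))
    · -- last
      have e1 : (v :: (H ++ (w :: s' ++ t'))).getLast? = (w :: s' ++ t').getLast? := by
        rw [← List.cons_append, List.getLast?_append]
        have : ((w :: s') ++ t').getLast? ≠ none := by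
          rw [Ne, List.getLast?_eq_none_iff]; simp
        cases h5 : ((w :: s') ++ t').getLast? with
        | none => exact absurd h5 this
        | some y => rfl
      have e2 : (v :: ((w :: s') :: r).flatten).getLast? = (w :: s' ++ r.flatten).getLast? := by
        rw [List.flatten_cons, List.cons_append, List.getLast?_cons_cons]
      rw [e1, e2, getLast?_append_of hv', getLast?_append_of hv', k7]
    · -- consecutive elements
      intro x y hx hy
      have e1 : ¬ Cons2 x y (v :: H) := fun h1 => by
        have h2 := h1.mem_tail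
        have h3 := hHs y h2
        omega
      have e2 : Cons2 x y (w :: s' ++ t') ↔ Cons2 x y (w :: s') ∨ Cons2 x y (v' :: t') := by
        have e3 : v' :: t' = [v'] ++ t' := rfl
        rw [e3, cons2_append, cons2_append, hv']
        simp only [cons2_single, List.getLast?_singleton, false_or]
      rw [← List.cons_append, cons2_append, hz, e2, k8 x y hx hy]
      constructor
      · rintro (h1 | (h1 | ⟨s, hs, h1⟩) | ⟨h1, -⟩)
        · exact absurd h1 e1
        · exact ⟨_, by simp, h1⟩
        · exact ⟨s, List.mem_cons_of_mem _ hs, h1⟩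
        · simp only [Option.some.injEq] at h1
          omega
      · rintro ⟨s, hs, h1⟩
        rw [List.mem_cons] at hs
        rcases hs with rfl | hs
        · exact Or.inr (Or.inl (Or.inl h1))
        · exact Or.inr (Or.inl (Or.inr ⟨s, hs, h1⟩))

end

end Pool.Agent.Work.MP_713a1e_co.T3
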