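import Mathlib
import Pool.Agent.Work.MP_713a1e_co.T3Tail
import Pool.Agent.Work.MP_713a1e_co.T3Level
import Pool.Agent.Work.MP_713a1e_co.Exist

/-! Rows from segments. -/

namespace Pool.Agent.Work.MP_713a1e_co.T3

open Finset Filter

noncomputable section

lemma sum_sg_eq (n : ℕ) : ∑ x ∈ Icc 1 n, sg x = if Odd n then 1 else 0 := by
  induction n with
  | zero => simp
  | succ n ih =>
    rw [sum_Icc_succ_top (by omega), ih]
    rcases Nat.even_or_odd n with h | h
    · rw [if_neg (by simpa using h), if_pos h.add_one, sg_odd h.add_one]; norm_num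
    · have h' : Even (n + 1) := h.add_one
      rw [if_pos h, if_neg (by simpa using h'), sg_even h']; norm_num

lemma tendsto_mm : Tendsto mm atTop atTop := by
  rw [← tendsto_natCast_atTop_iff (R := ℝ)]
  have t1 : Tendsto (fun n : ℕ => (n : ℝ)) atTop atTop := tendsto_natCast_atTop_atTop
  rw [tendsto_atTop]
  intro B
  obtain ⟨B', hB'⟩ : ∃ B', B' = |B| + 2 := ⟨_, rfl⟩
  have hB0 : 0 < B' := by rw [hB']; positivity
  filter_upwards [log_pow_small 2 (1 / B') (by positivity), t1.eventually_ge_atTop 16] with n h hn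
  have hn0 : (0 : ℝ) < n := by linarith
  have hL : 0 < Real.log n := Real.log_pos (by linarith)
  have h1 : B' ≤ n / (Real.log n) ^ 2 := by
    rw [le_div_iff₀ (by positivity)]
    have : B' * (1 / B' * n) = n := by field_simp
    calc B' * (Real.log n) ^ 2 ≤ B' * (1 / B' * n) := by gcongr
      _ = n := this
  have h2 := mm_ge n
  have := le_abs_self B
  linarith

theorem assemble (hAP : APProp) (hSP : SPProp) (hCh : ChoiceT) : ∀ᶠ n : ℕ in atTop,
    ∀ segs : List (List ℕ), (∀ l ∈ segs, l ≠ [] ∧ l.IsChain Adj) →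
      segs.flatten.Perm (List.range' (mm n + 1) (n - mm n)) → (∀ v, Even v → Alt v segs) →
      segs.length ≤ TT n + 3 → segs.flatten.getLast? = some n →
      ∃ l ∈ Rows (Icc 1 n) 1 n, ∀ x y, mm n < x → mm n < y →
        (Cons2 x y l ↔ ∃ s ∈ segs, Cons2 x y s) := by
  classical
  obtain ⟨n₁, hn₁⟩ := exists_path hAP hSP hCh
  obtain ⟨K, hK, c₁, c₀, hc₁, hc₀, hlv⟩ := lvR_ev hAP hSP hCh
  filter_upwards [tendsto_mm.eventually hlv, bigHop K hK c₁ c₀ hc₁ hc₀,
    mm_facts c₁ c₀ hc₁ hc₀, tendsto_mm.eventually (eventually_ge_atTop (5 * n₁)),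
    eventually_ge_atTop 3] with n hl hbh hmf hn5 hn3 segs hseg hperm hAlt hlen hlast
  obtain ⟨m, p, a, d, e, Λ, L, h⟩ := hl
  have hBH : BH K n p a e Λ L := hbh m p a d e Λ L h
  obtain ⟨-, h4m, h16, -, -⟩ := hmf
  have hMn : mm n ≤ n := by omega
  have hmn := h.hmn
  have hm1 := h.hm1
  have hpn := h.hpn
  have hKL := h.hKL
  have hL : 1 ≤ L := by omega
  have hm : n₁ ≤ m := by have := h.hn5; omega
  obtain ⟨z', hz1, hz2, hz3⟩ := LvR.absorber h m (hn₁ m hm)
  have hΛ := h.hΛ
  have hep : e + 2 * Λ ≤ p := by rcases h.he with he | he <;> omega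
  have hun := OmT_union hL h.hpn h.hp2 h.hmn h.he h.he2 h.hΛ
  -- `z'` is even
  have hz'even : Even z' := by
    have h1 := hz3 (fun _ => ∅) (fun i _ u hu => by simp at hu)
    have h2 : Icc 1 m ∪ (range L).biUnion (fun i => OmD p (ei e Λ L i) (WiT Λ L i) ∅) =
        Icc 1 (mm n) := by
      have h3 : (range L).biUnion (fun i => OmD p (ei e Λ L i) (WiT Λ L i) ∅) =
          (range L).biUnion (OmT p e Λ L) := by
        refine biUnion_congr rfl fun i _ => ?_
        ext x
        unfold OmT
        rw [mem_OmD, mem_Om]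
        simp [ei, WiT]
      rw [h3, hun]
      ext x; simp only [mem_union, mem_Icc]; omega
    rw [h2] at h1
    have h4 := h1.sum_sg (fun x hx => (mem_Icc.1 hx).1)
    rw [sum_sg_eq, if_neg (by simpa using mm_even n), sg_odd odd_one] at h4
    by_contra hcon
    rw [Nat.not_even_iff_odd] at hcon
    rw [sg_odd hcon] at h4
    norm_num at h4
  have hmemseg : ∀ x, x ∈ segs.flatten ↔ mm n < x ∧ x ≤ n := by
    intro x
    rw [hperm.mem_iff, List.mem_range'_1]
    omega
  have hnd : segs.flatten.Nodup := hperm.nodup_iff.2 List.nodup_range'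
  obtain ⟨t, U', k1, k2, k3, k4, k5, k6, k7, k8⟩ := tail_ex h hBH hMn segs z' (fun _ => ∅) hz1
    (by omega) (fun i => by simpa using hlen) (fun i u hu => by simp at hu)
    (fun l hl => ⟨(hseg l hl).1, (hseg l hl).2, fun x hx =>
      (hmemseg x).1 (List.mem_flatten.2 ⟨l, hl, hx⟩)⟩) (hAlt z' hz'even) hnd
  obtain ⟨l₀, b1, b2, b3, b4, b5⟩ := hz3 U' (fun i _ u hu => k2 i u hu)
  have ht0 : t ≠ [] := by
    rintro rfl
    have h1 : n ∈ segs.flatten := (hmemseg n).2 ⟨by omega, le_rfl⟩
    have h2 := (k6 n).2 (Or.inl h1)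
    simp at h2
  have hsmall : ∀ i < L, ∀ u < WiT Λ L i, ∀ x,
      (x = ei e Λ L i + 2 * u ∨ x = p - (ei e Λ L i + 2 * u)) → m + 1 ≤ x ∧ x ≤ mm n := by
    intro i hi u hu x hx
    obtain ⟨g1, g2, g3, g4, ⟨r, hr⟩, g6⟩ := LvR.gap h i hi
    rcases hx with hx | hx
    · omega
    · omega
  have hl₀ : ∀ x ∈ l₀, x ≤ mm n := by
    intro x hx
    rw [b2, mem_union, mem_Icc, mem_biUnion] at hx
    rcases hx with hx | ⟨i, hi, hx⟩
    · omega
    · rw [mem_range] at hi
      rcases mem_OmD.1 hx with ⟨u, hu, hx⟩ | ⟨u, hu, hx⟩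
      · exact (hsmall i hi u hu.1 x (Or.inl hx)).2
      · exact (hsmall i hi u hu.1 x (Or.inr hx)).2
  refine ⟨l₀ ++ t, ⟨?_, ?_, ?_, ?_, ?_⟩, ?_⟩
  · -- nodup
    rw [List.nodup_append']
    refine ⟨b1, k5, ?_⟩
    intro x hx hx'
    have h1 := hl₀ x hx
    rcases (k6 x).1 hx' with h2 | ⟨i', hi', u', hu', -, hxi'⟩
    · have := (hmemseg x).1 h2
      omega
    · have h5 := k2 i' u' hu'
      have h6 := hsmall i' (by omega) u' (by omega) x hxi'
      rw [b2, mem_union, mem_Icc, mem_biUnion] at hx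
      rcases hx with hx | ⟨i, hi, hx⟩
      · omega
      · rw [mem_range] at hi
        obtain ⟨u, hu, hxi⟩ : ∃ u, (u < WiT Λ L i ∧ u ∉ U' i) ∧
            (x = ei e Λ L i + 2 * u ∨ x = p - (ei e Λ L i + 2 * u)) := by
          rcases mem_OmD.1 hx with ⟨u, hu, hx⟩ | ⟨u, hu, hx⟩
          · exact ⟨u, hu, Or.inl hx⟩
          · exact ⟨u, hu, Or.inr hx⟩
        obtain ⟨rfl, rfl⟩ := pair_inj h hi (by omega : i' < L) hu.1 (by omega) hxi hxi'
        exact hu.2 hu'
  · -- members
    intro x
    rw [List.mem_append, b2, k6, hmemseg, mem_Icc, mem_union, mem_Icc, mem_biUnion]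
    constructor
    · rintro ((h1 | ⟨i, hi, hx⟩) | h1 | ⟨i, hi, u, hu, -, hx⟩)
      · omega
      · rw [mem_range] at hi
        rcases mem_OmD.1 hx with ⟨u, hu, hx⟩ | ⟨u, hu, hx⟩
        · have := hsmall i hi u hu.1 x (Or.inl hx); omega
        · have := hsmall i hi u hu.1 x (Or.inr hx); omega
      · omega
      · have h5 := k2 i u hu
        have := hsmall i (by omega) u (by omega) x hx
        omega
    · rintro ⟨h1, h2⟩
      rcases Nat.lt_or_ge (mm n) x with h3 | h3
      · exact Or.inr (Or.inl ⟨h3, h2⟩)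
      · rcases Nat.lt_or_ge m x with h4 | h4
        · have h5 : x ∈ (range L).biUnion (OmT p e Λ L) := by
            rw [hun]; exact mem_Icc.2 ⟨by omega, h3⟩
          obtain ⟨i, hi, hx⟩ := mem_biUnion.1 h5
          have hi' := mem_range.1 hi
          unfold OmT at hx
          obtain ⟨u, hu, hxi⟩ : ∃ u, u < WiT Λ L i ∧
              (x = ei e Λ L i + 2 * u ∨ x = p - (ei e Λ L i + 2 * u)) := by
            rcases mem_Om.1 hx with ⟨u, hu, hx⟩ | ⟨u, hu, hx⟩
            · exact ⟨u, hu, Or.inl hx⟩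
            · exact ⟨u, hu, Or.inr hx⟩
          by_cases hmem : u ∈ U' i
          · right; right
            rcases le_or_gt i (K + 1) with h6 | h6
            · exact ⟨i, h6, u, hmem, by simp, hxi⟩
            · rw [k3 i h6] at hmem
              simp at hmem
          · left; right
            refine ⟨i, hi, mem_OmD.2 ?_⟩
            rcases hxi with hxi | hxi
            · exact Or.inl ⟨u, ⟨hu, hmem⟩, hxi⟩
            · exact Or.inr ⟨u, ⟨hu, hmem⟩, hxi⟩
        · exact Or.inl (Or.inl ⟨h1, h4⟩)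
  · rw [List.head?_append, b3]; rfl
  · -- last
    have e1 : (z' :: t).getLast? = some n := by
      rw [k7]
      cases hfl : segs.flatten with
      | nil => rw [hfl] at hlast; simp at hlast
      | cons y r => rw [List.getLast?_cons_cons, ← hfl]; exact hlast
    rw [getLast?_append_of b4, e1]
  · -- chain
    rw [List.isChain_append]
    refine ⟨b5, ?_, ?_⟩
    · cases t with
      | nil => simp
      | cons y t => rw [List.isChain_cons_cons] at k4; exact k4.2
    · intro x hx y hy
      rw [b4] at hx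
      simp only [Option.mem_def, Option.some.injEq] at hx
      subst hx
      cases t with
      | nil => simp at hy
      | cons y' t =>
        simp only [List.head?_cons, Option.mem_def, Option.some.injEq] at hy
        subst hy
        rw [List.isChain_cons_cons] at k4; exact k4.1
  · -- consecutive elements
    intro x y hx hy
    rw [← k8 x y hx hy, cons2_append, b4]
    have e3 : z' :: t = [z'] ++ t := rfl
    rw [e3, cons2_append]
    simp only [cons2_single, List.getLast?_singleton, false_or]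
    constructor
    · rintro (h1 | h1)
      · have := hl₀ x h1.mem_left
        omega
      · exact h1
    · exact fun h1 => Or.inr h1

end

end Pool.Agent.Work.MP_713a1e_co.T3
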