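import Mathlib
import Pool.Agent.Work.MP_713a1e_co.T3Assemble

/-! The lower bound for the number of rows from the number of linear forests. -/

namespace Pool.Agent.Work.MP_713a1e_co.T3

open Finset Filter

noncomputable section

/-- isolated vertices, alternately -/
def inter : List ℕ → List ℕ → List (List ℕ)
  | y :: a, z :: b => [y] :: [z] :: inter a b
  | _, _ => []

lemma inter_perm : ∀ a b : List ℕ, a.length = b.length → (inter a b).flatten.Perm (a ++ b)
  | [], [], _ => by simp [inter]
  | [], _ :: _, h => by simp at h
  | _ :: _, [], h => by simp at h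
  | y :: a, z :: b, h => by
      have ih := inter_perm a b (by simpa using h)
      unfold inter
      rw [List.flatten_cons, List.flatten_cons, List.singleton_append, List.singleton_append,
        List.cons_append]
      refine List.Perm.cons _ ?_
      exact (ih.cons z).trans List.perm_middle.symm

lemma inter_length : ∀ a b : List ℕ, a.length = b.length → (inter a b).length = 2 * a.length
  | [], [], _ => by simp [inter]
  | [], _ :: _, h => by simp at h
  | _ :: _, [], h => by simp at h
  | y :: a, z :: b, h => by
      have ih := inter_length a b (by simpa using h)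
      unfold inter
      simp only [List.length_cons, ih]
      ring

lemma inter_single : ∀ a b : List ℕ, ∀ s ∈ inter a b, ∃ x, s = [x]
  | [], _, s, h => by simp [inter] at h
  | _ :: _, [], s, h => by simp [inter] at h
  | y :: a, z :: b, s, h => by
      unfold inter at h
      rw [List.mem_cons, List.mem_cons] at h
      rcases h with rfl | rfl | h
      · exact ⟨y, rfl⟩
      · exact ⟨z, rfl⟩
      · exact inter_single a b s h

lemma alt_inter (R : List (List ℕ)) (hR : ∀ v, Even v → Alt v R) : ∀ a b : List ℕ,
    (∀ x ∈ a, Odd x) → (∀ x ∈ b, Even x) → ∀ v, Even v → Alt v (inter a b ++ R)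
  | [], _, _, _, v, hv => by simpa [inter] using hR v hv
  | _ :: _, [], _, _, v, hv => by simpa [inter] using hR v hv
  | y :: a, z :: b, ha, hb, v, hv => by
      have hy : Odd y := ha y (by simp)
      have hz : Even z := hb z (by simp)
      have ih := alt_inter R hR a b (fun x hx => ha x (by simp [hx]))
        (fun x hx => hb x (by simp [hx])) z hz
      unfold inter
      rw [List.cons_append, List.cons_append]
      refine ⟨?_, ?_⟩
      · intro x hx
        simp only [List.head?_cons, Option.some.injEq] at hx
        subst hx; exact hv.add_odd hy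
      · intro x hx
        simp only [List.getLast?_singleton, Option.some.injEq] at hx
        subst hx
        refine ⟨?_, ?_⟩
        · intro x hx
          simp only [List.head?_cons, Option.some.injEq] at hx
          subst hx; exact hy.add_even hz
        · intro x hx
          simp only [List.getLast?_singleton, Option.some.injEq] at hx
          subst hx; exact ih

lemma alt_chains (R : List (List ℕ)) (hR : ∀ v, Even v → Alt v R) (L : List (List ℕ))
    (hL : ∀ l ∈ L, (∀ x, l.head? = some x → Odd x) ∧ (∀ x, l.getLast? = some x → Even x)) :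
    ∀ v, Even v → Alt v (L ++ R) := by
  induction L with
  | nil => exact hR
  | cons l L ih =>
    intro v hv
    rw [List.cons_append]
    refine ⟨fun x hx => hv.add_odd ((hL l (by simp)).1 x hx), fun x hx => ?_⟩
    exact ih (fun l' hl' => hL l' (by simp [hl'])) x ((hL l (by simp)).2 x hx)

/-- the last segments -/
def fin2 (n : ℕ) : List (List ℕ) := if Even n then [[n - 1], [n]] else [[n]]

/-- **Rows from linear forests.** -/
theorem rows_of_FP (hAP : APProp) (hSP : SPProp) (hCh : ChoiceT)
    (hComp : ∀ (m N T : ℕ) (M1 M2 : Finset (Fin N × Fin N)), Even m → FP m N T M1 M2 →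
      Components m N T M1 M2) : ∀ᶠ n : ℕ in atTop,
    ∀ M1 M2 : Finset (Fin (NN n) × Fin (NN n)), FP (mm n) (NN n) (TT n) M1 M2 →
      ∃ l ∈ Rows (Icc 1 n) 1 n,
        (∀ i j, (i, j) ∈ M1 ↔ Cons2 (yy (mm n) i) (zz (mm n) j) l) ∧
        (∀ i j, (i, j) ∈ M2 ↔ Cons2 (zz (mm n) j) (yy (mm n) i) l) := by
  filter_upwards [assemble hAP hSP hCh, mm_facts 1 1 one_pos one_pos, eventually_ge_atTop 3] with
    n hn hmf hn3 M1 M2 hFP
  obtain ⟨-, h4m, h16, -, -⟩ := hmf
  obtain ⟨L, a, b, c1, c2, c3, c4, c5, c6, c7, c8⟩ := hComp _ _ _ _ _ (mm_even n) hFP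
  obtain ⟨m', hm'⟩ := mm_even n
  have hfin_alt : ∀ v, Even v → Alt v (fin2 n) := by
    intro v hv
    unfold fin2
    rcases Nat.even_or_odd n with h | h
    · rw [if_pos h]
      have hn1 : Odd (n - 1) := by
        obtain ⟨r, hr⟩ := h
        exact ⟨r - 1, by omega⟩
      refine ⟨?_, ?_⟩
      · intro x hx
        simp only [List.head?_cons, Option.some.injEq] at hx
        subst hx; exact hv.add_odd hn1
      · intro x hx
        simp only [List.getLast?_singleton, Option.some.injEq] at hx
        subst hx
        refine ⟨?_, fun y hy => trivial⟩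
        intro x hx
        simp only [List.head?_cons, Option.some.injEq] at hx
        subst hx; exact hn1.add_even h
    · rw [if_neg (by simpa using h)]
      refine ⟨?_, fun y hy => trivial⟩
      intro x hx
      simp only [List.head?_cons, Option.some.injEq] at hx
      subst hx; exact hv.add_odd h
  have hfin_single : ∀ s ∈ fin2 n, ∃ x, s = [x] := by
    intro s hs
    unfold fin2 at hs
    split_ifs at hs
    · simp only [List.mem_cons, List.not_mem_nil, or_false] at hs
      rcases hs with rfl | rfl
      · exact ⟨_, rfl⟩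
      · exact ⟨_, rfl⟩
    · simp only [List.mem_cons, List.not_mem_nil, or_false] at hs
      exact ⟨n, hs⟩
  have hfin_len : (fin2 n).length ≤ 2 := by
    unfold fin2; split_ifs <;> simp
  have hfin_perm : (List.range' (mm n + 1) (2 * NN n) ++ (fin2 n).flatten) =
      List.range' (mm n + 1) (n - mm n) := by
    unfold fin2 NN
    rcases Nat.even_or_odd n with h | h
    · rw [if_pos h]
      obtain ⟨r, hr⟩ := h
      have e1 : n - mm n = 2 * ((n - 1 - mm n) / 2) + 1 + 1 := by omega
      rw [e1, List.range'_concat, List.range'_concat]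
      simp only [List.flatten_cons, List.flatten_nil, List.append_nil, List.append_assoc,
        List.cons_append, List.nil_append, one_mul]
      congr 2
      · omega
      · congr 1; omega
    · rw [if_neg (by simpa using h)]
      obtain ⟨r, hr⟩ := h
      have e1 : n - mm n = 2 * ((n - 1 - mm n) / 2) + 1 := by omega
      rw [e1, List.range'_concat]
      simp only [List.flatten_cons, List.flatten_nil, List.append_nil, one_mul]
      congr 2
      omega
  obtain ⟨segs, hsegs⟩ : ∃ segs, segs = L ++ (inter a b ++ fin2 n) := ⟨_, rfl⟩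
  have hsingle : ∀ s ∈ inter a b ++ fin2 n, ∃ x, s = [x] := by
    intro s hs
    rw [List.mem_append] at hs
    rcases hs with hs | hs
    · exact inter_single a b s hs
    · exact hfin_single s hs
  have q1 : ∀ l ∈ segs, l ≠ [] ∧ l.IsChain Adj := by
    intro s hs
    rw [hsegs, List.mem_append] at hs
    rcases hs with hs | hs
    · exact ⟨(c2 s hs).1, (c2 s hs).2.1⟩
    · obtain ⟨x, rfl⟩ := hsingle s hs
      exact ⟨by simp, by simp⟩
  have q2 : segs.flatten.Perm (List.range' (mm n + 1) (n - mm n)) := by
    rw [hsegs, List.flatten_append, List.flatten_append, ← hfin_perm, ← List.append_assoc]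
    refine List.Perm.append ?_ (List.Perm.refl _)
    refine List.Perm.trans ?_ c1
    rw [List.append_assoc]
    exact List.Perm.append (List.Perm.refl _) (inter_perm a b c5)
  have q3 : ∀ v, Even v → Alt v segs := by
    intro v hv
    rw [hsegs]
    exact alt_chains _ (alt_inter _ hfin_alt a b c3 c4) L (fun l hl => (c2 l hl).2.2) v hv
  have q4 : segs.length ≤ TT n + 3 := by
    rw [hsegs, List.length_append, List.length_append, inter_length a b c5]
    omega
  have q5 : segs.flatten.getLast? = some n := by
    rw [hsegs, List.flatten_append, List.flatten_append, ← List.append_assoc,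
      List.getLast?_append]
    have : (fin2 n).flatten.getLast? = some n := by
      unfold fin2
      split_ifs <;> simp
    rw [this]
    rfl
  obtain ⟨l, hl, hcons⟩ := hn segs q1 q2 q3 q4 q5
  have hred : ∀ x y, (∃ s ∈ segs, Cons2 x y s) ↔ ∃ s ∈ L, Cons2 x y s := by
    intro x y
    constructor
    · rintro ⟨s, hs, h1⟩
      rw [hsegs, List.mem_append] at hs
      rcases hs with hs | hs
      · exact ⟨s, hs, h1⟩
      · obtain ⟨x', rfl⟩ := hsingle s hs
        exact absurd h1 cons2_single
    · rintro ⟨s, hs, h1⟩
      exact ⟨s, by rw [hsegs, List.mem_append]; exact Or.inl hs, h1⟩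
  refine ⟨l, hl, fun i j => ?_, fun i j => ?_⟩
  · rw [c7, hcons _ _ (by unfold yy; omega) (by unfold zz; omega), hred]
    rfl
  · rw [c8, hcons _ _ (by unfold zz; omega) (by unfold yy; omega), hred]
    rfl

/-- the number of rows is at least the number of forests -/
theorem ncard_FP_le (hAP : APProp) (hSP : SPProp) (hCh : ChoiceT)
    (hComp : ∀ (m N T : ℕ) (M1 M2 : Finset (Fin N × Fin N)), Even m → FP m N T M1 M2 →
      Components m N T M1 M2) : ∀ᶠ n : ℕ in atTop,
    ({M : Finset (Fin (NN n) × Fin (NN n)) × Finset (Fin (NN n) × Fin (NN n)) |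
      FP (mm n) (NN n) (TT n) M.1 M.2} : Set _).ncard ≤ (Rows (Icc 1 n) 1 n).ncard := by
  filter_upwards [rows_of_FP hAP hSP hCh hComp] with n hn
  choose! f hf1 hf2 hf3 using hn
  refine Set.ncard_le_ncard_of_injOn (fun M => f M.1 M.2) ?_ ?_ (rows_finite _ _ _)
  · intro M hM
    exact hf1 _ _ hM
  · intro M hM M' hM' heq
    have h1 : M.1 = M'.1 := by
      ext ⟨i, j⟩
      rw [hf2 _ _ hM, hf2 _ _ hM']
      have : f M.1 M.2 = f M'.1 M'.2 := heq
      rw [this]
    have h2 : M.2 = M'.2 := by
      ext ⟨i, j⟩
      rw [hf3 _ _ hM, hf3 _ _ hM']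
      have : f M.1 M.2 = f M'.1 M'.2 := heq
      rw [this]
    exact Prod.ext h1 h2

/-- **The lower bound.** -/
theorem lowerT3 (hAP : APProp) (hSP : SPProp) (hCh : ChoiceT)
    (hComp : ∀ (m N T : ℕ) (M1 M2 : Finset (Fin N × Fin N)), Even m → FP m N T M1 M2 →
      Components m N T M1 M2) (hC : CountFP) (ε : ℝ) (hε : 0 < ε) (hε1 : ε < 1) :
    ∀ᶠ n : ℕ in atTop, ((1 - ε) * n / (Real.exp 1 * Real.log n)) ^ n ≤
      ((Rows (Icc 1 n) 1 n).ncard : ℝ) := by
  filter_upwards [hC ε hε hε1, ncard_FP_le hAP hSP hCh hComp] with n h1 h2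
  exact h1.trans (by exact_mod_cast h2)

end

end Pool.Agent.Work.MP_713a1e_co.T3
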