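import Mathlib
import Pool.Agent.Work.MP_713a1e_co.T3Defs

/-! Finite partial injections: chains, breaking cycles, and the components of linear forests. -/

namespace Pool.Agent.Work.MP_713a1e_co.T3

open Finset

section relations
variable {α : Type*} [DecidableEq α]

omit [DecidableEq α] in
lemma PInj.mono {E F : Finset (α × α)} (h : PInj E) (hF : F ⊆ E) : PInj F :=
  ⟨fun a b c h1 h2 => h.1 a b c (hF h1) (hF h2), fun a b c h1 h2 => h.2 a b c (hF h1) (hF h2)⟩

omit [DecidableEq α] in
lemma Acyc.mono {E F : Finset (α × α)} (h : Acyc E) (hF : F ⊆ E) : Acyc F := by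
  intro C hC hcon
  refine h C hC fun a ha => ?_
  obtain ⟨b, hb, hab⟩ := hcon a ha
  exact ⟨b, hb, hF hab⟩

omit [DecidableEq α] in
/-- in a chain, an element with no successor is the last one -/
lemma last_of_no_succ {R : α → α → Prop} : ∀ (l : List α) (y : α), y ∈ l → l.IsChain R →
    (∀ z, ¬ R y z) → l.Nodup → l.getLast? = some y
  | [], y, h, _, _, _ => by simp at h
  | [a], y, h, _, _, _ => by
      rw [List.mem_singleton] at h
      subst h; rfl
  | a :: b :: l, y, h, hc, hn, hd => by
      rw [List.isChain_cons_cons] at hc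
      rw [List.mem_cons] at h
      rcases h with rfl | h
      · exact absurd hc.1 (hn b)
      · rw [List.getLast?_cons_cons]
        exact last_of_no_succ (b :: l) y h hc.2 hn (List.nodup_cons.1 hd).2

theorem chains (n : ℕ) : ∀ (D : Finset α) (E : Finset (α × α)), D.card = n → E ⊆ D ×ˢ D →
    PInj E → Acyc E → ∃ L : List (List α), L.flatten.Nodup ∧ (∀ x, x ∈ L.flatten ↔ x ∈ D) ∧
      (∀ l ∈ L, l ≠ []) ∧ (∀ l ∈ L, l.IsChain (fun a b => (a, b) ∈ E)) ∧
      L.length + E.card = D.card ∧ ∀ a b, (a, b) ∈ E → ∃ l ∈ L, [a, b] <:+: l := by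
  induction n with
  | zero =>
    intro D E hD hE hP hA
    rw [card_eq_zero] at hD
    subst hD
    have hE0 : E = ∅ := by
      rw [← subset_empty]; simpa using hE
    subst hE0
    exact ⟨[], by simp, by simp, by simp, by simp, by simp, by simp⟩
  | succ n ih =>
    intro D E hD hE hP hA
    have hDne : D.Nonempty := by rw [← card_pos]; omega
    -- a sink
    obtain ⟨x, hxD, hx⟩ : ∃ x ∈ D, ∀ b, (x, b) ∉ E := by
      have := hA D hDne
      push Not at this
      obtain ⟨x, hx, hx'⟩ := this
      exact ⟨x, hx, fun b hb => hx' b (mem_product.1 (hE hb)).2 hb⟩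
    have hcardD : (D.erase x).card = n := by rw [card_erase_of_mem hxD]; omega
    by_cases hin : ∃ y, (y, x) ∈ E
    · obtain ⟨y, hy⟩ := hin
      have hyD : y ∈ D := (mem_product.1 (hE hy)).1
      have hyx : y ≠ x := by
        rintro rfl
        exact hx _ hy
      set E' := E.erase (y, x) with hE'
      have hE'sub : E' ⊆ E := erase_subset _ _
      have hE'D : E' ⊆ D.erase x ×ˢ D.erase x := by
        rintro ⟨u, v⟩ huv
        have h1 := mem_product.1 (hE (hE'sub huv))
        rw [hE', mem_erase] at huv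
        rw [mem_product, mem_erase, mem_erase]
        refine ⟨⟨?_, h1.1⟩, ⟨?_, h1.2⟩⟩
        · rintro rfl
          exact hx _ huv.2
        · rintro rfl
          have := hP.2 u y v huv.2 hy
          exact huv.1 (by rw [this])
      obtain ⟨L', k1, k2, k3, k4, k5, k6⟩ := ih (D.erase x) E' hcardD hE'D (hP.mono hE'sub)
        (hA.mono hE'sub)
      have hyL : y ∈ L'.flatten := (k2 y).2 (mem_erase.2 ⟨hyx, hyD⟩)
      obtain ⟨l, hl, hyl⟩ := List.mem_flatten.1 hyL
      have hlnd : l.Nodup := (List.nodup_flatten.1 k1).1 l hl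
      have hlast : l.getLast? = some y := by
        refine last_of_no_succ l y hyl (k4 l hl) (fun z hz => ?_) hlnd
        rw [hE', mem_erase] at hz
        exact hz.1 (by rw [hP.1 y z x hz.2 hy])
      obtain ⟨L₁, L₂, rfl⟩ := List.append_of_mem hl
      have hperm : (L₁ ++ (l ++ [x]) :: L₂).flatten.Perm (x :: (L₁ ++ l :: L₂).flatten) := by
        simp only [List.flatten_append, List.flatten_cons]
        have h1 : (L₁.flatten ++ (l ++ [x] ++ L₂.flatten)) =
            (L₁.flatten ++ l) ++ x :: L₂.flatten := by simp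
        rw [h1]
        refine List.perm_middle.trans ?_
        rw [List.append_assoc]
      refine ⟨L₁ ++ (l ++ [x]) :: L₂, ?_, ?_, ?_, ?_, ?_, ?_⟩
      · rw [hperm.nodup_iff, List.nodup_cons]
        refine ⟨fun h => ?_, k1⟩
        have := (k2 x).1 h
        simp at this
      · intro z
        rw [hperm.mem_iff, List.mem_cons, k2, mem_erase]
        constructor
        · rintro (rfl | h)
          · exact hxD
          · exact h.2
        · intro h
          by_cases hzx : z = x
          · exact Or.inl hzx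
          · exact Or.inr ⟨hzx, h⟩
      · intro l' hl'
        rw [List.mem_append, List.mem_cons] at hl'
        rcases hl' with h | rfl | h
        · exact k3 l' (by simp [h])
        · simp
        · exact k3 l' (by simp [h])
      · intro l' hl'
        rw [List.mem_append, List.mem_cons] at hl'
        rcases hl' with h | rfl | h
        · exact (k4 l' (by simp [h])).imp fun a b hab => hE'sub hab
        · rw [List.isChain_append]
          refine ⟨(k4 l (by simp)).imp fun a b hab => hE'sub hab, by simp, ?_⟩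
          intro u hu v hv
          rw [hlast] at hu
          simp only [Option.mem_def, Option.some.injEq, List.head?_cons] at hu hv
          subst hu; subst hv
          exact hy
        · exact (k4 l' (by simp [h])).imp fun a b hab => hE'sub hab
      · have h1 : E'.card + 1 = E.card := card_erase_add_one hy
        have h2 : (D.erase x).card + 1 = D.card := card_erase_add_one hxD
        have h3 : (L₁ ++ (l ++ [x]) :: L₂).length = (L₁ ++ l :: L₂).length := by simp
        rw [h3]; omega
      · intro u v huv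
        by_cases h : (u, v) = (y, x)
        · rw [Prod.mk.injEq] at h
          obtain ⟨rfl, rfl⟩ := h
          refine ⟨l ++ [v], by simp, ?_⟩
          obtain ⟨s, hs⟩ : ∃ s, l = s ++ [u] := by
            have := List.getLast?_eq_some_iff.1 hlast
            exact this
          exact ⟨s, [], by rw [hs]; simp⟩
        · obtain ⟨l', hl', h1⟩ := k6 u v (by rw [hE', mem_erase]; exact ⟨h, huv⟩)
          rw [List.mem_append, List.mem_cons] at hl'
          rcases hl' with h2 | rfl | h2
          · exact ⟨l', by simp [h2], h1⟩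
          · exact ⟨l' ++ [x], by simp, h1.trans ⟨[], [x], by simp⟩⟩
          · exact ⟨l', by simp [h2], h1⟩
    · push Not at hin
      have hED : E ⊆ D.erase x ×ˢ D.erase x := by
        rintro ⟨u, v⟩ huv
        have h1 := mem_product.1 (hE huv)
        rw [mem_product, mem_erase, mem_erase]
        refine ⟨⟨?_, h1.1⟩, ⟨?_, h1.2⟩⟩
        · rintro rfl
          exact hx _ huv
        · rintro rfl
          exact hin _ huv
      obtain ⟨L', k1, k2, k3, k4, k5, k6⟩ := ih (D.erase x) E hcardD hED hP hA
      refine ⟨[x] :: L', ?_, ?_, ?_, ?_, ?_, ?_⟩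
      · rw [List.flatten_cons, List.singleton_append, List.nodup_cons]
        refine ⟨fun h => ?_, k1⟩
        have := (k2 x).1 h
        simp at this
      · intro z
        rw [List.flatten_cons, List.singleton_append, List.mem_cons, k2, mem_erase]
        constructor
        · rintro (rfl | h)
          · exact hxD
          · exact h.2
        · intro h
          by_cases hzx : z = x
          · exact Or.inl hzx
          · exact Or.inr ⟨hzx, h⟩
      · intro l' hl'
        rw [List.mem_cons] at hl'
        rcases hl' with rfl | h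
        · simp
        · exact k3 l' h
      · intro l' hl'
        rw [List.mem_cons] at hl'
        rcases hl' with rfl | h
        · simp
        · exact k4 l' h
      · have h2 : (D.erase x).card + 1 = D.card := card_erase_add_one hxD
        rw [List.length_cons]; omega
      · intro u v huv
        obtain ⟨l', hl', h1⟩ := k6 u v huv
        exact ⟨l', by simp [hl'], h1⟩

theorem break_cycles (E : Finset (α × α)) (hP : PInj E) (s : ℕ) :
    (∃ R ⊆ E, R.card ≤ s ∧ Acyc (E \ R)) ∨
    (∃ R ⊆ E, R.card = s + 1 ∧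
      ∀ x ∈ R, Relation.ReflTransGen (fun a b => (a, b) ∈ E \ R) x.2 x.1) := by
  classical
  have hex : ∃ k, ∃ R ⊆ E, R.card = k ∧ Acyc (E \ R) := by
    refine ⟨E.card, E, subset_rfl, rfl, ?_⟩
    intro C hC hcon
    obtain ⟨a, ha⟩ := hC
    obtain ⟨b, -, hb⟩ := hcon a ha
    simp at hb
  obtain ⟨R, hRE, hRk, hRA⟩ := Nat.find_spec hex
  have hmin : ∀ k < Nat.find hex, ¬ ∃ R ⊆ E, R.card = k ∧ Acyc (E \ R) :=
    fun k hk => Nat.find_min hex hk
  rcases Nat.lt_or_ge s (Nat.find hex) with hs | hs
  · right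
    obtain ⟨R', hR'R, hR'c⟩ := exists_subset_card_eq (s := R) (n := s + 1) (by omega)
    refine ⟨R', hR'R.trans hRE, hR'c, ?_⟩
    rintro ⟨a, b⟩ hab
    have habR := hR'R hab
    -- removing the edge from `R` creates a cycle
    have h1 : ¬ Acyc (E \ (R.erase (a, b))) := by
      intro h
      refine hmin (Nat.find hex - 1) (by omega) ⟨R.erase (a, b), (erase_subset _ _).trans hRE, ?_, h⟩
      rw [card_erase_of_mem habR, hRk]
    unfold Acyc at h1
    push Not at h1
    obtain ⟨C, hC, hclosed⟩ := h1
    have hedge : ∀ c c', (c, c') ∈ E \ (R.erase (a, b)) → c ≠ a → (c, c') ∈ E \ R := by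
      intro c c' h hca
      rw [mem_sdiff, mem_erase] at h
      rw [mem_sdiff]
      refine ⟨h.1, fun hR => h.2 ⟨?_, hR⟩⟩
      intro heq
      rw [Prod.mk.injEq] at heq
      exact hca heq.1
    -- the vertex without successor in `C`
    obtain ⟨c₀, hc₀, hc₀'⟩ : ∃ c₀ ∈ C, ∀ c' ∈ C, (c₀, c') ∉ E \ R := by
      have := hRA C hC
      push Not at this
      exact this
    have hc₀a : c₀ = a := by
      by_contra hne
      obtain ⟨c', hc', h2⟩ := hclosed c₀ hc₀
      exact hc₀' c' hc' (hedge _ _ h2 hne)
    subst hc₀a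
    have hbC : b ∈ C := by
      obtain ⟨c', hc', h2⟩ := hclosed c₀ hc₀
      have h3 := (mem_sdiff.1 h2).1
      have h4 := hP.1 c₀ c' b h3 (hRE habR)
      rwa [h4] at hc'
    have hreach : Relation.ReflTransGen (fun a b => (a, b) ∈ E \ R) b c₀ := by
      by_contra hcon
      refine hRA (C.filter (fun c => Relation.ReflTransGen (fun a b => (a, b) ∈ E \ R) b c))
        ⟨b, mem_filter.2 ⟨hbC, Relation.ReflTransGen.refl⟩⟩ ?_
      intro c hc
      rw [mem_filter] at hc
      obtain ⟨c', hc', h2⟩ := hclosed c hc.1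
      have hca : c ≠ c₀ := by
        rintro rfl
        exact hcon hc.2
      have h3 := hedge c c' h2 hca
      exact ⟨c', mem_filter.2 ⟨hc', hc.2.tail h3⟩, h3⟩
    refine hreach.lift id fun u v huv => ?_
    rw [mem_sdiff] at huv
    refine mem_sdiff.2 ⟨huv.1, fun h => huv.2 (hR'R h)⟩
  · left
    exact ⟨R, hRE, by omega, hRA⟩

omit [DecidableEq α] in
theorem source_unique (E : Finset (α × α)) (hP : PInj E) (a b b' : α) (hb : ∀ c, (c, b) ∉ E)
    (hb' : ∀ c, (c, b') ∉ E) (h : Relation.ReflTransGen (fun a b => (a, b) ∈ E) b a)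
    (h' : Relation.ReflTransGen (fun a b => (a, b) ∈ E) b' a) : b = b' := by
  induction h with
  | refl =>
    rcases Relation.ReflTransGen.cases_tail h' with h1 | ⟨c, -, h1⟩
    · exact h1
    · exact absurd h1 (hb c)
  | tail h1 h2 ih =>
    rename_i c a
    rcases Relation.ReflTransGen.cases_tail h' with h3 | ⟨c', h3, h4⟩
    · subst h3
      exact absurd h2 (hb' c)
    · have : c' = c := hP.2 c' c a h4 h2
      subst this
      exact ih h3

end relations

section components

/-- expanding a chain of `y`s -/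
def expand (m : ℕ) {N : ℕ} (μ : Fin N → Fin N) (l : List (Fin N)) : List ℕ :=
  l.flatMap (fun i : Fin N => [yy m (i : ℕ), zz m (μ i : ℕ)])

lemma expand_cons (m : ℕ) {N : ℕ} (μ : Fin N → Fin N) (i : Fin N) (l : List (Fin N)) :
    expand m μ (i :: l) = yy m i :: zz m (μ i) :: expand m μ l := rfl

lemma expand_length (m : ℕ) {N : ℕ} (μ : Fin N → Fin N) (l : List (Fin N)) :
    (expand m μ l).length = 2 * l.length := by
  induction l with
  | nil => rfl
  | cons i l ih => rw [expand_cons, List.length_cons, List.length_cons, List.length_cons, ih]; ring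

lemma expand_last (m : ℕ) {N : ℕ} (μ : Fin N → Fin N) (l : List (Fin N)) (x : ℕ)
    (h : (expand m μ l).getLast? = some x) : ∃ i ∈ l, x = zz m (μ i) := by
  induction l with
  | nil => simp [expand] at h
  | cons i l ih =>
    rw [expand_cons] at h
    cases l with
    | nil =>
      simp only [expand, List.flatMap_nil, List.getLast?_cons_cons, List.getLast?_singleton,
        Option.some.injEq] at h
      exact ⟨i, by simp, h.symm⟩
    | cons j l =>
      rw [List.getLast?_cons_cons] at h
      have h2 : (zz m (μ i) :: expand m μ (j :: l)).getLast? = (expand m μ (j :: l)).getLast? := by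
        rw [expand_cons, List.getLast?_cons_cons]
      rw [h2] at h
      obtain ⟨i', hi', hx⟩ := ih h
      exact ⟨i', by simp [hi'], hx⟩

/-- consecutive elements of an expanded chain -/
lemma expand_infix (m : ℕ) {N : ℕ} (μ : Fin N → Fin N) (l : List (Fin N)) (x y : ℕ) :
    [x, y] <:+: expand m μ l ↔ (∃ i ∈ l, x = yy m i ∧ y = zz m (μ i)) ∨
      (∃ i i', [i, i'] <:+: l ∧ x = zz m (μ i) ∧ y = yy m i') := by
  induction l with
  | nil => simp [expand]
  | cons i l ih =>
    rw [expand_cons, List.infix_cons_iff, List.infix_cons_iff, ih, List.cons_prefix_cons,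
      List.cons_prefix_cons, List.cons_prefix_cons]
    constructor
    · rintro (⟨rfl, rfl, -⟩ | ⟨rfl, h⟩ | ⟨i', hi', h⟩ | ⟨i', i'', h, h'⟩)
      · exact Or.inl ⟨i, by simp, rfl, rfl⟩
      · cases l with
        | nil => simp [expand] at h
        | cons j l =>
          rw [expand_cons, List.cons_prefix_cons] at h
          obtain ⟨rfl, -⟩ := h
          refine Or.inr ⟨i, j, ⟨[], l, by simp⟩, rfl, rfl⟩
      · exact Or.inl ⟨i', by simp [hi'], h⟩
      · exact Or.inr ⟨i', i'', h.trans (List.infix_cons List.infix_rfl), h'⟩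
    · rintro (⟨i', hi', h1, h2⟩ | ⟨i', i'', h, h1, h2⟩)
      · rw [List.mem_cons] at hi'
        rcases hi' with rfl | hi'
        · exact Or.inl ⟨h1, h2, by simp⟩
        · exact Or.inr (Or.inr (Or.inl ⟨i', hi', h1, h2⟩))
      · rw [List.infix_cons_iff, List.cons_prefix_cons] at h
        rcases h with ⟨rfl, h⟩ | h
        · cases l with
          | nil => simp at h
          | cons j l =>
            rw [List.cons_prefix_cons] at h
            obtain ⟨rfl, -⟩ := h
            refine Or.inr (Or.inl ⟨h1, ?_⟩)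
            rw [expand_cons, List.cons_prefix_cons]
            exact ⟨h2, by simp⟩
        · exact Or.inr (Or.inr (Or.inr ⟨i', i'', h, h1, h2⟩))

lemma expand_chain (m : ℕ) {N : ℕ} (μ : Fin N → Fin N) (R : Fin N → Fin N → Prop)
    (l : List (Fin N)) (h1 : ∀ i ∈ l, Adj (yy m i) (zz m (μ i)))
    (h2 : ∀ i i', R i i' → Adj (zz m (μ i)) (yy m i')) (h3 : l.IsChain R) :
    (expand m μ l).IsChain Adj := by
  induction l with
  | nil => simp [expand]
  | cons i l ih =>
    rw [expand_cons, List.isChain_cons_cons]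
    refine ⟨h1 i (by simp), ?_⟩
    cases l with
    | nil => simp [expand]
    | cons j l =>
      rw [List.isChain_cons_cons] at h3
      have ih' := ih (fun i hi => h1 i (by simp [hi])) h3.2
      rw [expand_cons] at ih' ⊢
      rw [List.isChain_cons_cons]
      exact ⟨h2 i j h3.1, ih'⟩

theorem components {m N T : ℕ} {M1 M2 : Finset (Fin N × Fin N)} (hm : Even m)
    (h : FP m N T M1 M2) : Components m N T M1 M2 := by
  classical
  obtain ⟨m', hm'⟩ := hm
  have hy_odd : ∀ i, Odd (yy m i) := fun i => ⟨m' + i, by unfold yy; omega⟩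
  have hz_even : ∀ i, Even (zz m i) := fun i => ⟨m' + 1 + i, by unfold zz; omega⟩
  have hyz : ∀ i j, yy m i ≠ zz m j := fun i j => by unfold yy zz; omega
  have hy_inj : ∀ i j : Fin N, yy m i = yy m j → i = j := fun i j hij => by
    unfold yy at hij; exact Fin.ext (by omega)
  have hz_inj : ∀ i j : Fin N, zz m i = zz m j → i = j := fun i j hij => by
    unfold zz at hij; exact Fin.ext (by omega)
  set D : Finset (Fin N) := M1.image Prod.fst with hD
  set D' : Finset (Fin N) := M1.image Prod.snd with hD'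
  have hDcard : D.card = M1.card := by
    rw [hD]
    refine card_image_of_injOn ?_
    intro x hx y hy hxy
    exact h.m1 x hx y hy (Or.inl hxy)
  have hD'card : D'.card = M1.card := by
    rw [hD']
    refine card_image_of_injOn ?_
    intro x hx y hy hxy
    exact h.m1 x hx y hy (Or.inr hxy)
  have hmem : ∀ i, i ∈ D ↔ ∃ j, (i, j) ∈ M1 := by
    intro i
    rw [hD, mem_image]
    constructor
    · rintro ⟨⟨i', j⟩, hx, rfl⟩
      exact ⟨j, hx⟩
    · rintro ⟨j, hj⟩
      exact ⟨_, hj, rfl⟩
  have hmem' : ∀ j, j ∈ D' ↔ ∃ i, (i, j) ∈ M1 := by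
    intro j
    rw [hD', mem_image]
    constructor
    · rintro ⟨⟨i, j'⟩, hx, rfl⟩
      exact ⟨i, hx⟩
    · rintro ⟨i, hi⟩
      exact ⟨_, hi, rfl⟩
  -- the partner
  obtain ⟨μ, hμ⟩ : ∃ μ : Fin N → Fin N, ∀ i ∈ D, (i, μ i) ∈ M1 := by
    have : ∀ i, ∃ j, i ∈ D → (i, j) ∈ M1 := by
      intro i
      by_cases hi : i ∈ D
      · obtain ⟨j, hj⟩ := (hmem i).1 hi
        exact ⟨j, fun _ => hj⟩
      · exact ⟨i, fun h => absurd h hi⟩
    choose μ hμ using this
    exact ⟨μ, hμ⟩
  have hμ_eq : ∀ i j, (i, j) ∈ M1 → μ i = j := by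
    intro i j hij
    have h1 := hμ i ((hmem i).2 ⟨j, hij⟩)
    have h2 := h.m1 _ h1 _ hij (Or.inl rfl)
    exact (Prod.mk.injEq _ _ _ _ ▸ h2).2
  -- the composite relation
  have hcomp : ∀ i i', (i, i') ∈ comp M1 M2 ↔ ∃ j, (i, j) ∈ M1 ∧ (i', j) ∈ M2 := by
    intro i i'
    unfold comp
    rw [mem_filter]
    simp
  have hcomp2 : ∀ i i', (i, i') ∈ comp M1 M2 ↔ i ∈ D ∧ (i', μ i) ∈ M2 := by
    intro i i'
    rw [hcomp]
    constructor
    · rintro ⟨j, h1, h2⟩
      rw [hμ_eq i j h1]
      exact ⟨(hmem i).2 ⟨j, h1⟩, h2⟩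
    · rintro ⟨h1, h2⟩
      exact ⟨μ i, hμ i h1, h2⟩
  have hE : comp M1 M2 ⊆ D ×ˢ D := by
    rintro ⟨i, i'⟩ hi
    rw [hcomp2] at hi
    rw [mem_product]
    refine ⟨hi.1, (hmem i').2 ?_⟩
    exact h.c1 _ hi.2
  have hP : PInj (comp M1 M2) := by
    constructor
    · intro i i' i'' h1 h2
      rw [hcomp2] at h1 h2
      have := h.m2 _ h1.2 _ h2.2 (Or.inr rfl)
      exact (Prod.mk.injEq _ _ _ _ ▸ this).1
    · intro i i' i'' h1 h2
      rw [hcomp2] at h1 h2
      have h3 := h.m2 _ h1.2 _ h2.2 (Or.inl rfl)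
      have h4 : μ i = μ i' := (Prod.mk.injEq _ _ _ _ ▸ h3).2
      have h5 := hμ i h1.1
      have h6 := hμ i' h2.1
      rw [h4] at h5
      have := h.m1 _ h5 _ h6 (Or.inr rfl)
      exact (Prod.mk.injEq _ _ _ _ ▸ this).1
  have hEcard : (comp M1 M2).card = M2.card := by
    refine card_nbij (fun x => (x.2, μ x.1)) ?_ ?_ ?_
    · rintro ⟨i, i'⟩ hi
      exact ((hcomp2 i i').1 hi).2
    · rintro ⟨i, i'⟩ hi ⟨k, k'⟩ hk heq
      simp only [Prod.mk.injEq] at heq
      obtain ⟨h1, h2⟩ := heq
      subst h1
      have h5 := hμ i ((hcomp2 i i').1 hi).1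
      have h6 := hμ k ((hcomp2 k i').1 hk).1
      rw [h2] at h5
      have := h.m1 _ h5 _ h6 (Or.inr rfl)
      have h7 : i = k := (Prod.mk.injEq _ _ _ _ ▸ this).1
      rw [h7]
    · rintro ⟨i', j⟩ hx
      obtain ⟨i, hi⟩ := h.c2 _ (mem_coe.1 hx)
      refine ⟨(i, i'), ?_, ?_⟩
      · rw [mem_coe, hcomp]
        exact ⟨j, hi, hx⟩
      · simp only [Prod.mk.injEq, true_and]
        exact hμ_eq i j hi
  obtain ⟨L₀, k1, k2, k3, k4, k5, k6⟩ := chains D.card D (comp M1 M2) rfl hE hP h.ac
  refine ⟨L₀.map (expand m μ), (univ \ D).toList.map (fun i : Fin N => yy m (i : ℕ)),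
    (univ \ D').toList.map (fun i : Fin N => zz m (i : ℕ)), ?_, ?_, ?_, ?_, ?_, ?_, ?_, ?_⟩
  · -- permutation
    refine List.Perm.symm ?_
    have hsub : (List.range' (m + 1) (2 * N)) ⊆ ((L₀.map (expand m μ)).flatten ++
        (univ \ D).toList.map (fun i : Fin N => yy m (i : ℕ)) ++ (univ \ D').toList.map (fun i : Fin N => zz m (i : ℕ))) := by
      intro x hx
      rw [List.mem_range'_1] at hx
      rw [List.mem_append, List.mem_append]
      have hin : ∀ i ∈ D, ∀ x, (x = yy m i ∨ x = zz m (μ i)) →
          x ∈ (L₀.map (expand m μ)).flatten := by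
        intro i hi x hx
        obtain ⟨l, hl, hil⟩ := List.mem_flatten.1 ((k2 i).2 hi)
        refine List.mem_flatten.2 ⟨expand m μ l, List.mem_map.2 ⟨l, hl, rfl⟩, ?_⟩
        unfold expand
        rw [List.mem_flatMap]
        refine ⟨i, hil, ?_⟩
        simp only [List.mem_cons, List.not_mem_nil, or_false]
        exact hx
      rcases Nat.even_or_odd (x - (m + 1)) with ⟨r, hr⟩ | ⟨r, hr⟩
      · have hrN : r < N := by omega
        have hxr : x = yy m (⟨r, hrN⟩ : Fin N) := by unfold yy; simp only; omega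
        by_cases hi : (⟨r, hrN⟩ : Fin N) ∈ D
        · exact Or.inl (Or.inl (hin _ hi x (Or.inl hxr)))
        · refine Or.inl (Or.inr (List.mem_map.2 ⟨⟨r, hrN⟩, ?_, hxr.symm⟩))
          rw [mem_toList, mem_sdiff]
          exact ⟨mem_univ _, hi⟩
      · have hrN : r < N := by omega
        have hxr : x = zz m (⟨r, hrN⟩ : Fin N) := by unfold zz; simp only; omega
        by_cases hj : (⟨r, hrN⟩ : Fin N) ∈ D'
        · obtain ⟨i, hi⟩ := (hmem' _).1 hj
          refine Or.inl (Or.inl (hin i ((hmem i).2 ⟨_, hi⟩) x (Or.inr ?_)))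
          rw [hμ_eq i _ hi]; exact hxr
        · refine Or.inr (List.mem_map.2 ⟨⟨r, hrN⟩, ?_, hxr.symm⟩)
          rw [mem_toList, mem_sdiff]
          exact ⟨mem_univ _, hj⟩
    refine (List.subperm_of_subset List.nodup_range' hsub).perm_of_length_le ?_
    have hlen1 : (L₀.map (expand m μ)).flatten.length = 2 * D.card := by
      have e1 : L₀.flatten.length = D.card := by
        have : L₀.flatten.toFinset = D := by
          ext x; rw [List.mem_toFinset, k2]
        rw [← this, List.toFinset_card_of_nodup k1]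
      rw [← e1, List.length_flatten, List.length_flatten, List.map_map]
      have e2 : (List.length ∘ expand m μ) = fun l : List (Fin N) => 2 * l.length := by
        funext l; exact expand_length m μ l
      rw [e2, List.sum_map_mul_left]
    rw [List.length_append, List.length_append, hlen1, List.length_map, List.length_map,
      length_toList, length_toList, card_sdiff_of_subset (subset_univ _),
      card_sdiff_of_subset (subset_univ _), card_univ, Fintype.card_fin, List.length_range',
      hDcard, hD'card]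
    have : M1.card ≤ N := by
      rw [← hDcard]
      have := card_le_univ D
      rwa [Fintype.card_fin] at this
    omega
  · intro l hl
    obtain ⟨l₀, hl₀, rfl⟩ := List.mem_map.1 hl
    have hl₀D : ∀ i ∈ l₀, i ∈ D := fun i hi => (k2 i).1 (List.mem_flatten.2 ⟨l₀, hl₀, hi⟩)
    refine ⟨?_, ?_, ?_, ?_⟩
    · have h1 := k3 l₀ hl₀
      cases l₀ with
      | nil => exact absurd rfl h1
      | cons i l => rw [expand_cons]; simp
    · refine expand_chain m μ (fun a b => (a, b) ∈ comp M1 M2) l₀ ?_ ?_ (k4 l₀ hl₀)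
      · intro i hi
        exact h.p1 _ (hμ i (hl₀D i hi))
      · intro i i' hii'
        exact Adj.symm (h.p2 _ ((hcomp2 i i').1 hii').2)
    · intro x hx
      cases l₀ with
      | nil => simp [expand] at hx
      | cons i l =>
        rw [expand_cons, List.head?_cons, Option.some.injEq] at hx
        rw [← hx]; exact hy_odd _
    · intro x hx
      obtain ⟨i, -, rfl⟩ := expand_last m μ l₀ x hx
      exact hz_even _
  · intro x hx
    obtain ⟨i, -, rfl⟩ := List.mem_map.1 hx
    exact hy_odd _
  · intro x hx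
    obtain ⟨i, -, rfl⟩ := List.mem_map.1 hx
    exact hz_even _
  · rw [List.length_map, List.length_map, length_toList, length_toList,
      card_sdiff_of_subset (subset_univ _), card_sdiff_of_subset (subset_univ _), hDcard, hD'card]
  · rw [List.length_map, List.length_map, length_toList,
      card_sdiff_of_subset (subset_univ _), card_univ, Fintype.card_fin]
    have h1 := h.card
    have : D.card ≤ N := by
      have := card_le_univ D
      rwa [Fintype.card_fin] at this
    omega
  · intro i j
    constructor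
    · intro hij
      have hi := (hmem i).2 ⟨j, hij⟩
      obtain ⟨l, hl, hil⟩ := List.mem_flatten.1 ((k2 i).2 hi)
      refine ⟨expand m μ l, List.mem_map.2 ⟨l, hl, rfl⟩, ?_⟩
      rw [expand_infix]
      exact Or.inl ⟨i, hil, rfl, by rw [hμ_eq i j hij]⟩
    · rintro ⟨l, hl, hinf⟩
      obtain ⟨l₀, hl₀, rfl⟩ := List.mem_map.1 hl
      rw [expand_infix] at hinf
      rcases hinf with ⟨i', hi', h1, h2⟩ | ⟨i', i'', -, h1, h2⟩
      · rw [hy_inj i i' h1, hz_inj j (μ i') h2]
        exact hμ i' ((k2 i').1 (List.mem_flatten.2 ⟨l₀, hl₀, hi'⟩))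
      · exact absurd h1 (hyz _ _)
  · intro i j
    constructor
    · intro hij
      obtain ⟨i₀, hi₀⟩ := h.c2 _ hij
      have hi₀' : (i₀, i) ∈ comp M1 M2 := (hcomp _ _).2 ⟨j, hi₀, hij⟩
      obtain ⟨l, hl, hinf⟩ := k6 i₀ i hi₀'
      refine ⟨expand m μ l, List.mem_map.2 ⟨l, hl, rfl⟩, ?_⟩
      rw [expand_infix]
      exact Or.inr ⟨i₀, i, hinf, by rw [hμ_eq i₀ j hi₀], rfl⟩
    · rintro ⟨l, hl, hinf⟩
      obtain ⟨l₀, hl₀, rfl⟩ := List.mem_map.1 hl
      rw [expand_infix] at hinf
      rcases hinf with ⟨i', hi', h1, h2⟩ | ⟨i', i'', h0, h1, h2⟩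
      · exact absurd h1.symm (hyz _ _)
      · rw [hy_inj i i'' h2, hz_inj j (μ i') h1]
        obtain ⟨s, t, hst⟩ := h0
        have h5 := k4 l₀ hl₀
        rw [← hst, List.append_assoc, List.isChain_append] at h5
        have h6 := h5.2.1
        rw [List.cons_append, List.cons_append, List.isChain_cons_cons] at h6
        exact ((hcomp2 _ _).1 h6.1).2

end components

end Pool.Agent.Work.MP_713a1e_co.T3
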