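import Mathlib
import Pool.Agent.Work.MP_713a1e_co.T3Forest

/-! Pairs of nearly perfect matchings with many cycles have small weight. -/

namespace Pool.Agent.Work.MP_713a1e_co.T3

open Finset

noncomputable section

open Classical in
/-- nearly perfect matchings -/
def MB (N k : ℕ) : Finset (Finset (Fin N × Fin N)) := (range (k + 1)).biUnion (fun r => MMr N r)

lemma mem_MMr {N r : ℕ} {M : Finset (Fin N × Fin N)} : M ∈ MMr N r ↔ IsM M ∧ M.card + r = N := by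
  classical
  unfold MMr
  rw [mem_filter, mem_powerset]
  exact ⟨fun h => h.2, fun h => ⟨subset_univ _, h⟩⟩

lemma mem_MB {N k : ℕ} {M : Finset (Fin N × Fin N)} :
    M ∈ MB N k ↔ IsM M ∧ ∃ r ≤ k, M.card + r = N := by
  classical
  unfold MB
  rw [mem_biUnion]
  constructor
  · rintro ⟨r, hr, hM⟩
    rw [mem_MMr] at hM
    exact ⟨hM.1, r, by rw [mem_range] at hr; omega, hM.2⟩
  · rintro ⟨h1, r, hr, h2⟩
    exact ⟨r, mem_range.2 (by omega), mem_MMr.2 ⟨h1, h2⟩⟩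

lemma sum_biUnion_MMr {N : ℕ} (I : Finset ℕ) (f : Finset (Fin N × Fin N) → ℝ)
    [DecidableEq (Finset (Fin N × Fin N))] :
    ∑ M ∈ I.biUnion (fun r => MMr N r), f M = ∑ r ∈ I, ∑ M ∈ MMr N r, f M := by
  rw [sum_biUnion]
  intro r _ r' _ hrr
  rw [Function.onFun, disjoint_left]
  intro M hM hM'
  rw [mem_MMr] at hM hM'
  omega

lemma IsM.mono {N : ℕ} {M M' : Finset (Fin N × Fin N)} (h : IsM M) (h' : M' ⊆ M) : IsM M' :=
  fun x hx y hy hxy => h x (h' hx) y (h' hy) hxy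

lemma mem_comp {N : ℕ} {M1 M2 : Finset (Fin N × Fin N)} {a b : Fin N} :
    (a, b) ∈ comp M1 M2 ↔ ∃ j, (a, j) ∈ M1 ∧ (b, j) ∈ M2 := by
  unfold comp
  rw [mem_filter]
  simp

lemma IsM.eq1 {N : ℕ} {M : Finset (Fin N × Fin N)} (h : IsM M) {a b j : Fin N}
    (h1 : (a, j) ∈ M) (h2 : (b, j) ∈ M) : a = b := by
  have := h _ h1 _ h2 (Or.inr rfl)
  exact (Prod.mk.injEq _ _ _ _ ▸ this).1

lemma IsM.eq2 {N : ℕ} {M : Finset (Fin N × Fin N)} (h : IsM M) {a j j' : Fin N}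
    (h1 : (a, j) ∈ M) (h2 : (a, j') ∈ M) : j = j' := by
  have := h _ h1 _ h2 (Or.inl rfl)
  exact (Prod.mk.injEq _ _ _ _ ▸ this).2

lemma comp_pinj {N : ℕ} {M1 M2 : Finset (Fin N × Fin N)} (h1 : IsM M1) (h2 : IsM M2) :
    PInj (comp M1 M2) := by
  constructor
  · intro a b c hab hac
    rw [mem_comp] at hab hac
    obtain ⟨j, hj1, hj2⟩ := hab
    obtain ⟨j', hj1', hj2'⟩ := hac
    have := h1.eq2 hj1 hj1'
    subst this
    exact h2.eq1 hj2 hj2'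
  · intro a b c hac hbc
    rw [mem_comp] at hac hbc
    obtain ⟨j, hj1, hj2⟩ := hac
    obtain ⟨j', hj1', hj2'⟩ := hbc
    have := h2.eq2 hj2 hj2'
    subst this
    exact h1.eq1 hj1 hj1'

/-- the bad relation: `s + 1` edges each closing a cycle -/
def BadR {N : ℕ} (s : ℕ) (M1 M2 R : Finset (Fin N × Fin N)) : Prop :=
  R ⊆ comp M1 M2 ∧ R.card = s + 1 ∧
    ∀ x ∈ R, Relation.ReflTransGen (fun a b => (a, b) ∈ comp M1 M2 \ R) x.2 x.1

/-- the even vertices of the removed edges -/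
def JJ {N : ℕ} (M1 M2 R : Finset (Fin N × Fin N)) : Finset (Fin N) :=
  univ.filter (fun j => ∃ x ∈ R, (x.1, j) ∈ M1 ∧ (x.2, j) ∈ M2)

lemma mem_JJ {N : ℕ} {M1 M2 R : Finset (Fin N × Fin N)} {j : Fin N} :
    j ∈ JJ M1 M2 R ↔ ∃ x ∈ R, (x.1, j) ∈ M1 ∧ (x.2, j) ∈ M2 := by
  unfold JJ
  rw [mem_filter]
  simp

/-- the remaining matching -/
def M2p {N : ℕ} (M2 : Finset (Fin N × Fin N)) (J : Finset (Fin N)) : Finset (Fin N × Fin N) :=
  M2.filter (fun y => y.2 ∉ J)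

lemma card_JJ {N s : ℕ} {M1 M2 R : Finset (Fin N × Fin N)} (h1 : IsM M1) (h2 : IsM M2)
    (hR : BadR s M1 M2 R) : (JJ M1 M2 R).card = s + 1 := by
  classical
  rw [← hR.2.1]
  symm
  have hex : ∀ x ∈ R, ∃ j, (x.1, j) ∈ M1 ∧ (x.2, j) ∈ M2 := by
    rintro ⟨a, b⟩ hx
    exact mem_comp.1 (hR.1 hx)
  obtain ⟨f, hf1, hf2⟩ : ∃ f : Fin N × Fin N → Fin N, (∀ x ∈ R, (x.1, f x) ∈ M1) ∧
      (∀ x ∈ R, (x.2, f x) ∈ M2) := by
    refine ⟨fun x => if h : x ∈ R then Classical.choose (hex x h) else x.1, ?_, ?_⟩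
    · intro x hx
      simp only [dif_pos hx]
      exact (Classical.choose_spec (hex x hx)).1
    · intro x hx
      simp only [dif_pos hx]
      exact (Classical.choose_spec (hex x hx)).2
  refine card_nbij f ?_ ?_ ?_
  · intro x hx
    exact mem_JJ.2 ⟨x, hx, hf1 x hx, hf2 x hx⟩
  · intro x hx y hy hxy
    have e1 := hf1 x hx
    have e2 := hf2 x hx
    rw [hxy] at e1 e2
    exact Prod.ext (h1.eq1 e1 (hf1 y hy)) (h2.eq1 e2 (hf2 y hy))
  · intro j hj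
    obtain ⟨x, hx, hx1, hx2⟩ := mem_JJ.1 (mem_coe.1 hj)
    refine ⟨x, hx, ?_⟩
    exact h1.eq2 (hf1 x hx) hx1

lemma card_M2p {N s : ℕ} {M1 M2 R : Finset (Fin N × Fin N)} (h1 : IsM M1) (h2 : IsM M2)
    (hR : BadR s M1 M2 R) : (M2p M2 (JJ M1 M2 R)).card + (s + 1) = M2.card := by
  classical
  have e1 : (M2.filter (fun y => y.2 ∈ JJ M1 M2 R)).card = s + 1 := by
    rw [← card_JJ h1 h2 hR]
    refine card_nbij Prod.snd ?_ ?_ ?_
    · intro y hy
      exact (mem_filter.1 hy).2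
    · intro x hx y hy hxy
      exact h2 x (mem_filter.1 hx).1 y (mem_filter.1 hy).1 (Or.inr hxy)
    · intro j hj
      obtain ⟨x, hx, hx1, hx2⟩ := mem_JJ.1 (mem_coe.1 hj)
      exact ⟨(x.2, j), by rw [mem_coe, mem_filter]; exact ⟨hx2, mem_coe.1 hj⟩, rfl⟩
  have e2 := card_filter_add_card_filter_not (s := M2) (fun y => y.2 ∈ JJ M1 M2 R)
  unfold M2p
  omega

lemma comp_M2p {N : ℕ} {M1 M2 R : Finset (Fin N × Fin N)} (h1 : IsM M1) (h2 : IsM M2) : comp M1 (M2p M2 (JJ M1 M2 R)) = comp M1 M2 \ R := by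
  classical
  ext ⟨a, b⟩
  rw [mem_sdiff, mem_comp, mem_comp]
  unfold M2p
  constructor
  · rintro ⟨j, hj1, hj2⟩
    rw [mem_filter] at hj2
    exact ⟨⟨j, hj1, hj2.1⟩, fun hab => hj2.2 (mem_JJ.2 ⟨_, hab, hj1, hj2.1⟩)⟩
  · rintro ⟨⟨j, hj1, hj2⟩, hab⟩
    refine ⟨j, hj1, mem_filter.2 ⟨hj2, fun hj => ?_⟩⟩
    obtain ⟨x, hx, hx1, hx2⟩ := mem_JJ.1 hj
    have e1 := h1.eq1 hx1 hj1
    have e2 := h2.eq1 hx2 hj2
    have : x = (a, b) := Prod.ext e1 e2
    exact hab (this ▸ hx)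

/-- the data `(M1, M2', J)` determine `M2` -/
lemma bad_inj {N s : ℕ} {M1 M2 N2 R R₂ : Finset (Fin N × Fin N)} (h1 : IsM M1) (h2 : IsM M2)
    (h2' : IsM N2) (hR : BadR s M1 M2 R) (hR₂ : BadR s M1 N2 R₂)
    (hJ : JJ M1 M2 R = JJ M1 N2 R₂)
    (hM : M2p M2 (JJ M1 M2 R) = M2p N2 (JJ M1 N2 R₂)) : M2 ⊆ N2 := by
  classical
  rintro ⟨b, j⟩ hbj
  by_cases hj : j ∈ JJ M1 M2 R
  · obtain ⟨⟨a, b'⟩, hx, hx1, hx2⟩ := mem_JJ.1 hj
    simp only at hx1 hx2
    have hb' : b' = b := h2.eq1 hx2 hbj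
    subst hb'
    obtain ⟨⟨a₂, b₂⟩, hy, hy1, hy2⟩ := mem_JJ.1 (hJ ▸ hj)
    simp only at hy1 hy2
    have ha : a₂ = a := h1.eq1 hy1 hx1
    subst ha
    have hE := comp_M2p (R := R) h1 h2
    have hE₂ := comp_M2p (R := R₂) h1 h2'
    have hEE : comp M1 M2 \ R = comp M1 N2 \ R₂ := by rw [← hE, ← hE₂, hM]
    have hP : PInj (comp M1 M2 \ R) := (comp_pinj h1 h2).mono sdiff_subset
    have hsrc : ∀ c, (c, b') ∉ comp M1 M2 \ R := by
      intro c hc
      rw [mem_sdiff] at hc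
      have := (comp_pinj h1 h2).2 c a₂ b' hc.1 (hR.1 hx)
      subst this
      exact hc.2 hx
    have hsrc₂ : ∀ c, (c, b₂) ∉ comp M1 M2 \ R := by
      intro c hc
      rw [hEE, mem_sdiff] at hc
      have := (comp_pinj h1 h2').2 c a₂ b₂ hc.1 (hR₂.1 hy)
      subst this
      exact hc.2 hy
    have hr1 := hR.2.2 _ hx
    have hr2 := hR₂.2.2 _ hy
    rw [← hEE] at hr2
    have := source_unique (comp M1 M2 \ R) hP a₂ b' b₂ hsrc hsrc₂ hr1 hr2
    rw [this]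
    exact hy2
  · have e1 : (b, j) ∈ M2p M2 (JJ M1 M2 R) := by
      unfold M2p
      rw [mem_filter]
      exact ⟨hbj, hj⟩
    rw [hM] at e1
    unfold M2p at e1
    exact (mem_filter.1 e1).1

lemma wt_nonneg {N : ℕ} {w : Matrix (Fin N) (Fin N) ℝ} (h : ∀ i j, 0 ≤ w i j)
    (M : Finset (Fin N × Fin N)) : 0 ≤ wt w M := prod_nonneg fun _ _ => h _ _

lemma wt_le_pow {N : ℕ} {w : Matrix (Fin N) (Fin N) ℝ} {ω : ℝ} (h : ∀ i j, 0 ≤ w i j)
    (h' : ∀ i j, w i j ≤ ω) (M : Finset (Fin N × Fin N)) : wt w M ≤ ω ^ M.card := by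
  unfold wt
  rw [← prod_const]
  exact prod_le_prod (fun _ _ => h _ _) fun _ _ => h' _ _

/-- the pair has many cycles -/
def Bad {N : ℕ} (s : ℕ) (x : Finset (Fin N × Fin N) × Finset (Fin N × Fin N)) : Prop :=
  ∃ R, BadR s x.1 x.2 R

open Classical in
/-- **Total weight of the pairs with many cycles.** -/
theorem bad_weight {N k s : ℕ} (w : Matrix (Fin N) (Fin N) ℝ) (ω : ℝ) (h0 : ∀ i j, 0 ≤ w i j)
    (hω : ∀ i j, w i j ≤ ω) (hω0 : 0 ≤ ω) :
    ∑ x ∈ (MB N k ×ˢ MB N k).filter (fun x => Bad s x), wt w x.1 * wt w x.2 ≤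
      (∑ M ∈ MB N k, wt w M) *
        ∑ r ∈ Icc (s + 1) (s + 1 + k), (2 : ℝ) ^ r * ω ^ (s + 1) * ∑ M ∈ MMr N r, wt w M := by
  set B := (MB N k ×ˢ MB N k).filter (fun x => Bad s x) with hB
  have hex : ∀ x ∈ B, ∃ R, BadR s x.1 x.2 R := fun x hx => (mem_filter.1 hx).2
  choose! Rf hRf using hex
  have hMs : ∀ x ∈ B, IsM x.1 ∧ IsM x.2 ∧ x.1 ∈ MB N k ∧ x.2 ∈ MB N k := by
    intro x hx
    have h1 := mem_product.1 (mem_filter.1 hx).1
    exact ⟨(mem_MB.1 h1.1).1, (mem_MB.1 h1.2).1, h1.1, h1.2⟩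
  set Φ : Finset (Fin N × Fin N) × Finset (Fin N × Fin N) →
      Finset (Fin N × Fin N) × (Finset (Fin N × Fin N) × Finset (Fin N)) :=
    fun x => (x.1, M2p x.2 (JJ x.1 x.2 (Rf x)), JJ x.1 x.2 (Rf x)) with hΦ
  set g : Finset (Fin N × Fin N) × (Finset (Fin N × Fin N) × Finset (Fin N)) → ℝ :=
    fun y => wt w y.1 * (wt w y.2.1 * ω ^ (s + 1)) with hg
  have hg0 : ∀ y, 0 ≤ g y := fun y => by
    simp only [hg]
    exact mul_nonneg (wt_nonneg h0 _) (mul_nonneg (wt_nonneg h0 _) (by positivity))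
  -- the set of triples
  set V : Finset (Finset (Fin N × Fin N)) :=
    (Icc (s + 1) (s + 1 + k)).biUnion (fun r => MMr N r) with hV
  set T : Finset (Finset (Fin N × Fin N) × (Finset (Fin N × Fin N) × Finset (Fin N))) :=
    MB N k ×ˢ (V.biUnion (fun M => ((univ \ M.image Prod.snd).powerset).image
      (fun J => (M, J)))) with hT
  have h1 : ∑ x ∈ B, wt w x.1 * wt w x.2 ≤ ∑ x ∈ B, g (Φ x) := by
    refine sum_le_sum fun x hx => ?_
    simp only [hg, hΦ]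
    obtain ⟨m1, m2, -, -⟩ := hMs x hx
    refine mul_le_mul_of_nonneg_left ?_ (wt_nonneg h0 _)
    have e1 : wt w x.2 = wt w (M2p x.2 (JJ x.1 x.2 (Rf x))) *
        wt w (x.2.filter (fun y => ¬ y.2 ∉ JJ x.1 x.2 (Rf x))) := by
      unfold wt M2p
      rw [prod_filter_mul_prod_filter_not]
    rw [e1]
    refine mul_le_mul_of_nonneg_left ?_ (wt_nonneg h0 _)
    refine (wt_le_pow h0 hω _).trans (le_of_eq ?_)
    congr 1
    have e2 := card_filter_add_card_filter_not (s := x.2) (fun y => y.2 ∉ JJ x.1 x.2 (Rf x))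
    have e3 := card_M2p m1 m2 (hRf x hx)
    unfold M2p at e3
    omega
  have hinj : Set.InjOn Φ (B : Set _) := by
    intro x hx y hy hxy
    simp only [hΦ, Prod.mk.injEq] at hxy
    obtain ⟨e1, e2, e3⟩ := hxy
    obtain ⟨m1, m2, -, -⟩ := hMs x hx
    obtain ⟨m1', m2', -, -⟩ := hMs y hy
    have hRx := hRf x hx
    have hRy := hRf y hy
    rw [← e1] at hRy e2 e3
    have s1 := bad_inj m1 m2 m2' hRx hRy e3 e2
    have s2 := bad_inj m1 m2' m2 hRy hRx e3.symm e2.symm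
    exact Prod.ext e1 (Subset.antisymm s1 s2)
  have h2 : ∑ x ∈ B, g (Φ x) = ∑ y ∈ B.image Φ, g y := (sum_image hinj).symm
  have hsub : B.image Φ ⊆ T := by
    intro y hy
    obtain ⟨x, hx, rfl⟩ := mem_image.1 hy
    obtain ⟨m1, m2, m3, m4⟩ := hMs x hx
    rw [hT, mem_product, mem_biUnion]
    refine ⟨m3, M2p x.2 (JJ x.1 x.2 (Rf x)), ?_, ?_⟩
    · rw [hV, mem_biUnion]
      obtain ⟨-, r, hr, hrc⟩ := mem_MB.1 m4
      have e3 := card_M2p m1 m2 (hRf x hx)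
      refine ⟨r + (s + 1), mem_Icc.2 ⟨by omega, by omega⟩, mem_MMr.2 ⟨m2.mono (filter_subset _ _),
        by omega⟩⟩
    · rw [mem_image]
      refine ⟨JJ x.1 x.2 (Rf x), ?_, rfl⟩
      rw [mem_powerset]
      intro j hj
      rw [mem_sdiff, mem_image]
      refine ⟨mem_univ _, ?_⟩
      rintro ⟨y, hy, rfl⟩
      exact (mem_filter.1 hy).2 hj
  have h3 : ∑ y ∈ B.image Φ, g y ≤ ∑ y ∈ T, g y :=
    sum_le_sum_of_subset_of_nonneg hsub fun y _ _ => hg0 y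
  have h4 : ∑ y ∈ T, g y = (∑ M ∈ MB N k, wt w M) *
      ∑ z ∈ V.biUnion (fun M => ((univ \ M.image Prod.snd).powerset).image
        (fun J => (M, J))), wt w z.1 * ω ^ (s + 1) := by
    rw [hT, sum_product, sum_mul]
    refine sum_congr rfl fun M _ => ?_
    rw [mul_sum]
  have h5 : ∑ z ∈ V.biUnion (fun M => ((univ \ M.image Prod.snd).powerset).image
        (fun J => (M, J))), wt w z.1 * ω ^ (s + 1) ≤
      ∑ M ∈ V, (2 : ℝ) ^ (N - M.card) * (wt w M * ω ^ (s + 1)) := by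
    rw [sum_biUnion]
    · refine sum_le_sum fun M hM => ?_
      rw [sum_image (by
        intro J _ J' _ hJ
        simpa using hJ)]
      simp only
      rw [sum_const, card_powerset, nsmul_eq_mul]
      have e1 : (univ \ M.image Prod.snd).card = N - M.card := by
        rw [card_sdiff_of_subset (subset_univ _), card_univ, Fintype.card_fin, card_image_of_injOn]
        rw [hV, mem_biUnion] at hM
        obtain ⟨r, -, hr⟩ := hM
        intro x hx y hy hxy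
        exact (mem_MMr.1 hr).1 x hx y hy (Or.inr hxy)
      rw [e1]
      push_cast
      exact le_rfl
    · intro M _ M' _ hMM
      rw [Function.onFun, disjoint_left]
      intro z hz hz'
      obtain ⟨J, -, rfl⟩ := mem_image.1 hz
      obtain ⟨J', -, hJ'⟩ := mem_image.1 hz'
      exact hMM (Prod.mk.injEq _ _ _ _ ▸ hJ').1.symm
  have h6 : ∑ M ∈ V, (2 : ℝ) ^ (N - M.card) * (wt w M * ω ^ (s + 1)) =
      ∑ r ∈ Icc (s + 1) (s + 1 + k), (2 : ℝ) ^ r * ω ^ (s + 1) * ∑ M ∈ MMr N r, wt w M := by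
    rw [hV, sum_biUnion_MMr]
    refine sum_congr rfl fun r _ => ?_
    rw [mul_sum]
    refine sum_congr rfl fun M hM => ?_
    rw [mem_MMr] at hM
    have : N - M.card = r := by omega
    rw [this]
    ring
  rw [h4] at h3
  refine h1.trans (h2.le.trans (h3.trans ?_))
  refine mul_le_mul_of_nonneg_left (h5.trans h6.le) ?_
  exact sum_nonneg fun M _ => wt_nonneg h0 M

end

end Pool.Agent.Work.MP_713a1e_co.T3
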