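import Mathlib
import Pool.Agent.Work.MP_713a1e_co.T3PairsA

/-! Counting linear forests from a weight system. -/

namespace Pool.Agent.Work.MP_713a1e_co.T3

open Finset Filter

noncomputable section

/-! ### the combinatorial lower bound -/

open Classical in
lemma card_small_subsets {α : Type*} [Fintype α] (t : ℕ) :
    ((univ : Finset (Finset α)).filter (fun Δ => Δ.card ≤ t)).card ≤ (Fintype.card α + 1) ^ t := by
  have h1 : (univ : Finset (Fin t → Option α)).card = (Fintype.card α + 1) ^ t := by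
    rw [card_univ, Fintype.card_fun, Fintype.card_option, Fintype.card_fin]
  rw [← h1]
  refine card_le_card_of_surjOn
    (fun f : Fin t → Option α => univ.filter (fun a : α => ∃ i, f i = some a)) ?_
  intro Δ hΔ
  rw [mem_coe, mem_filter] at hΔ
  refine ⟨fun i => if h : (i : ℕ) < Δ.card then some (Δ.equivFin.symm ⟨i, h⟩ : α) else none,
    mem_coe.2 (mem_univ _), ?_⟩
  ext a
  simp only [mem_filter, mem_univ, true_and]
  constructor
  · rintro ⟨i, hi⟩
    split_ifs at hi with h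
    · simp only [Option.some.injEq] at hi
      rw [← hi]
      exact (Δ.equivFin.symm ⟨i, h⟩).2
  · intro ha
    obtain ⟨r, hr⟩ : ∃ r, r = Δ.equivFin ⟨a, ha⟩ := ⟨_, rfl⟩
    refine ⟨⟨r, by omega⟩, ?_⟩
    have h2 : ((⟨(r : ℕ), by omega⟩ : Fin t) : ℕ) < Δ.card := r.2
    rw [dif_pos h2]
    simp only [Fin.eta]
    rw [hr, Equiv.symm_apply_apply]

/-- removal of few edges gives a forest -/
lemma exists_forest {m N k T : ℕ} {M1 M2 : Finset (Fin N × Fin N)} (h1 : M1 ∈ MB N k)
    (h2 : M2 ∈ MB N k) (hp1 : PrimeM m M1) (hp2 : PrimeM m M2) (hT : 5 * k ≤ T)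
    (hgood : ¬ Bad k (M1, M2)) :
    ∃ M2' ⊆ M2, (M2 \ M2').card ≤ 3 * k ∧ FP m N T M1 M2' := by
  classical
  obtain ⟨m1, r1, hr1, hc1⟩ := mem_MB.1 h1
  obtain ⟨m2, r2, hr2, hc2⟩ := mem_MB.1 h2
  rcases break_cycles (comp M1 M2) (comp_pinj m1 m2) k with ⟨R, hRE, hRc, hRA⟩ | ⟨R, hR⟩
  · set A1 := M1.image Prod.fst with hA1
    set A2 := M1.image Prod.snd with hA2
    have hA1c : A1.card = M1.card := card_image_of_injOn fun x hx y hy hxy =>
      m1 x hx y hy (Or.inl hxy)
    have hA2c : A2.card = M1.card := card_image_of_injOn fun x hx y hy hxy =>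
      m1 x hx y hy (Or.inr hxy)
    set M2' := M2.filter (fun y => y.1 ∉ R.image Prod.snd ∧ y.1 ∈ A1 ∧ y.2 ∈ A2) with hM2'
    have hsub : M2' ⊆ M2 := filter_subset _ _
    have hdiff : (M2 \ M2').card ≤ 3 * k := by
      have e1 : M2 \ M2' ⊆ M2.filter (fun y => y.1 ∈ R.image Prod.snd) ∪
          (M2.filter (fun y => y.1 ∈ univ \ A1) ∪ M2.filter (fun y => y.2 ∈ univ \ A2)) := by
        intro y hy
        rw [Finset.mem_sdiff, hM2', mem_filter] at hy
        rw [mem_union, mem_union, mem_filter, mem_filter, mem_filter]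
        by_contra hcon
        push Not at hcon
        refine hy.2 ⟨hy.1, hcon.1 hy.1, ?_, ?_⟩
        · by_contra h; exact hcon.2.1 hy.1 (Finset.mem_sdiff.2 ⟨mem_univ _, h⟩)
        · by_contra h; exact hcon.2.2 hy.1 (Finset.mem_sdiff.2 ⟨mem_univ _, h⟩)
      have e2 : (M2.filter (fun y => y.1 ∈ R.image Prod.snd)).card ≤ k := by
        have : (M2.filter (fun y => y.1 ∈ R.image Prod.snd)).card ≤ (R.image Prod.snd).card := by
          refine card_le_card_of_injOn Prod.fst (fun y hy => (mem_filter.1 (mem_coe.1 hy)).2) ?_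
          intro x hx y hy hxy
          exact m2 x (mem_filter.1 (mem_coe.1 hx)).1 y (mem_filter.1 (mem_coe.1 hy)).1
            (Or.inl hxy)
        exact this.trans (card_image_le.trans hRc)
      have e3 : (M2.filter (fun y => y.1 ∈ univ \ A1)).card ≤ k := by
        have : (M2.filter (fun y => y.1 ∈ univ \ A1)).card ≤ (univ \ A1).card := by
          refine card_le_card_of_injOn Prod.fst (fun y hy => (mem_filter.1 (mem_coe.1 hy)).2) ?_
          intro x hx y hy hxy
          exact m2 x (mem_filter.1 (mem_coe.1 hx)).1 y (mem_filter.1 (mem_coe.1 hy)).1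
            (Or.inl hxy)
        rw [card_sdiff_of_subset (subset_univ _), card_univ, Fintype.card_fin, hA1c] at this
        omega
      have e4 : (M2.filter (fun y => y.2 ∈ univ \ A2)).card ≤ k := by
        have : (M2.filter (fun y => y.2 ∈ univ \ A2)).card ≤ (univ \ A2).card := by
          refine card_le_card_of_injOn Prod.snd (fun y hy => (mem_filter.1 (mem_coe.1 hy)).2) ?_
          intro x hx y hy hxy
          exact m2 x (mem_filter.1 (mem_coe.1 hx)).1 y (mem_filter.1 (mem_coe.1 hy)).1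
            (Or.inr hxy)
        rw [card_sdiff_of_subset (subset_univ _), card_univ, Fintype.card_fin, hA2c] at this
        omega
      have e5 := card_le_card e1
      have e6 := card_union_le (M2.filter (fun y => y.1 ∈ R.image Prod.snd))
        (M2.filter (fun y => y.1 ∈ univ \ A1) ∪ M2.filter (fun y => y.2 ∈ univ \ A2))
      have e7 := card_union_le (M2.filter (fun y => y.1 ∈ univ \ A1))
        (M2.filter (fun y => y.2 ∈ univ \ A2))
      omega
    refine ⟨M2', hsub, hdiff, ⟨m1, m2.mono hsub, hp1, fun x hx => hp2 x (hsub hx), ?_, ?_, ?_, ?_⟩⟩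
    · intro x hx
      rw [hM2', mem_filter] at hx
      obtain ⟨⟨i, j⟩, hy, hyx⟩ := mem_image.1 hx.2.2.1
      exact ⟨j, by rw [← hyx]; exact hy⟩
    · intro x hx
      rw [hM2', mem_filter] at hx
      obtain ⟨⟨i, j⟩, hy, hyx⟩ := mem_image.1 hx.2.2.2
      exact ⟨i, by rw [← hyx]; exact hy⟩
    · refine hRA.mono ?_
      rintro ⟨a, b⟩ hab
      obtain ⟨j, hj1, hj2⟩ := mem_comp.1 hab
      rw [hM2', mem_filter] at hj2
      rw [Finset.mem_sdiff]
      refine ⟨mem_comp.2 ⟨j, hj1, hj2.1⟩, fun hR => hj2.2.1 (mem_image.2 ⟨_, hR, rfl⟩)⟩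
    · have e1 : (M2 \ M2').card + M2'.card = M2.card := card_sdiff_add_card_eq_card hsub
      omega
  · exact absurd ⟨R, hR⟩ hgood

open Classical in
/-- **Lower bound for the number of forests.** -/
theorem fp_lower {n m N k T : ℕ} (w : Matrix (Fin N) (Fin N) ℝ) (hw : WS n m N k w)
    (hT : 5 * k ≤ T) {ω : ℝ} (hω : ω = Real.log (2 * n) / (2 * N)) (hω0 : 0 < ω) (hω1 : ω ≤ 1)
    (hkN : 2 * k + 1 ≤ N)
    (hnum : ∑ r ∈ Icc (k + 1) (k + 1 + k), (2 : ℝ) ^ r * ω ^ (k + 1) *
      ((N.choose r : ℝ) / r.factorial * (Real.exp (-(N : ℝ)) * (2 * N) ^ r)) ≤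
      Real.exp (-(N : ℝ)) / 8) :
    3 / 16 * Real.exp (-(N : ℝ)) ^ 2 ≤ ω ^ (2 * (N - k)) * ((((N * N + 1) ^ (3 * k) : ℕ)) *
      (({M : Finset (Fin N × Fin N) × Finset (Fin N × Fin N) | FP m N T M.1 M.2} :
        Set _).ncard : ℝ)) := by
  obtain ⟨W, hW⟩ : ∃ W, W = ∑ M ∈ MB N k, wt w M := ⟨_, rfl⟩
  obtain ⟨E, hE⟩ : ∃ E, E = Real.exp (-(N : ℝ)) := ⟨_, rfl⟩
  have hE0 : 0 < E := by rw [hE]; exact Real.exp_pos _
  have hWE : E / 2 ≤ W := by
    have e1 : ∑ M ∈ MB N k, wt w M = ∑ r ∈ range (k + 1), ∑ M ∈ MMr N r, wt w M :=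
      sum_biUnion_MMr _ _
    rw [hW, e1, hE]
    exact hw.low
  have hW0 : 0 < W := by linarith
  have hmax : ∀ i j, w i j ≤ ω := by rw [hω]; exact hw.wmax
  -- bad pairs
  have hbad := bad_weight (k := k) (s := k) w ω hw.nonneg hmax hω0.le
  rw [← hW] at hbad
  have hbad2 : ∑ r ∈ Icc (k + 1) (k + 1 + k), (2 : ℝ) ^ r * ω ^ (k + 1) *
      ∑ M ∈ MMr N r, wt w M ≤ E / 8 := by
    rw [hE]
    refine le_trans (sum_le_sum fun r hr => ?_) hnum
    rw [mem_Icc] at hr
    exact mul_le_mul_of_nonneg_left (hw.up r (by omega)) (by positivity)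
  have hbad3 : ∑ x ∈ (MB N k ×ˢ MB N k).filter (fun x => Bad k x), wt w x.1 * wt w x.2 ≤
      W * W / 4 := by
    refine hbad.trans ?_
    have : W * ∑ r ∈ Icc (k + 1) (k + 1 + k), (2 : ℝ) ^ r * ω ^ (k + 1) *
        ∑ M ∈ MMr N r, wt w M ≤ W * (E / 8) := by gcongr
    nlinarith
  have htot : ∑ x ∈ MB N k ×ˢ MB N k, wt w x.1 * wt w x.2 = W * W := by
    rw [sum_product, hW, sum_mul_sum]
  have hsplit := sum_filter_add_sum_filter_not (MB N k ×ˢ MB N k) (fun x => Bad k x)
    (fun x => wt w x.1 * wt w x.2)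
  have hgood : 3 / 16 * E ^ 2 ≤ ∑ x ∈ (MB N k ×ˢ MB N k).filter (fun x => ¬ Bad k x),
      wt w x.1 * wt w x.2 := by
    nlinarith
  -- restrict to nonzero weight
  set G := ((MB N k ×ˢ MB N k).filter (fun x => ¬ Bad k x)).filter
    (fun x => wt w x.1 * wt w x.2 ≠ 0) with hG
  have hgood2 : ∑ x ∈ (MB N k ×ˢ MB N k).filter (fun x => ¬ Bad k x),
      wt w x.1 * wt w x.2 = ∑ x ∈ G, wt w x.1 * wt w x.2 := by
    rw [hG, sum_filter_ne_zero]
  have hterm : ∀ x ∈ G, wt w x.1 * wt w x.2 ≤ ω ^ (2 * (N - k)) := by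
    intro x hx
    rw [hG, mem_filter, mem_filter, mem_product] at hx
    obtain ⟨-, r1, hr1, hc1⟩ := mem_MB.1 hx.1.1.1
    obtain ⟨-, r2, hr2, hc2⟩ := mem_MB.1 hx.1.1.2
    have e1 : ∀ M : Finset (Fin N × Fin N), N - k ≤ M.card → wt w M ≤ ω ^ (N - k) := by
      intro M hM
      exact (wt_le_pow hw.nonneg hmax M).trans (pow_le_pow_of_le_one hω0.le hω1 hM)
    have e2 : ω ^ (2 * (N - k)) = ω ^ (N - k) * ω ^ (N - k) := by rw [← pow_add]; congr 1; ring
    rw [e2]
    exact mul_le_mul (e1 _ (by omega)) (e1 _ (by omega)) (wt_nonneg hw.nonneg _) (by positivity)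
  have hGcard : 3 / 16 * E ^ 2 ≤ ω ^ (2 * (N - k)) * (G.card : ℝ) := by
    rw [hgood2] at hgood
    refine hgood.trans ((sum_le_card_nsmul _ _ _ hterm).trans ?_)
    rw [nsmul_eq_mul, mul_comm]
  -- map to forests
  set F := (univ : Finset (Finset (Fin N × Fin N) × Finset (Fin N × Fin N))).filter
    (fun M => FP m N T M.1 M.2) with hF
  have hFcard : ({M : Finset (Fin N × Fin N) × Finset (Fin N × Fin N) | FP m N T M.1 M.2} :
        Set _).ncard = F.card := by
    rw [hF, ← Set.ncard_coe_finset]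
    congr 1
    ext M
    simp
  have hprime : ∀ M : Finset (Fin N × Fin N), wt w M ≠ 0 → PrimeM m M := by
    intro M hM x hx
    refine hw.prime _ _ fun h0 => hM ?_
    exact prod_eq_zero hx h0
  have hex : ∀ x ∈ G, ∃ M2' ⊆ x.2, (x.2 \ M2').card ≤ 3 * k ∧ FP m N T x.1 M2' := by
    intro x hx
    rw [hG, mem_filter, mem_filter, mem_product] at hx
    have e1 : wt w x.1 ≠ 0 := left_ne_zero_of_mul hx.2
    have e2 : wt w x.2 ≠ 0 := right_ne_zero_of_mul hx.2
    exact exists_forest hx.1.1.1 hx.1.1.2 (hprime _ e1) (hprime _ e2) hT hx.1.2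
  choose! Ψ hΨ1 hΨ2 hΨ3 using hex
  have hGF : G.card ≤ (N * N + 1) ^ (3 * k) * F.card := by
    have e1 : G.card ≤ (N * N + 1) ^ (3 * k) * (G.image (fun x => (x.1, Ψ x))).card := by
      refine card_le_mul_card_image _ _ ?_
      rintro ⟨y1, y2⟩ -
      have e2 := card_small_subsets (α := Fin N × Fin N) (3 * k)
      rw [Fintype.card_prod, Fintype.card_fin] at e2
      refine le_trans ?_ e2
      refine card_le_card_of_injOn (fun x => x.2 \ y2) ?_ ?_
      · intro x hx
        rw [mem_coe, mem_filter, Prod.mk.injEq] at hx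
        rw [mem_coe, mem_filter]
        refine ⟨mem_univ _, ?_⟩
        rw [← hx.2.2]
        exact hΨ2 x hx.1
      · intro x hx x' hx' hxx
        rw [mem_coe, mem_filter, Prod.mk.injEq] at hx hx'
        have e3 := hΨ1 x hx.1
        have e4 := hΨ1 x' hx'.1
        rw [hx.2.2] at e3
        rw [hx'.2.2] at e4
        simp only at hxx
        refine Prod.ext (hx.2.1.trans hx'.2.1.symm) ?_
        rw [← sdiff_union_of_subset e3, ← sdiff_union_of_subset e4, hxx]
    refine e1.trans (Nat.mul_le_mul_left _ (card_le_card ?_))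
    intro y hy
    obtain ⟨x, hx, rfl⟩ := mem_image.1 hy
    rw [hF, mem_filter]
    exact ⟨mem_univ _, hΨ3 x hx⟩
  rw [hFcard, ← hE]
  refine hGcard.trans ?_
  refine mul_le_mul_of_nonneg_left ?_ (by positivity)
  exact_mod_cast hGF

end

end Pool.Agent.Work.MP_713a1e_co.T3
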