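import Mathlib
import Pool.Agent.Work.MP_713a1e_co.T3Num

/-! Numerical estimates for the number of forests: preparations. -/

namespace Pool.Agent.Work.MP_713a1e_co.T3

open Finset Filter

noncomputable section

/-- numerical facts about the number of vertices -/
lemma NN_facts : ∀ᶠ n : ℕ in atTop,
    (n : ℝ) / 4 ≤ NN n ∧ 2 * NN n ≤ n ∧ (n : ℝ) - 2 * n / (Real.log n) ^ 2 ≤ 2 * NN n ∧
    (KK n : ℝ) ≤ NN n / (Real.log n) ^ 5 ∧ (NN n : ℝ) / (Real.log n) ^ 5 < KK n + 1 ∧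
    4 ≤ Real.log n ∧ 16 ≤ n := by
  have t1 : Tendsto (fun n : ℕ => (n : ℝ)) atTop atTop := tendsto_natCast_atTop_atTop
  have t2 : Tendsto (fun n : ℕ => Real.log n) atTop atTop := Real.tendsto_log_atTop.comp t1
  filter_upwards [eventually_ge_atTop 16, t2.eventually_ge_atTop 4,
    log_pow_small 2 (1 / 4) (by norm_num), log_pow_small 2 (1 / 64) (by norm_num),
    mm_facts 1 1 one_pos one_pos] with n hn hL h2 h64 hmf
  obtain ⟨-, h4m, h16, -, -⟩ := hmf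
  have hn0 : (0 : ℝ) < n := by
    have : 0 < n := by omega
    exact_mod_cast this
  have hL0 : 0 < Real.log n := by linarith
  have hM := mm_le n
  have hNdef : NN n = (n - 1 - mm n) / 2 := rfl
  have e1 : n ≤ 2 * NN n + mm n + 2 := by omega
  have e2 : 2 * NN n ≤ n := by omega
  have e1r : (n : ℝ) ≤ 2 * NN n + mm n + 2 := by exact_mod_cast e1
  have h4 : 4 * (mm n : ℝ) ≤ n := by exact_mod_cast h4m
  have hn16 : (16 : ℝ) ≤ n := by exact_mod_cast hn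
  have h2' : (2 : ℝ) ≤ n / (Real.log n) ^ 2 := by
    rw [le_div_iff₀ (by positivity)]
    linarith
  refine ⟨by linarith, e2, ?_, ?_, ?_, hL, hn⟩
  · have : 2 * (n : ℝ) / (Real.log n) ^ 2 = n / (Real.log n) ^ 2 + n / (Real.log n) ^ 2 := by ring
    rw [this]
    linarith
  · exact Nat.floor_le (by positivity)
  · exact Nat.lt_floor_add_one _

lemma inv_factorial_le (r : ℕ) (hr : 1 ≤ r) : 1 / (r.factorial : ℝ) ≤ (Real.exp 1 / r) ^ r := by
  have hr0 : (0 : ℝ) < r := by exact_mod_cast hr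
  have h := Real.pow_div_factorial_le_exp (r : ℝ) hr0.le r
  have hf : (0 : ℝ) < r.factorial := by exact_mod_cast r.factorial_pos
  rw [div_le_iff₀ hf] at h
  rw [div_pow, ← Real.exp_nat_mul, mul_one, div_le_div_iff₀ hf (by positivity), one_mul]
  exact h

/-- one term of the sum over the bad pairs -/
lemma term_le {N k r : ℕ} {ℓ δ : ℝ} (hN : 1 ≤ N) (hℓ : 1 ≤ ℓ) (hr1 : k + 1 ≤ r)
    (hr2 : r ≤ k + 1 + k)
    (hδ : 2 * ℓ * Real.sqrt (2 * N) * (N * Real.exp 1 ^ 2 / (r : ℝ) ^ 2) ≤ δ) :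
    (2 : ℝ) ^ r * (ℓ / (2 * N)) ^ (k + 1) * ((N.choose r : ℝ) / r.factorial * (2 * N) ^ r) ≤
      δ ^ r := by
  have hN0 : (0 : ℝ) < N := by exact_mod_cast hN
  have hN1 : (1 : ℝ) ≤ N := by exact_mod_cast hN
  have hr0 : (0 : ℝ) < r := by
    have : 0 < r := by omega
    exact_mod_cast this
  have hf : (0 : ℝ) < r.factorial := by exact_mod_cast r.factorial_pos
  have h1 : (N.choose r : ℝ) / r.factorial ≤ (N * Real.exp 1 ^ 2 / (r : ℝ) ^ 2) ^ r := by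
    have e1 : (N.choose r : ℝ) ≤ (N : ℝ) ^ r / r.factorial := Nat.choose_le_pow_div r N
    have e2 := inv_factorial_le r (by omega)
    calc (N.choose r : ℝ) / r.factorial ≤ ((N : ℝ) ^ r / r.factorial) / r.factorial := by gcongr
      _ = (N : ℝ) ^ r * (1 / r.factorial) * (1 / r.factorial) := by field_simp
      _ ≤ (N : ℝ) ^ r * (Real.exp 1 / r) ^ r * (Real.exp 1 / r) ^ r := by gcongr
      _ = (N * Real.exp 1 ^ 2 / (r : ℝ) ^ 2) ^ r := by
        rw [← mul_pow, ← mul_pow]; congr 1; field_simp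
  have h2 : (ℓ / (2 * N)) ^ (k + 1) * (2 * (N : ℝ)) ^ r ≤ (ℓ * Real.sqrt (2 * N)) ^ r := by
    obtain ⟨q, rfl⟩ : ∃ q, r = (k + 1) + q := ⟨r - (k + 1), by omega⟩
    have hs1 : 1 ≤ Real.sqrt (2 * N) := by
      rw [Real.one_le_sqrt]; linarith
    have hs2 : (2 * (N : ℝ)) = Real.sqrt (2 * N) ^ 2 := (Real.sq_sqrt (by positivity)).symm
    have e1 : (ℓ / (2 * N)) ^ (k + 1) * (2 * (N : ℝ)) ^ (k + 1 + q) =
        ℓ ^ (k + 1) * (2 * (N : ℝ)) ^ q := by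
      rw [pow_add (2 * (N : ℝ)) (k + 1) q, ← mul_assoc, ← mul_pow,
        div_mul_cancel₀ _ (by positivity)]
    rw [e1, mul_pow ℓ]
    have e2 : ℓ ^ (k + 1) ≤ ℓ ^ (k + 1 + q) := pow_le_pow_right₀ hℓ (by omega)
    have e3 : (2 * (N : ℝ)) ^ q ≤ Real.sqrt (2 * N) ^ (k + 1 + q) := by
      calc (2 * (N : ℝ)) ^ q = (Real.sqrt (2 * N) ^ 2) ^ q := by rw [← hs2]
        _ = Real.sqrt (2 * N) ^ (2 * q) := by rw [← pow_mul]
        _ ≤ Real.sqrt (2 * N) ^ (k + 1 + q) := pow_le_pow_right₀ hs1 (by omega)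
    gcongr
  calc (2 : ℝ) ^ r * (ℓ / (2 * N)) ^ (k + 1) * ((N.choose r : ℝ) / r.factorial * (2 * N) ^ r)
      = (2 : ℝ) ^ r * ((ℓ / (2 * N)) ^ (k + 1) * (2 * (N : ℝ)) ^ r) *
        ((N.choose r : ℝ) / r.factorial) := by ring
    _ ≤ (2 : ℝ) ^ r * (ℓ * Real.sqrt (2 * N)) ^ r * (N * Real.exp 1 ^ 2 / (r : ℝ) ^ 2) ^ r := by
        gcongr
    _ = (2 * ℓ * Real.sqrt (2 * N) * (N * Real.exp 1 ^ 2 / (r : ℝ) ^ 2)) ^ r := by
        rw [← mul_pow, ← mul_pow]; congr 1; ring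
    _ ≤ δ ^ r := by gcongr

lemma hnum_ev : ∀ᶠ n : ℕ in atTop,
    ∑ r ∈ Icc (KK n + 1) (KK n + 1 + KK n), (2 : ℝ) ^ r *
      (Real.log (2 * n) / (2 * NN n)) ^ (KK n + 1) *
      (((NN n).choose r : ℝ) / r.factorial * (Real.exp (-(NN n : ℝ)) * (2 * NN n) ^ r)) ≤
      Real.exp (-(NN n : ℝ)) / 8 := by
  filter_upwards [NN_facts, log_pow_small 22 (1 / 16777216) (by norm_num)] with n hf h22
  obtain ⟨f1, f2, f3, f4, f5, hL, hn16⟩ := hf
  obtain ⟨N, hN⟩ : ∃ N, N = NN n := ⟨_, rfl⟩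
  obtain ⟨k, hk⟩ : ∃ k, k = KK n := ⟨_, rfl⟩
  obtain ⟨L, hLdef⟩ : ∃ L, L = Real.log n := ⟨_, rfl⟩
  rw [← hN, ← hk]
  rw [← hN] at f1 f2 f3 f4 f5
  rw [← hk] at f4 f5
  rw [← hLdef] at f3 f4 f5 hL h22
  have hn0 : (0 : ℝ) < n := by
    have : 0 < n := by omega
    exact_mod_cast this
  have hn16r : (16 : ℝ) ≤ n := by exact_mod_cast hn16
  have hNr : (4 : ℝ) ≤ N := by linarith
  have hN1 : 1 ≤ N := by
    have : (1 : ℝ) ≤ N := by linarith
    exact_mod_cast this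
  have f2r : 2 * (N : ℝ) ≤ n := by exact_mod_cast f2
  have hℓ1 : Real.log (2 * n) = Real.log 2 + L := by
    rw [Real.log_mul (by norm_num) hn0.ne', hLdef]
  have hlog2 : 0 < Real.log 2 := Real.log_pos (by norm_num)
  have hlog2' : Real.log 2 < 1 := by have := Real.log_two_lt_d9; linarith
  have hℓ : 1 ≤ Real.log (2 * n) := by rw [hℓ1]; linarith
  have hℓ2 : Real.log (2 * n) ≤ 2 * L := by rw [hℓ1]; linarith
  have hL0 : 0 < L := by linarith
  have he2 : Real.exp 1 ^ 2 ≤ 8 := by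
    have h1 := Real.exp_one_lt_d9
    have h2 := Real.exp_pos 1
    nlinarith only [h1, h2]
  have hs0 : 0 < Real.sqrt n := Real.sqrt_pos.2 hn0
  have hss : Real.sqrt n * Real.sqrt n = n := Real.mul_self_sqrt hn0.le
  have h11 : L ^ 11 ≤ Real.sqrt n / 4096 := by
    have e1 : (L ^ 11) ^ 2 ≤ (Real.sqrt n / 4096) ^ 2 := by
      calc (L ^ 11) ^ 2 = L ^ 22 := by ring
        _ ≤ 1 / 16777216 * (n : ℝ) := h22
        _ = (Real.sqrt n / 4096) ^ 2 := by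
          rw [div_pow, sq (Real.sqrt n), hss]; norm_num; ring
    exact (sq_le_sq₀ (by positivity) (by positivity)).1 e1
  -- one term
  have hterm : ∀ r ∈ Icc (k + 1) (k + 1 + k), (2 : ℝ) ^ r *
      (Real.log (2 * n) / (2 * N)) ^ (k + 1) *
      (((N).choose r : ℝ) / r.factorial * (Real.exp (-(N : ℝ)) * (2 * N) ^ r)) ≤
      Real.exp (-(N : ℝ)) * (1 / 16) ^ (k + 1) := by
    intro r hr
    rw [mem_Icc] at hr
    have hr1 : ((k : ℝ) + 1) ≤ r := by exact_mod_cast hr.1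
    have hrN : (n : ℝ) / (4 * L ^ 5) ≤ r := by
      have : (n : ℝ) / (4 * L ^ 5) ≤ N / L ^ 5 := by
        have e1 : (n : ℝ) / (4 * L ^ 5) = (n / 4) / L ^ 5 := by field_simp
        rw [e1]; gcongr
      linarith
    have hr2 : (n : ℝ) ^ 2 / (16 * L ^ 10) ≤ (r : ℝ) ^ 2 := by
      calc (n : ℝ) ^ 2 / (16 * L ^ 10) = ((n : ℝ) / (4 * L ^ 5)) ^ 2 := by
            rw [div_pow]; congr 1; ring
        _ ≤ (r : ℝ) ^ 2 := by gcongr
    have hr0 : (0 : ℝ) < (r : ℝ) ^ 2 := lt_of_lt_of_le (by positivity) hr2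
    have hδ : 2 * Real.log (2 * n) * Real.sqrt (2 * N) * (N * Real.exp 1 ^ 2 / (r : ℝ) ^ 2) ≤
        1 / 16 := by
      have e1 : Real.sqrt (2 * N) ≤ Real.sqrt n := Real.sqrt_le_sqrt f2r
      have e2 : (N : ℝ) * Real.exp 1 ^ 2 / (r : ℝ) ^ 2 ≤ (n / 2) * 8 / ((n : ℝ) ^ 2 / (16 * L ^ 10)) := by
        gcongr
        linarith
      have e3 : (n / 2) * 8 / ((n : ℝ) ^ 2 / (16 * L ^ 10)) = 64 * L ^ 10 / n := by
        field_simp; ring
      rw [e3] at e2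
      calc 2 * Real.log (2 * n) * Real.sqrt (2 * N) * (N * Real.exp 1 ^ 2 / (r : ℝ) ^ 2)
          ≤ 2 * (2 * L) * Real.sqrt n * (64 * L ^ 10 / n) := by gcongr
        _ = 256 * L ^ 11 / Real.sqrt n := by
            rw [eq_div_iff hs0.ne']
            have : 2 * (2 * L) * Real.sqrt n * (64 * L ^ 10 / n) * Real.sqrt n =
              256 * L ^ 11 * (Real.sqrt n * Real.sqrt n) / n := by ring
            rw [this, hss]
            field_simp
        _ ≤ 256 * (Real.sqrt n / 4096) / Real.sqrt n := by gcongr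
        _ = 1 / 16 := by field_simp; norm_num
    have h1 := term_le hN1 hℓ hr.1 hr.2 hδ
    have h2 : (1 / 16 : ℝ) ^ r ≤ (1 / 16) ^ (k + 1) :=
      pow_le_pow_of_le_one (by norm_num) (by norm_num) hr.1
    calc (2 : ℝ) ^ r * (Real.log (2 * n) / (2 * N)) ^ (k + 1) *
        (((N).choose r : ℝ) / r.factorial * (Real.exp (-(N : ℝ)) * (2 * N) ^ r))
        = Real.exp (-(N : ℝ)) * ((2 : ℝ) ^ r * (Real.log (2 * n) / (2 * N)) ^ (k + 1) *
        (((N).choose r : ℝ) / r.factorial * (2 * N) ^ r)) := by ring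
      _ ≤ Real.exp (-(N : ℝ)) * (1 / 16) ^ (k + 1) := by
        gcongr
        exact h1.trans h2
  refine (sum_le_card_nsmul _ _ _ hterm).trans ?_
  rw [Nat.card_Icc, nsmul_eq_mul]
  have e1 : k + 1 + k + 1 - (k + 1) = k + 1 := by omega
  rw [e1]
  have e2 : ((k + 1 : ℕ) : ℝ) ≤ 2 ^ (k + 1) := by
    exact_mod_cast (Nat.lt_two_pow_self (n := k + 1)).le
  have e3 : (2 : ℝ) ^ (k + 1) * (1 / 16) ^ (k + 1) ≤ 1 / 8 := by
    rw [← mul_pow]
    calc (2 * (1 / 16) : ℝ) ^ (k + 1) ≤ (2 * (1 / 16)) ^ 1 :=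
          pow_le_pow_of_le_one (by norm_num) (by norm_num) (by omega)
      _ = 1 / 8 := by norm_num
  have hE0 : 0 < Real.exp (-(N : ℝ)) := Real.exp_pos _
  calc ((k + 1 : ℕ) : ℝ) * (Real.exp (-(N : ℝ)) * (1 / 16) ^ (k + 1))
      = Real.exp (-(N : ℝ)) * (((k + 1 : ℕ) : ℝ) * (1 / 16) ^ (k + 1)) := by ring
    _ ≤ Real.exp (-(N : ℝ)) * ((2 : ℝ) ^ (k + 1) * (1 / 16) ^ (k + 1)) := by gcongr
    _ ≤ Real.exp (-(N : ℝ)) * (1 / 8) := by gcongr
    _ = Real.exp (-(N : ℝ)) / 8 := by ring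

end

end Pool.Agent.Work.MP_713a1e_co.T3
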