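import Mathlib
import Pool.Agent.Work.MP_713a1e_co.T3PairsB
import Pool.Agent.Work.MP_713a1e_co.T3PairsC0

/-! Numerical estimates for the number of forests. -/

namespace Pool.Agent.Work.MP_713a1e_co.T3

open Finset Filter

noncomputable section

/-- **The number of forests.** -/
theorem countFP_of (hW : WSEv) : CountFP := by
  intro ε hε hε1
  have t1 : Tendsto (fun n : ℕ => (n : ℝ)) atTop atTop := tendsto_natCast_atTop_atTop
  have t2 : Tendsto (fun n : ℕ => Real.log n) atTop atTop := Real.tendsto_log_atTop.comp t1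
  obtain ⟨η, hη⟩ : ∃ η, η = -Real.log (1 - ε) := ⟨_, rfl⟩
  have hη0 : 0 < η := by
    rw [hη]
    have := Real.log_neg (x := 1 - ε) (by linarith) (by linarith)
    linarith
  filter_upwards [hW, NN_facts, hnum_ev, log_pow_small 4 (1 / 16) (by norm_num),
    log_pow_small 5 (1 / 12) (by norm_num),
    t2.eventually_ge_atTop (30 / η), t1.eventually_ge_atTop (10 / η)] with
    n hw hf hnum h4L h5L hLη hnη
  obtain ⟨w, hw⟩ := hw
  obtain ⟨f1, f2, f3, f4, f5, hL, hn16⟩ := hf
  have hn0 : (0 : ℝ) < n := by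
    have : 0 < n := by omega
    exact_mod_cast this
  have hn16r : (16 : ℝ) ≤ n := by exact_mod_cast hn16
  have f2r : 2 * (NN n : ℝ) ≤ n := by exact_mod_cast f2
  have hL0 : 0 < Real.log n := by linarith
  have hL1 : 1 ≤ Real.log n := by linarith
  have hN4 : (4 : ℝ) ≤ NN n := by linarith
  have hk : (KK n : ℝ) ≤ n / (2 * (Real.log n) ^ 5) := by
    refine f4.trans ?_
    have : (n : ℝ) / (2 * (Real.log n) ^ 5) = (n / 2) / (Real.log n) ^ 5 := by field_simp
    rw [this]
    gcongr
    linarith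
  have hk4 : (KK n : ℝ) ≤ n / (8 * (Real.log n) ^ 4) := by
    refine hk.trans (div_le_div_of_nonneg_left hn0.le (by positivity) ?_)
    calc 8 * (Real.log n) ^ 4 = 2 * (4 * (Real.log n) ^ 4) := by ring
      _ ≤ 2 * (Real.log n * (Real.log n) ^ 4) := by gcongr
      _ = 2 * (Real.log n) ^ 5 := by ring
  -- `5 k ≤ T`
  have hT : 5 * KK n ≤ TT n := by
    unfold TT
    apply Nat.le_floor
    push_cast
    calc 5 * (KK n : ℝ) ≤ 5 * (n / (8 * (Real.log n) ^ 4)) := by gcongr
      _ ≤ n / (Real.log n) ^ 4 := by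
          have e1 : 5 * ((n : ℝ) / (8 * (Real.log n) ^ 4)) = 5 / 8 * (n / (Real.log n) ^ 4) := by
            field_simp
          rw [e1]
          have : 0 < (n : ℝ) / (Real.log n) ^ 4 := by positivity
          linarith
  have hlog2 : 0 < Real.log 2 := Real.log_pos (by norm_num)
  have hlog2' : Real.log 2 < 1 := by have := Real.log_two_lt_d9; linarith
  have hℓ1 : Real.log (2 * n) = Real.log 2 + Real.log n := by
    rw [Real.log_mul (by norm_num) hn0.ne']
  obtain ⟨ω, hω⟩ : ∃ ω, ω = Real.log (2 * n) / (2 * NN n) := ⟨_, rfl⟩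
  have hω0 : 0 < ω := by rw [hω, hℓ1]; positivity
  have hω1 : ω ≤ 1 := by
    rw [hω, div_le_one (by positivity), hℓ1]
    have e1 : Real.log n ≤ (Real.log n) ^ 4 := le_self_pow₀ hL1 (by norm_num)
    linarith
  have hkN : 2 * KK n + 1 ≤ NN n := by
    have e1 : (1 : ℝ) ≤ (Real.log n) ^ 4 := one_le_pow₀ hL1
    have e2 : (KK n : ℝ) ≤ n / 16 := by
      refine hk.trans ?_
      gcongr
      have e3 : (4 : ℝ) ^ 5 ≤ (Real.log n) ^ 5 := by gcongr
      norm_num at e3
      linarith
    have e3 : 2 * (KK n : ℝ) + 1 ≤ NN n := by linarith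
    exact_mod_cast e3
  have hmain := fp_lower w hw hT hω hω0 hω1 hkN (by rw [hω]; exact hnum)
  -- take logarithms
  obtain ⟨F, hF⟩ : ∃ F : ℝ, F = (({M : Finset (Fin (NN n) × Fin (NN n)) × Finset (Fin (NN n) × Fin (NN n)) |
      FP (mm n) (NN n) (TT n) M.1 M.2} : Set _).ncard : ℝ) := ⟨_, rfl⟩
  rw [← hF] at hmain ⊢
  have hF0 : 0 < F := by
    by_contra hcon
    push Not at hcon
    have e1 : 0 < 3 / 16 * Real.exp (-(NN n : ℝ)) ^ 2 := by positivity
    have e2 : ω ^ (2 * (NN n - KK n)) * ((((NN n * NN n + 1) ^ (3 * KK n) : ℕ)) * F) ≤ 0 := by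
      apply mul_nonpos_of_nonneg_of_nonpos (by positivity)
      exact mul_nonpos_of_nonneg_of_nonpos (by positivity) hcon
    linarith
  have hlogmain : Real.log (3 / 16) - 2 * NN n ≤
      (2 * (NN n - KK n : ℕ)) * Real.log ω + (3 * KK n) * Real.log (NN n * NN n + 1) +
        Real.log F := by
    have e1 := Real.log_le_log (by positivity) hmain
    rw [Real.log_mul (by norm_num) (by positivity), Real.log_pow, Real.log_exp,
      Real.log_mul (by positivity) (by positivity), Real.log_mul (by positivity) hF0.ne',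
      Real.log_pow] at e1
    push_cast at e1 ⊢
    rw [Real.log_pow] at e1
    push_cast at e1
    linarith
  -- estimates of the logarithms
  obtain ⟨L, hLdef⟩ : ∃ L, L = Real.log n := ⟨_, rfl⟩
  rw [← hLdef] at hL hL0 hL1 f3 hk hk4 hLη h4L h5L hℓ1
  have hx : 2 / L ^ 2 ≤ 1 / 2 := by
    rw [div_le_div_iff₀ (by positivity) (by norm_num)]
    nlinarith only [hL]
  have hlog2N : L - 4 / L ^ 2 ≤ Real.log (2 * NN n) := by
    have e1 : (n : ℝ) * (1 - 2 / L ^ 2) ≤ 2 * NN n := by
      have : (n : ℝ) * (1 - 2 / L ^ 2) = n - 2 * n / L ^ 2 := by ring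
      linarith
    have e2 := Real.log_le_log (mul_pos hn0 (by linarith)) e1
    rw [Real.log_mul hn0.ne' (by linarith : 1 - 2 / L ^ 2 ≠ 0), ← hLdef] at e2
    have e3 : -(4 / L ^ 2) ≤ Real.log (1 - 2 / L ^ 2) := by
      have e4 := Real.one_sub_inv_le_log_of_pos (x := 1 - 2 / L ^ 2) (by linarith)
      have e5 : -(4 / L ^ 2) ≤ 1 - (1 - 2 / L ^ 2)⁻¹ := by
        obtain ⟨y, hy⟩ : ∃ y, y = 2 / L ^ 2 := ⟨_, rfl⟩
        have hy0 : 0 ≤ y := by rw [hy]; positivity
        have e6 : 4 / L ^ 2 = 2 * y := by rw [hy]; ring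
        rw [e6, ← hy]
        rw [← hy] at hx
        have e7 : (1 - y)⁻¹ ≤ 1 + 2 * y := by
          rw [inv_le_comm₀ (by linarith) (by linarith), ← one_div, div_le_iff₀ (by linarith)]
          nlinarith only [hy0, hx, mul_nonneg hy0 (sub_nonneg.2 hx)]
        linarith
      linarith
    linarith
  have hlogℓ : Real.log (Real.log (2 * n)) ≤ Real.log L + 1 / L := by
    rw [hℓ1]
    have e1 : Real.log 2 + L ≤ L * (1 + 1 / L) := by
      have : L * (1 + 1 / L) = L + 1 := by field_simp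
      linarith
    have e2 := Real.log_le_log (by linarith) e1
    rw [Real.log_mul hL0.ne' (by positivity)] at e2
    have e3 := Real.log_le_sub_one_of_pos (x := 1 + 1 / L) (by positivity)
    linarith
  have hlogω : Real.log ω ≤ -(L - Real.log L - 5 / L) := by
    rw [hω, Real.log_div (by rw [hℓ1]; positivity) (by positivity)]
    have e1 : 4 / L ^ 2 ≤ 4 / L := by
      gcongr
      exact le_self_pow₀ hL1 (by norm_num)
    have e2 : 5 / L = 4 / L + 1 / L := by ring
    linarith
  have hlogN : Real.log (NN n * NN n + 1) ≤ 2 * L := by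
    have e1 : (NN n : ℝ) * NN n + 1 ≤ n * n := by
      have h9 := mul_self_le_mul_self (by positivity : (0 : ℝ) ≤ 2 * (NN n : ℝ)) f2r
      nlinarith only [h9, hn16r]
    have e2 := Real.log_le_log (by positivity) e1
    rw [Real.log_mul hn0.ne' hn0.ne', ← hLdef] at e2
    linarith
  -- `X = L - log L`
  obtain ⟨X, hX⟩ : ∃ X, X = L - Real.log L := ⟨_, rfl⟩
  have hXL : X ≤ L := by
    have : 0 ≤ Real.log L := Real.log_nonneg hL1
    rw [hX]; linarith
  have hX1 : 5 / L ≤ X := by
    have e1 := Real.log_le_sub_one_of_pos (x := L / 4) (by positivity)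
    rw [Real.log_div hL0.ne' (by norm_num)] at e1
    have e2 : Real.log 4 < 1.4 := by
      rw [show (4 : ℝ) = 2 ^ 2 by norm_num, Real.log_pow]
      have := Real.log_two_lt_d9
      push_cast
      linarith
    have e3 : 5 / L ≤ 5 / 4 := by gcongr
    rw [hX]; linarith
  have hcoef : (n : ℝ) - 4 * n / L ^ 2 ≤ (2 * (NN n - KK n : ℕ) : ℝ) := by
    rw [Nat.cast_sub (by omega)]
    have e1 : 2 * (KK n : ℝ) ≤ 2 * n / L ^ 2 := by
      calc 2 * (KK n : ℝ) ≤ 2 * (n / (2 * L ^ 5)) := by gcongr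
        _ = n / L ^ 5 := by field_simp
        _ ≤ n / L ^ 2 := div_le_div_of_nonneg_left hn0.le (by positivity)
            (pow_le_pow_right₀ hL1 (by norm_num))
        _ ≤ 2 * n / L ^ 2 := div_le_div_of_nonneg_right (by linarith) (by positivity)
    have e2 : 4 * (n : ℝ) / L ^ 2 = 2 * n / L ^ 2 + 2 * n / L ^ 2 := by ring
    linarith
  have hprod : n * X - 9 * n / L ≤ (2 * (NN n - KK n : ℕ) : ℝ) * (X - 5 / L) := by
    have e1 : ((n : ℝ) - 4 * n / L ^ 2) * (X - 5 / L) ≤
        (2 * (NN n - KK n : ℕ) : ℝ) * (X - 5 / L) :=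
      mul_le_mul_of_nonneg_right hcoef (by linarith)
    have e2 : ((n : ℝ) - 4 * n / L ^ 2) * (X - 5 / L) =
        n * X - 5 * n / L - 4 * n / L ^ 2 * X + 20 * n / L ^ 3 := by
      field_simp
      ring
    have e3 : 4 * n / L ^ 2 * X ≤ 4 * n / L := by
      calc 4 * n / L ^ 2 * X ≤ 4 * n / L ^ 2 * L := by gcongr
        _ = 4 * n / L := by field_simp
    have e4 : 0 ≤ 20 * (n : ℝ) / L ^ 3 := by positivity
    have e5 : 9 * (n : ℝ) / L = 5 * n / L + 4 * n / L := by ring
    linarith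
  have hlogpart : (2 * (NN n - KK n : ℕ) : ℝ) * Real.log ω ≤ -(n * X - 9 * n / L) := by
    have e1 : (2 * (NN n - KK n : ℕ) : ℝ) * Real.log ω ≤
        (2 * (NN n - KK n : ℕ) : ℝ) * -(L - Real.log L - 5 / L) :=
      mul_le_mul_of_nonneg_left hlogω (by positivity)
    rw [← hX] at e1
    linarith
  have hlogN0 : 0 ≤ Real.log (NN n * NN n + 1) := Real.log_nonneg (by
    have := mul_self_nonneg (NN n : ℝ)
    linarith)
  have hKpart : (3 * KK n) * Real.log (NN n * NN n + 1) ≤ 3 * n / L := by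
    calc (3 * KK n) * Real.log (NN n * NN n + 1) ≤ (3 * (n / (2 * L ^ 5))) * (2 * L) := by gcongr
      _ = 3 * n / L ^ 4 := by field_simp
      _ ≤ 3 * n / L := by
          gcongr
          exact le_self_pow₀ hL1 (by norm_num)
  have hfin : n * (Real.log (1 - ε) + X - 1) ≤ Real.log F := by
    have e1 : -(5 : ℝ) ≤ Real.log (3 / 16) := by
      have h9 := Real.one_sub_inv_le_log_of_pos (x := (3 : ℝ) / 16) (by norm_num)
      have h10 : (1 : ℝ) - (3 / 16)⁻¹ = -(13 / 3) := by norm_num
      rw [h10] at h9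
      linarith
    have e2 : 12 * (n : ℝ) / L + 5 ≤ n * η := by
      have e3 : 12 / L ≤ η * (2 / 5) := by
        rw [div_le_iff₀ hη0] at hLη
        rw [div_le_iff₀ hL0]
        linarith
      have e4 : 10 ≤ η * n := by
        rw [div_le_iff₀ hη0] at hnη
        linarith
      have e5 : 12 * (n : ℝ) / L = n * (12 / L) := by ring
      have e6 : (n : ℝ) * (12 / L) ≤ n * (η * (2 / 5)) := by gcongr
      rw [e5]
      nlinarith only [e4, e6]
    have e3 : 12 * (n : ℝ) / L = 9 * n / L + 3 * n / L := by ring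
    have e4 : (n : ℝ) * (Real.log (1 - ε) + X - 1) = - (n * η) + n * X - n := by
      rw [hη]; ring
    rw [e4]
    linarith
  -- exponentiate
  have e1 : ((1 - ε) * n / (Real.exp 1 * Real.log n)) ^ n =
      Real.exp (n * (Real.log (1 - ε) + X - 1)) := by
    have hpos : 0 < (1 - ε) * n / (Real.exp 1 * Real.log n) := by
      have : 0 < 1 - ε := by linarith
      rw [← hLdef]
      positivity
    rw [← Real.exp_log (pow_pos hpos n), Real.log_pow, Real.log_div (by
        have : 0 < 1 - ε := by linarith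
        positivity) (by rw [← hLdef]; positivity),
      Real.log_mul (by linarith : 1 - ε ≠ 0) hn0.ne',
      Real.log_mul (by positivity) (by rw [← hLdef]; positivity), Real.log_exp, ← hLdef, hX]
    congr 1
    ring
  rw [e1, ← Real.exp_log hF0]
  exact Real.exp_le_exp.2 hfin

end

end Pool.Agent.Work.MP_713a1e_co.T3
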