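import Mathlib
import Pool.Agent.Work.MP_713a1e_co.T3PairsA

/-! Expansion of permanents over partial matchings. -/

namespace Pool.Agent.Work.MP_713a1e_co.T3

open Finset Equiv

noncomputable section

variable {N : ℕ}

/-- the matching of a permutation outside a set of columns -/
def grM (D : Finset (Fin N)) (σ : Perm (Fin N)) : Finset (Fin N × Fin N) :=
  (univ \ D).image (fun i => (σ i, i))

lemma mem_grM {D : Finset (Fin N)} {σ : Perm (Fin N)} {a i : Fin N} :
    (a, i) ∈ grM D σ ↔ i ∉ D ∧ σ i = a := by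
  unfold grM
  rw [mem_image]
  constructor
  · rintro ⟨i', hi', h⟩
    rw [Prod.mk.injEq] at h
    obtain ⟨h1, rfl⟩ := h
    exact ⟨(mem_sdiff.1 hi').2, h1⟩
  · rintro ⟨h1, h2⟩
    exact ⟨i, mem_sdiff.2 ⟨mem_univ _, h1⟩, by rw [h2]⟩

lemma grM_card (D : Finset (Fin N)) (σ : Perm (Fin N)) : (grM D σ).card + D.card = N := by
  unfold grM
  rw [card_image_of_injective _ (fun i j h => (Prod.mk.injEq _ _ _ _ ▸ h).2),
    card_sdiff_of_subset (subset_univ _), card_univ, Fintype.card_fin]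
  have := card_le_univ D
  rw [Fintype.card_fin] at this
  omega

lemma grM_isM (D : Finset (Fin N)) (σ : Perm (Fin N)) : IsM (grM D σ) := by
  rintro ⟨a, i⟩ hx ⟨b, j⟩ hy h
  rw [mem_grM] at hx hy
  rcases h with h | h
  · simp only at h
    have : σ i = σ j := by rw [hx.2, hy.2, h]
    have hij := σ.injective this
    rw [h, hij]
  · simp only at h
    subst h
    rw [← hx.2, ← hy.2]

lemma wt_grM (w : Matrix (Fin N) (Fin N) ℝ) (D : Finset (Fin N)) (σ : Perm (Fin N)) :
    wt w (grM D σ) = ∏ i ∈ univ \ D, w (σ i) i := by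
  unfold wt grM
  rw [prod_image (fun i _ j _ h => (Prod.mk.injEq _ _ _ _ ▸ h).2)]

/-- number of permutations extending a partial matching -/
lemma card_ext {r : ℕ} {M : Finset (Fin N × Fin N)} (hM : M ∈ MMr N r) :
    ((univ : Finset (Perm (Fin N))).filter (fun σ => ∀ x ∈ M, σ x.2 = x.1)).card =
      r.factorial := by
  classical
  obtain ⟨hI, hc⟩ := mem_MMr.1 hM
  set C := M.image Prod.snd with hC
  set R := M.image Prod.fst with hR
  have hCc : C.card = M.card := card_image_of_injOn fun x hx y hy h => hI x hx y hy (Or.inr h)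
  have hrow : ∀ i : {i // i ∈ C}, ∃ a : {a // a ∈ R}, ((a : Fin N), (i : Fin N)) ∈ M := by
    rintro ⟨i, hi⟩
    obtain ⟨⟨a, i'⟩, hx, rfl⟩ := mem_image.1 hi
    exact ⟨⟨a, mem_image.2 ⟨_, hx, rfl⟩⟩, hx⟩
  choose f hf using hrow
  have hfb : Function.Bijective f := by
    constructor
    · intro i j hij
      have h1 := hf i
      have h2 := hf j
      rw [hij] at h1
      have := hI _ h1 _ h2 (Or.inl rfl)
      exact Subtype.ext (Prod.mk.injEq _ _ _ _ ▸ this).2
    · rintro ⟨a, ha⟩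
      obtain ⟨⟨a', i⟩, hx, rfl⟩ := mem_image.1 ha
      refine ⟨⟨i, mem_image.2 ⟨_, hx, rfl⟩⟩, ?_⟩
      have h1 := hf ⟨i, mem_image.2 ⟨_, hx, rfl⟩⟩
      have := hI _ h1 _ hx (Or.inr rfl)
      exact Subtype.ext (Prod.mk.injEq _ _ _ _ ▸ this).1
  set e : {i // i ∈ C} ≃ {a // a ∈ R} := Equiv.ofBijective f hfb with he
  set σ₀ : Perm (Fin N) := e.extendSubtype with hσ₀
  have hσ₀M : ∀ x ∈ M, σ₀ x.2 = x.1 := by
    rintro ⟨a, i⟩ hx
    have hi : i ∈ C := mem_image.2 ⟨_, hx, rfl⟩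
    simp only
    rw [hσ₀, e.extendSubtype_apply_of_mem i hi]
    have h1 := hf ⟨i, hi⟩
    have := hI _ h1 _ hx (Or.inr rfl)
    exact (Prod.mk.injEq _ _ _ _ ▸ this).1
  -- bijection with the permutations fixing `C`
  have h1 : ((univ : Finset (Perm (Fin N))).filter (fun σ => ∀ x ∈ M, σ x.2 = x.1)).card =
      ((univ : Finset (Perm (Fin N))).filter (fun τ => ∀ i, ¬ (i ∉ C) → τ i = i)).card := by
    refine card_nbij' (fun σ => σ₀⁻¹ * σ) (fun τ => σ₀ * τ) ?_ ?_ ?_ ?_
    · intro σ hσ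
      rw [mem_coe, mem_filter] at hσ ⊢
      refine ⟨mem_univ _, fun i hi => ?_⟩
      rw [not_not] at hi
      obtain ⟨⟨a, i'⟩, hx, rfl⟩ := mem_image.1 hi
      rw [Perm.mul_apply, Perm.inv_eq_iff_eq]
      rw [hσ.2 _ hx, hσ₀M _ hx]
    · intro τ hτ
      rw [mem_coe, mem_filter] at hτ ⊢
      refine ⟨mem_univ _, fun x hx => ?_⟩
      rw [Perm.mul_apply, hτ.2 x.2 (by rw [not_not]; exact mem_image.2 ⟨_, hx, rfl⟩)]
      exact hσ₀M _ hx
    · intro σ _
      simp
    · intro τ _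
      simp
  rw [h1, ← Fintype.card_subtype, ← Fintype.card_congr (Perm.subtypeEquivSubtypePerm (fun i => i ∉ C)),
    Fintype.card_perm, Fintype.card_subtype]
  congr 1
  have h2 : (univ.filter (fun i => i ∉ C)) = univ \ C := by
    ext i; simp
  rw [h2, card_sdiff_of_subset (subset_univ _), card_univ, Fintype.card_fin, hCc]
  omega

/-- sum over matchings and sum over permutations -/
lemma sum_grM (w : Matrix (Fin N) (Fin N) ℝ) (r : ℕ) :
    ∑ D ∈ powersetCard r (univ : Finset (Fin N)), ∑ σ : Perm (Fin N), ∏ i ∈ univ \ D, w (σ i) i =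
      r.factorial * ∑ M ∈ MMr N r, wt w M := by
  classical
  have h1 : ∑ D ∈ powersetCard r (univ : Finset (Fin N)), ∑ σ : Perm (Fin N),
      ∏ i ∈ univ \ D, w (σ i) i =
      ∑ x ∈ powersetCard r (univ : Finset (Fin N)) ×ˢ (univ : Finset (Perm (Fin N))),
        wt w (grM x.1 x.2) := by
    rw [sum_product]
    refine sum_congr rfl fun D _ => sum_congr rfl fun σ _ => ?_
    rw [wt_grM]
  have hmap : ∀ x ∈ powersetCard r (univ : Finset (Fin N)) ×ˢ (univ : Finset (Perm (Fin N))),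
      grM x.1 x.2 ∈ MMr N r := by
    intro x hx
    rw [mem_product, mem_powersetCard] at hx
    rw [mem_MMr]
    refine ⟨grM_isM _ _, ?_⟩
    rw [← hx.1.2]
    exact grM_card _ _
  rw [h1, ← sum_fiberwise_of_maps_to hmap, mul_sum]
  refine sum_congr rfl fun M hM => ?_
  have h2 : ∀ x ∈ (powersetCard r (univ : Finset (Fin N)) ×ˢ
      (univ : Finset (Perm (Fin N)))).filter (fun x => grM x.1 x.2 = M),
      wt w (grM x.1 x.2) = wt w M := by
    intro x hx
    rw [(mem_filter.1 hx).2]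
  rw [sum_congr rfl h2, sum_const, nsmul_eq_mul]
  congr 2
  rw [← card_ext hM]
  refine card_nbij Prod.snd ?_ ?_ ?_
  · intro x hx
    rw [mem_coe, mem_filter] at hx
    rw [mem_coe, mem_filter]
    refine ⟨mem_univ _, ?_⟩
    rintro ⟨a, i⟩ hai
    rw [← hx.2, mem_grM] at hai
    exact hai.2
  · intro x hx y hy hxy
    rw [mem_coe, mem_filter] at hx hy
    refine Prod.ext ?_ hxy
    ext i
    have e1 : (x.2 i, i) ∈ grM x.1 x.2 ↔ i ∉ x.1 := by rw [mem_grM]; simp
    have e2 : (y.2 i, i) ∈ grM y.1 y.2 ↔ i ∉ y.1 := by rw [mem_grM]; simp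
    have hxy' : x.2 = y.2 := hxy
    rw [hx.2] at e1
    rw [hy.2, ← hxy'] at e2
    have := e1.symm.trans e2
    exact not_iff_not.1 this
  · intro σ hσ
    rw [mem_coe, mem_filter] at hσ
    obtain ⟨hI, hc⟩ := mem_MMr.1 hM
    set C := M.image Prod.snd with hC
    have hCc : C.card = M.card := card_image_of_injOn fun x hx y hy h => hI x hx y hy (Or.inr h)
    refine ⟨(univ \ C, σ), ?_, rfl⟩
    rw [mem_coe, mem_filter, mem_product, mem_powersetCard]
    refine ⟨⟨⟨subset_univ _, ?_⟩, mem_univ _⟩, ?_⟩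
    · rw [card_sdiff_of_subset (subset_univ _), card_univ, Fintype.card_fin, hCc]
      omega
    · ext ⟨a, i⟩
      simp only
      rw [mem_grM]
      constructor
      · rintro ⟨h3, h4⟩
        have hi : i ∈ C := by
          by_contra h5
          exact h3 (mem_sdiff.2 ⟨mem_univ _, h5⟩)
        obtain ⟨⟨a', i'⟩, hx, rfl⟩ := mem_image.1 hi
        have h5 := hσ.2 _ hx
        simp only at h5 h4
        rw [h5] at h4
        rw [← h4]; exact hx
      · intro hx
        refine ⟨fun h3 => ?_, hσ.2 _ hx⟩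
        exact (mem_sdiff.1 h3).2 (mem_image.2 ⟨_, hx, rfl⟩)

/-- **Weight systems from permanents.** -/
theorem ws_sums (k : ℕ) (w Q : Matrix (Fin N) (Fin N) ℝ) (b q : ℝ) (hN : 1 ≤ N)
    (hw0 : ∀ i j, 0 ≤ w i j) (hQ0 : ∀ i j, 0 ≤ Q i j) (hQ : ∀ i j, Q i j ≤ q) (hb : 0 ≤ b)
    (hqN : q * N ≤ 1)
    (hper : Real.exp (-(N : ℝ)) ≤ (w + Q).permanent)
    (hP : ∀ D : Finset (Fin N), ∑ σ : Perm (Fin N), ∏ i ∈ univ \ D, w (σ i) i ≤
      Real.exp (-(N : ℝ)) * b ^ D.card)
    (htail : ∑ r ∈ Ico (k + 1) (N + 1), (N.choose r : ℝ) * (q * b) ^ r ≤ 1 / 2) :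
    (Real.exp (-(N : ℝ)) / 2 ≤ ∑ r ∈ range (k + 1), ∑ M ∈ MMr N r, wt w M) ∧
    (∀ r ≤ N, ∑ M ∈ MMr N r, wt w M ≤
      (N.choose r : ℝ) / r.factorial * (Real.exp (-(N : ℝ)) * b ^ r)) := by
  classical
  have hq0 : 0 ≤ q := (hQ0 ⟨0, hN⟩ ⟨0, hN⟩).trans (hQ _ _)
  obtain ⟨E, hE⟩ : ∃ E, E = Real.exp (-(N : ℝ)) := ⟨_, rfl⟩
  have hE0 : 0 < E := by rw [hE]; exact Real.exp_pos _
  rw [← hE] at hper hP ⊢
  -- sums over `D` of size `r`
  have hsumP : ∀ r, ∑ D ∈ powersetCard r (univ : Finset (Fin N)), ∑ σ : Perm (Fin N),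
      ∏ i ∈ univ \ D, w (σ i) i ≤ (N.choose r : ℝ) * (E * b ^ r) := by
    intro r
    have h1 : ∀ D ∈ powersetCard r (univ : Finset (Fin N)), ∑ σ : Perm (Fin N),
        ∏ i ∈ univ \ D, w (σ i) i ≤ E * b ^ r := by
      intro D hD
      rw [mem_powersetCard] at hD
      rw [← hD.2]
      exact hP D
    refine (sum_le_card_nsmul _ _ _ h1).trans ?_
    rw [card_powersetCard, card_univ, Fintype.card_fin, nsmul_eq_mul]
  refine ⟨?_, ?_⟩
  · -- lower bound
    have hexp : (w + Q).permanent = ∑ r ∈ range (N + 1),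
        ∑ D ∈ powersetCard r (univ : Finset (Fin N)), ∑ σ : Perm (Fin N),
          (∏ i ∈ D, Q (σ i) i) * ∏ i ∈ univ \ D, w (σ i) i := by
      unfold Matrix.permanent
      have h1 : ∀ σ : Perm (Fin N), ∏ i, (w + Q) (σ i) i =
          ∑ D ∈ (univ : Finset (Fin N)).powerset,
            (∏ i ∈ D, Q (σ i) i) * ∏ i ∈ univ \ D, w (σ i) i := by
        intro σ
        rw [← prod_add]
        refine prod_congr rfl fun i _ => ?_
        rw [Matrix.add_apply, add_comm]
      rw [sum_congr rfl fun σ _ => h1 σ, sum_comm, sum_powerset, card_univ, Fintype.card_fin]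
    -- the terms
    have hterm : ∀ r, ∑ D ∈ powersetCard r (univ : Finset (Fin N)), ∑ σ : Perm (Fin N),
        (∏ i ∈ D, Q (σ i) i) * ∏ i ∈ univ \ D, w (σ i) i ≤
        q ^ r * ∑ D ∈ powersetCard r (univ : Finset (Fin N)), ∑ σ : Perm (Fin N),
          ∏ i ∈ univ \ D, w (σ i) i := by
      intro r
      rw [mul_sum]
      refine sum_le_sum fun D hD => ?_
      rw [mul_sum]
      refine sum_le_sum fun σ _ => ?_
      rw [mem_powersetCard] at hD
      refine mul_le_mul_of_nonneg_right ?_ (prod_nonneg fun i _ => hw0 _ _)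
      rw [← hD.2, ← prod_const]
      exact prod_le_prod (fun i _ => hQ0 _ _) fun i _ => hQ _ _
    rw [hexp] at hper
    have hsplit : ∑ r ∈ range (N + 1), ∑ D ∈ powersetCard r (univ : Finset (Fin N)),
        ∑ σ : Perm (Fin N), (∏ i ∈ D, Q (σ i) i) * ∏ i ∈ univ \ D, w (σ i) i ≤
        (∑ r ∈ range (k + 1), ∑ M ∈ MMr N r, wt w M) +
          ∑ r ∈ Ico (k + 1) (N + 1), E * ((N.choose r : ℝ) * (q * b) ^ r) := by
      have e1 : ∀ r ∈ range (N + 1), ∑ D ∈ powersetCard r (univ : Finset (Fin N)),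
          ∑ σ : Perm (Fin N), (∏ i ∈ D, Q (σ i) i) * ∏ i ∈ univ \ D, w (σ i) i ≤
          (if r < k + 1 then ∑ M ∈ MMr N r, wt w M else 0) +
          (if k + 1 ≤ r then E * ((N.choose r : ℝ) * (q * b) ^ r) else 0) := by
        intro r hr
        rw [mem_range] at hr
        by_cases hrk : r < k + 1
        · rw [if_pos hrk, if_neg (by omega), add_zero]
          refine (hterm r).trans ?_
          rw [sum_grM, ← mul_assoc]
          have e2 : q ^ r * (r.factorial : ℝ) ≤ 1 := by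
            have e3 : (r.factorial : ℝ) ≤ (N : ℝ) ^ r := by
              have e4 : r.factorial ≤ r ^ r := Nat.factorial_le_pow r
              have e5 : r ^ r ≤ N ^ r := Nat.pow_le_pow_left (by omega) r
              exact_mod_cast e4.trans e5
            calc q ^ r * (r.factorial : ℝ) ≤ q ^ r * (N : ℝ) ^ r := by gcongr
              _ = (q * N) ^ r := by rw [mul_pow]
              _ ≤ 1 := pow_le_one₀ (by positivity) hqN
          have e3 : 0 ≤ ∑ M ∈ MMr N r, wt w M := sum_nonneg fun M _ => wt_nonneg hw0 M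
          calc q ^ r * (r.factorial : ℝ) * ∑ M ∈ MMr N r, wt w M ≤
              1 * ∑ M ∈ MMr N r, wt w M := by gcongr
            _ = _ := one_mul _
        · rw [if_neg hrk, if_pos (by omega), zero_add]
          refine (hterm r).trans ?_
          have e2 := hsumP r
          calc q ^ r * ∑ D ∈ powersetCard r (univ : Finset (Fin N)), ∑ σ : Perm (Fin N),
              ∏ i ∈ univ \ D, w (σ i) i ≤ q ^ r * ((N.choose r : ℝ) * (E * b ^ r)) := by gcongr
            _ = E * ((N.choose r : ℝ) * (q * b) ^ r) := by rw [mul_pow]; ring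
      refine (sum_le_sum e1).trans ?_
      rw [sum_add_distrib]
      refine add_le_add ?_ ?_
      · rw [← sum_filter]
        refine sum_le_sum_of_subset_of_nonneg ?_ fun r _ _ =>
          sum_nonneg fun M _ => wt_nonneg hw0 M
        intro r hr
        rw [mem_filter] at hr
        exact mem_range.2 hr.2
      · rw [← sum_filter]
        refine sum_le_sum_of_subset_of_nonneg ?_ fun r _ _ => by positivity
        intro r hr
        rw [mem_filter, mem_range] at hr
        exact mem_Ico.2 ⟨hr.2, hr.1⟩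
    rw [← mul_sum] at hsplit
    have h2 : E * ∑ r ∈ Ico (k + 1) (N + 1), (N.choose r : ℝ) * (q * b) ^ r ≤ E * (1 / 2) := by
      gcongr
    linarith
  · intro r hr
    have h1 := hsumP r
    rw [sum_grM] at h1
    have hf : (0 : ℝ) < r.factorial := by exact_mod_cast r.factorial_pos
    rw [div_mul_eq_mul_div, le_div_iff₀ hf]
    linarith

end

end Pool.Agent.Work.MP_713a1e_co.T3
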