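import Mathlib
import Pool.Agent.Work.MP_713a1e_co.T3WeightsA
import Pool.Agent.Work.MP_713a1e_co.T3PairsC0
import Pool.Agent.Work.MP_713a1e_co.T3Short

/-! The weight system given by the logarithms of primes. -/

namespace Pool.Agent.Work.MP_713a1e_co.T3

open Finset Filter

noncomputable section

/-- uniform error in the prime number theorem on `[0, 4 n]` -/
lemma theta_unifA (A : ℕ) : ∃ C : ℝ, 0 < C ∧ ∀ᶠ n : ℕ in atTop, ∀ t : ℝ, 0 ≤ t → t ≤ 4 * n →
    |Chebyshev.theta t - t| ≤ C * n / (Real.log n) ^ A := by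
  obtain ⟨C, hC, hθ⟩ := Pool.Agent.Work.Shared.PNT.theta_sub_self_le A
  have t1 : Tendsto (fun n : ℕ => (n : ℝ)) atTop atTop := tendsto_natCast_atTop_atTop
  refine ⟨4 * 2 ^ A * C + 2, by positivity, ?_⟩
  filter_upwards [t1.eventually_ge_atTop 16, log_pow_small (2 * A) 1 one_pos] with n hn hlog t ht0 ht4
  have hn0 : (0 : ℝ) < n := by linarith
  have hL : 0 < Real.log n := Real.log_pos (by linarith)
  have hs0 : 0 < Real.sqrt n := Real.sqrt_pos.2 hn0
  have hss : Real.sqrt n * Real.sqrt n = n := Real.mul_self_sqrt hn0.le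
  have hlog' : Real.log n ^ A ≤ Real.sqrt n := by
    rw [one_mul, mul_comm, pow_mul] at hlog
    exact Real.le_sqrt_of_sq_le hlog
  rcases le_or_gt (Real.sqrt n) t with h | h
  · have hs4 : (4 : ℝ) ≤ Real.sqrt n := by
      rw [show (4 : ℝ) = Real.sqrt 16 by
        rw [show (16 : ℝ) = 4 ^ 2 by norm_num, Real.sqrt_sq (by norm_num)]]
      exact Real.sqrt_le_sqrt hn
    have h2 : (2 : ℝ) ≤ t := by linarith
    have h3 := hθ t h2
    have h4 : Real.log n / 2 ≤ Real.log t := by
      rw [← Real.log_sqrt hn0.le]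
      exact Real.log_le_log hs0 h
    have h5 : (Real.log n / 2) ^ A ≤ Real.log t ^ (A : ℝ) := by
      rw [Real.rpow_natCast]
      exact pow_le_pow_left₀ (by positivity) h4 A
    calc |Chebyshev.theta t - t| ≤ C * t / Real.log t ^ (A : ℝ) := h3
      _ ≤ C * (4 * n) / (Real.log n / 2) ^ A := by gcongr
      _ = 4 * 2 ^ A * C * n / (Real.log n) ^ A := by rw [div_pow]; field_simp
      _ ≤ (4 * 2 ^ A * C + 2) * n / (Real.log n) ^ A := by gcongr; linarith
  · have h1 := Chebyshev.theta_le_log4_mul_x ht0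
    have h2 := Chebyshev.theta_nonneg t
    have h4 : Real.log 4 ≤ 2 := by
      have : Real.log 4 = 2 * Real.log 2 := by
        rw [show (4 : ℝ) = 2 ^ 2 by norm_num, Real.log_pow]; norm_num
      rw [this]
      have := Real.log_two_lt_d9
      linarith
    have h5 : |Chebyshev.theta t - t| ≤ 2 * t := by
      rw [abs_le]
      constructor
      · linarith
      · have : Real.log 4 * t ≤ 2 * t := by gcongr
        linarith
    calc |Chebyshev.theta t - t| ≤ 2 * t := h5
      _ ≤ 2 * Real.sqrt n := by linarith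
      _ ≤ 2 * n / (Real.log n) ^ A := by
          rw [le_div_iff₀ (by positivity)]
          nlinarith only [mul_le_mul_of_nonneg_left hlog' hs0.le, hss]
      _ ≤ (4 * 2 ^ A * C + 2) * n / (Real.log n) ^ A := by
          gcongr
          have : 0 < 4 * 2 ^ A * C := by positivity
          linarith

/-- logarithm of a prime -/
def fl (q : ℕ) : ℝ := if q.Prime then Real.log q else 0

lemma fl_nonneg (q : ℕ) : 0 ≤ fl q := by
  unfold fl
  split_ifs with h
  · exact Real.log_nonneg (by exact_mod_cast h.one_lt.le)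
  · exact le_rfl

lemma fl_even {q : ℕ} (h : Even q) (h2 : 4 ≤ q) : fl q = 0 := by
  unfold fl
  rw [if_neg]
  intro hp
  rcases hp.eq_two_or_odd' with h3 | h3
  · omega
  · exact (Nat.not_even_iff_odd.2 h3) h

lemma sum_fl (x N : ℕ) (hx : Odd x) (hx3 : 3 ≤ x) :
    ∑ j : Fin N, fl (x + 2 + 2 * (j : ℕ)) =
      Chebyshev.theta ((x + 2 * N : ℕ) : ℝ) - Chebyshev.theta (x : ℝ) := by
  rw [theta_diff x (x + 2 * N) (by omega), sum_filter,
    Fin.sum_univ_eq_sum_range (fun j => fl (x + 2 + 2 * j)) N]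
  have h1 : ∀ q ∈ Ioc x (x + 2 * N), (if q.Prime then Real.log q else 0) = fl q := fun q _ => rfl
  rw [sum_congr rfl h1]
  clear h1
  induction N with
  | zero => simp
  | succ N ih =>
    rw [sum_range_succ, ih, show x + 2 * (N + 1) = x + 2 * N + 1 + 1 by ring,
      sum_Ioc_succ_top (by omega), sum_Ioc_succ_top (by omega)]
    have e1 : fl (x + 2 * N + 1) = 0 := by
      obtain ⟨x', hx'⟩ := hx
      exact fl_even ⟨x' + N + 1, by omega⟩ (by omega)
    rw [e1, add_zero]
    congr 2
    ring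

/-- the matrix of the logarithms of primes -/
def AA (m N : ℕ) : Matrix (Fin N) (Fin N) ℝ := fun i j => fl (yy m i + zz m j)

lemma AA_symm (m N : ℕ) (i j : Fin N) : AA m N i j = AA m N j i := by
  unfold AA
  congr 1
  unfold yy zz
  ring

lemma AA_row (m N : ℕ) (hm2 : 2 ≤ m) (i : Fin N) :
    ∑ j, AA m N i j = Chebyshev.theta ((2 * m + 1 + 2 * i + 2 * N : ℕ) : ℝ) -
      Chebyshev.theta ((2 * m + 1 + 2 * i : ℕ) : ℝ) := by
  rw [← sum_fl (2 * m + 1 + 2 * i) N ⟨m + i, by ring⟩ (by omega)]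
  refine sum_congr rfl fun j _ => ?_
  unfold AA
  congr 1
  unfold yy zz
  ring

theorem wsEv_of (hV : VdW) (hB : BregW) : WSEv := by
  classical
  obtain ⟨C, hC, hθ⟩ := theta_unifA 9
  have t1 : Tendsto (fun n : ℕ => (n : ℝ)) atTop atTop := tendsto_natCast_atTop_atTop
  have t2 : Tendsto (fun n : ℕ => Real.log n) atTop atTop := Real.tendsto_log_atTop.comp t1
  filter_upwards [hθ, NN_facts, log_pow_small 10 (1 / 16) (by norm_num),
    t2.eventually_ge_atTop (8 * C + 16), mm_facts 1 1 one_pos one_pos] with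
    n hθ hf h10 hLC hmf
  obtain ⟨f1, f2, f3, f4, f5, hL4, hn16⟩ := hf
  obtain ⟨-, h4m, hm16, -, -⟩ := hmf
  obtain ⟨m, hmdef⟩ : ∃ m, m = mm n := ⟨_, rfl⟩
  obtain ⟨N, hN⟩ : ∃ N, N = NN n := ⟨_, rfl⟩
  obtain ⟨k, hk⟩ : ∃ k, k = KK n := ⟨_, rfl⟩
  have hme : Even m := by rw [hmdef]; exact mm_even n
  have hNdef : N = (n - 1 - m) / 2 := by rw [hN, hmdef]; rfl
  rw [← hmdef, ← hN, ← hk]
  rw [← hmdef] at h4m hm16
  rw [← hN] at f1 f2 f3 f4 f5
  rw [← hk] at f4 f5
  obtain ⟨L, hLdef⟩ : ∃ L, L = Real.log n := ⟨_, rfl⟩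
  rw [← hLdef] at f3 f4 f5 hL4 h10 hLC hθ
  have hn0 : (0 : ℝ) < n := by
    have : 0 < n := by omega
    exact_mod_cast this
  have hn16r : (16 : ℝ) ≤ n := by exact_mod_cast hn16
  have hL0 : 0 < L := by linarith
  have hL1 : 1 ≤ L := by linarith
  have hL16 : 16 ≤ L := by linarith
  have hN4 : (4 : ℝ) ≤ N := by linarith
  have hN0 : (0 : ℝ) < N := by linarith
  have hN1 : 1 ≤ N := by
    have : (1 : ℝ) ≤ N := by linarith
    exact_mod_cast this
  have f2r : 2 * (N : ℝ) ≤ n := by exact_mod_cast f2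
  obtain ⟨η, hη⟩ : ∃ η : ℝ, η = 1 / L ^ 8 := ⟨_, rfl⟩
  have hη0 : 0 < η := by rw [hη]; positivity
  have hη1 : η ≤ 1 / 1000 := by
    rw [hη]
    apply one_div_le_one_div_of_le (by norm_num)
    calc (1000 : ℝ) ≤ 16 ^ 8 := by norm_num
      _ ≤ L ^ 8 := by gcongr
  -- row sums
  have hrow : ∀ i, |∑ j, AA m N i j - 2 * N| ≤ 2 * N * η := by
    intro i
    rw [AA_row m N (by omega) i]
    have hi := i.2
    have e1 := hθ ((2 * m + 1 + 2 * i + 2 * N : ℕ) : ℝ) (Nat.cast_nonneg _) (by
      have : 2 * m + 1 + 2 * (i : ℕ) + 2 * N ≤ 4 * n := by omega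
      exact_mod_cast this)
    have e2 := hθ ((2 * m + 1 + 2 * i : ℕ) : ℝ) (Nat.cast_nonneg _) (by
      have : 2 * m + 1 + 2 * (i : ℕ) ≤ 4 * n := by omega
      exact_mod_cast this)
    have e3 : C * n / L ^ 9 ≤ N * η := by
      rw [hη]
      have e4 : C * n / L ^ 9 = (4 * C) * (n / 4) / (L * L ^ 8) := by
        field_simp
      rw [e4]
      calc (4 * C) * (n / 4) / (L * L ^ 8) ≤ L * N / (L * L ^ 8) := by
            gcongr
            linarith
        _ = N * (1 / L ^ 8) := by field_simp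
    rw [abs_le] at e1 e2 ⊢
    push_cast at e1 e2 ⊢
    constructor <;> linarith [e1.1, e1.2, e2.1, e2.2]
  -- the weights
  obtain ⟨κ, hκ⟩ : ∃ κ : ℝ, κ = 1 / (2 * N * (1 + 2 * η)) := ⟨_, rfl⟩
  have hκ0 : 0 < κ := by rw [hκ]; positivity
  obtain ⟨w, hw⟩ : ∃ w : Matrix (Fin N) (Fin N) ℝ, w = fun i j => κ * AA m N i j := ⟨_, rfl⟩
  have hwij : ∀ i j, w i j = κ * AA m N i j := fun i j => by rw [hw]
  have hw0 : ∀ i j, 0 ≤ w i j := fun i j => by
    rw [hwij]; exact mul_nonneg hκ0.le (fl_nonneg _)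
  have hwsymm : ∀ i j, w i j = w j i := fun i j => by rw [hwij, hwij, AA_symm]
  have hlog2 : 0 < Real.log 2 := Real.log_pos (by norm_num)
  have hlog2' : Real.log 2 < 1 := by have := Real.log_two_lt_d9; linarith
  have hℓ1 : Real.log (2 * n) = Real.log 2 + L := by
    rw [Real.log_mul (by norm_num) hn0.ne', hLdef]
  obtain ⟨ℓ, hℓ⟩ : ∃ ℓ, ℓ = Real.log (2 * n) := ⟨_, rfl⟩
  have hℓ0 : 0 < ℓ := by rw [hℓ, hℓ1]; positivity
  have hℓ2 : ℓ ≤ 2 * L := by rw [hℓ, hℓ1]; linarith
  have hAAle : ∀ i j, AA m N i j ≤ ℓ := by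
    intro i j
    unfold AA fl
    split_ifs with hp
    · rw [hℓ]
      apply Real.log_le_log (by exact_mod_cast hp.pos)
      have hi := i.2
      have hj := j.2
      have : yy m i + zz m j ≤ 2 * n := by unfold yy zz; omega
      exact_mod_cast this
    · exact hℓ0.le
  -- deficits
  obtain ⟨u, hu⟩ : ∃ u : Fin N → ℝ, u = fun i => 1 - ∑ j, w i j := ⟨_, rfl⟩
  have hui : ∀ i, u i = 1 - ∑ j, w i j := fun i => by rw [hu]
  have hwrow : ∀ i, ∑ j, w i j = κ * ∑ j, AA m N i j := fun i => by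
    rw [mul_sum]; exact sum_congr rfl fun j _ => hwij i j
  have hubd : ∀ i, η / 2 ≤ u i ∧ u i ≤ 3 * η := by
    intro i
    have e1 := hrow i
    rw [abs_le] at e1
    have e2 : κ * (2 * N * (1 + 2 * η)) = 1 := by rw [hκ]; field_simp
    have e3 : κ * (2 * N) ≤ 1 := by nlinarith only [e2, mul_pos (mul_pos hκ0 hN0) hη0]
    have e3' : 1 - 2 * η ≤ κ * (2 * N) := by
      have : κ * (2 * N) * (1 + 2 * η) = 1 := by linarith
      nlinarith only [this, mul_nonneg hη0.le (sub_nonneg.2 e3)]
    rw [hui, hwrow]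
    obtain ⟨S, hS⟩ : ∃ S, S = ∑ j, AA m N i j := ⟨_, rfl⟩
    rw [← hS] at e1 ⊢
    have e4 : κ * S ≤ κ * (2 * N) * (1 + η) := by nlinarith only [mul_le_mul_of_nonneg_left e1.2 hκ0.le]
    have e5 : κ * (2 * N) * (1 - η) ≤ κ * S := by nlinarith only [mul_le_mul_of_nonneg_left e1.1 hκ0.le]
    have e6 : κ * (2 * N) * (1 + 2 * η) = 1 := by linarith
    have e7 : 998 / 1000 ≤ κ * (2 * N) := by linarith
    constructor
    · nlinarith only [e4, e6, mul_nonneg hη0.le (sub_nonneg.2 e7)]
    · nlinarith only [e5, e6, mul_nonneg hη0.le (sub_nonneg.2 e3)]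
  obtain ⟨D, hD⟩ : ∃ D, D = ∑ i, u i := ⟨_, rfl⟩
  have hDlow : N * (η / 2) ≤ D := by
    rw [hD]
    have := card_nsmul_le_sum (univ : Finset (Fin N)) u (η / 2) (fun i _ => (hubd i).1)
    rwa [card_univ, Fintype.card_fin, nsmul_eq_mul] at this
  have hD0 : 0 < D := lt_of_lt_of_le (by positivity) hDlow
  obtain ⟨Q, hQ⟩ : ∃ Q : Matrix (Fin N) (Fin N) ℝ, Q = fun i j => u i * u j / D := ⟨_, rfl⟩
  have hQij : ∀ i j, Q i j = u i * u j / D := fun i j => by rw [hQ]
  have hu0 : ∀ i, 0 ≤ u i := fun i => by have := (hubd i).1; linarith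
  have hQ0 : ∀ i j, 0 ≤ Q i j := fun i j => by
    rw [hQij]; exact div_nonneg (mul_nonneg (hu0 i) (hu0 j)) hD0.le
  have hQle : ∀ i j, Q i j ≤ 18 * η / N := by
    intro i j
    rw [hQij, div_le_div_iff₀ hD0 hN0]
    have e1 : u i * u j ≤ (3 * η) * (3 * η) :=
      mul_le_mul (hubd i).2 (hubd j).2 (hu0 j) (by positivity)
    calc u i * u j * N ≤ (3 * η) * (3 * η) * N := by gcongr
      _ = 18 * η * (N * (η / 2)) := by ring
      _ ≤ 18 * η * D := by gcongr
  have hXrow : ∀ i, ∑ j, (w + Q) i j = 1 := by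
    intro i
    have e1 : ∑ j, (w + Q) i j = ∑ j, w i j + ∑ j, Q i j := by
      rw [← sum_add_distrib]; rfl
    have e2 : ∑ j, Q i j = u i := by
      have : ∀ j ∈ (univ : Finset (Fin N)), Q i j = (u i / D) * u j := fun j _ => by
        rw [hQij]; ring
      rw [sum_congr rfl this, ← mul_sum, ← hD]
      field_simp
    rw [e1, e2, hui]; ring
  have hXsymm : ∀ i j, (w + Q) i j = (w + Q) j i := by
    intro i j
    rw [Matrix.add_apply, Matrix.add_apply, hwsymm i j, hQij, hQij, mul_comm (u i)]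
  have hper : Real.exp (-(N : ℝ)) ≤ (w + Q).permanent := by
    refine hV N (w + Q) (fun i j => add_nonneg (hw0 i j) (hQ0 i j)) hXrow fun j => ?_
    rw [← hXrow j]
    exact sum_congr rfl fun i _ => hXsymm i j
  -- the upper bound for the partial permanents
  have hlogN : Real.log N ≤ L := by
    rw [hLdef]; exact Real.log_le_log hN0 (by linarith)
  have hlogN0 : 0 ≤ Real.log N := Real.log_nonneg (by linarith)
  have hsmall : ℓ * (Real.log N + 3) ≤ 2 * N * η := by
    have e1 : ℓ * (Real.log N + 3) ≤ (2 * L) * (2 * L) := by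
      have : Real.log N + 3 ≤ 2 * L := by linarith
      gcongr
    have e2 : (2 * L) * (2 * L) ≤ (n / 2) * η := by
      rw [hη, mul_one_div, le_div_iff₀ (by positivity)]
      calc 2 * L * (2 * L) * L ^ 8 = 4 * L ^ 10 := by ring
        _ ≤ (n : ℝ) / 2 := by linarith
    have e3 : (n / 2) * η ≤ 2 * N * η := by
      gcongr
      linarith
    linarith
  have hP : ∀ D' : Finset (Fin N), ∑ σ : Equiv.Perm (Fin N), ∏ i ∈ univ \ D', w (σ i) i ≤
      Real.exp (-(N : ℝ)) * (2 * N) ^ D'.card := by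
    intro D'
    obtain ⟨B, hBdef⟩ : ∃ B : Matrix (Fin N) (Fin N) ℝ,
        B = fun i j => if i ∈ D' then 1 else AA m N i j / ℓ := ⟨_, rfl⟩
    have hBij : ∀ i j, B i j = if i ∈ D' then 1 else AA m N i j / ℓ := fun i j => by rw [hBdef]
    have hB0 : ∀ i j, 0 ≤ B i j := by
      intro i j
      rw [hBij]
      split_ifs
      · exact zero_le_one
      · exact div_nonneg (fl_nonneg _) hℓ0.le
    have hB1 : ∀ i j, B i j ≤ 1 := by
      intro i j
      rw [hBij]
      split_ifs
      · exact le_rfl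
      · rw [div_le_one hℓ0]; exact hAAle i j
    have hbr := hB N B hB0 hB1
    obtain ⟨c, hc⟩ : ∃ c : Fin N → ℝ, c = fun i => if i ∈ D' then 1 else κ * ℓ := ⟨_, rfl⟩
    have hci : ∀ i, c i = if i ∈ D' then 1 else κ * ℓ := fun i => by rw [hc]
    have hc0 : ∀ i, 0 ≤ c i := by
      intro i; rw [hci]; split_ifs <;> positivity
    have e1 : ∑ σ : Equiv.Perm (Fin N), ∏ i ∈ univ \ D', w (σ i) i =
        (∏ i, c i) * B.permanent := by
      rw [← Matrix.permanent_transpose, Matrix.permanent, mul_sum]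
      refine sum_congr rfl fun σ _ => ?_
      rw [← prod_mul_distrib, ← prod_sdiff (subset_univ D')]
      have e2 : ∏ i ∈ D', c i * B.transpose (σ i) i = 1 := by
        refine prod_eq_one fun i hi => ?_
        rw [Matrix.transpose_apply, hci, hBij, if_pos hi, if_pos hi, one_mul]
      rw [e2, mul_one]
      refine prod_congr rfl fun i hi => ?_
      have hi' := (Finset.mem_sdiff.1 hi).2
      rw [Matrix.transpose_apply, hci, hBij, if_neg hi', if_neg hi', hwsymm, hwij]
      field_simp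
    rw [e1]
    have e2 : (∏ i, c i) * B.permanent ≤
        ∏ i, (c i * ((∑ j, B i j + Real.log N + 3) / Real.exp 1)) := by
      rw [prod_mul_distrib]
      exact mul_le_mul_of_nonneg_left hbr (prod_nonneg fun i _ => hc0 i)
    refine e2.trans ?_
    have e3 : ∏ i, (c i * ((∑ j, B i j + Real.log N + 3) / Real.exp 1)) ≤
        ∏ i : Fin N, ((if i ∈ D' then 2 * (N : ℝ) else 1) / Real.exp 1) := by
      refine prod_le_prod (fun i _ => ?_) fun i _ => ?_
      · refine mul_nonneg (hc0 i) (div_nonneg ?_ (Real.exp_pos _).le)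
        have : 0 ≤ ∑ j, B i j := sum_nonneg fun j _ => hB0 i j
        linarith
      · rw [← mul_div_assoc]
        refine div_le_div_of_nonneg_right ?_ (Real.exp_pos _).le
        by_cases hi : i ∈ D'
        · rw [hci, if_pos hi, if_pos hi, one_mul]
          have : ∑ j, B i j = N := by
            rw [sum_congr rfl fun j _ => by rw [hBij, if_pos hi], sum_const, card_univ,
              Fintype.card_fin, nsmul_eq_mul, mul_one]
          rw [this]
          have e5 : Real.log N + 3 ≤ N := by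
            have e9 : (16 : ℝ) ^ 10 ≤ L ^ 10 := by gcongr
            have e10 : (5 : ℝ) ≤ N := by
              norm_num at e9
              linarith
            have e6 := Real.log_le_sub_one_of_pos (x := (N : ℝ) / 4) (by positivity)
            rw [Real.log_div hN0.ne' (by norm_num)] at e6
            have e7 : Real.log 4 < 1.4 := by
              rw [show (4 : ℝ) = 2 ^ 2 by norm_num, Real.log_pow]
              have := Real.log_two_lt_d9
              push_cast
              linarith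
            linarith
          linarith
        · rw [hci, if_neg hi, if_neg hi]
          have e5 : ∑ j, B i j = (∑ j, AA m N i j) / ℓ := by
            rw [sum_div]
            exact sum_congr rfl fun j _ => by rw [hBij, if_neg hi]
          rw [e5]
          have e6 := hrow i
          rw [abs_le] at e6
          have e7 : κ * ℓ * ((∑ j, AA m N i j) / ℓ + Real.log N + 3) =
              κ * (∑ j, AA m N i j + ℓ * (Real.log N + 3)) := by
            field_simp
            ring
          rw [e7]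
          have e8 : κ * (2 * N * (1 + 2 * η)) = 1 := by rw [hκ]; field_simp
          rw [← e8]
          refine mul_le_mul_of_nonneg_left ?_ hκ0.le
          linarith [e6.2]
    refine e3.trans (le_of_eq ?_)
    rw [prod_div_distrib, prod_const, card_univ, Fintype.card_fin, prod_ite, prod_const, prod_const,
      one_pow, mul_one]
    have e4 : (univ.filter (fun i => i ∈ D')) = D' := by ext i; simp
    rw [e4, Real.exp_neg, ← Real.exp_nat_mul, mul_one]
    rw [div_eq_mul_inv, mul_comm]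
  -- the tail
  have htail : ∑ r ∈ Ico (k + 1) (N + 1), (N.choose r : ℝ) * (18 * η / N * (2 * N)) ^ r ≤ 1 / 2 := by
    have e1 : ∀ r ∈ Ico (k + 1) (N + 1), (N.choose r : ℝ) * (18 * η / N * (2 * N)) ^ r ≤
        (1 / 4) ^ r := by
      intro r hr
      rw [mem_Ico] at hr
      have hr0 : (0 : ℝ) < r := by
        have : 0 < r := by omega
        exact_mod_cast this
      have e2 : (N.choose r : ℝ) ≤ (N * Real.exp 1 / r) ^ r := by
        have e3 : (N.choose r : ℝ) ≤ (N : ℝ) ^ r / r.factorial := Nat.choose_le_pow_div r N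
        have e4 := inv_factorial_le r (by omega)
        calc (N.choose r : ℝ) ≤ (N : ℝ) ^ r / r.factorial := e3
          _ = (N : ℝ) ^ r * (1 / r.factorial) := by ring
          _ ≤ (N : ℝ) ^ r * (Real.exp 1 / r) ^ r := by gcongr
          _ = (N * Real.exp 1 / r) ^ r := by rw [← mul_pow]; congr 1; ring
      have e5 : 18 * η / N * (2 * N) = 36 * η := by field_simp; ring
      rw [e5]
      calc (N.choose r : ℝ) * (36 * η) ^ r ≤ (N * Real.exp 1 / r) ^ r * (36 * η) ^ r := by gcongr
        _ = (N * Real.exp 1 / r * (36 * η)) ^ r := (mul_pow _ _ r).symm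
        _ ≤ (1 / 4) ^ r := by
          have hexp3 : Real.exp 1 < 3 := by have := Real.exp_one_lt_d9; linarith
          have hNr : (N : ℝ) / r ≤ L ^ 5 := by
            rw [div_le_iff₀ hr0]
            rw [div_lt_iff₀ (by positivity)] at f5
            have : ((k : ℝ) + 1) ≤ r := by exact_mod_cast hr.1
            calc (N : ℝ) ≤ (k + 1) * L ^ 5 := f5.le
              _ ≤ r * L ^ 5 := by gcongr
              _ = L ^ 5 * r := by ring
          have e6 : N * Real.exp 1 / r * (36 * η) ≤ 1 / 4 := by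
            calc N * Real.exp 1 / r * (36 * η) = (N / r) * Real.exp 1 * (36 * η) := by ring
              _ ≤ L ^ 5 * 3 * (36 * η) := by gcongr
              _ = 108 / L ^ 3 := by rw [hη]; field_simp; norm_num
              _ ≤ 108 / 16 ^ 3 := by gcongr
              _ ≤ 1 / 4 := by norm_num
          gcongr
    refine (sum_le_sum e1).trans ?_
    refine (geom_sum_Ico_le_of_lt_one (by norm_num) (by norm_num)).trans ?_
    have e2 : (1 / 4 : ℝ) ^ (k + 1) ≤ (1 / 4) ^ 1 :=
      pow_le_pow_of_le_one (by norm_num) (by norm_num) (by omega)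
    rw [div_le_iff₀ (by norm_num)]
    linarith
  obtain ⟨h1, h2⟩ := ws_sums k w Q (2 * N) (18 * η / N) hN1 hw0 hQ0 hQle (by positivity) (by
    have : 18 * η / N * N = 18 * η := by field_simp
    rw [this]; linarith) hper hP htail
  refine ⟨w, ⟨hw0, ?_, ?_, h1, h2⟩⟩
  · intro i j hij
    by_contra hnp
    apply hij
    rw [hwij]
    unfold AA fl
    rw [if_neg hnp, mul_zero]
  · intro i j
    rw [hwij, ← hℓ]
    calc κ * AA m N i j ≤ κ * ℓ := by gcongr; exact hAAle i j
      _ ≤ ℓ / (2 * N) := by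
        have e1 : κ ≤ 1 / (2 * N) := by
          rw [hκ]
          apply one_div_le_one_div_of_le (by positivity)
          nlinarith only [mul_pos hN0 hη0]
        calc κ * ℓ ≤ 1 / (2 * N) * ℓ := by gcongr
          _ = ℓ / (2 * N) := by ring

end

end Pool.Agent.Work.MP_713a1e_co.T3
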