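import Mathlib
import Pool.Agent.Work.MP_713a1e_co.T3Weights
import Pool.Agent.Work.MP_713a1e_co.T3PairsC
import Pool.Agent.Work.MP_713a1e_co.Count

/-! The upper bound for the number of rows, from Bregman's theorem. -/

namespace Pool.Agent.Work.MP_713a1e_co.T3

open Finset Filter

noncomputable section

/-- primes in intervals of length `n` below `2 n` -/
lemma primes_le (δ : ℝ) (hδ : 0 < δ) : ∀ᶠ n : ℕ in atTop, ∀ x ≤ n,
    (((Ioc x (x + n)).filter Nat.Prime).card : ℝ) ≤ (1 + δ) * n / Real.log n := by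
  obtain ⟨C, hC, hθ⟩ := theta_unifA 1
  have t1 : Tendsto (fun n : ℕ => (n : ℝ)) atTop atTop := tendsto_natCast_atTop_atTop
  have t2 : Tendsto (fun n : ℕ => Real.log n) atTop atTop := Real.tendsto_log_atTop.comp t1
  obtain ⟨δ', hδ'⟩ : ∃ δ', δ' = δ / (2 * (1 + δ)) := ⟨_, rfl⟩
  have hδ'0 : 0 < δ' := by rw [hδ']; positivity
  have h0 : ∀ᶠ x : ℝ in atTop, ‖Real.log x‖ ≤ (δ' / 2) * ‖x‖ :=
    Real.isLittleO_log_id_atTop.bound (by positivity)
  filter_upwards [hθ, t2.eventually h0, t2.eventually_ge_atTop (max 2 (2 * (2 * C + 1) / δ)),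
    eventually_ge_atTop 1] with n hθ hLL hL hn1 x hx
  obtain ⟨L, hLdef⟩ : ∃ L, L = Real.log n := ⟨_, rfl⟩
  rw [← hLdef] at hθ hLL hL ⊢
  have hn0 : (0 : ℝ) < n := by exact_mod_cast hn1
  have hL2 : 2 ≤ L := le_trans (le_max_left _ _) hL
  have hL3 : 2 * (2 * C + 1) / δ ≤ L := le_trans (le_max_right _ _) hL
  have hL0 : 0 < L := by linarith
  have hlogL : 0 ≤ Real.log L := Real.log_nonneg (by linarith)
  rw [Real.norm_of_nonneg hlogL, Real.norm_of_nonneg hL0.le] at hLL
  obtain ⟨F, hF⟩ : ∃ F, F = (Ioc x (x + n)).filter Nat.Prime := ⟨_, rfl⟩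
  rw [← hF]
  obtain ⟨y, hy⟩ : ∃ y : ℝ, y = n / L ^ 2 := ⟨_, rfl⟩
  have hy0 : 0 < y := by rw [hy]; positivity
  have hFp : ∀ p ∈ F, p.Prime := fun p hp => by rw [hF, mem_filter] at hp; exact hp.2
  have e1 : ∀ p ∈ F, L - 2 * Real.log L ≤ Real.log p + (if (p : ℝ) < y then L else 0) := by
    intro p hp
    have hp1 : (1 : ℝ) ≤ p := by exact_mod_cast (hFp p hp).one_lt.le
    have hlp : 0 ≤ Real.log p := Real.log_nonneg hp1
    split_ifs with h
    · linarith
    · rw [not_lt] at h
      have h1 : Real.log y ≤ Real.log p := Real.log_le_log hy0 h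
      have h2 : Real.log y = L - 2 * Real.log L := by
        rw [hy, Real.log_div hn0.ne' (by positivity), Real.log_pow, hLdef]; push_cast; rfl
      linarith
  have e2 : (F.card : ℝ) * (L - 2 * Real.log L) ≤
      ∑ p ∈ F, Real.log p + ∑ p ∈ F, (if (p : ℝ) < y then L else 0) := by
    rw [← sum_add_distrib, ← nsmul_eq_mul]
    exact card_nsmul_le_sum _ _ _ e1
  have e3 : ∑ p ∈ F, (if (p : ℝ) < y then L else 0) ≤ y * L := by
    rw [← sum_filter, sum_const, nsmul_eq_mul]
    have h1 : ((F.filter (fun p : ℕ => (p : ℝ) < y)).card : ℝ) ≤ y := by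
      have h2 : F.filter (fun p : ℕ => (p : ℝ) < y) ⊆ Ioc 0 ⌊y⌋₊ := by
        intro p hp
        rw [mem_filter] at hp
        rw [mem_Ioc]
        exact ⟨(hFp p hp.1).pos, Nat.le_floor hp.2.le⟩
      have h3 := card_le_card h2
      rw [Nat.card_Ioc, Nat.sub_zero] at h3
      have h4 : ((F.filter (fun p : ℕ => (p : ℝ) < y)).card : ℝ) ≤ (⌊y⌋₊ : ℝ) := by
        exact_mod_cast h3
      exact h4.trans (Nat.floor_le hy0.le)
    gcongr
  have hth := theta_diff x (x + n) (by omega)
  rw [← hF] at hth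
  rw [← hth] at e2
  have hxn : (x : ℝ) ≤ n := by exact_mod_cast hx
  have e4 := hθ (x : ℝ) (Nat.cast_nonneg _) (by linarith)
  have e5 := hθ ((x + n : ℕ) : ℝ) (Nat.cast_nonneg _) (by push_cast; linarith)
  rw [abs_le, pow_one] at e4 e5
  push_cast at e4 e5 e2
  have e6 : y * L = n / L := by rw [hy]; field_simp
  have e7 : (F.card : ℝ) * (L - 2 * Real.log L) ≤ n * (1 + δ / 2) := by
    have h1 : (2 * C + 1) / L ≤ δ / 2 := by
      rw [div_le_iff₀ hL0]
      rw [div_le_iff₀ hδ] at hL3
      linarith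
    have h2 : n * ((2 * C + 1) / L) ≤ n * (δ / 2) := by gcongr
    have h3 : n * ((2 * C + 1) / L) = 2 * (C * n / L) + n / L := by ring
    linarith [e4.1, e4.2, e5.1, e5.2]
  have e8 : (1 - δ') * L ≤ L - 2 * Real.log L := by linarith
  have e9 : (1 + δ) * (1 - δ') = 1 + δ / 2 := by rw [hδ']; field_simp; ring
  rw [le_div_iff₀ hL0]
  have e10 : (F.card : ℝ) * L * (1 - δ') ≤ (1 + δ) * n * (1 - δ') := by
    calc (F.card : ℝ) * L * (1 - δ') = F.card * ((1 - δ') * L) := by ring
      _ ≤ F.card * (L - 2 * Real.log L) := by gcongr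
      _ ≤ n * (1 + δ / 2) := e7
      _ = (1 + δ) * n * (1 - δ') := by rw [← e9]; ring
  have e11 : 0 < 1 - δ' := by
    have : 0 < (1 + δ) * (1 - δ') := by rw [e9]; positivity
    exact pos_of_mul_pos_right this (by positivity)
  exact le_of_mul_le_mul_right e10 e11

/-- the matrix of successors -/
def SS (n : ℕ) : Matrix (Fin n) (Fin n) ℝ := fun i j =>
  if (i : ℕ) + 1 = n then (if (j : ℕ) = 0 then 1 else 0)
  else (if ((i : ℕ) + 1 + ((j : ℕ) + 1)).Prime then 1 else 0)

lemma SS_zero_one (n : ℕ) (i j : Fin n) : SS n i j = 0 ∨ SS n i j = 1 := by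
  unfold SS
  split_ifs <;> simp

/-- the number of rows is at most the permanent -/
lemma rows_le_perm (n : ℕ) (hn : 1 ≤ n) :
    ((Rows (Icc 1 n) 1 n).ncard : ℝ) ≤ (SS n).permanent := by
  classical
  -- permutations of weight one
  obtain ⟨P, hP⟩ : ∃ P : Finset (Equiv.Perm (Fin n)),
      P = univ.filter (fun σ => ∀ i, SS n i (σ i) = 1) := ⟨_, rfl⟩
  have h1 : (SS n).permanent = P.card := by
    rw [← Matrix.permanent_transpose, Matrix.permanent]
    have h2 : ∀ σ : Equiv.Perm (Fin n), ∏ i, (SS n).transpose (σ i) i =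
        if (∀ i, SS n i (σ i) = 1) then (1 : ℝ) else 0 := by
      intro σ
      split_ifs with h
      · exact prod_eq_one fun i _ => h i
      · push Not at h
        obtain ⟨i, hi⟩ := h
        exact prod_eq_zero (mem_univ i) ((SS_zero_one n i (σ i)).resolve_right hi)
    rw [sum_congr rfl fun σ _ => h2 σ, sum_boole, hP]
  rw [h1]
  -- the map from rows to permutations
  obtain ⟨e, he⟩ : ∃ e : ℕ → Fin n, e = fun x => ⟨(x - 1) % n, Nat.mod_lt _ (by omega)⟩ :=
    ⟨_, rfl⟩
  have hev : ∀ x, 1 ≤ x → x ≤ n → ((e x : Fin n) : ℕ) + 1 = x := by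
    intro x hx1 hx2
    rw [he]
    simp only
    rw [Nat.mod_eq_of_lt (by omega)]
    omega
  have hinj : ∀ x y, 1 ≤ x → x ≤ n → 1 ≤ y → y ≤ n → e x = e y → x = y := by
    intro x y hx1 hx2 hy1 hy2 h
    have h3 := hev x hx1 hx2
    have h4 := hev y hy1 hy2
    rw [h] at h3
    omega
  have hcard : ∀ l ∈ Rows (Icc 1 n) 1 n, l.length = n := by
    intro l hl
    obtain ⟨h3, h4, -, -, -⟩ := hl
    have h5 : l.toFinset = Icc 1 n := by
      ext x; rw [List.mem_toFinset, h4]
    rw [← List.toFinset_card_of_nodup h3, h5, Nat.card_Icc]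
    omega
  have hmem : ∀ l ∈ Rows (Icc 1 n) 1 n, ∀ x ∈ l, 1 ≤ x ∧ x ≤ n := by
    intro l hl x hx
    have := (hl.2.1 x).1 hx
    exact mem_Icc.1 this
  have hnd : ∀ l ∈ Rows (Icc 1 n) 1 n, (l.map e).Nodup := by
    intro l hl
    refine (List.nodup_map_iff_inj_on hl.1).2 fun x hx y hy h => ?_
    exact hinj x y (hmem l hl x hx).1 (hmem l hl x hx).2 (hmem l hl y hy).1 (hmem l hl y hy).2 h
  -- values of the permutation
  have hval : ∀ l ∈ Rows (Icc 1 n) 1 n, ∀ k (hk : k < l.length),
      (l.map e).formPerm (e l[k]) = e (l[(k + 1) % l.length]'(Nat.mod_lt _ (by omega))) := by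
    intro l hl k hk
    have h3 := List.formPerm_apply_getElem (l.map e) (hnd l hl) k (by rwa [List.length_map])
    simp only [List.getElem_map, List.length_map] at h3
    exact h3
  have h2 : (Rows (Icc 1 n) 1 n).ncard ≤ (P : Set (Equiv.Perm (Fin n))).ncard := by
    refine Set.ncard_le_ncard_of_injOn (fun l => (l.map e).formPerm) ?_ ?_ (Set.toFinite _)
    · intro l hl
      rw [mem_coe, hP, mem_filter]
      refine ⟨mem_univ _, fun i => ?_⟩
      have hln := hcard l hl
      obtain ⟨h3, h4, h5, h6, h7⟩ := hl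
      have hi : (i : ℕ) + 1 ∈ l := by
        rw [h4, mem_Icc]
        have := i.2
        omega
      obtain ⟨k, hk, hki⟩ := List.getElem_of_mem hi
      have hei : e l[k] = i := by
        apply Fin.ext
        have := hev ((i : ℕ) + 1) (by omega) (by have := i.2; omega)
        rw [hki]
        omega
      have h8 := hval l ⟨h3, h4, h5, h6, h7⟩ k hk
      rw [hei] at h8
      rw [h8]
      by_cases hkn : k + 1 < l.length
      · -- inner element
        have h9 : (k + 1) % l.length = k + 1 := Nat.mod_eq_of_lt hkn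
        have h10 := hmem l ⟨h3, h4, h5, h6, h7⟩ (l[k + 1]) (List.getElem_mem hkn)
        have h11 := hev _ h10.1 h10.2
        have h12 : Adj l[k] l[k + 1] := List.isChain_iff_getElem.1 h7 k hkn
        have hne : ¬ ((i : ℕ) + 1 = n) := by
          intro h13
          have h14 : l.getLast? = some (l[l.length - 1]) := by
            rw [List.getLast?_eq_getElem?, List.getElem?_eq_getElem]
          rw [h6, Option.some.injEq] at h14
          have h15 : l[k] = l[l.length - 1] := by rw [← h14, hki, h13]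
          have h16 := (List.Nodup.getElem_inj_iff h3).1 h15
          omega
        unfold SS
        rw [if_neg hne, if_pos]
        simp only [h9]
        rw [h11, ← hki]
        exact h12
      · -- last element
        have h9 : k + 1 = l.length := by omega
        have h10 : (k + 1) % l.length = 0 := by rw [h9, Nat.mod_self]
        have h11 : l[0] = 1 := by
          have h12 : l.head? = some l[0] := by
            rw [List.head?_eq_getElem?, List.getElem?_eq_getElem]
          rw [h5, Option.some.injEq] at h12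
          exact h12.symm
        have h12 : (i : ℕ) + 1 = n := by
          have h14 : l.getLast? = some (l[l.length - 1]) := by
            rw [List.getLast?_eq_getElem?, List.getElem?_eq_getElem]
          rw [h6, Option.some.injEq] at h14
          rw [← hki, h14]
          congr 1
          omega
        unfold SS
        rw [if_pos h12, if_pos]
        simp only [h10, h11]
        have := hev 1 le_rfl hn
        omega
    · intro l hl l' hl' heq
      simp only at heq
      have hln := hcard l hl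
      have hln' := hcard l' hl'
      have h3 : ∀ k (hk : k < l.length) (hk' : k < l'.length), l[k] = l'[k] := by
        intro k
        induction k with
        | zero =>
          intro hk hk'
          have h4 : l.head? = some l[0] := by
            rw [List.head?_eq_getElem?, List.getElem?_eq_getElem]
          have h5 : l'.head? = some l'[0] := by
            rw [List.head?_eq_getElem?, List.getElem?_eq_getElem]
          rw [hl.2.2.1, Option.some.injEq] at h4
          rw [hl'.2.2.1, Option.some.injEq] at h5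
          rw [← h4, ← h5]
        | succ k ih =>
          intro hk hk'
          have h4 := hval l hl k (by omega)
          have h5 := hval l' hl' k (by omega)
          rw [← heq, ← ih (by omega) (by omega), h4] at h5
          simp only [Nat.mod_eq_of_lt hk, Nat.mod_eq_of_lt hk'] at h5
          have h6 := hmem l hl _ (List.getElem_mem hk)
          have h7 := hmem l' hl' _ (List.getElem_mem hk')
          exact hinj _ _ h6.1 h6.2 h7.1 h7.2 h5
      exact List.ext_getElem (by omega) fun k hk hk' => h3 k hk hk'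
  rw [Set.ncard_coe_finset] at h2
  exact_mod_cast h2

lemma SS_row (n : ℕ) (i : Fin n) (hi : ¬ ((i : ℕ) + 1 = n)) :
    ∑ j, SS n i j ≤ (((Ioc ((i : ℕ) + 1) ((i : ℕ) + 1 + n)).filter Nat.Prime).card : ℝ) := by
  classical
  have h1 : ∑ j, SS n i j = ((univ.filter (fun j : Fin n =>
      ((i : ℕ) + 1 + ((j : ℕ) + 1)).Prime)).card : ℝ) := by
    unfold SS
    rw [sum_congr rfl fun j _ => if_neg hi, sum_boole]
  rw [h1]
  have h2 : (univ.filter (fun j : Fin n => ((i : ℕ) + 1 + ((j : ℕ) + 1)).Prime)).card ≤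
      ((Ioc ((i : ℕ) + 1) ((i : ℕ) + 1 + n)).filter Nat.Prime).card := by
    refine card_le_card_of_injOn (fun j : Fin n => (i : ℕ) + 1 + ((j : ℕ) + 1)) ?_ ?_
    · intro j hj
      rw [mem_coe, mem_filter] at hj ⊢
      have := j.2
      refine ⟨mem_Ioc.2 ⟨?_, ?_⟩, hj.2⟩
      · simp only; omega
      · simp only; omega
    · intro j _ j' _ h
      simp only at h
      exact Fin.ext (by omega)
  exact_mod_cast h2

lemma SS_last (n : ℕ) (i : Fin n) (hi : (i : ℕ) + 1 = n) : ∑ j, SS n i j ≤ 1 := by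
  classical
  have h1 : ∑ j, SS n i j = ((univ.filter (fun j : Fin n => (j : ℕ) = 0)).card : ℝ) := by
    unfold SS
    rw [sum_congr rfl fun j _ => if_pos hi, sum_boole]
  rw [h1]
  have h2 : (univ.filter (fun j : Fin n => (j : ℕ) = 0)).card ≤ 1 := by
    rw [card_le_one]
    intro a ha b hb
    rw [mem_filter] at ha hb
    exact Fin.ext (by omega)
  exact_mod_cast h2

/-- **The upper bound.** -/
theorem upper_of (hB : BregW) (ε : ℝ) (hε : 0 < ε) : ∀ᶠ n : ℕ in atTop,
    ((Rows (Icc 1 n) 1 n).ncard : ℝ) ≤ ((1 + ε) * n / (Real.exp 1 * Real.log n)) ^ n := by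
  have t1 : Tendsto (fun n : ℕ => (n : ℝ)) atTop atTop := tendsto_natCast_atTop_atTop
  have t2 : Tendsto (fun n : ℕ => Real.log n) atTop atTop := Real.tendsto_log_atTop.comp t1
  filter_upwards [primes_le (ε / 2) (by positivity), t2.eventually_ge_atTop 4,
    eventually_ge_atTop 1, log_pow_small 2 (min (ε / 4) (1 / 4)) (by positivity)] with n h1 hL hn hlog
  have hn0 : (0 : ℝ) < n := by exact_mod_cast hn
  refine (rows_le_perm n hn).trans ?_
  have hSS0 : ∀ i j, 0 ≤ SS n i j := fun i j => by
    rcases SS_zero_one n i j with h | h <;> rw [h] <;> norm_num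
  have hSS1 : ∀ i j, SS n i j ≤ 1 := fun i j => by
    rcases SS_zero_one n i j with h | h <;> rw [h] <;> norm_num
  refine (hB n (SS n) hSS0 hSS1).trans ?_
  obtain ⟨L, hLdef⟩ : ∃ L, L = Real.log n := ⟨_, rfl⟩
  rw [← hLdef] at h1 hL hlog ⊢
  have hL0 : 0 < L := by linarith
  have hlog1 : L ^ 2 ≤ ε / 4 * n := hlog.trans (by gcongr; exact min_le_left _ _)
  have hlog2 : L ^ 2 ≤ 1 / 4 * n := hlog.trans (by gcongr; exact min_le_right _ _)
  have h2 : ∀ i : Fin n, (∑ j, SS n i j + L + 3) / Real.exp 1 ≤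
      (1 + ε) * n / (Real.exp 1 * L) := by
    intro i
    rw [mul_comm (Real.exp 1), ← div_div]
    refine div_le_div_of_nonneg_right ?_ (Real.exp_pos _).le
    by_cases hi : (i : ℕ) + 1 = n
    · have h3 := SS_last n i hi
      rw [le_div_iff₀ hL0]
      nlinarith
    · have h3 := SS_row n i hi
      have h4 := h1 ((i : ℕ) + 1) (by have := i.2; omega)
      have h5 : ∑ j, SS n i j ≤ (1 + ε / 2) * n / L := h3.trans h4
      have h6 : (1 + ε) * n / L = (1 + ε / 2) * n / L + (ε / 2) * n / L := by ring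
      have h7 : L + 3 ≤ (ε / 2) * n / L := by
        rw [le_div_iff₀ hL0]
        nlinarith
      linarith
  calc ∏ i, ((∑ j, SS n i j + L + 3) / Real.exp 1) ≤
      ∏ i : Fin n, ((1 + ε) * n / (Real.exp 1 * L)) := by
        refine prod_le_prod (fun i _ => ?_) fun i _ => h2 i
        have : 0 ≤ ∑ j, SS n i j := sum_nonneg fun j _ => hSS0 i j
        positivity
    _ = ((1 + ε) * n / (Real.exp 1 * L)) ^ n := by
        rw [prod_const, card_univ, Fintype.card_fin]

end

end Pool.Agent.Work.MP_713a1e_co.T3
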