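import Mathlib
import Pool.Agent.Work.MP_713a1e_co.T3Defs

/-!
The weak van der Waerden bound: the permanent of a doubly stochastic `N × N` matrix is at least
`exp (-N)`. The proof is Gurvits' capacity argument for homogeneous polynomials without zeros in the
right half plane.
-/

namespace Pool.Agent.Work.MP_713a1e_co.T3

open Finset

noncomputable section

namespace VdWAux

/-! ### One variable -/

/-- a non-constant complex polynomial all of whose roots have negative real part has a nonzero
linear coefficient -/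
lemma coeff_one_ne {f : Polynomial ℂ} (hd : 1 ≤ f.natDegree)
    (hr : ∀ r : ℂ, 0 ≤ r.re → f.eval r ≠ 0) : f.coeff 1 ≠ 0 := by
  have h0 : f.eval 0 ≠ 0 := hr 0 (by simp)
  have hs := IsAlgClosed.splits f
  have hkey := hs.eval_derivative_div_eval_of_ne_zero h0
  have hcard : f.roots.card = f.natDegree := hs.natDegree_eq_card_roots.symm
  have hf0 : f ≠ 0 := by
    rintro rfl
    simp at h0
  have hpos : ∀ s : Multiset ℂ, (∀ z ∈ s, z.re < 0) →
      0 ≤ ((s.map fun z ↦ 1 / (0 - z)).sum).re ∧
        (0 < s.card → 0 < ((s.map fun z ↦ 1 / (0 - z)).sum).re) := by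
    intro s
    induction s using Multiset.induction_on with
    | empty => simp
    | cons a s ih =>
      intro hs
      have ha : a.re < 0 := hs a (Multiset.mem_cons_self a s)
      obtain ⟨ih1, -⟩ := ih (fun z hz => hs z (Multiset.mem_cons_of_mem hz))
      have h1 : 0 < (1 / (0 - a)).re := by
        have ha' : a ≠ 0 := by
          rintro rfl
          simp at ha
        have hns : 0 < Complex.normSq (0 - a) := by
          rw [Complex.normSq_pos]
          simpa using ha'
        rw [one_div, Complex.inv_re]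
        apply div_pos _ hns
        simp only [Complex.sub_re, Complex.zero_re]
        linarith
      simp only [Multiset.map_cons, Multiset.sum_cons, Complex.add_re]
      constructor
      · linarith
      · intro _
        linarith
  have hroots : ∀ z ∈ f.roots, z.re < 0 := by
    intro z hz
    rw [Polynomial.mem_roots hf0] at hz
    by_contra hc
    push Not at hc
    exact hr z hc hz
  have hp := (hpos f.roots hroots).2 (by omega)
  intro h1
  have hder : f.derivative.eval 0 = f.coeff 1 := by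
    rw [← Polynomial.coeff_zero_eq_eval_zero, Polynomial.coeff_derivative]
    simp
  rw [hder, h1, zero_div] at hkey
  rw [← hkey] at hp
  simp at hp

/-- growth of a product of linear factors with negative roots -/
lemma norm_prod_le (s : Multiset ℂ) (hs : ∀ z ∈ s, z.re < 0 ∧ z.im = 0) (t : ℝ) (ht : 0 ≤ t) :
    0 ≤ ((s.map fun z ↦ 1 / (0 - z)).sum).re ∧ ((s.map fun z ↦ 1 / (0 - z)).sum).im = 0 ∧
      ‖(s.map fun z ↦ ((t : ℂ) - z)).prod‖ ≤ ‖(s.map fun z ↦ ((0 : ℂ) - z)).prod‖ *
        Real.exp (t * ((s.map fun z ↦ 1 / (0 - z)).sum).re) := by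
  induction s using Multiset.induction_on with
  | empty => simp
  | cons a s ih =>
    obtain ⟨ih0, ih1, ih2⟩ := ih (fun z hz => hs z (Multiset.mem_cons_of_mem hz))
    obtain ⟨ha1, ha2⟩ := hs a (Multiset.mem_cons_self a s)
    obtain ⟨b, hb⟩ : ∃ b : ℝ, b = -a.re := ⟨_, rfl⟩
    have hbpos : 0 < b := by linarith
    have ha : a = -(b : ℂ) := by
      apply Complex.ext
      · simp [hb]
      · simp [ha2]
    have h1 : (1 / (0 - a)) = ((1 / b : ℝ) : ℂ) := by
      rw [ha]
      push_cast
      ring
    have h1r : (1 / (0 - a)).re = 1 / b := by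
      rw [h1, Complex.ofReal_re]
    have h1i : (1 / (0 - a)).im = 0 := by
      rw [h1, Complex.ofReal_im]
    have h2 : ‖(t : ℂ) - a‖ = t + b := by
      have : (t : ℂ) - a = ((t + b : ℝ) : ℂ) := by
        rw [ha]
        push_cast
        ring
      rw [this, Complex.norm_real, Real.norm_of_nonneg (by linarith)]
    have h3 : ‖(0 : ℂ) - a‖ = b := by
      have : (0 : ℂ) - a = ((b : ℝ) : ℂ) := by
        rw [ha]
        ring
      rw [this, Complex.norm_real, Real.norm_of_nonneg hbpos.le]
    simp only [Multiset.map_cons, Multiset.sum_cons, Multiset.prod_cons, Complex.add_re,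
      Complex.add_im, norm_mul]
    rw [h1r, h1i, h2, h3, ih1]
    refine ⟨by positivity, by simp, ?_⟩
    have h4 : t + b ≤ b * Real.exp (t * (1 / b)) := by
      have := Real.add_one_le_exp (t * (1 / b))
      calc t + b = b * (t * (1 / b) + 1) := by field_simp
        _ ≤ b * Real.exp (t * (1 / b)) := by
          apply mul_le_mul_of_nonneg_left this hbpos.le
    refine (mul_le_mul h4 ih2 (norm_nonneg _) (by positivity)).trans (le_of_eq ?_)
    rw [mul_add, Real.exp_add]
    ring

/-- growth of a polynomial with negative roots -/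
lemma norm_eval_le {f : Polynomial ℂ} (h0 : f.eval 0 ≠ 0)
    (hr : ∀ r : ℂ, f.eval r = 0 → r.re < 0 ∧ r.im = 0) (t : ℝ) (ht : 0 ≤ t) :
    ‖f.eval (t : ℂ)‖ ≤ ‖f.eval 0‖ * Real.exp (t * (‖f.coeff 1‖ / ‖f.eval 0‖)) := by
  have hs := IsAlgClosed.splits f
  have hf0 : f ≠ 0 := by
    rintro rfl
    simp at h0
  have hroots : ∀ z ∈ f.roots, z.re < 0 ∧ z.im = 0 := by
    intro z hz
    rw [Polynomial.mem_roots hf0] at hz
    exact hr z hz
  obtain ⟨h1, h2, h3⟩ := norm_prod_le f.roots hroots t ht
  have hkey := hs.eval_derivative_div_eval_of_ne_zero h0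
  have hder : f.derivative.eval 0 = f.coeff 1 := by
    rw [← Polynomial.coeff_zero_eq_eval_zero, Polynomial.coeff_derivative]
    simp
  have hn : ‖f.coeff 1‖ / ‖f.eval 0‖ = ((f.roots.map fun z ↦ 1 / (0 - z)).sum).re := by
    rw [← norm_div, ← hder, hkey]
    rw [← Complex.re_add_im ((f.roots.map fun z ↦ 1 / (0 - z)).sum), h2]
    simp only [Complex.ofReal_zero, zero_mul, add_zero, Complex.norm_real, Complex.ofReal_re]
    exact Real.norm_of_nonneg h1
  rw [hn, hs.eval_eq_prod_roots, hs.eval_eq_prod_roots, norm_mul, norm_mul, mul_assoc]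
  exact mul_le_mul_of_nonneg_left h3 (norm_nonneg _)

/-! ### Several variables -/

open MvPolynomial

/-- homogeneous polynomials scale -/
lemma eval_scale {n k : ℕ} {p : MvPolynomial (Fin n) ℂ} (hp : p.IsHomogeneous k) (u : ℂ)
    (z : Fin n → ℂ) : eval (fun i => u * z i) p = u ^ k * eval z p := by
  rw [eval_eq', eval_eq', Finset.mul_sum]
  apply Finset.sum_congr rfl
  intro d hd
  have hdeg : ∑ i, d i = k := by
    by_contra hne
    rw [mem_support_iff] at hd
    apply hd
    apply hp.coeff_eq_zero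
    rw [Finsupp.degree_eq_sum]
    exact hne
  have h1 : ∏ i, (u * z i) ^ d i = u ^ k * ∏ i, z i ^ d i := by
    simp_rw [mul_pow]
    rw [Finset.prod_mul_distrib, Finset.prod_pow_eq_pow_sum, hdeg]
  rw [h1]
  ring

/-- homogeneous polynomials without zeros in the right half plane, with a lower bound -/
structure Good (k : ℕ) (p : MvPolynomial (Fin k) ℂ) (c : ℝ) : Prop where
  hom : p.IsHomogeneous k
  st : ∀ z : Fin k → ℂ, (∀ i, 0 ≤ (z i).re) → (∃ i, 0 < (z i).re) → eval z p ≠ 0
  cap : ∀ x : Fin k → ℝ, (∀ i, 0 < x i) → c * ∏ i, x i ≤ ‖eval (fun i => (x i : ℂ)) p‖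

/-- coefficients of high degree vanish -/
lemma coeff_high {k : ℕ} {p : MvPolynomial (Fin (k + 1)) ℂ} (hp : p.IsHomogeneous (k + 1)) {i : ℕ}
    (hi : k + 1 < i) : (finSuccEquiv ℂ k p).coeff i = 0 := by
  ext m
  rw [finSuccEquiv_coeff_coeff, coeff_zero]
  apply hp.coeff_eq_zero
  rw [Finsupp.degree_eq_sum, Fin.sum_univ_succ]
  simp only [Finsupp.cons_zero, Finsupp.cons_succ]
  omega

/-- restriction to the first axis -/
lemma map_zero_eq {k : ℕ} {p : MvPolynomial (Fin (k + 1)) ℂ} (hp : p.IsHomogeneous (k + 1)) :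
    (finSuccEquiv ℂ k p).map (eval (fun _ => (0 : ℂ))) =
      Polynomial.C (eval (fun _ => (0 : ℂ)) ((finSuccEquiv ℂ k p).coeff (k + 1))) *
        Polynomial.X ^ (k + 1) := by
  ext i
  rw [Polynomial.coeff_map, Polynomial.coeff_C_mul, Polynomial.coeff_X_pow]
  rcases lt_trichotomy i (k + 1) with h | h | h
  · rw [if_neg (by omega), mul_zero]
    have h1 := hp.finSuccEquiv_coeff_isHomogeneous i (k + 1 - i) (by omega)
    have h2 := eval_scale h1 0 (fun _ => (0 : ℂ))
    simp only [mul_zero] at h2
    rw [h2, zero_pow (by omega), zero_mul]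
  · subst h
    simp
  · rw [if_neg (by omega), coeff_high hp h]
    simp

/-- the leading coefficient of the restriction to a line in direction of the first axis -/
lemma coeff_top {k : ℕ} {p : MvPolynomial (Fin (k + 1)) ℂ} (hp : p.IsHomogeneous (k + 1))
    (z : Fin k → ℂ) : ((finSuccEquiv ℂ k p).map (eval z)).coeff (k + 1) =
      eval (Fin.cons 1 (fun _ => (0 : ℂ)) : Fin (k + 1) → ℂ) p := by
  rw [eval_eq_eval_mv_eval', map_zero_eq hp, Polynomial.coeff_map]
  have h1 := hp.finSuccEquiv_coeff_isHomogeneous (k + 1) 0 (by omega)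
  have h2 := eval_scale h1 0 z
  simp only [zero_mul, pow_zero, one_mul] at h2
  rw [← h2]
  simp

lemma coeff_top_ne {k : ℕ} {p : MvPolynomial (Fin (k + 1)) ℂ} {c : ℝ} (h : Good (k + 1) p c)
    (z : Fin k → ℂ) : ((finSuccEquiv ℂ k p).map (eval z)).coeff (k + 1) ≠ 0 := by
  rw [coeff_top h.hom]
  apply h.st
  · intro i
    refine Fin.cases ?_ (fun j => ?_) i
    · simp
    · simp
  · exact ⟨0, by simp⟩

lemma eval_line_ne {k : ℕ} {p : MvPolynomial (Fin (k + 1)) ℂ} {c : ℝ} (h : Good (k + 1) p c)
    (z : Fin k → ℂ) (hz : ∀ i, 0 ≤ (z i).re) (hz' : ∃ i, 0 < (z i).re) (r : ℂ) (hr : 0 ≤ r.re) :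
    ((finSuccEquiv ℂ k p).map (eval z)).eval r ≠ 0 := by
  rw [← eval_eq_eval_mv_eval']
  apply h.st
  · intro i
    refine Fin.cases ?_ (fun j => ?_) i
    · simpa using hr
    · simpa using hz j
  · obtain ⟨i, hi⟩ := hz'
    exact ⟨i.succ, by simpa using hi⟩

/-- one step of Gurvits' argument -/
lemma step {k : ℕ} {p : MvPolynomial (Fin (k + 1)) ℂ} {c : ℝ} (hc : 0 < c)
    (h : Good (k + 1) p c) : Good k ((finSuccEquiv ℂ k p).coeff 1) (Real.exp (-1) * c) := by
  have hst : ∀ z : Fin k → ℂ, (∀ i, 0 ≤ (z i).re) → (∃ i, 0 < (z i).re) →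
      eval z ((finSuccEquiv ℂ k p).coeff 1) ≠ 0 := by
    intro z hz hz'
    have h1 := coeff_one_ne (f := (finSuccEquiv ℂ k p).map (eval z))
      (le_trans (by omega) (Polynomial.le_natDegree_of_ne_zero (coeff_top_ne h z)))
      (fun r hr => eval_line_ne h z hz hz' r hr)
    rwa [Polynomial.coeff_map] at h1
  refine ⟨h.hom.finSuccEquiv_coeff_isHomogeneous 1 k (by omega), hst, ?_⟩
  intro x hx
  rcases Nat.eq_zero_or_pos k with hk | hk
  · subst hk
    have h1 := h.cap (fun _ => 1) (fun _ => one_pos)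
    simp only [prod_const_one, mul_one, Complex.ofReal_one] at h1
    have h2 : (fun _ : Fin (0 + 1) => (1 : ℂ)) = Fin.cons 1 (fun _ : Fin 0 => (0 : ℂ)) := by
      funext i
      refine Fin.cases ?_ (fun j => j.elim0) i
      simp
    rw [h2, eval_eq_eval_mv_eval', map_zero_eq h.hom] at h1
    simp only [Polynomial.eval_mul, Polynomial.eval_C, Polynomial.eval_pow, Polynomial.eval_X,
      one_pow, mul_one] at h1
    have h3 : (fun i : Fin 0 => ((x i : ℝ) : ℂ)) = fun _ => 0 := by
      funext i
      exact i.elim0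
    rw [h3]
    simp only [univ_eq_empty, prod_empty, mul_one]
    refine le_trans ?_ h1
    have : Real.exp (-1) ≤ 1 := Real.exp_le_one_iff.mpr (by norm_num)
    nlinarith
  · set R : Polynomial ℂ := (finSuccEquiv ℂ k p).map (eval (fun i => (x i : ℂ))) with hR
    have hx0 : ∀ i, 0 ≤ ((x i : ℂ)).re := fun i => by simpa using (hx i).le
    have hx1 : ∃ i : Fin k, 0 < ((x i : ℂ)).re := ⟨⟨0, hk⟩, by simpa using hx ⟨0, hk⟩⟩
    have hroots : ∀ r : ℂ, R.eval r = 0 → r.re < 0 ∧ r.im = 0 := by
      intro r hr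
      have hre : r.re < 0 := by
        by_contra hcon
        push Not at hcon
        exact eval_line_ne h (fun i => (x i : ℂ)) hx0 hx1 r hcon hr
      refine ⟨hre, ?_⟩
      by_contra him
      obtain ⟨u, hu⟩ : ∃ u : ℂ, u = 1 + Complex.I * ((r.re / r.im : ℝ) : ℂ) := ⟨_, rfl⟩
      have hure : u.re = 1 := by
        rw [hu]
        simp
      have huim : u.im = r.re / r.im := by
        rw [hu]
        simp
      have h0 : eval (fun i => u * (Fin.cons r (fun i => (x i : ℂ)) : Fin (k + 1) → ℂ) i) p = 0 := by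
        rw [eval_scale h.hom, eval_eq_eval_mv_eval', ← hR, hr, mul_zero]
      refine h.st _ ?_ ?_ h0
      · intro i
        refine Fin.cases ?_ (fun j => ?_) i
        · simp only [Fin.cons_zero, Complex.mul_re, hure, huim]
          have : r.re / r.im * r.im = r.re := by field_simp
          linarith
        · simp only [Fin.cons_succ, Complex.mul_re, hure, huim, Complex.ofReal_re,
            Complex.ofReal_im]
          have := hx j
          linarith
      · refine ⟨(⟨0, hk⟩ : Fin k).succ, ?_⟩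
        simp only [Fin.cons_succ, Complex.mul_re, hure, huim, Complex.ofReal_re,
            Complex.ofReal_im]
        have := hx ⟨0, hk⟩
        linarith
    have h0 : R.eval 0 ≠ 0 := eval_line_ne h (fun i => (x i : ℂ)) hx0 hx1 0 (by simp)
    have hq : R.coeff 1 = eval (fun i => (x i : ℂ)) ((finSuccEquiv ℂ k p).coeff 1) := by
      rw [hR, Polynomial.coeff_map]
    have hqne : R.coeff 1 ≠ 0 := by
      rw [hq]
      exact hst _ hx0 hx1
    have hqpos : 0 < ‖R.coeff 1‖ := norm_pos_iff.mpr hqne
    have h0pos : 0 < ‖R.eval 0‖ := norm_pos_iff.mpr h0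
    obtain ⟨t, ht⟩ : ∃ t : ℝ, t = ‖R.eval 0‖ / ‖R.coeff 1‖ := ⟨_, rfl⟩
    have htpos : 0 < t := by
      rw [ht]
      positivity
    have h1 := norm_eval_le h0 hroots t htpos.le
    have h2 := h.cap (Fin.cons t x) (by
      intro i
      refine Fin.cases ?_ (fun j => ?_) i
      · simpa using htpos
      · simpa using hx j)
    have h3 : (fun i => (((Fin.cons t x : Fin (k + 1) → ℝ) i : ℝ) : ℂ)) =
        (Fin.cons (t : ℂ) (fun i => (x i : ℂ)) : Fin (k + 1) → ℂ) := by
      funext i
      refine Fin.cases ?_ (fun j => ?_) i <;> simp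
    rw [h3, eval_eq_eval_mv_eval', ← hR, Fin.prod_univ_succ] at h2
    simp only [Fin.cons_zero, Fin.cons_succ] at h2
    have h4 : t * (‖R.coeff 1‖ / ‖R.eval 0‖) = 1 := by
      rw [ht]
      field_simp
    rw [h4] at h1
    rw [← hq]
    have h5 : c * (t * ∏ i, x i) ≤ ‖R.eval 0‖ * Real.exp 1 := h2.trans h1
    have h6 : c * (∏ i, x i) ≤ ‖R.coeff 1‖ * Real.exp 1 := by
      have h7 : ‖R.eval 0‖ = t * ‖R.coeff 1‖ := by
        rw [ht]
        field_simp
      rw [h7] at h5
      have h8 : t * (c * ∏ i, x i) ≤ t * (‖R.coeff 1‖ * Real.exp 1) := by linarith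
      exact le_of_mul_le_mul_left h8 htpos
    calc Real.exp (-1) * c * ∏ i, x i = Real.exp (-1) * (c * ∏ i, x i) := by ring
      _ ≤ Real.exp (-1) * (‖R.coeff 1‖ * Real.exp 1) :=
          mul_le_mul_of_nonneg_left h6 (Real.exp_pos _).le
      _ = ‖R.coeff 1‖ := by
          rw [Real.exp_neg]
          field_simp

/-- the exponent of the monomial `X 0 * ... * X (k - 1)` -/
def ones (k : ℕ) : Fin k →₀ ℕ := Finsupp.equivFunOnFinite.symm (fun _ => 1)

lemma ones_succ (k : ℕ) : ones (k + 1) = (ones k).cons 1 := by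
  ext i
  refine Fin.cases ?_ (fun j => ?_) i <;> simp [ones]

lemma main (k : ℕ) : ∀ (p : MvPolynomial (Fin k) ℂ) (c : ℝ), 0 < c → Good k p c →
    Real.exp (-(k : ℝ)) * c ≤ ‖coeff (ones k) p‖ := by
  induction k with
  | zero =>
    intro p c hc h
    have h1 := h.cap (fun _ => 1) (fun _ => one_pos)
    have h2 : eval (fun i : Fin 0 => ((1 : ℝ) : ℂ)) p = coeff (ones 0) p := by
      rw [eval_eq']
      have h3 : ∀ d : Fin 0 →₀ ℕ, d = ones 0 := fun d => Subsingleton.elim _ _
      by_cases h4 : ones 0 ∈ p.support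
      · have h5 : p.support = {ones 0} := by
          ext d
          rw [mem_singleton]
          exact ⟨fun _ => h3 d, fun hd => hd ▸ h4⟩
        rw [h5]
        simp
      · have h5 : p.support = ∅ := by
          ext d
          constructor
          · intro hd
            rw [h3 d] at hd
            exact absurd hd h4
          · intro hd
            simp at hd
        rw [h5]
        rw [notMem_support_iff] at h4
        simp [h4]
    rw [h2] at h1
    simpa using h1
  | succ k ih =>
    intro p c hc h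
    have h1 := ih _ _ (by positivity) (step hc h)
    rw [finSuccEquiv_coeff_coeff, ← ones_succ] at h1
    refine le_trans (le_of_eq ?_) h1
    rw [← mul_assoc, ← Real.exp_add]
    congr 2
    push_cast
    ring

/-! ### Doubly stochastic matrices -/

/-- the product of the linear forms given by the rows -/
def rowProd {N : ℕ} (A : Matrix (Fin N) (Fin N) ℝ) : MvPolynomial (Fin N) ℂ :=
  ∏ i, ∑ j, C ((A i j : ℝ) : ℂ) * X j

open Classical in
lemma coeff_prod_X {N : ℕ} (f : Fin N → Fin N) :
    coeff (ones N) (∏ i, (X (f i) : MvPolynomial (Fin N) ℂ)) =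
      if Function.Bijective f then 1 else 0 := by
  have h1 : (∏ i, (X (f i) : MvPolynomial (Fin N) ℂ)) =
      monomial (∑ i, Finsupp.single (f i) 1) 1 := by
    rw [monomial_sum_one]
    rfl
  rw [h1, coeff_monomial]
  have h2 : (∑ i, Finsupp.single (f i) 1 = ones N) ↔ Function.Bijective f := by
    constructor
    · intro h
      rw [← Finite.surjective_iff_bijective]
      intro j
      by_contra hcon
      push Not at hcon
      have h3 := DFunLike.congr_fun h j
      rw [Finsupp.finsetSum_apply] at h3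
      rw [Finset.sum_eq_zero (fun i _ => by rw [Finsupp.single_apply, if_neg (hcon i)])] at h3
      simp [ones] at h3
    · intro h
      ext j
      rw [Finsupp.finsetSum_apply]
      obtain ⟨i, hi⟩ := h.2 j
      rw [Finset.sum_eq_single i]
      · simp [ones, hi]
      · intro b _ hb
        rw [Finsupp.single_apply, if_neg]
        intro h4
        exact hb (h.1 (h4.trans hi.symm))
      · intro h5
        exact absurd (mem_univ _) h5
  by_cases h3 : Function.Bijective f
  · rw [if_pos (h2.mpr h3), if_pos h3]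
  · rw [if_neg (fun h4 => h3 (h2.mp h4)), if_neg h3]

lemma coeff_rowProd {N : ℕ} (A : Matrix (Fin N) (Fin N) ℝ) :
    coeff (ones N) (rowProd A) = ((A.permanent : ℝ) : ℂ) := by
  classical
  have h1 : rowProd A = ∑ f : Fin N → Fin N, C ((∏ i, A i (f i) : ℝ) : ℂ) * ∏ i, X (f i) := by
    unfold rowProd
    rw [Finset.prod_univ_sum, Fintype.piFinset_univ]
    apply Finset.sum_congr rfl
    intro f _
    rw [Finset.prod_mul_distrib]
    congr 1
    rw [Complex.ofReal_prod, map_prod]
  rw [h1, coeff_sum, ← Matrix.permanent_transpose, Matrix.permanent]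
  push_cast
  symm
  apply Finset.sum_of_injOn (fun σ : Equiv.Perm (Fin N) => (σ : Fin N → Fin N))
  · intro σ _ τ _ h
    exact Equiv.coe_fn_injective h
  · intro σ _
    simp
  · intro f _ hf
    rw [coeff_C_mul, coeff_prod_X, if_neg, mul_zero]
    intro hb
    apply hf
    exact ⟨Equiv.ofBijective f hb, by simp, rfl⟩
  · intro σ _
    rw [coeff_C_mul, coeff_prod_X, if_pos σ.bijective, mul_one]
    simp

lemma eval_rowProd {N : ℕ} (A : Matrix (Fin N) (Fin N) ℝ) (z : Fin N → ℂ) :
    eval z (rowProd A) = ∏ i, ∑ j, ((A i j : ℝ) : ℂ) * z j := by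
  unfold rowProd
  simp [map_prod, map_sum]

lemma good_rowProd {N : ℕ} (A : Matrix (Fin N) (Fin N) ℝ) (h0 : ∀ i j, 0 < A i j)
    (h1 : ∀ i, ∑ j, A i j = 1) (h2 : ∀ j, ∑ i, A i j = 1) : Good N (rowProd A) 1 := by
  refine ⟨?_, ?_, ?_⟩
  · have h := IsHomogeneous.prod (univ : Finset (Fin N))
      (fun i => ∑ j, C ((A i j : ℝ) : ℂ) * (X j : MvPolynomial (Fin N) ℂ)) (fun _ => 1)
      (fun i _ => IsHomogeneous.sum _ _ _ (fun j _ => isHomogeneous_C_mul_X _ _))
    simpa [rowProd] using h
  · intro z hz ⟨i0, hi0⟩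
    rw [eval_rowProd, Finset.prod_ne_zero_iff]
    intro i _ h
    have h3 : 0 < (∑ j, ((A i j : ℝ) : ℂ) * z j).re := by
      rw [Complex.re_sum]
      apply Finset.sum_pos'
      · intro j _
        rw [Complex.re_ofReal_mul]
        exact mul_nonneg (h0 i j).le (hz j)
      · refine ⟨i0, mem_univ _, ?_⟩
        rw [Complex.re_ofReal_mul]
        exact mul_pos (h0 i i0) hi0
    rw [h] at h3
    simp at h3
  · intro x hx
    rw [eval_rowProd, norm_prod, one_mul]
    have h3 : ∀ i, ‖∑ j, ((A i j : ℝ) : ℂ) * ((x j : ℝ) : ℂ)‖ = ∑ j, A i j * x j := by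
      intro i
      rw [show (∑ j, ((A i j : ℝ) : ℂ) * ((x j : ℝ) : ℂ)) = ((∑ j, A i j * x j : ℝ) : ℂ) by
        push_cast
        rfl]
      rw [Complex.norm_real, Real.norm_of_nonneg]
      exact Finset.sum_nonneg (fun j _ => mul_nonneg (h0 i j).le (hx j).le)
    simp_rw [h3]
    have h4 : ∀ i, ∏ j, x j ^ A i j ≤ ∑ j, A i j * x j := fun i =>
      Real.geom_mean_le_arith_mean_weighted univ (A i) x (fun j _ => (h0 i j).le) (h1 i)
        (fun j _ => (hx j).le)
    calc ∏ i, x i = ∏ j, x j ^ (∑ i, A i j) := by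
          apply Finset.prod_congr rfl
          intro j _
          rw [h2 j, Real.rpow_one]
      _ = ∏ j, ∏ i, x j ^ A i j := by
          apply Finset.prod_congr rfl
          intro j _
          rw [Real.rpow_sum_of_pos (hx j)]
      _ = ∏ i, ∏ j, x j ^ A i j := Finset.prod_comm
      _ ≤ ∏ i, ∑ j, A i j * x j := by
          apply Finset.prod_le_prod
          · intro i _
            exact Finset.prod_nonneg (fun j _ => (Real.rpow_pos_of_pos (hx j) _).le)
          · intro i _
            exact h4 i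

lemma pos_case {N : ℕ} (A : Matrix (Fin N) (Fin N) ℝ) (h0 : ∀ i j, 0 < A i j)
    (h1 : ∀ i, ∑ j, A i j = 1) (h2 : ∀ j, ∑ i, A i j = 1) :
    Real.exp (-(N : ℝ)) ≤ A.permanent := by
  have h := main N (rowProd A) 1 one_pos (good_rowProd A h0 h1 h2)
  rw [coeff_rowProd, mul_one, Complex.norm_real, Real.norm_of_nonneg] at h
  · exact h
  · unfold Matrix.permanent
    exact Finset.sum_nonneg (fun σ _ => Finset.prod_nonneg (fun i _ => (h0 _ _).le))

end VdWAux

open VdWAux in
/-- the weak van der Waerden bound -/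
theorem vdw : VdW := by
  intro N Y h0 h1 h2
  rcases Nat.eq_zero_or_pos N with hN | hN
  · subst hN
    rw [Matrix.permanent_isEmpty]
    simp
  have hNr : (0 : ℝ) < N := by exact_mod_cast hN
  have hlim : Filter.Tendsto (fun e : ℝ =>
      (Matrix.of (fun i j => (1 - e) * Y i j + e / N) : Matrix (Fin N) (Fin N) ℝ).permanent)
      (nhdsWithin 0 (Set.Ioi 0)) (nhds Y.permanent) := by
    have hc : Continuous (fun e : ℝ =>
        (Matrix.of (fun i j => (1 - e) * Y i j + e / N) : Matrix (Fin N) (Fin N) ℝ).permanent) := by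
      unfold Matrix.permanent
      simp only [Matrix.of_apply]
      fun_prop
    have h3 := (hc.tendsto 0).mono_left (nhdsWithin_le_nhds (s := Set.Ioi (0 : ℝ)))
    have h4 : (Matrix.of (fun i j => (1 - 0) * Y i j + 0 / (N : ℝ)) :
        Matrix (Fin N) (Fin N) ℝ) = Y := by
      ext i j
      simp
    rw [h4] at h3
    exact h3
  refine ge_of_tendsto hlim ?_
  have h5 : Set.Ioo (0 : ℝ) 1 ∈ nhdsWithin (0 : ℝ) (Set.Ioi 0) :=
    Ioo_mem_nhdsGT one_pos
  filter_upwards [h5] with e he
  apply pos_case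
  · intro i j
    simp only [Matrix.of_apply]
    have : 0 ≤ (1 - e) * Y i j := mul_nonneg (by linarith [he.2]) (h0 i j)
    have : 0 < e / N := div_pos he.1 hNr
    linarith
  · intro i
    simp only [Matrix.of_apply]
    rw [Finset.sum_add_distrib, ← Finset.mul_sum, h1 i]
    simp only [sum_const, card_univ, Fintype.card_fin, nsmul_eq_mul]
    field_simp
    ring
  · intro j
    simp only [Matrix.of_apply]
    rw [Finset.sum_add_distrib, ← Finset.mul_sum, h2 j]
    simp only [sum_const, card_univ, Fintype.card_fin, nsmul_eq_mul]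
    field_simp
    ring

end

end Pool.Agent.Work.MP_713a1e_co.T3
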