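import Pool.Agent.Work.MP_713a1e_co.ChoiceE
import Pool.Agent.Work.MP_713a1e_co.Sieve

/-! JOB E : the choice of the four primes, from the prime number theorem in a fixed progression.
`choice` of Jobs.txt is `choice_of_AP primes_in_ap`. -/

set_option autoImplicit false

namespace Pool.Agent.Work.MP_713a1e_co

theorem choice_of_AP (hAP : ∀ (q a : ℕ), 0 < q → Nat.Coprime a q → ∀ (κ δ : ℝ), 0 < κ → 0 < δ →
    ∃ x0 : ℝ, 1 < x0 ∧ ∀ x y : ℝ, x0 ≤ x → κ * x ≤ y → y ≤ x / κ →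
      |(((Finset.Ioc ⌊x⌋₊ ⌊x + y⌋₊).filter (fun p => p.Prime ∧ p ≡ a [MOD q])).card : ℝ)
        - y / ((Nat.totient q : ℝ) * Real.log x)| ≤ δ * y / Real.log x) :
    ∃ c : ℝ, 0 < c ∧ c ≤ 1 ∧ ∀ ε : ℝ, 0 < ε → ε ≤ 1 / 10 → ∃ n0 : ℕ, ∀ n : ℕ, n0 ≤ n →
      ∃ p a d : ℕ, p.Prime ∧ (p + 2 * a).Prime ∧ (p - 2 * d).Prime ∧ (p + 2 * a - 2 * d).Prime ∧
        Nat.Coprime a d ∧ (5 : ℝ) / 4 * n ≤ p ∧ (p : ℝ) ≤ 3 / 2 * n ∧ c * ε * n ≤ a ∧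
        (a : ℝ) ≤ ε * n ∧ c * ε * n ≤ d ∧ (d : ℝ) ≤ ε * n := by
  obtain ⟨C1, Y1, hC1, H1⟩ := sieve_one
  obtain ⟨C2, Y2, hC2, H2⟩ := sieve_pairs
  have H1' : SieveOne C1 Y1 := H1
  have H2' : SievePairsC C2 Y2 := H2
  exact choice_of hAP (C := max 1 (max C1 C2)) (Y0 := max Y1 Y2) (le_max_left _ _)
    (H1'.mono ((le_max_left _ _).trans (le_max_right _ _)) (le_max_left _ _))
    (H2'.mono ((le_max_right _ _).trans (le_max_right _ _)) (le_max_right _ _))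

end Pool.Agent.Work.MP_713a1e_co
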