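import Mathlib

/-! JOB E, part 1: counting in residue classes, the sum of `1/d` over divisors, the first moment. -/

set_option autoImplicit false

namespace Pool.Agent.Work.MP_713a1e_co

open Finset

/-- the statement `sieve_one` with explicit constants -/
def SieveOne (C Y0 : ℝ) : Prop := ∀ (u v Y : ℕ), 0 < u → Nat.Coprime v u → Y0 ≤ (Y : ℝ) → Y ≤ v →
    (((Finset.range Y).filter (fun x => (u * x + v).Prime)).card : ℝ) ≤
      C * ((u : ℝ) / Nat.totient u) * Y / Real.log Y

/-- the statement `sieve_pairs` with explicit constants -/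
def SievePairsC (C Y0 : ℝ) : Prop := ∀ (u v h Y : ℕ), 0 < u → Even u → Nat.Coprime v u →
    Nat.Coprime (v + h) u → 0 < h → Y0 ≤ (Y : ℝ) → Y ≤ v →
    (((Finset.range Y).filter (fun x => (u * x + v).Prime ∧ (u * x + v + h).Prime)).card : ℝ) ≤
      C * ((u : ℝ) / Nat.totient u) ^ 2 *
        (∑ d ∈ h.divisors.filter (fun d => Nat.Coprime d u), (1 : ℝ) / d) * Y / (Real.log Y) ^ 2

/-- the least element `v > M` of the class of `v0` modulo `u` -/
lemma exists_first (u v0 M : ℕ) (hu : 0 < u) :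
    ∃ v, M < v ∧ v ≡ v0 [MOD u] ∧ ∀ p, M < p → p ≡ v0 [MOD u] → ∃ q, p = u * q + v := by
  obtain ⟨r, hr⟩ : ∃ r, r = (v0 + (u - 1) * (M + 1)) % u := ⟨_, rfl⟩
  have hmod : M + 1 + r ≡ v0 [MOD u] := by
    have h1 : M + 1 + r ≡ M + 1 + (v0 + (u - 1) * (M + 1)) [MOD u] := by
      rw [hr]; exact Nat.ModEq.add_left _ (Nat.mod_modEq _ _)
    refine h1.trans ?_
    have h2 : M + 1 + (v0 + (u - 1) * (M + 1)) = v0 + u * (M + 1) := by
      obtain ⟨w, rfl⟩ : ∃ w, u = w + 1 := ⟨u - 1, by omega⟩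
      simp only [Nat.add_sub_cancel]; ring
    rw [h2]
    exact (Nat.ModEq.refl _).trans (by simp [Nat.ModEq])
  have hru : r < u := by rw [hr]; exact Nat.mod_lt _ hu
  refine ⟨M + 1 + r, by omega, hmod, fun p hp hpv => ?_⟩
  have h3 : p ≡ M + 1 + r [MOD u] := hpv.trans hmod.symm
  obtain ⟨k, rfl⟩ : ∃ k, p = M + 1 + k := ⟨p - (M + 1), by omega⟩
  have h4 : k ≡ r [MOD u] := Nat.ModEq.add_left_cancel' _ h3
  have h5 : k % u = r := by rw [h4, Nat.mod_eq_of_lt hru]
  refine ⟨k / u, ?_⟩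
  have := Nat.div_add_mod k u
  rw [h5] at this
  omega

lemma cls_one {C Y0 : ℝ} (h1 : SieveOne C Y0) (u v0 M D Y : ℕ) (hu : 0 < u)
    (hco : Nat.Coprime v0 u) (hY0 : Y0 ≤ (Y : ℝ)) (hYM : Y ≤ M) (hD : D ≤ u * Y) :
    (((Ioc M (M + D)).filter (fun p => p.Prime ∧ p ≡ v0 [MOD u])).card : ℝ) ≤
      C * ((u : ℝ) / Nat.totient u) * Y / Real.log Y := by
  obtain ⟨v, hMv, hv, hall⟩ := exists_first u v0 M hu
  have hcv : Nat.Coprime v u := by
    have := hv.gcd_eq
    rw [Nat.coprime_iff_gcd_eq_one, this]; exact hco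
  refine le_trans ?_ (h1 u v Y hu hcv hY0 (by omega))
  have : (Ioc M (M + D)).filter (fun p => p.Prime ∧ p ≡ v0 [MOD u]) ⊆
      ((range Y).filter (fun x => (u * x + v).Prime)).image (fun x => u * x + v) := by
    intro p hp
    simp only [mem_filter, mem_Ioc] at hp
    obtain ⟨⟨hp1, hp2⟩, hpp, hpm⟩ := hp
    obtain ⟨q, rfl⟩ := hall p hp1 hpm
    simp only [mem_image, mem_filter, mem_range]
    refine ⟨q, ⟨?_, hpp⟩, rfl⟩
    by_contra hq
    push Not at hq
    have : u * Y ≤ u * q := Nat.mul_le_mul_left _ hq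
    omega
  exact_mod_cast (card_le_card this).trans card_image_le

lemma cls_pairs {C Y0 : ℝ} (h2 : SievePairsC C Y0) (u v0 h M D Y : ℕ) (hu : 0 < u) (heu : Even u)
    (hco : Nat.Coprime v0 u) (hco2 : Nat.Coprime (v0 + h) u) (hh : 0 < h)
    (hY0 : Y0 ≤ (Y : ℝ)) (hYM : Y ≤ M) (hD : D ≤ u * Y) :
    (((Ioc M (M + D)).filter (fun p => p.Prime ∧ (p + h).Prime ∧ p ≡ v0 [MOD u])).card : ℝ) ≤
      C * ((u : ℝ) / Nat.totient u) ^ 2 *
        (∑ d ∈ h.divisors.filter (fun d => Nat.Coprime d u), (1 : ℝ) / d) * Y /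
          (Real.log Y) ^ 2 := by
  obtain ⟨v, hMv, hv, hall⟩ := exists_first u v0 M hu
  have hcv : Nat.Coprime v u := by
    have := hv.gcd_eq
    rw [Nat.coprime_iff_gcd_eq_one, this]; exact hco
  have hcv2 : Nat.Coprime (v + h) u := by
    have := (hv.add_right h).gcd_eq
    rw [Nat.coprime_iff_gcd_eq_one, this]; exact hco2
  refine le_trans ?_ (h2 u v h Y hu heu hcv hcv2 hh hY0 (by omega))
  have : (Ioc M (M + D)).filter (fun p => p.Prime ∧ (p + h).Prime ∧ p ≡ v0 [MOD u]) ⊆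
      ((range Y).filter (fun x => (u * x + v).Prime ∧ (u * x + v + h).Prime)).image
        (fun x => u * x + v) := by
    intro p hp
    simp only [mem_filter, mem_Ioc] at hp
    obtain ⟨⟨hp1, hp2⟩, hpp, hpp2, hpm⟩ := hp
    obtain ⟨q, rfl⟩ := hall p hp1 hpm
    simp only [mem_image, mem_filter, mem_range]
    refine ⟨q, ⟨?_, hpp, hpp2⟩, rfl⟩
    by_contra hq
    push Not at hq
    have : u * Y ≤ u * q := Nat.mul_le_mul_left _ hq
    omega
  exact_mod_cast (card_le_card this).trans card_image_le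

/-- the sum of `1/d` over the divisors of `h` coprime to `u` -/
lemma sigma_bound (h u : ℕ) (hh : 0 < h) :
    (∑ d ∈ h.divisors.filter (fun d => Nat.Coprime d u), (1 : ℝ) / d) ≤
      Real.exp (2 * ∑ l ∈ h.primeFactors.filter (fun l => ¬ l ∣ u), (1 : ℝ) / l) := by
  classical
  set S := h.primeFactors.filter (fun l => ¬ l ∣ u) with hS
  let f : ℕ →* ℝ :=
    { toFun := fun n => (n : ℝ)⁻¹
      map_one' := by simp
      map_mul' := by intro a b; push_cast; rw [mul_inv] }
  have hf : ∀ n, f n = (n : ℝ)⁻¹ := fun n => rfl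
  have key := EulerProduct.summable_and_hasSum_factoredNumbers_prod_filter_prime_geometric
    (f := f) (fun {p} hp => by
      rw [hf, Real.norm_eq_abs, abs_of_nonneg (by positivity)]
      exact inv_lt_one_of_one_lt₀ (by exact_mod_cast hp.one_lt)) S
  have hsum := key.2
  have hle : ∑ d ∈ h.divisors.filter (fun d => Nat.Coprime d u), (1 : ℝ) / d ≤
      ∏ p ∈ S with p.Prime, (1 - f p)⁻¹ := by
    have hmem : ∀ d ∈ h.divisors.filter (fun d => Nat.Coprime d u), d ∈ Nat.factoredNumbers S := by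
      intro d hd
      rw [mem_filter, Nat.mem_divisors] at hd
      rw [Nat.mem_factoredNumbers']
      intro p hp hpd
      rw [hS, mem_filter, Nat.mem_primeFactors]
      refine ⟨⟨hp, hpd.trans hd.1.1, hh.ne'⟩, fun hpu => ?_⟩
      have := Nat.dvd_gcd hpd hpu
      rw [hd.2] at this
      exact hp.one_lt.ne' (Nat.dvd_one.1 this)
    have h3 : ∑ d ∈ (h.divisors.filter (fun d => Nat.Coprime d u)).attach,
        f ((⟨d.1, hmem d.1 d.2⟩ : Nat.factoredNumbers S) : ℕ) ≤
        ∏ p ∈ S with p.Prime, (1 - f p)⁻¹ := by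
      have := sum_le_hasSum
        ((h.divisors.filter (fun d => Nat.Coprime d u)).attach.image
          (fun d => (⟨d.1, hmem d.1 d.2⟩ : Nat.factoredNumbers S)))
        (fun i _ => by rw [hf]; positivity) hsum
      rwa [sum_image] at this
      intro a _ b _ hab
      exact Subtype.ext (congrArg (fun z : Nat.factoredNumbers S => (z : ℕ)) hab)
    refine le_trans (le_of_eq ?_) h3
    rw [← sum_attach]
    apply sum_congr rfl
    intro d _
    rw [hf, one_div]
  refine hle.trans ?_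
  rw [mul_sum, Real.exp_sum]
  have hfil : (S.filter (fun p => p.Prime)) = S := by
    apply filter_true_of_mem
    intro p hp
    rw [hS, mem_filter] at hp
    exact (Nat.mem_primeFactors.1 hp.1).1
  rw [hfil]
  apply prod_le_prod
  · intro p hp
    rw [hf]
    have hp' : p.Prime := (Nat.mem_primeFactors.1 (mem_filter.1 hp).1).1
    have : ((p : ℝ))⁻¹ ≤ 1 := inv_le_one_of_one_le₀ (by exact_mod_cast hp'.one_lt.le)
    exact inv_nonneg.2 (by linarith)
  · intro p hp
    rw [hf]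
    have hp' : p.Prime := (Nat.mem_primeFactors.1 (mem_filter.1 hp).1).1
    have hp2 : (2 : ℝ) ≤ p := by exact_mod_cast hp'.two_le
    set t := ((p : ℝ))⁻¹ with ht
    have ht0 : 0 ≤ t := by positivity
    have ht1 : t ≤ 1 / 2 := by
      rw [ht, one_div]
      exact inv_anti₀ (by norm_num) hp2
    have h1t : 0 < 1 - t := by linarith
    rw [one_div, ← ht, inv_le_comm₀ h1t (Real.exp_pos _), ← Real.exp_neg]
    have h6 : Real.exp (-(2 * t)) ≤ 1 / (1 + 2 * t) := by
      rw [Real.exp_neg, one_div]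
      exact inv_anti₀ (by positivity) (by linarith [Real.add_one_le_exp (2 * t)])
    refine h6.trans ?_
    rw [div_le_iff₀ (by positivity)]
    nlinarith

end Pool.Agent.Work.MP_713a1e_co
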