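import Pool.Agent.Work.MP_713a1e_co.ChoiceA

/-! JOB E, part 2: the choice of `h`. -/

set_option autoImplicit false

namespace Pool.Agent.Work.MP_713a1e_co

open Finset

/-- the primes `l`, `Q < l ≤ R`, dividing `h` -/
def Ls (Q R h : ℕ) : Finset ℕ := (Ioc Q R).filter (fun l => l.Prime ∧ l ∣ h)

lemma sum_inv_sq (Q R : ℕ) (hQ : 0 < Q) : ∑ l ∈ Ioc Q R, ((l : ℝ) ^ 2)⁻¹ ≤ (Q : ℝ)⁻¹ := by
  rcases le_total Q R with h | h
  · have := sum_Ioc_inv_sq_le_sub (α := ℝ) hQ.ne' h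
    have h2 : (0 : ℝ) ≤ ((R : ℝ))⁻¹ := by positivity
    linarith
  · rw [Ioc_eq_empty_of_le h, sum_empty]; positivity

/-- the choice of the difference `h` -/
lemma exists_h (A1 A2 : Finset ℕ) (Q R : ℕ) (K Hn : ℝ) (hQ : 0 < Q) (hK : 0 < K)
    (hne1 : A1.Nonempty) (hne2 : A2.Nonempty) (hlt : ∀ p ∈ A1, ∀ q ∈ A2, p < q)
    (hcls : ∀ p ∈ A1, ∀ l, l.Prime → Q < l → l ≤ R →
      ((A2.filter (fun q => q ≡ p [MOD l])).card : ℝ) ≤ K / l * A2.card)
    (H : Finset ℕ) (hH : ∀ p ∈ A1, ∀ q ∈ A2, q - p ∈ H) (hHn : (H.card : ℝ) ≤ Hn) :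
    ∃ h ∈ H, (A1.card : ℝ) * A2.card / (2 * Hn) ≤ ((A1.filter (fun p => p + h ∈ A2)).card : ℝ) ∧
      ∑ l ∈ Ls Q R h, (1 : ℝ) / l ≤ 2 * K / Q := by
  classical
  set T : ℕ → Finset ℕ := fun h => A1.filter (fun p => p + h ∈ A2) with hT
  set s : ℕ → ℝ := fun h => ∑ l ∈ Ls Q R h, (1 : ℝ) / l with hs
  have hs0 : ∀ h, 0 ≤ s h := fun h => sum_nonneg fun l _ => by positivity
  have hPpos : (0 : ℝ) < (A1.card : ℝ) * A2.card := by
    have h1 := hne1.card_pos
    have h2 := hne2.card_pos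
    positivity
  -- double counting
  have hdc : ∀ w : ℕ → ℝ, ∑ h ∈ H, (T h).card * w h = ∑ p ∈ A1, ∑ q ∈ A2, w (q - p) := by
    intro w
    have e1 : ∑ p ∈ A1, ∑ q ∈ A2, w (q - p) = ∑ x ∈ A1 ×ˢ A2, w (x.2 - x.1) := by
      rw [sum_product]
    have e2 : ∑ x ∈ A1 ×ˢ A2, w (x.2 - x.1) =
        ∑ h ∈ H, ∑ x ∈ (A1 ×ˢ A2).filter (fun x => x.2 - x.1 = h), w (x.2 - x.1) := by
      rw [sum_fiberwise_of_maps_to]
      intro x hx
      rw [mem_product] at hx
      exact hH _ hx.1 _ hx.2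
    rw [e1, e2]
    apply sum_congr rfl
    intro h _
    have e3 : ∑ x ∈ (A1 ×ˢ A2).filter (fun x => x.2 - x.1 = h), w (x.2 - x.1) =
        ((A1 ×ˢ A2).filter (fun x => x.2 - x.1 = h)).card * w h := by
      rw [← nsmul_eq_mul, ← sum_const]
      apply sum_congr rfl
      intro x hx
      rw [(mem_filter.1 hx).2]
    rw [e3]
    congr 2
    apply card_bij (fun p _ => (p, p + h))
    · intro p hp
      rw [hT, mem_filter] at hp
      rw [mem_filter, mem_product]
      exact ⟨hp, by simp⟩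
    · intro a _ b _ hab
      exact (Prod.ext_iff.1 hab).1
    · rintro ⟨p, q⟩ hx
      rw [mem_filter, mem_product] at hx
      have hpq := hlt p hx.1.1 q hx.1.2
      have e4 : p + h = q := by
        have := hx.2
        dsimp only at this
        omega
      refine ⟨p, ?_, by rw [e4]⟩
      rw [hT, mem_filter, e4]
      exact hx.1
  have hP1 : ∑ h ∈ H, ((T h).card : ℝ) = (A1.card : ℝ) * A2.card := by
    have := hdc (fun _ => 1)
    simp only [mul_one, sum_const, nsmul_eq_mul] at this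
    exact this
  have hP2 : ∑ h ∈ H, ((T h).card : ℝ) * s h ≤ K / Q * ((A1.card : ℝ) * A2.card) := by
    rw [hdc s]
    have e5 : ∀ p ∈ A1, ∑ q ∈ A2, s (q - p) ≤ K / Q * A2.card := by
      intro p hp
      have e6 : ∑ q ∈ A2, s (q - p) =
          ∑ l ∈ (Ioc Q R).filter (fun l => l.Prime), (1 : ℝ) / l *
            ((A2.filter (fun q => q ≡ p [MOD l])).card : ℝ) := by
        have e7 : ∀ q ∈ A2, s (q - p) = ∑ l ∈ (Ioc Q R).filter (fun l => l.Prime),
            if q ≡ p [MOD l] then (1 : ℝ) / l else 0 := by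
          intro q hq
          rw [hs, ← sum_filter, filter_filter]
          dsimp only
          apply sum_congr _ (fun _ _ => rfl)
          ext l
          simp only [Ls, mem_filter]
          have hpq := (hlt p hp q hq).le
          have : l ∣ q - p ↔ q ≡ p [MOD l] := by
            rw [← Nat.modEq_iff_dvd' hpq]
            exact ⟨fun h => h.symm, fun h => h.symm⟩
          rw [this]
        rw [sum_congr rfl e7, sum_comm]
        apply sum_congr rfl
        intro l _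
        rw [← sum_filter, sum_const, nsmul_eq_mul, mul_comm]
      rw [e6]
      have e8 : ∑ l ∈ (Ioc Q R).filter (fun l => l.Prime), (1 : ℝ) / l *
            ((A2.filter (fun q => q ≡ p [MOD l])).card : ℝ) ≤
          ∑ l ∈ Ioc Q R, K * A2.card * ((l : ℝ) ^ 2)⁻¹ := by
        refine (sum_le_sum ?_).trans (sum_le_sum_of_subset_of_nonneg (filter_subset _ _) ?_)
        · intro l hl
          rw [mem_filter, mem_Ioc] at hl
          have := hcls p hp l hl.2 hl.1.1 hl.1.2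
          have hl0 : (0 : ℝ) < l := by
            have := hl.2.pos
            exact_mod_cast this
          calc (1 : ℝ) / l * ((A2.filter (fun q => q ≡ p [MOD l])).card : ℝ)
              ≤ 1 / l * (K / l * A2.card) := by gcongr
            _ = K * A2.card * ((l : ℝ) ^ 2)⁻¹ := by field_simp
        · intro l _ _
          positivity
      refine e8.trans ?_
      rw [← mul_sum]
      calc K * (A2.card : ℝ) * ∑ l ∈ Ioc Q R, ((l : ℝ) ^ 2)⁻¹
          ≤ K * A2.card * (Q : ℝ)⁻¹ := by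
            gcongr
            exact sum_inv_sq Q R hQ
        _ = K / Q * A2.card := by rw [div_eq_mul_inv]; ring
    calc ∑ p ∈ A1, ∑ q ∈ A2, s (q - p) ≤ ∑ p ∈ A1, K / Q * (A2.card : ℝ) := sum_le_sum e5
      _ = K / Q * ((A1.card : ℝ) * A2.card) := by
        rw [sum_const, nsmul_eq_mul]; ring
  -- choose h
  have hQ' : (0 : ℝ) < Q := by exact_mod_cast hQ
  set δ := K / Q with hδ
  have hδ0 : 0 < δ := by positivity
  have hHpos : H.Nonempty := by
    obtain ⟨p, hp⟩ := hne1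
    obtain ⟨q, hq⟩ := hne2
    exact ⟨_, hH p hp q hq⟩
  have hHc : (0 : ℝ) < H.card := by exact_mod_cast hHpos.card_pos
  have hHn0 : 0 < Hn := hHc.trans_le hHn
  have hsum : (A1.card : ℝ) * A2.card / 2 ≤ ∑ h ∈ H, ((T h).card : ℝ) * (1 - s h / (2 * δ)) := by
    have e9 : ∑ h ∈ H, ((T h).card : ℝ) * (1 - s h / (2 * δ)) =
        ∑ h ∈ H, ((T h).card : ℝ) - (∑ h ∈ H, ((T h).card : ℝ) * s h) / (2 * δ) := by
      rw [sum_div, ← sum_sub_distrib]
      apply sum_congr rfl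
      intro h _
      ring
    rw [e9, hP1]
    have e10 : (∑ h ∈ H, ((T h).card : ℝ) * s h) / (2 * δ) ≤ (A1.card : ℝ) * A2.card / 2 := by
      rw [div_le_iff₀ (by positivity)]
      calc _ ≤ δ * ((A1.card : ℝ) * A2.card) := hP2
        _ = _ := by ring
    linarith
  have hex : ∃ h ∈ H, (A1.card : ℝ) * A2.card / (2 * Hn) ≤
      ((T h).card : ℝ) * (1 - s h / (2 * δ)) := by
    by_contra hcon
    push Not at hcon
    have e11 : ∑ h ∈ H, ((T h).card : ℝ) * (1 - s h / (2 * δ)) <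
        ∑ h ∈ H, (A1.card : ℝ) * A2.card / (2 * Hn) := sum_lt_sum_of_nonempty hHpos hcon
    rw [sum_const, nsmul_eq_mul] at e11
    have e12 : (H.card : ℝ) * ((A1.card : ℝ) * A2.card / (2 * Hn)) ≤
        Hn * ((A1.card : ℝ) * A2.card / (2 * Hn)) := by
      gcongr
    have e13 : Hn * ((A1.card : ℝ) * A2.card / (2 * Hn)) = (A1.card : ℝ) * A2.card / 2 := by
      field_simp
    linarith
  obtain ⟨h, hh, hge⟩ := hex
  have hpos : 0 < ((T h).card : ℝ) * (1 - s h / (2 * δ)) :=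
    lt_of_lt_of_le (by positivity) hge
  have hf : 0 < 1 - s h / (2 * δ) := by
    by_contra hc
    push Not at hc
    have : ((T h).card : ℝ) * (1 - s h / (2 * δ)) ≤ 0 :=
      mul_nonpos_of_nonneg_of_nonpos (by positivity) hc
    linarith
  refine ⟨h, hh, ?_, ?_⟩
  · refine hge.trans ?_
    have : 1 - s h / (2 * δ) ≤ 1 := by
      have : 0 ≤ s h / (2 * δ) := by have := hs0 h; positivity
      linarith
    calc ((T h).card : ℝ) * (1 - s h / (2 * δ)) ≤ ((T h).card : ℝ) * 1 := by gcongr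
      _ = _ := mul_one _
  · have : s h / (2 * δ) < 1 := by linarith
    rw [div_lt_one (by positivity)] at this
    calc s h ≤ 2 * δ := this.le
      _ = 2 * K / Q := by rw [hδ]; ring

/-- the number of possible differences -/
lemma card_diffs (B : ℕ) (hB : 0 < B) (y : ℝ) (hy : 0 < y) :
    ∃ H : Finset ℕ, (H.card : ℝ) ≤ 2 * y / B + 1 ∧
      (∀ h : ℕ, y < h → (h : ℝ) < 3 * y → B ∣ h + 2 → h ∈ H) := by
  classical
  have hB' : (0 : ℝ) < B := by exact_mod_cast hB
  refine ⟨(Ioc ⌊(y + 2) / B⌋₊ ⌊(3 * y + 2) / B⌋₊).image (fun k => B * k - 2), ?_, ?_⟩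
  · have h1 : ((Ioc ⌊(y + 2) / B⌋₊ ⌊(3 * y + 2) / B⌋₊).image (fun k => B * k - 2)).card ≤
        ⌊(3 * y + 2) / B⌋₊ - ⌊(y + 2) / B⌋₊ := by
      refine card_image_le.trans ?_
      rw [Nat.card_Ioc]
    have h2 : ⌊(y + 2) / B⌋₊ ≤ ⌊(3 * y + 2) / B⌋₊ := by
      apply Nat.floor_le_floor
      gcongr
      linarith
    have h3 : (⌊(3 * y + 2) / B⌋₊ : ℝ) ≤ (3 * y + 2) / B := Nat.floor_le (by positivity)
    have h4 : (y + 2) / B < ⌊(y + 2) / B⌋₊ + 1 := Nat.lt_floor_add_one _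
    have h5 : (((Ioc ⌊(y + 2) / B⌋₊ ⌊(3 * y + 2) / B⌋₊).image (fun k => B * k - 2)).card : ℝ) ≤
        (⌊(3 * y + 2) / B⌋₊ : ℝ) - ⌊(y + 2) / B⌋₊ := by
      rw [← Nat.cast_sub h2]
      exact_mod_cast h1
    have h6 : (3 * y + 2) / (B : ℝ) - (y + 2) / B = 2 * y / B := by
      rw [← sub_div]; congr 1; ring
    linarith
  · intro h h1 h2 hd
    obtain ⟨k, hk⟩ := hd
    rw [mem_image]
    refine ⟨k, ?_, by omega⟩
    have hk' : (h : ℝ) + 2 = B * k := by exact_mod_cast hk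
    rw [mem_Ioc]
    constructor
    · rw [Nat.floor_lt (by positivity), div_lt_iff₀ hB']
      rw [mul_comm, ← hk']; linarith
    · apply Nat.le_floor
      rw [le_div_iff₀ hB', mul_comm, ← hk']
      linarith

end Pool.Agent.Work.MP_713a1e_co
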