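import Pool.Agent.Work.MP_713a1e_co.ChoiceB

/-! JOB E, part 3: class counts in a real window, and the choice for fixed parameters. -/

set_option autoImplicit false

namespace Pool.Agent.Work.MP_713a1e_co

open Finset

/-- the integers of `(x, x + y]` -/
noncomputable def Wi (x y : ℝ) : Finset ℕ := Ioc ⌊x⌋₊ ⌊x + y⌋₊

lemma mem_Wi {x y : ℝ} (hx : 0 ≤ x) (hy : 0 ≤ y) (p : ℕ) : p ∈ Wi x y ↔ x < p ∧ (p : ℝ) ≤ x + y := by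
  rw [Wi, mem_Ioc, Nat.floor_lt hx, Nat.le_floor_iff (by linarith)]

lemma Wi_sub {x y : ℝ} (hx : 0 ≤ x) (hy : 0 ≤ y) :
    Wi x y ⊆ Ioc ⌊x⌋₊ (⌊x⌋₊ + (⌊y⌋₊ + 1)) := by
  apply Ioc_subset_Ioc_right
  have h1 : (⌊x + y⌋₊ : ℝ) ≤ x + y := Nat.floor_le (by linarith)
  have h2 := Nat.lt_floor_add_one x
  have h3 := Nat.lt_floor_add_one y
  have : (⌊x + y⌋₊ : ℝ) < ((⌊x⌋₊ + (⌊y⌋₊ + 1) + 1 : ℕ) : ℝ) := by push_cast; linarith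
  have h4 : ⌊x + y⌋₊ < ⌊x⌋₊ + (⌊y⌋₊ + 1) + 1 := by exact_mod_cast this
  omega

/-- the threshold condition -/
def Thr (T L Y0 : ℝ) : Prop := ∀ Y : ℕ, T ≤ (Y : ℝ) → Y0 ≤ (Y : ℝ) ∧ L / 3 ≤ Real.log Y

lemma win_aux {x y : ℝ} {u : ℕ} (hu : 0 < u) (huy : (u : ℝ) ≤ y) (hx : 3 * y ≤ x) :
    2 * y / u ≤ (⌈2 * y / u⌉₊ : ℝ) ∧ (⌈2 * y / u⌉₊ : ℝ) ≤ 3 * y / u ∧ ⌈2 * y / u⌉₊ ≤ ⌊x⌋₊ ∧
      ⌊y⌋₊ + 1 ≤ u * ⌈2 * y / u⌉₊ := by
  have hu' : (0 : ℝ) < u := by exact_mod_cast hu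
  have hu1 : (1 : ℝ) ≤ u := by exact_mod_cast hu
  have hy : 0 < y := by linarith
  have e1 : 2 * y / u ≤ (⌈2 * y / u⌉₊ : ℝ) := Nat.le_ceil _
  have e2 : (⌈2 * y / u⌉₊ : ℝ) < 2 * y / u + 1 := Nat.ceil_lt_add_one (by positivity)
  have e3 : (1 : ℝ) ≤ y / u := by rw [le_div_iff₀ hu']; linarith
  have e4 : (⌈2 * y / u⌉₊ : ℝ) ≤ 3 * y / u := by
    have : 3 * y / u = 2 * y / u + y / u := by ring
    linarith
  refine ⟨e1, e4, ?_, ?_⟩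
  · apply Nat.le_floor
    refine e4.trans (le_trans ?_ hx)
    rw [div_le_iff₀ hu']
    nlinarith
  · have e5 : (⌊y⌋₊ : ℝ) ≤ y := Nat.floor_le hy.le
    have e6 : 2 * y ≤ u * (⌈2 * y / u⌉₊ : ℝ) := by
      rw [div_le_iff₀ hu'] at e1; linarith
    have e7 : ((⌊y⌋₊ + 1 : ℕ) : ℝ) ≤ ((u * ⌈2 * y / u⌉₊ : ℕ) : ℝ) := by
      push_cast; linarith
    exact_mod_cast e7

lemma win_one {C Y0 T L : ℝ} (hC : 0 ≤ C) (hL : 0 < L) (h1 : SieveOne C Y0) (hT : Thr T L Y0)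
    (u v0 : ℕ) (x y : ℝ) (hu : 0 < u) (hco : Nat.Coprime v0 u) (huy : (u : ℝ) ≤ y)
    (hx : 3 * y ≤ x) (hTy : T ≤ 2 * y / u) :
    (((Wi x y).filter (fun p => p.Prime ∧ p ≡ v0 [MOD u])).card : ℝ) ≤
      C * ((u : ℝ) / Nat.totient u) * (3 * y / u) * (3 / L) := by
  have hu' : (0 : ℝ) < u := by exact_mod_cast hu
  have hy : 0 < y := by
    have : (1 : ℝ) ≤ u := by exact_mod_cast hu
    linarith
  obtain ⟨e1, e2, e3, e4⟩ := win_aux hu huy hx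
  obtain ⟨t1, t2⟩ := hT _ (hTy.trans e1)
  have hl := cls_one h1 u v0 ⌊x⌋₊ (⌊y⌋₊ + 1) ⌈2 * y / u⌉₊ hu hco t1 e3 e4
  have hsub : ((Wi x y).filter (fun p => p.Prime ∧ p ≡ v0 [MOD u])) ⊆
      ((Ioc ⌊x⌋₊ (⌊x⌋₊ + (⌊y⌋₊ + 1))).filter (fun p => p.Prime ∧ p ≡ v0 [MOD u])) :=
    filter_subset_filter _ (Wi_sub (by linarith) hy.le)
  have hc : (((Wi x y).filter (fun p => p.Prime ∧ p ≡ v0 [MOD u])).card : ℝ) ≤ _ :=
    (Nat.cast_le.2 (card_le_card hsub)).trans hl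
  refine hc.trans ?_
  rw [div_eq_mul_inv _ (Real.log _)]
  have e5 : (Real.log (⌈2 * y / u⌉₊ : ℝ))⁻¹ ≤ 3 / L := by
    have : (L / 3)⁻¹ = 3 / L := by rw [inv_div]
    rw [← this]
    exact inv_anti₀ (by positivity) t2
  have e6 : (0 : ℝ) ≤ (Real.log (⌈2 * y / u⌉₊ : ℝ))⁻¹ := inv_nonneg.2 (le_trans (by positivity) t2)
  gcongr

lemma win_pairs {C Y0 T L : ℝ} (hC : 0 ≤ C) (hL : 0 < L) (h2 : SievePairsC C Y0) (hT : Thr T L Y0)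
    (u v0 h : ℕ) (x y σ : ℝ) (hu : 0 < u) (heu : Even u) (hco : Nat.Coprime v0 u)
    (hco2 : Nat.Coprime (v0 + h) u) (hh : 0 < h) (huy : (u : ℝ) ≤ y)
    (hx : 3 * y ≤ x) (hTy : T ≤ 2 * y / u)
    (hσ : (∑ d ∈ h.divisors.filter (fun d => Nat.Coprime d u), (1 : ℝ) / d) ≤ σ) :
    (((Wi x y).filter (fun p => p.Prime ∧ (p + h).Prime ∧ p ≡ v0 [MOD u])).card : ℝ) ≤
      C * ((u : ℝ) / Nat.totient u) ^ 2 * σ * (3 * y / u) * (3 / L) ^ 2 := by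
  have hu' : (0 : ℝ) < u := by exact_mod_cast hu
  have hy : 0 < y := by
    have : (1 : ℝ) ≤ u := by exact_mod_cast hu
    linarith
  obtain ⟨e1, e2, e3, e4⟩ := win_aux hu huy hx
  obtain ⟨t1, t2⟩ := hT _ (hTy.trans e1)
  have hl := cls_pairs h2 u v0 h ⌊x⌋₊ (⌊y⌋₊ + 1) ⌈2 * y / u⌉₊ hu heu hco hco2 hh t1 e3 e4
  have hsub : ((Wi x y).filter (fun p => p.Prime ∧ (p + h).Prime ∧ p ≡ v0 [MOD u])) ⊆
      ((Ioc ⌊x⌋₊ (⌊x⌋₊ + (⌊y⌋₊ + 1))).filter (fun p => p.Prime ∧ (p + h).Prime ∧ p ≡ v0 [MOD u])) :=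
    filter_subset_filter _ (Wi_sub (by linarith) hy.le)
  have hc : (((Wi x y).filter (fun p => p.Prime ∧ (p + h).Prime ∧ p ≡ v0 [MOD u])).card : ℝ) ≤ _ :=
    (Nat.cast_le.2 (card_le_card hsub)).trans hl
  refine hc.trans ?_
  rw [div_eq_mul_inv _ ((Real.log _) ^ 2), ← inv_pow]
  have e5 : (Real.log (⌈2 * y / u⌉₊ : ℝ))⁻¹ ≤ 3 / L := by
    have : (L / 3)⁻¹ = 3 / L := by rw [inv_div]
    rw [← this]
    exact inv_anti₀ (by positivity) t2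
  have e6 : (0 : ℝ) ≤ (Real.log (⌈2 * y / u⌉₊ : ℝ))⁻¹ := inv_nonneg.2 (le_trans (by positivity) t2)
  have e7 : (0 : ℝ) ≤ ∑ d ∈ h.divisors.filter (fun d => Nat.Coprime d u), (1 : ℝ) / d :=
    sum_nonneg fun d _ => by positivity
  have e8 : (0 : ℝ) ≤ σ := e7.trans hσ
  gcongr

/-- `B l / φ(B l) ≤ 2 B / φ(B)` -/
lemma ratio_mul (B l : ℕ) (hB : 0 < B) (hl : l.Prime) (hco : Nat.Coprime B l) :
    ((B * l : ℕ) : ℝ) / Nat.totient (B * l) ≤ 2 * B / Nat.totient B := by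
  rw [Nat.totient_mul hco, Nat.totient_prime hl]
  have h2 : (2 : ℝ) ≤ l := by exact_mod_cast hl.two_le
  have hφ : (0 : ℝ) < Nat.totient B := by exact_mod_cast Nat.totient_pos.2 hB
  have hB' : (0 : ℝ) < B := by exact_mod_cast hB
  push_cast [Nat.cast_sub hl.one_lt.le]
  rw [div_le_div_iff₀ (by nlinarith) hφ]
  have : (B : ℝ) * l * B.totient ≤ (B * (2 * (l - 1))) * B.totient := by
    gcongr
    linarith
  linarith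

/-- the primes above `R` dividing `h < (R + 1) ^ 2` : at most one -/
lemma big_primes (h R : ℕ) (hh : 0 < h) (hR : h < (R + 1) ^ 2) :
    (h.primeFactors.filter (fun l => R < l)).card ≤ 1 := by
  rw [card_le_one]
  intro a ha b hb
  by_contra hne
  rw [mem_filter, Nat.mem_primeFactors] at ha hb
  have hco : Nat.Coprime a b := (Nat.coprime_primes ha.1.1 hb.1.1).2 hne
  have hd : a * b ∣ h := hco.mul_dvd_of_dvd_of_dvd ha.1.2.1 hb.1.2.1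
  have := Nat.le_of_dvd hh hd
  have h3 : (R + 1) * (R + 1) ≤ a * b := Nat.mul_le_mul ha.2 hb.2
  nlinarith

/-- few elements of a window in one class modulo `l` -/
lemma win_triv (x y : ℝ) (hx : 0 ≤ x) (hy : 0 ≤ y) (l v0 : ℕ) (hl : 0 < l) :
    (((Wi x y).filter (fun p => p ≡ v0 [MOD l])).card : ℝ) ≤ (y + 1) / l + 1 := by
  have hl' : (0 : ℝ) < l := by exact_mod_cast hl
  have h1 : ((Ioc ⌊x⌋₊ (⌊x⌋₊ + (⌊y⌋₊ + 1))).filter (fun p => p ≡ v0 [MOD l])).card ≤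
      (⌊y⌋₊ + 1) / l + 1 := by
    obtain ⟨v, hMv, hv, hall⟩ := exists_first l v0 ⌊x⌋₊ hl
    have : (Ioc ⌊x⌋₊ (⌊x⌋₊ + (⌊y⌋₊ + 1))).filter (fun p => p ≡ v0 [MOD l]) ⊆
        (range ((⌊y⌋₊ + 1) / l + 1)).image (fun q => l * q + v) := by
      intro p hp
      rw [mem_filter, mem_Ioc] at hp
      obtain ⟨q, rfl⟩ := hall p hp.1.1 hp.2
      rw [mem_image]
      refine ⟨q, ?_, rfl⟩
      rw [mem_range, Nat.lt_succ_iff, Nat.le_div_iff_mul_le hl, mul_comm]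
      have := hp.1.2
      omega
    exact ((card_le_card this).trans card_image_le).trans (by rw [card_range])
  have h2 : (((Wi x y).filter (fun p => p ≡ v0 [MOD l])).card : ℝ) ≤
      (((⌊y⌋₊ + 1) / l + 1 : ℕ) : ℝ) := by
    exact_mod_cast (card_le_card (filter_subset_filter _ (Wi_sub hx hy))).trans h1
  refine h2.trans ?_
  push_cast
  have h3 : (((⌊y⌋₊ + 1) / l : ℕ) : ℝ) ≤ ((⌊y⌋₊ + 1 : ℕ) : ℝ) / l := Nat.cast_div_le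
  have h4 : (⌊y⌋₊ : ℝ) ≤ y := Nat.floor_le hy
  have h5 : ((⌊y⌋₊ + 1 : ℕ) : ℝ) / l ≤ (y + 1) / l := by
    gcongr
    push_cast; linarith
  linarith

end Pool.Agent.Work.MP_713a1e_co
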