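import Pool.Agent.Work.MP_713a1e_co.ChoiceC

/-! JOB E, part 4: the choice for fixed parameters. -/

set_option autoImplicit false

namespace Pool.Agent.Work.MP_713a1e_co

open Finset

/-- all prime factors of `4 Q!` are `≤ Q` and conversely (for `Q ≥ 2`) -/
lemma prime_dvd_B {Q l : ℕ} (hQ : 2 ≤ Q) (hl : l.Prime) : l ∣ 4 * Q.factorial ↔ l ≤ Q := by
  constructor
  · intro h
    rcases (hl.dvd_mul).1 h with h | h
    · have : l ∣ 2 ^ 2 := by simpa using h
      exact (Nat.le_of_dvd (by norm_num) (hl.dvd_of_dvd_pow this)).trans hQ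
    · exact (hl.dvd_factorial).1 h
  · intro h
    exact Dvd.dvd.mul_left ((hl.dvd_factorial).2 h) _

/-- the sum over the divisors is bounded -/
lemma sigma_le_eight (Q R h u : ℕ) (hh : 0 < h) (hQ : 2 ≤ Q) (hR : h < (R + 1) ^ 2) (hR1 : 1 ≤ R)
    (hu : 4 * Q.factorial ∣ u) (hs : ∑ l ∈ Ls Q R h, (1 : ℝ) / l ≤ 1 / 2) :
    (∑ d ∈ h.divisors.filter (fun d => Nat.Coprime d u), (1 : ℝ) / d) ≤ 8 := by
  refine (sigma_bound h u hh).trans ?_
  have h1 : h.primeFactors.filter (fun l => ¬ l ∣ u) ⊆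
      Ls Q R h ∪ h.primeFactors.filter (fun l => R < l) := by
    intro l hl
    rw [mem_filter] at hl
    have hlp := (Nat.mem_primeFactors.1 hl.1)
    have hlQ : Q < l := by
      by_contra hc
      exact hl.2 (((prime_dvd_B hQ hlp.1).2 (not_lt.1 hc)).trans hu)
    rw [mem_union]
    by_cases hlR : l ≤ R
    · left
      rw [Ls, mem_filter, mem_Ioc]
      exact ⟨⟨hlQ, hlR⟩, hlp.1, hlp.2.1⟩
    · right
      rw [mem_filter]
      exact ⟨hl.1, not_le.1 hlR⟩
  have h2 : ∑ l ∈ h.primeFactors.filter (fun l => ¬ l ∣ u), (1 : ℝ) / l ≤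
      ∑ l ∈ Ls Q R h, (1 : ℝ) / l + ∑ l ∈ h.primeFactors.filter (fun l => R < l), (1 : ℝ) / l := by
    refine (sum_le_sum_of_subset_of_nonneg h1 (fun l _ _ => by positivity)).trans ?_
    have := sum_union_inter (s₁ := Ls Q R h) (s₂ := h.primeFactors.filter (fun l => R < l))
      (f := fun l : ℕ => (1 : ℝ) / l)
    have h3 : (0 : ℝ) ≤ ∑ l ∈ Ls Q R h ∩ h.primeFactors.filter (fun l => R < l), (1 : ℝ) / l :=
      sum_nonneg fun l _ => by positivity
    linarith
  have h4 : ∑ l ∈ h.primeFactors.filter (fun l => R < l), (1 : ℝ) / l ≤ 1 / 2 := by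
    have h5 : ∀ l ∈ h.primeFactors.filter (fun l => R < l), (1 : ℝ) / l ≤ 1 / 2 := by
      intro l hl
      rw [mem_filter] at hl
      have : (2 : ℝ) ≤ l := by
        have : 2 ≤ l := by omega
        exact_mod_cast this
      gcongr
    have h6 := sum_le_card_nsmul _ _ _ h5
    have h7 : ((h.primeFactors.filter (fun l => R < l)).card : ℝ) ≤ 1 := by
      exact_mod_cast big_primes h R hh hR
    rw [nsmul_eq_mul] at h6
    linarith
  have h8 : Real.exp (2 * ∑ l ∈ h.primeFactors.filter (fun l => ¬ l ∣ u), (1 : ℝ) / l) ≤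
      Real.exp (1 + 1) := by
    apply Real.exp_le_exp.2
    linarith
  refine h8.trans ?_
  rw [Real.exp_add]
  have := Real.exp_one_lt_d9
  have h0 := Real.exp_pos 1
  nlinarith

theorem choice_fin {C Y0 T L : ℝ} (hC : 1 ≤ C) (hL : 0 < L) (h1 : SieveOne C Y0)
    (h2 : SievePairsC C Y0) (hT : Thr T L Y0) (Q B R : ℕ) (hB : B = 4 * Q.factorial) (hQ2 : 2 ≤ Q)
    (hQ : 6000000 * C ^ 2 ≤ Q) (x y c2 : ℝ) (hc2 : c2 = 1 / (42000 * C))
    (hR1 : 1 ≤ R) (hx : 9 * y ≤ x) (hRy : 3 * y < ((R : ℝ) + 1) ^ 2) (hT1 : 1 ≤ T)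
    (hbig : B * R * T ≤ y) (hbig2 : B * T ≤ 2 * c2 * y)
    (hd1 : y / (2 * Nat.totient B * L) ≤
      (((Wi x y).filter (fun p => p.Prime ∧ p ≡ 1 [MOD B])).card : ℝ))
    (hd2 : y / (2 * Nat.totient B * L) ≤
      (((Wi (x + 2 * y) y).filter (fun p => p.Prime ∧ p ≡ B - 1 [MOD B])).card : ℝ))
    (hE : (y + 1) / (R + 1) + 1 ≤ y * B / (192 * (Nat.totient B) ^ 2 * L ^ 2)) :
    ∃ p a d : ℕ, p.Prime ∧ (p + 2 * a).Prime ∧ (p - 2 * d).Prime ∧ (p + 2 * a - 2 * d).Prime ∧
      Nat.Coprime a d ∧ x < p ∧ (p : ℝ) ≤ x + y ∧ y / 2 ≤ a ∧ (a : ℝ) ≤ 3 / 2 * y ∧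
      c2 / 2 * y ≤ d ∧ (d : ℝ) ≤ y / 2 := by
  classical
  have hC0 : 0 < C := by linarith
  have hBpos : 0 < B := by rw [hB]; have := Q.factorial_pos; omega
  have hB' : (0 : ℝ) < B := by exact_mod_cast hBpos
  have hB1 : (1 : ℝ) ≤ B := by exact_mod_cast hBpos
  have hB4 : 4 ≤ B := by rw [hB]; have := Q.factorial_pos; omega
  have hR' : (1 : ℝ) ≤ R := by exact_mod_cast hR1
  have hφ : (0 : ℝ) < Nat.totient B := by exact_mod_cast Nat.totient_pos.2 hBpos
  set φ : ℝ := (Nat.totient B : ℝ) with hφdef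
  have hc2pos : 0 < c2 := by rw [hc2]; positivity
  have hc2le : c2 ≤ 1 / 42000 := by
    rw [hc2]
    apply one_div_le_one_div_of_le (by norm_num)
    linarith
  have hBT : (B : ℝ) ≤ B * T := le_mul_of_one_le_right hB'.le hT1
  have hy : 0 < y := by
    have h3 : (0 : ℝ) < B * R * T := by positivity
    linarith
  have hBy : (B : ℝ) * R ≤ y := by
    have h3 : (B : ℝ) * R * 1 ≤ B * R * T := by gcongr
    linarith
  have hBc2 : (B : ℝ) ≤ 2 * c2 * y := by linarith
  have hc2y : c2 * y ≤ 1 / 42000 * y := mul_le_mul_of_nonneg_right hc2le hy.le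
  have hc2y0 : 0 < c2 * y := mul_pos hc2pos hy
  have hQR : (0 : ℝ) < (Q : ℝ) := by
    have : 0 < Q := by omega
    exact_mod_cast this
  -- the two sets
  set A1 := (Wi x y).filter (fun p => p.Prime ∧ p ≡ 1 [MOD B]) with hA1
  set A2 := (Wi (x + 2 * y) y).filter (fun p => p.Prime ∧ p ≡ B - 1 [MOD B]) with hA2
  have hm1 : ∀ p ∈ A1, x < p ∧ (p : ℝ) ≤ x + y ∧ p.Prime ∧ p ≡ 1 [MOD B] := by
    intro p hp
    rw [hA1, mem_filter, mem_Wi (by linarith) hy.le] at hp
    exact ⟨hp.1.1, hp.1.2, hp.2.1, hp.2.2⟩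
  have hm2 : ∀ q ∈ A2, x + 2 * y < q ∧ (q : ℝ) ≤ x + 3 * y ∧ q.Prime ∧ q ≡ B - 1 [MOD B] := by
    intro p hp
    rw [hA2, mem_filter, mem_Wi (by linarith) hy.le] at hp
    exact ⟨hp.1.1, by linarith [hp.1.2], hp.2.1, hp.2.2⟩
  have hq0 : 0 < y / (2 * φ * L) := by positivity
  have hne1 : A1.Nonempty := by
    rw [← card_pos]
    exact_mod_cast hq0.trans_le hd1
  have hne2 : A2.Nonempty := by
    rw [← card_pos]
    exact_mod_cast hq0.trans_le hd2
  have hlt : ∀ p ∈ A1, ∀ q ∈ A2, p < q := by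
    intro p hp q hq
    have e1 := (hm1 p hp).2.1
    have e2 := (hm2 q hq).1
    have : (p : ℝ) < q := by linarith
    exact_mod_cast this
  have hcoBl : ∀ l : ℕ, l.Prime → Q < l → Nat.Coprime B l := by
    intro l hl hQl
    rw [Nat.coprime_comm, Nat.Prime.coprime_iff_not_dvd hl, hB, prime_dvd_B hQ2 hl]
    omega
  have hcomb : ∀ (l a b : ℕ), l.Prime → Q < l → a ≡ b [MOD B] → a ≡ b [MOD l] →
      a ≡ b [MOD (B * l)] := by
    intro l a b hl hQl hab1 hab2
    exact (Nat.modEq_and_modEq_iff_modEq_mul (hcoBl l hl hQl)).1 ⟨hab1, hab2⟩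
  -- large primes are coprime to B l
  have hBlx : ∀ l : ℕ, l ≤ R → (B : ℝ) * l ≤ y := by
    intro l hl
    have : (l : ℝ) ≤ R := by exact_mod_cast hl
    calc (B : ℝ) * l ≤ B * R := by gcongr
      _ ≤ y := hBy
  have hcop : ∀ (p u : ℕ), p.Prime → 0 < u → (u : ℝ) ≤ y → x < p → Nat.Coprime p u := by
    intro p u hp hu huy hxp
    rw [Nat.Prime.coprime_iff_not_dvd hp]
    intro hd
    have := Nat.le_of_dvd hu hd
    have h3 : (p : ℝ) ≤ u := by exact_mod_cast this
    linarith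
  -- class counts for the second set
  have hcls : ∀ p ∈ A1, ∀ l, l.Prime → Q < l → l ≤ R →
      ((A2.filter (fun q => q ≡ p [MOD l])).card : ℝ) ≤ (36 * C) / l * A2.card := by
    intro p hp l hl hQl hlR
    have hl0 : (0 : ℝ) < l := by exact_mod_cast hl.pos
    rcases (A2.filter (fun q => q ≡ p [MOD l])).eq_empty_or_nonempty with he | ⟨q0, hq0⟩
    · rw [he]; simp only [card_empty, Nat.cast_zero]; positivity
    · rw [mem_filter] at hq0
      have hq := hm2 q0 hq0.1
      have hu : 0 < B * l := Nat.mul_pos hBpos hl.pos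
      have huy : ((B * l : ℕ) : ℝ) ≤ y := by push_cast; exact hBlx l hlR
      have hsub : A2.filter (fun q => q ≡ p [MOD l]) ⊆
          (Wi (x + 2 * y) y).filter (fun q => q.Prime ∧ q ≡ q0 [MOD (B * l)]) := by
        intro q hq'
        rw [mem_filter, hA2, mem_filter] at hq'
        rw [mem_filter]
        refine ⟨hq'.1.1, hq'.1.2.1, hcomb l q q0 hl hQl ?_ ?_⟩
        · exact hq'.1.2.2.trans hq.2.2.2.symm
        · exact hq'.2.trans hq0.2.symm
      have hb := win_one hC0.le hL h1 hT (B * l) q0 (x + 2 * y) y hu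
        (hcop q0 (B * l) hq.2.2.1 hu huy (by linarith [hq.1])) huy (by linarith) (by
          rw [le_div_iff₀ (by exact_mod_cast hu)]
          push_cast
          have : (l : ℝ) ≤ R := by exact_mod_cast hlR
          have e1 : T * (B * l) ≤ B * R * T := by
            calc T * ((B : ℝ) * l) ≤ T * (B * R) := by gcongr
              _ = B * R * T := by ring
          linarith)
      have hcc : ((A2.filter (fun q => q ≡ p [MOD l])).card : ℝ) ≤ _ :=
        (Nat.cast_le.2 (card_le_card hsub)).trans hb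
      refine hcc.trans ?_
      have hr := ratio_mul B l hBpos hl (hcoBl l hl hQl)
      calc C * (((B * l : ℕ) : ℝ) / Nat.totient (B * l)) * (3 * y / ((B * l : ℕ) : ℝ)) * (3 / L)
          ≤ C * (2 * B / φ) * (3 * y / ((B * l : ℕ) : ℝ)) * (3 / L) := by gcongr
        _ = (36 * C) / l * (y / (2 * φ * L)) := by
            push_cast
            field_simp
            ring
        _ ≤ (36 * C) / l * A2.card := by gcongr
  -- the set of differences
  obtain ⟨H, hHc, hHm⟩ := card_diffs B hBpos y hy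
  have hH : ∀ p ∈ A1, ∀ q ∈ A2, q - p ∈ H := by
    intro p hp q hq
    have hpq := hlt p hp q hq
    have e1 := hm1 p hp
    have e2 := hm2 q hq
    apply hHm
    · rw [Nat.cast_sub hpq.le]; linarith
    · rw [Nat.cast_sub hpq.le]; linarith
    · have e3 : q - p + 2 + (p + (B - 1)) = q + 1 + B := by omega
      have e4 : q - p + 2 + (p + (B - 1)) ≡ 0 + (p + (B - 1)) [MOD B] := by
        rw [e3]
        have e5 : q + 1 + B ≡ (B - 1) + 1 + 0 [MOD B] := by
          apply Nat.ModEq.add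
          · exact e2.2.2.2.add_right 1
          · exact Nat.modEq_zero_iff_dvd.2 dvd_rfl
        have e6 : 0 + (p + (B - 1)) ≡ 0 + (1 + (B - 1)) [MOD B] :=
          Nat.ModEq.add_left _ (e1.2.2.2.add_right _)
        refine e5.trans (Nat.ModEq.trans ?_ e6.symm)
        rw [show B - 1 + 1 + 0 = 0 + (1 + (B - 1)) by omega]
      have e7 := Nat.ModEq.add_right_cancel' _ e4
      exact Nat.modEq_zero_iff_dvd.1 e7
  have hHn : (H.card : ℝ) ≤ 3 * y / B := by
    have : (1 : ℝ) ≤ y / B := by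
      rw [le_div_iff₀ hB', one_mul]
      exact (le_mul_of_one_le_right hB'.le hR').trans hBy
    have e : 3 * y / (B : ℝ) = 2 * y / B + y / B := by ring
    linarith
  obtain ⟨h, hh, hTh, hs⟩ := exists_h A1 A2 Q R (36 * C) (3 * y / B) (by omega) (by positivity)
    hne1 hne2 hlt hcls H hH hHn
  set N0 : ℝ := y * B / (24 * φ ^ 2 * L ^ 2) with hN0
  have hN0pos : 0 < N0 := by positivity
  set Th := A1.filter (fun p => p + h ∈ A2) with hThdef
  have hTh' : N0 ≤ (Th.card : ℝ) := by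
    refine le_trans ?_ hTh
    rw [le_div_iff₀ (by positivity)]
    calc N0 * (2 * (3 * y / B)) = (y / (2 * φ * L)) * (y / (2 * φ * L)) := by
          rw [hN0]
          field_simp
          ring
      _ ≤ (A1.card : ℝ) * A2.card := by gcongr
  have hs' : ∑ l ∈ Ls Q R h, (1 : ℝ) / l ≤ 72 * C / Q := by
    refine hs.trans (le_of_eq ?_)
    ring
  have hs72 : 72 * C / Q ≤ 1 / 2 := by
    rw [div_le_div_iff₀ hQR (by norm_num)]
    have : C ≤ C ^ 2 := by
      rw [sq]; exact le_mul_of_one_le_right hC0.le hC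
    linarith
  obtain ⟨p0, hp0⟩ : Th.Nonempty := by
    rw [← card_pos]
    exact_mod_cast hN0pos.trans_le hTh'
  have hp0' := hp0
  rw [hThdef, mem_filter] at hp0'
  have hp1 := hm1 p0 hp0'.1
  have hp2 := hm2 (p0 + h) hp0'.2
  have hhy : y < h ∧ (h : ℝ) < 3 * y := by
    have e1 := hp1
    have e2 := hp2
    push_cast at e2
    constructor <;> linarith
  have hh0 : 0 < h := by
    have : (0 : ℝ) < h := by linarith [hhy.1]
    exact_mod_cast this
  have hhR : h < (R + 1) ^ 2 := by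
    have : (h : ℝ) < (((R + 1) ^ 2 : ℕ) : ℝ) := by push_cast; linarith [hhy.2]
    exact_mod_cast this
  have hBh : B ∣ h + 2 := by
    have e3 : h + 2 + (p0 + (B - 1)) = (p0 + h) + 1 + B := by omega
    have e4 : h + 2 + (p0 + (B - 1)) ≡ 0 + (p0 + (B - 1)) [MOD B] := by
      rw [e3]
      have e5 : (p0 + h) + 1 + B ≡ (B - 1) + 1 + 0 [MOD B] := by
        apply Nat.ModEq.add
        · exact hp2.2.2.2.add_right 1
        · exact Nat.modEq_zero_iff_dvd.2 dvd_rfl
      have e6 : 0 + (p0 + (B - 1)) ≡ 0 + (1 + (B - 1)) [MOD B] :=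
        Nat.ModEq.add_left _ (hp1.2.2.2.add_right _)
      refine e5.trans (Nat.ModEq.trans ?_ e6.symm)
      rw [show B - 1 + 1 + 0 = 0 + (1 + (B - 1)) by omega]
    have e7 := Nat.ModEq.add_right_cancel' _ e4
    exact Nat.modEq_zero_iff_dvd.1 e7
  have hBeven : Even B := ⟨2 * Q.factorial, by rw [hB]; ring⟩
  have hmem : ∀ p ∈ Th, x < p ∧ (p : ℝ) ≤ x + y ∧ p.Prime ∧ (p + h).Prime ∧ p ≡ 1 [MOD B] := by
    intro p hp
    rw [hThdef, mem_filter] at hp
    have e1 := hm1 p hp.1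
    have e2 := hm2 _ hp.2
    exact ⟨e1.1, e1.2.1, e1.2.2.1, e2.2.2.1, e1.2.2.2⟩
  have hΦ : (B : ℝ) / φ ^ 2 * (y / L ^ 2) = 24 * N0 := by
    rw [hN0]; field_simp
  -- bad 1
  have hbad1 : ((Th.filter (fun p : ℕ => |(p : ℝ) - p0| < c2 * y)).card : ℝ) ≤ N0 / 4 := by
    have hsub : Th.filter (fun p : ℕ => |(p : ℝ) - p0| < c2 * y) ⊆
        (Wi ((p0 : ℝ) - c2 * y) (2 * c2 * y)).filter
          (fun p => p.Prime ∧ (p + h).Prime ∧ p ≡ 1 [MOD B]) := by
      intro p hp
      rw [mem_filter] at hp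
      have e1 := hmem p hp.1
      rw [mem_filter, mem_Wi (by linarith [hp1.1]) (by positivity)]
      have e2 := abs_lt.1 hp.2
      exact ⟨⟨by linarith, by linarith⟩, e1.2.2.1, e1.2.2.2.1, e1.2.2.2.2⟩
    have hb := win_pairs hC0.le hL h2 hT B 1 h ((p0 : ℝ) - c2 * y) (2 * c2 * y) 8 hBpos hBeven
      (Nat.coprime_one_left B) (by
        have e1 : p0 + h ≡ 1 + h [MOD B] := hp1.2.2.2.add_right h
        have := e1.gcd_eq
        rw [Nat.coprime_iff_gcd_eq_one, ← this]
        exact hcop (p0 + h) B hp2.2.2.1 hBpos (by linarith) (by linarith [hp2.1])) hh0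
      hBc2 (by linarith [hp1.1]) (by
        rw [le_div_iff₀ hB']
        linarith) (sigma_le_eight Q R h B hh0 hQ2 hhR hR1 (by rw [hB]) (hs'.trans hs72))
    have hcc : ((Th.filter (fun p : ℕ => |(p : ℝ) - p0| < c2 * y)).card : ℝ) ≤ _ :=
      (Nat.cast_le.2 (card_le_card hsub)).trans hb
    refine hcc.trans ?_
    calc C * ((B : ℝ) / φ) ^ 2 * 8 * (3 * (2 * c2 * y) / B) * (3 / L) ^ 2
        = 432 * (C * c2) * ((B : ℝ) / φ ^ 2 * (y / L ^ 2)) := by
          field_simp
          ring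
      _ = 432 * (C * c2) * (24 * N0) := by rw [hΦ]
      _ ≤ N0 / 4 := by
          have : C * c2 = 1 / 42000 := by rw [hc2]; field_simp
          rw [this]
          linarith
  -- bad 2
  have hbad2 : ∀ l ∈ Ls Q R h, ((Th.filter (fun p => p ≡ p0 [MOD l])).card : ℝ) ≤
      864 * C * (24 * N0) * (1 / l) := by
    intro l hl
    rw [Ls, mem_filter, mem_Ioc] at hl
    obtain ⟨⟨hQl, hlR⟩, hlp, hlh⟩ := hl
    have hl0 : (0 : ℝ) < l := by exact_mod_cast hlp.pos
    have hu : 0 < B * l := Nat.mul_pos hBpos hlp.pos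
    have huy : ((B * l : ℕ) : ℝ) ≤ y := by push_cast; exact hBlx l hlR
    have hsub : Th.filter (fun p => p ≡ p0 [MOD l]) ⊆
        (Wi x y).filter (fun p => p.Prime ∧ (p + h).Prime ∧ p ≡ p0 [MOD (B * l)]) := by
      intro p hp
      rw [mem_filter] at hp
      have e1 := hmem p hp.1
      rw [mem_filter, mem_Wi (by linarith) hy.le]
      exact ⟨⟨e1.1, e1.2.1⟩, e1.2.2.1, e1.2.2.2.1, hcomb l p p0 hlp hQl
        (e1.2.2.2.2.trans hp1.2.2.2.symm) hp.2⟩
    have hb := win_pairs hC0.le hL h2 hT (B * l) p0 h x y 8 hu (hBeven.mul_right l)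
      (hcop p0 (B * l) hp1.2.2.1 hu huy hp1.1)
      (hcop (p0 + h) (B * l) hp2.2.2.1 hu huy (by linarith [hp2.1])) hh0 huy (by linarith) (by
        rw [le_div_iff₀ (by exact_mod_cast hu)]
        push_cast
        have : (l : ℝ) ≤ R := by exact_mod_cast hlR
        have e1 : T * (B * l) ≤ B * R * T := by
          calc T * ((B : ℝ) * l) ≤ T * (B * R) := by gcongr
            _ = B * R * T := by ring
        linarith) (sigma_le_eight Q R h (B * l) hh0 hQ2 hhR hR1 (by rw [hB]; exact dvd_mul_right _ _)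
          (hs'.trans hs72))
    have hcc : ((Th.filter (fun p => p ≡ p0 [MOD l])).card : ℝ) ≤ _ :=
      (Nat.cast_le.2 (card_le_card hsub)).trans hb
    refine hcc.trans ?_
    have hr := ratio_mul B l hBpos hlp (hcoBl l hlp hQl)
    calc C * (((B * l : ℕ) : ℝ) / Nat.totient (B * l)) ^ 2 * 8 * (3 * y / ((B * l : ℕ) : ℝ)) *
          (3 / L) ^ 2
        ≤ C * (2 * B / φ) ^ 2 * 8 * (3 * y / ((B * l : ℕ) : ℝ)) * (3 / L) ^ 2 := by gcongr
      _ = 864 * C * ((B : ℝ) / φ ^ 2 * (y / L ^ 2)) * (1 / l) := by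
          push_cast
          field_simp
          ring
      _ = 864 * C * (24 * N0) * (1 / l) := by rw [hΦ]
  -- bad 3
  have hbad3 : ∀ l ∈ h.primeFactors.filter (fun l => R < l),
      ((Th.filter (fun p => p ≡ p0 [MOD l])).card : ℝ) ≤ N0 / 8 := by
    intro l hl
    rw [mem_filter] at hl
    have hlp := (Nat.mem_primeFactors.1 hl.1).1
    have hsub : Th.filter (fun p => p ≡ p0 [MOD l]) ⊆
        (Wi x y).filter (fun p => p ≡ p0 [MOD l]) := by
      intro p hp
      rw [mem_filter] at hp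
      have e1 := hmem p hp.1
      rw [mem_filter, mem_Wi (by linarith) hy.le]
      exact ⟨⟨e1.1, e1.2.1⟩, hp.2⟩
    have hb := win_triv x y (by linarith) hy.le l p0 hlp.pos
    have hcc : ((Th.filter (fun p => p ≡ p0 [MOD l])).card : ℝ) ≤ _ :=
      (Nat.cast_le.2 (card_le_card hsub)).trans hb
    refine hcc.trans ?_
    have hlR : (R : ℝ) + 1 ≤ l := by exact_mod_cast hl.2
    have e1 : (y + 1) / l ≤ (y + 1) / (R + 1) := by
      gcongr
    have e2 : y * B / (192 * φ ^ 2 * L ^ 2) = N0 / 8 := by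
      rw [hN0]; field_simp; ring
    linarith [hE, e2]
  -- a good element
  obtain ⟨p3, hp3, hg1, hg2, hg3⟩ : ∃ p3 ∈ Th, c2 * y ≤ |(p3 : ℝ) - p0| ∧
      (∀ l ∈ Ls Q R h, ¬ p3 ≡ p0 [MOD l]) ∧
      (∀ l ∈ h.primeFactors.filter (fun l => R < l), ¬ p3 ≡ p0 [MOD l]) := by
    by_contra hcon
    push Not at hcon
    have hcov : Th ⊆ (Th.filter (fun p : ℕ => |(p : ℝ) - p0| < c2 * y)) ∪
        ((Ls Q R h).biUnion (fun l => Th.filter (fun p => p ≡ p0 [MOD l])) ∪
        (h.primeFactors.filter (fun l => R < l)).biUnion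
          (fun l => Th.filter (fun p => p ≡ p0 [MOD l]))) := by
      intro p hp
      rw [mem_union, mem_union, mem_filter, mem_biUnion, mem_biUnion]
      by_cases c1 : |(p : ℝ) - p0| < c2 * y
      · left; exact ⟨hp, c1⟩
      right
      by_cases c2' : ∀ l ∈ Ls Q R h, ¬ p ≡ p0 [MOD l]
      · right
        obtain ⟨l, hl1, hl2⟩ := hcon p hp (not_lt.1 c1) c2'
        exact ⟨l, hl1, mem_filter.2 ⟨hp, hl2⟩⟩
      · left
        push Not at c2'
        obtain ⟨l, hl1, hl2⟩ := c2'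
        exact ⟨l, hl1, mem_filter.2 ⟨hp, hl2⟩⟩
    have hcard : (Th.card : ℝ) ≤
        ((Th.filter (fun p : ℕ => |(p : ℝ) - p0| < c2 * y)).card : ℝ) +
        (∑ l ∈ Ls Q R h, ((Th.filter (fun p => p ≡ p0 [MOD l])).card : ℝ) +
        ∑ l ∈ h.primeFactors.filter (fun l => R < l),
          ((Th.filter (fun p => p ≡ p0 [MOD l])).card : ℝ)) := by
      have e1 := (card_le_card hcov).trans (card_union_le _ _)
      have e2 := card_union_le ((Ls Q R h).biUnion (fun l => Th.filter (fun p => p ≡ p0 [MOD l])))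
        ((h.primeFactors.filter (fun l => R < l)).biUnion
          (fun l => Th.filter (fun p => p ≡ p0 [MOD l])))
      have e3 : ((Ls Q R h).biUnion (fun l => Th.filter (fun p => p ≡ p0 [MOD l]))).card ≤
          ∑ l ∈ Ls Q R h, (Th.filter (fun p => p ≡ p0 [MOD l])).card := card_biUnion_le
      have e4 : ((h.primeFactors.filter (fun l => R < l)).biUnion
          (fun l => Th.filter (fun p => p ≡ p0 [MOD l]))).card ≤
          ∑ l ∈ h.primeFactors.filter (fun l => R < l),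
            (Th.filter (fun p => p ≡ p0 [MOD l])).card := card_biUnion_le
      have e5 : Th.card ≤
        (Th.filter (fun p : ℕ => |(p : ℝ) - p0| < c2 * y)).card +
        (∑ l ∈ Ls Q R h, (Th.filter (fun p => p ≡ p0 [MOD l])).card +
        ∑ l ∈ h.primeFactors.filter (fun l => R < l),
          (Th.filter (fun p => p ≡ p0 [MOD l])).card) :=
        e1.trans (Nat.add_le_add_left (e2.trans (Nat.add_le_add e3 e4)) _)
      exact_mod_cast e5
    have hS2 : ∑ l ∈ Ls Q R h, ((Th.filter (fun p => p ≡ p0 [MOD l])).card : ℝ) ≤ N0 / 4 := by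
      refine (sum_le_sum hbad2).trans ?_
      rw [← mul_sum]
      calc 864 * C * (24 * N0) * ∑ l ∈ Ls Q R h, (1 : ℝ) / l
          ≤ 864 * C * (24 * N0) * (72 * C / Q) := by gcongr
        _ = (C ^ 2 / Q) * (1492992 * N0) := by ring
        _ ≤ (1 / 6000000) * (1492992 * N0) := by
            refine mul_le_mul_of_nonneg_right ?_ (by positivity)
            rw [div_le_div_iff₀ hQR (by norm_num)]
            linarith
        _ ≤ N0 / 4 := by linarith
    have hS3 : ∑ l ∈ h.primeFactors.filter (fun l => R < l),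
          ((Th.filter (fun p => p ≡ p0 [MOD l])).card : ℝ) ≤ N0 / 8 := by
      have h6 := sum_le_card_nsmul _ _ _ hbad3
      have h7 : ((h.primeFactors.filter (fun l => R < l)).card : ℝ) ≤ 1 := by
        exact_mod_cast big_primes h R hh0 hhR
      rw [nsmul_eq_mul] at h6
      refine h6.trans ?_
      exact mul_le_of_le_one_left (by positivity) h7
    linarith
  -- conclusion
  have hp3' := hmem p3 hp3
  have hp0'' := hmem p0 hp0
  have hneq : p3 ≠ p0 := by
    rintro rfl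
    simp only [sub_self, abs_zero] at hg1
    have : 0 < c2 * y := by positivity
    linarith
  -- order the two primes
  obtain ⟨P, P', hPm, hPm', hlt', hgap, hcong⟩ : ∃ P P' : ℕ, P ∈ Th ∧ P' ∈ Th ∧ P' < P ∧
      c2 * y ≤ (P : ℝ) - P' ∧ (∀ l : ℕ, P' ≡ P [MOD l] → p3 ≡ p0 [MOD l]) := by
    rcases lt_or_gt_of_ne hneq with hlt3 | hgt3
    · refine ⟨p0, p3, hp0, hp3, hlt3, ?_, fun l hl => hl⟩
      have : (p3 : ℝ) < p0 := by exact_mod_cast hlt3
      rw [abs_of_neg (by linarith)] at hg1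
      linarith
    · refine ⟨p3, p0, hp3, hp0, hgt3, ?_, fun l hl => hl.symm⟩
      have : (p0 : ℝ) < p3 := by exact_mod_cast hgt3
      rw [abs_of_pos (by linarith)] at hg1
      linarith
  have hP := hmem P hPm
  have hP' := hmem P' hPm'
  have hBd : B ∣ P - P' := (Nat.modEq_iff_dvd' hlt'.le).1 (hP'.2.2.2.2.trans hP.2.2.2.2.symm)
  obtain ⟨k, hk⟩ := hBh
  obtain ⟨m, hm⟩ := hBd
  have hBQ : B = 2 * (2 * Q.factorial) := by rw [hB]; ring
  have hkpos : 0 < k := by
    rcases Nat.eq_zero_or_pos k with rfl | hk0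
    · omega
    · exact hk0
  obtain ⟨a, ha⟩ : ∃ a, h = 2 * a := by
    refine ⟨2 * Q.factorial * k - 1, ?_⟩
    have : 1 ≤ 2 * Q.factorial * k :=
      Nat.mul_pos (Nat.mul_pos (by norm_num) Q.factorial_pos) hkpos
    have e1 : h + 2 = 2 * (2 * Q.factorial * k) := by rw [hk, hBQ]; ring
    omega
  obtain ⟨d, hd⟩ : ∃ d, P - P' = 2 * d := by
    refine ⟨2 * Q.factorial * m, ?_⟩
    rw [hm, hBQ]; ring
  have hPa : (P : ℝ) - P' = 2 * d := by
    have : ((P - P' : ℕ) : ℝ) = ((2 * d : ℕ) : ℝ) := by rw [hd]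
    rw [Nat.cast_sub hlt'.le] at this
    push_cast at this
    exact this
  have hha : (h : ℝ) = 2 * a := by rw [ha]; push_cast; ring
  refine ⟨P, a, d, hP.2.2.1, ?_, ?_, ?_, ?_, hP.1, hP.2.1, ?_, ?_, ?_, ?_⟩
  · rw [← ha]; exact hP.2.2.2.1
  · have : P - 2 * d = P' := by omega
    rw [this]; exact hP'.2.2.1
  · have : P + 2 * a - 2 * d = P' + h := by omega
    rw [this]; exact hP'.2.2.2.1
  · apply Nat.Coprime.symm
    rw [Nat.coprime_comm]
    apply Nat.coprime_of_dvd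
    intro l hl hla hld
    have hlh : l ∣ h := by rw [ha]; exact Dvd.dvd.mul_left hla 2
    have hlP : l ∣ P - P' := by rw [hd]; exact Dvd.dvd.mul_left hld 2
    have hcong3 : p3 ≡ p0 [MOD l] := hcong l ((Nat.modEq_iff_dvd' hlt'.le).2 hlP)
    rcases le_or_gt l Q with hlQ | hlQ
    · have e1 : a + 1 = Q.factorial * (2 * k) := by
        have : h + 2 = 2 * (Q.factorial * (2 * k)) := by rw [hk, hBQ]; ring
        omega
      have e2 : l ∣ a + 1 := by
        rw [e1]; exact Dvd.dvd.mul_right ((hl.dvd_factorial).2 hlQ) _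
      have e3 : l ∣ 1 := (Nat.dvd_add_right hla).1 e2
      exact hl.one_lt.ne' (Nat.dvd_one.1 e3)
    · rcases le_or_gt l R with hlR | hlR
      · exact hg2 l (by rw [Ls, mem_filter, mem_Ioc]; exact ⟨⟨hlQ, hlR⟩, hl, hlh⟩) hcong3
      · exact hg3 l (by
          rw [mem_filter, Nat.mem_primeFactors]
          exact ⟨⟨hl, hlh, hh0.ne'⟩, hlR⟩) hcong3
  · linarith [hhy.1]
  · linarith [hhy.2]
  · linarith
  · linarith [hP.2.1, hP'.1]

end Pool.Agent.Work.MP_713a1e_co
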