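import Pool.Agent.Work.MP_713a1e_co.ChoiceD

/-! JOB E, part 5: the choice for large `n`. -/

set_option autoImplicit false

namespace Pool.Agent.Work.MP_713a1e_co

open Finset Filter

/-- the statement `primes_in_ap` -/
def PrimesAPc : Prop := ∀ (q a : ℕ), 0 < q → Nat.Coprime a q → ∀ (κ δ : ℝ), 0 < κ → 0 < δ →
    ∃ x0 : ℝ, 1 < x0 ∧ ∀ x y : ℝ, x0 ≤ x → κ * x ≤ y → y ≤ x / κ →
      |(((Finset.Ioc ⌊x⌋₊ ⌊x + y⌋₊).filter (fun p => p.Prime ∧ p ≡ a [MOD q])).card : ℝ)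
        - y / ((Nat.totient q : ℝ) * Real.log x)| ≤ δ * y / Real.log x

/-- the lower bound for the number of primes in the windows -/
lemma dens_lower (hAP : PrimesAPc) (B a : ℕ) (hB : 0 < B) (ha : Nat.Coprime a B) (ε : ℝ) (hε : 0 < ε)
    (hε1 : ε ≤ 1 / 10) :
    ∃ x0 : ℝ, ∀ n : ℕ, x0 ≤ (n : ℝ) → 1 ≤ Real.log n → ∀ x : ℝ, (n : ℝ) ≤ x → x ≤ 27 / 20 * n →
      ε * n / 4 / (2 * Nat.totient B * Real.log n) ≤
        (((Wi x (ε * n / 4)).filter (fun p => p.Prime ∧ p ≡ a [MOD B])).card : ℝ) := by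
  have hφ : (0 : ℝ) < Nat.totient B := by exact_mod_cast Nat.totient_pos.2 hB
  set φ : ℝ := (Nat.totient B : ℝ) with hφdef
  obtain ⟨x0, hx01, hx0⟩ := hAP B a hB ha (ε / 8) (1 / (4 * φ)) (by positivity) (by positivity)
  refine ⟨x0, fun n hn hlog x hnx hx => ?_⟩
  have hn0 : (0 : ℝ) < n := by linarith
  have hx0' : 0 < x := by linarith
  have h1 := hx0 x (ε * n / 4) (hn.trans hnx) (by
      have : ε / 8 * x ≤ ε / 8 * (27 / 20 * n) := by gcongr
      have h2 : 0 < ε * n := by positivity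
      linarith) (by
      rw [le_div_iff₀ (by positivity)]
      have h2 : ε * n / 4 * (ε / 8) ≤ 1 / 10 * n / 4 * (1 / 10 / 8) := by gcongr
      linarith)
  have h2 := (abs_le.1 h1).1
  set l := Real.log x with hl
  set L := Real.log n with hL
  have hlL : l ≤ 3 / 2 * L := by
    have e1 : l ≤ Real.log (27 / 20 * n) := Real.log_le_log hx0' hx
    rw [Real.log_mul (by norm_num) hn0.ne'] at e1
    have e2 : Real.log (27 / 20) ≤ 27 / 20 - 1 := Real.log_le_sub_one_of_pos (by norm_num)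
    linarith
  have hl1 : L ≤ l := Real.log_le_log hn0 hnx
  have hl0 : 0 < l := by linarith
  have hL0 : 0 < L := by linarith
  have hy : 0 < ε * n / 4 := by positivity
  have h3 : (3 / 4) * (ε * n / 4) / (φ * l) ≤
      (((Wi x (ε * n / 4)).filter (fun p => p.Prime ∧ p ≡ a [MOD B])).card : ℝ) := by
    rw [Wi]
    have e1 : (ε * n / 4) / (φ * l) - 1 / (4 * φ) * (ε * n / 4) / l =
      (3 / 4) * (ε * n / 4) / (φ * l) := by
      field_simp
      ring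
    linarith
  refine le_trans ?_ h3
  rw [div_le_div_iff₀ (by positivity) (by positivity)]
  have : ε * n / 4 * (φ * l) ≤ ε * n / 4 * (φ * (3 / 2 * L)) := by gcongr
  linarith

theorem choice_of (hAP : PrimesAPc) {C Y0 : ℝ} (hC : 1 ≤ C) (h1 : SieveOne C Y0)
    (h2 : SievePairsC C Y0) :
    ∃ c : ℝ, 0 < c ∧ c ≤ 1 ∧ ∀ ε : ℝ, 0 < ε → ε ≤ 1 / 10 → ∃ n0 : ℕ, ∀ n : ℕ, n0 ≤ n →
      ∃ p a d : ℕ, p.Prime ∧ (p + 2 * a).Prime ∧ (p - 2 * d).Prime ∧ (p + 2 * a - 2 * d).Prime ∧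
        Nat.Coprime a d ∧ (5 : ℝ) / 4 * n ≤ p ∧ (p : ℝ) ≤ 3 / 2 * n ∧ c * ε * n ≤ a ∧
        (a : ℝ) ≤ ε * n ∧ c * ε * n ≤ d ∧ (d : ℝ) ≤ ε * n := by
  have hC0 : 0 < C := by linarith
  obtain ⟨Q, hQdef⟩ : ∃ Q : ℕ, Q = max 2 ⌈6000000 * C ^ 2⌉₊ := ⟨_, rfl⟩
  have hQ2 : 2 ≤ Q := by rw [hQdef]; exact le_max_left _ _
  have hQ : 6000000 * C ^ 2 ≤ (Q : ℝ) := by
    refine (Nat.le_ceil _).trans ?_
    rw [hQdef]
    exact_mod_cast le_max_right _ _
  obtain ⟨B, hB⟩ : ∃ B : ℕ, B = 4 * Q.factorial := ⟨_, rfl⟩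
  have hBpos : 0 < B := by rw [hB]; have := Q.factorial_pos; omega
  have hB' : (0 : ℝ) < B := by exact_mod_cast hBpos
  obtain ⟨c2, hc2⟩ : ∃ c2 : ℝ, c2 = 1 / (42000 * C) := ⟨_, rfl⟩
  have hc2pos : 0 < c2 := by rw [hc2]; positivity
  have hc2le : c2 ≤ 1 := by
    rw [hc2, div_le_one (by positivity)]
    linarith
  refine ⟨c2 / 8, by positivity, by linarith, fun ε hε hε1 => ?_⟩
  have hφ : (0 : ℝ) < Nat.totient B := by exact_mod_cast Nat.totient_pos.2 hBpos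
  have hco2 : Nat.Coprime (B - 1) B := by
    obtain ⟨b, rfl⟩ : ∃ b, B = b + 1 := ⟨B - 1, by omega⟩
    simp
  obtain ⟨x1, hx1⟩ := dens_lower hAP B 1 hBpos (Nat.coprime_one_left B) ε hε hε1
  obtain ⟨x2, hx2⟩ := dens_lower hAP B (B - 1) hBpos hco2 ε hε hε1
  obtain ⟨K, hK⟩ : ∃ K : ℝ, K = B / (384 * (Nat.totient B : ℝ) ^ 2) := ⟨_, rfl⟩
  have hK0 : 0 < K := by rw [hK]; positivity
  have hcast := tendsto_natCast_atTop_atTop (R := ℝ)
  have E1 : ∀ᶠ n : ℕ in atTop, x1 ≤ (n : ℝ) := hcast.eventually (eventually_ge_atTop x1)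
  have E2 : ∀ᶠ n : ℕ in atTop, x2 ≤ (n : ℝ) := hcast.eventually (eventually_ge_atTop x2)
  have E3 : ∀ᶠ n : ℕ in atTop, (max Y0 1) ≤ (n : ℝ) ^ (1 / 3 : ℝ) :=
    hcast.eventually ((tendsto_rpow_atTop (by norm_num)).eventually (eventually_ge_atTop _))
  have E4 : ∀ᶠ n : ℕ in atTop, 4 * B / ε ≤ (n : ℝ) ^ (1 / 6 : ℝ) :=
    hcast.eventually ((tendsto_rpow_atTop (by norm_num)).eventually (eventually_ge_atTop _))
  have E5 : ∀ᶠ n : ℕ in atTop, 2 * B / (c2 * ε) ≤ (n : ℝ) ^ (2 / 3 : ℝ) :=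
    hcast.eventually ((tendsto_rpow_atTop (by norm_num)).eventually (eventually_ge_atTop _))
  have E6 : ∀ᶠ n : ℕ in atTop, 8 / ε ≤ (n : ℝ) ^ (1 / 2 : ℝ) :=
    hcast.eventually ((tendsto_rpow_atTop (by norm_num)).eventually (eventually_ge_atTop _))
  have E7 : ∀ᶠ n : ℕ in atTop, 1 ≤ Real.log (n : ℝ) :=
    hcast.eventually (Real.tendsto_log_atTop.eventually (eventually_ge_atTop _))
  have E8 : ∀ᶠ n : ℕ in atTop, (Real.log (n : ℝ)) ^ 2 ≤ K * (n : ℝ) ^ (1 / 2 : ℝ) := by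
    have h3 := (isLittleO_log_rpow_rpow_atTop (s := 1 / 2) 2 (by norm_num)).bound hK0
    filter_upwards [hcast.eventually h3, E7] with n hn hn1
    rw [Real.norm_eq_abs, Real.norm_eq_abs, abs_of_nonneg (by positivity),
      abs_of_nonneg (by positivity)] at hn
    exact_mod_cast hn
  have E9 : ∀ᶠ n : ℕ in atTop, 1 ≤ n := eventually_ge_atTop 1
  obtain ⟨n0, hn0⟩ := eventually_atTop.1
    (E1.and (E2.and (E3.and (E4.and (E5.and (E6.and (E7.and (E8.and E9))))))))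
  refine ⟨n0, fun n hn => ?_⟩
  obtain ⟨g1, g2, g3, g4, g5, g6, g7, g8, g9⟩ := hn0 n hn
  have hn1 : (1 : ℝ) ≤ n := by exact_mod_cast g9
  have hnpos : (0 : ℝ) < n := by linarith
  set L := Real.log n with hL
  have hL0 : 0 < L := by linarith
  set T := (n : ℝ) ^ (1 / 3 : ℝ) with hTdef
  have hT1 : 1 ≤ T := (le_max_right _ _).trans g3
  have hTY : Y0 ≤ T := (le_max_left _ _).trans g3
  have hThr : Thr T L Y0 := by
    intro Y hY
    refine ⟨hTY.trans hY, ?_⟩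
    have e1 : Real.log T ≤ Real.log Y := Real.log_le_log (by linarith) hY
    rw [hTdef, Real.log_rpow hnpos] at e1
    linarith
  set R := Nat.sqrt n with hR
  have hR1 : 1 ≤ R := by
    rw [hR]
    exact Nat.sqrt_pos.2 (by omega)
  have hsq : ((n : ℝ) ^ (1 / 2 : ℝ)) ^ 2 = n := by
    rw [← Real.rpow_natCast, ← Real.rpow_mul hnpos.le]
    norm_num
  set w := (n : ℝ) ^ (1 / 2 : ℝ) with hw
  have hw0 : 0 < w := by positivity
  have hRw : (R : ℝ) ≤ w := by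
    have e1 : (R : ℝ) ^ 2 ≤ w ^ 2 := by
      rw [hsq]
      have := Nat.sqrt_le' n
      exact_mod_cast this
    exact le_of_sq_le_sq e1 hw0.le
  have hRw2 : w ≤ (R : ℝ) + 1 := by
    have e1 : w ^ 2 ≤ ((R : ℝ) + 1) ^ 2 := by
      rw [hsq]
      have := (Nat.lt_succ_sqrt' n).le
      exact_mod_cast this
    exact le_of_sq_le_sq e1 (by positivity)
  set y := ε * n / 4 with hy
  have hy0 : 0 < y := by positivity
  have hyn : y ≤ n / 40 := by
    have : ε * n ≤ 1 / 10 * n := by gcongr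
    rw [hy]; linarith
  have hbig : B * R * T ≤ y := by
    have e1 : w * T * (n : ℝ) ^ (1 / 6 : ℝ) = n := by
      rw [hw, hTdef, ← Real.rpow_add hnpos, ← Real.rpow_add hnpos]
      norm_num
    have e2 : w * T * (4 * B / ε) ≤ n := by
      calc w * T * (4 * B / ε) ≤ w * T * (n : ℝ) ^ (1 / 6 : ℝ) := by gcongr
        _ = n := e1
    have e3 : B * w * T ≤ y := by
      have e4 : w * T * (4 * B / ε) * (ε / 4) ≤ n * (ε / 4) := by gcongr
      have e5 : w * T * (4 * B / ε) * (ε / 4) = B * w * T := by field_simp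
      rw [hy]
      linarith
    refine le_trans ?_ e3
    gcongr
  have hbig2 : B * T ≤ 2 * c2 * y := by
    have e1 : T * (n : ℝ) ^ (2 / 3 : ℝ) = n := by
      rw [hTdef, ← Real.rpow_add hnpos]
      norm_num
    have e2 : T * (2 * B / (c2 * ε)) ≤ n := by
      calc T * (2 * B / (c2 * ε)) ≤ T * (n : ℝ) ^ (2 / 3 : ℝ) := by gcongr
        _ = n := e1
    have e4 : T * (2 * B / (c2 * ε)) * (c2 * ε / 2) ≤ n * (c2 * ε / 2) := by gcongr
    have e5 : T * (2 * B / (c2 * ε)) * (c2 * ε / 2) = B * T := by field_simp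
    rw [hy]
    linarith
  have hRy : 3 * y < ((R : ℝ) + 1) ^ 2 := by
    have e1 : w ^ 2 ≤ ((R : ℝ) + 1) ^ 2 := by gcongr
    rw [hsq] at e1
    linarith
  have hE : (y + 1) / (R + 1) + 1 ≤ y * B / (192 * (Nat.totient B : ℝ) ^ 2 * L ^ 2) := by
    have hw1 : 1 ≤ w := by
      have : (1 : ℝ) ≤ 8 / ε := by
        rw [le_div_iff₀ hε]; linarith
      linarith
    have e1 : (y + 1) / ((R : ℝ) + 1) ≤ (y + 1) / w := by gcongr
    have e2 : (y + 1) / w ≤ y / w + 1 := by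
      rw [add_div]
      have : 1 / w ≤ 1 := by rw [div_le_one hw0]; exact hw1
      linarith
    have e3 : 2 ≤ y / w := by
      rw [le_div_iff₀ hw0, hy]
      have e4 : 8 / ε * w ≤ w * w := by gcongr
      have e5 : w * w = n := by rw [← sq]; exact hsq
      have e6 : (8 / ε * w) * (ε / 4) ≤ n * (ε / 4) := by
        rw [← e5]; gcongr
      have e7 : (8 / ε * w) * (ε / 4) = 2 * w := by field_simp; ring
      linarith
    have e8 : y / w ≤ y * K / L ^ 2 := by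
      rw [div_le_div_iff₀ hw0 (by positivity)]
      calc y * L ^ 2 ≤ y * (K * w) := by gcongr
        _ = y * K * w := by ring
    have e9 : y * B / (192 * (Nat.totient B : ℝ) ^ 2 * L ^ 2) = 2 * (y * K / L ^ 2) := by
      rw [hK]; field_simp; ring
    linarith
  obtain ⟨p, a, d, q1, q2, q3, q4, q5, q6, q7, q8, q9, q10, q11⟩ :=
    choice_fin hC hL0 h1 h2 hThr Q B R hB hQ2 hQ (13 / 10 * n) y c2 hc2 hR1 (by linarith) hRy hT1
      hbig hbig2 (hx1 n g1 g7 (13 / 10 * n) (by linarith) (by linarith))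
      (hx2 n g2 g7 (13 / 10 * n + 2 * y) (by linarith) (by linarith)) hE
  have hεn : 0 < ε * n := by positivity
  have hc2n : c2 * (ε * n) ≤ 1 * (ε * n) := by gcongr
  refine ⟨p, a, d, q1, q2, q3, q4, q5, ?_, ?_, ?_, ?_, ?_, ?_⟩
  · linarith
  · linarith
  · have : c2 / 8 * ε * n = (c2 * (ε * n)) / 8 := by ring
    rw [this]
    rw [hy] at q8
    linarith
  · rw [hy] at q9
    linarith
  · have : c2 / 8 * ε * n = c2 / 2 * y := by rw [hy]; ring
    rw [this]; exact q10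
  · rw [hy] at q11
    linarith

/-- monotonicity in the constants -/
lemma SieveOne.mono {C C' Y0 Y0' : ℝ} (h : SieveOne C Y0) (hC : C ≤ C') (hY : Y0 ≤ Y0') :
    SieveOne C' Y0' := by
  intro u v Y hu hv hY' hYv
  refine (h u v Y hu hv (hY.trans hY') hYv).trans ?_
  have : 0 ≤ Real.log Y := Real.log_natCast_nonneg Y
  gcongr

lemma SievePairsC.mono {C C' Y0 Y0' : ℝ} (h : SievePairsC C Y0) (hC : C ≤ C') (hY : Y0 ≤ Y0') :
    SievePairsC C' Y0' := by
  intro u v k Y hu heu hv hvk hk hY' hYv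
  refine (h u v k Y hu heu hv hvk hk (hY.trans hY') hYv).trans ?_
  have : 0 ≤ Real.log Y := Real.log_natCast_nonneg Y
  have h3 : (0 : ℝ) ≤ ∑ d ∈ k.divisors.filter (fun d => Nat.Coprime d u), (1 : ℝ) / d :=
    sum_nonneg fun d _ => by positivity
  gcongr

end Pool.Agent.Work.MP_713a1e_co
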