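import Pool.Agent.Work.MP_713a1e_co.ChoiceD

/-! JOB E2, part 1: the choice of the sum `N`; thirds of a finite set. -/

set_option autoImplicit false

namespace Pool.Agent.Work.MP_713a1e_co

open Finset

/-- the reciprocals of the primes `l`, `Q < l ≤ R`, dividing `m` -/
noncomputable def sR (Q R m : ℕ) : ℝ := ∑ l ∈ Ls Q R m, (1 : ℝ) / l

lemma sR_nonneg (Q R m : ℕ) : 0 ≤ sR Q R m := sum_nonneg fun l _ => by positivity

/-- the double sum of `sR` over values `f q q'` -/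
lemma sum_sR_le (A1 A2 : Finset ℕ) (Q R : ℕ) (K : ℝ) (hQ : 0 < Q) (hK : 0 < K)
    (hcls : ∀ q0 ∈ A2, ∀ l, l.Prime → Q < l → l ≤ R →
      ((A2.filter (fun q => q ≡ q0 [MOD l])).card : ℝ) ≤ K / l * A2.card)
    (f : ℕ → ℕ → ℕ) (hf : ∀ p ∈ A1, ∀ q ∈ A2, ∀ q' ∈ A2, ∀ l, l ∣ f p q → l ∣ f p q' →
      q ≡ q' [MOD l]) :
    ∑ p ∈ A1, ∑ q ∈ A2, sR Q R (f p q) ≤ K / Q * ((A1.card : ℝ) * A2.card) := by
  classical
  have e5 : ∀ p ∈ A1, ∑ q ∈ A2, sR Q R (f p q) ≤ K / Q * A2.card := by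
    intro p hp
    have e6 : ∑ q ∈ A2, sR Q R (f p q) =
        ∑ l ∈ (Ioc Q R).filter (fun l => l.Prime), (1 : ℝ) / l *
          ((A2.filter (fun q => l ∣ f p q)).card : ℝ) := by
      have e7 : ∀ q ∈ A2, sR Q R (f p q) = ∑ l ∈ (Ioc Q R).filter (fun l => l.Prime),
          if l ∣ f p q then (1 : ℝ) / l else 0 := by
        intro q _
        rw [sR, ← sum_filter, filter_filter]
        rfl
      rw [sum_congr rfl e7, sum_comm]
      apply sum_congr rfl
      intro l _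
      rw [← sum_filter, sum_const, nsmul_eq_mul, mul_comm]
    rw [e6]
    have e8 : ∑ l ∈ (Ioc Q R).filter (fun l => l.Prime), (1 : ℝ) / l *
          ((A2.filter (fun q => l ∣ f p q)).card : ℝ) ≤
        ∑ l ∈ Ioc Q R, K * A2.card * ((l : ℝ) ^ 2)⁻¹ := by
      refine (sum_le_sum ?_).trans (sum_le_sum_of_subset_of_nonneg (filter_subset _ _) ?_)
      · intro l hl
        rw [mem_filter, mem_Ioc] at hl
        have hl0 : (0 : ℝ) < l := by
          have := hl.2.pos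
          exact_mod_cast this
        have hc : ((A2.filter (fun q => l ∣ f p q)).card : ℝ) ≤ K / l * A2.card := by
          rcases (A2.filter (fun q => l ∣ f p q)).eq_empty_or_nonempty with he | ⟨q0, hq0⟩
          · rw [he]; simp only [card_empty, Nat.cast_zero]; positivity
          · rw [mem_filter] at hq0
            refine le_trans ?_ (hcls q0 hq0.1 l hl.2 hl.1.1 hl.1.2)
            have : A2.filter (fun q => l ∣ f p q) ⊆ A2.filter (fun q => q ≡ q0 [MOD l]) := by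
              intro q hq
              rw [mem_filter] at hq ⊢
              exact ⟨hq.1, hf p hp q hq.1 q0 hq0.1 l hq.2 hq0.2⟩
            exact_mod_cast card_le_card this
        calc (1 : ℝ) / l * ((A2.filter (fun q => l ∣ f p q)).card : ℝ)
            ≤ 1 / l * (K / l * A2.card) := by gcongr
          _ = K * A2.card * ((l : ℝ) ^ 2)⁻¹ := by field_simp
      · intro l _ _
        positivity
    refine e8.trans ?_
    rw [← mul_sum]
    calc K * (A2.card : ℝ) * ∑ l ∈ Ioc Q R, ((l : ℝ) ^ 2)⁻¹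
        ≤ K * A2.card * (Q : ℝ)⁻¹ := by
          gcongr
          exact sum_inv_sq Q R hQ
      _ = K / Q * A2.card := by rw [div_eq_mul_inv]; ring
  calc ∑ p ∈ A1, ∑ q ∈ A2, sR Q R (f p q) ≤ ∑ p ∈ A1, K / Q * (A2.card : ℝ) := sum_le_sum e5
    _ = K / Q * ((A1.card : ℝ) * A2.card) := by
      rw [sum_const, nsmul_eq_mul]; ring

/-- the choice of the sum `N` -/
lemma exists_N (A1 A2 : Finset ℕ) (δ Hn : ℝ) (hδ0 : 0 < δ) (hne1 : A1.Nonempty)
    (hne2 : A2.Nonempty) (h0 : 0 ∉ A2) (w : ℕ → ℕ → ℝ) (hw0 : ∀ p q, 0 ≤ w p q)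
    (hw : ∑ p ∈ A1, ∑ q ∈ A2, w p q ≤ 2 * δ * ((A1.card : ℝ) * A2.card))
    (H : Finset ℕ) (hH : ∀ p ∈ A1, ∀ q ∈ A2, p + q ∈ H) (hHn : (H.card : ℝ) ≤ Hn) :
    ∃ N ∈ H, (A1.card : ℝ) * A2.card / (2 * Hn) ≤ ((A1.filter (fun p => N - p ∈ A2)).card : ℝ) ∧
      ∑ p ∈ A1.filter (fun p => N - p ∈ A2), w p (N - p) ≤
        4 * δ * ((A1.filter (fun p => N - p ∈ A2)).card : ℝ) := by
  classical
  have hPpos : (0 : ℝ) < (A1.card : ℝ) * A2.card := by
    have h1 := hne1.card_pos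
    have h2 := hne2.card_pos
    positivity
  have hdc : ∀ g : ℕ → ℕ → ℝ, ∑ N ∈ H, ∑ p ∈ A1.filter (fun p => N - p ∈ A2), g p (N - p) =
      ∑ p ∈ A1, ∑ q ∈ A2, g p q := by
    intro g
    have e1 : ∑ p ∈ A1, ∑ q ∈ A2, g p q = ∑ x ∈ A1 ×ˢ A2, g x.1 x.2 := by
      rw [sum_product]
    have e2 : ∑ x ∈ A1 ×ˢ A2, g x.1 x.2 =
        ∑ N ∈ H, ∑ x ∈ (A1 ×ˢ A2).filter (fun x => x.1 + x.2 = N), g x.1 x.2 := by
      rw [sum_fiberwise_of_maps_to]
      intro x hx
      rw [mem_product] at hx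
      exact hH _ hx.1 _ hx.2
    rw [e1, e2]
    apply sum_congr rfl
    intro N _
    apply sum_bij (fun p _ => (p, N - p))
    · intro p hp
      rw [mem_filter] at hp
      rw [mem_filter, mem_product]
      refine ⟨hp, ?_⟩
      have : N - p ≠ 0 := fun h => h0 (h ▸ hp.2)
      dsimp only
      omega
    · intro a _ b _ hab
      exact (Prod.ext_iff.1 hab).1
    · rintro ⟨p, q⟩ hx
      rw [mem_filter, mem_product] at hx
      have e4 : N - p = q := by
        have := hx.2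
        dsimp only at this
        omega
      refine ⟨p, ?_, by rw [e4]⟩
      rw [mem_filter, e4]
      exact hx.1
    · intro p _
      rfl
  have hHpos : H.Nonempty := by
    obtain ⟨p, hp⟩ := hne1
    obtain ⟨q, hq⟩ := hne2
    exact ⟨_, hH p hp q hq⟩
  have hHc : (0 : ℝ) < H.card := by exact_mod_cast hHpos.card_pos
  have hHn0 : 0 < Hn := hHc.trans_le hHn
  have hsum : (A1.card : ℝ) * A2.card / 2 ≤
      ∑ N ∈ H, ∑ p ∈ A1.filter (fun p => N - p ∈ A2), (1 - w p (N - p) / (4 * δ)) := by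
    rw [hdc (fun p q => 1 - w p q / (4 * δ))]
    have e9 : ∑ p ∈ A1, ∑ q ∈ A2, (1 - w p q / (4 * δ)) =
        (A1.card : ℝ) * A2.card - (∑ p ∈ A1, ∑ q ∈ A2, w p q) / (4 * δ) := by
      rw [sum_div]
      have : ∀ p ∈ A1, ∑ q ∈ A2, (1 - w p q / (4 * δ)) =
          (A2.card : ℝ) - (∑ q ∈ A2, w p q) / (4 * δ) := by
        intro p _
        rw [sum_sub_distrib, sum_div]
        simp
      rw [sum_congr rfl this, sum_sub_distrib]
      simp
    rw [e9]
    have e10 : (∑ p ∈ A1, ∑ q ∈ A2, w p q) / (4 * δ) ≤ (A1.card : ℝ) * A2.card / 2 := by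
      rw [div_le_iff₀ (by positivity)]
      calc _ ≤ 2 * δ * ((A1.card : ℝ) * A2.card) := hw
        _ = _ := by ring
    linarith
  have hex : ∃ N ∈ H, (A1.card : ℝ) * A2.card / (2 * Hn) ≤
      ∑ p ∈ A1.filter (fun p => N - p ∈ A2), (1 - w p (N - p) / (4 * δ)) := by
    by_contra hcon
    push Not at hcon
    have e11 := sum_lt_sum_of_nonempty hHpos hcon
    rw [sum_const, nsmul_eq_mul] at e11
    have e12 : (H.card : ℝ) * ((A1.card : ℝ) * A2.card / (2 * Hn)) ≤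
        Hn * ((A1.card : ℝ) * A2.card / (2 * Hn)) := by
      gcongr
    have e13 : Hn * ((A1.card : ℝ) * A2.card / (2 * Hn)) = (A1.card : ℝ) * A2.card / 2 := by
      field_simp
    linarith
  obtain ⟨N, hN, hge⟩ := hex
  have e14 : ∑ p ∈ A1.filter (fun p => N - p ∈ A2), (1 - w p (N - p) / (4 * δ)) =
      ((A1.filter (fun p => N - p ∈ A2)).card : ℝ) -
        (∑ p ∈ A1.filter (fun p => N - p ∈ A2), w p (N - p)) / (4 * δ) := by
    rw [sum_sub_distrib, sum_div]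
    simp
  rw [e14] at hge
  have hS0 : 0 ≤ ∑ p ∈ A1.filter (fun p => N - p ∈ A2), w p (N - p) :=
    sum_nonneg fun p _ => hw0 _ _
  have hpos : 0 < (A1.card : ℝ) * A2.card / (2 * Hn) := by positivity
  refine ⟨N, hN, ?_, ?_⟩
  · have : 0 ≤ (∑ p ∈ A1.filter (fun p => N - p ∈ A2), w p (N - p)) / (4 * δ) := by positivity
    linarith
  · have h1 : (∑ p ∈ A1.filter (fun p => N - p ∈ A2), w p (N - p)) / (4 * δ) ≤
        ((A1.filter (fun p => N - p ∈ A2)).card : ℝ) := by linarith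
    rw [div_le_iff₀ (by positivity)] at h1
    linarith

/-- the multiples of `B` in a short interval -/
lemma card_mult (B : ℕ) (hB : 0 < B) (z y : ℝ) (hz : 0 ≤ z) (hy : 0 < y) :
    ∃ H : Finset ℕ, (H.card : ℝ) ≤ 2 * y / B + 1 ∧
      (∀ N : ℕ, z < N → (N : ℝ) ≤ z + 2 * y → B ∣ N → N ∈ H) := by
  classical
  have hB' : (0 : ℝ) < B := by exact_mod_cast hB
  refine ⟨(Ioc ⌊z / B⌋₊ ⌊(z + 2 * y) / B⌋₊).image (fun k => B * k), ?_, ?_⟩
  · have h1 : ((Ioc ⌊z / B⌋₊ ⌊(z + 2 * y) / B⌋₊).image (fun k => B * k)).card ≤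
        ⌊(z + 2 * y) / B⌋₊ - ⌊z / B⌋₊ := by
      refine card_image_le.trans ?_
      rw [Nat.card_Ioc]
    have h2 : ⌊z / B⌋₊ ≤ ⌊(z + 2 * y) / B⌋₊ := by
      apply Nat.floor_le_floor
      gcongr
      linarith
    have h3 : (⌊(z + 2 * y) / B⌋₊ : ℝ) ≤ (z + 2 * y) / B := Nat.floor_le (by positivity)
    have h4 : z / B < ⌊z / B⌋₊ + 1 := Nat.lt_floor_add_one _
    have h5 : (((Ioc ⌊z / B⌋₊ ⌊(z + 2 * y) / B⌋₊).image (fun k => B * k)).card : ℝ) ≤
        (⌊(z + 2 * y) / B⌋₊ : ℝ) - ⌊z / B⌋₊ := by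
      rw [← Nat.cast_sub h2]
      exact_mod_cast h1
    have h6 : (z + 2 * y) / (B : ℝ) - z / B = 2 * y / B := by
      rw [← sub_div]; congr 1; ring
    linarith
  · intro N h1 h2 hd
    obtain ⟨k, hk⟩ := hd
    rw [mem_image]
    refine ⟨k, ?_, hk.symm⟩
    have hk' : (N : ℝ) = B * k := by exact_mod_cast hk
    rw [mem_Ioc]
    constructor
    · rw [Nat.floor_lt (by positivity), div_lt_iff₀ hB']
      rw [mul_comm, ← hk']; exact h1
    · apply Nat.le_floor
      rw [le_div_iff₀ hB', mul_comm, ← hk']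
      exact h2

/-- the primes above `R` dividing `h < (R + 1) ^ (k + 1)` : at most `k` -/
lemma big_primes' (h R k : ℕ) (hh : 0 < h) (hR : h < (R + 1) ^ (k + 1)) :
    (h.primeFactors.filter (fun l => R < l)).card ≤ k := by
  by_contra hc
  push Not at hc
  have h1 : (R + 1) ^ (h.primeFactors.filter (fun l => R < l)).card ≤
      ∏ l ∈ h.primeFactors.filter (fun l => R < l), l := by
    rw [← prod_const]
    apply prod_le_prod'
    intro l hl
    exact (mem_filter.1 hl).2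
  have h2 : ∏ l ∈ h.primeFactors.filter (fun l => R < l), l ≤ h := by
    apply Nat.le_of_dvd hh
    refine dvd_trans ?_ (Nat.prod_primeFactors_dvd h)
    exact prod_dvd_prod_of_subset _ _ _ (filter_subset _ _)
  have h3 : (R + 1) ^ (k + 1) ≤ (R + 1) ^ (h.primeFactors.filter (fun l => R < l)).card :=
    Nat.pow_le_pow_right (by omega) hc
  omega

/-- the sum over the divisors is bounded -/
lemma sigma_le_eight' (Q R h u k : ℕ) (hh : 0 < h) (hQ : 2 ≤ Q) (hR : h < (R + 1) ^ (k + 1))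
    (hR1 : 2 * k ≤ R + 1) (hu : 4 * Q.factorial ∣ u) (hs : sR Q R h ≤ 1 / 2) :
    (∑ d ∈ h.divisors.filter (fun d => Nat.Coprime d u), (1 : ℝ) / d) ≤ 8 := by
  refine (sigma_bound h u hh).trans ?_
  have h1 : h.primeFactors.filter (fun l => ¬ l ∣ u) ⊆
      Ls Q R h ∪ h.primeFactors.filter (fun l => R < l) := by
    intro l hl
    rw [mem_filter] at hl
    have hlp := (Nat.mem_primeFactors.1 hl.1)
    have hlQ : Q < l := by
      by_contra hc
      exact hl.2 (((prime_dvd_B hQ hlp.1).2 (not_lt.1 hc)).trans hu)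
    rw [mem_union]
    by_cases hlR : l ≤ R
    · left
      rw [Ls, mem_filter, mem_Ioc]
      exact ⟨⟨hlQ, hlR⟩, hlp.1, hlp.2.1⟩
    · right
      rw [mem_filter]
      exact ⟨hl.1, not_le.1 hlR⟩
  have h2 : ∑ l ∈ h.primeFactors.filter (fun l => ¬ l ∣ u), (1 : ℝ) / l ≤
      ∑ l ∈ Ls Q R h, (1 : ℝ) / l + ∑ l ∈ h.primeFactors.filter (fun l => R < l), (1 : ℝ) / l := by
    refine (sum_le_sum_of_subset_of_nonneg h1 (fun l _ _ => by positivity)).trans ?_
    have := sum_union_inter (s₁ := Ls Q R h) (s₂ := h.primeFactors.filter (fun l => R < l))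
      (f := fun l : ℕ => (1 : ℝ) / l)
    have h3 : (0 : ℝ) ≤ ∑ l ∈ Ls Q R h ∩ h.primeFactors.filter (fun l => R < l), (1 : ℝ) / l :=
      sum_nonneg fun l _ => by positivity
    linarith
  have h4 : ∑ l ∈ h.primeFactors.filter (fun l => R < l), (1 : ℝ) / l ≤ 1 / 2 := by
    have hRpos : (0 : ℝ) < (R : ℝ) + 1 := by positivity
    have h5 : ∀ l ∈ h.primeFactors.filter (fun l => R < l), (1 : ℝ) / l ≤ 1 / ((R : ℝ) + 1) := by
      intro l hl
      rw [mem_filter] at hl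
      have : (R : ℝ) + 1 ≤ l := by
        have : R + 1 ≤ l := hl.2
        exact_mod_cast this
      gcongr
    have h6 := sum_le_card_nsmul _ _ _ h5
    have h7 : ((h.primeFactors.filter (fun l => R < l)).card : ℝ) ≤ k := by
      exact_mod_cast big_primes' h R k hh hR
    rw [nsmul_eq_mul] at h6
    refine h6.trans ?_
    rw [mul_one_div, div_le_div_iff₀ hRpos (by norm_num)]
    have h8 : (2 * k : ℝ) ≤ R + 1 := by exact_mod_cast hR1
    linarith
  have hs' : ∑ l ∈ Ls Q R h, (1 : ℝ) / l ≤ 1 / 2 := hs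
  have h8 : Real.exp (2 * ∑ l ∈ h.primeFactors.filter (fun l => ¬ l ∣ u), (1 : ℝ) / l) ≤
      Real.exp (1 + 1) := by
    apply Real.exp_le_exp.2
    linarith
  refine h8.trans ?_
  rw [Real.exp_add]
  have := Real.exp_one_lt_d9
  have h0 := Real.exp_pos 1
  nlinarith

/-- the thirds of a finite set -/
lemma thirds (T : Finset ℕ) :
    ∃ Lo Mi Hi : Finset ℕ, Lo ⊆ T ∧ Mi ⊆ T ∧ Hi ⊆ T ∧ (∀ a ∈ Lo, ∀ b ∈ Mi, a < b) ∧
      (∀ a ∈ Mi, ∀ b ∈ Hi, a < b) ∧ T.card ≤ 3 * Lo.card ∧ T.card ≤ 3 * Hi.card ∧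
      T.card ≤ 3 * Mi.card + 4 := by
  classical
  obtain ⟨t, ht⟩ : ∃ t, T.card = t := ⟨_, rfl⟩
  obtain ⟨k, hk⟩ : ∃ k, k = (t + 2) / 3 := ⟨_, rfl⟩
  obtain ⟨E, hE⟩ : ∃ E : Fin t ↪o ℕ, E = T.orderEmbOfFin ht := ⟨_, rfl⟩
  have hET : ∀ i, E i ∈ T := by
    intro i; rw [hE]; exact T.orderEmbOfFin_mem ht i
  have hsub : ∀ S : Finset (Fin t), S.map E.toEmbedding ⊆ T := by
    intro S a ha
    rw [mem_map] at ha
    obtain ⟨i, _, rfl⟩ := ha
    exact hET i
  have hlt : ∀ (S S' : Finset (Fin t)), (∀ i ∈ S, ∀ j ∈ S', i < j) →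
      ∀ a ∈ S.map E.toEmbedding, ∀ b ∈ S'.map E.toEmbedding, a < b := by
    intro S S' hSS a ha b hb
    rw [mem_map] at ha hb
    obtain ⟨i, hi, rfl⟩ := ha
    obtain ⟨j, hj, rfl⟩ := hb
    exact E.lt_iff_lt.2 (hSS i hi j hj)
  have hcount : ∀ (S : Finset (Fin t)) (a b : ℕ), (∀ i : ℕ, a ≤ i → (hi : i < b) → ∃ h : i < t,
      (⟨i, h⟩ : Fin t) ∈ S) → b - a ≤ S.card := by
    intro S a b hS
    have : (Ico a b).card ≤ S.card := by
      apply card_le_card_of_surjOn (fun i : Fin t => (i : ℕ))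
      intro i hi
      simp only [coe_Ico, Set.mem_Ico] at hi
      obtain ⟨h, hm⟩ := hS i hi.1 hi.2
      exact ⟨⟨i, h⟩, by exact_mod_cast hm, rfl⟩
    rwa [Nat.card_Ico] at this
  refine ⟨((univ : Finset (Fin t)).filter (fun i : Fin t => (i : ℕ) < k)).map E.toEmbedding,
    ((univ : Finset (Fin t)).filter
      (fun i : Fin t => k ≤ (i : ℕ) ∧ (i : ℕ) < t - k)).map E.toEmbedding,
    ((univ : Finset (Fin t)).filter (fun i : Fin t => t - k ≤ (i : ℕ))).map E.toEmbedding,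
    hsub _, hsub _, hsub _, ?_, ?_, ?_, ?_, ?_⟩
  · apply hlt
    intro i hi j hj
    rw [mem_filter] at hi hj
    exact Fin.lt_def.2 (by omega)
  · apply hlt
    intro i hi j hj
    rw [mem_filter] at hi hj
    exact Fin.lt_def.2 (by omega)
  · rw [card_map]
    have := hcount ((univ : Finset (Fin t)).filter (fun i : Fin t => (i : ℕ) < k)) 0 (min k t) (by
      intro i _ hi
      exact ⟨by omega, mem_filter.2 ⟨mem_univ _, by dsimp only; omega⟩⟩)
    omega
  · rw [card_map]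
    have := hcount ((univ : Finset (Fin t)).filter (fun i : Fin t => t - k ≤ (i : ℕ)))
      (t - k) t (by
      intro i hi1 hi
      exact ⟨by omega, mem_filter.2 ⟨mem_univ _, by dsimp only; omega⟩⟩)
    omega
  · rw [card_map]
    have := hcount ((univ : Finset (Fin t)).filter
      (fun i : Fin t => k ≤ (i : ℕ) ∧ (i : ℕ) < t - k)) k (t - k) (by
      intro i hi1 hi
      exact ⟨by omega, mem_filter.2 ⟨mem_univ _, by dsimp only; omega⟩⟩)
    omega

end Pool.Agent.Work.MP_713a1e_co
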