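import Pool.Agent.Work.MP_713a1e_co.ChoiceJ
import Pool.Agent.Work.MP_713a1e_co.AP
import Pool.Agent.Work.MP_713a1e_co.Sieve
import Pool.Agent.Work.MP_713a1e_co.SieveRefl

/-! JOB E2, unconditional. -/

set_option autoImplicit false

namespace Pool.Agent.Work.MP_713a1e_co

theorem primesAP : APProp :=
  fun q a hq ha κ δ hκ hδ => primes_in_ap q a hq ha κ δ hκ hδ

theorem sievePairs : SPProp := sieve_pairs

theorem choiceT2 : ChoiceT2 := choiceT2_of primesAP sieve_one sieve_refl

theorem choiceT : ChoiceT := choiceT2.toT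

end Pool.Agent.Work.MP_713a1e_co
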