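import Pool.Agent.Work.MP_713a1e_co.ChoiceF

/-! JOB E2, part 2: reflected windows. -/

set_option autoImplicit false

namespace Pool.Agent.Work.MP_713a1e_co

open Finset

/-- the statement `sieve_refl` with explicit constants -/
def SieveRefl (C Y0 : ℝ) : Prop := ∀ (u v N Y : ℕ), 0 < u → Even u → Nat.Coprime v u →
    Nat.Coprime (N - v) u → Y0 ≤ (Y : ℝ) → Y ≤ v → u * Y + v + Y ≤ N →
    (((Finset.range Y).filter (fun x => (u * x + v).Prime ∧ (N - (u * x + v)).Prime)).card : ℝ) ≤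
      C * ((u : ℝ) / Nat.totient u) ^ 2 *
        (∑ d ∈ N.divisors.filter (fun d => Nat.Coprime d u), (1 : ℝ) / d) * Y / (Real.log Y) ^ 2

/-- the least element `v > M` of the class of `v0` modulo `u` -/
lemma exists_first' (u v0 M : ℕ) (hu : 0 < u) :
    ∃ v, M < v ∧ v ≤ M + u ∧ v ≡ v0 [MOD u] ∧
      ∀ p, M < p → p ≡ v0 [MOD u] → ∃ q, p = u * q + v := by
  obtain ⟨r, hr⟩ : ∃ r, r = (v0 + (u - 1) * (M + 1)) % u := ⟨_, rfl⟩
  have hmod : M + 1 + r ≡ v0 [MOD u] := by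
    have h1 : M + 1 + r ≡ M + 1 + (v0 + (u - 1) * (M + 1)) [MOD u] := by
      rw [hr]; exact Nat.ModEq.add_left _ (Nat.mod_modEq _ _)
    refine h1.trans ?_
    have h2 : M + 1 + (v0 + (u - 1) * (M + 1)) = v0 + u * (M + 1) := by
      obtain ⟨w, rfl⟩ : ∃ w, u = w + 1 := ⟨u - 1, by omega⟩
      simp only [Nat.add_sub_cancel]; ring
    rw [h2]
    exact (Nat.ModEq.refl _).trans (by simp [Nat.ModEq])
  have hru : r < u := by rw [hr]; exact Nat.mod_lt _ hu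
  refine ⟨M + 1 + r, by omega, by omega, hmod, fun p hp hpv => ?_⟩
  have h3 : p ≡ M + 1 + r [MOD u] := hpv.trans hmod.symm
  obtain ⟨k, rfl⟩ : ∃ k, p = M + 1 + k := ⟨p - (M + 1), by omega⟩
  have h4 : k ≡ r [MOD u] := Nat.ModEq.add_left_cancel' _ h3
  have h5 : k % u = r := by rw [h4, Nat.mod_eq_of_lt hru]
  refine ⟨k / u, ?_⟩
  have := Nat.div_add_mod k u
  rw [h5] at this
  omega

lemma cls_refl {C Y0 : ℝ} (h2 : SieveRefl C Y0) (u v0 N M D Y : ℕ) (hu : 0 < u) (heu : Even u)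
    (hco : Nat.Coprime v0 u) (hv0N : v0 ≤ N) (hco2 : Nat.Coprime (N - v0) u)
    (hY0 : Y0 ≤ (Y : ℝ)) (hYM : Y ≤ M) (hD : D ≤ u * Y) (hN : u * Y + (M + u) + Y ≤ N) :
    (((Ioc M (M + D)).filter (fun p => p.Prime ∧ (N - p).Prime ∧ p ≡ v0 [MOD u])).card : ℝ) ≤
      C * ((u : ℝ) / Nat.totient u) ^ 2 *
        (∑ d ∈ N.divisors.filter (fun d => Nat.Coprime d u), (1 : ℝ) / d) * Y /
          (Real.log Y) ^ 2 := by
  obtain ⟨v, hMv, hvM, hv, hall⟩ := exists_first' u v0 M hu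
  have hcv : Nat.Coprime v u := by
    have := hv.gcd_eq
    rw [Nat.coprime_iff_gcd_eq_one, this]; exact hco
  have hcv2 : Nat.Coprime (N - v) u := by
    have e1 : N - v ≡ N - v0 [MOD u] := by
      have e2 : (N - v) + v ≡ (N - v0) + v0 [MOD u] := by
        rw [Nat.sub_add_cancel (by omega), Nat.sub_add_cancel hv0N]
      exact Nat.ModEq.add_right_cancel hv e2
    have := e1.gcd_eq
    rw [Nat.coprime_iff_gcd_eq_one, this]; exact hco2
  refine le_trans ?_ (h2 u v N Y hu heu hcv hcv2 hY0 (by omega) (by omega))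
  have : (Ioc M (M + D)).filter (fun p => p.Prime ∧ (N - p).Prime ∧ p ≡ v0 [MOD u]) ⊆
      ((range Y).filter (fun x => (u * x + v).Prime ∧ (N - (u * x + v)).Prime)).image
        (fun x => u * x + v) := by
    intro p hp
    simp only [mem_filter, mem_Ioc] at hp
    obtain ⟨⟨hp1, hp2⟩, hpp, hpp2, hpm⟩ := hp
    obtain ⟨q, rfl⟩ := hall p hp1 hpm
    simp only [mem_image, mem_filter, mem_range]
    refine ⟨q, ⟨?_, hpp, hpp2⟩, rfl⟩
    by_contra hq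
    push Not at hq
    have : u * Y ≤ u * q := Nat.mul_le_mul_left _ hq
    omega
  exact_mod_cast (card_le_card this).trans card_image_le

lemma win_refl {C Y0 T L : ℝ} (hC : 0 ≤ C) (hL : 0 < L) (h2 : SieveRefl C Y0) (hT : Thr T L Y0)
    (u v0 N : ℕ) (x y σ : ℝ) (hu : 0 < u) (heu : Even u) (hco : Nat.Coprime v0 u) (hv0N : v0 ≤ N)
    (hco2 : Nat.Coprime (N - v0) u) (huy : (u : ℝ) ≤ y)
    (hx : 3 * y ≤ x) (hTy : T ≤ 2 * y / u) (hN : x + 7 * y ≤ N)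
    (hσ : (∑ d ∈ N.divisors.filter (fun d => Nat.Coprime d u), (1 : ℝ) / d) ≤ σ) :
    (((Wi x y).filter (fun p => p.Prime ∧ (N - p).Prime ∧ p ≡ v0 [MOD u])).card : ℝ) ≤
      C * ((u : ℝ) / Nat.totient u) ^ 2 * σ * (3 * y / u) * (3 / L) ^ 2 := by
  have hu' : (0 : ℝ) < u := by exact_mod_cast hu
  have hu1 : (1 : ℝ) ≤ u := by exact_mod_cast hu
  have hy : 0 < y := by linarith
  obtain ⟨e1, e2, e3, e4⟩ := win_aux hu huy hx
  obtain ⟨t1, t2⟩ := hT _ (hTy.trans e1)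
  have hNN : u * ⌈2 * y / u⌉₊ + (⌊x⌋₊ + u) + ⌈2 * y / u⌉₊ ≤ N := by
    have f1 : (⌊x⌋₊ : ℝ) ≤ x := Nat.floor_le (by linarith)
    have f2 : (u : ℝ) * (⌈2 * y / u⌉₊ : ℝ) ≤ 3 * y := by
      rw [le_div_iff₀ hu'] at e2; linarith
    have f3 : (⌈2 * y / u⌉₊ : ℝ) ≤ 3 * y := by
      refine e2.trans ?_
      rw [div_le_iff₀ hu']
      exact le_mul_of_one_le_right (by linarith) hu1
    have f4 : ((u * ⌈2 * y / u⌉₊ + (⌊x⌋₊ + u) + ⌈2 * y / u⌉₊ : ℕ) : ℝ) ≤ N := by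
      push_cast; linarith
    exact_mod_cast f4
  have hl := cls_refl h2 u v0 N ⌊x⌋₊ (⌊y⌋₊ + 1) ⌈2 * y / u⌉₊ hu heu hco hv0N hco2 t1 e3 e4 hNN
  have hsub : ((Wi x y).filter (fun p => p.Prime ∧ (N - p).Prime ∧ p ≡ v0 [MOD u])) ⊆
      ((Ioc ⌊x⌋₊ (⌊x⌋₊ + (⌊y⌋₊ + 1))).filter (fun p => p.Prime ∧ (N - p).Prime ∧ p ≡ v0 [MOD u])) :=
    filter_subset_filter _ (Wi_sub (by linarith) hy.le)
  have hc : (((Wi x y).filter (fun p => p.Prime ∧ (N - p).Prime ∧ p ≡ v0 [MOD u])).card : ℝ) ≤ _ :=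
    (Nat.cast_le.2 (card_le_card hsub)).trans hl
  refine hc.trans ?_
  rw [div_eq_mul_inv _ ((Real.log _) ^ 2), ← inv_pow]
  have e5 : (Real.log (⌈2 * y / u⌉₊ : ℝ))⁻¹ ≤ 3 / L := by
    have : (L / 3)⁻¹ = 3 / L := by rw [inv_div]
    rw [← this]
    exact inv_anti₀ (by positivity) t2
  have e6 : (0 : ℝ) ≤ (Real.log (⌈2 * y / u⌉₊ : ℝ))⁻¹ := inv_nonneg.2 (le_trans (by positivity) t2)
  have e7 : (0 : ℝ) ≤ ∑ d ∈ N.divisors.filter (fun d => Nat.Coprime d u), (1 : ℝ) / d :=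
    sum_nonneg fun d _ => by positivity
  have e8 : (0 : ℝ) ≤ σ := e7.trans hσ
  gcongr

/-- the sets of primes of the choice: common facts -/
structure Ctx (C Y0 T L : ℝ) (Q B R : ℕ) (x y c2 : ℝ) : Prop where
  hC : 1 ≤ C
  hL : 0 < L
  hT : Thr T L Y0
  hB : B = 4 * Q.factorial
  hQ2 : 2 ≤ Q
  hQ : 200000000 * C ^ 2 ≤ Q
  hc2 : c2 = 1 / (260000 * C)
  hR1 : 4 ≤ R
  hx : 20 * y ≤ x
  hxR : 3 * x < ((R : ℝ) + 1) ^ 3
  hyR : 3 * y < ((R : ℝ) + 1) ^ 2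
  hT1 : 1 ≤ T
  hbig : B * R * T ≤ y
  hbig2 : B * T ≤ 2 * c2 * y

namespace Ctx

variable {C Y0 T L : ℝ} {Q B R : ℕ} {x y c2 : ℝ}

lemma Bpos (h : Ctx C Y0 T L Q B R x y c2) : 0 < B := by
  rw [h.hB]; have := Q.factorial_pos; omega

lemma Bone (h : Ctx C Y0 T L Q B R x y c2) : (1 : ℝ) ≤ B := by exact_mod_cast h.Bpos

lemma c2pos (h : Ctx C Y0 T L Q B R x y c2) : 0 < c2 := by
  have := h.hC
  rw [h.hc2]; positivity

lemma c2le (h : Ctx C Y0 T L Q B R x y c2) : c2 ≤ 1 / 260000 := by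
  rw [h.hc2]
  apply one_div_le_one_div_of_le (by norm_num)
  linarith [h.hC]

lemma ypos (h : Ctx C Y0 T L Q B R x y c2) : 0 < y := by
  have h1 := h.hbig
  have h2 : (0 : ℝ) < B := by linarith [h.Bone]
  have h3 : (0 : ℝ) < R := by
    have := h.hR1
    have : 0 < R := by omega
    exact_mod_cast this
  have h4 := h.hT1
  have h5 : (0 : ℝ) < B * R * T := by positivity
  linarith

lemma BR (h : Ctx C Y0 T L Q B R x y c2) : (B : ℝ) * R ≤ y := by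
  have h2 : (0 : ℝ) < B := by linarith [h.Bone]
  have h3 : (B : ℝ) * R * 1 ≤ B * R * T := by
    have := h.hT1
    gcongr
  linarith [h.hbig]

lemma By (h : Ctx C Y0 T L Q B R x y c2) : (B : ℝ) ≤ 2 * c2 * y := by
  have h2 : (0 : ℝ) < B := by linarith [h.Bone]
  exact (le_mul_of_one_le_right h2.le h.hT1).trans h.hbig2

lemma c2y (h : Ctx C Y0 T L Q B R x y c2) : c2 * y ≤ 1 / 260000 * y :=
  mul_le_mul_of_nonneg_right h.c2le h.ypos.le

lemma c2y0 (h : Ctx C Y0 T L Q B R x y c2) : 0 < c2 * y := mul_pos h.c2pos h.ypos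

lemma coBl (h : Ctx C Y0 T L Q B R x y c2) (l : ℕ) (hl : l.Prime) (hQl : Q < l) :
    Nat.Coprime B l := by
  rw [Nat.coprime_comm, Nat.Prime.coprime_iff_not_dvd hl, h.hB, prime_dvd_B h.hQ2 hl]
  omega

lemma comb (h : Ctx C Y0 T L Q B R x y c2) (l a b : ℕ) (hl : l.Prime) (hQl : Q < l)
    (h1 : a ≡ b [MOD B]) (h2 : a ≡ b [MOD l]) : a ≡ b [MOD (B * l)] :=
  (Nat.modEq_and_modEq_iff_modEq_mul (h.coBl l hl hQl)).1 ⟨h1, h2⟩

lemma Bl (h : Ctx C Y0 T L Q B R x y c2) (l : ℕ) (hl : l ≤ R) : ((B * l : ℕ) : ℝ) ≤ y := by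
  have h2 : (0 : ℝ) < B := by linarith [h.Bone]
  have : (l : ℝ) ≤ R := by exact_mod_cast hl
  push_cast
  calc (B : ℝ) * l ≤ B * R := by gcongr
    _ ≤ y := h.BR

lemma TBl (h : Ctx C Y0 T L Q B R x y c2) (l : ℕ) (hl0 : 0 < l) (hl : l ≤ R) :
    T ≤ 2 * y / ((B * l : ℕ) : ℝ) := by
  have h2 : (0 : ℝ) < B := by linarith [h.Bone]
  have h3 : (0 : ℝ) < l := by exact_mod_cast hl0
  have h4 : (l : ℝ) ≤ R := by exact_mod_cast hl
  have h5 := h.hT1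
  rw [le_div_iff₀ (by push_cast; positivity)]
  push_cast
  have e1 : T * (B * l) ≤ B * R * T := by
    calc T * ((B : ℝ) * l) ≤ T * (B * R) := by gcongr
      _ = B * R * T := by ring
  linarith [h.hbig, h.ypos]

lemma cop (h : Ctx C Y0 T L Q B R x y c2) (p u : ℕ) (hp : p.Prime) (hu : 0 < u)
    (huy : (u : ℝ) ≤ y) (hxp : x < p) : Nat.Coprime p u := by
  rw [Nat.Prime.coprime_iff_not_dvd hp]
  intro hd
  have := Nat.le_of_dvd hu hd
  have h3 : (p : ℝ) ≤ u := by exact_mod_cast this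
  linarith [h.hx, h.ypos]

/-- class counts in the second window -/
lemma cls (h : Ctx C Y0 T L Q B R x y c2) (h1 : SieveOne C Y0)
    (hd2 : y / (2 * Nat.totient B * L) ≤
      (((Wi (x + 2 * y) y).filter (fun p => p.Prime ∧ p ≡ B - 1 [MOD B])).card : ℝ)) :
    ∀ q0 ∈ (Wi (x + 2 * y) y).filter (fun p => p.Prime ∧ p ≡ B - 1 [MOD B]), ∀ l, l.Prime →
      Q < l → l ≤ R →
      ((((Wi (x + 2 * y) y).filter (fun p => p.Prime ∧ p ≡ B - 1 [MOD B])).filter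
        (fun q => q ≡ q0 [MOD l])).card : ℝ) ≤
      (36 * C) / l * ((Wi (x + 2 * y) y).filter (fun p => p.Prime ∧ p ≡ B - 1 [MOD B])).card := by
  intro q0 hq0 l hl hQl hlR
  have hC0 : 0 < C := by linarith [h.hC]
  have hL := h.hL
  have hy := h.ypos
  have hx := h.hx
  have hφ : (0 : ℝ) < Nat.totient B := by exact_mod_cast Nat.totient_pos.2 h.Bpos
  have hl0 : (0 : ℝ) < l := by exact_mod_cast hl.pos
  have hB' : (0 : ℝ) < B := by linarith [h.Bone]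
  rw [mem_filter, mem_Wi (by linarith) hy.le] at hq0
  have hu : 0 < B * l := Nat.mul_pos h.Bpos hl.pos
  have huy := h.Bl l hlR
  have hsub : ((Wi (x + 2 * y) y).filter (fun p => p.Prime ∧ p ≡ B - 1 [MOD B])).filter
      (fun q => q ≡ q0 [MOD l]) ⊆
      (Wi (x + 2 * y) y).filter (fun q => q.Prime ∧ q ≡ q0 [MOD (B * l)]) := by
    intro q hq'
    rw [mem_filter, mem_filter] at hq'
    rw [mem_filter]
    refine ⟨hq'.1.1, hq'.1.2.1, h.comb l q q0 hl hQl ?_ hq'.2⟩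
    exact hq'.1.2.2.trans hq0.2.2.symm
  have hb := win_one hC0.le hL h1 h.hT (B * l) q0 (x + 2 * y) y hu
    (h.cop q0 (B * l) hq0.2.1 hu huy (by linarith [hq0.1.1])) huy (by linarith)
    (h.TBl l hl.pos hlR)
  refine ((Nat.cast_le.2 (card_le_card hsub)).trans hb).trans ?_
  have hr := ratio_mul B l h.Bpos hl (h.coBl l hl hQl)
  calc C * (((B * l : ℕ) : ℝ) / Nat.totient (B * l)) * (3 * y / ((B * l : ℕ) : ℝ)) * (3 / L)
      ≤ C * (2 * B / Nat.totient B) * (3 * y / ((B * l : ℕ) : ℝ)) * (3 / L) := by gcongr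
    _ = (36 * C) / l * (y / (2 * Nat.totient B * L)) := by
        push_cast
        field_simp
        ring
    _ ≤ _ := by gcongr

end Ctx

end Pool.Agent.Work.MP_713a1e_co
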