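import Pool.Agent.Work.MP_713a1e_co.ChoiceG

/-! JOB E2, part 3: the choice for fixed parameters. -/

set_option autoImplicit false

namespace Pool.Agent.Work.MP_713a1e_co

open Finset

/-- the situation after the choice of `N` -/
structure CtxN (C Y0 T L : ℝ) (Q B R : ℕ) (x y c2 : ℝ) (N : ℕ) (S : Finset ℕ) (N0 : ℝ) : Prop
    extends Ctx C Y0 T L Q B R x y c2 where
  h2 : SieveRefl C Y0
  hN0 : N0 = y * B / (24 * (Nat.totient B : ℝ) ^ 2 * L ^ 2)
  hN1 : 2 * x + 2 * y ≤ N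
  hN2 : (N : ℝ) ≤ 2 * x + 4 * y
  hBN : B ∣ N
  hS : ∀ p ∈ S, x < p ∧ (p : ℝ) ≤ x + y ∧ p.Prime ∧ (N - p).Prime ∧ p ≡ 1 [MOD B] ∧ p ≤ N ∧
    x + 2 * y < ((N - p : ℕ) : ℝ) ∧ ((N - p : ℕ) : ℝ) ≤ x + 3 * y
  hsN : sR Q R N ≤ 1 / 2
  hE : (y + 1) / (R + 1) + 1 ≤ N0 / 12

namespace CtxN

variable {C Y0 T L : ℝ} {Q B R : ℕ} {x y c2 : ℝ} {N : ℕ} {S : Finset ℕ} {N0 : ℝ}

lemma N0pos (h : CtxN C Y0 T L Q B R x y c2 N S N0) : 0 < N0 := by
  have hφ : (0 : ℝ) < Nat.totient B := by exact_mod_cast Nat.totient_pos.2 h.Bpos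
  have h1 := h.Bone
  have h2 := h.ypos
  have h3 := h.hL
  rw [h.hN0]
  have : (0 : ℝ) < B := by linarith
  positivity

lemma hΦ (h : CtxN C Y0 T L Q B R x y c2 N S N0) :
    (B : ℝ) / (Nat.totient B : ℝ) ^ 2 * (y / L ^ 2) = 24 * N0 := by
  have hφ : (0 : ℝ) < Nat.totient B := by exact_mod_cast Nat.totient_pos.2 h.Bpos
  have h3 := h.hL
  rw [h.hN0]; field_simp

lemma sigma (h : CtxN C Y0 T L Q B R x y c2 N S N0) (u : ℕ) (hu : B ∣ u) :
    (∑ d ∈ N.divisors.filter (fun d => Nat.Coprime d u), (1 : ℝ) / d) ≤ 8 := by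
  have hN1 := h.hN1
  have hN2 := h.hN2
  have hx := h.hx
  have hy := h.ypos
  have hxR := h.hxR
  have hR1 := h.hR1
  refine sigma_le_eight' Q R N u 2 ?_ h.hQ2 ?_ (by omega) (by rw [← h.hB]; exact hu) h.hsN
  · have : (0 : ℝ) < N := by linarith
    exact_mod_cast this
  · have : (N : ℝ) < (((R + 1) ^ (2 + 1) : ℕ) : ℝ) := by
      push_cast
      norm_num
      linarith
    exact_mod_cast this

lemma Beven (h : CtxN C Y0 T L Q B R x y c2 N S N0) : Even B :=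
  ⟨2 * Q.factorial, by rw [h.hB]; ring⟩

/-- few elements near a given element -/
lemma near (h : CtxN C Y0 T L Q B R x y c2 N S N0) (p0 : ℕ) (hp0 : p0 ∈ S) :
    ((S.filter (fun p : ℕ => |(p : ℝ) - p0| < c2 * y)).card : ℝ) ≤ N0 / 24 := by
  have hC0 : 0 < C := by linarith [h.hC]
  have hN1 := h.hN1
  have hN2 := h.hN2
  have hx := h.hx
  have hy := h.ypos
  have hc2y := h.c2y
  have hc2y0 := h.c2y0
  have hBy := h.By
  have hB' : (0 : ℝ) < B := by linarith [h.Bone]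
  have hL := h.hL
  have hφ : (0 : ℝ) < Nat.totient B := by exact_mod_cast Nat.totient_pos.2 h.Bpos
  have hp := h.hS p0 hp0
  have hc2pos := h.c2pos
  have hsub : S.filter (fun p : ℕ => |(p : ℝ) - p0| < c2 * y) ⊆
      (Wi ((p0 : ℝ) - c2 * y) (2 * c2 * y)).filter
        (fun p => p.Prime ∧ (N - p).Prime ∧ p ≡ p0 [MOD B]) := by
    intro p hp'
    rw [mem_filter] at hp'
    have e1 := h.hS p hp'.1
    rw [mem_filter, mem_Wi (by linarith [hp.1]) (by positivity)]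
    have e2 := abs_lt.1 hp'.2
    exact ⟨⟨by linarith, by linarith⟩, e1.2.2.1, e1.2.2.2.1, e1.2.2.2.2.1.trans hp.2.2.2.2.1.symm⟩
  have hb := win_refl hC0.le hL h.h2 h.hT B p0 N ((p0 : ℝ) - c2 * y) (2 * c2 * y) 8 h.Bpos h.Beven
    (h.cop p0 B hp.2.2.1 h.Bpos (by linarith) hp.1) hp.2.2.2.2.2.1
    (h.cop (N - p0) B hp.2.2.2.1 h.Bpos (by linarith) (by linarith [hp.2.2.2.2.2.2.1]))
    hBy (by linarith [hp.1]) (by
      rw [le_div_iff₀ hB']
      linarith [h.hbig2]) (by linarith [hp.2.1]) (h.sigma B dvd_rfl)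
  refine ((Nat.cast_le.2 (card_le_card hsub)).trans hb).trans ?_
  calc C * ((B : ℝ) / Nat.totient B) ^ 2 * 8 * (3 * (2 * c2 * y) / B) * (3 / L) ^ 2
      = 432 * (C * c2) * ((B : ℝ) / (Nat.totient B : ℝ) ^ 2 * (y / L ^ 2)) := by
        field_simp
        ring
    _ = 432 * (C * c2) * (24 * N0) := by rw [h.hΦ]
    _ ≤ N0 / 24 := by
        have : C * c2 = 1 / 260000 := by rw [h.hc2]; field_simp
        rw [this]
        linarith [h.N0pos]

/-- few elements in a class modulo a small prime -/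
lemma clsl (h : CtxN C Y0 T L Q B R x y c2 N S N0) (p0 : ℕ) (hp0 : p0 ∈ S) (l : ℕ) (hl : l.Prime)
    (hQl : Q < l) (hlR : l ≤ R) :
    ((S.filter (fun p => p ≡ p0 [MOD l])).card : ℝ) ≤ 864 * C * (24 * N0) * (1 / l) := by
  have hC0 : 0 < C := by linarith [h.hC]
  have hN1 := h.hN1
  have hN2 := h.hN2
  have hx := h.hx
  have hy := h.ypos
  have hB' : (0 : ℝ) < B := by linarith [h.Bone]
  have hL := h.hL
  have hφ : (0 : ℝ) < Nat.totient B := by exact_mod_cast Nat.totient_pos.2 h.Bpos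
  have hp := h.hS p0 hp0
  have hl0 : (0 : ℝ) < l := by exact_mod_cast hl.pos
  have hu : 0 < B * l := Nat.mul_pos h.Bpos hl.pos
  have huy := h.Bl l hlR
  have hsub : S.filter (fun p => p ≡ p0 [MOD l]) ⊆
      (Wi x y).filter (fun p => p.Prime ∧ (N - p).Prime ∧ p ≡ p0 [MOD (B * l)]) := by
    intro p hp'
    rw [mem_filter] at hp'
    have e1 := h.hS p hp'.1
    rw [mem_filter, mem_Wi (by linarith) hy.le]
    exact ⟨⟨e1.1, e1.2.1⟩, e1.2.2.1, e1.2.2.2.1, h.comb l p p0 hl hQl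
      (e1.2.2.2.2.1.trans hp.2.2.2.2.1.symm) hp'.2⟩
  have hb := win_refl hC0.le hL h.h2 h.hT (B * l) p0 N x y 8 hu (h.Beven.mul_right l)
    (h.cop p0 (B * l) hp.2.2.1 hu huy hp.1) hp.2.2.2.2.2.1
    (h.cop (N - p0) (B * l) hp.2.2.2.1 hu huy (by linarith [hp.2.2.2.2.2.2.1]))
    huy (by linarith) (h.TBl l hl.pos hlR) (by linarith) (h.sigma (B * l) (dvd_mul_right _ _))
  refine ((Nat.cast_le.2 (card_le_card hsub)).trans hb).trans ?_
  have hr := ratio_mul B l h.Bpos hl (h.coBl l hl hQl)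
  calc C * (((B * l : ℕ) : ℝ) / Nat.totient (B * l)) ^ 2 * 8 * (3 * y / ((B * l : ℕ) : ℝ)) *
        (3 / L) ^ 2
      ≤ C * (2 * B / Nat.totient B) ^ 2 * 8 * (3 * y / ((B * l : ℕ) : ℝ)) * (3 / L) ^ 2 := by
        gcongr
    _ = 864 * C * ((B : ℝ) / (Nat.totient B : ℝ) ^ 2 * (y / L ^ 2)) * (1 / l) := by
        push_cast
        field_simp
        ring
    _ = 864 * C * (24 * N0) * (1 / l) := by rw [h.hΦ]

/-- few elements in a class modulo a large prime -/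
lemma clsbig (h : CtxN C Y0 T L Q B R x y c2 N S N0) (p0 : ℕ) (l : ℕ) (hlR : R < l) :
    ((S.filter (fun p => p ≡ p0 [MOD l])).card : ℝ) ≤ N0 / 12 := by
  have hx := h.hx
  have hy := h.ypos
  have hsub : S.filter (fun p => p ≡ p0 [MOD l]) ⊆
      (Wi x y).filter (fun p => p ≡ p0 [MOD l]) := by
    intro p hp'
    rw [mem_filter] at hp'
    have e1 := h.hS p hp'.1
    rw [mem_filter, mem_Wi (by linarith) hy.le]
    exact ⟨⟨e1.1, e1.2.1⟩, hp'.2⟩
  have hb := win_triv x y (by linarith) hy.le l p0 (by omega)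
  refine ((Nat.cast_le.2 (card_le_card hsub)).trans hb).trans ?_
  have hlR' : (R : ℝ) + 1 ≤ l := by exact_mod_cast hlR
  have e1 : (y + 1) / l ≤ (y + 1) / (R + 1) := by gcongr
  linarith [h.hE]

open Classical in
/-- the number of elements which are congruent to `p0` modulo some prime `> Q` dividing `m` -/
lemma bad (h : CtxN C Y0 T L Q B R x y c2 N S N0) (p0 : ℕ) (hp0 : p0 ∈ S) (m : ℕ) (hm : 0 < m)
    (hmR : m < (R + 1) ^ 2) (hs : sR Q R m ≤ 12 * (36 * C / Q)) :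
    ((S.filter (fun p => ∃ l, l.Prime ∧ Q < l ∧ l ∣ m ∧ p ≡ p0 [MOD l])).card : ℝ) ≤ N0 / 6 := by
  classical
  have hC0 : 0 < C := by linarith [h.hC]
  have hN0 := h.N0pos
  have hQR : (0 : ℝ) < (Q : ℝ) := by
    have : 0 < Q := by have := h.hQ2; omega
    exact_mod_cast this
  have hcov : S.filter (fun p => ∃ l, l.Prime ∧ Q < l ∧ l ∣ m ∧ p ≡ p0 [MOD l]) ⊆
      (Ls Q R m).biUnion (fun l => S.filter (fun p => p ≡ p0 [MOD l])) ∪
      (m.primeFactors.filter (fun l => R < l)).biUnion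
        (fun l => S.filter (fun p => p ≡ p0 [MOD l])) := by
    intro p hp
    rw [mem_filter] at hp
    obtain ⟨hpS, l, hl, hQl, hlm, hpl⟩ := hp
    rw [mem_union, mem_biUnion, mem_biUnion]
    by_cases hlR : l ≤ R
    · left
      exact ⟨l, by rw [Ls, mem_filter, mem_Ioc]; exact ⟨⟨hQl, hlR⟩, hl, hlm⟩,
        mem_filter.2 ⟨hpS, hpl⟩⟩
    · right
      exact ⟨l, by
        rw [mem_filter, Nat.mem_primeFactors]
        exact ⟨⟨hl, hlm, hm.ne'⟩, not_le.1 hlR⟩, mem_filter.2 ⟨hpS, hpl⟩⟩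
  have e1 := (card_le_card hcov).trans (card_union_le _ _)
  have e3 : ((Ls Q R m).biUnion (fun l => S.filter (fun p => p ≡ p0 [MOD l]))).card ≤
      ∑ l ∈ Ls Q R m, (S.filter (fun p => p ≡ p0 [MOD l])).card := card_biUnion_le
  have e4 : ((m.primeFactors.filter (fun l => R < l)).biUnion
      (fun l => S.filter (fun p => p ≡ p0 [MOD l]))).card ≤
      ∑ l ∈ m.primeFactors.filter (fun l => R < l),
        (S.filter (fun p => p ≡ p0 [MOD l])).card := card_biUnion_le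
  have e5 := e1.trans (Nat.add_le_add e3 e4)
  have e6 : ((S.filter (fun p => ∃ l, l.Prime ∧ Q < l ∧ l ∣ m ∧ p ≡ p0 [MOD l])).card : ℝ) ≤
      ∑ l ∈ Ls Q R m, ((S.filter (fun p => p ≡ p0 [MOD l])).card : ℝ) +
      ∑ l ∈ m.primeFactors.filter (fun l => R < l),
        ((S.filter (fun p => p ≡ p0 [MOD l])).card : ℝ) := by exact_mod_cast e5
  refine e6.trans ?_
  have hS2 : ∑ l ∈ Ls Q R m, ((S.filter (fun p => p ≡ p0 [MOD l])).card : ℝ) ≤ N0 / 12 := by
    have e7 : ∀ l ∈ Ls Q R m, ((S.filter (fun p => p ≡ p0 [MOD l])).card : ℝ) ≤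
        864 * C * (24 * N0) * (1 / l) := by
      intro l hl
      rw [Ls, mem_filter, mem_Ioc] at hl
      exact h.clsl p0 hp0 l hl.2.1 hl.1.1 hl.1.2
    refine (sum_le_sum e7).trans ?_
    rw [← mul_sum]
    have e8 : ∑ l ∈ Ls Q R m, (1 : ℝ) / l ≤ 12 * (36 * C / Q) := hs
    calc 864 * C * (24 * N0) * ∑ l ∈ Ls Q R m, (1 : ℝ) / l
        ≤ 864 * C * (24 * N0) * (12 * (36 * C / Q)) := by gcongr
      _ = (C ^ 2 / Q) * (8957952 * N0) := by ring
      _ ≤ (1 / 200000000) * (8957952 * N0) := by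
          refine mul_le_mul_of_nonneg_right ?_ (by positivity)
          rw [div_le_div_iff₀ hQR (by norm_num)]
          linarith [h.hQ]
      _ ≤ N0 / 12 := by linarith
  have hS3 : ∑ l ∈ m.primeFactors.filter (fun l => R < l),
        ((S.filter (fun p => p ≡ p0 [MOD l])).card : ℝ) ≤ N0 / 12 := by
    have h6 := sum_le_card_nsmul (m.primeFactors.filter (fun l => R < l))
      (fun l => ((S.filter (fun p => p ≡ p0 [MOD l])).card : ℝ)) (N0 / 12) (by
        intro l hl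
        rw [mem_filter] at hl
        exact h.clsbig p0 l hl.2)
    have h7 : ((m.primeFactors.filter (fun l => R < l)).card : ℝ) ≤ 1 := by
      exact_mod_cast big_primes' m R 1 hm hmR
    rw [nsmul_eq_mul] at h6
    refine h6.trans ?_
    exact mul_le_of_le_one_left (by positivity) h7
  linarith

end CtxN

end Pool.Agent.Work.MP_713a1e_co
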