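import Mathlib
import Pool.Agent.Work.MP_713a1e_co.Count
import Pool.Agent.Work.MP_713a1e_co.Exist

/-! Lists: filtering an orbit, inserting elements, and the walk through a window. -/

namespace Pool.Agent.Work.MP_713a1e_co

open Finset

/-- filtering an orbit in which no two consecutive elements are dropped -/
lemma chain_filter (ρ : ℕ → ℕ) (q : ℕ → Bool) : ∀ (l : List ℕ),
    l.IsChain (fun y y' => y' = ρ y) → (∀ y ∈ l, q y = false → q (ρ y) = true) →
    (l.filter q).IsChain (fun y y' => y' = ρ y ∨ (q (ρ y) = false ∧ y' = ρ (ρ y))) := by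
  intro l
  induction l with
  | nil => intro _ _; simp
  | cons y t ih =>
    intro h hq
    have ht := ih (List.isChain_cons.1 h).2 (fun z hz => hq z (List.mem_cons_of_mem _ hz))
    rcases hqy : q y with _ | _
    · rw [List.filter_cons_of_neg (by simp [hqy])]
      exact ht
    · rw [List.filter_cons_of_pos hqy, List.isChain_cons]
      refine ⟨?_, ht⟩
      intro z hz
      cases t with
      | nil => simp at hz
      | cons y' t' =>
        have hy' : y' = ρ y := (List.isChain_cons_cons.1 h).1
        rcases hqy' : q y' with _ | _
        · rw [List.filter_cons_of_neg (by simp [hqy'])] at hz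
          cases t' with
          | nil => simp at hz
          | cons y'' t'' =>
            have h2 := (List.isChain_cons_cons.1 h).2
            have hy'' : y'' = ρ y' := (List.isChain_cons_cons.1 h2).1
            have hqy'' : q y'' = true := by
              rw [hy'']; exact hq y' (by simp) hqy'
            rw [List.filter_cons_of_pos hqy''] at hz
            simp only [List.head?_cons, Option.mem_def, Option.some.injEq] at hz
            right
            rw [← hy']
            exact ⟨hqy', by rw [← hz, hy'']⟩
        · rw [List.filter_cons_of_pos hqy'] at hz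
          simp only [List.head?_cons, Option.mem_def, Option.some.injEq] at hz
          left
          rw [← hz, hy']

/-- replacing each element of a chain by a nonempty list starting with it -/
lemma chain_flatMap {R St : ℕ → ℕ → Prop} (g : ℕ → List ℕ) : ∀ (l : List ℕ), l.IsChain R →
    (∀ y ∈ l, (g y).head? = some y ∧ (g y).IsChain St) →
    (∀ y ∈ l, ∀ y' ∈ l, R y y' → ∀ z ∈ (g y).getLast?, St z y') →
    (l.flatMap g).IsChain St := by
  intro l
  induction l with
  | nil => intro _ _ _; simp
  | cons y t ih =>
    intro h hg hl
    have ht := ih (List.isChain_cons.1 h).2 (fun z hz => hg z (List.mem_cons_of_mem _ hz))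
      (fun z hz z' hz' => hl z (List.mem_cons_of_mem _ hz) z' (List.mem_cons_of_mem _ hz'))
    rw [List.flatMap_cons, List.isChain_append]
    refine ⟨(hg y (by simp)).2, ht, ?_⟩
    intro z hz z' hz'
    cases t with
    | nil => simp at hz'
    | cons y' t' =>
      have hR : R y y' := (List.isChain_cons_cons.1 h).1
      rw [List.flatMap_cons, List.head?_append, (hg y' (by simp)).1] at hz'
      simp only [Option.some_or, Option.mem_def, Option.some.injEq] at hz'
      subst hz'
      exact hl y (by simp) y' (by simp) hR z hz

/-- the walk through a window -/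
def walk (p e : ℕ) : ℕ → List ℕ → List ℕ
  | _, [] => []
  | c, c' :: t => (p - (e + 2 * c)) :: (e + 2 * c') :: walk p e c' t

lemma walk_ne_nil {p e c : ℕ} {l : List ℕ} (hl : l ≠ []) : walk p e c l ≠ [] := by
  cases l with
  | nil => exact absurd rfl hl
  | cons x t => simp [walk]

lemma walk_head {p e c : ℕ} {l : List ℕ} (hl : l ≠ []) :
    (walk p e c l).head? = some (p - (e + 2 * c)) := by
  cases l with
  | nil => exact absurd rfl hl
  | cons x t => simp [walk]

lemma walk_last {p e : ℕ} : ∀ (c : ℕ) (l : List ℕ) (b : ℕ), l.getLast? = some b →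
    (walk p e c l).getLast? = some (e + 2 * b) := by
  intro c l
  induction l generalizing c with
  | nil => intro b h; simp at h
  | cons x t ih =>
    intro b h
    unfold walk
    cases t with
    | nil =>
      simp only [List.getLast?_singleton, Option.some.injEq] at h
      simp [walk, h]
    | cons y t' =>
      rw [List.getLast?_cons_cons] at h
      have h1 := ih x b h
      rw [List.getLast?_cons_cons]
      have h2 : walk p e x (y :: t') = (p - (e + 2 * x)) :: (e + 2 * y) :: walk p e y t' := rfl
      rw [h2] at h1 ⊢
      rw [List.getLast?_cons_cons]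
      exact h1

lemma walk_chain {p e M : ℕ} (hp : p.Prime) (heM : e + 2 * M ≤ p) : ∀ (c : ℕ) (l : List ℕ),
    (∀ x ∈ c :: l, x < M) → (c :: l).IsChain (fun y y' => (p + 2 * y' - 2 * y).Prime) →
    (walk p e c l).IsChain Adj := by
  intro c l
  induction l generalizing c with
  | nil => intro _ _; simp [walk]
  | cons x t ih =>
    intro hM h
    have hc := hM c (by simp)
    have hx := hM x (by simp)
    have h1 := (List.isChain_cons_cons.1 h).1
    have h2 := (List.isChain_cons_cons.1 h).2
    have h3 := ih x (fun z hz => hM z (List.mem_cons_of_mem _ hz)) h2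
    unfold walk
    rw [List.isChain_cons_cons]
    constructor
    · unfold Adj
      rw [show p - (e + 2 * c) + (e + 2 * x) = p + 2 * x - 2 * c by omega]
      exact h1
    · rw [List.isChain_cons]
      refine ⟨?_, h3⟩
      intro z hz
      cases t with
      | nil => simp [walk] at hz
      | cons y t' =>
        rw [walk_head (by simp)] at hz
        simp only [Option.mem_def, Option.some.injEq] at hz
        subst hz
        unfold Adj
        rw [show e + 2 * x + (p - (e + 2 * x)) = p by omega]
        exact hp

lemma walk_perm {p e : ℕ} : ∀ (c : ℕ) (l : List ℕ), (walk p e c l).Perm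
    (((c :: l).dropLast.map (fun y => p - (e + 2 * y))) ++ l.map (fun y => e + 2 * y)) := by
  intro c l
  induction l generalizing c with
  | nil => simp [walk]
  | cons x t ih =>
    have h1 := ih x
    unfold walk
    rw [List.dropLast_cons_of_ne_nil (by simp), List.map_cons, List.cons_append]
    refine List.Perm.cons _ ?_
    rw [List.map_cons (l := t)]
    refine ((List.Perm.cons _ h1).trans ?_)
    exact (List.perm_middle).symm

lemma walk_inj {p e : ℕ} : ∀ (c c' : ℕ) (l l' : List ℕ), walk p e c l = walk p e c' l' → l = l' := by
  intro c c' l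
  induction l generalizing c c' with
  | nil =>
    intro l' h
    cases l' with
    | nil => rfl
    | cons y t' => simp [walk] at h
  | cons x t ih =>
    intro l' h
    cases l' with
    | nil => simp [walk] at h
    | cons y t' =>
      unfold walk at h
      simp only [List.cons.injEq] at h
      obtain ⟨-, h2, h3⟩ := h
      have hxy : x = y := by omega
      subst hxy
      rw [ih x x t' h3]

/-- from a closed sequence to a row of the window -/
lemma walk_row {p e W b : ℕ} (hp : p.Prime) (hp2 : Odd p) (he : Even e) (heM : e + 2 * W ≤ p)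
    (l : List ℕ)
    (hlast : l.getLast? = some b) (hl : l.Nodup) (hmem : ∀ x, x ∈ l ↔ x < W)
    (hchain : (b :: l).IsChain (fun y y' => (p + 2 * y' - 2 * y).Prime)) :
    walk p e b l ∈ Rows (Om p e W) (p - (e + 2 * b)) (e + 2 * b) := by
  have hne : l ≠ [] := by rintro rfl; simp at hlast
  have hb : b < W := (hmem b).1 (List.mem_of_getLast? hlast)
  obtain ⟨ys, hys⟩ := List.getLast?_eq_some_iff.1 hlast
  have hdrop : (b :: l).dropLast = b :: ys := by
    rw [hys, ← List.cons_append, List.dropLast_concat]
  have hperm : (b :: ys).Perm l := by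
    rw [hys]
    exact (List.perm_append_singleton b ys).symm
  have hP := walk_perm (p := p) (e := e) b l
  rw [hdrop] at hP
  have hmem' : ∀ x, x ∈ b :: ys ↔ x < W := fun x => by rw [hperm.mem_iff, hmem]
  have hnd : (b :: ys).Nodup := hperm.nodup_iff.2 hl
  obtain ⟨e', he'⟩ := he
  obtain ⟨p', hp'⟩ := hp2
  refine ⟨?_, ?_, ?_, ?_, ?_⟩
  · rw [hP.nodup_iff, List.nodup_append]
    refine ⟨?_, ?_, ?_⟩
    · refine List.Nodup.map_on ?_ hnd
      intro x hx y hy hxy
      rw [hmem'] at hx hy
      omega
    · refine List.Nodup.map_on ?_ hl
      intro x _ y _ hxy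
      omega
    · intro x hx y hy hxy
      rw [List.mem_map] at hx hy
      obtain ⟨u, hu, rfl⟩ := hx
      obtain ⟨v, hv, rfl⟩ := hy
      rw [hmem'] at hu
      rw [hmem] at hv
      omega
  · intro x
    rw [hP.mem_iff, List.mem_append, List.mem_map, List.mem_map, mem_Om]
    constructor
    · rintro (⟨u, hu, rfl⟩ | ⟨u, hu, rfl⟩)
      · exact Or.inr ⟨u, (hmem' u).1 hu, rfl⟩
      · exact Or.inl ⟨u, (hmem u).1 hu, rfl⟩
    · rintro (⟨u, hu, rfl⟩ | ⟨u, hu, rfl⟩)
      · exact Or.inr ⟨u, (hmem u).2 hu, rfl⟩
      · exact Or.inl ⟨u, (hmem' u).2 hu, rfl⟩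
  · exact walk_head hne
  · exact walk_last b l b hlast
  · refine walk_chain hp heM b l ?_ hchain
    intro x hx
    rcases List.mem_cons.1 hx with h | h
    · rw [h]; exact hb
    · exact (hmem x).1 h

end Pool.Agent.Work.MP_713a1e_co
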