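import Mathlib
import Pool.Agent.Work.MP_713a1e_co.Lists

/-! Many Hamiltonian paths in a window, by relocating vertices. -/

namespace Pool.Agent.Work.MP_713a1e_co

open Finset

section flex

variable {p e a d W b : ℕ}

/-- the rotation -/
def rot (a d y : ℕ) : ℕ := (y + a) % (a + d)

lemma rot_lt {y : ℕ} (hd : 1 ≤ d) (hy : y < d) : rot a d y = y + a := by
  unfold rot; exact Nat.mod_eq_of_lt (by omega)

lemma rot_ge {y : ℕ} (hy : d ≤ y) (hy2 : y < a + d) : rot a d y = y - d := by
  unfold rot
  rw [show y + a = (y - d) + (a + d) by omega, Nat.add_mod_right]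
  exact Nat.mod_eq_of_lt (by omega)

/-- one period of the orbit, after `b` -/
def orbT (a d b : ℕ) : List ℕ := (List.range (a + d)).map (fun j => (b + (j + 1) * a) % (a + d))

lemma orb_chain (hb : b < a + d) : (b :: orbT a d b).IsChain (fun y y' => y' = rot a d y) := by
  have h : b :: orbT a d b = (List.range (a + d + 1)).map (fun j => (b + j * a) % (a + d)) := by
    rw [List.range_succ_eq_map, List.map_cons, List.map_map]
    unfold orbT
    congr 1
    simp [Nat.mod_eq_of_lt hb]
  rw [h, List.isChain_map, List.isChain_range_succ]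
  intro j _
  unfold rot
  rw [Nat.mod_add_mod]
  congr 1
  rw [Nat.succ_eq_add_one]
  ring

lemma orbT_nodup (had : Nat.Coprime a d) (hd : 1 ≤ d) : (orbT a d b).Nodup := by
  unfold orbT
  refine List.Nodup.map_on ?_ List.nodup_range
  intro i hi j hj h
  rw [List.mem_range] at hi hj
  have hco : Nat.Coprime (a + d) a := by
    rw [Nat.add_comm, Nat.coprime_add_self_left]
    exact had.symm
  have h1 : (b + (i + 1) * a) ≡ (b + (j + 1) * a) [MOD (a + d)] := h
  have h2 : (i + 1) * a ≡ (j + 1) * a [MOD (a + d)] := Nat.ModEq.add_left_cancel' b h1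
  have h3 : i + 1 ≡ j + 1 [MOD (a + d)] := Nat.ModEq.cancel_right_of_coprime hco h2
  have h4 : i ≡ j [MOD (a + d)] := Nat.ModEq.add_right_cancel' 1 h3
  have h5 := h4
  unfold Nat.ModEq at h5
  rwa [Nat.mod_eq_of_lt hi, Nat.mod_eq_of_lt hj] at h5

lemma orbT_mem (had : Nat.Coprime a d) (hd : 1 ≤ d) (x : ℕ) : x ∈ orbT a d b ↔ x < a + d := by
  have h1 : (orbT a d b).toFinset ⊆ range (a + d) := by
    intro y hy
    rw [List.mem_toFinset] at hy
    unfold orbT at hy
    rw [List.mem_map] at hy
    obtain ⟨j, _, rfl⟩ := hy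
    exact mem_range.2 (Nat.mod_lt _ (by omega))
  have h2 : (orbT a d b).toFinset = range (a + d) := by
    apply eq_of_subset_of_card_le h1
    rw [List.toFinset_card_of_nodup (orbT_nodup had hd), card_range]
    unfold orbT
    simp
  rw [← List.mem_toFinset, h2, mem_range]

lemma orbT_last (hb : b < a + d) (hd : 1 ≤ d) : ∃ t, orbT a d b = t ++ [b] := by
  unfold orbT
  obtain ⟨k, hk⟩ : ∃ k, a + d = k + 1 := ⟨a + d - 1, by omega⟩
  refine ⟨(List.range k).map (fun j => (b + (j + 1) * a) % (a + d)), ?_⟩
  rw [hk, List.range_succ, List.map_append]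
  congr 1
  simp only [List.map_cons, List.map_nil, List.cons.injEq, and_true]
  rw [Nat.add_mul_mod_self_left, Nat.mod_eq_of_lt (by omega)]

/-- the vertices kept in place -/
def keep (μ : Finset (ℕ × ℕ)) (W y : ℕ) : Bool := decide (y < W ∧ y ∉ μ.image Prod.snd)

/-- the pairs of a relocation -/
structure Ok (p a d W b : ℕ) (q : ℕ × ℕ) : Prop where
  r1 : q.2 < W - a
  P1 : W - a ≤ q.1
  P2 : q.1 < d
  rb : q.2 ≠ b
  pr1 : (p + 2 * q.2 - 2 * q.1).Prime
  pr2 : (p + 2 * (q.1 + a - d) - 2 * q.2).Prime

/-- matchings -/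
def Matching (μ : Finset (ℕ × ℕ)) : Prop :=
  ∀ x ∈ μ, ∀ y ∈ μ, (x.1 = y.1 ∨ x.2 = y.2) → x = y

open Classical in
/-- the vertex inserted after `y` -/
noncomputable def ins (μ : Finset (ℕ × ℕ)) (y : ℕ) : List ℕ :=
  if h : ∃ r, (y, r) ∈ μ then [h.choose] else []

lemma ins_of_mem {μ : Finset (ℕ × ℕ)} (hμ : Matching μ) {y r : ℕ} (h : (y, r) ∈ μ) :
    ins μ y = [r] := by
  have hex : ∃ r, (y, r) ∈ μ := ⟨r, h⟩
  unfold ins
  rw [dif_pos hex]
  have h1 := hμ _ hex.choose_spec _ h (Or.inl rfl)
  have h2 : hex.choose = r := by simpa using congrArg Prod.snd h1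
  rw [h2]

lemma ins_of_notMem {μ : Finset (ℕ × ℕ)} {y : ℕ} (h : ∀ r, (y, r) ∉ μ) : ins μ y = [] := by
  unfold ins
  rw [dif_neg (by rintro ⟨r, hr⟩; exact h r hr)]

/-- the closed sequence without its first element -/
noncomputable def seqC (a d W b : ℕ) (μ : Finset (ℕ × ℕ)) : List ℕ :=
  ((orbT a d b).filter (keep μ W)).flatMap (fun y => y :: ins μ y)

variable (hd : 1 ≤ d) (hda : d < a) (haW : a ≤ W) (hWad : W < a + d) (hbW : b < W)
  (hb : b < W - a ∨ d ≤ b) (had : Nat.Coprime a d)

include hd hda haW hWad hbW hb in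
lemma seqC_cons {μ : Finset (ℕ × ℕ)} (hok : ∀ q ∈ μ, Ok p a d W b q) :
    b :: seqC a d W b μ =
      ((b :: orbT a d b).filter (keep μ W)).flatMap (fun y => y :: ins μ y) := by
  have h1 : keep μ W b = true := by
    unfold keep
    rw [decide_eq_true_iff]
    refine ⟨hbW, ?_⟩
    rw [mem_image]
    rintro ⟨q, hq, h⟩
    exact (hok q hq).rb h
  have h2 : ins μ b = [] := by
    apply ins_of_notMem
    intro r hr
    have h3 := (hok _ hr).P1
    have h4 := (hok _ hr).P2
    simp only at h3 h4
    omega
  rw [List.filter_cons_of_pos h1, List.flatMap_cons, h2]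
  rfl

include hd hda haW hWad hbW hb had in
lemma seqC_last {μ : Finset (ℕ × ℕ)} (hok : ∀ q ∈ μ, Ok p a d W b q) :
    (seqC a d W b μ).getLast? = some b := by
  obtain ⟨t, ht⟩ := orbT_last (a := a) (d := d) (b := b) (by omega) hd
  have h1 : keep μ W b = true := by
    unfold keep
    rw [decide_eq_true_iff]
    refine ⟨hbW, ?_⟩
    rw [mem_image]
    rintro ⟨q, hq, h⟩
    exact (hok q hq).rb h
  have h2 : ins μ b = [] := by
    apply ins_of_notMem
    intro r hr
    have h3 := (hok _ hr).P1
    have h4 := (hok _ hr).P2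
    simp only at h3 h4
    omega
  unfold seqC
  rw [ht, List.filter_append, List.filter_cons_of_pos h1, List.filter_nil, List.flatMap_append,
    List.flatMap_cons, List.flatMap_nil, h2, List.getLast?_append]
  rfl

include hd hda haW hWad in
lemma keep_spec {μ : Finset (ℕ × ℕ)} (hok : ∀ q ∈ μ, Ok p a d W b q) {y : ℕ} :
    keep μ W y = true ↔ y < W ∧ ∀ P, (P, y) ∉ μ := by
  unfold keep
  rw [decide_eq_true_iff, mem_image]
  constructor
  · rintro ⟨h1, h2⟩
    exact ⟨h1, fun P hP => h2 ⟨(P, y), hP, rfl⟩⟩
  · rintro ⟨h1, h2⟩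
    refine ⟨h1, ?_⟩
    rintro ⟨⟨P, r⟩, hq, h⟩
    simp only at h
    subst h
    exact h2 P hq

include hd hda haW hWad had in
lemma seqC_mem {μ : Finset (ℕ × ℕ)} (hμ : Matching μ) (hok : ∀ q ∈ μ, Ok p a d W b q) (x : ℕ) :
    x ∈ seqC a d W b μ ↔ x < W := by
  unfold seqC
  rw [List.mem_flatMap]
  constructor
  · rintro ⟨y, hy, hx⟩
    rw [List.mem_filter, keep_spec hd hda haW hWad hok] at hy
    rcases List.mem_cons.1 hx with h | h
    · rw [h]; exact hy.2.1
    · by_cases hex : ∃ r, (y, r) ∈ μ
      · obtain ⟨r, hr⟩ := hex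
        rw [ins_of_mem hμ hr, List.mem_singleton] at h
        have := (hok _ hr).r1
        simp only at this
        omega
      · rw [ins_of_notMem (fun r hr => hex ⟨r, hr⟩)] at h
        simp at h
  · intro hx
    by_cases hex : ∃ P, (P, x) ∈ μ
    · obtain ⟨P, hP⟩ := hex
      have h1 := (hok _ hP).P1
      have h2 := (hok _ hP).P2
      have h3 := (hok _ hP).r1
      simp only at h1 h2 h3
      refine ⟨P, ?_, ?_⟩
      · rw [List.mem_filter, orbT_mem had hd, keep_spec hd hda haW hWad hok]
        refine ⟨by omega, by omega, fun P' hP' => ?_⟩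
        have := (hok _ hP').r1
        simp only at this
        omega
      · rw [ins_of_mem hμ hP]
        simp
    · refine ⟨x, ?_, by simp⟩
      rw [List.mem_filter, orbT_mem had hd, keep_spec hd hda haW hWad hok]
      exact ⟨by omega, hx, fun P hP => hex ⟨P, hP⟩⟩

include hd hda haW hWad had in
lemma seqC_nodup {μ : Finset (ℕ × ℕ)} (hμ : Matching μ) (hok : ∀ q ∈ μ, Ok p a d W b q) :
    (seqC a d W b μ).Nodup := by
  unfold seqC
  rw [List.nodup_flatMap]
  constructor
  · intro y hy
    rw [List.mem_filter, keep_spec hd hda haW hWad hok] at hy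
    by_cases hex : ∃ r, (y, r) ∈ μ
    · obtain ⟨r, hr⟩ := hex
      rw [ins_of_mem hμ hr]
      have h1 := (hok _ hr).P1
      have h3 := (hok _ hr).r1
      simp only at h1 h3
      simp only [List.nodup_cons, List.mem_singleton, List.not_mem_nil, not_false_eq_true,
        List.nodup_nil, and_true]
      omega
    · rw [ins_of_notMem (fun r hr => hex ⟨r, hr⟩)]
      simp
  · have hnd : ((orbT a d b).filter (keep μ W)).Nodup := (orbT_nodup had hd).filter _
    refine List.Pairwise.imp_of_mem ?_ hnd
    intro y y' hy hy' hne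
    rw [List.mem_filter, keep_spec hd hda haW hWad hok] at hy hy'
    show List.Disjoint (y :: ins μ y) (y' :: ins μ y')
    intro x hx hx'
    have key : ∀ z, x ∈ z :: ins μ z → x = z ∨ (z, x) ∈ μ := by
      intro z hz
      rcases List.mem_cons.1 hz with h | h
      · exact Or.inl h
      · by_cases hex : ∃ r, (z, r) ∈ μ
        · obtain ⟨r, hr⟩ := hex
          rw [ins_of_mem hμ hr, List.mem_singleton] at h
          right; rw [h]; exact hr
        · rw [ins_of_notMem (fun r hr => hex ⟨r, hr⟩)] at h
          simp at h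
    rcases key y hx with h | h <;> rcases key y' hx' with h' | h'
    · exact hne (h.symm.trans h')
    · rw [h] at h'; exact hy.2.2 y' h'
    · rw [h'] at h; exact hy'.2.2 y h
    · have := hμ _ h _ h' (Or.inr rfl)
      exact hne (by simpa using congrArg Prod.fst this)

include hd hda haW hWad hbW hb had in
lemma seqC_chain (h1 : (p + 2 * a).Prime) (h3 : (p - 2 * d).Prime)
    (h2 : (p + 2 * a - 2 * d).Prime) (hpW : 2 * W ≤ p)
    {μ : Finset (ℕ × ℕ)} (hμ : Matching μ) (hok : ∀ q ∈ μ, Ok p a d W b q) :
    (b :: seqC a d W b μ).IsChain (fun y z => (p + 2 * z - 2 * y).Prime ∧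
      (z < W - a → W - a ≤ y → y < d → (y, z) ∈ μ)) := by
  rw [seqC_cons (p := p) hd hda haW hWad hbW hb hok]
  have hmemO : ∀ y ∈ b :: orbT a d b, y < a + d := by
    intro y hy
    rcases List.mem_cons.1 hy with h | h
    · omega
    · exact (orbT_mem had hd y).1 h
  have hks : ∀ y, keep μ W y = true ↔ y < W ∧ ∀ P, (P, y) ∉ μ := fun y =>
    keep_spec (p := p) (b := b) hd hda haW hWad hok
  refine chain_flatMap (R := fun y y' => y' = rot a d y ∨
    (keep μ W (rot a d y) = false ∧ y' = rot a d (rot a d y))) _ _ ?_ ?_ ?_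
  · refine chain_filter (rot a d) (keep μ W) _ (orb_chain (by omega)) ?_
    intro y hy hk
    have hyad := hmemO y hy
    rw [hks]
    by_cases hyW : y < W
    · -- `y` is relocated
      have hex : ∃ P, (P, y) ∈ μ := by
        by_contra hcon
        have : keep μ W y = true := (hks y).2 ⟨hyW, fun P hP => hcon ⟨P, hP⟩⟩
        rw [this] at hk
        exact absurd hk (by simp)
      obtain ⟨P, hP⟩ := hex
      have h4 := (hok _ hP).r1
      simp only at h4
      rw [rot_lt hd (by omega)]
      refine ⟨by omega, fun P' hP' => ?_⟩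
      have := (hok _ hP').r1
      simp only at this
      omega
    · rw [rot_ge (by omega) hyad]
      refine ⟨by omega, fun P' hP' => ?_⟩
      have := (hok _ hP').r1
      simp only at this
      omega
  · intro y hy
    rw [List.mem_filter, hks] at hy
    refine ⟨by simp, ?_⟩
    by_cases hex : ∃ r, (y, r) ∈ μ
    · obtain ⟨r, hr⟩ := hex
      rw [ins_of_mem hμ hr]
      simp only [List.isChain_cons_cons, List.isChain_singleton, and_true]
      exact ⟨(hok _ hr).pr1, fun _ _ _ => hr⟩
    · rw [ins_of_notMem (fun r hr => hex ⟨r, hr⟩)]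
      simp
  · intro y hy y' hy' hR z hz
    rw [List.mem_filter, hks] at hy hy'
    by_cases hex : ∃ r, (y, r) ∈ μ
    · obtain ⟨r, hr⟩ := hex
      rw [ins_of_mem hμ hr] at hz
      simp only [List.getLast?_cons_cons, List.getLast?_singleton, Option.mem_def,
        Option.some.injEq] at hz
      subst hz
      have g1 := (hok _ hr).r1
      have g2 := (hok _ hr).P1
      have g3 := (hok _ hr).P2
      have g4 := (hok _ hr).pr2
      simp only at g1 g2 g3 g4
      refine ⟨?_, fun _ h _ => by omega⟩
      rcases hR with hR | ⟨_, hR⟩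
      · exfalso
        rw [rot_lt hd g3] at hR
        omega
      · rw [rot_lt hd g3, rot_ge (by omega) (by omega)] at hR
        rw [hR]; exact g4
    · rw [ins_of_notMem (fun r hr => hex ⟨r, hr⟩)] at hz
      simp only [List.getLast?_singleton, Option.mem_def, Option.some.injEq] at hz
      subst hz
      have hyW := hy.2.1
      have hyW' := hy'.2.1
      rcases hR with hR | ⟨hk, hR⟩
      · rcases Nat.lt_or_ge y d with h | h
        · rw [rot_lt hd h] at hR
          subst hR
          refine ⟨?_, fun _ _ _ => by omega⟩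
          rw [show p + 2 * (y + a) - 2 * y = p + 2 * a by omega]
          exact h1
        · rw [rot_ge h (by omega)] at hR
          subst hR
          refine ⟨?_, fun _ _ _ => by omega⟩
          rw [show p + 2 * (y - d) - 2 * y = p - 2 * d by omega]
          exact h3
      · have hkey : y' = y + a - d := by
          rcases Nat.lt_or_ge y d with h | h
          · rw [rot_lt hd h, rot_ge (by omega) (by omega)] at hR
            exact hR
          · rw [rot_ge h (by omega)] at hR hk
            -- `y - d` is relocated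
            have hex2 : ∃ P, (P, y - d) ∈ μ := by
              by_contra hcon
              have : keep μ W (y - d) = true := (hks _).2 ⟨by omega, fun P hP => hcon ⟨P, hP⟩⟩
              rw [this] at hk
              exact absurd hk (by simp)
            obtain ⟨P, hP⟩ := hex2
            have h4 := (hok _ hP).r1
            simp only at h4
            rw [rot_lt hd (by omega)] at hR
            omega
        subst hkey
        refine ⟨?_, fun _ _ _ => by omega⟩
        rw [show p + 2 * (y + a - d) - 2 * y = p + 2 * a - 2 * d by omega]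
        exact h2

include hd hda haW hWad hbW hb had in
/-- **Relocations**: matchings give distinct rows of the window. -/
theorem flex_count (hp : p.Prime) (hp2 : Odd p) (he : Even e) (h1 : (p + 2 * a).Prime)
    (h3 : (p - 2 * d).Prime) (h2 : (p + 2 * a - 2 * d).Prime) (hpW : e + 2 * W ≤ p)
    (M : Finset (Finset (ℕ × ℕ))) (hM : ∀ μ ∈ M, Matching μ ∧ ∀ q ∈ μ, Ok p a d W b q) :
    M.card ≤ (Rows (Om p e W) (p - (e + 2 * b)) (e + 2 * b)).ncard := by
  rw [← Set.ncard_coe_finset M]
  refine Set.ncard_le_ncard_of_injOn (fun μ => walk p e b (seqC a d W b μ)) ?_ ?_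
    (rows_finite _ _ _)
  · intro μ hμ
    obtain ⟨hm, hok⟩ := hM μ hμ
    refine walk_row hp hp2 he hpW _ (seqC_last hd hda haW hWad hbW hb had hok)
      (seqC_nodup hd hda haW hWad had hm hok) (seqC_mem hd hda haW hWad had hm hok) ?_
    exact (seqC_chain hd hda haW hWad hbW hb had h1 h3 h2 (by omega) hm hok).imp
      fun y z h => h.1
  · intro μ hμ μ' hμ' h
    have h4 := walk_inj _ _ _ _ h
    -- each pair of `μ` is a pair of `μ'`
    have key : ∀ μ ∈ M, ∀ μ' ∈ M, seqC a d W b μ = seqC a d W b μ' → μ ⊆ μ' := by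
      intro μ hμ μ' hμ' h4 q hq
      obtain ⟨hm, hok⟩ := hM μ hμ
      obtain ⟨hm', hok'⟩ := hM μ' hμ'
      have g := hok q hq
      have g1 := g.r1
      have g2 := g.P1
      have g3 := g.P2
      have hch := seqC_chain (p := p) hd hda haW hWad hbW hb had h1 h3 h2 (by omega) hm' hok'
      have hinf : ∃ s t, b :: seqC a d W b μ' = s ++ ([q.1, q.2] ++ t) := by
        rw [← h4, seqC_cons (p := p) hd hda haW hWad hbW hb hok]
        have hmem : q.1 ∈ (b :: orbT a d b).filter (keep μ W) := by
          rw [List.mem_filter, keep_spec (p := p) (b := b) hd hda haW hWad hok]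
          refine ⟨List.mem_cons_of_mem _ ((orbT_mem had hd _).2 (by omega)), by omega,
            fun P hP => ?_⟩
          have := (hok _ hP).r1
          simp only at this
          omega
        obtain ⟨s, t, hst⟩ := List.append_of_mem hmem
        rw [hst, List.flatMap_append, List.flatMap_cons, ins_of_mem hm (show (q.1, q.2) ∈ μ from hq)]
        exact ⟨List.flatMap (fun y => y :: ins μ y) s, List.flatMap (fun y => y :: ins μ y) t, by simp⟩
      obtain ⟨s, t, hst⟩ := hinf
      rw [hst] at hch
      have hch2 := (List.isChain_append.1 (List.isChain_append.1 hch).2.1).1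
      rw [List.isChain_pair] at hch2
      exact hch2.2 g1 g2 g3
    exact Finset.Subset.antisymm (key μ hμ μ' hμ' h4) (key μ' hμ' μ hμ h4.symm)

end flex

/-- reversing rows -/
lemma rows_reverse (S : Finset ℕ) (a b : ℕ) : (Rows S a b).ncard = (Rows S b a).ncard := by
  have h : ∀ a b : ℕ, (Rows S a b).ncard ≤ (Rows S b a).ncard := by
    intro a b
    refine Set.ncard_le_ncard_of_injOn List.reverse ?_ ?_ (rows_finite _ _ _)
    · rintro l ⟨h1, h2, h3, h4, h5⟩
      refine ⟨List.nodup_reverse.2 h1, fun x => by rw [List.mem_reverse, h2], ?_, ?_, ?_⟩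
      · rw [List.head?_reverse, h4]
      · rw [List.getLast?_reverse, h3]
      · rw [List.isChain_reverse]
        exact h5.imp fun x y h => h.symm
    · intro l _ l' _ h
      exact List.reverse_injective h
  exact le_antisymm (h a b) (h b a)

end Pool.Agent.Work.MP_713a1e_co
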