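import Mathlib
import Pool.Agent.Work.MP_713a1e_co.NiceEv
import Pool.Agent.Work.MP_713a1e_co.KeyStart

/-! The key lemma: many primes in prescribed short intervals with prescribed sum. -/

namespace Pool.Agent.Work.MP_713a1e_co

open Finset Filter
open scoped Real

noncomputable section

/-- **Key lemma.** -/
theorem key (hAP : APProp) (hSP : SPProp) : ∃ k0 : ℕ, ∀ k ≥ k0, ∀ ε : ℝ, 0 < ε →
    ∀ᶠ n : ℕ in atTop, ∀ (c : Fin k → ℕ) (N : ℕ), (∀ i, (n : ℝ) / 8 ≤ c i) →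
      (∀ i, (c i : ℝ) ≤ 4 * n) → |(N : ℝ) - ∑ i, (c i : ℝ)| ≤ k → N % 2 = k % 2 →
      ∃ P : Fin k → ℕ, (∀ i, (P i).Prime) ∧ (∀ i, |(P i : ℝ) - c i| ≤ ε * n) ∧ ∑ i, P i = N := by
  obtain ⟨C₀, Y0, hC₀, hs⟩ := hSP
  obtain ⟨C₁, X0, hC₁, hE⟩ := energy_bound C₀ Y0 hC₀ hs
  obtain ⟨Q, hQ⟩ : ∃ Q : ℕ, 16 * C₁ ≤ Q := ⟨⌈16 * C₁⌉₊, Nat.le_ceil _⟩
  have hQ16 : (16 : ℝ) ≤ Q := by linarith
  obtain ⟨η, hη0, hc₀, hηle, hη1⟩ := params hC₁ hQ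
  have hπ : π < 3.15 := Real.pi_lt_d2
  have hπ0 : 0 < π := Real.pi_pos
  have hηsq : η ^ 2 ≤ (1 / 16000) ^ 2 := pow_le_pow_left₀ hη0.le hηle 2
  have hη2 : 2 * π * (48 * C₁ * Q * η) + 1 / 2 + 2 * η ^ 2 ≤ 1 := by
    rw [hc₀]
    norm_num at hηsq ⊢
    linarith
  have hκ0 : 0 < 2 * η ^ 2 := by positivity
  have hκ1 : 2 * η ^ 2 ≤ 1 := by norm_num at hηsq ⊢; linarith
  obtain ⟨j0, hj0⟩ := exists_j0 (C := C₁) hκ0 hκ1
  obtain ⟨B, hB⟩ : ∃ B : ℕ, B = 2 * Q.factorial := ⟨_, rfl⟩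
  have hQf : 0 < Q.factorial := Nat.factorial_pos Q
  have hBe : Even B := by rw [hB]; exact even_two_mul _
  have hB2 : 2 ≤ B := by omega
  have hBQ : ∀ q, 1 ≤ q → q < Q → q ∣ B := fun q h1 h2 => by
    rw [hB]; exact (Nat.dvd_factorial h1 h2.le).mul_left 2
  refine ⟨max (4 + j0) B, fun k hk ε hε => ?_⟩
  have hkB : B ≤ k := (le_max_right _ _).trans hk
  have hkj : 4 + j0 ≤ k := (le_max_left _ _).trans hk
  obtain ⟨j, rfl⟩ : ∃ j, k = 4 + j := ⟨k - 4, by omega⟩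
  have hj := hj0 j (by omega)
  obtain ⟨ε', hε'⟩ : ∃ ε' : ℝ, ε' = 1 / (8 * ((j : ℝ) + 6) * (j + 4)) := ⟨_, rfl⟩
  have hε'0 : 0 < ε' := by rw [hε']; positivity
  obtain ⟨J, hJ⟩ : ∃ J : ℕ, J = ⌈1 / ε'⌉₊ + 1 := ⟨_, rfl⟩
  have hJ1 : 1 ≤ J := by omega
  have hJε : 1 / ε' ≤ J := by
    rw [hJ]; push_cast
    have := Nat.le_ceil (1 / ε')
    linarith
  obtain ⟨δ₁, hδ₁⟩ : ∃ δ₁ : ℝ, δ₁ = min (1 / 8) (ε' / 8) := ⟨_, rfl⟩
  have hδ₁0 : 0 < δ₁ := by rw [hδ₁]; positivity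
  have hδ₁8 : δ₁ ≤ 1 / 8 := by rw [hδ₁]; exact min_le_left _ _
  have hδ₁ε : δ₁ ≤ ε' / 8 := by rw [hδ₁]; exact min_le_right _ _
  have hεtot : 4 * δ₁ + 2 * π * (48 * C₁ * Q * η) / J ≤ ε' := by
    have hJ0 : (0 : ℝ) < J := by exact_mod_cast hJ1
    have h1 : 2 * π * (48 * C₁ * Q * η) / J ≤ ε' / 2 := by
      rw [hc₀, div_le_iff₀ hJ0]
      rw [div_le_iff₀ hε'0] at hJε
      linarith
    linarith
  obtain ⟨ε₂, hε₂⟩ : ∃ ε₂ : ℝ, ε₂ = min ε (1 / 16) / 4 := ⟨_, rfl⟩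
  have hε₂0 : 0 < ε₂ := by rw [hε₂]; positivity
  have hε₂ε : ε₂ ≤ ε / 4 := by
    rw [hε₂]; have := min_le_left ε (1 / 16); linarith
  have hε₂64 : ε₂ ≤ 1 / 64 := by
    rw [hε₂]; have := min_le_right ε (1 / 16); linarith
  obtain ⟨M₀, hM₀⟩ : ∃ M₀ : ℕ, M₀ = J * Q.factorial := ⟨_, rfl⟩
  have hM₀0 : 0 < M₀ := by rw [hM₀]; positivity
  have hM₀Q : ∀ q, 1 ≤ q → q < Q → q ∣ M₀ := fun q h1 h2 => by
    rw [hM₀]; exact (Nat.dvd_factorial h1 h2.le).mul_left J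
  have hBr : (2 : ℝ) ≤ B := by exact_mod_cast hB2
  have hB0r : (0 : ℝ) < B := by linarith
  have hM₀r : (0 : ℝ) < M₀ := by exact_mod_cast hM₀0
  have hε₁0 : 0 < ε₂ / (2 * B) := by positivity
  have hε₁1 : ε₂ / (2 * B) ≤ 1 := by
    rw [div_le_one (by positivity)]; linarith
  have hnice := nice_ev hAP hC₁ hE hQ hBe (by omega) hBQ hJ1 (M₀ := M₀) (by rw [hM₀]; exact ⟨_, rfl⟩)
    hM₀Q hε₁0 hε₁1 hδ₁0 hδ₁8 hη0 hη1 hη2
  have t1 : Tendsto (fun n : ℕ => (n : ℝ)) atTop atTop := tendsto_natCast_atTop_atTop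
  filter_upwards [hnice, t1.eventually_ge_atTop (2 * B * M₀ / ε₂),
    t1.eventually_ge_atTop (64 * (4 + j) * (j + 6) * (2 * B) / ε₂),
    t1.eventually_ge_atTop (8 * (B + 2) / ε₂)]
    with n hn hn1 hn2 hn3 c N hc1 hc2 hcN hpar
  have hjr : (0 : ℝ) ≤ j := Nat.cast_nonneg j
  obtain ⟨X, v, N'', hMX, hX1, hXge, hBXle, hBXge, hXbig, hvcop, hv16, hv5, hvX, hN', hΔ, hdist⟩ :=
    key_start hB hQf hkB hM₀0 hε₂0 hε₂ε hε₂64 hn1 hn2 hn3 hc1 hc2 hcN hpar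
  have hBXn : (B : ℝ) * X ≤ n := by
    have h1 : ε₂ * n ≤ 1 * n := by gcongr; linarith
    linarith
  -- apply the core
  have hNice : ∀ i, Nice (PA B (v i) X) X C₁ (2 * η ^ 2) (48 * C₁ * Q * η)
      (4 * δ₁ + 2 * π * (48 * C₁ * Q * η) / J) :=
    fun i => hn X (v i) hMX hXge hBXn (hv16 i) (hv5 i) (hvX i) (hvcop i)
  have hcore := core (fun i => PA B (v i) X) hNice hX1 (by linarith) hκ1 (by rw [hc₀]; norm_num)
    (by rw [hc₀]; norm_num) (by push_cast at hΔ; exact hΔ) (Δ := 1 / (8 * (j + 6))) (by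
      rw [div_le_one (by positivity)]; linarith) ?_
  · obtain ⟨f, hf1, hf2⟩ := hcore
    refine ⟨fun i => B * f i + v i, fun i => ?_, fun i => ?_, ?_⟩
    · have := hf1 i
      simp only [PA, mem_filter] at this
      exact this.2
    · have := hf1 i
      simp only [PA, mem_filter, mem_range] at this
      have h1 : (f i : ℝ) ≤ X := by exact_mod_cast this.1.le
      push_cast
      exact hdist i _ (by positivity) (by gcongr)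
    · have h1 : ((∑ i, (B * f i + v i) : ℕ) : ℤ) = N := by
        push_cast
        rw [sum_add_distrib, ← mul_sum]
        have : (∑ i, (f i : ℤ)) = N'' := by exact_mod_cast congrArg (fun z : ℕ => (z : ℤ)) hf2
        rw [this, ← hN']; ring
      exact_mod_cast h1
  · have h1 : (4 + j : ℝ) * (4 * δ₁ + 2 * π * (48 * C₁ * Q * η) / J) ≤ (4 + j) * ε' := by gcongr
    have h2 : 2 * ((j : ℝ) + 6) * ((4 + j) * ε') = 1 / 4 := by
      rw [hε']; field_simp; ring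
    have h3 : 2 * ((j : ℝ) + 6) * (2 * π * (48 * C₁ * Q * η) * (1 / (8 * (j + 6)))) ≤ 1 / 8 := by
      rw [hc₀]
      have e : 2 * ((j : ℝ) + 6) * (2 * π * (48 / 1000) * (1 / (8 * (j + 6)))) =
          π * (24 / 1000) := by field_simp; ring
      rw [e]; linarith
    have h4 : 2 * ((j : ℝ) + 6) * ((4 + j) * (4 * δ₁ + 2 * π * (48 * C₁ * Q * η) / J)) ≤
        2 * ((j : ℝ) + 6) * ((4 + j) * ε') := by gcongr
    have h5 : 2 * ((j : ℝ) + 6) * ((4 + j) * (4 * δ₁ + 2 * π * (48 * C₁ * Q * η) / J) +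
        2 * π * (48 * C₁ * Q * η) * (1 / (8 * (j + 6)))) =
        2 * ((j : ℝ) + 6) * ((4 + j) * (4 * δ₁ + 2 * π * (48 * C₁ * Q * η) / J)) +
        2 * ((j : ℝ) + 6) * (2 * π * (48 * C₁ * Q * η) * (1 / (8 * (j + 6)))) := by ring
    rw [h5]
    linarith

end

end Pool.Agent.Work.MP_713a1e_co
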