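import Mathlib
import Pool.Agent.Work.MP_713a1e_co.Key
import Pool.Agent.Work.MP_713a1e_co.Path

/-! Hopping from an odd vertex to an even vertex through `K` windows. -/

namespace Pool.Agent.Work.MP_713a1e_co

open Finset Filter

noncomputable section

/-- the chain of centres -/
def bz (p v w K : ℕ) (β : ℕ → ℕ) (i : ℕ) : ℤ :=
  if i = 0 then (p : ℤ) - v else if i ≤ K then (β i : ℤ) else (w : ℤ)

/-- the chain of sums -/
def sz (p v : ℕ) (P : ℕ → ℕ) (i : ℕ) : ℤ :=
  (p : ℤ) - v + ∑ j ∈ range i, ((P j : ℤ) - p)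

lemma sz_succ (p v : ℕ) (P : ℕ → ℕ) (i : ℕ) : sz p v P (i + 1) = sz p v P i + P i - p := by
  unfold sz
  rw [sum_range_succ]; ring

theorem hop_ev (hAP : APProp) (hSP : SPProp) : ∃ K0 : ℕ, ∀ K ≥ K0, ∀ ω : ℝ, 0 < ω →
    ω ≤ 1 / 32 → ∀ᶠ n : ℕ in atTop, ∀ (p : ℕ) (β : ℕ → ℕ), Odd p → (9 / 8 : ℝ) * n ≤ p →
      (p : ℝ) ≤ 2 * n → (∀ i, 1 ≤ i → i ≤ K → (n : ℝ) / 8 ≤ β i ∧ (β i : ℝ) ≤ n) →
      ∀ v w : ℕ, 1 ≤ v → v ≤ n → 1 ≤ w → w ≤ n → Odd v → Even w → ∃ b : ℕ → ℕ,
        (∀ i, 1 ≤ i → i ≤ K → Even (b i) ∧ |(b i : ℝ) - β i| ≤ ω * n) ∧ Adj v (b 1) ∧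
        (∀ i, 1 ≤ i → i < K → Adj (p - b i) (b (i + 1))) ∧ Adj (p - b K) w := by
  obtain ⟨k0, hk0⟩ := key hAP hSP
  refine ⟨k0 + 1, fun K hK ω hω hω2 => ?_⟩
  have hKr : (0 : ℝ) < (K : ℝ) + 1 := by positivity
  have hε : 0 < ω / (K + 1) := by positivity
  filter_upwards [hk0 (K + 1) (by omega) (ω / (K + 1)) hε, eventually_ge_atTop 64] with
    n hn hn64 p β hp hpn hpn2 hβ v w hv1 hvn hw1 hwn hv hw
  have hnr : (64 : ℝ) ≤ n := by exact_mod_cast hn64
  have hvr : (v : ℝ) ≤ n := by exact_mod_cast hvn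
  have hv1r : (1 : ℝ) ≤ v := by exact_mod_cast hv1
  have hwr : (w : ℝ) ≤ n := by exact_mod_cast hwn
  have hw1r : (1 : ℝ) ≤ w := by exact_mod_cast hw1
  have hvp : v ≤ p := by
    have : (v : ℝ) ≤ p := by linarith
    exact_mod_cast this
  -- the centres
  set B : ℕ → ℤ := bz p v w K β with hB
  have hB0 : B 0 = (p : ℤ) - v := by simp [hB, bz]
  have hBi : ∀ i, 1 ≤ i → i ≤ K → B i = β i := by
    intro i h1 h2
    simp [hB, bz, show i ≠ 0 by omega, h2]
  have hBK : B (K + 1) = w := by simp [hB, bz]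
  -- bounds of the centres
  have hlow : ∀ i ≤ K, (n : ℝ) / 8 ≤ (p : ℝ) + B (i + 1) - B i ∧
      (p : ℝ) + B (i + 1) - B i ≤ 4 * n := by
    intro i hi
    rcases Nat.eq_zero_or_pos i with h | h
    · subst h
      rw [hB0, hBi 1 le_rfl (by omega)]
      have := hβ 1 le_rfl (by omega)
      push_cast
      constructor <;> linarith [this.1, this.2]
    · rw [hBi i h hi]
      have h1 := hβ i h hi
      rcases Nat.lt_or_ge i K with h2 | h2
      · rw [hBi (i + 1) (by omega) (by omega)]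
        have h3 := hβ (i + 1) (by omega) (by omega)
        push_cast
        constructor <;> linarith [h1.1, h1.2, h3.1, h3.2]
      · have h4 : i = K := by omega
        subst h4
        rw [hBK]
        push_cast
        constructor <;> linarith [h1.1, h1.2]
  set c : Fin (K + 1) → ℕ := fun i => ((p : ℤ) + B ((i : ℕ) + 1) - B i).toNat with hc
  have hcr : ∀ i : Fin (K + 1), ((c i : ℕ) : ℝ) = (p : ℝ) + B ((i : ℕ) + 1) - B i := by
    intro i
    have h1 := (hlow i (by omega)).1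
    have h2 : (0 : ℤ) ≤ (p : ℤ) + B ((i : ℕ) + 1) - B i := by
      have : (0 : ℝ) ≤ (p : ℝ) + B ((i : ℕ) + 1) - B i := by linarith
      exact_mod_cast this
    have h3 : ((c i : ℕ) : ℤ) = (p : ℤ) + B ((i : ℕ) + 1) - B i := Int.toNat_of_nonneg h2
    exact_mod_cast congrArg (fun z : ℤ => (z : ℝ)) h3
  have hsum : ∑ i, (c i : ℝ) = ((v + w + K * p : ℕ) : ℝ) := by
    rw [sum_congr rfl fun i _ => hcr i]
    rw [Fin.sum_univ_eq_sum_range (fun i => (p : ℝ) + B (i + 1) - B i) (K + 1)]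
    have : ∀ i ∈ range (K + 1), (p : ℝ) + B (i + 1) - B i = p + ((B (i + 1) : ℝ) - B i) := by
      intro i _; ring
    rw [sum_congr rfl this, sum_add_distrib, sum_range_sub (fun i => (B i : ℝ)), sum_const,
      card_range, hBK, hB0, nsmul_eq_mul]
    push_cast
    ring
  obtain ⟨P, hP1, hP2, hP3⟩ := hn c (v + w + K * p) (fun i => by rw [hcr i]; exact (hlow i (by omega)).1)
    (fun i => by rw [hcr i]; exact (hlow i (by omega)).2)
    (by rw [hsum, sub_self, abs_zero]; positivity) (by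
      obtain ⟨v', rfl⟩ := hv
      obtain ⟨w', rfl⟩ := hw
      obtain ⟨p', rfl⟩ := hp
      have : K * (2 * p' + 1) = 2 * (K * p') + K := by ring
      rw [this]
      omega)
  -- extend to `ℕ`
  obtain ⟨P', hP'⟩ : ∃ P' : ℕ → ℕ, P' = fun i => if h : i < K + 1 then P ⟨i, h⟩ else 0 := ⟨_, rfl⟩
  have hP'i : ∀ i (h : i < K + 1), P' i = P ⟨i, h⟩ := fun i h => by rw [hP']; simp [h]
  have hP'prime : ∀ i ≤ K, (P' i).Prime := fun i hi => by
    rw [hP'i i (by omega)]; exact hP1 _
  have hP'close : ∀ i ≤ K, |(P' i : ℝ) - ((p : ℝ) + B (i + 1) - B i)| ≤ ω / (K + 1) * n := by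
    intro i hi
    rw [hP'i i (by omega), ← hcr ⟨i, by omega⟩]
    exact hP2 _
  have hP'sum : ∑ i ∈ range (K + 1), P' i = v + w + K * p := by
    rw [← hP3, ← Fin.sum_univ_eq_sum_range]
    exact sum_congr rfl fun i _ => hP'i i i.2
  set S : ℕ → ℤ := sz p v P' with hS
  have hS0 : S 0 = (p : ℤ) - v := by simp [hS, sz]
  have hSs : ∀ i, S (i + 1) = S i + P' i - p := fun i => sz_succ p v P' i
  have hSK : S (K + 1) = w := by
    rw [hS]; unfold sz
    rw [sum_sub_distrib, sum_const, card_range, nsmul_eq_mul]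
    have : (∑ i ∈ range (K + 1), (P' i : ℤ)) = v + w + K * p := by exact_mod_cast hP'sum
    rw [this]; push_cast; ring
  -- closeness
  have hclose : ∀ i ≤ K + 1, |(S i : ℝ) - B i| ≤ i * (ω / (K + 1) * n) := by
    intro i
    induction i with
    | zero => intro _; rw [hS0, hB0]; simp
    | succ i ih =>
      intro hi
      have h1 := ih (by omega)
      have h2 := hP'close i (by omega)
      rw [hSs]
      push_cast
      rw [abs_le] at h1 h2 ⊢
      constructor <;> linarith [h1.1, h1.2, h2.1, h2.2]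
  have hclose' : ∀ i, 1 ≤ i → i ≤ K → |(S i : ℝ) - β i| ≤ ω * n := by
    intro i h1 h2
    have h3 := hclose i (by omega)
    rw [hBi i h1 h2] at h3
    push_cast at h3
    refine h3.trans ?_
    have h4 : (i : ℝ) ≤ K + 1 := by exact_mod_cast (by omega : i ≤ K + 1)
    calc (i : ℝ) * (ω / (K + 1) * n) ≤ (K + 1) * (ω / (K + 1) * n) := by gcongr
      _ = ω * n := by field_simp
  have hωn : ω * n ≤ n / 32 := by
    have : ω * n ≤ 1 / 32 * n := by gcongr
    linarith
  have hSpos : ∀ i, 1 ≤ i → i ≤ K → 0 ≤ S i ∧ S i ≤ p := by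
    intro i h1 h2
    have h3 := hclose' i h1 h2
    have h4 := hβ i h1 h2
    rw [abs_le] at h3
    constructor
    · have : (0 : ℝ) ≤ S i := by linarith [h3.1, h4.1]
      exact_mod_cast this
    · have : (S i : ℝ) ≤ p := by linarith [h3.2, h4.2]
      exact_mod_cast this
  -- parity
  have hPodd : ∀ i ≤ K, Odd (P' i) := by
    intro i hi
    refine (hP'prime i hi).odd_of_ne_two ?_
    intro h2
    have h3 := hP'close i hi
    have h4 := (hlow i hi).1
    rw [h2, abs_le] at h3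
    have h5 : ω / (K + 1) * n ≤ ω * n := by
      have : ω / (K + 1) ≤ ω := div_le_self hω.le (by linarith)
      gcongr
    have := h3.1
    push_cast at this
    linarith
  have heven : ∀ i ≤ K + 1, Even (S i) := by
    intro i
    induction i with
    | zero =>
      intro _
      rw [hS0]
      have h1 : Odd (p : ℤ) := by exact_mod_cast hp
      have h2 : Odd (v : ℤ) := by exact_mod_cast hv
      exact h1.sub_odd h2
    | succ i ih =>
      intro hi
      rw [hSs]
      have h1 : Odd (p : ℤ) := by exact_mod_cast hp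
      have h2 : Odd (P' i : ℤ) := by exact_mod_cast hPodd i (by omega)
      have h3 : S i + P' i - p = S i + ((P' i : ℤ) - p) := by ring
      rw [h3]
      exact (ih (by omega)).add (h2.sub_odd h1)
  have hb : ∀ i, 1 ≤ i → i ≤ K → (((S i).toNat : ℕ) : ℤ) = S i := fun i h1 h2 =>
    Int.toNat_of_nonneg (hSpos i h1 h2).1
  refine ⟨fun i => (S i).toNat, ?_, ?_, ?_, ?_⟩
  · intro i h1 h2
    have h3 := hb i h1 h2
    constructor
    · have h4 := heven i (by omega)
      rw [← h3] at h4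
      exact_mod_cast h4
    · have h4 : (((S i).toNat : ℕ) : ℝ) = S i := by exact_mod_cast congrArg (fun z : ℤ => (z : ℝ)) h3
      rw [h4]
      exact hclose' i h1 h2
  · have h3 := hb 1 le_rfl (by omega)
    have h4 : v + (S 1).toNat = P' 0 := by
      have : S 1 = S 0 + P' 0 - p := hSs 0
      omega
    unfold Adj
    rw [h4]; exact hP'prime 0 (by omega)
  · intro i h1 h2
    have h3 := hb i h1 (by omega)
    have h5 := hb (i + 1) (by omega) (by omega)
    have h6 := hSpos i h1 (by omega)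
    have h7 := hSs i
    have h4 : p - (S i).toNat + (S (i + 1)).toNat = P' i := by omega
    unfold Adj
    dsimp only
    rw [h4]; exact hP'prime i (by omega)
  · have h3 := hb K (by omega) le_rfl
    have h6 := hSpos K (by omega) le_rfl
    have h7 := hSs K
    have h4 : p - (S K).toNat + w = P' K := by omega
    unfold Adj
    dsimp only
    rw [h4]; exact hP'prime K le_rfl

end

end Pool.Agent.Work.MP_713a1e_co
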