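import Mathlib

/-! Counting matchings in a dense bipartite graph of bounded degree. -/

namespace Pool.Agent.Work.MP_713a1e_co

open Finset

/-- matchings of size `t` -/
def MM (E : Finset (ℕ × ℕ)) (t : ℕ) : Finset (Finset (ℕ × ℕ)) := by
  classical
  exact (E.powersetCard t).filter (fun μ => ∀ x ∈ μ, ∀ y ∈ μ, (x.1 = y.1 ∨ x.2 = y.2) → x = y)

lemma mem_MM {E : Finset (ℕ × ℕ)} {t : ℕ} {μ : Finset (ℕ × ℕ)} :
    μ ∈ MM E t ↔ (μ ⊆ E ∧ μ.card = t) ∧
      ∀ x ∈ μ, ∀ y ∈ μ, (x.1 = y.1 ∨ x.2 = y.2) → x = y := by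
  unfold MM
  rw [mem_filter, mem_powersetCard]

/-- the step of the count -/
lemma MM_succ (E : Finset (ℕ × ℕ)) (D t : ℕ)
    (h1 : ∀ P, (E.filter (fun q => q.1 = P)).card ≤ D)
    (h2 : ∀ r, (E.filter (fun q => q.2 = r)).card ≤ D) :
    (MM E t).card * (E.card - 2 * t * D) ≤ (t + 1) * (MM E (t + 1)).card := by
  classical
  -- compatible edges
  set N : Finset (ℕ × ℕ) → Finset (ℕ × ℕ) := fun μ =>
    E.filter (fun q => ∀ x ∈ μ, x.1 ≠ q.1 ∧ x.2 ≠ q.2) with hN
  have hNcard : ∀ μ ∈ MM E t, E.card - 2 * t * D ≤ (N μ).card := by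
    intro μ hμ
    rw [mem_MM] at hμ
    have hsub : E \ N μ ⊆ μ.biUnion (fun x => E.filter (fun q => q.1 = x.1) ∪
        E.filter (fun q => q.2 = x.2)) := by
      intro q hq
      rw [mem_sdiff, hN, mem_filter, not_and] at hq
      have h3 := hq.2 hq.1
      push Not at h3
      obtain ⟨x, hx, h4⟩ := h3
      rw [mem_biUnion]
      refine ⟨x, hx, ?_⟩
      rw [mem_union, mem_filter, mem_filter]
      by_cases h5 : x.1 = q.1
      · exact Or.inl ⟨hq.1, h5.symm⟩
      · exact Or.inr ⟨hq.1, (h4 h5).symm⟩
    have h3 : (E \ N μ).card ≤ 2 * t * D := by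
      calc (E \ N μ).card ≤ _ := card_le_card hsub
        _ ≤ ∑ x ∈ μ, (E.filter (fun q => q.1 = x.1) ∪ E.filter (fun q => q.2 = x.2)).card :=
          card_biUnion_le
        _ ≤ ∑ x ∈ μ, (D + D) := sum_le_sum fun x _ =>
          (card_union_le _ _).trans (add_le_add (h1 _) (h2 _))
        _ = 2 * t * D := by rw [sum_const, hμ.1.2, smul_eq_mul]; ring
    have h4 : (E \ N μ).card = E.card - (N μ).card :=
      card_sdiff_of_subset (filter_subset _ _)
    have h5 : (N μ).card ≤ E.card := card_le_card (filter_subset _ _)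
    omega
  -- pairs
  set S := (MM E t).sigma N with hS
  have hScard : (MM E t).card * (E.card - 2 * t * D) ≤ S.card := by
    rw [hS, card_sigma, ← smul_eq_mul]
    exact card_nsmul_le_sum _ _ _ hNcard
  refine hScard.trans ?_
  -- map to matchings of size `t + 1`
  set F : (Σ _ : Finset (ℕ × ℕ), ℕ × ℕ) → Finset (ℕ × ℕ) := fun s => insert s.2 s.1 with hF
  have hmaps : ∀ s ∈ S, F s ∈ MM E (t + 1) := by
    rintro ⟨μ, q⟩ hs
    rw [hS, mem_sigma] at hs
    obtain ⟨hμ, hq⟩ := hs
    simp only at hμ hq
    rw [hN, mem_filter] at hq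
    rw [mem_MM] at hμ ⊢
    have hqμ : q ∉ μ := fun h => (hq.2 q h).1 rfl
    refine ⟨⟨?_, ?_⟩, ?_⟩
    · intro x hx
      rw [hF] at hx
      rcases mem_insert.1 hx with h | h
      · rw [h]; exact hq.1
      · exact hμ.1.1 h
    · rw [hF]
      simp only
      rw [card_insert_of_notMem hqμ, hμ.1.2]
    · intro x hx y hy hxy
      rw [hF] at hx hy
      rcases mem_insert.1 hx with h | h <;> rcases mem_insert.1 hy with h' | h'
      · rw [h, h']
      · exfalso
        rw [h] at hxy
        have := hq.2 y h'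
        rcases hxy with hxy | hxy
        · exact this.1 hxy.symm
        · exact this.2 hxy.symm
      · exfalso
        rw [h'] at hxy
        have := hq.2 x h
        rcases hxy with hxy | hxy
        · exact this.1 hxy
        · exact this.2 hxy
      · exact hμ.2 x h y h' hxy
  have hfib : ∀ ν ∈ MM E (t + 1), (S.filter (fun s => F s = ν)).card ≤ t + 1 := by
    intro ν hν
    rw [mem_MM] at hν
    have hinj : (S.filter (fun s => F s = ν)).card ≤ ν.card := by
      refine card_le_card_of_injOn (fun s => s.2) ?_ ?_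
      · rintro ⟨μ, q⟩ hs
        simp only [coe_filter, Set.mem_ofPred_eq] at hs
        simp only
        rw [← hs.2]
        exact mem_insert_self _ _
      · rintro ⟨μ, q⟩ hs ⟨μ', q'⟩ hs' h
        simp only [coe_filter, Set.mem_ofPred_eq] at hs hs'
        simp only at h
        subst h
        have e1 : q ∉ μ := by
          intro h
          have h3 := hs.1
          rw [hS, mem_sigma] at h3
          have h4 := h3.2
          simp only [hN, mem_filter] at h4
          exact (h4.2 q h).1 rfl
        have e2 : q ∉ μ' := by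
          intro h
          have h3 := hs'.1
          rw [hS, mem_sigma] at h3
          have h4 := h3.2
          simp only [hN, mem_filter] at h4
          exact (h4.2 q h).1 rfl
        have e3 : μ = ν.erase q := by
          rw [← hs.2, hF]; simp only; rw [erase_insert e1]
        have e4 : μ' = ν.erase q := by
          rw [← hs'.2, hF]; simp only; rw [erase_insert e2]
        rw [e3, e4]
    rw [hν.1.2] at hinj
    exact hinj
  exact card_le_mul_card_image_of_maps_to hmaps (t + 1) hfib

/-- many matchings -/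
theorem MM_lower (E : Finset (ℕ × ℕ)) (D B t : ℕ)
    (h1 : ∀ P, (E.filter (fun q => q.1 = P)).card ≤ D)
    (h2 : ∀ r, (E.filter (fun q => q.2 = r)).card ≤ D)
    (hB : t * B + 2 * t * D ≤ E.card) : B ^ t ≤ (MM E t).card := by
  have h : ∀ s ≤ t, (t * B) ^ s ≤ s.factorial * (MM E s).card := by
    intro s
    induction s with
    | zero =>
      intro _
      have : 0 < (MM E 0).card := by
        rw [card_pos]
        exact ⟨∅, by rw [mem_MM]; simp⟩
      simpa using this
    | succ s ih =>
      intro hs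
      have h3 := ih (by omega)
      have h4 := MM_succ E D s h1 h2
      have h5 : t * B ≤ E.card - 2 * s * D := by
        have : 2 * s * D ≤ 2 * t * D := Nat.mul_le_mul_right _ (by omega)
        omega
      calc (t * B) ^ (s + 1) = (t * B) ^ s * (t * B) := pow_succ _ _
        _ ≤ (s.factorial * (MM E s).card) * (E.card - 2 * s * D) := Nat.mul_le_mul h3 h5
        _ = s.factorial * ((MM E s).card * (E.card - 2 * s * D)) := by ring
        _ ≤ s.factorial * ((s + 1) * (MM E (s + 1)).card) := Nat.mul_le_mul_left _ h4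
        _ = (s + 1).factorial * (MM E (s + 1)).card := by rw [Nat.factorial_succ]; ring
  have h3 := h t le_rfl
  have h4 : t.factorial ≤ t ^ t := Nat.factorial_le_pow t
  rcases Nat.eq_zero_or_pos t with ht | ht
  · subst ht
    simpa using h3
  · have h5 : t ^ t * B ^ t ≤ t ^ t * (MM E t).card := by
      rw [← mul_pow]
      exact h3.trans (Nat.mul_le_mul_right _ h4)
    exact Nat.le_of_mul_le_mul_left h5 (by positivity)

end Pool.Agent.Work.MP_713a1e_co
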