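import Mathlib
import Pool.Agent.Work.MP_713a1e_co.Flex
import Pool.Agent.Work.MP_713a1e_co.MatchCount

/-! The lower bound for the number of rows. -/

namespace Pool.Agent.Work.MP_713a1e_co

open Finset Filter

noncomputable section

/-- compatible pairs -/
def EE (c : ℝ) (p a d W b : ℕ) : Finset (ℕ × ℕ) :=
  (range d ×ˢ range (W - a)).filter
    (fun q => W - a ≤ q.1 ∧ q.2 ≠ b ∧ q.2 ≤ q.1 ∧ (q.1 - q.2) ∈ GG c p a d)

lemma mem_GG {c : ℝ} {p a d g : ℕ} : g ∈ GG c p a d ↔ g < d ∧ c * d ≤ g ∧ (g : ℝ) ≤ (1 - c) * d ∧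
    (p - 2 * g).Prime ∧ (p + 2 * a - 2 * d + 2 * g).Prime := by
  unfold GG
  rw [mem_filter, mem_range]

lemma mem_EE {c : ℝ} {p a d W b : ℕ} {q : ℕ × ℕ} : q ∈ EE c p a d W b ↔
    (q.1 < d ∧ q.2 < W - a) ∧ W - a ≤ q.1 ∧ q.2 ≠ b ∧ q.2 ≤ q.1 ∧ (q.1 - q.2) ∈ GG c p a d := by
  unfold EE
  rw [mem_filter, mem_product, mem_range, mem_range]

lemma EE_ok {c : ℝ} {p a d W b : ℕ} (hda : d < a) {q : ℕ × ℕ} (hq : q ∈ EE c p a d W b) :
    Ok p a d W b q := by
  rw [mem_EE, mem_GG] at hq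
  obtain ⟨⟨h1, h2⟩, h3, h4, h5, h6, -, -, h7, h8⟩ := hq
  refine ⟨h2, h3, h1, h4, ?_, ?_⟩
  · have e : p + 2 * q.2 - 2 * q.1 = p - 2 * (q.1 - q.2) := by omega
    rw [e]; exact h7
  · have e : p + 2 * (q.1 + a - d) - 2 * q.2 = p + 2 * a - 2 * d + 2 * (q.1 - q.2) := by omega
    rw [e]; exact h8

lemma EE_deg1 {c : ℝ} {p a d W b : ℕ} (P : ℕ) :
    ((EE c p a d W b).filter (fun q => q.1 = P)).card ≤ (GG c p a d).card := by
  refine card_le_card_of_injOn (fun q => q.1 - q.2) ?_ ?_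
  · intro q hq
    rw [coe_filter] at hq
    exact (mem_EE.1 hq.1).2.2.2.2
  · rintro ⟨x, y⟩ hq ⟨x', y'⟩ hq' h
    rw [coe_filter] at hq hq'
    have h1 := mem_EE.1 hq.1
    have h2 := mem_EE.1 hq'.1
    have h3 := hq.2
    have h4 := hq'.2
    simp only at h h1 h2 h3 h4
    rw [Prod.mk.injEq]
    omega

lemma EE_deg2 {c : ℝ} {p a d W b : ℕ} (r : ℕ) :
    ((EE c p a d W b).filter (fun q => q.2 = r)).card ≤ (GG c p a d).card := by
  refine card_le_card_of_injOn (fun q => q.1 - q.2) ?_ ?_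
  · intro q hq
    rw [coe_filter] at hq
    exact (mem_EE.1 hq.1).2.2.2.2
  · rintro ⟨x, y⟩ hq ⟨x', y'⟩ hq' h
    rw [coe_filter] at hq hq'
    have h1 := mem_EE.1 hq.1
    have h2 := mem_EE.1 hq'.1
    have h3 := hq.2
    have h4 := hq'.2
    simp only at h h1 h2 h3 h4
    rw [Prod.mk.injEq]
    omega

lemma EE_card {c : ℝ} {p a d W b k : ℕ} (hα : 1 ≤ W - a) (hk1 : k + 1 ≤ W - a)
    (hk2 : k + 1 + (W - a) ≤ d)
    (hk3 : ∀ g ∈ GG c p a d, k + 1 ≤ g ∧ k + 1 + g ≤ d) :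
    (GG c p a d).card * k ≤ (EE c p a d W b).card := by
  classical
  -- the pairs of difference `g`
  set R : ℕ → Finset ℕ := fun g => (Ico (W - a - g) (min (W - a) (d - g))).erase b with hR
  have hRcard : ∀ g ∈ GG c p a d, k ≤ (R g).card := by
    intro g hg
    obtain ⟨h1, h2⟩ := hk3 g hg
    have h3 : (Ico (W - a - g) (min (W - a) (d - g))).card - 1 ≤ (R g).card := pred_card_le_card_erase
    rw [Nat.card_Ico] at h3
    rcases le_total (W - a) (d - g) with h | h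
    · rw [min_eq_left h] at h3; omega
    · rw [min_eq_right h] at h3; omega
  have h1 : ((GG c p a d).sigma R).card ≤ (EE c p a d W b).card := by
    refine card_le_card_of_injOn (fun s => (s.2 + s.1, s.2)) ?_ ?_
    · rintro ⟨g, r⟩ hs
      rw [mem_coe, mem_sigma] at hs
      obtain ⟨hg, hr⟩ := hs
      simp only at hg hr
      rw [hR, mem_erase, mem_Ico, lt_min_iff] at hr
      rw [mem_coe, mem_EE]
      simp only
      have hgd := (mem_GG.1 hg).1
      refine ⟨⟨by omega, by omega⟩, by omega, hr.1, by omega, ?_⟩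
      rw [Nat.add_sub_cancel_left]
      exact hg
    · rintro ⟨g, r⟩ _ ⟨g', r'⟩ _ h
      simp only [Prod.mk.injEq] at h
      obtain ⟨h1, h2⟩ := h
      subst h2
      have : g = g' := by omega
      subst this
      rfl
  refine le_trans ?_ h1
  rw [card_sigma, ← smul_eq_mul]
  exact card_nsmul_le_sum _ _ _ hRcard

/-- rows of a special window -/
lemma window_rows {K : ℕ} {c c₁ c' : ℝ} {n m p a d e Λ L : ℕ} (hc : 0 < c) (hc4 : c ≤ 1 / 4)
    (h : Lv K c c₁ c' n m p a d e Λ L) {s : ℕ} (hs : s < L) (hms : m + 1 ∈ OmT p e Λ L s)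
    (t : ℕ) (ht : 3 * t + 2 ≤ c * d) :
    (GG c p a d).card ^ t ≤ (Rows (OmT p e Λ L s) (m + 1) n).ncard := by
  have hKL := h.hKL
  have hL : 1 ≤ L := by omega
  have hlow := h.hlow
  have hup := h.hup
  have hd := h.hd
  have hda := h.hda
  have hpn := h.hpn
  have hΛ := h.hΛ
  have hm1 := h.hm1
  have hmn := h.hmn
  have hep : e + 2 * Λ ≤ p := by rcases h.he with he | he <;> omega
  have h4 := tt_succ_ge (Λ := Λ) hL s
  have h5 := tt_succ_le (Λ := Λ) hL s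
  have h6 : tt Λ L (s + 1) ≤ Λ := by
    have := tt_mono (Λ := Λ) hL (show s + 1 ≤ L by omega)
    rwa [tt_last hL] at this
  obtain ⟨W, hW⟩ : ∃ W, W = tt Λ L (s + 1) - tt Λ L s := ⟨_, rfl⟩
  obtain ⟨e₁, he₁⟩ : ∃ e₁, e₁ = e + 2 * tt Λ L s := ⟨_, rfl⟩
  have hOm : OmT p e Λ L s = Om p e₁ W := by unfold OmT; rw [hW, he₁]
  rw [hOm] at hms ⊢
  have he₁2 : Even e₁ := by rw [he₁]; exact h.he2.add (even_two_mul _)
  have he₁W : e₁ + 2 * W ≤ p := by omega
  have hcd : c * d ≤ d / 4 := by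
    have : (0 : ℝ) ≤ d := Nat.cast_nonneg d
    nlinarith
  have ht4 : 4 * (3 * t + 2) ≤ d := by
    have : 4 * (3 * (t : ℝ) + 2) ≤ d := by linarith
    exact_mod_cast this
  -- the count
  have hcount : ∀ b, b < W → (b < W - a ∨ d ≤ b) →
      (GG c p a d).card ^ t ≤ (Rows (Om p e₁ W) (p - (e₁ + 2 * b)) (e₁ + 2 * b)).ncard := by
    intro b hbW hb
    have hE : (GG c p a d).card * (3 * t) ≤ (EE c p a d W b).card := by
      refine EE_card (k := 3 * t) (by omega) (by omega) (by omega) ?_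
      intro g hg
      rw [mem_GG] at hg
      constructor
      · have : ((3 * t + 1 : ℕ) : ℝ) ≤ g := by
          push_cast
          linarith [hg.2.1]
        exact_mod_cast this
      · have : ((3 * t + 1 + g : ℕ) : ℝ) ≤ d := by
          push_cast
          linarith [hg.2.2.1]
        exact_mod_cast this
    have h7 := MM_lower (EE c p a d W b) (GG c p a d).card (GG c p a d).card t
      (fun P => EE_deg1 P) (fun r => EE_deg2 r) (by
        have e : t * (GG c p a d).card + 2 * t * (GG c p a d).card =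
          (GG c p a d).card * (3 * t) := by ring
        rw [e]; exact hE)
    refine h7.trans ?_
    refine flex_count (a := a) (d := d) hd hda (by omega) (by omega) hbW hb h.had h.hp h.hp2 he₁2
      h.h1 h.h3 h.h2 he₁W (MM (EE c p a d W b) t) ?_
    intro μ hμ
    rw [mem_MM] at hμ
    exact ⟨hμ.2, fun q hq => EE_ok hda (hμ.1.1 hq)⟩
  rcases mem_Om.1 hms with ⟨u, hu, hmu⟩ | ⟨u, hu, hmu⟩
  · -- even `m + 1`
    have hub : u < W - a ∨ d ≤ u := by
      left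
      rcases h.he with he | he <;> omega
    have h8 := hcount u hu hub
    rw [rows_reverse] at h8
    have e1 : e₁ + 2 * u = m + 1 := hmu.symm
    have e2 : p - (e₁ + 2 * u) = n := by omega
    rw [e2, e1] at h8
    exact h8
  · have hub : u < W - a ∨ d ≤ u := by
      right
      rcases h.he with he | he
      · omega
      · omega
    have h8 := hcount u hu hub
    have e1 : p - (e₁ + 2 * u) = m + 1 := hmu.symm
    have e2 : e₁ + 2 * u = n := by omega
    rw [e1, e2] at h8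
    exact h8

/-- **The lower bound**. -/
theorem lower (hAP : APProp) (hSP : SPProp) (hCh : ChoiceT) :
    ∃ δ : ℝ, 0 < δ ∧ ∀ᶠ n : ℕ in atTop,
      (n : ℝ) ^ (δ * n) ≤ ((Rows (Icc 1 n) 1 n).ncard : ℝ) := by
  obtain ⟨n₁, hn₁⟩ := exists_path hAP hSP hCh
  obtain ⟨K, hK, c, c₁, c', hc, hc4, hc₁, hc', hev⟩ := lv_ev hAP hSP hCh
  refine ⟨c * c₁ / 24, by positivity, ?_⟩
  have t1 : Tendsto (fun n : ℕ => (n : ℝ)) atTop atTop := tendsto_natCast_atTop_atTop
  -- `|G| ≥ √n`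
  have hGlarge : ∀ᶠ n : ℕ in atTop, (n : ℝ) ^ (1 / 2 : ℝ) ≤ c' * n / (Real.log n) ^ 2 := by
    have h1 : ∀ᶠ x : ℝ in atTop, ‖Real.log x ^ (2 : ℝ)‖ ≤ c' * ‖x ^ (1 / 2 : ℝ)‖ :=
      (isLittleO_log_rpow_rpow_atTop 2 (by norm_num : (0 : ℝ) < 1 / 2)).bound hc'
    filter_upwards [t1.eventually h1, t1.eventually_ge_atTop 3] with n hn hn3
    have hn0 : (0 : ℝ) < n := by linarith
    have hlog : 0 < Real.log n := Real.log_pos (by linarith)
    rw [Real.norm_of_nonneg (by positivity), Real.norm_of_nonneg (by positivity)] at hn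
    rw [le_div_iff₀ (by positivity)]
    have h2 : Real.log n ^ (2 : ℝ) = Real.log n ^ 2 := by norm_num
    rw [h2] at hn
    calc (n : ℝ) ^ (1 / 2 : ℝ) * Real.log n ^ 2 ≤
          (n : ℝ) ^ (1 / 2 : ℝ) * (c' * (n : ℝ) ^ (1 / 2 : ℝ)) := by gcongr
      _ = c' * ((n : ℝ) ^ (1 / 2 : ℝ) * (n : ℝ) ^ (1 / 2 : ℝ)) := by ring
      _ = c' * n := by
          rw [← Real.rpow_add hn0]; norm_num
  filter_upwards [hev, hGlarge, eventually_ge_atTop (5 * n₁), eventually_ge_atTop 3,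
    t1.eventually_ge_atTop (24 / (c * c₁))] with n hlv hG hn5 hn3 hnbig
  obtain ⟨m, p, a, d, e, Λ, L, h⟩ := hlv
  have hn3r : (3 : ℝ) ≤ n := by exact_mod_cast hn3
  have hn0 : (0 : ℝ) < n := by linarith
  have hm : n₁ ≤ m := by have := h.hn5; omega
  obtain ⟨s, hsL, hms, hsub, hpath⟩ := h.pfx hK m (hn₁ m hm)
  have hcc : 0 < c * c₁ := by positivity
  rw [div_le_iff₀ hcc] at hnbig
  -- the exponent
  obtain ⟨t, ht⟩ : ∃ t : ℕ, t = ⌊(c * c₁ * n) / 6⌋₊ := ⟨_, rfl⟩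
  have ht1 : (t : ℝ) ≤ (c * c₁ * n) / 6 := by rw [ht]; exact Nat.floor_le (by positivity)
  have ht2 : (c * c₁ * n) / 6 < t + 1 := by rw [ht]; exact Nat.lt_floor_add_one _
  have hcd : c * c₁ * n ≤ c * d := by
    have := h.hdn
    calc c * c₁ * n = c * (c₁ * n) := by ring
      _ ≤ c * d := by gcongr
  have h7 := window_rows hc hc4 h hsL hms t (by linarith)
  have hmn := h.hmn
  have h8 := rows_pfx (S := Icc 1 n) (T := OmT p e Λ L s) (a := 1) (b := m + 1) (c := n)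
    (fun x hx => by
      have := mem_Icc.1 (hsub hx)
      exact mem_Icc.2 ⟨by omega, this.2⟩) hpath
  have h9 : (((GG c p a d).card ^ t : ℕ) : ℝ) ≤ ((Rows (Icc 1 n) 1 n).ncard : ℝ) := by
    exact_mod_cast h7.trans h8
  refine le_trans ?_ h9
  push_cast
  have h10 : (n : ℝ) ^ (1 / 2 : ℝ) ≤ ((GG c p a d).card : ℝ) := hG.trans h.hG
  calc (n : ℝ) ^ (c * c₁ / 24 * n) ≤ (n : ℝ) ^ ((1 / 2 : ℝ) * t) := by
        apply Real.rpow_le_rpow_of_exponent_le (by linarith)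
        linarith
    _ = ((n : ℝ) ^ (1 / 2 : ℝ)) ^ t := by
        rw [Real.rpow_mul hn0.le, Real.rpow_natCast]
    _ ≤ ((GG c p a d).card : ℝ) ^ t := by gcongr

end

end Pool.Agent.Work.MP_713a1e_co
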